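import Pool.Agent.Lib.MP_028aa5_nt.T.St2

/-! Divided differences, and the rational point near a vertex with many loops. -/

namespace Pool.Agent.Lib.MP_028aa5_nt.T

open Finset
open scoped ComplexConjugate Classical

theorem st_Int : IntSt := by
  intro j Wd g A θ ε hg hd hA hW hD hN
  induction j generalizing g A θ ε with
  | zero =>
    obtain ⟨a, ha⟩ := card_pos.1 (hA ▸ Nat.succ_pos _ : 0 < #A)
    have h := hN a ha
    rw [Polynomial.eq_one_of_monic_natDegree_zero hg hd] at h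
    exact ⟨1, le_rfl, by simp, by simpa using h⟩
  | succ j ih =>
    obtain ⟨a0, h0⟩ := card_pos.1 (hA ▸ Nat.succ_pos _ : 0 < #A)
    have hε := (hN a0 h0).nonneg
    have hc : #(A.erase a0) = j + 1 := by rw [card_erase_of_mem h0, hA, Nat.add_sub_cancel]
    have hb : ∀ S ⊆ A, |∏ a ∈ S, (a - a0)| ≤ (Wd : ℤ) ^ #S := fun S hS => by
      rw [abs_prod, ← prod_const]
      exact prod_le_prod (fun _ _ => abs_nonneg _) fun a ha => hD a (hS ha) a0 h0
    have he : ∀ a, (a - a0) * (g /ₘ (Polynomial.X - Polynomial.C a0)).eval a =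
        g.eval a - g.eval a0 := fun a => by
      have := congrArg (Polynomial.eval a)
        (Polynomial.modByMonic_add_div g (Polynomial.X - Polynomial.C a0))
      rw [Polynomial.modByMonic_X_sub_C_eq_C_eval] at this
      simp only [Polynomial.eval_add, Polynomial.eval_mul, Polynomial.eval_sub, Polynomial.eval_C,
        Polynomial.eval_X] at this
      linarith
    obtain ⟨V, h1, h2, h3⟩ := ih (g /ₘ (Polynomial.X - Polynomial.C a0)) (A.erase a0)
      (θ * (∏ a ∈ A.erase a0, (a - a0) : ℤ)) (Wd ^ j * (ε + ε))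
      ((Polynomial.leadingCoeff_divByMonic_X_sub_C g (fun h => by
        rw [Polynomial.natDegree_eq_of_degree_eq_some (n := 0) h] at hd
        omega) a0).trans hg)
      (by rw [Polynomial.natDegree_divByMonic _ (Polynomial.monic_X_sub_C a0), hd,
        Polynomial.natDegree_X_sub_C, Nat.add_sub_cancel]) hc
      (fun a ha b hb => hD a (mem_of_mem_erase ha) b (mem_of_mem_erase hb)) fun a ha => by
        have h4 := ((hN a (mem_of_mem_erase ha)).sub (hN a0 h0)).int_mul
          (∏ a ∈ (A.erase a0).erase a, (a - a0))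
        have h5 := hb ((A.erase a0).erase a) ((erase_subset _ _).trans (erase_subset _ _))
        rw [card_erase_of_mem ha, hc, Nat.add_sub_cancel] at h5
        rw [← mul_sub, ← Int.cast_sub, ← he] at h4
        rw [← mul_prod_erase _ _ ha]
        convert h4.mono (mul_le_mul_of_nonneg_right (c := (Wd : ℝ) ^ j) (by exact_mod_cast h5)
          (by positivity)) using 1
        simp only [Int.cast_mul]
        ring
    have h4 := hb _ (erase_subset a0 A)
    have h5 : ∏ a ∈ A.erase a0, (a - a0) ≠ 0 :=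
      prod_ne_zero_iff.2 fun a ha => sub_ne_zero.2 (ne_of_mem_erase ha)
    generalize ∏ a ∈ A.erase a0, (a - a0) = P at h3 h4 h5
    have hW' : (1 : ℝ) ≤ Wd := by exact_mod_cast hW
    refine ⟨V * P.natAbs, Nat.mul_pos h1 (Int.natAbs_pos.2 h5), ?_, Nr.mono (η := (2 * Wd ^ j) ^ j *
      (Wd ^ j * (ε + ε))) ?_ ?_⟩
    · have h6 : P.natAbs ≤ Wd ^ (j + 1) := by
        rw [hc, Int.abs_eq_natAbs] at h4
        exact_mod_cast h4
      refine (Nat.mul_le_mul h2 h6).trans ?_
      rw [← pow_add]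
      exact Nat.pow_le_pow_right hW (by nlinarith)
    · rw [Nat.cast_mul, Nat.cast_natAbs, Int.cast_abs]
      rcases abs_choice (P : ℝ) with e | e <;> rw [e]
      · convert h3 using 1
        ring
      · convert h3.neg using 1
        ring
    · calc _ = (2 * (Wd : ℝ) ^ j) ^ (j + 1) * ε := by ring
        _ ≤ _ := by gcongr; exact Nat.le_succ j

namespace SeedJ

/-- many points in a short interval give `k + 1` points that are close to each other -/
lemma cluster {A : Finset ℕ} {k Wd : ℕ} {W0 Na : ℝ} (hk : 2 * k < Na) (hA : Na ≤ #A)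
    (hW : 2 * k * W0 / Na + 1 ≤ Wd) (hD : ∀ a ∈ A, ∀ b ∈ A, (a : ℝ) - b ≤ W0) :
    1 ≤ Wd ∧ ∃ B ⊆ A, k + 1 ≤ #B ∧ ∀ a ∈ B, ∀ b ∈ B, |(a : ℤ) - b| ≤ Wd := by
  have hN : 0 < Na := lt_of_le_of_lt (by positivity) hk
  have hne : A.Nonempty := card_pos.1 (by exact_mod_cast hN.trans_le hA)
  obtain ⟨m, hm, hmin⟩ := exists_min_image A (fun a => a) hne
  have h0 : 0 ≤ W0 := by simpa using hD m hm m hm
  have h1 : (1 : ℝ) ≤ Wd := le_trans (le_add_of_nonneg_left (by positivity)) hW
  have h2 : 1 ≤ Wd := by exact_mod_cast h1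
  refine ⟨h2, ?_⟩
  by_contra hn
  have h3 := card_le_fibers A (range (⌊W0 / Wd⌋₊ + 1)) (fun a => (a - m) / Wd) (L := k)
    (fun a ha => mem_range.2 (Nat.lt_succ_of_le (Nat.le_floor (Nat.cast_div_le.trans (by
      rw [Nat.cast_sub (hmin a ha)]
      exact div_le_div_of_nonneg_right (hD a ha m hm) (by positivity)))))) fun c _ => by
      by_contra h
      refine hn ⟨_, filter_subset (fun a => (a - m) / Wd = c) A,
        by exact_mod_cast not_le.1 h, fun a ha b hb => ?_⟩
      obtain ⟨ha, ea⟩ := mem_filter.1 ha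
      obtain ⟨hb, eb⟩ := mem_filter.1 hb
      have a1 : m ≤ a := hmin a ha
      have b1 : m ≤ b := hmin b hb
      have a2 := Nat.div_add_mod (a - m) Wd
      have b2 := Nat.div_add_mod (b - m) Wd
      have a3 := Nat.mod_lt (a - m) h2
      have b3 := Nat.mod_lt (b - m) h2
      rw [ea] at a2
      rw [eb] at b2
      rw [abs_le]
      omega
  rw [card_range, Nat.cast_succ] at h3
  have h4 : (⌊W0 / Wd⌋₊ : ℝ) * Wd ≤ W0 :=
    (le_div_iff₀ (by positivity)).1 (Nat.floor_le (by positivity))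
  have h5 : 2 * k * W0 ≤ Wd * Na :=
    (div_le_iff₀ hN).1 ((le_add_of_nonneg_right zero_le_one).trans hW)
  have h6 : 2 * k * (⌊W0 / Wd⌋₊ : ℝ) ≤ Na := by
    refine le_of_mul_le_mul_left ?_ (zero_lt_one.trans_le h1)
    calc _ = 2 * k * ((⌊W0 / Wd⌋₊ : ℝ) * Wd) := by ring
      _ ≤ 2 * k * W0 := by gcongr
      _ ≤ _ := h5
  generalize (⌊W0 / Wd⌋₊ : ℝ) = t at h3 h6
  linarith

end SeedJ

theorem st_Seed (hN2 : N2St) (hB : BasSt) (hL : LoopSt) (hI : IntSt) : SeedSt := by
  intro π N E φ ρ nW Y' Na e0 R n Wd ok hE ρ0 ρ1 hR hLv hRay hcard n1 hκ hY hNa hk hW he0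
  have hR' : (0 : ℝ) < R := by exact_mod_cast hR
  have hκ1 := hB.κ1_pos π ok
  have hκ0 : 0 < π.κ := hκ1.trans_le (hB.κ1_le π ok)
  obtain ⟨e, he, x, hx, b, A, h1, b0, b1, h2⟩ :=
    hL π N E φ R ρ nW n ok hE ρ0 ρ1 hR' hLv hRay hcard n1 hκ
  have h3 : ∀ a ∈ A, |(a : ℝ) - b| ≤ (2 * π.P) ^ n * (8 * n + 4) * π.κ1 := by
    intro a ha
    obtain ⟨a0, h, -⟩ := h2 a ha
    have a0' : (0 : ℝ) < a := by exact_mod_cast a0
    have b0' : (0 : ℝ) < b := by exact_mod_cast b0
    have h4 := Real.abs_exp_sub_one_le (h.trans (by linarith : (4 * n + 2) * π.κ1 ≤ 1))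
    rw [Real.exp_sub, Real.exp_log a0', Real.exp_log b0', div_sub_one b0'.ne', abs_div,
      abs_of_pos b0', div_le_iff₀ b0'] at h4
    calc _ ≤ _ := h4
      _ ≤ 2 * ((4 * n + 2) * π.κ1) * (2 * π.P) ^ n := by gcongr
      _ = _ := by ring
  obtain ⟨W1, B, hBA, hBc, hBD⟩ := SeedJ.cluster hk (hNa.trans h1) hW fun a ha c hc => by
    have := abs_le.1 (h3 a ha)
    have := abs_le.1 (h3 c hc)
    linarith
  have W1' : (1 : ℝ) ≤ Wd := by exact_mod_cast W1
  have e00 : 0 ≤ e0 := le_trans (by have := ok.P; positivity) he0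
  have h4 : ∀ j, ∃ (V : ℕ) (m : ℤ), j ∈ Icc 1 π.k → 1 ≤ V ∧ V ≤ Wd ^ (π.k ^ 2) ∧
      |φ x j - (R : ℝ) ^ j * m / V| ≤ (2 * Wd ^ π.k) ^ π.k * e0 := by
    intro j
    by_cases hj : j ∈ Icc 1 π.k
    · obtain ⟨j1, j2⟩ := mem_Icc.1 hj
      obtain ⟨C, hCB, hC⟩ := exists_subset_card_eq (s := B) (n := j + 1) (by omega)
      obtain ⟨V, v1, v2, m, hm⟩ := hI j Wd (Polynomial.X ^ j - Polynomial.C ((b : ℤ) ^ j))
        (C.map Nat.castEmbedding) (φ x j / R ^ j) (e0 / R ^ j)
        (Polynomial.monic_X_pow_sub_C _ (by omega)) Polynomial.natDegree_X_pow_sub_C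
        (by rw [card_map, hC]) W1
        (by
          simp only [mem_map, Nat.castEmbedding_apply, forall_exists_index, and_imp,
            forall_apply_eq_imp_iff₂]
          exact fun a ha c hc => hBD a (hCB ha) c (hCB hc))
        (by
          simp only [mem_map, Nat.castEmbedding_apply, forall_exists_index, and_imp,
            forall_apply_eq_imp_iff₂]
          intro a ha
          convert ((h2 a (hBA (hCB ha))).2.2 j hj).mono
            (div_le_div_of_nonneg_right he0 (by positivity)) using 1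
          simp [mul_comm])
      refine ⟨V, m, fun _ => ⟨v1, v2.trans (Nat.pow_le_pow_right W1 (Nat.pow_le_pow_left j2 2)),
        ?_⟩⟩
      have v1' : (1 : ℝ) ≤ V := by exact_mod_cast v1
      have e1 : φ x j - (R : ℝ) ^ j * m / V = R ^ j * (V * (φ x j / R ^ j) - m) / V := by
        field_simp
      rw [e1, abs_div, abs_mul, abs_of_pos (pow_pos hR' j), Nat.abs_cast]
      calc _ ≤ _ := div_le_self (by positivity) v1'
        _ ≤ R ^ j * ((2 * Wd ^ j) ^ j * (e0 / R ^ j)) := by gcongr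
        _ = (2 * Wd ^ j) ^ j * e0 := by field_simp
        _ ≤ (2 * Wd ^ π.k) ^ j * e0 := by gcongr
        _ ≤ _ := by
          gcongr
          linarith [one_le_pow₀ (n := π.k) W1']
    · exact ⟨0, 0, fun h => absurd h hj⟩
  choose V m hV using h4
  have p1 : 1 ≤ N.pos π x := Real.one_le_exp (by positivity)
  refine ⟨e, he, x, hx, ∏ j ∈ Icc 1 π.k, V j, fun j => m j * ∏ i ∈ (Icc 1 π.k).erase j, V i,
    one_le_prod' fun j hj => (hV j hj).1, ?_,
    (hN2.coef' _ _ _ _ hκ0.le ok.κ (zero_le_one.trans p1)).trans ?_⟩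
  · have := prod_le_pow_card _ _ _ fun j hj => (hV j hj).2.1
    rw [Nat.card_Icc, Nat.add_sub_cancel, ← pow_mul, ← pow_succ] at this
    exact_mod_cast this
  · rw [mul_assoc, mul_assoc, mul_assoc]
    refine mul_le_mul_of_nonneg_left ((sum_le_card_nsmul _ _
      (Y' ^ π.k * ((2 * Wd ^ π.k) ^ π.k * e0)) fun j hj => ?_).trans_eq ?_) (by positivity)
    · have e1 : (R : ℝ) ^ j * (m j * ∏ i ∈ (Icc 1 π.k).erase j, V i : ℤ) /
          (∏ j ∈ Icc 1 π.k, V j : ℕ) = R ^ j * m j / V j := by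
        have v0 : ((∏ i ∈ (Icc 1 π.k).erase j, V i : ℕ) : ℝ) ≠ 0 :=
          Nat.cast_ne_zero.2 (prod_pos fun i hi => (hV i (mem_of_mem_erase hi)).1).ne'
        rw [← mul_prod_erase _ _ hj, Nat.cast_mul, Int.cast_mul, Int.cast_natCast, ← mul_assoc,
          mul_div_mul_right _ _ v0]
      rw [Pi.sub_apply, e1, mul_comm]
      exact mul_le_mul ((pow_le_pow_left₀ (zero_le_one.trans p1) (hY x) j).trans
        (pow_le_pow_right₀ (p1.trans (hY x)) (mem_Icc.1 hj).2)) (hV j hj).2.2 (abs_nonneg _)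
        (pow_nonneg (zero_le_one.trans (p1.trans (hY x))) _)
    · rw [Nat.card_Icc, Nat.add_sub_cancel, nsmul_eq_mul]

end Pool.Agent.Lib.MP_028aa5_nt.T
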