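import Pool.Agent.Lib.MP_028aa5_nt.T.St5

/-! The last two steps of the assembly. -/

namespace Pool.Agent.Lib.MP_028aa5_nt.T

open Finset
open scoped ComplexConjugate Classical

namespace MainJ

lemma ps_mono {π : Par} (h : 0 ≤ π.κ1) {c c' : ℕ} (hc : c ≤ c') : π.ps c ≤ π.ps c' :=
  Real.exp_le_exp.2 (mul_le_mul_of_nonneg_right (by exact_mod_cast hc) h)

lemma ps_add (π : Par) (c c' : ℕ) : π.ps (c + c') = π.ps c * Real.exp (c' * π.κ1) := by
  unfold Par.ps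
  rw [← Real.exp_add]
  congr 1
  push_cast
  ring

end MainJ

open MainJ

theorem st_Core (hB : BasSt) (hA : CoreASt) (hC : CoreBSt) : CoreSt := by
  intro k η a hk hη hη1 ha
  obtain ⟨ε1, ε2, ρ2, G0, c, h1, h2, h3, hc, hC⟩ := hC k η a hk hη hη1 ha
  obtain ⟨ε, ρ, e0, r0, r1, hA⟩ := hA k ε1 ρ2 hk h1 h3
  refine ⟨ε, ε2, ρ, G0, e0, h2, r0, r1, fun M C D hM hD => ?_⟩
  obtain ⟨X1, hA⟩ := hA M C D c hM hD hc
  obtain ⟨X2, hC⟩ := hC C D hD
  refine ⟨max (max X1 X2) 1, fun X hX π i0 i1 B cL cU Nc N E φ pk pM pG hR a0 a1 aB hI hL hRay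
    hRe cLU hNc hNM y0 y1 y2 => ?_⟩
  have X1' : X1 ≤ X := le_trans (le_trans (le_max_left _ _) (le_max_left _ _)) hX
  have X2' : X2 ≤ X := le_trans (le_trans (le_max_right _ _) (le_max_left _ _)) hX
  have X3 : 1 ≤ X := le_trans (le_max_right _ _) hX
  have k1 := (hB.κ1_pos π hR.ok).le
  have l4 : Real.exp (Nc * π.κ1) ≤ 4 := by
    rw [← Real.exp_log (show (0 : ℝ) < 4 by norm_num)]
    exact Real.exp_le_exp.2 hNc
  have l2 : Real.log 4 ≤ 2 := by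
    have := Real.log_two_lt_d9
    rw [show (4 : ℝ) = 2 ^ 2 by norm_num, Real.log_pow]
    push_cast
    linarith
  have cell : ∀ x, cL ≤ N.cell x ∧ N.cell x < cU + Nc := fun x => by
    cases h : N.isU x
    · have := mem_Ico.1 (hRe.cl x h)
      omega
    · have := mem_Ico.1 (hRe.cu x h)
      omega
  have hpos : ∀ x, π.ps cL ≤ N.pos π x ∧ N.pos π x ≤ 4 * X := fun x => by
    refine ⟨ps_mono k1 (cell x).1, (ps_mono k1 (cell x).2.le).trans ?_⟩
    rw [ps_add]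
    have : 0 < π.ps cU := Real.exp_pos _
    nlinarith
  have hJ : ∀ x, (N.cell x + 1) * π.Nf ≤ (cU + Nc) * π.Nf := fun x =>
    Nat.mul_le_mul_right _ (cell x).2
  have Y1 : 1 ≤ π.ps cL := Real.one_le_exp (by positivity)
  obtain ⟨E', γ, τ, q, _, γ0, t, vU, vL, Gd, hE, hφ, hq, ht, hBl⟩ :=
    hA X X1' π N E φ (π.ps cL) Nc ((cU + Nc) * π.Nf) pk pM hR hI hL hRay hRe.card
      (hNc.trans l2) hNM Y1 y2 hpos hJ
  have P1 : (1 : ℝ) ≤ π.P := by linarith [hR.ok.P]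
  refine hC X X2' π i0 i1 B cL cU Nc _ N E' φ γ τ q γ0 t vU vL Gd pk pG hR a0 a1 aB
    (hB.mono π N E E' hI hE)
    ⟨hRe.card, hRe.cu, hRe.cl, fun e he => hRe.tk e (hE he), fun e he => hRe.big e (hE he)⟩
    cLU hNc y0 ((ps_mono k1 cLU).trans y1) (le_trans ?_ y2) hJ hφ hq ht hBl
  exact le_self_pow₀ P1 (by norm_num)

theorem st_Main (hF : FtSt) (hS : RegSt) (h0 : A0St) (h2 : A2St) (hC : CoreSt) (hU : SetupSt) :
    MainSt := by
  suffices h : ∀ (k : ℕ) (η : ℝ), 1 ≤ k → 0 < η → η ≤ 1 → ∃ C X0 : ℝ, ∀ X ≥ X0, ∀ H : ℝ,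
      Real.exp (C * Real.log X ^ (1 / 3 : ℝ)) ≤ H → H ≤ X →
      ∫ x in X..2 * X, supS k H x ≤ η * (H * X) by
    intro k η hk hη
    obtain ⟨C, X0, h⟩ := h k (min η 1) hk (lt_min hη one_pos) (min_le_right _ _)
    refine ⟨C, X0, fun X hX H h1 h2 => (h X hX H h1 h2).trans ?_⟩
    have H0 : 0 < H := (Real.exp_pos _).trans_le h1
    exact mul_le_mul_of_nonneg_right (min_le_left _ _) (mul_nonneg H0.le (H0.le.trans h2))
  intro k η hk hη hη1
  obtain ⟨a, ha, hU⟩ := hU ((300 / η) ^ 2)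
  set B : ℕ := ⌈2 / a⌉₊ with hBd
  have aB : 2 ≤ a * B := by
    have := Nat.le_ceil (2 / a)
    rw [div_le_iff₀ ha] at this
    linarith
  have B0 : (0 : ℝ) < B := by
    by_contra h
    nlinarith [mul_nonneg ha.le (show (0 : ℝ) ≤ -B by linarith)]
  have B1 : 1 ≤ B := by exact_mod_cast B0
  set η1 : ℝ := min (η * (300 / η) ^ 2 / (100 * B)) 1 with hη1d
  have e1 : 0 < η1 := lt_min (by positivity) one_pos
  have e2 : η1 ≤ 1 := min_le_right _ _
  obtain ⟨ε, ε2, ρ, G0, p1, p2, p3, p4, hC⟩ := hC k (η1 / 2) a hk (by positivity) (by linarith) ha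
  obtain ⟨G, M, D, K0, g0, g1, m1, d1, h2⟩ :=
    h2 k 92171 G0 η1 (η / 200) ρ ε ε2 hk e1 (by positivity) p3 p4 p1 p2
  have k0 : (1 : ℝ) ≤ k := by exact_mod_cast hk
  have C0 : 0 < 300 * k * D := by positivity
  obtain ⟨X1, hC⟩ := hC M (300 * k * D) D m1 (by linarith)
  obtain ⟨X2, hU⟩ := hU k G M (300 * k * D) (max K0 1) g1 C0
  obtain ⟨X3, s1⟩ := hS.small (300 * k * D) (min a (1 / 20)) (lt_min ha (by norm_num))
  obtain ⟨X4, s2⟩ := hS.poly 2 (1 / 20) 0 (by norm_num)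
  set T : ℝ := max (max (|K0| + 1) (800 / η)) 1 with hT
  refine ⟨300 * k * D + 1, max (max (max X1 X2) (max X3 X4)) (max 9 (Real.exp (T ^ 3))),
    fun X hX H hH hHX => ?_⟩
  simp only [ge_iff_le, max_le_iff] at hX
  obtain ⟨⟨⟨x1, x2⟩, x3, x4⟩, x5, x6⟩ := hX
  have X0 : 0 < X := by linarith
  have T1 : 1 ≤ T := le_max_right _ _
  have l1 : T ^ 3 ≤ Real.log X := (Real.le_log_iff_exp_le X0).2 x6
  have l2 : 1 ≤ Real.log X := (one_le_pow₀ T1).trans l1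
  set u : ℝ := Real.log X ^ (1 / 3 : ℝ) with hu
  have u1 : T ≤ u := by
    have := Real.rpow_le_rpow (by positivity) l1 (show (0 : ℝ) ≤ 1 / 3 by norm_num)
    rwa [← Real.rpow_natCast, ← Real.rpow_mul (by linarith), show ((3 : ℕ) : ℝ) * (1 / 3) = 1 by
      norm_num, Real.rpow_one] at this
  have u2 : u ≤ Real.log X ^ (3 / 4 : ℝ) := Real.rpow_le_rpow_of_exponent_le l2 (by norm_num)
  set P1 : ℝ := Real.exp (300 * k * u) with hP1
  have PD : P1 ^ D = Real.exp (300 * k * D * u) := by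
    rw [hP1, ← Real.exp_mul]
    congr 1
    ring
  have PX : P1 ^ D ≤ X ^ min a (1 / 20) := by
    rw [PD]
    exact (Real.exp_le_exp.2 (mul_le_mul_of_nonneg_left u2 C0.le)).trans (s1 X x3)
  have PXa : P1 ^ D ≤ X ^ a := PX.trans (Real.rpow_le_rpow_of_exponent_le (by linarith)
    (min_le_left _ _))
  have PXb : P1 ^ D ≤ X ^ (1 / 20 : ℝ) := PX.trans (Real.rpow_le_rpow_of_exponent_le (by linarith)
    (min_le_right _ _))
  have PD1 : 1 ≤ P1 ^ D := by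
    rw [PD]
    exact Real.one_le_exp (by positivity)
  obtain ⟨Nf, c0, Nc, i0, i1, n1, a0, a1, hL, hπ⟩ := hU X x2
  set π : Par := ⟨k, X ^ (-(7 * k + 4 : ℝ)), Nf, G, 2, ∅, M⟩ with hπd
  obtain ⟨q1, q2, q3, q4, q5, q6, q7, q8, q9, q10, q11⟩ := hπ π rfl rfl rfl rfl
  rw [← PD] at q1 q2
  have κ00 : 0 < π.κ0 := Real.rpow_pos_of_pos X0 _
  have κ10 : 0 ≤ π.κ1 := mul_nonneg (Nat.cast_nonneg _) κ00.le
  have ps0 : 0 < π.ps c0 := Real.exp_pos _
  have κp : 0 < π.κ := (mul_pos_iff_of_pos_right ps0).1 (one_pos.trans_le (PD1.trans q1))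
  have κ1 : π.κ ≤ 1 := (le_mul_of_one_le_right κp.le (le_max_right K0 1)).trans q3
  have κX : 1 ≤ π.κ * X := PD1.trans (q1.trans (mul_le_mul_of_nonneg_left q6 κp.le))
  have hpr : ∀ p ∈ SS i0 i1, p.Prime ∧ X ^ a < p ∧ p ≤ 2 ^ i1 := fun p hp => by
    obtain ⟨h1, h2⟩ := mem_filter.1 hp
    rw [mem_Ioc] at h1
    exact ⟨h2, a0.trans_lt (by exact_mod_cast h1.1), h1.2⟩
  by_contra hcon
  rw [not_le] at hcon
  have hgood := h0 π η X H (SS i0 i1) B c0 Nc hη hη1 κ00 n1 g1 κ1 κX ?_ hHX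
    (fun p hp => (hpr p hp).1) ?_ hL B1 ?_ q5 q6 q7 q8 hcon
  rotate_left
  · have h1 : 800 / η ≤ Real.exp u := by
      have : 800 / η ≤ T := (le_max_right _ _).trans (le_max_left _ _)
      linarith [Real.add_one_le_exp u]
    rw [add_mul, one_mul, Real.exp_add, ← PD] at hH
    rw [div_le_iff₀ hη] at h1
    have h3 := mul_le_mul_of_nonneg_left hH hη.le
    have h4 := mul_le_mul_of_nonneg_left h1 (zero_le_one.trans PD1)
    clear * - h3 h4 q2
    nlinarith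
  · have h1 : #(SS i0 i1) ≤ 2 ^ i1 := (card_filter_le _ _).trans (by simp)
    have h2 : (#(SS i0 i1) : ℝ) ≤ 2 ^ i1 := by exact_mod_cast h1
    refine h2.trans (a1.trans ?_)
    simpa using Real.rpow_le_rpow_of_exponent_le (show 1 ≤ X by linarith)
      (show (1 / 10 : ℝ) ≤ 1 by norm_num)
  · intro n n0 hn
    refine hF.cnt _ B n (X ^ a) (Real.one_le_rpow (by linarith) ha.le)
      (fun p hp => ⟨(hpr p hp).1, (hpr p hp).2.1.le⟩) n0 ?_
    rw [← Real.rpow_natCast, ← Real.rpow_mul X0.le]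
    have := Real.rpow_le_rpow_of_exponent_le (show 1 ≤ X by linarith) aB
    rw [Real.rpow_two] at this
    clear * - this hn x5
    nlinarith
  have KP : K0 ≤ P1 := by
    have h1 : |K0| + 1 ≤ T := (le_max_left _ _).trans (le_max_left _ _)
    have h2 := Real.add_one_le_exp (300 * k * u)
    clear * - h1 h2 u1 k0 T1 hP1
    nlinarith [le_abs_self K0, abs_nonneg K0]
  obtain ⟨P, PP, cL, cU, N, E, φ, r1, r2, r3, r4, r5, r6, r7, r8, r9, r10, r11, r12⟩ :=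
    h2 π (fw (SS i0 i1) B) P1 c0 Nc rfl rfl rfl κ00 n1
      ((mul_le_mul_of_nonneg_left (le_max_left K0 1) κp.le).trans q3) KP q9 q1 (hF.fw_bd _ _)
      (fun p hp h m hm => hF.fw_mul _ B p m (fun r hr => (hpr r hr).1) hp
        (fun h' => by linarith [(hpr p h').2.1]) hm)
      (hgood.trans (by
        refine Nat.cast_le.2 (card_le_card (monotone_filter_right _ fun c _ ⟨α, h⟩ => ⟨α, ?_⟩))
        refine le_trans ((min_le_left _ _).trans ?_) h
        gcongr))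
  refine hC X x1 { π with P := P, PP := PP } i0 i1 B cL cU Nc N E φ rfl rfl g0
    ⟨r1, r2, r3.trans_eq PD, r4, rfl, ?_, q4⟩ a0 a1 aB r9 r10 r12 r11 r5 q10 q11 ?_
    ((ps_mono κ10 r6).trans q6) r8
  · rw [div_le_iff₀ X0]
    exact κX
  · have h1 := s2 X x4
    rw [pow_zero, mul_one] at h1
    have h3 : X = X ^ (9 / 10 : ℝ) * (X ^ (1 / 20 : ℝ) * X ^ (1 / 20 : ℝ)) := by
      rw [← Real.rpow_add X0, ← Real.rpow_add X0]
      norm_num
    have h4 : 0 < π.ps cL := Real.exp_pos _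
    have h5 : 0 < X ^ (1 / 20 : ℝ) := by linarith
    have h6 : 0 < X ^ (9 / 10 : ℝ) := Real.rpow_pos_of_pos X0 _
    have h7 : X / 2 ≤ X ^ (1 / 20 : ℝ) * π.ps cL :=
      q5.trans (r7.trans (mul_le_mul_of_nonneg_right PXb h4.le))
    show X ^ (9 / 10 : ℝ) ≤ π.ps cL
    refine le_of_mul_le_mul_left (le_trans ?_ h7) h5
    have h8 := mul_le_mul_of_nonneg_left h1 (mul_pos h5 h6).le
    clear * - h8 h3
    nlinarith

end Pool.Agent.Lib.MP_028aa5_nt.T
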