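import Pool.Agent.Lib.MP_028aa5_nt.T.St2

/-! Exact denominators and orbits of rational phases. -/

namespace Pool.Agent.Lib.MP_028aa5_nt.T

open Finset
open scoped ComplexConjugate Classical

namespace DenA

theorem refl (k : ℕ) (α : Ph) : EqZ k α α := fun _ _ => ⟨0, by simp⟩

theorem symm {k : ℕ} {α β : Ph} (h : EqZ k α β) : EqZ k β α := fun j hj => by
  obtain ⟨n, hn⟩ := h j hj
  exact ⟨-n, by rw [hn]; push_cast; ring⟩

theorem trans {k : ℕ} {α β γ : Ph} (h : EqZ k α β) (h' : EqZ k β γ) : EqZ k α γ := fun j hj => by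
  obtain ⟨n, hn⟩ := h j hj
  obtain ⟨m, hm⟩ := h' j hj
  exact ⟨m + n, by rw [hn, hm]; push_cast; ring⟩

theorem add {k : ℕ} {α β α' β' : Ph} (h : EqZ k α β) (h' : EqZ k α' β') :
    EqZ k (α + α') (β + β') := fun j hj => by
  obtain ⟨n, hn⟩ := h j hj
  obtain ⟨m, hm⟩ := h' j hj
  exact ⟨n + m, by rw [Pi.add_apply, Pi.add_apply, hn, hm]; push_cast; ring⟩

theorem dilZ {k : ℕ} {α β : Ph} (a : ℕ) (h : EqZ k α β) : EqZ k (dil a α) (dil a β) :=
  fun j hj => by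
    obtain ⟨n, hn⟩ := h j hj
    exact ⟨(a : ℤ) ^ j * n, by rw [dil, dil, hn]; push_cast; ring⟩

theorem dil_dil (a b : ℝ) (α : Ph) : dil a (dil b α) = dil (a * b) α := by
  funext j
  simp only [dil]
  ring

theorem dil_one (α : Ph) : dil 1 α = α := by
  funext j
  simp [dil]

theorem mod {k q a b : ℕ} {γ : Ph} (h : EqZ k (fun j => q * γ j) 0) (hab : a ≡ b [MOD q]) :
    EqZ k (dil a γ) (dil b γ) := fun j hj => by
  obtain ⟨n, hn⟩ := h j hj
  obtain ⟨c, hc⟩ := (hab.pow j).symm.dvd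
  have hc' : (a : ℝ) ^ j - (b : ℝ) ^ j = q * c := by exact_mod_cast hc
  simp only [Pi.zero_apply, zero_add] at hn
  refine ⟨c * n, ?_⟩
  simp only [dil]
  push_cast
  rw [← hn]
  linear_combination γ j * hc'

theorem ex {k q : ℕ} {γ : Ph} (q1 : 1 ≤ q) (h : EqZ k (fun j => q * γ j) 0) :
    ∃ q' : ℕ, q' ≤ q ∧ Den k q' γ := by
  have hex : ∃ q : ℕ, 1 ≤ q ∧ EqZ k (fun j => q * γ j) 0 := ⟨q, q1, h⟩
  obtain ⟨a1, a2⟩ := Nat.find_spec hex
  refine ⟨Nat.find hex, Nat.find_min' hex ⟨q1, h⟩, a1, a2, fun r _ hr => ?_⟩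
  by_contra hd
  refine Nat.find_min hex (Nat.mod_lt r a1)
    ⟨Nat.pos_of_ne_zero fun e => hd (Nat.dvd_of_mod_eq_zero e), fun j hj => ?_⟩
  obtain ⟨n, hn⟩ := a2 j hj
  obtain ⟨m, hm⟩ := hr j hj
  have e : ((r % Nat.find hex : ℕ) : ℝ) + (Nat.find hex : ℕ) * (r / Nat.find hex : ℕ) = r := by
    exact_mod_cast Nat.mod_add_div r (Nat.find hex)
  simp only [Pi.zero_apply, zero_add] at hn hm ⊢
  refine ⟨m - (r / Nat.find hex : ℕ) * n, ?_⟩
  rw [Int.cast_sub, Int.cast_mul, Int.cast_natCast, ← hn, ← hm]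
  linear_combination γ j * e

theorem mulZ {k : ℕ} {γ γ' : Ph} (q : ℕ) (h : EqZ k γ γ') (h' : EqZ k (fun j => q * γ j) 0) :
    EqZ k (fun j => q * γ' j) 0 := fun j hj => by
  obtain ⟨n, hn⟩ := h j hj
  obtain ⟨m, hm⟩ := h' j hj
  simp only [Pi.zero_apply, zero_add] at hm ⊢
  refine ⟨m - q * n, ?_⟩
  push_cast
  rw [← hm, hn]
  ring

theorem cop {k q a : ℕ} {γ : Ph} (ha : Nat.Coprime a q) (h : Den k q γ) : Den k q (dil a γ) := by
  refine ⟨h.1, fun j hj => ?_, fun r r1 hr => ?_⟩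
  · obtain ⟨n, hn⟩ := h.2.1 j hj
    simp only [Pi.zero_apply, zero_add, dil] at hn ⊢
    refine ⟨(a : ℤ) ^ j * n, ?_⟩
    push_cast
    rw [← hn]
    ring
  · rcases Nat.eq_zero_or_pos a with rfl | a0
    · rw [Nat.coprime_zero_left] at ha
      rw [ha]
      exact one_dvd r
    refine (ha.symm.pow_right k).dvd_of_dvd_mul_right
      (h.2.2 (r * a ^ k) (Nat.mul_pos r1 (pow_pos a0 k)) fun j hj => ?_)
    obtain ⟨n, hn⟩ := hr j hj
    obtain ⟨i, hi⟩ := Nat.exists_eq_add_of_le (mem_Icc.1 hj).2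
    simp only [Pi.zero_apply, zero_add, dil] at hn ⊢
    refine ⟨(a : ℤ) ^ i * n, ?_⟩
    push_cast
    rw [← hn, hi]
    ring

theorem val_mul {q : ℕ} [NeZero q] (a b : (ZMod q)ˣ) :
    ((a * b : (ZMod q)ˣ) : ZMod q).val ≡ (a : ZMod q).val * (b : ZMod q).val [MOD q] := by
  rw [Units.val_mul, ZMod.val_mul]
  exact Nat.mod_modEq _ _

theorem val_un {q p : ℕ} [NeZero q] (h : Nat.Coprime p q) :
    ((un q p : (ZMod q)ˣ) : ZMod q).val ≡ p [MOD q] := by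
  rw [un, dif_pos h, ZMod.coe_unitOfCoprime, ZMod.val_natCast]
  exact Nat.mod_modEq _ _

theorem shift {k q : ℕ} [NeZero q] {γ : Ph} (h : EqZ k (fun j => q * γ j) 0) {x y : (ZMod q)ˣ}
    (z : (ZMod q)ˣ) (hxy : EqZ k (dil (x : ZMod q).val γ) (dil (y : ZMod q).val γ)) :
    EqZ k (dil ((z * x : (ZMod q)ˣ) : ZMod q).val γ) (dil ((z * y : (ZMod q)ˣ) : ZMod q).val γ) := by
  have h1 := dilZ (z : ZMod q).val hxy
  rw [dil_dil, dil_dil, ← Nat.cast_mul, ← Nat.cast_mul] at h1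
  exact trans (mod h (val_mul z x)) (trans h1 (mod h (val_mul z y).symm))

theorem stab (k q : ℕ) [NeZero q] (γ0 : Ph) (h : EqZ k (fun j => q * γ0 j) 0) : ∃ h : ℕ, 0 < h ∧
    ∀ γ (a0 : ℕ), Nat.Coprime a0 q → EqZ k γ (dil a0 γ0) →
      #{a : (ZMod q)ˣ | EqZ k γ (dil (a : ZMod q).val γ0)} = h := by
  refine ⟨#{a : (ZMod q)ˣ | EqZ k (dil ((1 : (ZMod q)ˣ) : ZMod q).val γ0)
    (dil (a : ZMod q).val γ0)}, card_pos.2 ⟨1, mem_filter.2 ⟨mem_univ _, refl _ _⟩⟩,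
    fun γ a0 ha hγ => ?_⟩
  have h1 := trans hγ (mod h (val_un ha).symm)
  refine (card_equiv (Equiv.mulLeft (un q a0)) fun a => ?_).symm
  simp only [mem_filter, mem_univ, true_and, Equiv.coe_mulLeft]
  constructor
  · intro e
    have := shift h (un q a0) e
    rw [mul_one] at this
    exact trans h1 this
  · intro e
    have := shift h (un q a0)⁻¹ (trans (symm h1) e)
    rwa [inv_mul_cancel, inv_mul_cancel_left] at this

theorem primes {q : ℕ} {P Q ω : ℝ} {S : Finset ℕ} (q1 : 1 ≤ q) (q2 : q ≤ Q) (P1 : 1 < P)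
    (h : Real.log Q ≤ ω * Real.log P) (hS : ∀ p ∈ S, p.Prime ∧ P < p ∧ p ∣ q) : (#S : ℝ) ≤ ω := by
  have h1 : ∏ p ∈ S, p ≤ q := Nat.le_of_dvd q1
    (prod_primes_dvd q (fun p hp => (hS p hp).1.prime) fun p hp => (hS p hp).2.2)
  have h2 : P ^ #S ≤ ∏ p ∈ S, (p : ℝ) := by
    rw [← prod_const]
    exact prod_le_prod (fun _ _ => by linarith) fun p hp => (hS p hp).2.1.le
  have h3 : P ^ #S ≤ Q := by
    rw [← Nat.cast_prod] at h2
    exact h2.trans ((Nat.cast_le.2 h1).trans q2)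
  have h4 := Real.log_le_log (by positivity) h3
  rw [Real.log_pow] at h4
  exact le_of_mul_le_mul_right (h4.trans h) (Real.log_pos P1)

end DenA

theorem st_Den : DenSt where
  refl := DenA.refl
  symm _ _ _ := DenA.symm
  trans _ _ _ _ := DenA.trans
  add _ _ _ _ _ := DenA.add
  dil _ _ _ := DenA.dilZ
  dil_dil := DenA.dil_dil
  dil_one := DenA.dil_one
  dil_add a α β := by
    funext j
    simp only [dil, Pi.add_apply]
    ring
  dil_sub a α β := by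
    funext j
    simp only [dil, Pi.sub_apply]
    ring
  mod _ _ _ _ _ := DenA.mod
  ex _ _ _ := DenA.ex
  uniq _ _ _ _ h h' := Nat.dvd_antisymm (h.2.2 _ h'.1 h'.2.1) (h'.2.2 _ h.1 h.2.1)
  congr _ q _ _ h h' :=
    ⟨h'.1, DenA.mulZ q h h'.2.1, fun r r1 hr => h'.2.2 r r1 (DenA.mulZ r (DenA.symm h) hr)⟩
  cop _ _ _ _ := DenA.cop
  un _ _ _ a h := (DenA.val_mul a _).trans ((DenA.val_un h).mul_left _)
  stab := DenA.stab
  primes _ _ _ _ _ := DenA.primes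

end Pool.Agent.Lib.MP_028aa5_nt.T
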