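import Pool.Agent.Lib.MP_028aa5_nt.T.St4

/-! Components of a rational phase with a large denominator are small. -/

namespace Pool.Agent.Lib.MP_028aa5_nt.T

open Finset
open scoped ComplexConjugate Classical

namespace Gq

/-- many small primes that do not divide `q` -/
theorem primes (hD : DenSt) (K Q B : ℕ) (hK : 1 ≤ K) : ∃ Q0 : ℕ, ∀ q : ℕ, Q0 < q →
    ∃ (z : ℕ) (S : Finset ℕ), Q * z ^ K < q ∧ B ≤ #S ∧ ∀ p ∈ S, p.Prime ∧ p ≤ z ∧ ¬ p ∣ q := by
  obtain ⟨P0, hP0⟩ := blk_card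
  set B' := B + (2 * K + 1) with hB'
  set P1 := P0 + (Q + 1) + 3 + (8 * B') ^ 2 with hP1
  refine ⟨(Q + 1) * (2 * P1) ^ K, fun q hq => ?_⟩
  have hex : ∃ P, q ≤ (Q + 1) * (2 * (P + 1)) ^ K := ⟨q, by
    calc q ≤ (2 * (q + 1)) ^ 1 := by rw [pow_one]; omega
      _ ≤ (2 * (q + 1)) ^ K := Nat.pow_le_pow_right (by omega) hK
      _ ≤ _ := Nat.le_mul_of_pos_left _ (by omega)⟩
  set P := Nat.find hex with hP
  have h1 : q ≤ (Q + 1) * (2 * (P + 1)) ^ K := Nat.find_spec hex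
  have h2 : P1 ≤ P := by
    by_contra h
    have : (2 * (P + 1)) ^ K ≤ (2 * P1) ^ K := Nat.pow_le_pow_left (by omega) K
    have := Nat.mul_le_mul_left (Q + 1) this
    omega
  have h3 : (Q + 1) * (2 * P) ^ K < q := by
    have := Nat.find_min hex (show P - 1 < P by omega)
    rwa [Nat.sub_add_cancel (by omega), not_le] at this
  have h4 : q ≤ P ^ (2 * K + 1) := by
    calc q ≤ (Q + 1) * (2 * (P + 1)) ^ K := h1
      _ ≤ P * (P ^ 2) ^ K :=
          Nat.mul_le_mul (by omega) (Nat.pow_le_pow_left (by nlinarith [show 3 ≤ P by omega]) K)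
      _ = _ := by ring
  have p1 : (1 : ℝ) < P := Nat.one_lt_cast.2 (by omega)
  have h5 : (#{p ∈ blk P | p ∣ q} : ℝ) ≤ (2 * K + 1 : ℕ) := by
    refine hD.primes q P ((P : ℝ) ^ (2 * K + 1)) _ _ (by omega) (by exact_mod_cast h4) p1
      (by rw [Real.log_pow]) fun p hp => ?_
    simp only [blk, mem_filter, mem_Ioc] at hp
    exact ⟨hp.1.2, Nat.cast_lt.2 hp.1.1.1, hp.2⟩
  have h6 : (B' : ℝ) ≤ #(blk P) := by
    refine le_trans ?_ (hP0 P (by omega))
    have l0 := Real.log_pos p1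
    have s0 : 0 < √(P : ℝ) := Real.sqrt_pos.2 (by linarith)
    have l1 : Real.log P ≤ 2 * √(P : ℝ) := by
      have := Real.log_le_sub_one_of_pos s0
      rw [Real.log_sqrt (by linarith)] at this
      linarith
    have l2 : (8 * B' : ℝ) ≤ √(P : ℝ) := by
      refine Real.le_sqrt_of_sq_le ?_
      exact_mod_cast (show (8 * B') ^ 2 ≤ P by omega)
    rw [le_div_iff₀ (by positivity)]
    calc (B' : ℝ) * (4 * Real.log P) ≤ B' * (4 * (2 * √(P : ℝ))) := by gcongr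
      _ = 8 * B' * √(P : ℝ) := by ring
      _ ≤ √(P : ℝ) * √(P : ℝ) := by gcongr
      _ = P := Real.mul_self_sqrt (by linarith)
  refine ⟨2 * P, {p ∈ blk P | ¬ p ∣ q}, lt_of_le_of_lt (Nat.mul_le_mul_right _ (by omega)) h3, ?_,
    fun p hp => ?_⟩
  · have e1 := card_filter_add_card_filter_not (s := blk P) (fun p => p ∣ q)
    have e2 : #{p ∈ blk P | p ∣ q} ≤ 2 * K + 1 := by exact_mod_cast h5
    have e3 : B' ≤ #(blk P) := by exact_mod_cast h6
    omega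
  · simp only [blk, mem_filter, mem_Ioc] at hp
    exact ⟨hp.1.2, hp.1.1.2, hp.2⟩

/-- the difference of two small dilates still has a large denominator -/
theorem den {k q q' Q z b b' : ℕ} {γ : Ph} (h : Den k q γ) (hb : b ≠ b') (b1 : b ≤ z)
    (b2 : b' ≤ z) (hq : Q * z ^ (k * k) < q) (q1 : 1 ≤ q') (q2 : q' ≤ Q)
    (hz : EqZ k (fun j => q' * (dil b γ - dil b' γ) j) 0) : False := by
  set d : ℕ → ℤ := fun j => (b : ℤ) ^ j - (b' : ℤ) ^ j with hd
  have z1 : 1 ≤ z := by omega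
  have d0 : ∀ j ∈ Icc 1 k, 0 < (d j).natAbs := by
    intro j hj
    rw [Int.natAbs_pos, hd, sub_ne_zero]
    intro e
    have j0 : j ≠ 0 := Nat.one_le_iff_ne_zero.1 (mem_Icc.1 hj).1
    exact hb (Nat.pow_left_injective j0 (show b ^ j = b' ^ j by exact_mod_cast e))
  have d1 : ∀ j ∈ Icc 1 k, (d j).natAbs ≤ z ^ k := by
    intro j hj
    have a1 : b ^ j ≤ z ^ k :=
      (Nat.pow_le_pow_left b1 j).trans (Nat.pow_le_pow_right z1 (mem_Icc.1 hj).2)
    have a2 : b' ^ j ≤ z ^ k :=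
      (Nat.pow_le_pow_left b2 j).trans (Nat.pow_le_pow_right z1 (mem_Icc.1 hj).2)
    have e : d j = ((b ^ j : ℕ) : ℤ) - ((b' ^ j : ℕ) : ℤ) := by simp [hd]
    omega
  have n0 : 0 < q' * ∏ j ∈ Icc 1 k, (d j).natAbs := Nat.mul_pos q1 (prod_pos d0)
  have n1 : q' * ∏ j ∈ Icc 1 k, (d j).natAbs ≤ Q * z ^ (k * k) := by
    refine Nat.mul_le_mul q2 ((prod_le_pow_card _ _ _ d1).trans ?_)
    rw [Nat.card_Icc, Nat.add_sub_cancel, pow_mul]
  have n2 := h.2.2 _ n0 fun j hj => by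
    obtain ⟨n, hn⟩ := hz j hj
    obtain ⟨c, hc⟩ : d j ∣ ((∏ j ∈ Icc 1 k, (d j).natAbs : ℕ) : ℤ) :=
      Int.natAbs_dvd.1 (Int.natCast_dvd_natCast.2 (dvd_prod_of_mem _ hj))
    have hc' : ((∏ j ∈ Icc 1 k, (d j).natAbs : ℕ) : ℝ) = ((b : ℝ) ^ j - (b' : ℝ) ^ j) * c := by
      have := congrArg (Int.cast : ℤ → ℝ) hc
      rw [Int.cast_natCast] at this
      rw [this, hd]
      push_cast
      ring
    refine ⟨c * n, ?_⟩
    simp only [Pi.sub_apply, dil, Pi.zero_apply, zero_add] at hn ⊢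
    rw [Nat.cast_mul, hc', Int.cast_mul, ← hn]
    ring
  have := Nat.le_of_dvd n0 n2
  omega

end Gq

theorem st_Gq (hN : NSt) (hD : DenSt) (hG : G0St) (hW : W3St) : GqSt := by
  intro k β k1 β0
  obtain ⟨Q, hQ⟩ := hW k (β / 2) k1 (by positivity)
  obtain ⟨B, hB⟩ := exists_nat_ge (2 / β)
  obtain ⟨Q0, hQ0⟩ := Gq.primes hD (k * k) Q B (Nat.mul_pos k1 k1)
  refine ⟨Q0, fun q _ γ χ hq hγ => ?_⟩
  obtain ⟨z, S, h1, h2, h3⟩ := hQ0 q hq
  have q0 : (0 : ℝ) < q := Nat.cast_pos.2 hγ.1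
  have S0 : 2 / β ≤ #S := hB.trans (Nat.cast_le.2 h2)
  set s := ∑ m ∈ range q, ‖gch k q γ χ m‖ ^ 2 with hs
  have s0 : 0 ≤ s := sum_nonneg fun _ _ => sq_nonneg _
  have gram : ∀ b b' : ℕ, ‖∑ m ∈ range q, (χ b * e (ph k γ (b * m))) *
      conj (χ b' * e (ph k γ (b' * m)))‖ ≤ ‖∑ m ∈ range q, e (ph k (dil b γ - dil b' γ) m)‖ := by
    intro b b'
    have : ∑ m ∈ range q, (χ b * e (ph k γ (b * m))) * conj (χ b' * e (ph k γ (b' * m))) =
        χ b * conj (χ b') * ∑ m ∈ range q, e (ph k (dil b γ - dil b' γ) m) := by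
      rw [mul_sum]
      refine sum_congr rfl fun m _ => ?_
      rw [hN.ph_sub, hN.ph_dil, hN.ph_dil, ← e_mul_conj, map_mul]
      ring
    rw [this, norm_mul, norm_mul, Complex.norm_conj]
    exact mul_le_of_le_one_left (norm_nonneg _)
      (mul_le_one₀ (χ.norm_le_one _) (norm_nonneg _) (χ.norm_le_one _))
  have triv : ∀ α : Ph, ‖∑ m ∈ range q, e (ph k α m)‖ ≤ q := fun α =>
    (norm_sum_le _ _).trans (by simp)
  have off : ∀ b ∈ S, ∀ b' ∈ S, b ≠ b' →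
      ‖∑ m ∈ range q, e (ph k (dil b γ - dil b' γ) m)‖ ≤ β / 2 * q := by
    intro b hb b' hb' hne
    by_contra! h
    obtain ⟨q', a1, a2, a3⟩ := hQ q (dil b γ - dil b' γ) hγ.1 (fun j hj => by
      obtain ⟨n, hn⟩ := hγ.2.1 j hj
      refine ⟨((b : ℤ) ^ j - (b' : ℤ) ^ j) * n, ?_⟩
      simp only [Pi.sub_apply, dil, Pi.zero_apply, zero_add] at hn ⊢
      push_cast
      rw [← hn]
      ring) h.le
    exact Gq.den hγ hne (h3 b hb).2.1 (h3 b' hb').2.1 h1 a1 a2 a3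
  have hb := bessel (range q) S (gch k q γ χ) (fun b m => χ b * e (ph k γ (b * m)))
    (B := q + #S * (β / 2 * q)) (fun b hb => by
      rw [← add_sum_erase S _ hb]
      refine add_le_add ((gram b b).trans (triv _)) ?_
      refine (sum_le_card_nsmul _ _ (β / 2 * q) fun b' hb' => (gram b b').trans
        (off b hb b' (mem_of_mem_erase hb') (ne_of_mem_erase hb').symm)).trans ?_
      rw [nsmul_eq_mul]
      exact mul_le_mul_of_nonneg_right (Nat.cast_le.2 card_erase_le) (by positivity))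
    (by positivity)
  have e1 : ∑ b ∈ S, ‖∑ m ∈ range q, gch k q γ χ m * (χ b * e (ph k γ (b * m)))‖ ^ 2 =
      #S * s ^ 2 := by
    rw [sum_congr rfl (g := fun _ => s ^ 2), sum_const, nsmul_eq_mul]
    intro b hb
    rw [← hG.proj k q γ χ b hγ.2.1 ((Nat.Prime.coprime_iff_not_dvd (h3 b hb).1).2 (h3 b hb).2.2),
      Complex.norm_real, Real.norm_of_nonneg s0]
  rw [e1, ← hs] at hb
  rcases s0.eq_or_lt with h | h
  · rw [← h]
    positivity
  have S1 : (0 : ℝ) < #S := lt_of_lt_of_le (by positivity) S0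
  have e2 : #S * s ≤ q + #S * (β / 2 * q) := le_of_mul_le_mul_right (by nlinarith) h
  rw [div_le_iff₀ β0] at S0
  refine le_of_mul_le_mul_left ?_ S1
  nlinarith [mul_le_mul_of_nonneg_right S0 q0.le]

end Pool.Agent.Lib.MP_028aa5_nt.T
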