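import Pool.Agent.Lib.MP_028aa5_nt.T.St3
import Pool.Agent.Lib.MP_30b5ba_nt.P.Typ

/-! From the integral to many cells that carry an atom. -/

namespace Pool.Agent.Lib.MP_028aa5_nt.T

open Finset
open scoped ComplexConjugate Classical

namespace A0

/-- first moment of the deviation of the number of prime factors -/
theorem dev {S : Finset ℕ} (hS : ∀ p ∈ S, p.Prime) {η X : ℝ} (h0 : 0 < η) (hX : 0 < X)
    (hc : (#S : ℝ) ≤ X) (hL : (300 / η) ^ 2 ≤ LL S) :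
    ∑ n ∈ Icc 1 ⌊8 * X⌋₊, |1 - (#{p ∈ S | p ∣ n} : ℝ) / LL S| ≤ η * X / 20 := by
  have l0 : 0 < LL S := lt_of_lt_of_le (by positivity) hL
  have k1 : ∑ n ∈ Icc 1 ⌊8 * X⌋₊, ((#{p ∈ S | p ∣ n} : ℝ) - LL S) ^ 2 ≤ 3 * ⌊8 * X⌋₊ * LL S :=
    MP_30b5ba_nt.P.Typ.tk ⌊8 * X⌋₊ S hS (Nat.le_floor (by linarith))
  have k2 := sq_sum_le_card_mul_sum_sq (s := Icc 1 ⌊8 * X⌋₊)
    (f := fun n => |1 - (#{p ∈ S | p ∣ n} : ℝ) / LL S|)
  have k3 : ∑ n ∈ Icc 1 ⌊8 * X⌋₊, |1 - (#{p ∈ S | p ∣ n} : ℝ) / LL S| ^ 2 ≤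
      3 * ⌊8 * X⌋₊ / LL S := by
    rw [le_div_iff₀ l0]
    refine le_of_mul_le_mul_right (le_trans (le_of_eq ?_) k1) l0
    rw [mul_assoc, sum_mul]
    refine sum_congr rfl fun n _ => ?_
    rw [sq_abs]
    field_simp
    ring
  have k4 : (⌊8 * X⌋₊ : ℝ) ≤ 8 * X := Nat.floor_le (by positivity)
  rw [Nat.card_Icc, Nat.add_sub_cancel] at k2
  refine le_of_sq_le_sq (k2.trans ((mul_le_mul_of_nonneg_left k3 (by positivity)).trans ?_))
    (by positivity)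
  rw [div_pow, div_le_iff₀ (by positivity)] at hL
  rw [← mul_div_assoc, div_le_iff₀ l0]
  nlinarith [mul_le_mul_of_nonneg_left hL (sq_nonneg X),
    mul_self_le_mul_self (Nat.cast_nonneg _) k4]

theorem ps_add (π : Par) (c d : ℕ) : π.ps (c + d) = π.ps c * Real.exp (d * π.κ1) := by
  rw [Par.ps, Par.ps, ← Real.exp_add, Nat.cast_add, add_mul]

theorem ps_G (π : Par) (c : ℕ) : π.ps c * (1 + π.κ) = π.ps (c + π.G) := by
  rw [ps_add, Par.κ, add_sub_cancel]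

/-- every integer lies in at most `G` windows -/
theorem few (π : Par) (h : 0 < π.κ1) (T : Finset ℕ) (n : ℕ) :
    #{c ∈ T | n ∈ Ioc ⌊π.ps c⌋₊ ⌊π.ps c * (1 + π.κ)⌋₊} ≤ π.G := by
  rcases ({c ∈ T | n ∈ Ioc ⌊π.ps c⌋₊ ⌊π.ps c * (1 + π.κ)⌋₊} : Finset ℕ).eq_empty_or_nonempty
    with h0 | h0
  · rw [h0]
    exact Nat.zero_le _
  obtain ⟨m, hm, h1⟩ := exists_min_image _ id h0
  refine (card_le_card (t := Ico m (m + π.G)) fun c hc => mem_Ico.2 ⟨h1 c hc, ?_⟩).trans (by simp)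
  have k1 := (Nat.floor_lt (Real.exp_pos _).le).1 (mem_Ioc.1 (mem_filter.1 hc).2).1
  have k2 := (mem_Ioc.1 (mem_filter.1 hm).2).2
  rw [ps_G] at k2
  have k3 := Real.exp_lt_exp.1 (k1.trans_le ((Nat.le_floor_iff (Real.exp_pos _).le).1 k2))
  exact_mod_cast lt_of_mul_lt_mul_right k3 h.le

end A0

open A0 in
theorem st_A0 (hA : A0aSt) (hF : FtSt) : A0St := by
  intro π η X H S B c0 Nc h0 h1 k0 hNf hG κ1 hκ hH hHX hS hc hL hB hω a1 a2 a3 a4 hI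
  have l0 : 0 < LL S := lt_of_lt_of_le (by positivity) hL
  have g0 : (0 : ℝ) < π.G := by exact_mod_cast hG
  have b0 : (0 : ℝ) < B := by exact_mod_cast hB
  have t0 : 0 < π.κ1 := mul_pos (by exact_mod_cast hNf) k0
  have κ0 : 0 < π.κ := sub_pos.2 (Real.one_lt_exp_iff.2 (mul_pos g0 t0))
  have x0 : 0 < X := (mul_pos_iff_of_pos_left κ0).1 (one_pos.trans_le hκ)
  have H0 : 0 < H := (mul_pos_iff_of_pos_left h0).1 (lt_of_lt_of_le (by positivity) hH)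
  have p0 : ∀ c, 0 < π.ps c := fun c => Real.exp_pos _
  have p4 : ∀ c ∈ Ico c0 (c0 + Nc), π.ps c ≤ 4 * X := fun c hc => le_trans (Real.exp_le_exp.2
    (mul_le_mul_of_nonneg_right (Nat.cast_le.2 (mem_Ico.1 hc).2.le) t0.le)) a4
  have w8 : ∀ c ∈ Ico c0 (c0 + Nc), ∀ n ∈ Ioc ⌊π.ps c⌋₊ ⌊π.ps c * (1 + π.κ)⌋₊,
      0 < n ∧ (n : ℝ) ≤ 8 * X := fun c hc n hn => ⟨(Nat.zero_le _).trans_lt (mem_Ioc.1 hn).1,
    ((Nat.le_floor_iff (by positivity [p0 c])).1 (mem_Ioc.1 hn).2).trans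
      (by nlinarith [p4 c hc, p0 c])⟩
  have κ2 : π.κ ≤ 2 * (π.G * π.κ1) := by
    have k1 := mul_le_mul_of_nonneg_right (Real.add_one_le_exp (-(π.G * π.κ1)))
      (Real.exp_pos (π.G * π.κ1)).le
    rw [← Real.exp_add, neg_add_cancel, Real.exp_zero] at k1
    rw [Par.κ] at κ1 ⊢
    nlinarith [mul_pos g0 t0]
  have n3 : Nc * π.κ1 ≤ 3 := by
    rw [ps_add] at a4
    have k1 := Real.quadratic_le_exp_of_nonneg (show 0 ≤ Nc * π.κ1 by positivity)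
    have k2 : Real.exp (Nc * π.κ1) ≤ 8 := le_of_mul_le_mul_left
      (by nlinarith [Real.exp_pos (Nc * π.κ1)]) x0
    nlinarith
  have key := hA π X H c0 Nc (fun c => (if ∃ α, η * LL S / (100 * B) ≤
      ‖cc π.k π.κ (fw S B) (π.ps c) α‖ then 5 * π.κ * X else 0) + η * π.κ * X / 25 +
      ∑ n ∈ Ioc ⌊π.ps c⌋₊ ⌊π.ps c * (1 + π.κ)⌋₊, |1 - (#{p ∈ S | p ∣ n} : ℝ) / LL S|)
    k0 hNf hG κ1 hκ H0.le hHX a2 a3 (fun c hc α => by
      have e0 : 0 ≤ ∑ n ∈ Ioc ⌊π.ps c⌋₊ ⌊π.ps c * (1 + π.κ)⌋₊,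
          |1 - (#{p ∈ S | p ∣ n} : ℝ) / LL S| := sum_nonneg fun _ _ => abs_nonneg _
      split_ifs with hg
      · refine (norm_sum_le_of_le _ (n := fun _ => 1) fun n _ => ?_).trans ?_
        · rw [norm_mul, norm_e, mul_one]
          exact hF.lio_bd n
        · rw [sum_const, Nat.card_Ioc, nsmul_one, Nat.cast_sub (Nat.floor_mono
            (le_mul_of_one_le_right (p0 c).le (by linarith)))]
          have e1 := Nat.floor_le (show 0 ≤ π.ps c * (1 + π.κ) by positivity [p0 c])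
          have e2 := Nat.lt_floor_add_one (π.ps c)
          have e3 : 0 ≤ η * π.κ * X / 25 := by positivity
          nlinarith [mul_le_mul_of_nonneg_left (p4 c hc) κ0.le]
      · have e1 := (not_le.1 fun h => hg ⟨α, h⟩).le
        rw [cc, norm_mul, norm_inv, Complex.norm_real, Real.norm_eq_abs,
          abs_of_pos (mul_pos κ0 (p0 c)), inv_mul_le_iff₀ (mul_pos κ0 (p0 c))] at e1
        have e2 : ∑ n ∈ Ioc ⌊π.ps c⌋₊ ⌊π.ps c * (1 + π.κ)⌋₊, lio n * e (-ph π.k α n) =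
            ((B / LL S : ℝ) : ℂ) * ∑ n ∈ Ioc ⌊π.ps c⌋₊ ⌊π.ps c * (1 + π.κ)⌋₊,
              fw S B n * e (-ph π.k α n) + ∑ n ∈ Ioc ⌊π.ps c⌋₊ ⌊π.ps c * (1 + π.κ)⌋₊,
              ((1 - (#{p ∈ S | p ∣ n} : ℝ) / LL S : ℝ) : ℂ) * (lio n * e (-ph π.k α n)) := by
          rw [mul_sum, ← sum_add_distrib]
          refine sum_congr rfl fun n hn => ?_
          have e3 : (B : ℂ) ≠ 0 := by exact_mod_cast b0.ne'
          rw [fw, min_eq_left (hω n (w8 c hc n hn).1 (w8 c hc n hn).2)]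
          push_cast
          field_simp
          ring
        rw [e2, zero_add]
        refine (norm_add_le _ _).trans (add_le_add ?_ (norm_sum_le_of_le _ fun n _ => ?_))
        · rw [norm_mul, Complex.norm_real, Real.norm_eq_abs, abs_of_pos (div_pos b0 l0)]
          refine (mul_le_mul_of_nonneg_left (e1.trans (mul_le_mul_of_nonneg_right
            (mul_le_mul_of_nonneg_left (p4 c hc) κ0.le) (by positivity)))
            (div_pos b0 l0).le).trans_eq ?_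
          field_simp
          ring
        · rw [norm_mul, norm_mul, norm_e, mul_one, Complex.norm_real, Real.norm_eq_abs]
          exact mul_le_of_le_one_right (abs_nonneg _) (hF.lio_bd n))
  have err : ∑ c ∈ Ico c0 (c0 + Nc), ∑ n ∈ Ioc ⌊π.ps c⌋₊ ⌊π.ps c * (1 + π.κ)⌋₊,
      |1 - (#{p ∈ S | p ∣ n} : ℝ) / LL S| ≤ π.G * (η * X / 20) := by
    rw [sum_comm' (t' := Icc 1 ⌊8 * X⌋₊)
      (s' := fun n => {c ∈ Ico c0 (c0 + Nc) | n ∈ Ioc ⌊π.ps c⌋₊ ⌊π.ps c * (1 + π.κ)⌋₊})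
      fun c n => ⟨fun h => ⟨mem_filter.2 h, mem_Icc.2 ⟨(w8 c h.1 n h.2).1,
        Nat.le_floor (w8 c h.1 n h.2).2⟩⟩, fun h => mem_filter.1 h.1⟩]
    refine le_trans ?_ (mul_le_mul_of_nonneg_left (dev hS h0 x0 hc hL) g0.le)
    rw [mul_sum]
    refine sum_le_sum fun n _ => ?_
    rw [sum_const, nsmul_eq_mul]
    exact mul_le_mul_of_nonneg_right (Nat.cast_le.2 (few π t0 _ n)) (abs_nonneg _)
  rw [sum_add_distrib, sum_add_distrib, ← sum_filter, sum_const, sum_const, Nat.card_Ico,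
    Nat.add_sub_cancel_left, nsmul_eq_mul, nsmul_eq_mul] at key
  generalize (#{c ∈ Ico c0 (c0 + Nc) | ∃ α, η * LL S / (100 * B) ≤
    ‖cc π.k π.κ (fw S B) (π.ps c) α‖} : ℕ) = m at key ⊢
  have j1 : Nc * (η * π.κ * X / 25) ≤ π.G * (η * X) * (6 / 25) := by
    have j2 : π.κ * Nc ≤ 6 * π.G := by
      linarith [mul_le_mul_of_nonneg_right κ2 (Nat.cast_nonneg Nc),
        mul_le_mul_of_nonneg_left n3 g0.le]
    linarith [mul_le_mul_of_nonneg_left j2 (mul_pos h0 x0).le]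
  have j2 : m * (5 * π.κ * X) ≤ π.G * X * (10 * (m * π.κ1)) := by
    nlinarith [mul_le_mul_of_nonneg_left κ2 (show 0 ≤ m * X by positivity)]
  have j3 := (hI.trans_le key).trans_le (add_le_add le_rfl (mul_le_mul_of_nonneg_left
    (add_le_add (add_le_add j2 j1) err) (div_pos H0 g0).le))
  have j4 : H / π.G * (π.G * X * (10 * (m * π.κ1)) + π.G * (η * X) * (6 / 25) +
      π.G * (η * X / 20)) = H * X * (10 * (m * π.κ1) + η * (29 / 100)) := by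
    field_simp
    ring
  have j5 : η ≤ 10 * (m * π.κ1) + η * (49 / 100) := le_of_mul_le_mul_left
    (by nlinarith [mul_le_mul_of_nonneg_right hH x0.le]) (mul_pos H0 x0)
  refine le_of_mul_le_mul_right ?_ t0
  nlinarith [mul_le_mul_of_nonneg_left n3 h0.le]

end Pool.Agent.Lib.MP_028aa5_nt.T
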