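import Pool.Agent.Lib.MP_028aa5_nt.T.St1

/-! Elementary properties of the normalised correlations. -/

namespace Pool.Agent.Lib.MP_028aa5_nt.T

open Finset
open scoped ComplexConjugate Classical

namespace C

/-- normalised sum over the window -/
noncomputable def av (κ y : ℝ) (a : ℕ → ℂ) : ℂ :=
  ((κ * y : ℝ) : ℂ)⁻¹ * ∑ n ∈ Ioc ⌊y⌋₊ ⌊y * (1 + κ)⌋₊, a n

lemma cc_eq (k κ f y α) : cc k κ f y α = av κ y fun n => f n * e (-ph k α n) := rfl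

lemma cs_eq (k κ f γ t y) (a : ℕ) : cs k κ f γ t y a =
    av κ y fun n => f n * e (-ph k γ (a * n) - ph k t (n / y - 1)) := rfl

lemma pos {κ y : ℝ} (hκ : 0 < κ) (h : 1 ≤ κ * y) : 0 < y := by
  by_contra hy
  have := mul_nonpos_of_nonneg_of_nonpos hκ.le (not_lt.1 hy)
  linarith

lemma fl_le {κ y : ℝ} (hκ : 0 < κ) (hy : 0 < y) : ⌊y⌋₊ ≤ ⌊y * (1 + κ)⌋₊ :=
  Nat.floor_le_floor (by nlinarith)

lemma len {κ y : ℝ} (hκ : 0 < κ) (hy : 0 < y) :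
    κ * y - 1 ≤ (⌊y * (1 + κ)⌋₊ : ℝ) - ⌊y⌋₊ ∧ (⌊y * (1 + κ)⌋₊ : ℝ) - ⌊y⌋₊ ≤ κ * y + 1 := by
  have h1 := Nat.floor_le hy.le
  have h2 := Nat.lt_floor_add_one y
  have h3 : (⌊y * (1 + κ)⌋₊ : ℝ) ≤ y * (1 + κ) := Nat.floor_le (by positivity)
  have h4 := Nat.lt_floor_add_one (y * (1 + κ))
  constructor <;> linarith

lemma sum_le {κ y B : ℝ} (hκ : 0 < κ) (hy : 0 < y) (hB : 0 ≤ B) {a : ℕ → ℂ}
    (ha : ∀ n ∈ Ioc ⌊y⌋₊ ⌊y * (1 + κ)⌋₊, ‖a n‖ ≤ B) :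
    ‖∑ n ∈ Ioc ⌊y⌋₊ ⌊y * (1 + κ)⌋₊, a n‖ ≤ (κ * y + 1) * B := by
  refine (norm_sum_le _ _).trans ((sum_le_card_nsmul _ _ _ ha).trans ?_)
  rw [nsmul_eq_mul, Nat.card_Ioc, Nat.cast_sub (fl_le hκ hy)]
  exact mul_le_mul_of_nonneg_right (len hκ hy).2 hB

lemma av_le {κ y B c : ℝ} (hκ : 0 < κ) (hy : 0 < y) (hB : 0 ≤ B) (hc : 1 ≤ c * (κ * y))
    {a : ℕ → ℂ} (ha : ∀ n ∈ Ioc ⌊y⌋₊ ⌊y * (1 + κ)⌋₊, ‖a n‖ ≤ B) : ‖av κ y a‖ ≤ (1 + c) * B := by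
  have h0 : 0 < κ * y := mul_pos hκ hy
  unfold av
  rw [norm_mul, norm_inv, Complex.norm_real, Real.norm_of_nonneg h0.le, inv_mul_le_iff₀ h0]
  refine (sum_le hκ hy hB ha).trans ?_
  rw [← mul_assoc]
  exact mul_le_mul_of_nonneg_right (by linarith) hB

lemma av_le2 {κ y B : ℝ} (hκ : 0 < κ) (h : 1 ≤ κ * y) (hB : 0 ≤ B)
    {a : ℕ → ℂ} (ha : ∀ n ∈ Ioc ⌊y⌋₊ ⌊y * (1 + κ)⌋₊, ‖a n‖ ≤ B) : ‖av κ y a‖ ≤ 2 * B := by
  have := av_le (c := 1) hκ (pos hκ h) hB (by linarith) ha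
  linarith

lemma av_sub (κ y : ℝ) (c : ℂ) (a b : ℕ → ℂ) :
    av κ y a - c * av κ y b = av κ y fun n => a n - c * b n := by
  unfold av
  rw [sum_sub_distrib, ← mul_sum]
  ring

lemma win {κ y : ℝ} (hκ : 0 < κ) (hy : 0 < y) {n : ℕ} (hn : n ∈ Ioc ⌊y⌋₊ ⌊y * (1 + κ)⌋₊) :
    0 ≤ n / y - 1 ∧ n / y - 1 ≤ κ := by
  obtain ⟨h1, h2⟩ := mem_Ioc.1 hn
  rw [Nat.floor_lt hy.le] at h1
  rw [Nat.le_floor_iff (by positivity)] at h2
  constructor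
  · rw [sub_nonneg, le_div_iff₀ hy]
    linarith
  · rw [sub_le_iff_le_add, div_le_iff₀ hy]
    linarith

lemma term_le {z : ℂ} (hz : ‖z‖ ≤ 1) (x : ℝ) : ‖z * e x‖ ≤ 1 := by
  rw [norm_mul, norm_e, mul_one]
  exact hz

lemma term_sub {z : ℂ} (hz : ‖z‖ ≤ 1) (x c y : ℝ) :
    ‖z * e x - e c * (z * e y)‖ ≤ 7 * |x - (c + y)| := by
  rw [show z * e x - e c * (z * e y) = z * (e x - e (c + y)) by rw [e_add]; ring, norm_mul]
  exact (mul_le_of_le_one_left (norm_nonneg _) hz).trans (norm_e_sub_le _ _)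

lemma part {a : ℕ → ℂ} (ha : ∀ n, ‖a n‖ ≤ 1) (m m' : ℕ) :
    ‖∑ n ∈ Ioc 0 m, a n - ∑ n ∈ Ioc 0 m', a n‖ ≤ |(m : ℝ) - m'| := by
  wlog h : m' ≤ m generalizing m m'
  · rw [norm_sub_rev, abs_sub_comm]
    exact this m' m (not_le.1 h).le
  rw [← sum_Ioc_consecutive a (Nat.zero_le m') h, add_sub_cancel_left]
  refine (norm_sum_le _ _).trans ((sum_le_card_nsmul _ _ _ fun n _ => ha n).trans ?_)
  rw [nsmul_eq_mul, Nat.card_Ioc, Nat.cast_sub h, mul_one]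
  exact le_abs_self _

lemma fl_lip {x x' : ℝ} (hx : 0 ≤ x) (hx' : 0 ≤ x') :
    |(⌊x⌋₊ : ℝ) - ⌊x'⌋₊| ≤ |x - x'| + 1 := by
  have h1 := Nat.floor_le hx
  have h2 := Nat.lt_floor_add_one x
  have h3 := Nat.floor_le hx'
  have h4 := Nat.lt_floor_add_one x'
  have h5 := le_abs_self (x - x')
  have h6 := neg_abs_le (x - x')
  rw [abs_le]
  constructor <;> linarith

lemma ratio {y y' u : ℝ} (hy : 0 < y) (hy' : 0 < y') (h : |Real.log y' - Real.log y| ≤ u)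
    (hu : u ≤ 1) : |y' - y| ≤ 2 * u * y ∧ y ≤ 3 * y' := by
  have h1 : y' = y * Real.exp (Real.log y' - Real.log y) := by
    rw [Real.exp_sub, Real.exp_log hy, Real.exp_log hy']
    field_simp
  constructor
  · have h2 := Real.abs_exp_sub_one_le (h.trans hu)
    calc |y' - y| = |y * (Real.exp (Real.log y' - Real.log y) - 1)| := by
          rw [mul_sub, ← h1, mul_one]
      _ = y * |Real.exp (Real.log y' - Real.log y) - 1| := by rw [abs_mul, abs_of_pos hy]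
      _ ≤ y * (2 * u) := mul_le_mul_of_nonneg_left (by linarith) hy.le
      _ = _ := by ring
  · have h2 : Real.log y ≤ Real.log y' + 1 := by linarith [(abs_le.1 h).1]
    have h3 := Real.exp_le_exp.2 h2
    rw [Real.exp_add, Real.exp_log hy, Real.exp_log hy'] at h3
    have h4 := Real.exp_one_lt_d9
    nlinarith

lemma move {κ y y' u : ℝ} {a : ℕ → ℂ} (ha : ∀ n, ‖a n‖ ≤ 1) (hκ : 0 < κ) (hκ1 : κ ≤ 1)
    (h : 1 ≤ κ * y) (hy' : 0 < y') (hl : |Real.log y' - Real.log y| ≤ u) (hu : u ≤ 1) :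
    ‖av κ y' a - av κ y a‖ ≤ 20 * (u / κ + 1 / (κ * y)) := by
  have hy := pos hκ h
  obtain ⟨r1, r2⟩ := ratio hy hy' hl hu
  have hu0 : 0 ≤ u := (abs_nonneg _).trans hl
  have h0 : 0 < κ * y := mul_pos hκ hy
  have h0' : 0 < κ * y' := mul_pos hκ hy'
  have s1 := sum_le hκ hy' zero_le_one fun n _ => ha n
  have s2 : ‖∑ n ∈ Ioc ⌊y'⌋₊ ⌊y' * (1 + κ)⌋₊, a n - ∑ n ∈ Ioc ⌊y⌋₊ ⌊y * (1 + κ)⌋₊, a n‖ ≤
      6 * u * y + 2 := by
    have e1 := sum_Ioc_consecutive a (Nat.zero_le _) (fl_le hκ hy)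
    have e2 := sum_Ioc_consecutive a (Nat.zero_le _) (fl_le hκ hy')
    rw [eq_sub_of_add_eq' e1, eq_sub_of_add_eq' e2, sub_sub_sub_comm]
    refine (norm_sub_le _ _).trans ?_
    have p1 := (part ha _ _).trans
      (fl_lip (x := y' * (1 + κ)) (x' := y * (1 + κ)) (by positivity) (by positivity))
    have p2 := (part ha _ _).trans (fl_lip hy'.le hy.le)
    rw [← sub_mul, abs_mul, abs_of_pos (by positivity : 0 < 1 + κ)] at p1
    have p3 : |y' - y| * (1 + κ) ≤ |y' - y| * 2 :=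
      mul_le_mul_of_nonneg_left (by linarith) (abs_nonneg _)
    linarith
  unfold av
  generalize ∑ n ∈ Ioc ⌊y'⌋₊ ⌊y' * (1 + κ)⌋₊, a n = S' at s1 s2 ⊢
  generalize ∑ n ∈ Ioc ⌊y⌋₊ ⌊y * (1 + κ)⌋₊, a n = S at s2 ⊢
  have e3 : ((κ * y' : ℝ) : ℂ)⁻¹ * S' - ((κ * y : ℝ) : ℂ)⁻¹ * S =
      (((κ * y')⁻¹ - (κ * y)⁻¹ : ℝ) : ℂ) * S' + (((κ * y)⁻¹ : ℝ) : ℂ) * (S' - S) := by
    push_cast
    ring
  rw [e3]
  refine (norm_add_le _ _).trans ?_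
  rw [norm_mul, norm_mul, Complex.norm_real, Complex.norm_real, Real.norm_eq_abs,
    Real.norm_of_nonneg (inv_nonneg.2 h0.le)]
  have b1 : |(κ * y')⁻¹ - (κ * y)⁻¹| ≤ 2 * u / (κ * y') := by
    rw [show (κ * y')⁻¹ - (κ * y)⁻¹ = -((y' - y) / (y * (κ * y'))) by field_simp; ring, abs_neg,
      abs_div, abs_of_pos (mul_pos hy h0'), div_le_div_iff₀ (mul_pos hy h0') h0']
    calc |y' - y| * (κ * y') ≤ 2 * u * y * (κ * y') := mul_le_mul_of_nonneg_right r1 h0'.le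
      _ = _ := by ring
  have b2 : |(κ * y')⁻¹ - (κ * y)⁻¹| * ‖S'‖ ≤ 2 * u / (κ * y') * ((κ * y' + 1) * 1) :=
    mul_le_mul b1 s1 (norm_nonneg _) (by positivity)
  have b3 : 2 * u / (κ * y') * ((κ * y' + 1) * 1) = 2 * u + 2 * u * (1 / (κ * y')) := by
    field_simp
  have b4 : 1 / (κ * y') ≤ 3 * (1 / (κ * y)) := by
    rw [mul_one_div, div_le_div_iff₀ h0' h0]
    nlinarith
  have b5 : u * (1 / (κ * y')) ≤ 1 * (3 * (1 / (κ * y))) :=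
    mul_le_mul hu b4 (by positivity) zero_le_one
  have b6 : u ≤ u / κ := by
    rw [le_div_iff₀ hκ]
    exact mul_le_of_le_one_right hu0 hκ1
  have b7 : (κ * y)⁻¹ * ‖S' - S‖ ≤ (κ * y)⁻¹ * (6 * u * y + 2) :=
    mul_le_mul_of_nonneg_left s2 (inv_nonneg.2 h0.le)
  have b8 : (κ * y)⁻¹ * (6 * u * y + 2) = 6 * (u / κ) + 2 * (1 / (κ * y)) := by
    field_simp
  have b9 : 0 ≤ 1 / (κ * y) := by positivity
  linarith

lemma ph_lip (k : ℕ) {κ v z z' : ℝ} (t : Ph) (hκ : 0 < κ) (hz : |z| ≤ 2 * κ) (hz' : |z'| ≤ 2 * κ)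
    (hv0 : 0 ≤ v) (hv : |z - z'| ≤ 2 * v * κ) :
    |ph k t z - ph k t z'| ≤ k * 2 ^ k * v * wn k κ t := by
  unfold ph wn
  rw [← sum_sub_distrib, mul_sum]
  refine (abs_sum_le_sum_abs _ _).trans (sum_le_sum fun j hj => ?_)
  obtain ⟨h1, h2⟩ := mem_Icc.1 hj
  obtain ⟨i, rfl⟩ : ∃ i, j = i + 1 := ⟨j - 1, by omega⟩
  have h3 := abs_pow_sub_pow_le (a := z) (b := z') (n := i + 1)
  rw [Nat.add_sub_cancel] at h3
  have h4 : max |z| |z'| ^ i ≤ (2 * κ) ^ i :=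
    pow_le_pow_left₀ ((abs_nonneg _).trans (le_max_left _ _)) (max_le hz hz') i
  have h5 : ((i + 1 : ℕ) : ℝ) ≤ k := by exact_mod_cast h2
  have h6 : (2 : ℝ) ^ (i + 1) ≤ 2 ^ k := pow_le_pow_right₀ one_le_two h2
  have h7 : |z ^ (i + 1) - z' ^ (i + 1)| ≤ k * 2 ^ k * v * κ ^ (i + 1) := by
    calc |z ^ (i + 1) - z' ^ (i + 1)| ≤ 2 * v * κ * k * (2 * κ) ^ i := by
          refine h3.trans ?_
          gcongr
      _ = k * 2 ^ (i + 1) * v * κ ^ (i + 1) := by ring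
      _ ≤ _ := by gcongr
  rw [← mul_sub, abs_mul, mul_comm, ← mul_assoc]
  exact mul_le_mul_of_nonneg_right h7 (abs_nonneg _)

lemma moves (hN : NSt) (k : ℕ) {κ y y' u : ℝ} {f : ℕ → ℂ} (γ t : Ph) (a : ℕ)
    (hf : ∀ n, ‖f n‖ ≤ 1) (hκ : 0 < κ) (hκ1 : κ ≤ 1)
    (h : 1 ≤ κ * y) (hy' : 0 < y') (hl : |Real.log y' - Real.log y| ≤ u) (hu : u ≤ κ / 4) :
    ‖cs k κ f γ t y' a - cs k κ f γ t y a‖ ≤
      20 * (u / κ + 1 / (κ * y)) + 100 * k * 2 ^ k * (u / κ) * wn k κ t := by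
  have hy := pos hκ h
  have hu1 : u ≤ 1 := by linarith
  obtain ⟨r1, r2⟩ := ratio hy hy' hl hu1
  have hu0 : 0 ≤ u := (abs_nonneg _).trans hl
  have hw := hN.wn_nonneg k κ t hκ.le
  have m1 := move (a := fun n => f n * e (-ph k γ (a * n) - ph k t (n / y - 1)))
    (fun n => term_le (hf n) _) hκ hκ1 h hy' hl hu1
  have m2 : ‖cs k κ f γ t y' a - e 0 *
      av κ y' fun n => f n * e (-ph k γ (a * n) - ph k t (n / y - 1))‖ ≤
      (1 + 3) * (7 * (k * 2 ^ k * (2 * (u / κ)) * wn k κ t)) := by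
    rw [cs_eq, av_sub]
    refine av_le hκ hy' (by positivity) (by nlinarith) fun n hn => ?_
    refine (term_sub (hf n) _ _ _).trans (mul_le_mul_of_nonneg_left ?_ (by norm_num))
    obtain ⟨w1, w2⟩ := win hκ hy' hn
    have d1 : |(n / y - 1) - (n / y' - 1)| ≤ 4 * u := by
      rw [show (n / y - 1) - (n / y' - 1) = n / y' * ((y' - y) / y) by field_simp; ring, abs_mul,
        abs_div (y' - y), abs_of_pos hy, abs_of_nonneg (by positivity)]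
      have : |y' - y| / y ≤ 2 * u := by rwa [div_le_iff₀ hy]
      calc n / y' * (|y' - y| / y) ≤ 2 * (2 * u) :=
            mul_le_mul (by linarith) this (by positivity) zero_le_two
        _ = _ := by ring
    have d2 := abs_le.1 d1
    rw [show -ph k γ (a * n) - ph k t (n / y' - 1) - (0 + (-ph k γ (a * n) - ph k t (n / y - 1))) =
      ph k t (n / y - 1) - ph k t (n / y' - 1) by ring]
    refine ph_lip k t hκ (abs_le.2 ⟨by linarith, by linarith⟩)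
      (abs_le.2 ⟨by linarith, by linarith⟩) (by positivity) (d1.trans (le_of_eq ?_))
    field_simp
    ring
  rw [e_zero, one_mul] at m2
  have m3 : 0 ≤ k * 2 ^ k * (u / κ) * wn k κ t := by positivity
  rw [cs_eq k κ f γ t y]
  refine (norm_sub_le_norm_sub_add_norm_sub _ _ _).trans ((add_le_add m2 m1).trans ?_)
  linarith

lemma tk' (hN : NSt) (k : ℕ) {κ y B : ℝ} {f : ℕ → ℂ} (α : Ph) (Q : Finset ℕ)
    (hf : ∀ n, ‖f n‖ ≤ 1) (hκ : 0 < κ) (hB : 1 ≤ B)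
    (hQ : ∀ p ∈ Q, p.Prime ∧ p ≤ B ∧ ∀ m, 0 < m → f (p * m) = -f m) (h : 4 * B ^ 2 ≤ κ * y) :
    ∑ p ∈ Q, 1 / (p : ℝ) * ‖cc k κ f y α + cc k κ f (y / p) (dil p α)‖ ^ 2 ≤ 8 := by
  have h1 : 1 ≤ κ * y := by nlinarith
  have hy := pos hκ h1
  have h0 : 0 < κ * y := mul_pos hκ hy
  obtain ⟨l1, l2⟩ := len hκ hy
  have hB' : (⌊B⌋₊ : ℝ) ≤ B := Nat.floor_le (by linarith)
  have hB0 : (0 : ℝ) ≤ ⌊B⌋₊ := Nat.cast_nonneg _
  have H := tk (B := ⌊B⌋₊) (fl_le hκ hy) Q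
    (fun p hp => ⟨(hQ p hp).1, Nat.le_floor (hQ p hp).2.1⟩) (by nlinarith)
    (fun n => f n * e (-ph k α n)) fun n => term_le (hf n) _
  have key : ∀ p ∈ Q, 1 / (p : ℝ) * ‖cc k κ f y α + cc k κ f (y / p) (dil p α)‖ ^ 2 =
      p * ‖∑ n ∈ Ioc ⌊y⌋₊ ⌊y * (1 + κ)⌋₊ with p ∣ n, f n * e (-ph k α n) -
        (∑ n ∈ Ioc ⌊y⌋₊ ⌊y * (1 + κ)⌋₊, f n * e (-ph k α n)) / p‖ ^ 2 / (κ * y) ^ 2 := by
    intro p hp
    obtain ⟨hp1, -, hp3⟩ := hQ p hp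
    have p0 : (0 : ℝ) < p := by exact_mod_cast hp1.pos
    have p1 : (p : ℂ) ≠ 0 := by exact_mod_cast hp1.ne_zero
    have e1 : ∑ n ∈ Ioc ⌊y⌋₊ ⌊y * (1 + κ)⌋₊ with p ∣ n, f n * e (-ph k α n) =
        -∑ m ∈ Ioc ⌊y / p⌋₊ ⌊y / p * (1 + κ)⌋₊, f m * e (-ph k (dil p α) m) := by
      rw [sum_dvd hp1.pos, div_mul_eq_mul_div, Nat.floor_div_natCast, Nat.floor_div_natCast,
        ← sum_neg_distrib]
      refine sum_congr rfl fun m hm => ?_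
      rw [hp3 m (lt_of_le_of_lt (Nat.zero_le _) (mem_Ioc.1 hm).1), hN.ph_dil, Nat.cast_mul,
        neg_mul]
    rw [e1]
    unfold cc
    generalize ∑ m ∈ Ioc ⌊y / p⌋₊ ⌊y / p * (1 + κ)⌋₊, f m * e (-ph k (dil p α) m) = S'
    generalize ∑ n ∈ Ioc ⌊y⌋₊ ⌊y * (1 + κ)⌋₊, f n * e (-ph k α n) = S
    have c1 : (κ : ℂ) ≠ 0 := by exact_mod_cast hκ.ne'
    have c2 : (y : ℂ) ≠ 0 := by exact_mod_cast hy.ne'
    have e2 : ((κ * y : ℝ) : ℂ)⁻¹ * S + ((κ * (y / p) : ℝ) : ℂ)⁻¹ * S' =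
        -((p / (κ * y) : ℝ) : ℂ) * (-S' - S / p) := by
      push_cast
      field_simp
      ring
    rw [e2, norm_mul, norm_neg, Complex.norm_real, Real.norm_of_nonneg (by positivity)]
    field_simp
  rw [sum_congr rfl key, ← sum_div, div_le_iff₀ (by positivity)]
  refine H.trans ?_
  have l3 : (0 : ℝ) ≤ (⌊y * (1 + κ)⌋₊ : ℝ) - ⌊y⌋₊ := by linarith
  have l4 := pow_le_pow_left₀ l3 (show (⌊y * (1 + κ)⌋₊ : ℝ) - ⌊y⌋₊ ≤ 2 * (κ * y) by linarith) 2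
  linarith

end C

theorem st_C (hN : NSt) : CSt where
  bd k κ f y α hf hκ h := by
    simpa [C.cc_eq] using C.av_le2 hκ h zero_le_one fun n _ => C.term_le (hf n) (-ph k α n)
  bds k κ f γ t y a hf hκ h := by
    simpa only [C.cs_eq, mul_one] using C.av_le2 hκ h zero_le_one fun n _ =>
      C.term_le (hf n) (-ph k γ (a * n) - ph k t (n / y - 1))
  int k κ f y α β h := by
    unfold cc
    simp only [hN.e_eqN k α β _ h]
  pert k κ f y α τ hf hκ h := by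
    have hy := C.pos hκ h
    have h0 := hN.nm_nonneg k κ y τ hκ.le
    rw [C.cc_eq, C.cc_eq, C.av_sub, show 14 * nm k κ y τ = 2 * (7 * nm k κ y τ) by ring]
    refine C.av_le2 hκ h (by positivity) fun n hn => ?_
    refine (C.term_sub (hf n) _ _ _).trans (mul_le_mul_of_nonneg_left ?_ (by norm_num))
    obtain ⟨w1, w2⟩ := C.win hκ hy hn
    rw [hN.ph_add, hN.eval k y n τ hy.ne', show -(ph k α n + (ph k τ y +
      ph k (tc k y τ) (n / y - 1))) - (-ph k τ y + -ph k α n) = -ph k (tc k y τ) (n / y - 1) by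
        ring, abs_neg]
    exact hN.ph_le _ _ _ _ (abs_le.2 ⟨by linarith, w2⟩)
  star k κ f y φ γ τ t a hf hκ h hφ := by
    have hy := C.pos hκ h
    have h0 := hN.wn_nonneg k κ (tc k y τ - t) hκ.le
    have e1 : cc k κ f y φ = cc k κ f y (dil a γ + τ) := by
      unfold cc
      simp only [hN.e_eqN k φ _ _ hφ]
    rw [e1, C.cc_eq, C.cs_eq, C.av_sub,
      show 14 * wn k κ (tc k y τ - t) = 2 * (7 * wn k κ (tc k y τ - t)) by ring]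
    refine C.av_le2 hκ h (by positivity) fun n hn => ?_
    refine (C.term_sub (hf n) _ _ _).trans (mul_le_mul_of_nonneg_left ?_ (by norm_num))
    obtain ⟨w1, w2⟩ := C.win hκ hy hn
    rw [hN.ph_add, hN.ph_dil, hN.eval k y n τ hy.ne', show -ph k γ (a * n) - ph k t (n / y - 1) -
      (ph k τ y + -(ph k γ (a * n) + (ph k τ y + ph k (tc k y τ) (n / y - 1)))) =
        ph k (tc k y τ) (n / y - 1) - ph k t (n / y - 1) by ring, ← hN.ph_sub]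
    exact hN.ph_le _ _ _ _ (abs_le.2 ⟨by linarith, w2⟩)
  move k κ f y y' u α hf hκ hκ1 h hy' hl hu :=
    C.move (fun n => C.term_le (hf n) _) hκ hκ1 h hy' hl hu
  moves k κ f γ t y y' u a hf hκ hκ1 h hy' hl hu :=
    C.moves hN k γ t a hf hκ hκ1 h hy' hl hu
  tk k κ f y α Q B hf hκ hB hQ h := C.tk' hN k α Q hf hκ hB hQ h

end Pool.Agent.Lib.MP_028aa5_nt.T
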