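import Pool.Agent.Lib.MP_028aa5_nt.T.St2

/-! The stable scale. -/

namespace Pool.Agent.Lib.MP_028aa5_nt.T

open Finset
open scoped ComplexConjugate Classical

namespace A2

lemma cl_mono (k : ℕ) (κ c y ρ ρ' : ℝ) (α : Ph) (h : ρ ≤ ρ') (hc : Cl k κ c y ρ α) :
    Cl k κ c y ρ' α := hc.imp fun _ hz => hz.trans h

lemma fam_mono {k : ℕ} {κ η η' ρ ρ' y : ℝ} {f : ℕ → ℂ} {A : Finset Ph} (h1 : η' ≤ η)
    (h2 : ρ' ≤ ρ) (h : Fam k κ f η ρ y A) : Fam k κ f η' ρ' y A :=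
  ⟨fun α hα => h1.trans (h.1 α hα),
    fun α hα β hβ hne hc => h.2 α hα β hβ hne (cl_mono _ _ _ _ _ _ _ h2 hc)⟩

lemma exG (G0 n : ℕ) (x : ℝ) : ∃ G : ℕ, G0 ≤ G ∧ 1 ≤ G ∧ x ≤ G ∧ (1 + 8 / (G : ℝ)) ^ n ≤ 2 := by
  refine ⟨G0 + 1 + ⌈x⌉₊ + 16 * n, by omega, by omega, ?_, ?_⟩
  · refine (Nat.le_ceil x).trans ?_
    exact_mod_cast (by omega : ⌈x⌉₊ ≤ G0 + 1 + ⌈x⌉₊ + 16 * n)
  · set G : ℕ := G0 + 1 + ⌈x⌉₊ + 16 * n with hG
    have h0 : (0 : ℝ) < G := by exact_mod_cast (by omega : 0 < G)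
    have h1 : (16 : ℝ) * n ≤ G := by exact_mod_cast (by omega : 16 * n ≤ G)
    have h2 : (1 + 8 / (G : ℝ)) ^ n ≤ Real.exp (8 / G) ^ n :=
      pow_le_pow_left₀ (by positivity) (by linarith [Real.add_one_le_exp (8 / (G : ℝ))]) n
    have h3 : (n : ℝ) * (8 / G) ≤ 1 / 2 := by
      rw [← mul_div_assoc, div_le_iff₀ h0]
      linarith
    have h4 : Real.exp (1 / 2) ≤ 1 / (1 - 1 / 2) :=
      Real.exp_bound_div_one_sub_of_interval (by norm_num) (by norm_num)
    rw [← Real.exp_nat_mul] at h2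
    have h5 := Real.exp_le_exp.2 h3
    norm_num at h4
    linarith

lemma ray_ok (ε a U L : ℝ) (hε : 0 < ε) (ha : 0 < a) (hU : a ≤ U) (hL0 : 0 ≤ L)
    (hL : L ≤ U + ε * a) : (1 - ε) * (U + L) ≤ 2 * (U - ε * a / 2) := by
  rcases le_total ε 1 with h | h
  · have h1 : (1 - ε) * (U + L) ≤ (1 - ε) * (2 * U + ε * a) :=
      mul_le_mul_of_nonneg_left (by linarith) (by linarith)
    have h2 : ε * a ≤ ε * U := mul_le_mul_of_nonneg_left hU hε.le
    have h3 : 0 ≤ ε * (ε * a) := by positivity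
    nlinarith
  · have h1 : 0 ≤ (ε - 1) * L := mul_nonneg (by linarith) hL0
    have h2 : ε * a ≤ ε * U := mul_le_mul_of_nonneg_left hU hε.le
    nlinarith

end A2

open Pool.Agent.Lib.MP_028aa5_nt.T.A2

theorem st_A2 (hOne : OneSt) (hW2 : W2St) : A2St := by
  intro k m1 G0 η c0 ρ ε ε2 hk hη hc0 hρ hρ1 hε hε2
  obtain ⟨M0, KW, hW⟩ := hW2 k (η / 2) (ρ / 2) hk (by positivity) (by positivity)
  obtain ⟨M, hM1, hM0⟩ : ∃ M : ℕ, 1 ≤ M ∧ M0 ≤ M := ⟨max M0 1, le_max_right _ _, le_max_left _ _⟩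
  obtain ⟨J, hJ1, hJ⟩ : ∃ J : ℕ, 1 ≤ J ∧ (M : ℝ) ≤ J * (ε * c0) := by
    refine ⟨⌈(M : ℝ) / (ε * c0)⌉₊ + 1, by omega, ?_⟩
    rw [← div_le_iff₀ (by positivity)]
    push_cast
    linarith [Nat.le_ceil ((M : ℝ) / (ε * c0))]
  have hJ0 : (0 : ℝ) < J := by exact_mod_cast hJ1
  obtain ⟨s, hs⟩ : ∃ s : ℝ, s = η / (8 * J) := ⟨_, rfl⟩
  have hs0 : 0 < s := by rw [hs]; positivity
  have hsJ : 8 * J * s = η := by rw [hs]; field_simp
  obtain ⟨D', K0', hD', hO⟩ := hOne M (min ε2 s) (ε * c0 / 2) hM1 (lt_min hε2 hs0) (by positivity)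
  obtain ⟨G, hG0, hG1, hGs, hG2⟩ := exG G0 (k * J) (40 / s)
  obtain ⟨K0, hK1, hK2, hK3, hK4⟩ : ∃ K0 : ℝ, 12 ≤ K0 ∧ K0' ≤ K0 ∧ KW ≤ K0 ∧ 10 / s ≤ K0 :=
    ⟨max (max 12 K0') (max KW (10 / s)), le_max_of_le_left (le_max_left _ _),
      le_max_of_le_left (le_max_right _ _), le_max_of_le_right (le_max_left _ _),
      le_max_of_le_right (le_max_right _ _)⟩
  have hn1 : (1 : ℝ) ≤ ((m1 + J + 4 : ℕ) : ℝ) := by exact_mod_cast (by omega : 1 ≤ m1 + J + 4)
  have hDD : D' ≤ D' * ((m1 + J + 4 : ℕ) : ℝ) := le_mul_of_one_le_right (by linarith) hn1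
  refine ⟨G, M, D' * ((m1 + J + 4 : ℕ) : ℝ), K0, hG0, hG1, hM1, hD'.trans hDD, ?_⟩
  intro π f P1 cX Nc ek eG eM hκ0 hNf hκK hP1 hNc hX hf hmul hcount
  have hP12 : 12 ≤ P1 := hK1.trans hP1
  have hP0 : 0 ≤ P1 := by linarith
  rw [Real.rpow_mul hP0, Real.rpow_natCast] at hX hmul ⊢
  obtain ⟨Q, hQ⟩ : ∃ Q : ℝ, Q = P1 ^ D' := ⟨_, rfl⟩
  rw [← hQ] at hX hmul ⊢
  have hPQ : P1 ≤ Q := by
    rw [hQ]
    exact Real.self_le_rpow_of_one_le (by linarith) hD'
  have hQ1 : 1 ≤ Q := by linarith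
  have hQ0 : 0 < Q := by linarith
  have hGr : (0 : ℝ) < G := by exact_mod_cast hG1
  have hκ1 : 0 < π.κ1 := by
    have : (0 : ℝ) < π.Nf := by exact_mod_cast hNf
    exact mul_pos this hκ0
  have hκ : 0 < π.κ := by
    have h : 0 < (π.G : ℝ) * π.κ1 := by rw [eG]; positivity
    unfold Par.κ
    linarith [Real.add_one_le_exp ((π.G : ℝ) * π.κ1)]
  have hκle : π.κ ≤ 1 := by nlinarith
  have hNc0 : (0 : ℝ) < Nc := by
    rcases Nat.eq_zero_or_pos Nc with h | h
    · rw [h, Nat.cast_zero, zero_mul] at hNc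
      linarith
    · exact_mod_cast h
  have hps : ∀ c, 0 < π.ps c := fun c => Real.exp_pos _
  obtain ⟨b, hb⟩ : ∃ b : ℝ, b = 1 + 8 / (G : ℝ) := ⟨_, rfl⟩
  rw [← hb] at hG2
  have hb1 : 1 ≤ b := by
    rw [hb]
    exact le_add_of_nonneg_right (by positivity)
  have hb0 : 0 < b := by linarith
  have hK1Q : Q ≤ Q ^ (m1 + 3) := le_self_pow₀ hQ1 (by omega)
  by_contra hgoal
  have key : ∀ i : ℕ, i ≤ J → ∃ (cU : ℕ) (AU : ℕ → Finset Ph), cU ≤ cX ∧
      π.ps cX ≤ Q ^ i * π.ps cU ∧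
      (∀ c ∈ Ico cU (cU + Nc), Fam π.k π.κ f (η - i * (4 * s)) (ρ / b ^ (k * i)) (π.ps c) (AU c) ∧
        #(AU c) ≤ M) ∧
      c0 * Nc + i * (ε * (c0 * Nc)) ≤ ∑ c ∈ Ico cU (cU + Nc), (#(AU c) : ℝ) := by
    intro i
    induction i with
    | zero =>
      intro _
      refine ⟨cX, fun c => if h : ∃ α, η ≤ ‖cc π.k π.κ f (π.ps c) α‖ then {h.choose} else ∅,
        le_rfl, by simp, ?_, ?_⟩
      · intro c _
        beta_reduce
        split_ifs with h
        · refine ⟨⟨fun α hα => ?_, fun α hα β hβ hne => ?_⟩, by simpa using hM1⟩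
          · rw [mem_singleton.1 hα]
            simpa using h.choose_spec
          · exact absurd ((mem_singleton.1 hα).trans (mem_singleton.1 hβ).symm) hne
        · exact ⟨⟨fun α hα => absurd hα (notMem_empty α), fun α hα => absurd hα (notMem_empty α)⟩,
            by simp⟩
      · rw [Nat.cast_zero, zero_mul, add_zero]
        refine hcount.trans (le_of_eq ?_)
        rw [card_filter]
        push_cast
        refine sum_congr rfl fun c _ => ?_
        split_ifs <;> simp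
    | succ i ih =>
      intro hi
      obtain ⟨cU, AU, h1, h2, h3, h4⟩ := ih (by omega)
      have hiJ : ((i + 1 : ℕ) : ℝ) ≤ J := by exact_mod_cast hi
      have hη' : η / 2 ≤ η - ((i + 1 : ℕ) : ℝ) * (4 * s) := by nlinarith
      have hbi : b ^ (k * (i + 1)) ≤ 2 :=
        (pow_le_pow_right₀ hb1 (Nat.mul_le_mul_left k hi)).trans hG2
      have hρ' : ρ / 2 ≤ ρ / b ^ (k * (i + 1)) :=
        div_le_div_of_nonneg_left hρ.le (by positivity) hbi
      have hρ2 : ∀ j : ℕ, ρ / b ^ j ≤ ρ := fun j => div_le_self hρ.le (one_le_pow₀ hb1)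
      have hcU : Q ^ (m1 + 3) * Q ≤ π.κ * π.ps cU := by
        have e1 : Q ^ i * (Q ^ (m1 + 3) * Q) ≤ Q ^ (m1 + J + 4) := by
          rw [← pow_succ, ← pow_add]
          exact pow_le_pow_right₀ hQ1 (by omega)
        have e2 : π.κ * π.ps cX ≤ Q ^ i * (π.κ * π.ps cU) := by
          rw [mul_left_comm]
          exact mul_le_mul_of_nonneg_left h2 hκ.le
        exact le_of_mul_le_mul_left (e1.trans (hX.trans e2)) (by positivity)
      obtain ⟨P, PP, cL, AL, N, E, φ, o1, o2, o3, o4, o5, o6, o7, o8, o9, o10, o11⟩ :=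
        hO π f P1 (η - i * (4 * s)) (η - ((i + 1 : ℕ) : ℝ) * (4 * s)) (ρ / b ^ (k * i))
          (ρ / b ^ (k * (i + 1))) (Q ^ (m1 + 3)) cU Nc AU (ek ▸ hk) eM (eG ▸ hG1) hκ0 hNf
          (le_trans (mul_le_mul_of_nonneg_left hK2 hκ.le) hκK) (hK2.trans hP1) hNc
          (by
            rw [← hQ]
            have e1 : Q ^ 3 ≤ Q ^ (m1 + 3) := pow_le_pow_right₀ hQ1 (by omega)
            have e2 : 12 * Q ^ 2 ≤ Q * Q ^ 2 :=
              mul_le_mul_of_nonneg_right (by linarith) (by positivity)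
            nlinarith)
          (by rw [← hQ]; exact hcU) hf
          (fun p hp hpQ => hmul p hp (by
            rw [← hQ] at hpQ
            exact hpQ.trans (le_self_pow₀ hQ1 (by omega))))
          (by positivity) ((hρ2 _).trans hρ1)
          (by
            rw [eG, ek, ← hb, mul_add, mul_one, pow_add]
            refine le_of_eq ?_
            field_simp)
          (by
            rw [eG]
            have e1 : min ε2 s ≤ s := min_le_right _ _
            have e2 : 2 / (G : ℝ) ≤ s / 20 := by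
              rw [div_le_iff₀ hs0] at hGs
              rw [div_le_iff₀ hGr]
              linarith
            have e3 : 1 / Q ^ (m1 + 3) ≤ s / 10 := by
              have e4 : 10 / s ≤ Q ^ (m1 + 3) := by linarith
              rw [div_le_iff₀ hs0] at e4
              rw [div_le_iff₀ (by positivity)]
              linarith
            push_cast
            linarith)
          h3
          (fun y A hy hA => (hW π.κ y f A hκ hκle (by linarith) hf
            (ek ▸ fam_mono hη' hρ' hA)).trans hM0)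
      rw [← hQ] at o3 o6
      have hX' : π.ps cX ≤ Q ^ (i + 1) * π.ps cL := by
        rw [pow_succ, mul_assoc]
        exact h2.trans (mul_le_mul_of_nonneg_left o6 (by positivity))
      by_cases hL : ∑ c ∈ Ico cU (cU + Nc), (#(AU c) : ℝ) + ε * (c0 * Nc) ≤
          ∑ c ∈ Ico cL (cL + Nc), (#(AL c) : ℝ)
      · refine ⟨cL, AL, o5.trans h1, hX', o7, ?_⟩
        push_cast
        linarith
      · exfalso
        apply hgoal
        have hi0 : 0 ≤ (i : ℝ) * (ε * (c0 * Nc)) := by positivity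
        have hcN : 0 < c0 * Nc := by positivity
        have hlog : 0 < Real.log P := Real.log_pos (by linarith)
        refine ⟨P, PP, cL, cU, N, E, φ, o1, o2, o3.trans (le_self_pow₀ hQ1 (by omega)),
          le_trans ?_ o4, o5, h1, hX'.trans ?_, ?_, o8,
          fun e he => cl_mono _ _ _ _ _ _ _ (hρ2 _) (o9 e he),
          ⟨o10.card, o10.cu, o10.cl, fun e he => (o10.tk e he).trans (min_le_left _ _),
            fun e he => hη'.trans (o10.big e he)⟩, o11 _ ?_ (by linarith)⟩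
        · exact div_le_div_of_nonneg_left (by linarith) (mul_pos (by linarith) hlog)
            (mul_le_mul_of_nonneg_right hDD hlog.le)
        · exact mul_le_mul_of_nonneg_right (pow_le_pow_right₀ hQ1 (by omega)) (hps _).le
        · have e0 : P ^ m1 ≤ Q ^ m1 := pow_le_pow_left₀ (by linarith) o3 m1
          have e1 : Q ^ (i + 1) * Q ^ m1 ≤ Q ^ (m1 + J + 4) := by
            rw [← pow_add]
            exact pow_le_pow_right₀ hQ1 (by omega)
          have e2 : π.κ * π.ps cX ≤ Q ^ (i + 1) * (π.κ * π.ps cL) := by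
            rw [mul_left_comm]
            exact mul_le_mul_of_nonneg_left hX' hκ.le
          exact e0.trans (le_of_mul_le_mul_left (e1.trans (hX.trans e2)) (by positivity))
        · have h := ray_ok ε (c0 * Nc) (∑ c ∈ Ico cU (cU + Nc), (#(AU c) : ℝ))
            (∑ c ∈ Ico cL (cL + Nc), (#(AL c) : ℝ)) hε hcN (by linarith)
            (sum_nonneg fun _ _ => Nat.cast_nonneg _) (not_le.1 hL).le
          refine h.trans (le_of_eq ?_)
          ring
  obtain ⟨cU, AU, -, -, h3, h4⟩ := key J le_rfl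
  have h5 : ∑ c ∈ Ico cU (cU + Nc), (#(AU c) : ℝ) ≤ ∑ _c ∈ Ico cU (cU + Nc), (M : ℝ) :=
    sum_le_sum fun c hc => by exact_mod_cast (h3 c hc).2
  rw [sum_const, Nat.card_Ico, Nat.add_sub_cancel_left, nsmul_eq_mul] at h5
  have h6 := mul_le_mul_of_nonneg_left hJ hNc0.le
  have h7 : 0 < c0 * Nc := by positivity
  nlinarith

end Pool.Agent.Lib.MP_028aa5_nt.T
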