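import Pool.Agent.Lib.MP_028aa5_nt.T.St3

/-! The weighted Liouville function and its bilinear truncation. -/

namespace Pool.Agent.Lib.MP_028aa5_nt.T

open Finset
open scoped ComplexConjugate Classical

namespace Ft

lemma lio_bd (n : ℕ) : ‖lio n‖ ≤ 1 := by
  unfold lio
  rcases eq_or_ne n 0 with rfl | h
  · simp
  · rw [ArithmeticFunction.liouville_apply h]
    simp

lemma lio_mul (m n : ℕ) : lio (m * n) = lio m * lio n := by
  unfold lio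
  rw [ArithmeticFunction.liouville_apply_mul, Int.cast_mul]

lemma lio_prime (p : ℕ) (hp : p.Prime) : lio p = -1 := by
  unfold lio
  rw [ArithmeticFunction.liouville_apply hp.ne_zero,
    ArithmeticFunction.cardFactors_apply_prime hp]
  simp

lemma bd_aux (n c B : ℕ) (h : c ≤ B) : ‖lio n * (c : ℂ) / B‖ ≤ 1 := by
  rw [norm_div, norm_mul, Complex.norm_natCast, Complex.norm_natCast]
  refine div_le_one_of_le₀ ?_ (Nat.cast_nonneg _)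
  calc ‖lio n‖ * (c : ℝ) ≤ 1 * c := mul_le_mul_of_nonneg_right (lio_bd n) (Nat.cast_nonneg _)
    _ ≤ B := by rw [one_mul]; exact_mod_cast h

lemma mem_blk {i p : ℕ} (h : p ∈ blk (2 ^ i)) : p.Prime ∧ 2 ^ i < p ∧ p ≤ 2 * 2 ^ i := by
  obtain ⟨h1, h2⟩ := mem_filter.1 h
  exact ⟨h2, mem_Ioc.1 h1⟩

lemma mem_SS {i0 i1 i p : ℕ} (hi : i ∈ Ico i0 i1) (h : p ∈ blk (2 ^ i)) : p ∈ SS i0 i1 := by
  obtain ⟨h1, h2, h3⟩ := mem_blk h
  rw [mem_Ico] at hi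
  refine mem_filter.2 ⟨mem_Ioc.2 ⟨?_, ?_⟩, h1⟩
  · exact (Nat.pow_le_pow_right (by norm_num) hi.1).trans_lt h2
  · refine h3.trans ?_
    rw [← pow_succ']
    exact Nat.pow_le_pow_right (by norm_num) hi.2

lemma card_SS (hP : PrSt) (i0 i1 n : ℕ) :
    #{p ∈ SS i0 i1 | p ∣ n} = #{ip ∈ (Ico i0 i1).sigma fun i => blk (2 ^ i) | ip.2 ∣ n} := by
  rcases le_or_gt i0 i1 with h | h
  · have h1 := hP.sumR i0 i1 (fun p => if p ∣ n then 1 else 0) h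
    rw [sum_sigma', sum_boole, sum_boole] at h1
    exact_mod_cast h1
  · have h1 : SS i0 i1 = ∅ := by
      rw [SS, Ioc_eq_empty_of_le (Nat.pow_le_pow_right (by norm_num) h.le), filter_empty]
    rw [h1, Ico_eq_empty_of_le h.le]
    rfl

lemma eq (hP : PrSt) (i0 i1 B : ℕ) (Mi : ℕ → ℝ) (Y : ℝ) (hY : 0 < Y)
    (hM : ∀ i ∈ Ico i0 i1, Y / 2 ^ (i + 3) ≤ Mi i ∧ Mi i ≤ Y / 2 ^ (i + 2))
    (n : ℕ) (hn : n ∈ Ioc ⌊Y⌋₊ ⌊8 * Y⌋₊) (hB : #{p ∈ SS i0 i1 | p ∣ n} ≤ B) :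
    ft i0 i1 B Mi n = fw (SS i0 i1) B n := by
  unfold ft fw
  rw [min_eq_left hB, card_SS hP]
  congr 4
  refine filter_congr fun ip hip => ?_
  obtain ⟨i, p⟩ := ip
  obtain ⟨hi, hp⟩ := mem_sigma.1 hip
  refine and_iff_left_of_imp ?_
  rintro ⟨m, rfl⟩
  obtain ⟨h1, h2, h3⟩ := mem_blk hp
  obtain ⟨h4, h5⟩ := hM i hi
  dsimp only at *
  rw [Nat.mul_div_cancel_left _ h1.pos]
  rw [mem_Ioc, Nat.floor_lt hY.le, Nat.le_floor_iff (by positivity)] at hn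
  have h0 : (0 : ℝ) < 2 ^ i := by positivity
  have hM0 : 0 < Mi i := lt_of_lt_of_le (by positivity) h4
  have a2 : (2 : ℝ) ^ i < p := by exact_mod_cast h2
  have a3 : (p : ℝ) ≤ 2 * 2 ^ i := by exact_mod_cast h3
  have hm0 : (0 : ℝ) ≤ m := Nat.cast_nonneg m
  rw [div_le_iff₀ (by positivity), pow_add] at h4
  rw [le_div_iff₀ (by positivity), pow_add] at h5
  push_cast at hn
  rw [mem_Ioc, Nat.floor_lt hM0.le, Nat.le_floor_iff (by positivity)]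
  constructor
  · have : Mi i * 2 ^ i < m * 2 ^ i := by nlinarith [mul_le_mul_of_nonneg_right a3 hm0]
    exact lt_of_mul_lt_mul_right this h0.le
  · have : m * 2 ^ i ≤ 64 * Mi i * 2 ^ i := by nlinarith [mul_le_mul_of_nonneg_right a2.le hm0]
    exact le_of_mul_le_mul_right this h0

lemma bd (hP : PrSt) (i0 i1 B : ℕ) (Mi : ℕ → ℝ) (n : ℕ) (hB : #{p ∈ SS i0 i1 | p ∣ n} ≤ B) :
    ‖ft i0 i1 B Mi n‖ ≤ 1 := by
  refine bd_aux n _ B (le_trans ?_ hB)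
  rw [card_SS hP]
  exact card_le_card fun ip hip => mem_filter.2 ⟨(mem_filter.1 hip).1, (mem_filter.1 hip).2.1⟩

lemma one (i p : ℕ) (M Y : ℝ) (hY : 0 < Y) (h4 : Y / 2 ^ (i + 3) ≤ M) (h5 : M ≤ Y / 2 ^ (i + 2))
    (hp : p ∈ blk (2 ^ i)) (u : ℕ → ℂ) :
    ∑ n ∈ Ioc ⌊Y / 8⌋₊ ⌊32 * Y⌋₊, (if p ∣ n ∧ n / p ∈ Ioc ⌊M⌋₊ ⌊64 * M⌋₊ then u n else 0) =
      ∑ m ∈ Ioc ⌊M⌋₊ ⌊64 * M⌋₊, u (p * m) := by
  obtain ⟨h1, h2, h3⟩ := mem_blk hp
  rw [← sum_filter]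
  symm
  refine sum_bij' (fun m _ => p * m) (fun n _ => n / p) ?_ ?_ ?_ ?_ ?_
  · intro m hm
    refine mem_filter.2 ⟨?_, Dvd.intro _ rfl, by rwa [Nat.mul_div_cancel_left _ h1.pos]⟩
    have h0 : (0 : ℝ) < 2 ^ i := by positivity
    have hM0 : 0 < M := lt_of_lt_of_le (by positivity) h4
    have a2 : (2 : ℝ) ^ i < p := by exact_mod_cast h2
    have a3 : (p : ℝ) ≤ 2 * 2 ^ i := by exact_mod_cast h3
    have hm0 : (0 : ℝ) ≤ m := Nat.cast_nonneg m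
    rw [mem_Ioc, Nat.floor_lt hM0.le, Nat.le_floor_iff (by positivity)] at hm
    rw [div_le_iff₀ (by positivity), pow_add] at h4
    rw [le_div_iff₀ (by positivity), pow_add] at h5
    rw [mem_Ioc, Nat.floor_lt (by positivity), Nat.le_floor_iff (by positivity)]
    push_cast
    constructor
    · nlinarith [mul_le_mul_of_nonneg_right a2.le hm0, mul_lt_mul_of_pos_right hm.1 h0]
    · nlinarith [mul_le_mul_of_nonneg_right a3 hm0, mul_le_mul_of_nonneg_right hm.2 h0.le]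
  · intro n hn
    exact (mem_filter.1 hn).2.2
  · intro m _
    exact Nat.mul_div_cancel_left _ h1.pos
  · intro n hn
    exact Nat.mul_div_cancel' (mem_filter.1 hn).2.1
  · intro m _
    rfl

lemma bil (i0 i1 B : ℕ) (Mi : ℕ → ℝ) (Y t : ℝ) (g c : ℕ → ℂ) (hY : 0 < Y)
    (hM : ∀ i ∈ Ico i0 i1, Y / 2 ^ (i + 3) ≤ Mi i ∧ Mi i ≤ Y / 2 ^ (i + 2))
    (hg : ∀ p ∈ SS i0 i1, ∀ m, g (p * m) = c p * g m) :
    tw (ft i0 i1 B Mi) g t (Ioc ⌊Y / 8⌋₊ ⌊32 * Y⌋₊) =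
      -(B : ℂ)⁻¹ * ∑ i ∈ Ico i0 i1, tw 1 c t (blk (2 ^ i)) * FF g t (Mi i) := by
  set u : ℕ → ℂ := fun n => lio n / B * g n / n * e (-t * Real.log n) with hu
  have h1 : ∀ n, ft i0 i1 B Mi n * g n / n * e (-t * Real.log n) =
      ∑ i ∈ Ico i0 i1, ∑ p ∈ blk (2 ^ i),
        (if p ∣ n ∧ n / p ∈ Ioc ⌊Mi i⌋₊ ⌊64 * Mi i⌋₊ then u n else 0) := by
    intro n
    rw [sum_sigma', ← sum_filter, sum_const, nsmul_eq_mul, ft, hu]
    ring
  rw [tw, sum_congr rfl fun n _ => h1 n, sum_comm, mul_sum]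
  refine sum_congr rfl fun i hi => ?_
  rw [sum_comm, tw, sum_mul, mul_sum]
  refine sum_congr rfl fun p hp => ?_
  rw [one i p (Mi i) Y hY (hM i hi).1 (hM i hi).2 hp, FF, tw, mul_sum, mul_sum]
  refine sum_congr rfl fun m hm => ?_
  have hp1 := (mem_blk hp).1
  have hp0 : (p : ℝ) ≠ 0 := by exact_mod_cast hp1.ne_zero
  have hm0 : (m : ℝ) ≠ 0 := by
    have := (mem_Ioc.1 hm).1
    exact_mod_cast (by omega : m ≠ 0)
  simp only [hu]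
  rw [lio_mul, lio_prime p hp1, hg p (mem_SS hi hp), Nat.cast_mul, Nat.cast_mul,
    Real.log_mul hp0 hm0, mul_add, e_add, Pi.one_apply]
  ring

lemma fw_mul (S : Finset ℕ) (B p m : ℕ) (hS : ∀ r ∈ S, r.Prime) (hp : p.Prime) (hn : p ∉ S) :
    fw S B (p * m) = -fw S B m := by
  have h : {q ∈ S | q ∣ p * m} = {q ∈ S | q ∣ m} := by
    refine filter_congr fun q hq => ⟨fun h => ?_, fun h => h.mul_left p⟩
    rcases (hS q hq).dvd_mul.1 h with h | h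
    · rw [(Nat.prime_dvd_prime_iff_eq (hS q hq) hp).1 h] at hq
      exact absurd hq hn
    · exact h
  unfold fw
  rw [h, lio_mul, lio_prime p hp]
  ring

lemma cnt (S : Finset ℕ) (B n : ℕ) (z : ℝ) (hz : 1 ≤ z) (hS : ∀ p ∈ S, p.Prime ∧ z ≤ p)
    (hn : 0 < n) (h : (n : ℝ) < z ^ B) : #{p ∈ S | p ∣ n} ≤ B := by
  by_contra hc
  have h1 : ∏ p ∈ S with p ∣ n, p ∣ n :=
    Finset.prod_primes_dvd n (fun p hp => (hS p (mem_filter.1 hp).1).1.prime)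
      fun p hp => (mem_filter.1 hp).2
  have h2 : ((∏ p ∈ S with p ∣ n, p : ℕ) : ℝ) ≤ n := by exact_mod_cast Nat.le_of_dvd hn h1
  have h3 : z ^ #{p ∈ S | p ∣ n} ≤ ((∏ p ∈ S with p ∣ n, p : ℕ) : ℝ) := by
    rw [Nat.cast_prod, ← prod_const]
    exact prod_le_prod (fun _ _ => by linarith) fun p hp => (hS p (mem_filter.1 hp).1).2
  have h4 : z ^ B ≤ z ^ #{p ∈ S | p ∣ n} := pow_le_pow_right₀ hz (by omega)
  linarith

end Ft

theorem st_Ft (hP : PrSt) : FtSt where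
  eq := Ft.eq hP
  bd := Ft.bd hP
  bil := Ft.bil
  fw_bd := fun _ B n => Ft.bd_aux n _ B (min_le_right _ _)
  fw_mul := fun S B p m hS hp hn _ => Ft.fw_mul S B p m hS hp hn
  cnt := Ft.cnt
  lio_bd := Ft.lio_bd
  lio_mul := Ft.lio_mul
  lio_prime := Ft.lio_prime

end Pool.Agent.Lib.MP_028aa5_nt.T
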