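import Pool.Agent.Lib.MP_028aa5_nt.T.St5

/-! One component is impossible. -/

namespace Pool.Agent.Lib.MP_028aa5_nt.T

open Finset
open scoped ComplexConjugate Classical

namespace CoreB

lemma lhs {η : ℝ} (h0 : 0 < η) (h1 : η ≤ 1) :
    η ^ 2 / 2 ≤ (η - η ^ 2 / 10 ^ 4) ^ 2 -
      135 * √((η ^ 2 / 10 ^ 4) ^ 2 + (η ^ 2 / 10 ^ 4 + η ^ 2 / 10 ^ 4) ^ 2) := by
  have h2 : √((η ^ 2 / 10 ^ 4) ^ 2 + (η ^ 2 / 10 ^ 4 + η ^ 2 / 10 ^ 4) ^ 2) ≤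
      3 * (η ^ 2 / 10 ^ 4) := by
    refine Real.sqrt_le_iff.2 ⟨by positivity, ?_⟩
    nlinarith [sq_nonneg (η ^ 2 / 10 ^ 4)]
  have h3 : η * η ^ 2 ≤ η ^ 2 := mul_le_of_le_one_left (by positivity) h1
  nlinarith [sq_nonneg (η ^ 2 / 10 ^ 4), sq_nonneg η]

lemma err1 {X W κ w c ε : ℝ} (hX : 1 ≤ X) (hW : 0 < W) (hκ : 1 / X ≤ κ) (hw0 : 0 ≤ w)
    (hw : w ≤ W) (hc : 0 ≤ c) (hε : 0 < ε) (h : c / ε ≤ X) :
    c * ((W * X ^ 3)⁻¹ / κ) * w ≤ ε := by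
  have hX0 : 0 < X := by linarith
  have h1 : (W * X ^ 3)⁻¹ / κ ≤ (W * X ^ 3)⁻¹ / (1 / X) :=
    div_le_div_of_nonneg_left (by positivity) (by positivity) hκ
  have h2 : c * ((W * X ^ 3)⁻¹ / κ) * w ≤ c * ((W * X ^ 3)⁻¹ / (1 / X)) * W := by gcongr
  refine h2.trans ?_
  have h3 : c * ((W * X ^ 3)⁻¹ / (1 / X)) * W = c / X ^ 2 := by field_simp
  rw [h3, div_le_iff₀ (by positivity)]
  rw [div_le_iff₀ hε] at h
  nlinarith [mul_le_mul_of_nonneg_left hX (mul_pos hX0 hε).le]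

lemma err2 {X W κ w n N ε : ℝ} (hX : 1 ≤ X) (hW : 1 ≤ W) (hκ : 1 / X ≤ κ) (hw0 : 0 ≤ w)
    (hw : w ≤ W) (hN : 8 ≤ N * (W * X ^ 3)⁻¹) (hn : n ≤ √X) (hε : 0 < ε)
    (h : (33 / ε) ^ 2 ≤ X) :
    n * (7 * (W * X ^ 2) / N + 4 * (1 + 7 * w) / (κ * (W * X ^ 2))) ≤ ε := by
  have hX0 : 0 < X := by linarith
  have hW0 : 0 < W := by linarith
  have hκ0 : 0 < κ := lt_of_lt_of_le (by positivity) hκ
  rw [← div_eq_mul_inv, le_div_iff₀ (by positivity)] at hN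
  have hN0 : 0 < N := lt_of_lt_of_le (by positivity) hN
  have h1 : 7 * (W * X ^ 2) / N ≤ 1 / X := by
    rw [div_le_div_iff₀ hN0 hX0]
    have : 0 < W * X ^ 3 := by positivity
    nlinarith
  have h2 : 4 * (1 + 7 * w) / (κ * (W * X ^ 2)) ≤ 32 / X := by
    have a1 : 4 * (1 + 7 * w) / (κ * (W * X ^ 2)) ≤ 32 * W / (1 / X * (W * X ^ 2)) :=
      div_le_div₀ (by positivity) (by linarith) (by positivity) (by gcongr)
    refine a1.trans (le_of_eq ?_)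
    field_simp
  have h3 : 33 / ε ≤ √X := Real.le_sqrt_of_sq_le h
  have h4 : 0 < √X := Real.sqrt_pos.2 hX0
  calc n * (7 * (W * X ^ 2) / N + 4 * (1 + 7 * w) / (κ * (W * X ^ 2)))
      ≤ √X * (1 / X + 32 / X) := by gcongr
    _ = 33 / √X := by
        rw [eq_div_iff h4.ne', mul_right_comm, Real.mul_self_sqrt hX0.le]
        field_simp
        norm_num
    _ ≤ ε := by
        rw [div_le_iff₀ h4]
        rw [div_le_iff₀ hε] at h3
        linarith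

lemma exp_six : (256 : ℝ) ≤ Real.exp 6 := by
  have h1 : Real.exp 6 = Real.exp 1 ^ 6 := by
    rw [← Real.exp_nat_mul]
    norm_num
  have h2 := Real.exp_one_gt_d9
  rw [h1]
  exact le_trans (by norm_num) (pow_le_pow_left₀ (by norm_num : (0 : ℝ) ≤ 2.7) (by linarith) 6)

end CoreB

open CoreB

theorem st_CoreB (hEnd : EndSt) (hS : SparseXSt) (hH : HatSt) (hE : ESt) (hF : FtSt)
    (hR : RegSt) : CoreBSt := by
  intro k η a hk hη hη1 ha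
  obtain ⟨cE, XE, hcE, hE⟩ := hE k a (7 * k + 3) (η ^ 2 / 40) hk ha (by positivity)
  obtain ⟨ε2, hε2⟩ : ∃ ε2, ε2 = η ^ 2 / 10 ^ 4 := ⟨_, rfl⟩
  have hε : 0 < ε2 := by rw [hε2]; positivity
  have hεη : ε2 ≤ η / 10 ^ 4 := by
    rw [hε2]
    gcongr
    nlinarith
  have hε8 : ε2 ^ 2 ≤ 1 / 8 := by nlinarith
  have hc' : 0 < min cE (1 / 2) := lt_min hcE (by norm_num)
  refine ⟨ε2 ^ 2, ε2, ε2 / 140, ⌈300 / ε2⌉₊, min cE (1 / 2) / 4, by positivity, hε,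
    by positivity, by positivity, fun C D hD => ?_⟩
  obtain ⟨XS, hS⟩ := hS k C D _ hk hD hc'
  obtain ⟨XR, hR⟩ := hR.base k C D
    (33 + 900 / ε2 + 200 * k * 2 ^ k / (ε2 / 5) + (33 / (η ^ 2 / 40)) ^ 2) hk hD
  refine ⟨max XE (max XS XR), ?_⟩
  intro X hX π i0 i1 B cL cU Nc Jm N E φ γ τ q _ γ0 t vU vL Gd hπk hG hReg hi0 hi1 haB hIs hRe
    hcc hNc hY1 hY2 hPY hJm hφ hq hw hBlk
  subst hπk
  obtain ⟨b1, b2, -, b4, -, -, -, -, b9⟩ :=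
    hR X ((le_max_right _ _).trans ((le_max_right _ _).trans hX)) π rfl hReg
  have p1 : 0 < 900 / ε2 := by positivity
  have p2 : 0 ≤ 200 * (π.k : ℝ) * 2 ^ π.k / (ε2 / 5) := by positivity
  have p3 : 0 ≤ (33 / (η ^ 2 / 40)) ^ 2 := by positivity
  have hX1 : 1 ≤ X := by linarith
  have hX0 : 0 < X := by linarith
  have hok := hReg.ok
  have hκ0 : 0 < π.κ := lt_of_lt_of_le (by positivity) hReg.κlo
  have hW : 1 ≤ X ^ (7 * π.k + 1) := one_le_pow₀ hX1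
  have hk0 : π.κ0 = (X ^ (7 * π.k + 1) * X ^ 3)⁻¹ := by
    rw [hReg.κ0, Real.rpow_neg hX0.le, ← pow_add, ← Real.rpow_natCast]
    congr 2
    push_cast
    ring
  have hT : X ^ (7 * (π.k : ℝ) + 3) = X ^ (7 * π.k + 1) * X ^ 2 := by
    rw [← pow_add, ← Real.rpow_natCast]
    congr 1
    push_cast
    ring
  have hk1 : π.κ0 ≤ 1 := by
    rw [hk0]
    exact inv_le_one_of_one_le₀ (one_le_mul_of_one_le_of_one_le hW (one_le_pow₀ hX1))
  obtain ⟨N0, hN8, hN9⟩ : ∃ N0 : ℕ, 8 ≤ N0 * π.κ0 ∧ N0 * π.κ0 ≤ 9 := by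
    have h0 := hok.κ0
    refine ⟨⌈8 / π.κ0⌉₊, (div_le_iff₀ h0).1 (Nat.le_ceil _), ?_⟩
    have h1 := mul_le_mul_of_nonneg_right
      (Nat.ceil_lt_add_one (by positivity : 0 ≤ 8 / π.κ0)).le h0.le
    rw [add_mul, div_mul_cancel₀ _ h0.ne'] at h1
    linarith
  have : NeZero N0 := ⟨by
    rintro rfl
    norm_num at hN8⟩
  have hsp := hS X ((le_max_left _ _).trans ((le_max_right _ _).trans hX)) π N0 q rfl hReg
    hN8 hN9 hq
  obtain ⟨F', f1, f2, f3⟩ := hH N0 q (X ^ (7 * (π.k : ℝ) + 3)) (spec π N0 q) (by positivity)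
  have hcc' : X ^ min cE (1 / 2) ≤ X ^ cE :=
    Real.rpow_le_rpow_of_exponent_le hX1 (min_le_left _ _)
  have hB1 : 1 ≤ B := by
    rcases Nat.eq_zero_or_pos B with rfl | h
    · norm_num at haB
    · exact h
  obtain ⟨Mi, m1, m2⟩ := hE X ((le_max_left _ _).trans hX) (N0 * π.κ0) (π.ps cL) q γ0 i0 i1 B
    hN8 hN9 (hq.trans ((Real.rpow_le_rpow_of_exponent_le hX1 (by linarith)).trans hcc'))
    hBlk.den hY1 hY2 hi0 hi1 hB1 F'
    (le_trans (by exact_mod_cast f1) (hsp.trans hcc')) f2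
  have hY0 : 0 < π.ps cL := Real.exp_pos _
  have hY8 : 8 ≤ π.ps cL := by
    have := mul_le_mul_of_nonneg_right hok.κ hY0.le
    linarith
  have hcnt : ∀ n : ℕ, 0 < n → n ≤ ⌊32 * π.ps cL⌋₊ → #{p ∈ SS i0 i1 | p ∣ n} ≤ B := by
    intro n hn0 hn
    refine hF.cnt _ B n (X ^ a) (Real.one_le_rpow hX1 ha.le) (fun p hp => ?_) hn0 ?_
    · obtain ⟨h1, h2⟩ := mem_filter.1 hp
      refine ⟨h2, hi0.trans ?_⟩
      exact_mod_cast (mem_Ioc.1 h1).1.le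
    · have h1 : (n : ℝ) ≤ 32 * π.ps cL := (Nat.le_floor_iff (by positivity)).1 hn
      have h2 : X ^ 2 ≤ (X ^ a) ^ B := by
        rw [← Real.rpow_mul_natCast hX0.le, ← Real.rpow_natCast]
        exact Real.rpow_le_rpow_of_exponent_le hX1 (by exact_mod_cast haB)
      have h3 : 33 * X ≤ X * X := mul_le_mul_of_nonneg_right (by linarith) hX0.le
      rw [pow_two] at h2
      linarith
  have hbd : ∀ n ∈ Ioc ⌊π.ps cL / 8⌋₊ ⌊32 * π.ps cL⌋₊, ‖ft i0 i1 B Mi n‖ ≤ 1 := fun n hn =>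
    hF.bd i0 i1 B Mi n (hcnt n (lt_of_le_of_lt (Nat.zero_le _) (mem_Ioc.1 hn).1) (mem_Ioc.1 hn).2)
  have hw0 : 0 ≤ wn π.k π.κ t := sum_nonneg fun j _ => by positivity
  have hG' : 300 / ε2 ≤ π.G := (Nat.le_ceil _).trans (by exact_mod_cast hG)
  rw [div_le_iff₀ hε] at hG'
  have hG4 : 4 ≤ π.G := by
    have h1 : (4 : ℝ) ≤ π.G := by
      by_contra h
      have := mul_le_mul_of_nonneg_right (not_le.1 h).le hε.le
      linarith
    exact_mod_cast h1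
  have hG0 : (0 : ℝ) < π.G := by exact_mod_cast (by omega : 0 < π.G)
  have e1 : 60 / (π.G : ℝ) ≤ ε2 / 5 := by
    rw [div_le_iff₀ hG0]
    linarith
  have hP9 : 900 / ε2 ≤ π.P := by linarith
  have e2 : 180 / π.P ≤ ε2 / 5 := by
    rw [div_le_iff₀ (by linarith)]
    rw [div_le_iff₀ hε] at hP9
    linarith
  have e3 : 2 * π.κ ≤ ε2 / 5 := by
    have h1 : 900 / ε2 * 1 * π.κ ≤ 1 := by
      refine le_trans ?_ b9
      gcongr <;> linarith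
    rw [mul_one, div_mul_eq_mul_div, div_le_iff₀ hε] at h1
    linarith
  have e4 : 200 * (π.k : ℝ) * 2 ^ π.k * (π.κ0 / π.κ) * wn π.k π.κ t ≤ ε2 / 5 := by
    rw [hk0]
    exact err1 hX1 (by positivity) hReg.κlo hw0 hw (by positivity) (by positivity) (by linarith)
  have key := hEnd π (fw (SS i0 i1) B) (ft i0 i1 B Mi) η (ε2 ^ 2) ε2 (ε2 / 140) π.P ε2 cL cU Nc Jm
    N E φ γ τ q N0 γ0 t vU vL Gd hok hG4 hIs hRe hcc (hF.fw_bd _ _) hφ hBlk hJm hN8 hNc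
    (by linarith) hPY hbd
    (fun n hn => hF.eq i0 i1 B Mi _ hY0 m1 n hn
      (hcnt n (lt_of_le_of_lt (Nat.zero_le _) (mem_Ioc.1 hn).1)
        ((mem_Ioc.1 hn).2.trans (Nat.floor_le_floor (by linarith)))))
    (by positivity) hε8 hε.le (by positivity) (by linarith) (by linarith)
  have h3 := f3 π _ (ft i0 i1 B Mi) γ0 t (π.ps cL / 8) hok hN8 (by linarith)
    (Ioc_subset_Ioc_right (Nat.floor_le_floor (by
      linarith [mul_le_mul_of_nonneg_left exp_six hY0.le]))) hbd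
  have h4 : (#(spec π N0 q) : ℝ) * (7 * X ^ (7 * (π.k : ℝ) + 3) / N0 +
      4 * (1 + 7 * wn π.k π.κ t) / (π.κ * X ^ (7 * (π.k : ℝ) + 3))) ≤ η ^ 2 / 40 := by
    rw [hT]
    refine err2 hX1 hW hReg.κlo hw0 hw (hk0 ▸ hN8) (hsp.trans ?_) (by positivity) (by linarith)
    rw [Real.sqrt_eq_rpow]
    exact Real.rpow_le_rpow_of_exponent_le hX1 (min_le_right _ _)
  have h5 := lhs hη hη1
  rw [← hε2] at h5
  have h6 : 0 < η ^ 2 := by positivity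
  linarith

end Pool.Agent.Lib.MP_028aa5_nt.T
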