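import Pool.Agent.Lib.MP_028aa5_nt.T.St4

/-! Choice of the windows and the bound for the bilinear truncation. -/

namespace Pool.Agent.Lib.MP_028aa5_nt.T

open Finset
open scoped ComplexConjugate Classical

namespace EAux

lemma big (K : ℝ) {c : ℝ} (hc : 0 < c) : ∃ X0 : ℝ, ∀ X ≥ X0, K ≤ X ^ c :=
  Filter.eventually_atTop.1 ((tendsto_rpow_atTop hc).eventually_ge_atTop K)

lemma bigLog (K : ℝ) : ∃ X0 : ℝ, ∀ X ≥ X0, K ≤ Real.log X :=
  Filter.eventually_atTop.1 (Real.tendsto_log_atTop.eventually_ge_atTop K)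

lemma pow_le {X M a b c : ℝ} (hX : 1 ≤ X) (hM : X ^ a ≤ M) (hc : 0 ≤ c) (h : b ≤ a * c) :
    X ^ b ≤ M ^ c := by
  calc X ^ b ≤ X ^ (a * c) := Real.rpow_le_rpow_of_exponent_le hX h
    _ = (X ^ a) ^ c := Real.rpow_mul (by linarith) _ _
    _ ≤ M ^ c := Real.rpow_le_rpow (by positivity) hM hc

lemma idx_le {X : ℝ} {i : ℕ} (hX : 1 ≤ X) (h : (2 : ℝ) ^ i ≤ X ^ (1 / 10 : ℝ)) :
    6 * (i : ℝ) ≤ Real.log X := by
  have h1 := Real.log_le_log (by positivity) h
  rw [Real.log_pow, Real.log_rpow (by linarith)] at h1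
  have h2 := Real.log_two_gt_d9
  have h3 : (0 : ℝ) ≤ i := Nat.cast_nonneg i
  nlinarith

lemma exp8 : (64 : ℝ) ≤ Real.exp 8 := by
  have h := Real.add_one_le_exp (4 : ℝ)
  have h1 : Real.exp 8 = Real.exp 1 ^ 8 := by rw [← Real.exp_nat_mul]; norm_num
  have h2 : (2 : ℝ) ≤ Real.exp 1 := by linarith [Real.add_one_le_exp (1 : ℝ)]
  rw [h1]
  calc (64 : ℝ) ≤ 2 ^ 8 := by norm_num
    _ ≤ _ := pow_le_pow_left₀ (by norm_num) h2 8

lemma low {X Y : ℝ} {i i1 : ℕ} (hX : 1 ≤ X) (h4 : 4 ≤ X ^ (1 / 20 : ℝ)) (hi : i < i1)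
    (hY : X ^ (9 / 10 : ℝ) ≤ Y) (h1 : (2 : ℝ) ^ i1 ≤ X ^ (1 / 10 : ℝ)) :
    X ^ (3 / 4 : ℝ) ≤ Y / 2 ^ (i + 3) := by
  have h0 : 0 < X := by linarith
  have a : (2 : ℝ) ^ (i + 3) ≤ 4 * 2 ^ i1 := by
    calc (2 : ℝ) ^ (i + 3) = 4 * 2 ^ (i + 1) := by ring
      _ ≤ _ := mul_le_mul_of_nonneg_left (pow_le_pow_right₀ one_le_two hi) (by norm_num)
  have b : X ^ (9 / 10 : ℝ) = X ^ (3 / 4 : ℝ) * (X ^ (1 / 20 : ℝ) * X ^ (1 / 10 : ℝ)) := by
    rw [← Real.rpow_add h0, ← Real.rpow_add h0]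
    norm_num
  rw [le_div_iff₀ (by positivity)]
  refine le_trans ?_ hY
  rw [b]
  exact mul_le_mul_of_nonneg_left (a.trans (mul_le_mul h4 h1 (by positivity) (by positivity)))
    (by positivity)

lemma grid {Y : ℝ} (hY : 0 < Y) {N : ℕ} (i : ℕ) {r : ℕ} (hr : r < N) :
    Y / 2 ^ (i + 3) ≤ pw N (⌊N * Real.logb 2 Y⌋ - 2 * N - ((i * N + r : ℕ) : ℤ)) ∧
      pw N (⌊N * Real.logb 2 Y⌋ - 2 * N - ((i * N + r : ℕ) : ℤ)) ≤ Y / 2 ^ (i + 2) := by
  have hN : (0 : ℝ) < N := by exact_mod_cast (by omega : 0 < N)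
  have e : ∀ n : ℕ, Y / 2 ^ n = (2 : ℝ) ^ (Real.logb 2 Y - n) := by
    intro n
    rw [Real.rpow_sub two_pos, Real.rpow_logb two_pos (by norm_num) hY, Real.rpow_natCast]
  have h1 := Int.floor_le (N * Real.logb 2 Y)
  have h2 := Int.lt_floor_add_one (N * Real.logb 2 Y)
  have h3 : (r : ℝ) + 1 ≤ N := by exact_mod_cast hr
  have h4 : (0 : ℝ) ≤ r := Nat.cast_nonneg r
  rw [e, e]
  unfold pw
  constructor
  · refine Real.rpow_le_rpow_of_exponent_le one_le_two ?_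
    rw [le_div_iff₀ hN]
    push_cast
    linarith
  · refine Real.rpow_le_rpow_of_exponent_le one_le_two ?_
    rw [div_le_iff₀ hN]
    push_cast
    linarith

lemma blocks (T : ℕ → ℝ) (N n : ℕ) :
    ∑ i ∈ range n, ∑ r ∈ range N, T (i * N + r) = ∑ j ∈ range (n * N), T j := by
  induction n with
  | zero => simp
  | succ n ih => rw [sum_range_succ, ih, add_one_mul, sum_range_add]

end EAux

open EAux

theorem st_Ec (hEb : EbSt) (hGq : GqSt) (hG0 : G0St) (hHM : HMiSt) (hGr : GrSt) (hFt : FtSt) :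
    EcSt := by
  intro k A ε hk hε
  obtain ⟨Q0, hQ⟩ := hGq k (ε / 18) hk (by positivity)
  obtain ⟨c1, M1, hc1, h1⟩ := hHM (2 * max A 0)
  obtain ⟨c2, N, X2, hc2, hN, h2⟩ := hEb Q0 A ε hε
  obtain ⟨X3, h3⟩ := big 4 (c := 1 / 20) (by norm_num)
  obtain ⟨X4, h4⟩ := big M1 (c := 3 / 4) (by norm_num)
  obtain ⟨X5, h5⟩ := big (2 / ε) (c := c1 / 2) (by positivity)
  refine ⟨min (c1 / 2) c2, max (max 1 X2) (max X3 (max X4 X5)), by positivity, ?_⟩
  intro X hX L Y q _ γ F i1 hL8 hL9 hq hden hF hFA hY hYX hi1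
  simp only [ge_iff_le, max_le_iff] at hX
  obtain ⟨⟨hX1, hX2⟩, hX3, hX4, hX5⟩ := hX
  have hY0 : 0 < Y := lt_of_lt_of_le (by positivity) hY
  have hgf := hG0.gf k q γ hden.2.1
  have hlow : ∀ i < i1, X ^ (3 / 4 : ℝ) ≤ Y / 2 ^ (i + 3) := fun i hi =>
    low hX1 (h3 X hX3) hi hY hi1
  have hmid : ∀ i : ℕ, Y / 2 ^ (i + 3) ≤ Y / 2 ^ (i + 2) := fun i =>
    div_le_div_of_nonneg_left hY0.le (by positivity) (pow_le_pow_right₀ one_le_two (by omega))
  by_cases hqQ : Q0 < q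
  · refine ⟨fun i => Y / 2 ^ (i + 2), fun i _ => ⟨hmid i, le_rfl⟩, ?_⟩
    have key : ∀ i ∈ range i1,
        ∑ ξ ∈ F, ‖FF (gch k q γ ξ.2) (ξ.1 / L) (Y / 2 ^ (i + 2))‖ ^ 2 ≤ ε * 6 := by
      intro i hi
      have m1 := (hlow i (mem_range.1 hi)).trans (hmid i)
      generalize Y / 2 ^ (i + 2) = M at m1
      have hM1 : 1 ≤ M := (Real.one_le_rpow hX1 (by norm_num)).trans m1
      have p1 : X ^ min (c1 / 2) c2 ≤ M ^ c1 :=
        pow_le hX1 m1 hc1.le ((min_le_left _ _).trans (by linarith))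
      have p2 : X ^ A ≤ M ^ (2 * max A 0) :=
        pow_le hX1 m1 (by positivity) (by
          have := le_max_left A 0
          have := le_max_right A 0
          linarith)
      have p3 : M ^ (-c1) ≤ ε / 2 := by
        have a := (h5 X hX5).trans (pow_le hX1 m1 hc1.le (by linarith))
        rw [Real.rpow_neg (by linarith), inv_le_comm₀ (by positivity) (by positivity), inv_div]
        exact a
      have a := h1 M L (ε / 18) q (gch k q γ) F (Ioc ⌊M⌋₊ ⌊64 * M⌋₊) lio ((h4 X hX4).trans m1)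
        hL8 hL9 hden.1 (hq.trans p1) hgf (by positivity) (fun χ => hQ q γ χ hqQ hden)
        (hF.trans p1) (fun ξ hξ => (hFA ξ hξ).trans p2)
        (Ioc_subset_Ioc_right (Nat.floor_le_floor
          (mul_le_mul_of_nonneg_right exp8 (by linarith))))
      have b : ∑ m ∈ Ioc ⌊M⌋₊ ⌊64 * M⌋₊, ‖lio m‖ ^ 2 / m ≤ 6 := by
        have b1 := hGr.hsum M (64 * M) (by linarith) (by linarith)
        have b2 : Real.log (64 * M / M) ≤ 5 := by
          rw [mul_div_assoc, div_self (by linarith), mul_one,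
            show (64 : ℝ) = 2 ^ 6 by norm_num, Real.log_pow]
          have := Real.log_two_lt_d9
          push_cast
          linarith
        have b3 := min_le_left (1 : ℝ) (1 / M)
        refine le_trans (sum_le_sum fun m _ => ?_) (b1.trans (by linarith))
        exact div_le_div_of_nonneg_right (pow_le_one₀ (norm_nonneg _) (hFt.lio_bd m))
          (Nat.cast_nonneg m)
      refine a.trans (mul_le_mul (by linarith) b (by positivity) hε.le)
    refine (sum_le_sum key).trans ?_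
    rw [sum_const, card_range, nsmul_eq_mul]
    have := idx_le hX1 hi1
    nlinarith
  · let T : ℕ → ℝ := fun n => ∑ ξ ∈ F,
      ‖FF (gch k q γ ξ.2) (ξ.1 / L) (pw N (⌊N * Real.logb 2 Y⌋ - 2 * N - (n : ℤ)))‖ ^ 2
    have hmin : ∀ i : ℕ, ∃ r ∈ range N, ∀ r' ∈ range N, T (i * N + r) ≤ T (i * N + r') :=
      fun i => exists_min_image _ _ (nonempty_range_iff.2 (by omega))
    choose r hr hrmin using hmin
    refine ⟨fun i => pw N (⌊N * Real.logb 2 Y⌋ - 2 * N - ((i * N + r i : ℕ) : ℤ)),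
      fun i _ => grid hY0 i (mem_range.1 (hr i)), ?_⟩
    have a := h2 X hX2 L q (gch k q γ) F
      (image (fun n : ℕ => ⌊N * Real.logb 2 Y⌋ - 2 * N - (n : ℤ)) (range (i1 * N))) hL8 hL9 hden.1
      (by omega) hgf (hF.trans (Real.rpow_le_rpow_of_exponent_le hX1 (min_le_right _ _))) hFA
      (by
        intro j hj
        obtain ⟨n, hn, rfl⟩ := mem_image.1 hj
        have g := grid hY0 (n / N) (Nat.mod_lt n (by omega : 0 < N))
        rw [Nat.div_add_mod'] at g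
        refine ⟨(hlow _ (Nat.div_lt_of_lt_mul ?_)).trans g.1, g.2.trans (le_trans ?_ hYX)⟩
        · rw [mul_comm]
          exact mem_range.1 hn
        · exact div_le_self hY0.le (one_le_pow₀ one_le_two))
    rw [sum_image fun x _ y _ h => by simpa using h] at a
    have b : ∑ i ∈ range i1, (N : ℝ) * T (i * N + r i) ≤ ∑ n ∈ range (i1 * N), T n := by
      rw [← blocks]
      refine sum_le_sum fun i _ => ?_
      simpa using card_nsmul_le_sum (range N) (fun r' => T (i * N + r')) _ (hrmin i)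
    rw [← mul_sum] at b
    have hN0 : (0 : ℝ) < N := by exact_mod_cast hN
    refine le_of_mul_le_mul_left (b.trans (a.trans_eq ?_)) hN0
    ring

theorem st_E (hEc : EcSt) (hHM : HMpSt) (hG0 : G0St) (hFt : FtSt) (hPr : PrSt) : ESt := by
  intro k a A ϑ hk ha hϑ
  obtain ⟨c1, C, M1, hc1, hC, h1⟩ := hHM (max A 0 / a)
  obtain ⟨c2, X2, hc2, h2⟩ := hEc k A (ϑ ^ 2 * a ^ 2 / (4 * C)) hk (by positivity)
  obtain ⟨j0, hj0⟩ := hPr.blk
  obtain ⟨X3, h3⟩ := big M1 ha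
  obtain ⟨X4, h4⟩ := bigLog (j0 / a + 1)
  refine ⟨min (min c2 (a * c1)) a, max (max 1 X2) (max X3 X4), by positivity, ?_⟩
  intro X hX L Y q _ γ i0 i1 B hL8 hL9 hq hden hY hYX hi0 hi1 hB F hF hFA
  simp only [ge_iff_le, max_le_iff] at hX
  obtain ⟨⟨hX1, hX2⟩, hX3, hX4⟩ := hX
  have hY0 : 0 < Y := lt_of_lt_of_le (by positivity) hY
  have hgf := hG0.gf k q γ hden.2.1
  have e1 : X ^ min (min c2 (a * c1)) a ≤ X ^ c2 :=
    Real.rpow_le_rpow_of_exponent_le hX1 ((min_le_left _ _).trans (min_le_left _ _))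
  obtain ⟨Mi, hMi, hsum⟩ := h2 X hX2 L Y q γ F i1 hL8 hL9 (hq.trans e1) hden (hF.trans e1) hFA hY
    hYX hi1
  have hMi' : ∀ i ∈ Ico i0 i1, Y / 2 ^ (i + 3) ≤ Mi i ∧ Mi i ≤ Y / 2 ^ (i + 2) := fun i hi =>
    hMi i (mem_Ico.1 hi).2
  refine ⟨Mi, hMi', ?_⟩
  have hl := h4 X hX4
  have hj : (0 : ℝ) ≤ j0 / a := by positivity
  have hl0 : 0 < Real.log X := by linarith
  have hbil : ∀ ξ ∈ F,
      ‖tw (ft i0 i1 B Mi) (gch k q γ ξ.2) (ξ.1 / L) (Ioc ⌊Y / 8⌋₊ ⌊32 * Y⌋₊)‖ ≤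
      ∑ i ∈ Ico i0 i1, ‖tw 1 (fun n => ξ.2 n) (ξ.1 / L) (blk (2 ^ i))‖ *
        ‖FF (gch k q γ ξ.2) (ξ.1 / L) (Mi i)‖ := by
    intro ξ _
    rw [hFt.bil i0 i1 B Mi Y _ _ (fun n => ξ.2 n) hY0 hMi' fun p hp m => hgf.mul _ _ _ ?_]
    · rw [norm_mul, norm_neg, norm_inv, Complex.norm_natCast]
      refine (mul_le_of_le_one_left (norm_nonneg _)
        (inv_le_one_of_one_le₀ (by exact_mod_cast hB))).trans ((norm_sum_le _ _).trans_eq ?_)
      exact sum_congr rfl fun i _ => norm_mul _ _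
    · obtain ⟨p1, p2⟩ := mem_filter.1 hp
      have p3 : (q : ℝ) ≤ 2 ^ i0 :=
        (hq.trans (Real.rpow_le_rpow_of_exponent_le hX1 (min_le_right _ _))).trans hi0
      have p4 : q ≤ 2 ^ i0 := by exact_mod_cast p3
      exact (p2.coprime_iff_not_dvd).2
        (Nat.not_dvd_of_pos_of_lt hden.1 (p4.trans_lt (mem_Ioc.1 p1).1))
  have hP : ∀ i ∈ Ico i0 i1, ∑ ξ ∈ F, ‖tw 1 (fun n => ξ.2 n) (ξ.1 / L) (blk (2 ^ i))‖ ^ 2 ≤
      C / (a * Real.log X) * (4 / (a * Real.log X)) := by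
    intro i hi
    have m1 : X ^ a ≤ (2 : ℝ) ^ i := hi0.trans (pow_le_pow_right₀ one_le_two (mem_Ico.1 hi).1)
    have p1 : X ^ min (min c2 (a * c1)) a ≤ ((2 : ℝ) ^ i) ^ c1 :=
      pow_le hX1 m1 hc1.le ((min_le_left _ _).trans (min_le_right _ _))
    have p2 : X ^ A ≤ ((2 : ℝ) ^ i) ^ (max A 0 / a) :=
      pow_le hX1 m1 (by positivity) (by
        rw [mul_div_cancel₀ _ ha.ne']
        exact le_max_left _ _)
    have p3 : a * Real.log X ≤ Real.log ((2 : ℝ) ^ i) := by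
      rw [← Real.log_rpow (by linarith)]
      exact Real.log_le_log (by positivity) m1
    have p4 : a * Real.log X ≤ i := by
      rw [Real.log_pow] at p3
      have := Real.log_two_lt_d9
      have h0 : (0 : ℝ) ≤ i := Nat.cast_nonneg i
      nlinarith
    have p5 : j0 ≤ i := by
      have : (j0 : ℝ) ≤ a * Real.log X := by
        have := mul_le_mul_of_nonneg_left hl ha.le
        rw [mul_add, mul_div_cancel₀ _ ha.ne'] at this
        linarith
      exact_mod_cast this.trans p4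
    have b := h1 (2 ^ i) L q F (blk (2 ^ i)) ((h3 X hX3).trans m1) hL8 hL9 hden.1 (hq.trans p1)
      (hF.trans p1) (fun ξ hξ => (hFA ξ hξ).trans p2) (by
        refine (filter_subset _ _).trans (Ioc_subset_Ioc ?_ ?_)
        · exact Nat.floor_le_of_le (by push_cast; rfl)
        · refine Nat.le_floor ?_
          push_cast
          exact mul_le_mul_of_nonneg_right (by linarith [exp8]) (by positivity))
      fun p hp => (mem_filter.1 hp).2
    have hal : 0 < a * Real.log X := by positivity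
    refine b.trans (mul_le_mul (div_le_div_of_nonneg_left hC.le hal p3)
      ((hj0 i p5).2.trans (div_le_div_of_nonneg_left (by norm_num) hal p4)) ?_ (by positivity))
    exact sum_nonneg fun p _ => by positivity
  refine (sum_le_sum hbil).trans ?_
  rw [sum_comm, ← sum_product']
  refine (Real.sum_mul_le_sqrt_mul_sqrt _ _ _).trans ?_
  rw [← Real.sqrt_mul (by positivity), sum_product, sum_product]
  refine Real.sqrt_le_iff.2 ⟨hϑ.le, ?_⟩
  have s1 := (sum_le_sum hP).trans_eq (sum_const _)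
  have s2 : (#(Ico i0 i1) : ℝ) ≤ Real.log X := by
    have t1 := idx_le hX1 hi1
    have t2 : (#(Ico i0 i1) : ℝ) ≤ i1 := by
      rw [Nat.card_Ico]
      exact_mod_cast Nat.sub_le _ _
    have t3 : (0 : ℝ) ≤ i1 := Nat.cast_nonneg _
    linarith
  rw [nsmul_eq_mul] at s1
  have s3 := s1.trans (mul_le_mul_of_nonneg_right s2 (by positivity))
  have s4 := (sum_le_sum_of_subset_of_nonneg (s := Ico i0 i1)
    (fun i hi => mem_range.2 (mem_Ico.1 hi).2) fun i _ _ => by positivity).trans hsum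
  refine (mul_le_mul s3 s4 (by positivity) (by positivity)).trans_eq ?_
  field_simp

end Pool.Agent.Lib.MP_028aa5_nt.T
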