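import Pool.Agent.Lib.MP_028aa5_nt.T.St3

/-! The end game: transfer of one component to the finite group. -/

namespace Pool.Agent.Lib.MP_028aa5_nt.T

open Finset
open scoped ComplexConjugate Classical

namespace End

/-- sums over a fibre of an injective map -/
theorem fib {M Z : Type} [AddCommMonoid M] [DecidableEq Z] {R : Finset ℕ} {c : ℕ → Z} (hc : Set.InjOn c R)
    (F : ℕ → M) {j : ℕ} (hj : j ∈ R) : ∑ i ∈ R with c i = c j, F i = F j :=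
  sum_eq_single_of_mem j (mem_filter.2 ⟨hj, rfl⟩) fun _ hi h =>
    absurd (hc (mem_filter.1 hi).1 hj (mem_filter.1 hi).2) h

theorem fib0 {M Z : Type} [AddCommMonoid M] [DecidableEq Z] {R : Finset ℕ} {c : ℕ → Z} (F : ℕ → M) {z : Z}
    (h : ¬∃ j ∈ R, c j = z) : ∑ i ∈ R with c i = z, F i = 0 :=
  sum_eq_zero fun i hi => absurd ⟨i, mem_filter.1 hi⟩ h

theorem sq_sum {Z A : Type} [Fintype Z] [Fintype A] [DecidableEq Z] {R T : Finset ℕ} {c : ℕ → Z}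
    (hc : Set.InjOn c R) (v : ℕ → A → ℝ) (hv : ∀ j a, v j a ≠ 0 → j ∈ R ∧ j ∈ T) :
    ∑ g : Z × A, (∑ i ∈ R with c i = g.1, v i g.2) ^ 2 = ∑ j ∈ T, ∑ a, v j a ^ 2 := by
  have h1 : ∀ z a, (∑ i ∈ R with c i = z, v i a) ^ 2 = ∑ i ∈ R with c i = z, v i a ^ 2 := by
    intro z a
    by_cases h : ∃ j ∈ R, c j = z
    · obtain ⟨j, hj, rfl⟩ := h
      rw [fib hc (fun i => v i a) hj, fib hc (fun i => v i a ^ 2) hj]
    · rw [fib0 _ h, fib0 _ h, zero_pow two_ne_zero]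
  rw [Fintype.sum_prod_type_right, sum_comm]
  simp only [h1]
  rw [sum_comm, sum_comm (s := T)]
  refine sum_congr rfl fun a _ => ?_
  rw [sum_fiberwise R c fun i => v i a ^ 2]
  refine sum_congr_of_eq_on_inter (fun j _ h => ?_) (fun j _ h => ?_) fun _ _ _ => rfl
  · rw [not_not.1 fun e => h (hv j a e).2, zero_pow two_ne_zero]
  · rw [not_not.1 fun e => h (hv j a e).1, zero_pow two_ne_zero]

theorem inj {N0 a b : ℕ} (h : b ≤ a + N0) :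
    Set.InjOn (fun j : ℕ => (j : ZMod N0)) (Ico a b : Finset ℕ) := fun _ hi _ hj e =>
  Nat.mod_injOn_Ico a N0 (Ico_subset_Ico_right h hi) (Ico_subset_Ico_right h hj)
    ((ZMod.natCast_eq_natCast_iff' _ _ _).1 e)

theorem mem {Nf c d j : ℕ} (h : 1 ≤ Nf) (hj : j / Nf ∈ Ico c d) : j ∈ Ico (c * Nf) (d * Nf) :=
  mem_Ico.2 ⟨(Nat.le_div_iff_mul_le h).1 (mem_Ico.1 hj).1,
    (Nat.div_lt_iff_lt_mul h).1 (mem_Ico.1 hj).2⟩

theorem ps_mono {π : Par} (h : π.Ok) {c d : ℕ} (e : c ≤ d) : π.ps c ≤ π.ps d :=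
  Real.exp_le_exp.2 (mul_le_mul_of_nonneg_right (Nat.cast_le.2 e)
    (mul_nonneg (Nat.cast_nonneg _) h.κ0.le))

theorem yy_lo {π : Par} (h : π.Ok) {c j : ℕ} (e : c * π.Nf ≤ j) : π.ps c ≤ π.yy j := by
  refine Real.exp_le_exp.2 ?_
  rw [Par.κ1, ← mul_assoc]
  exact mul_le_mul_of_nonneg_right (by exact_mod_cast e) h.κ0.le

theorem yy_hi {π : Par} (h : π.Ok) {c d j : ℕ} (e : j ≤ (c + d) * π.Nf)
    (hd : d * π.κ1 ≤ Real.log 4) : π.yy j ≤ 4 * π.ps c := by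
  rw [← Real.exp_log (by norm_num : (0 : ℝ) < 4), Par.ps, ← Real.exp_add]
  refine Real.exp_le_exp.2 ?_
  have : (j : ℝ) * π.κ0 ≤ ((c + d) * π.Nf) * π.κ0 :=
    mul_le_mul_of_nonneg_right (by exact_mod_cast e) h.κ0.le
  rw [Par.κ1] at hd ⊢
  linarith

theorem exp6 : (256 : ℝ) ≤ Real.exp 6 := by
  have h := Real.exp_one_gt_d9
  calc (256 : ℝ) ≤ 2.7 ^ 6 := by norm_num
    _ ≤ Real.exp 1 ^ 6 := pow_le_pow_left₀ (by norm_num) (by linarith) 6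
    _ = Real.exp 6 := by rw [← Real.exp_nat_mul]; norm_num

end End

theorem st_End (hN : NSt) (hC : CSt) (hB : BasSt) (hFour : FourSt) (hCh : ChSt) (hLam : LamSt)
    (hTr : TrSt) : EndSt := by
  intro π f f' η ε1 ε2 ρ2 K er cL cU Nc Jm N E φ γ τ q N0 _ _ γ0 t vU vL Gd ok hG hI hR hc hf hφ
    hK hJ hN0 hNc hK8 hKY hf' hff h1 h2 h3 h4 her hη
  have κp : 0 < π.κ := (hB.κ1_pos π ok).trans_le (hB.κ1_le π ok)
  have Yp : 0 < π.ps cL := Real.exp_pos _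
  have hL : Nc * π.Nf ≤ N0 := by
    have e1 : Real.log 4 ≤ 4 - 1 := Real.log_le_sub_one_of_pos (by norm_num)
    have e2 : ((Nc * π.Nf : ℕ) : ℝ) * π.κ0 ≤ N0 * π.κ0 := by
      rw [Par.κ1] at hNc
      push_cast
      linarith
    exact_mod_cast le_of_mul_le_mul_right e2 ok.κ0
  have iU := End.inj (N0 := N0) (a := cU * π.Nf) (b := (cU + Nc) * π.Nf)
    (by rw [add_mul]; omega)
  have iL := End.inj (N0 := N0) (a := cL * π.Nf) (b := (cL + Nc) * π.Nf)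
    (by rw [add_mul]; omega)
  set RU := Ico (cU * π.Nf) ((cU + Nc) * π.Nf) with hRU
  set RL := Ico (cL * π.Nf) ((cL + Nc) * π.Nf) with hRL
  set S0 := Ioc ⌊π.ps cL / 8⌋₊ ⌊32 * π.ps cL⌋₊ with hS0
  have mU : ∀ j, ∀ e ∈ E, j / π.Nf = N.cell (N.up e) → j ∈ RU := fun j e he h =>
    End.mem ok.Nf (h ▸ hR.cu _ (hI.up e he))
  have mL : ∀ j, ∀ e ∈ E, j / π.Nf = N.cell (N.lo e) → j ∈ RL := fun j e he h =>
    End.mem ok.Nf (h ▸ hR.cl _ (hI.lo e he))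
  have mJ : ∀ j x, j / π.Nf = N.cell x → j ∈ range Jm := fun j x h =>
    mem_range.2 (lt_of_lt_of_le ((Nat.div_lt_iff_lt_mul ok.Nf).1 (by omega)) (hJ x))
  have hS : S0 ⊆ Ioc ⌊π.ps cL / 8⌋₊ ⌊π.ps cL / 8 * Real.exp 6⌋₊ :=
    Ioc_subset_Ioc_right (Nat.floor_le_floor (by nlinarith [End.exp6]))
  have big : ∀ y, π.ps cL ≤ y → K ≤ π.κ * y := fun y hy =>
    hKY.trans (mul_le_mul_of_nonneg_left hy κp.le)
  have w0 : 0 ≤ π.k * (π.κ0 / π.κ) * wn π.k π.κ t :=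
    mul_nonneg (mul_nonneg (Nat.cast_nonneg _) (div_nonneg ok.κ0.le κp.le))
      (hN.wn_nonneg _ _ _ κp.le)
  have w1 : π.k * (π.κ0 / π.κ) * wn π.k π.κ t ≤ π.k * 2 ^ π.k * (π.κ0 / π.κ) * wn π.k π.κ t := by
    calc _ = π.k * (π.κ0 / π.κ) * wn π.k π.κ t * 1 := (mul_one _).symm
      _ ≤ π.k * (π.κ0 / π.κ) * wn π.k π.κ t * 2 ^ π.k :=
          mul_le_mul_of_nonneg_left (one_le_pow₀ one_le_two) w0
      _ = _ := by ring
  have near : ∀ j ∈ RL, ∀ a : (ZMod q)ˣ, ‖Lam π N0 q S0 f' γ0 t (j, a) -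
      cs π.k π.κ f γ0 t (π.yy j) (a : ZMod q).val‖ ≤
      2 * π.κ + 56 * π.k * (π.κ0 / π.κ) * wn π.k π.κ t := by
    intro j hj a
    have e1 := End.yy_lo ok (mem_Ico.1 hj).1
    have e2 := End.yy_hi ok (mem_Ico.1 hj).2.le hNc
    refine hLam.near π N0 q S0 f f' γ0 t (π.ps cL / 8) j a ok hN0 (by positivity) hS
      (by linarith) (by nlinarith [End.exp6]) (by linarith [big _ e1]) hf fun n hn => ?_
    have e3 : n ∈ Ioc ⌊π.ps cL⌋₊ ⌊8 * π.ps cL⌋₊ :=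
      Ioc_subset_Ioc (Nat.floor_le_floor e1) (Nat.floor_le_floor (by nlinarith [ok.κ])) hn
    exact ⟨Ioc_subset_Ioc (Nat.floor_le_floor (by linarith)) (Nat.floor_le_floor (by linarith)) e3,
      hff n e3⟩
  have gd : ∀ g ∈ Gd, g.1 ∈ RU ∧ g.1 - π.lg g.2.2 ∈ RL ∧
      sh π N0 q g.2.2 ((g.1 : ZMod N0), g.2.1) =
        (((g.1 - π.lg g.2.2 : ℕ) : ZMod N0), g.2.1 * un q g.2.2) := by
    intro g hg
    obtain ⟨-, e, he, e1, e2, -⟩ := hK.gd g hg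
    rw [← e1, ← e2]
    refine ⟨mU _ e he (hI.cu e he), mL _ e he (hI.cl e he), ?_⟩
    rw [Nat.cast_sub (hI.le e he)]
    rfl
  have sq : ∑ g : ZMod N0 × (ZMod q)ˣ, ((∑ i ∈ RU with ((i : ℕ) : ZMod N0) = g.1, vU i g.2) ^ 2 +
      (∑ i ∈ RL with ((i : ℕ) : ZMod N0) = g.1, vL i g.2) ^ 2) =
      ∑ j ∈ range Jm, ∑ a, (vU j a ^ 2 + vL j a ^ 2) := by
    rw [sum_add_distrib]
    simp only [sum_add_distrib]
    congr 1
    · exact End.sq_sum iU vU fun j a h =>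
        let ⟨e, he, e1⟩ := hK.sU j a h
        ⟨mU j e he e1, mJ j _ e1⟩
    · exact End.sq_sum iL vL fun j a h =>
        let ⟨e, he, e1, _⟩ := hK.sL j a h
        ⟨mL j e he e1, mJ j _ e1⟩
  have fU : ∀ {M : Type} [AddCommMonoid M] (F : ℕ → M), ∀ j ∈ RU,
      ∑ i ∈ RU with ((i : ℕ) : ZMod N0) = (j : ZMod N0), F i = F j :=
    fun F j hj => End.fib iU F hj
  have fL : ∀ (F : ℕ → ℝ), ∀ j ∈ RL,
      ∑ i ∈ RL with ((i : ℕ) : ZMod N0) = (j : ZMod N0), F i = F j :=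
    fun F j hj => End.fib iL F hj
  have G0 : (0 : ℝ) ≤ 20 / π.G := by positivity
  have K0 : 0 ≤ 20 / K := div_nonneg (by norm_num) (by linarith)
  have G1 : (60 : ℝ) / π.G = 3 * (20 / π.G) := by ring
  have K1 : 180 / K = 9 * (20 / K) := by ring
  have key := hFour (ZMod N0 × (ZMod q)ˣ) (ZMod N0 × DirichletCharacter ℂ q) (ch N0 q) (dv N0 q)
    {p ∈ π.PP | Nat.Coprime p q} (#π.PP) (sh π N0 q) (mul π N0 q)
    (fun g => ∑ i ∈ RU with ((i : ℕ) : ZMod N0) = g.1, vU i g.2)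
    (fun g => ∑ i ∈ RL with ((i : ℕ) : ZMod N0) = g.1, vL i g.2)
    (Gd.image fun g => (((g.1 : ZMod N0), g.2.1), g.2.2))
    (fun g => ∑ i ∈ RU with ((i : ℕ) : ZMod N0) = g.1, cs π.k π.κ f γ0 t (π.yy i) (g.2 : ZMod q).val)
    (Lam π N0 q S0 f' γ0 t) 3 ε1 (ε2 + er) (η - er) (hCh.norm N0 q) (hCh.orth N0 q)
    (fun g g' => by convert hCh.dual N0 q g g') (hCh.dv N0 q)
    (by exact_mod_cast ok.ne.card_pos) (by exact_mod_cast card_filter_le _ _) (hCh.mul π N0 q)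
    (fun g => sum_nonneg fun i _ => hK.nU _ _) (fun g => sum_nonneg fun i _ => hK.nL _ _)
    ?_ (by norm_num) ?_
    (fun g => hLam.bd π N0 q S0 f' γ0 t _ g ok hN0 (by positivity) hS (by linarith) hf')
    ?_ (by linarith) ?_ (sq ▸ hK.pos) ?_ h1 h2
  · convert key using 3
    · norm_num
    · rw [spec]
      congr
      exact Subsingleton.elim _ _
  · intro x hx
    obtain ⟨g, hg, rfl⟩ := mem_image.1 hx
    obtain ⟨e0, e, he, -, e2, -⟩ := hK.gd g hg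
    exact mem_filter.2 ⟨e2 ▸ hI.pr e he, e0⟩
  · rintro ⟨z, a⟩
    by_cases h : ∃ j ∈ RU, ((j : ℕ) : ZMod N0) = z
    · obtain ⟨j, hj, rfl⟩ := h
      rw [fU (fun i => cs π.k π.κ f γ0 t (π.yy i) (a : ZMod q).val) j hj]
      have e1 := big _ ((End.ps_mono ok hc).trans (End.yy_lo ok (mem_Ico.1 hj).1))
      exact (hC.bds _ _ _ _ _ _ _ hf κp (by linarith)).trans (by norm_num)
    · rw [sum_eq_zero fun i hi => absurd ⟨i, mem_filter.1 hi⟩ h, norm_zero]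
      norm_num
  · intro x hx
    obtain ⟨g, hg, rfl⟩ := mem_image.1 hx
    obtain ⟨g1, g2, g3⟩ := gd g hg
    obtain ⟨e0, e, he, e1, e2, e3, e4⟩ := hK.gd g hg
    have e5 := hR.tk e he
    rw [Net.pos, ← hI.cu e he, e1, e2] at e5
    have e6 : K ≤ π.κ * π.ps ((g.1 - π.lg g.2.2) / π.Nf) :=
      big _ (End.ps_mono ok ((Nat.le_div_iff_mul_le ok.Nf).2 (mem_Ico.1 g2).1))
    have e7 := hTr.good π f _ _ _ γ0 t q g.2.1 g.1 g.2.2 K ε2 ρ2 ok hG hf hK.den.2.1 e0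
      (e2 ▸ (ok.pr _ (hI.pr e he)).1.pos) (e1 ▸ e2 ▸ hI.le e he) (by linarith) e6 (hφ _) e3 e4 e5
    have e8 := near _ g2 (g.2.1 * un q g.2.2)
    dsimp only
    rw [g3, fU (fun i => cs π.k π.κ f γ0 t (π.yy i) (g.2.1 : ZMod q).val) _ g1]
    have e9 := norm_add_le_of_le e7 e8
    rw [add_add_sub_cancel] at e9
    linarith
  · rintro ⟨z, a⟩ h
    obtain ⟨j, hj', h0⟩ := exists_ne_zero_of_sum_ne_zero h
    obtain ⟨hj, rfl⟩ := mem_filter.1 hj'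
    obtain ⟨e, he, e1, e2, e3⟩ := hK.sL j a h0
    have e4 := hR.big e he
    rw [Net.pos, ← e1] at e4
    have e5 := hTr.big π f _ _ _ γ0 t _ j K η ρ2 ok hG hf (by linarith)
      (big _ (End.ps_mono ok ((Nat.le_div_iff_mul_le ok.Nf).2 (mem_Ico.1 hj).1))) (hφ _) e2 e3 e4
    have e6 := near j hj a
    have e7 := norm_sub_norm_le (cs π.k π.κ f γ0 t (π.yy j) (a : ZMod q).val)
      (Lam π N0 q S0 f' γ0 t (j, a))
    rw [norm_sub_rev] at e7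
    linarith
  · rw [sq, sum_image]
    · refine hK.ray.trans (le_of_eq ?_)
      congr 1
      refine sum_congr rfl fun g hg => ?_
      obtain ⟨g1, g2, g3⟩ := gd g hg
      dsimp only
      rw [g3, fU (fun i => vU i g.2.1) _ g1, fL (fun i => vL i (g.2.1 * un q g.2.2)) _ g2]
    · intro g hg g' hg' e
      simp only [Prod.mk.injEq] at e
      exact Prod.ext (iU (gd g hg).1 (gd g' hg').1 e.1.1) (Prod.ext e.1.2 e.2)

end Pool.Agent.Lib.MP_028aa5_nt.T
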