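import Pool.Agent.Lib.MP_028aa5_nt.T.St3

/-! The model on the finite group. -/

namespace Pool.Agent.Lib.MP_028aa5_nt.T

open Finset
open scoped ComplexConjugate Classical

namespace LamA

variable {π : Par} {N0 : ℕ} {A : ℝ}

theorem lg_le (h : π.Ok) {n : ℕ} (hn : 0 < n) (m : ℕ) : π.lg n ≤ m ↔ n ≤ π.yy m := by
  rw [Par.lg, Nat.ceil_le, div_le_iff₀ h.κ0, Real.log_le_iff_le_exp (by exact_mod_cast hn), Par.yy]

theorem yy_add (π : Par) (i j : ℕ) : π.yy (i + j) = π.yy i * π.yy j := by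
  rw [Par.yy, Par.yy, Par.yy, ← Real.exp_add, Nat.cast_add, add_mul]

theorem yy_W (π : Par) : π.yy (π.G * π.Nf) = 1 + π.κ := by
  rw [Par.yy, Par.κ, Par.κ1, add_sub_cancel, Nat.cast_mul, mul_assoc]

theorem le_κ (h : π.Ok) {d : ℕ} (hd : d ≤ π.G * π.Nf) : d * π.κ0 ≤ π.κ := by
  have k := Real.add_one_le_exp ((π.G * π.Nf : ℕ) * π.κ0)
  rw [← Par.yy, yy_W] at k
  linarith [mul_le_mul_of_nonneg_right (Nat.cast_le (α := ℝ).2 hd) h.κ0.le]

theorem κ0_le (h : π.Ok) : π.κ0 ≤ π.κ := by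
  simpa using le_κ h (d := 1) (Nat.mul_pos h.G h.Nf)

theorem lg_lt (h : π.Ok) (n : ℕ) : π.lg n * π.κ0 < Real.log n + π.κ0 := by
  have k := mul_lt_mul_of_pos_right
    (Nat.ceil_lt_add_one (div_nonneg (Real.log_natCast_nonneg n) h.κ0.le)) h.κ0
  rwa [add_mul, div_mul_cancel₀ _ h.κ0.ne', one_mul] at k

theorem lg_mem (h : π.Ok) (hA : 0 < A) {n : ℕ} (hn : n ∈ Ioc ⌊A⌋₊ ⌊A * Real.exp 6⌋₊) :
    0 < n ∧ A < n ∧ Real.log A < π.lg n * π.κ0 ∧ π.lg n * π.κ0 < Real.log A + 7 := by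
  have n0 : 0 < n := (Nat.zero_le _).trans_lt (mem_Ioc.1 hn).1
  have k1 := (Nat.floor_lt hA.le).1 (mem_Ioc.1 hn).1
  have k2 := Real.log_le_log (hA.trans k1) ((Nat.le_floor_iff (by positivity)).1 (mem_Ioc.1 hn).2)
  rw [Real.log_mul hA.ne' (Real.exp_pos 6).ne', Real.log_exp] at k2
  refine ⟨n0, k1, (Real.log_lt_iff_lt_exp hA).2 (k1.trans_le ((lg_le h n0 _).1 le_rfl)), ?_⟩
  linarith [lg_lt h n, κ0_le h, h.κ]

theorem eq_of (h : π.Ok) (hN : 8 ≤ N0 * π.κ0) {x y : ℕ} (e1 : (x : ZMod N0) = y)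
    (e2 : |y * π.κ0 - x * π.κ0| < 8) : x = y := by
  refine ((ZMod.natCast_eq_natCast_iff _ _ _).1 e1).eq_of_abs_lt ?_
  rw [← sub_mul, abs_mul, abs_of_pos h.κ0] at e2
  exact_mod_cast lt_of_mul_lt_mul_right (e2.trans_le hN) h.κ0.le

theorem ph_sub_le (k : ℕ) (t : Ph) {κ z z' : ℝ} (h0 : 0 < κ) (h1 : |z| ≤ κ) (h2 : |z'| ≤ κ) :
    |ph k t z - ph k t z'| ≤ k * (|z - z'| / κ) * wn k κ t := by
  rw [ph, ph, ← sum_sub_distrib, wn, mul_sum]
  refine (abs_sum_le_sum_abs _ _).trans (sum_le_sum fun j hj => ?_)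
  obtain ⟨i, rfl⟩ := Nat.exists_eq_add_of_le' (mem_Icc.1 hj).1
  rw [← mul_sub, abs_mul, mul_comm, ← mul_assoc]
  refine mul_le_mul_of_nonneg_right ((abs_pow_sub_pow_le _ _ _).trans ?_) (abs_nonneg _)
  rw [Nat.add_sub_cancel, pow_succ', ← mul_assoc, mul_assoc (k : ℝ), div_mul_cancel₀ _ h0.ne',
    mul_comm (k : ℝ)]
  exact mul_le_mul (mul_le_mul_of_nonneg_left (Nat.cast_le.2 (mem_Icc.1 hj).2) (abs_nonneg _))
    (pow_le_pow_left₀ (by positivity) (max_le h1 h2) i) (by positivity) (by positivity)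

end LamA

open LamA in
theorem st_Lam : LamSt where
  near := by
    intro π N0 q _ S f f' γ t A j a h hN hA hS a1 a2 hy hf hw
    have k0 := h.κ0
    have κ0 : 0 < π.κ := k0.trans_le (κ0_le h)
    have y0 : 0 < π.yy j := Real.exp_pos _
    have b1 : Real.log A ≤ j * π.κ0 := (Real.log_le_iff_le_exp hA).2 a1
    have b2 : j * π.κ0 ≤ Real.log A + 6 := by
      rw [← Real.exp_le_exp, Real.exp_add, Real.exp_log hA]
      exact a2
    have win : ∀ n : ℕ, 0 < n → (n ∈ Ioc ⌊π.yy j⌋₊ ⌊π.yy j * (1 + π.κ)⌋₊ ↔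
        j < π.lg n ∧ π.lg n ≤ j + π.G * π.Nf) := fun n hn => by
      rw [mem_Ioc, Nat.floor_lt y0.le, Nat.le_floor_iff (by positivity), ← not_le (a := π.lg n),
        lg_le h hn, lg_le h hn, not_le, yy_add, yy_W]
    have e1 : Lam π N0 q S f' γ t (j, a) = (π.κ : ℂ)⁻¹ *
        ∑ n ∈ Ioc ⌊π.yy j⌋₊ ⌊π.yy j * (1 + π.κ)⌋₊, f n / n *
          e (-ph π.k γ ((a : ZMod q).val * n)) * e (-ph π.k t (π.yy (π.lg n - j) - 1)) := by
      rw [Lam, ← sum_subset (fun n hn => (hw n hn).1) fun n hn hn' => ?_]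
      · congr 1
        refine sum_congr rfl fun n hn => ?_
        obtain ⟨c1, c2⟩ := (win n ((Nat.zero_le _).trans_lt (mem_Ioc.1 hn).1)).1 hn
        have c3 : π.lg n - j ≤ π.G * π.Nf := by omega
        have c4 : π.lg n - j < N0 := by
          exact_mod_cast lt_of_mul_lt_mul_right (show ((π.lg n - j : ℕ) : ℝ) * π.κ0 < N0 * π.κ0 by
            linarith [le_κ h c3, h.κ]) k0.le
        rw [(hw n hn).2, ker, ← Nat.cast_sub c1.le, ZMod.val_natCast_of_lt c4,
          if_pos ⟨by omega, c3⟩]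
      · rw [ker, if_neg fun hc => hn' ?_, mul_zero]
        obtain ⟨n0, -, c1, c2⟩ := lg_mem h hA (hS hn)
        dsimp only at hc
        have c3 := le_κ h hc.2
        have c4 := eq_of h hN (x := π.lg n) (y := j + ((π.lg n : ZMod N0) - j).val) (by simp) (by
          rw [Nat.cast_add, add_mul, abs_lt]
          constructor <;> linarith [h.κ, mul_nonneg (Nat.cast_nonneg (α := ℝ)
            ((π.lg n : ZMod N0) - j).val) k0.le])
        exact (win n n0).2 ⟨by omega, by omega⟩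
    have w0 : 0 ≤ wn π.k π.κ t := sum_nonneg fun _ _ => by positivity
    rw [e1, cs, mul_sum, mul_sum, ← sum_sub_distrib]
    refine (norm_sum_le_of_le _ (n := fun _ => (π.κ * π.yy j)⁻¹ *
      (π.κ + 28 * π.k * (π.κ0 / π.κ) * wn π.k π.κ t)) fun n hn => ?_).trans ?_
    · have n0 : 0 < n := (Nat.zero_le _).trans_lt (mem_Ioc.1 hn).1
      obtain ⟨c1, c2⟩ := (win n n0).1 hn
      have c3 := (Nat.floor_lt y0.le).1 (mem_Ioc.1 hn).1
      have c4 := (Nat.le_floor_iff (by positivity)).1 (mem_Ioc.1 hn).2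
      have n1 : (0 : ℝ) < n := y0.trans c3
      have c5 : π.yy (π.lg n - j) = π.yy (π.lg n) / π.yy j := by
        rw [eq_div_iff y0.ne', ← yy_add, Nat.sub_add_cancel c1.le]
      have c6 : (n : ℝ) ≤ π.yy (π.lg n) := (lg_le h n0 _).1 le_rfl
      have c7 : π.yy (π.lg n) ≤ n * Real.exp π.κ0 := by
        rw [← Real.exp_log n1, ← Real.exp_add]
        exact Real.exp_le_exp.2 (lg_lt h n).le
      have c8 := (abs_le.1 (Real.abs_exp_sub_one_le
        ((abs_of_pos k0).trans_le ((κ0_le h).trans h.κ)))).2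
      rw [abs_of_pos k0] at c8
      have z1 : |n / π.yy j - 1| ≤ π.κ := by
        rw [abs_of_nonneg (sub_nonneg.2 ((one_le_div y0).2 c3.le)), sub_le_iff_le_add',
          div_le_iff₀' y0]
        exact c4
      have z2 : |π.yy (π.lg n - j) - 1| ≤ π.κ := by
        rw [Par.yy, abs_of_nonneg (sub_nonneg.2 (Real.one_le_exp (by positivity))),
          sub_le_iff_le_add', ← yy_W]
        exact Real.exp_le_exp.2 (mul_le_mul_of_nonneg_right (Nat.cast_le.2 (by omega)) k0.le)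
      have z3 : |π.yy (π.lg n - j) - 1 - (n / π.yy j - 1)| ≤ 4 * π.κ0 := by
        rw [sub_sub_sub_cancel_right, c5, ← sub_div, abs_div, abs_of_pos y0,
          abs_of_nonneg (sub_nonneg.2 c6), div_le_iff₀ y0]
        have : (n : ℝ) ≤ 2 * π.yy j := by nlinarith [h.κ]
        nlinarith [mul_le_mul_of_nonneg_left c8 n1.le, mul_le_mul_of_nonneg_left this k0.le]
      have z4 := (ph_sub_le π.k t κ0 z2 z1).trans (mul_le_mul_of_nonneg_right
        (mul_le_mul_of_nonneg_left (div_le_div_of_nonneg_right z3 κ0.le) (Nat.cast_nonneg _)) w0)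
      have z5 := norm_e_sub_le (-ph π.k t (π.yy (π.lg n - j) - 1)) (-ph π.k t (n / π.yy j - 1))
      rw [neg_sub_neg, abs_sub_comm] at z5
      have e2 : (π.κ : ℂ)⁻¹ * (f n / n * e (-ph π.k γ ((a : ZMod q).val * n)) *
          e (-ph π.k t (π.yy (π.lg n - j) - 1))) - ((π.κ * π.yy j : ℝ) : ℂ)⁻¹ *
          (f n * e (-ph π.k γ ((a : ZMod q).val * n) - ph π.k t (n / π.yy j - 1))) =
          (((π.κ * π.yy j)⁻¹ : ℝ) : ℂ) * (f n * e (-ph π.k γ ((a : ZMod q).val * n)) *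
            (((π.yy j / n - 1 : ℝ) : ℂ) * e (-ph π.k t (π.yy (π.lg n - j) - 1)) +
            (e (-ph π.k t (π.yy (π.lg n - j) - 1)) - e (-ph π.k t (n / π.yy j - 1))))) := by
        have d1 : (π.yy j : ℂ) ≠ 0 := by exact_mod_cast y0.ne'
        rw [sub_eq_add_neg (-ph π.k γ _), e_add]
        push_cast
        field_simp
        ring
      rw [e2, norm_mul, Complex.norm_real, Real.norm_eq_abs, abs_of_pos (by positivity), norm_mul,
        norm_mul, norm_e, mul_one]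
      refine mul_le_mul_of_nonneg_left ((mul_le_of_le_one_left (norm_nonneg _) (hf n)).trans
        ((norm_add_le _ _).trans (add_le_add ?_ (z5.trans ?_)))) (by positivity)
      · rw [norm_mul, norm_e, mul_one, Complex.norm_real, Real.norm_eq_abs, abs_sub_comm,
          abs_of_nonneg (sub_nonneg.2 ((div_le_one n1).2 c3.le)), sub_le_comm, le_div_iff₀ n1]
        nlinarith [mul_le_mul_of_nonneg_left c3.le κ0.le]
      · rw [mul_div_assoc] at z4
        linarith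
    · rw [sum_const, Nat.card_Ioc, nsmul_eq_mul, Nat.cast_sub (Nat.floor_mono
        (le_mul_of_one_le_right y0.le (by linarith))), ← mul_assoc]
      have c1 : ((⌊π.yy j * (1 + π.κ)⌋₊ : ℝ) - ⌊π.yy j⌋₊) * (π.κ * π.yy j)⁻¹ ≤ 2 := by
        rw [mul_inv_le_iff₀ (by positivity)]
        linarith [Nat.floor_le (show 0 ≤ π.yy j * (1 + π.κ) by positivity),
          Nat.lt_floor_add_one (π.yy j)]
      exact (mul_le_mul_of_nonneg_right c1 (by positivity)).trans_eq (by ring)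
  bd := by
    intro π N0 q _ S f' γ t A g h hN hA hS hκ hf
    have k0 := h.κ0
    have κ0 : 0 < π.κ := k0.trans_le (κ0_le h)
    obtain ⟨T, hT⟩ : ∃ T, T = {n ∈ S | 0 < ((π.lg n : ZMod N0) - g.1).val ∧
      ((π.lg n : ZMod N0) - g.1).val ≤ π.G * π.Nf} := ⟨_, rfl⟩
    have e1 : ‖Lam π N0 q S f' γ t g‖ ≤ π.κ⁻¹ * ∑ n ∈ T, (n : ℝ)⁻¹ := by
      rw [Lam, norm_mul, norm_inv, Complex.norm_real, Real.norm_eq_abs, abs_of_pos κ0, hT,
        sum_filter]
      refine mul_le_mul_of_nonneg_left (norm_sum_le_of_le _ fun n hn => ?_) (by positivity)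
      rw [ker]
      split_ifs
      · rw [norm_mul, norm_mul, norm_e, norm_e, mul_one, mul_one, norm_div, Complex.norm_natCast,
          inv_eq_one_div]
        exact div_le_div_of_nonneg_right (hf n hn) (Nat.cast_nonneg n)
      · simp
    refine e1.trans ?_
    rcases T.eq_empty_or_nonempty with h0 | h0
    · simp [h0]
    obtain ⟨m, hm, h1⟩ := exists_min_image T id h0
    rw [hT, mem_filter] at hm
    obtain ⟨m0, m1, m2, m3⟩ := lg_mem h hA (hS hm.1)
    have m4 : 1 < π.κ * m := hκ.trans_lt (mul_lt_mul_of_pos_left m1 κ0)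
    have m5 : (0 : ℝ) < m := hA.trans m1
    have m6 : 0 < π.lg m := by
      rw [← not_le, lg_le h m0, Par.yy, Nat.cast_zero, zero_mul, Real.exp_zero, not_le]
      nlinarith [h.κ]
    have m7 : π.yy (π.lg m - 1) < m := by
      rw [← not_le, ← lg_le h m0]
      omega
    have sub : T ⊆ Icc m ⌊m * (1 + π.κ)⌋₊ := fun n hn => mem_Icc.2 ⟨h1 n hn, Nat.le_floor (by
      rw [hT, mem_filter] at hn
      obtain ⟨n0, -, n2, n3⟩ := lg_mem h hA (hS hn.1)
      have c4 := eq_of h hN (x := π.lg n + ((π.lg m : ZMod N0) - g.1).val)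
        (y := π.lg m + ((π.lg n : ZMod N0) - g.1).val) (by
          simp only [Nat.cast_add, ZMod.natCast_zmod_val]
          ring) (by
          rw [Nat.cast_add, Nat.cast_add, add_mul, add_mul, abs_lt]
          constructor <;> linarith [h.κ, le_κ h hn.2.2, le_κ h hm.2.2,
            mul_nonneg (Nat.cast_nonneg (α := ℝ) ((π.lg n : ZMod N0) - g.1).val) k0.le,
            mul_nonneg (Nat.cast_nonneg (α := ℝ) ((π.lg m : ZMod N0) - g.1).val) k0.le])
      refine ((lg_le h n0 (π.lg m - 1 + π.G * π.Nf)).1 (by omega)).trans ?_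
      rw [yy_add, yy_W]
      exact mul_le_mul_of_nonneg_right m7.le (by positivity))⟩
    have c1 : (#T : ℝ) ≤ 2 * (π.κ * m) := by
      have c2 := card_le_card sub
      rw [Nat.card_Icc, Nat.le_sub_iff_add_le (Nat.le_succ_of_le (Nat.le_floor
        (le_mul_of_one_le_right m5.le (by linarith))))] at c2
      have c3 : (#T : ℝ) + m ≤ ⌊m * (1 + π.κ)⌋₊ + 1 := by exact_mod_cast c2
      linarith [Nat.floor_le (show 0 ≤ m * (1 + π.κ) by positivity)]
    have c2 := sum_le_card_nsmul T (fun n => (n : ℝ)⁻¹) (m : ℝ)⁻¹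
      fun n hn => inv_anti₀ m5 (Nat.cast_le.2 (h1 n hn))
    rw [nsmul_eq_mul] at c2
    rw [inv_mul_le_iff₀ κ0]
    refine c2.trans ?_
    rw [mul_inv_le_iff₀ m5]
    linarith

end Pool.Agent.Lib.MP_028aa5_nt.T
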