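import Pool.Agent.Lib.MP_028aa5_nt.T.St4

/-! The Fourier coefficients of the model. -/

namespace Pool.Agent.Lib.MP_028aa5_nt.T

open Finset
open scoped ComplexConjugate Classical

namespace Hat

lemma sum_val {N0 : ℕ} [NeZero N0] (F : ℕ → ℂ) :
    ∑ i : ZMod N0, F i.val = ∑ m ∈ range N0, F m := by
  refine sum_nbij' (fun i => i.val) (fun m => (m : ZMod N0)) (fun i _ => mem_range.2 i.val_lt)
    (fun _ _ => mem_univ _) (fun i _ => by simp) (fun m hm => ZMod.val_cast_of_lt (mem_range.1 hm))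
    fun _ _ => rfl

/-- summation by parts against a geometric sequence -/
lemma abel (w : ℕ → ℂ) (ω : ℂ) (hω : ‖ω‖ = 1) (L : ℕ) :
    ‖(ω - 1) * ∑ m ∈ range L, w (m + 1) * ω ^ (m + 1) - w L * ω ^ (L + 1) + w 0 * ω‖ ≤
      ∑ m ∈ range L, ‖w m - w (m + 1)‖ := by
  induction L with
  | zero => simp
  | succ L ih =>
    rw [sum_range_succ, sum_range_succ]
    have h : (ω - 1) * (∑ m ∈ range L, w (m + 1) * ω ^ (m + 1) + w (L + 1) * ω ^ (L + 1)) -
        w (L + 1) * ω ^ (L + 1 + 1) + w 0 * ω =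
        ((ω - 1) * ∑ m ∈ range L, w (m + 1) * ω ^ (m + 1) - w L * ω ^ (L + 1) + w 0 * ω) +
          (w L - w (L + 1)) * ω ^ (L + 1) := by ring
    rw [h]
    refine (norm_add_le _ _).trans (add_le_add ih ?_)
    rw [norm_mul, norm_pow, hω, one_pow, mul_one]

lemma e_pow (x : ℝ) (m : ℕ) : e x ^ m = e (x * m) := by
  induction m with
  | zero => simp
  | succ m ih => rw [pow_succ, ih, ← e_add]; congr 1; push_cast; ring

lemma abel_bd (w : ℕ → ℂ) (hw : ∀ m, ‖w m‖ = 1) {x V : ℝ} (hx : |x| ≤ 1 / 2) (L : ℕ)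
    (hV : ∑ m ∈ range L, ‖w m - w (m + 1)‖ ≤ V) :
    4 * |x| * ‖∑ m ∈ range L, w (m + 1) * e (x * (m + 1 : ℕ))‖ ≤ 2 + V := by
  have h1 := abel w (e x) (norm_e x) L
  simp only [← e_pow]
  generalize ∑ m ∈ range L, w (m + 1) * e x ^ (m + 1) = s at h1 ⊢
  have h2 : (e x - 1) * s = ((e x - 1) * s - w L * e x ^ (L + 1) + w 0 * e x) +
      w L * e x ^ (L + 1) - w 0 * e x := by ring
  have h3 : ‖(e x - 1) * s‖ ≤ V + 1 + 1 := by
    rw [h2]
    refine (norm_sub_le _ _).trans (add_le_add ((norm_add_le _ _).trans (add_le_add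
      (h1.trans hV) ?_)) ?_)
    · simp [hw]
    · simp [hw]
  rw [norm_mul] at h3
  have := mul_le_mul_of_nonneg_right (le_norm_e_sub_one hx) (norm_nonneg s)
  linarith

lemma ph_var (k : ℕ) (t : Ph) {z z' : ℝ} (hz : 0 ≤ z) (h : z ≤ z') :
    |ph k t z' - ph k t z| ≤ wn k z' t - wn k z t := by
  rw [ph, ph, wn, wn, ← sum_sub_distrib, ← sum_sub_distrib]
  refine (abs_sum_le_sum_abs _ _).trans (sum_le_sum fun j _ => ?_)
  rw [← mul_sub, abs_mul, abs_of_nonneg (sub_nonneg.2 (pow_le_pow_left₀ hz h j))]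
  exact le_of_eq (by ring)

lemma var_bd (π : Par) (h0 : 0 < π.κ0) (t : Ph) :
    ∑ m ∈ range (π.G * π.Nf), ‖e (-ph π.k t (π.yy m - 1)) - e (-ph π.k t (π.yy (m + 1) - 1))‖ ≤
      7 * wn π.k π.κ t := by
  have h1 : ∀ m, ‖e (-ph π.k t (π.yy m - 1)) - e (-ph π.k t (π.yy (m + 1) - 1))‖ ≤
      7 * (wn π.k (π.yy (m + 1) - 1) t - wn π.k (π.yy m - 1) t) := fun m => by
    refine (norm_e_sub_le _ _).trans (mul_le_mul_of_nonneg_left ?_ (by norm_num))
    rw [neg_sub_neg]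
    refine ph_var _ _ (sub_nonneg.2 (Real.one_le_exp (by positivity))) ?_
    refine sub_le_sub_right (Real.exp_le_exp.2 ?_) _
    push_cast
    linarith
  refine (sum_le_sum fun m _ => h1 m).trans ?_
  rw [← mul_sum, sum_range_sub (fun m => wn π.k (π.yy m - 1) t)]
  have h2 : π.yy (π.G * π.Nf) - 1 = π.κ := by
    simp only [Par.yy, Par.κ, Par.κ1]; push_cast; rw [mul_assoc]
  have h3 : 0 ≤ wn π.k (π.yy 0 - 1) t := by
    simp only [Par.yy, Nat.cast_zero, zero_mul, Real.exp_zero, sub_self]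
    exact sum_nonneg fun j _ => by positivity
  rw [h2]
  linarith

/-- the Fourier transform of the kernel -/
noncomputable def Kf (π : Par) (N0 : ℕ) [NeZero N0] (t : Ph) (h : ℤ) : ℂ :=
  (N0 : ℂ)⁻¹ * ∑ i : ZMod N0, ker π N0 t i * e (h / N0 * i.val)

lemma GNf_le (π : Par) : (π.G * π.Nf : ℝ) * π.κ0 ≤ π.κ := by
  have := Real.add_one_le_exp (π.G * π.κ1)
  simp only [Par.κ, Par.κ1] at this ⊢
  linarith

lemma K_eq {π : Par} (hπ : π.Ok) {N0 : ℕ} [NeZero N0] (hN : 8 ≤ N0 * π.κ0) (t : Ph) (h : ℤ) :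
    Kf π N0 t h = (N0 : ℂ)⁻¹ * ∑ m ∈ range (π.G * π.Nf),
      e (-ph π.k t (π.yy (m + 1) - 1)) * e (h / N0 * (m + 1 : ℕ)) := by
  have hlt : π.G * π.Nf < N0 := by
    have h1 := GNf_le π
    have h2 := hπ.κ
    have h3 : ((π.G * π.Nf : ℕ) : ℝ) * π.κ0 < N0 * π.κ0 := by push_cast; linarith
    exact_mod_cast lt_of_mul_lt_mul_right h3 hπ.κ0.le
  rw [Kf]
  congr 1
  simp only [ker]
  rw [sum_val fun m => (if 0 < m ∧ m ≤ π.G * π.Nf then e (-ph π.k t (π.yy m - 1)) else 0) *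
    e (h / N0 * m)]
  simp only [ite_mul, zero_mul]
  rw [← sum_filter]
  have h4 : (range N0).filter (fun m => 0 < m ∧ m ≤ π.G * π.Nf) = Ico 1 (π.G * π.Nf + 1) := by
    ext m
    simp only [mem_filter, mem_range, mem_Ico]
    omega
  rw [h4, sum_Ico_eq_sum_range]
  simp only [add_tsub_cancel_right, add_comm 1]

lemma κ_pos {π : Par} (hπ : π.Ok) : 0 < π.κ := by
  have h1 : (1 : ℝ) ≤ π.G := by exact_mod_cast hπ.G
  have h2 : (1 : ℝ) ≤ π.Nf := by exact_mod_cast hπ.Nf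
  have h3 := hπ.κ0
  exact lt_of_lt_of_le (by positivity) (GNf_le π)

lemma K_le {π : Par} (hπ : π.Ok) {N0 : ℕ} [NeZero N0] (hN : 8 ≤ N0 * π.κ0) (t : Ph) (h : ℤ) :
    ‖Kf π N0 t h‖ ≤ π.κ / 8 := by
  have hN0 : (0 : ℝ) < N0 := by exact_mod_cast Nat.pos_of_ne_zero (NeZero.ne N0)
  rw [K_eq hπ hN, norm_mul, norm_inv, Complex.norm_natCast, inv_mul_le_iff₀ hN0]
  refine (norm_sum_le _ _).trans ?_
  simp only [norm_mul, norm_e, mul_one, sum_const, card_range, nsmul_eq_mul]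
  refine le_of_mul_le_mul_right ?_ hπ.κ0
  have h1 := GNf_le π
  have h2 := κ_pos hπ
  push_cast
  nlinarith

lemma K_far {π : Par} (hπ : π.Ok) {N0 : ℕ} [NeZero N0] (hN : 8 ≤ N0 * π.κ0) (t : Ph) {h : ℤ}
    (hh : 2 * |(h : ℝ)| ≤ N0) : 4 * |(h : ℝ)| * ‖Kf π N0 t h‖ ≤ 2 + 7 * wn π.k π.κ t := by
  have hN0 : (0 : ℝ) < N0 := by exact_mod_cast Nat.pos_of_ne_zero (NeZero.ne N0)
  have hx : |(h : ℝ) / N0| ≤ 1 / 2 := by
    rw [abs_div, abs_of_pos hN0, div_le_iff₀ hN0]; linarith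
  have h1 := abel_bd (fun m => e (-ph π.k t (π.yy m - 1))) (fun _ => norm_e _) hx _
    (var_bd π hπ.κ0 t)
  rw [K_eq hπ hN, norm_mul, norm_inv, Complex.norm_natCast]
  rw [abs_div, abs_of_pos hN0] at h1
  refine le_of_eq_of_le ?_ h1
  ring

lemma hat_eq (hC : ChSt) (π : Par) (N0 q : ℕ) [NeZero N0] [NeZero q] (S : Finset ℕ) (f : ℕ → ℂ)
    (γ t : Ph) (ξ : ZMod N0 × DirichletCharacter ℂ q) :
    hat (ch N0 q) (Lam π N0 q S f γ t) ξ = (π.κ : ℂ)⁻¹ * Kf π N0 t ξ.1.valMinAbs *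
      ∑ n ∈ S, f n * gch π.k q γ ξ.2 n / n * e (-(ξ.1.valMinAbs / N0 * π.lg n)) := by
  obtain ⟨h, χ⟩ := ξ
  have key : ∀ n, ∑ j : ZMod N0, ker π N0 t ((π.lg n : ZMod N0) - j) *
      conj (e ((h.val * j.val : ℝ) / N0)) =
      (∑ i : ZMod N0, ker π N0 t i * e (h.valMinAbs / N0 * i.val)) *
        e (-(h.valMinAbs / N0 * π.lg n)) := fun n => by
    rw [sum_mul, ← (Equiv.subLeft (π.lg n : ZMod N0)).sum_comp]
    refine sum_congr rfl fun i _ => ?_
    have h1 := hC.cast N0 h.valMinAbs (π.lg n - i.val)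
    have h2 : (((π.lg n - i.val : ℤ)) : ZMod N0) = (π.lg n : ZMod N0) - i := by simp
    rw [ZMod.coe_valMinAbs, h2] at h1
    simp only [Equiv.subLeft_apply, sub_sub_cancel]
    rw [h1, conj_e, mul_assoc, ← e_add]
    congr 2
    push_cast
    ring
  have hφ : (Fintype.card (ZMod q)ˣ : ℂ) = q.totient := by rw [ZMod.card_units_eq_totient]
  simp only [hat, Lam, ch, Kf, gch, Fintype.card_prod, ZMod.card, Nat.cast_mul, hφ,
    Fintype.sum_prod_type, map_mul]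
  have step : ∀ n, (N0 : ℂ)⁻¹ * (∑ i : ZMod N0, ker π N0 t i * e (h.valMinAbs / N0 * i.val)) *
      (f n * ((q.totient : ℂ)⁻¹ * ∑ a : (ZMod q)ˣ, conj (χ a) *
        e (-ph π.k γ ((a : ZMod q).val * n))) / n * e (-(h.valMinAbs / N0 * π.lg n))) =
      ((N0 : ℂ) * q.totient)⁻¹ * ∑ j : ZMod N0, ∑ a : (ZMod q)ˣ,
        f n / n * e (-ph π.k γ ((a : ZMod q).val * n)) * ker π N0 t ((π.lg n : ZMod N0) - j) *
          (conj (e ((h.val * j.val : ℝ) / N0)) * conj (χ a)) := fun n => by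
    have : ∑ j : ZMod N0, ∑ a : (ZMod q)ˣ,
        f n / n * e (-ph π.k γ ((a : ZMod q).val * n)) * ker π N0 t ((π.lg n : ZMod N0) - j) *
          (conj (e ((h.val * j.val : ℝ) / N0)) * conj (χ a)) =
        f n / n * ((∑ j : ZMod N0, ker π N0 t ((π.lg n : ZMod N0) - j) *
          conj (e ((h.val * j.val : ℝ) / N0))) *
          ∑ a : (ZMod q)ˣ, conj (χ a) * e (-ph π.k γ ((a : ZMod q).val * n))) := by
      rw [sum_mul_sum, mul_sum]
      refine sum_congr rfl fun j _ => ?_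
      rw [mul_sum]
      exact sum_congr rfl fun a _ => by ring
    rw [this, key]
    ring
  rw [mul_assoc (π.κ : ℂ)⁻¹, mul_sum S]
  simp only [step]
  rw [← mul_sum S, mul_left_comm]
  congr 1
  rw [sum_comm (s := S), mul_sum]
  refine sum_congr rfl fun j _ => ?_
  rw [sum_comm (s := S), mul_sum]
  refine sum_congr rfl fun a _ => ?_
  rw [mul_assoc, sum_mul]

lemma harm (hG : GrSt) {S : Finset ℕ} {A : ℝ} (hA : 1 ≤ A)
    (hS : S ⊆ Ioc ⌊A⌋₊ ⌊A * Real.exp 6⌋₊) : ∑ n ∈ S, 1 / (n : ℝ) ≤ 7 := by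
  have h6 : 1 ≤ Real.exp 6 := Real.one_le_exp (by norm_num)
  have h1 := hG.hsum A (A * Real.exp 6) (by linarith) (by nlinarith)
  rw [mul_div_cancel_left₀ _ (by linarith), Real.log_exp] at h1
  have h2 := min_le_left (1 : ℝ) (1 / A)
  refine (sum_le_sum_of_subset_of_nonneg hS fun _ _ _ => by positivity).trans ?_
  linarith

lemma lg_near {π : Par} (h0 : 0 < π.κ0) (n : ℕ) : |(π.lg n : ℝ) - Real.log n / π.κ0| ≤ 1 := by
  have h1 : 0 ≤ Real.log n / π.κ0 := div_nonneg (Real.log_natCast_nonneg n) h0.le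
  have h2 := Nat.le_ceil (Real.log n / π.κ0)
  have h3 := Nat.ceil_lt_add_one h1
  rw [Par.lg, abs_le]
  constructor <;> linarith

end Hat

open Hat in
theorem st_Hat (hC : ChSt) (hG : GrSt) (hG0 : G0St) : HatSt := by
  intro N0 q _ _ T1 F hT
  have hN0 : (0 : ℝ) < N0 := by exact_mod_cast Nat.pos_of_ne_zero (NeZero.ne N0)
  let F0 := F.filter fun ξ => |(ξ.1.valMinAbs : ℝ)| ≤ T1
  let φ : ZMod N0 × DirichletCharacter ℂ q → ℤ × DirichletCharacter ℂ q :=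
    fun ξ => (ξ.1.valMinAbs, ξ.2)
  have hφ : Function.Injective φ := fun ξ ξ' h =>
    Prod.ext (ZMod.injective_valMinAbs (Prod.ext_iff.1 h).1) (Prod.ext_iff.1 h).2
  refine ⟨F0.image φ, card_image_le.trans (card_filter_le _ _), fun ξ hξ => ?_, ?_⟩
  · obtain ⟨ξ', h, rfl⟩ := mem_image.1 hξ
    exact (mem_filter.1 h).2
  intro π S f γ t A hπ hN hA hS hf
  have hκ := κ_pos hπ
  have h7 := harm hG hA hS
  have hw : 0 ≤ wn π.k π.κ t := sum_nonneg fun j _ => by positivity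
  have hc : ∀ χ, ∀ n ∈ S, ‖f n * gch π.k q γ χ n / n‖ ≤ 1 / (n : ℝ) := fun χ n hn => by
    rw [norm_div, norm_mul, Complex.norm_natCast]
    exact div_le_div_of_nonneg_right
      (mul_le_one₀ (hf n hn) (norm_nonneg _) (hG0.bd _ _ _ _ _)) (Nat.cast_nonneg n)
  rw [sum_image fun _ _ _ _ h => hφ h, sum_filter, ← nsmul_eq_mul #F, ← sum_const,
    ← sum_add_distrib]
  refine sum_le_sum fun ξ _ => ?_
  rw [hat_eq hC, norm_mul, norm_mul, norm_inv, Complex.norm_real, Real.norm_of_nonneg hκ.le]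
  obtain ⟨a, χ⟩ := ξ
  have ha : 2 * |(a.valMinAbs : ℝ)| ≤ N0 := by
    have h1 := a.valMinAbs_mem_Ioc
    have h2 : 2 * |a.valMinAbs| ≤ N0 := by
      rcases abs_cases a.valMinAbs with h | h <;> linarith [h1.1, h1.2, h.1]
    exact_mod_cast h2
  simp only [φ]
  generalize a.valMinAbs = h at ha ⊢
  have p1 : 0 ≤ 7 * T1 / N0 := by positivity
  have p2 : 0 ≤ 4 * (1 + 7 * wn π.k π.κ t) / (π.κ * T1) := by positivity
  split_ifs with hh
  · have h1 : ‖∑ n ∈ S, f n * gch π.k q γ χ n / n * e (-(h / N0 * π.lg n)) -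
        tw f (gch π.k q γ χ) (h / (N0 * π.κ0)) S‖ ≤ 7 * (7 * T1 / N0) := by
      rw [tw, ← sum_sub_distrib]
      refine (norm_sum_le _ _).trans (le_trans (sum_le_sum (g := fun n : ℕ => 1 / (n : ℝ) *
        (7 * T1 / N0)) fun n hn => ?_) ?_)
      · rw [← mul_sub, norm_mul]
        refine mul_le_mul (hc χ n hn) ((norm_e_sub_le _ _).trans ?_) (norm_nonneg _)
          (by positivity)
        have h2 : -((h : ℝ) / N0 * π.lg n) - -(h / (N0 * π.κ0)) * Real.log n =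
            -(h / N0 * (π.lg n - Real.log n / π.κ0)) := by ring
        rw [h2, abs_neg, abs_mul, abs_div, abs_of_pos hN0, mul_div_assoc]
        refine mul_le_mul_of_nonneg_left ?_ (by norm_num)
        exact (mul_le_of_le_one_right (by positivity) (lg_near hπ.κ0 n)).trans
          (div_le_div_of_nonneg_right hh hN0.le)
      · rw [← sum_mul]
        exact mul_le_mul_of_nonneg_right h7 p1
    have h2 := norm_le_insert' (∑ n ∈ S, f n * gch π.k q γ χ n / n * e (-(h / N0 * π.lg n)))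
      (tw f (gch π.k q γ χ) (h / (N0 * π.κ0)) S)
    have h3 : π.κ⁻¹ * ‖Kf π N0 t h‖ ≤ 1 / 8 := by
      rw [inv_mul_le_iff₀ hκ]
      linarith [K_le hπ hN t h]
    have h4 := mul_le_mul_of_nonneg_right h3
      (norm_nonneg (∑ n ∈ S, f n * gch π.k q γ χ n / n * e (-(h / N0 * π.lg n))))
    have h5 := norm_nonneg (tw f (gch π.k q γ χ) (h / (N0 * π.κ0)) S)
    linarith
  · have h1 : ‖∑ n ∈ S, f n * gch π.k q γ χ n / n * e (-(h / N0 * π.lg n))‖ ≤ 7 := by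
      refine (norm_sum_le _ _).trans (le_trans (sum_le_sum fun n hn => ?_) h7)
      rw [norm_mul, norm_e, mul_one]
      exact hc χ n hn
    have h2 := K_far hπ hN t ha
    have h3 : T1 * ‖Kf π N0 t h‖ ≤ |(h : ℝ)| * ‖Kf π N0 t h‖ :=
      mul_le_mul_of_nonneg_right (not_le.1 hh).le (norm_nonneg _)
    have h4 : π.κ⁻¹ * ‖Kf π N0 t h‖ * 7 ≤ 4 * (1 + 7 * wn π.k π.κ t) / (π.κ * T1) := by
      rw [le_div_iff₀ (by positivity)]
      have : π.κ⁻¹ * ‖Kf π N0 t h‖ * 7 * (π.κ * T1) = 7 * (T1 * ‖Kf π N0 t h‖) := by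
        field_simp
      rw [this]
      linarith
    have h5 := mul_le_mul_of_nonneg_left h1
      (show 0 ≤ π.κ⁻¹ * ‖Kf π N0 t h‖ by positivity)
    linarith

end Pool.Agent.Lib.MP_028aa5_nt.T
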