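import Pool.Agent.Lib.MP_028aa5_nt.T.St4

/-! The components of a rational phase along the characters. -/

namespace Pool.Agent.Lib.MP_028aa5_nt.T

open Finset
open scoped ComplexConjugate Classical

namespace G0

variable {k q : ℕ} {γ : Ph}

lemma e_mod (h : EqZ k (fun j => q * γ j) 0) {m n : ℕ} (hmn : m ≡ n [MOD q]) :
    e (-ph k γ m) = e (-ph k γ n) := by
  have h1 : ∀ j ∈ Icc 1 k, ∃ z : ℤ, γ j * (n : ℝ) ^ j - γ j * (m : ℝ) ^ j = z := by
    intro j hj
    obtain ⟨z, hz⟩ := h j hj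
    obtain ⟨t, ht⟩ := (hmn.pow j).dvd
    have ht' : (n : ℝ) ^ j - (m : ℝ) ^ j = q * t := by exact_mod_cast ht
    simp only [Pi.zero_apply, zero_add] at hz
    refine ⟨z * t, ?_⟩
    push_cast
    rw [← mul_sub, ht', ← hz]
    ring
  choose! z hz using h1
  rw [← e_sub_int (-ph k γ m) (∑ j ∈ Icc 1 k, z j)]
  congr 1
  push_cast
  rw [← sum_congr rfl hz, sum_sub_distrib, ph, ph]
  ring

variable [NeZero q]

/-- the phase on the residue classes -/
noncomputable def E (k : ℕ) (γ : Ph) (x : ZMod q) : ℂ := e (-ph k γ x.val)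

/-- the component on the residue classes -/
noncomputable def Gf (k : ℕ) (γ : Ph) (χ : DirichletCharacter ℂ q) (x : ZMod q) : ℂ :=
  (q.totient : ℂ)⁻¹ * ∑ a : (ZMod q)ˣ, conj (χ a) * E k γ (a * x : ZMod q)

lemma E_cast (h : EqZ k (fun j => q * γ j) 0) (n : ℕ) : E k γ (n : ZMod q) = e (-ph k γ n) :=
  e_mod h (by rw [ZMod.val_natCast]; exact Nat.mod_modEq n q)

lemma gch_eq (h : EqZ k (fun j => q * γ j) 0) (χ : DirichletCharacter ℂ q) (n : ℕ) :
    gch k q γ χ n = Gf k γ χ n := by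
  unfold gch Gf
  congr 1
  refine sum_congr rfl fun a _ => ?_
  rw [← Nat.cast_mul, ← E_cast h, Nat.cast_mul, ZMod.natCast_zmod_val]

omit [NeZero q] in
lemma unit_conj (χ : DirichletCharacter ℂ q) (d : (ZMod q)ˣ) : χ d * conj (χ d) = 1 := by
  rw [Complex.mul_conj', χ.unit_norm_eq_one]
  simp

lemma Gf_mul (χ : DirichletCharacter ℂ q) (d : (ZMod q)ˣ) (x : ZMod q) :
    Gf k γ χ (d * x) = χ d * Gf k γ χ x := by
  unfold Gf
  rw [mul_left_comm]
  congr 1
  rw [← Equiv.sum_comp (Equiv.mulRight d)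
    fun a : (ZMod q)ˣ => conj (χ a) * E k γ (a * x : ZMod q), mul_sum]
  refine sum_congr rfl fun a _ => ?_
  simp only [Equiv.coe_mulRight, Units.val_mul, map_mul, mul_assoc]
  linear_combination (-(conj (χ a) * E k γ (a * (d * x) : ZMod q))) * unit_conj χ d

lemma sum_range_cast (F : ZMod q → ℂ) : ∑ m ∈ range q, F m = ∑ x, F x := by
  refine sum_nbij' (fun m : ℕ => (m : ZMod q)) ZMod.val (fun _ _ => mem_univ _)
    (fun x _ => mem_range.2 (ZMod.val_lt x)) (fun m hm => ?_) (fun x _ => ?_) fun _ _ => rfl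
  · exact ZMod.val_cast_of_lt (mem_range.1 hm)
  · exact ZMod.natCast_zmod_val x

lemma sum_unit (F : ZMod q → ℂ) (d : (ZMod q)ˣ) : ∑ x, F (d * x) = ∑ x, F x :=
  Equiv.sum_comp d.mulLeft F

lemma tot_ne : (q.totient : ℂ) ≠ 0 :=
  Nat.cast_ne_zero.2 (Nat.totient_pos.2 (NeZero.pos q)).ne'

lemma bd (χ : DirichletCharacter ℂ q) (n : ℕ) : ‖gch k q γ χ n‖ ≤ 1 := by
  have h0 : (0 : ℝ) < q.totient := by exact_mod_cast Nat.totient_pos.2 (NeZero.pos q)
  rw [gch, norm_mul, norm_inv, Complex.norm_natCast, inv_mul_le_iff₀ h0, mul_one]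
  refine (norm_sum_le _ _).trans (le_of_eq ?_)
  simp [ZMod.card_units_eq_totient]

lemma proj (χ : DirichletCharacter ℂ q) (b : (ZMod q)ˣ) :
    ∑ x, Gf k γ χ x * conj (Gf k γ χ x) =
      ∑ x, Gf k γ χ x * (χ b * conj (E k γ (b * x : ZMod q))) := by
  have h1 : ∀ a : (ZMod q)ˣ, ∑ x, Gf k γ χ x * (χ a * conj (E k γ (a * x : ZMod q))) =
      ∑ x, Gf k γ χ x * conj (E k γ x) := by
    intro a
    rw [← sum_unit (fun x => Gf k γ χ x * conj (E k γ x)) a]
    refine sum_congr rfl fun x _ => ?_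
    rw [Gf_mul]
    ring
  have h2 : ∀ x, Gf k γ χ x * conj (Gf k γ χ x) = (q.totient : ℂ)⁻¹ *
      ∑ a : (ZMod q)ˣ, Gf k γ χ x * (χ a * conj (E k γ (a * x : ZMod q))) := by
    intro x
    rw [← mul_sum, mul_left_comm]
    congr 1
    simp [Gf]
  simp only [h2]
  rw [← mul_sum, sum_comm]
  simp only [h1]
  rw [sum_const, card_univ, ZMod.card_units_eq_totient, nsmul_eq_mul,
    inv_mul_cancel_left₀ tot_ne]

lemma orth {χ χ' : DirichletCharacter ℂ q} (h : χ ≠ χ') :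
    ∑ x, Gf k γ χ x * conj (Gf k γ χ' x) = 0 := by
  obtain ⟨d, hd⟩ : ∃ d : (ZMod q)ˣ, χ d ≠ χ' d := by
    by_contra hn
    push Not at hn
    exact h (MulChar.ext hn)
  have h1 := sum_unit (fun x => Gf k γ χ x * conj (Gf k γ χ' x)) d
  have h2 : ∑ x, Gf k γ χ (d * x) * conj (Gf k γ χ' (d * x)) =
      χ d * conj (χ' d) * ∑ x, Gf k γ χ x * conj (Gf k γ χ' x) := by
    rw [mul_sum]
    refine sum_congr rfl fun x _ => ?_
    rw [Gf_mul, Gf_mul, map_mul]
    ring
  refine mul_left_cancel₀ (sub_ne_zero.2 hd) ?_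
  have h3 := unit_conj χ' d
  rw [h2] at h1
  generalize ∑ x, Gf k γ χ x * conj (Gf k γ χ' x) = S at *
  linear_combination χ' d * h1 - χ d * S * h3

end G0

open G0

theorem st_G0 : G0St where
  bd := fun _ _ _ _ χ n => bd χ n
  gf := fun k q _ γ h =>
    { per := fun χ n => by rw [gch_eq h, gch_eq h, Nat.cast_add, ZMod.natCast_self, add_zero]
      bd := bd
      mul := fun χ d n hd => by
        rw [gch_eq h, gch_eq h, Nat.cast_mul, ← ZMod.coe_unitOfCoprime d hd, Gf_mul]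
      orth := fun χ χ' hχ => by
        simp only [gch_eq h]
        rw [sum_range_cast fun x => Gf k γ χ x * conj (Gf k γ χ' x), orth hχ] }
  proj := fun k q _ γ χ b h hb => by
    push_cast
    simp only [← Complex.mul_conj', gch_eq h]
    rw [sum_range_cast fun x => Gf k γ χ x * conj (Gf k γ χ x),
      proj χ (ZMod.unitOfCoprime b hb), ← sum_range_cast]
    refine sum_congr rfl fun m _ => ?_
    rw [ZMod.coe_unitOfCoprime, ← Nat.cast_mul, E_cast h, conj_e, neg_neg, Nat.cast_mul]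

end Pool.Agent.Lib.MP_028aa5_nt.T
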