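import Pool.Agent.Lib.MP_028aa5_nt.T.St1

/-! From the integral of the supremum to sums over cells. -/

namespace Pool.Agent.Lib.MP_028aa5_nt.T

open Finset MeasureTheory
open scoped ComplexConjugate Classical

namespace A0a

lemma lio_le (n : ℕ) : ‖lio n‖ ≤ 1 := by
  unfold lio
  rcases eq_or_ne n 0 with rfl | hn
  · simp
  · simp [ArithmeticFunction.liouville_apply hn]

lemma sum_le {a : ℕ → ℂ} (ha : ∀ n, ‖a n‖ ≤ 1) {y y' : ℝ} (hy : 0 ≤ y) (h : y ≤ y') :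
    ‖∑ n ∈ Ioc ⌊y⌋₊ ⌊y'⌋₊, a n‖ ≤ y' - y + 1 := by
  refine (norm_sum_le _ _).trans ((sum_le_card_nsmul _ _ _ fun n _ => ha n).trans ?_)
  rw [Nat.card_Ioc, nsmul_eq_mul, mul_one, Nat.cast_sub (Nat.floor_le_floor h)]
  have h1 := Nat.floor_le (hy.trans h)
  have h2 := Nat.lt_floor_add_one y
  linarith

lemma term_le (t : ℝ) (n : ℕ) : ‖lio n * e t‖ ≤ 1 := by
  rw [norm_mul, norm_e, mul_one]
  exact lio_le n

lemma sup_le {k : ℕ} {H x B : ℝ} (h : ∀ Q : Polynomial ℝ, Q.natDegree ≤ k →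
    ‖∑ n ∈ Ioc ⌊x⌋₊ ⌊x + H⌋₊, lio n * e (Q.eval (n : ℝ))‖ ≤ B) : supS k H x ≤ B := by
  have : Nonempty {Q : Polynomial ℝ // Q.natDegree ≤ k} := ⟨⟨0, by simp⟩⟩
  exact ciSup_le fun Q => h Q.1 Q.2

lemma sup_nonneg (k : ℕ) (H x : ℝ) : 0 ≤ supS k H x := Real.iSup_nonneg fun _ => norm_nonneg _

lemma meas (k : ℕ) (H : ℝ) : Measurable (supS k H) := by
  obtain ⟨g, hg⟩ : ∃ g : ℕ × ℕ → ℝ, ∀ x, supS k H x = g (⌊x⌋₊, ⌊x + H⌋₊) :=
    ⟨fun j => ⨆ Q : {Q : Polynomial ℝ // Q.natDegree ≤ k},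
      ‖∑ n ∈ Ioc j.1 j.2, lio n * e (Q.1.eval (n : ℝ))‖, fun _ => rfl⟩
  rw [show supS k H = g ∘ fun x => (⌊x⌋₊, ⌊x + H⌋₊) from funext hg]
  exact (measurable_of_countable g).comp
    (Nat.measurable_floor.prodMk (Nat.measurable_floor.comp (measurable_add_const H)))

lemma tele (F : ℕ → ℂ) (G : ℕ) {u v : ℕ} (h : u ≤ v) :
    ∑ c ∈ Ico u v, (F (c + G) - F c) = ∑ i ∈ range G, (F (v + i) - F (u + i)) := by
  induction v, h using Nat.le_induction with
  | base => simp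
  | succ v hv ih =>
    have h1 := sum_range_sub (fun i => F (v + i)) G
    rw [sum_Ico_succ_top hv, ih]
    simp only [add_zero] at h1
    rw [← h1, ← sum_add_distrib]
    refine sum_congr rfl fun i _ => ?_
    rw [show v + 1 + i = v + (i + 1) by ring]
    ring

lemma exists_cell {p : ℕ → ℝ} (hp : Monotone p) {G : ℕ} {κ : ℝ} (hκ : 0 ≤ κ)
    (hG : ∀ c, p c * (1 + κ) = p (c + G)) {c0 c1 : ℕ} {y : ℝ} (h01 : c0 ≤ c1) (h0 : p c0 ≤ y)
    (h1 : y ≤ p c1) : ∃ u, c0 ≤ u ∧ u ≤ c1 ∧ (∀ c, c0 ≤ c → (y ≤ p c ↔ u ≤ c)) ∧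
      ∀ i < G, y ≤ p (u + i) ∧ p (u + i) ≤ y * (1 + κ) := by
  have hex : ∃ c, c0 ≤ c ∧ y ≤ p c := ⟨c1, h01, h1⟩
  obtain ⟨h2, h3⟩ := Nat.find_spec hex
  refine ⟨Nat.find hex, h2, Nat.find_min' hex ⟨h01, h1⟩, fun c hc =>
    ⟨fun h => Nat.find_min' hex ⟨hc, h⟩, fun h => h3.trans (hp h)⟩, fun i hi =>
    ⟨h3.trans (hp (Nat.le_add_right _ _)), ?_⟩⟩
  rcases h2.eq_or_lt with h4 | h4
  · rw [← h4]
    refine (hp (Nat.add_le_add_left hi.le _)).trans ?_
    rw [← hG]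
    gcongr
  · have h5 := Nat.find_min hex (m := Nat.find hex - 1) (by omega)
    have h6 : p (Nat.find hex - 1) ≤ y := by
      by_contra h7
      exact h5 ⟨by omega, (not_le.1 h7).le⟩
    refine (hp (show Nat.find hex + i ≤ Nat.find hex - 1 + G by omega)).trans ?_
    rw [← hG]
    gcongr

lemma point {p : ℕ → ℝ} (hp : Monotone p) {G : ℕ} {κ X H x : ℝ} (hκ : 0 ≤ κ)
    (hG : ∀ c, p c * (1 + κ) = p (c + G)) {c0 Nc : ℕ} (hX : 0 ≤ X) (hκX : 1 ≤ κ * X) (hH : 0 ≤ H)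
    (hHX : H ≤ X) (h0 : p c0 ≤ X) (h1 : 3 * X ≤ p (c0 + Nc)) (hx1 : X ≤ x) (hx2 : x ≤ 2 * X)
    {a : ℕ → ℂ} (ha : ∀ n, ‖a n‖ ≤ 1) {s : ℕ → ℝ}
    (hs : ∀ c ∈ Ico c0 (c0 + Nc), ‖∑ n ∈ Ioc ⌊p c⌋₊ ⌊p c * (1 + κ)⌋₊, a n‖ ≤ s c) :
    G * ‖∑ n ∈ Ioc ⌊x⌋₊ ⌊x + H⌋₊, a n‖ ≤ G * (7 * κ * X) +
      ∑ c ∈ Ico c0 (c0 + Nc), (Set.Ioc (p c - H) (p c)).indicator (fun _ => s c) x := by
  obtain ⟨A, hA⟩ : ∃ A : ℝ → ℂ, ∀ y y', y ≤ y' → ∑ n ∈ Ioc ⌊y⌋₊ ⌊y'⌋₊, a n = A y' - A y :=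
    ⟨fun y => ∑ n ∈ Ioc 0 ⌊y⌋₊, a n, fun y y' h =>
      eq_sub_of_add_eq' (sum_Ioc_consecutive a (Nat.zero_le _) (Nat.floor_le_floor h))⟩
  obtain ⟨u, hu1, -, hu3, hu4⟩ := exists_cell hp hκ hG (y := x) (Nat.le_add_right c0 Nc)
    (by linarith) (by linarith)
  obtain ⟨v, hv1, hv2, hv3, hv4⟩ := exists_cell hp hκ hG (y := x + H) (Nat.le_add_right c0 Nc)
    (by linarith) (by linarith)
  have huv : u ≤ v := (hu3 v hv1).1 (le_trans (by linarith) ((hv3 v hv1).2 le_rfl))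
  have hs0 : ∀ c ∈ Ico c0 (c0 + Nc), 0 ≤ s c := fun c hc => (norm_nonneg _).trans (hs c hc)
  have e1 : (G : ℂ) * (A (x + H) - A x) = ∑ c ∈ Ico u v, (A (p (c + G)) - A (p c)) +
      ∑ i ∈ range G, ((A (p (u + i)) - A x) - (A (p (v + i)) - A (x + H))) := by
    rw [tele (fun c => A (p c)) G huv, ← sum_add_distrib, ← nsmul_eq_mul, ← card_range G,
      ← sum_const, card_range]
    exact sum_congr rfl fun i _ => by ring
  have e2 : ‖∑ i ∈ range G, ((A (p (u + i)) - A x) - (A (p (v + i)) - A (x + H)))‖ ≤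
      G * (7 * κ * X) := by
    refine (norm_sum_le _ _).trans ((sum_le_card_nsmul _ _ (7 * κ * X) fun i hi => ?_).trans ?_)
    · obtain ⟨h2, h3⟩ := hu4 i (mem_range.1 hi)
      obtain ⟨h4, h5⟩ := hv4 i (mem_range.1 hi)
      rw [← hA _ _ h2, ← hA _ _ h4]
      have h6 := sum_le ha (by linarith) h2
      have h7 := sum_le ha (by linarith) h4
      have h8 : x * κ ≤ 2 * X * κ := by gcongr
      have h9 : (x + H) * κ ≤ 3 * X * κ := mul_le_mul_of_nonneg_right (by linarith) hκ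
      refine (norm_sub_le _ _).trans ?_
      linarith
    · rw [card_range, nsmul_eq_mul]
  have hsub : Ico u v ⊆ Ico c0 (c0 + Nc) := Ico_subset_Ico hu1 hv2
  have e3 : ‖∑ c ∈ Ico u v, (A (p (c + G)) - A (p c))‖ ≤
      ∑ c ∈ Ico c0 (c0 + Nc), (Set.Ioc (p c - H) (p c)).indicator (fun _ => s c) x := by
    refine (norm_sum_le _ _).trans (le_trans (sum_le_sum fun c hc => ?_)
      (sum_le_sum_of_subset_of_nonneg hsub fun c hc _ =>
        Set.indicator_nonneg (fun _ _ => hs0 c hc) _))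
    have h2 := mem_Ico.1 hc
    have h3 : x ≤ p c := (hu3 c (hu1.trans h2.1)).2 h2.1
    have h4 : p c < x + H := not_le.1 fun h => h2.2.not_ge ((hv3 c (hu1.trans h2.1)).1 h)
    rw [Set.indicator_of_mem (show x ∈ Set.Ioc (p c - H) (p c) from ⟨by linarith, h3⟩),
      ← hA _ _ (hp (Nat.le_add_right _ _)), ← hG]
    exact hs c (hsub hc)
  rw [hA _ _ (by linarith), ← Complex.norm_natCast G, ← norm_mul, e1, Complex.norm_natCast]
  refine (norm_add_le _ _).trans ?_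
  linarith

lemma poly {k : ℕ} {Q : Polynomial ℝ} (hQ : Q.natDegree ≤ k) (S : Finset ℕ) :
    ‖∑ n ∈ S, lio n * e (Q.eval (n : ℝ))‖ =
      ‖∑ n ∈ S, lio n * e (-ph k (fun j => -Q.coeff j) n)‖ := by
  have h1 : ∀ x : ℝ, Q.eval x = Q.coeff 0 + -ph k (fun j => -Q.coeff j) x := fun x => by
    rw [Polynomial.eval_eq_sum_range' (Nat.lt_succ_of_le hQ), ph, ← sum_neg_distrib,
      range_eq_Ico, sum_eq_sum_Ico_succ_bot (Nat.succ_pos k)]
    simp only [pow_zero, mul_one, neg_mul, neg_neg, zero_add]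
    rfl
  have h2 : ∑ n ∈ S, lio n * e (Q.eval (n : ℝ)) =
      e (Q.coeff 0) * ∑ n ∈ S, lio n * e (-ph k (fun j => -Q.coeff j) n) := by
    rw [mul_sum]
    refine sum_congr rfl fun n _ => ?_
    rw [h1, e_add]
    ring
  rw [h2, norm_mul, norm_e, one_mul]

lemma ind_int (a b s X Y : ℝ) :
    IntervalIntegrable ((Set.Ioc a b).indicator fun _ => s) volume X Y :=
  ((integrable_indicator_iff measurableSet_Ioc).2 (integrableOn_const (by simp))).intervalIntegrable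

lemma ind_le {b H s X Y : ℝ} (hH : 0 ≤ H) (hs : 0 ≤ s) (h : X ≤ Y) :
    ∫ x in X..Y, (Set.Ioc (b - H) b).indicator (fun _ => s) x ≤ H * s := by
  rw [intervalIntegral.integral_of_le h]
  refine (setIntegral_le_integral ((integrable_indicator_iff measurableSet_Ioc).2
    (integrableOn_const (by simp))) (.of_forall fun x => Set.indicator_nonneg (fun _ _ => hs) x)).trans
    (le_of_eq ?_)
  rw [integral_indicator_const _ measurableSet_Ioc, Real.volume_real_Ioc_of_le (by linarith)]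
  simp

end A0a

open A0a in
theorem st_Meas : MeasSt := by
  intro k H X hH hX
  rw [intervalIntegrable_iff_integrableOn_Ioc_of_le (by linarith)]
  refine Measure.integrableOn_of_bounded (M := H + 1) (by simp) (meas k H).aestronglyMeasurable ?_
  filter_upwards [ae_restrict_mem measurableSet_Ioc] with x hx
  rw [Real.norm_of_nonneg (sup_nonneg k H x)]
  refine sup_le fun Q _ => ?_
  have := sum_le (a := fun n => lio n * e (Q.eval (n : ℝ))) (fun n => term_le _ n)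
    (hX.trans hx.1.le) (le_add_of_nonneg_right hH)
  linarith

open A0a in
theorem st_A0a (hM : MeasSt) : A0aSt := by
  intro π X H c0 Nc s hκ0 hNf hG hκ1 hκX hH hHX h0 h1 hs
  have hk1 : 0 ≤ π.κ1 := by unfold Par.κ1; positivity
  have hκ : 0 ≤ π.κ := sub_nonneg.2 (Real.one_le_exp (by positivity))
  have hX : 0 ≤ X := hH.trans hHX
  have hG0 : (0 : ℝ) < π.G := by exact_mod_cast hG
  have hp : Monotone π.ps := fun c c' h => Real.exp_le_exp.2 (by gcongr)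
  have hpG : ∀ c, π.ps c * (1 + π.κ) = π.ps (c + π.G) := fun c => by
    simp only [Par.ps, Par.κ, add_sub_cancel, ← Real.exp_add]
    congr 1
    push_cast
    ring
  have hs0 : ∀ c ∈ Ico c0 (c0 + Nc), 0 ≤ s c := fun c hc => (norm_nonneg _).trans (hs c hc 0)
  have hI : IntervalIntegrable (fun x => ∑ c ∈ Ico c0 (c0 + Nc),
      (Set.Ioc (π.ps c - H) (π.ps c)).indicator (fun _ => s c) x) volume X (2 * X) := by
    have := IntervalIntegrable.sum (Ico c0 (c0 + Nc)) fun c _ =>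
      ind_int (π.ps c - H) (π.ps c) (s c) X (2 * X)
    rwa [Finset.sum_fn] at this
  have h2 : ∫ x in X..2 * X, supS π.k H x ≤ ∫ x in X..2 * X, (7 * π.κ * X + (π.G : ℝ)⁻¹ *
      ∑ c ∈ Ico c0 (c0 + Nc), (Set.Ioc (π.ps c - H) (π.ps c)).indicator (fun _ => s c) x) := by
    refine intervalIntegral.integral_mono_on (by linarith) (hM _ _ _ hH hX)
      (intervalIntegrable_const.add (hI.const_mul _)) fun x hx => sup_le fun Q hQ => ?_
    rw [poly hQ]
    have h3 := point hp hκ hpG hX hκX hH hHX h0 h1 hx.1 hx.2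
      (a := fun n => lio n * e (-ph π.k (fun j => -Q.coeff j) n)) (fun n => term_le _ n)
      fun c hc => hs c hc _
    refine le_of_mul_le_mul_left (h3.trans (le_of_eq ?_)) hG0
    rw [mul_add, mul_inv_cancel_left₀ hG0.ne']
  refine h2.trans ?_
  rw [intervalIntegral.integral_add intervalIntegrable_const (hI.const_mul _),
    intervalIntegral.integral_const, intervalIntegral.integral_const_mul,
    intervalIntegral.integral_finsetSum fun c _ => ind_int _ _ _ _ _, smul_eq_mul]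
  refine add_le_add ?_ ?_
  · have : 0 ≤ π.κ * X * X := by positivity
    linarith
  · rw [div_eq_inv_mul, mul_assoc, mul_sum _ _ H]
    exact mul_le_mul_of_nonneg_left (sum_le_sum fun c hc => ind_le hH (hs0 c hc) (by linarith))
      (by positivity)

end Pool.Agent.Lib.MP_028aa5_nt.T
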