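import Pool.Agent.Lib.MP_028aa5_nt.T.St2

/-! Basic facts on the parameters and on the graphs. -/

namespace Pool.Agent.Lib.MP_028aa5_nt.T

open Finset
open scoped ComplexConjugate Classical

namespace Bas

variable {π : Par}

theorem nf (h : π.Ok) : (1 : ℝ) ≤ π.Nf := by exact_mod_cast h.Nf

theorem κ0_le (h : π.Ok) : π.κ0 ≤ π.κ1 := le_mul_of_one_le_left h.κ0.le (nf h)

theorem κ1_pos (h : π.Ok) : 0 < π.κ1 := h.κ0.trans_le (κ0_le h)

theorem κ_ge : π.G * π.κ1 ≤ π.κ := by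
  have := Real.add_one_le_exp (π.G * π.κ1)
  rw [Par.κ]
  linarith

theorem pp (h : π.Ok) : (0 : ℝ) < #π.PP := by exact_mod_cast h.ne.card_pos

theorem lg (h : π.Ok) (n : ℕ) :
    Real.log n ≤ π.lg n * π.κ0 ∧ π.lg n * π.κ0 < Real.log n + π.κ0 := by
  have h0 : 0 ≤ Real.log n / π.κ0 := div_nonneg (Real.log_natCast_nonneg n) h.κ0.le
  refine ⟨(div_le_iff₀ h.κ0).1 (Nat.le_ceil _), ?_⟩
  have := mul_lt_mul_of_pos_right (Nat.ceil_lt_add_one h0) h.κ0
  rwa [add_mul, div_mul_cancel₀ _ h.κ0.ne', one_mul] at this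

theorem cnt {ι : Type} (h : π.Ok) (S : Finset ι) (g : ι → ℕ) (c : ℕ) (h1 : ∀ e ∈ S, g e / π.Nf = c)
    (h2 : Set.InjOn g S) : #S ≤ π.Nf := by
  have := card_le_card_of_injOn (t := Ico (c * π.Nf) (c * π.Nf + π.Nf)) g (fun e he =>
    mem_coe.2 (mem_Ico.2 ⟨(Nat.le_div_iff_mul_le h.Nf).1 (h1 e he).ge, by
      rw [← add_one_mul]
      exact (Nat.div_lt_iff_lt_mul h.Nf).1 (by rw [h1 e he]; omega)⟩)) h2
  rwa [Nat.card_Ico, Nat.add_sub_cancel_left] at this

theorem cntU {N : Net} {E : Finset N.Ed} (h : π.Ok) (hI : N.Is π E) (x : N.W) (p : ℕ) :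
    #{e ∈ E | N.pr e = p ∧ N.up e = x} ≤ π.Nf := by
  refine cnt h _ N.fj (N.cell x) (fun e he => ?_) fun e he e' he' hj => ?_
  · obtain ⟨h1, -, h3⟩ := mem_filter.1 he
    rw [hI.cu e h1, h3]
  · obtain ⟨h1, h2, h3⟩ := mem_filter.1 (mem_coe.1 he)
    obtain ⟨h4, h5, h6⟩ := mem_filter.1 (mem_coe.1 he')
    exact hI.iu e h1 e' h4 hj (h2.trans h5.symm) (h3.trans h6.symm)

theorem cntL {N : Net} {E : Finset N.Ed} (h : π.Ok) (hI : N.Is π E) (x : N.W) (p : ℕ) :
    #{e ∈ E | N.pr e = p ∧ N.lo e = x} ≤ π.Nf := by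
  refine cnt h _ (fun e => N.fj e - π.lg (N.pr e)) (N.cell x) (fun e he => ?_)
    fun e he e' he' hj => ?_
  · obtain ⟨h1, -, h3⟩ := mem_filter.1 he
    rw [hI.cl e h1, h3]
  · obtain ⟨h1, h2, h3⟩ := mem_filter.1 (mem_coe.1 he)
    obtain ⟨h4, h5, h6⟩ := mem_filter.1 (mem_coe.1 he')
    have h7 := hI.le e h1
    have h8 := hI.le e' h4
    simp only [h2, h5] at hj h7 h8
    exact hI.il e h1 e' h4 (by omega) (h2.trans h5.symm) (h3.trans h6.symm)

theorem sum_le {N : Net} {E : Finset N.Ed} (h : π.Ok) (en : N.Ed → N.W) (b : Bool)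
    (h1 : ∀ e ∈ E, N.isU (en e) = b) (h2 : ∀ x p, #{e ∈ E | N.pr e = p ∧ en e = x} ≤ π.Nf)
    (S : Finset ℕ) (g : N.W → ℝ) (hg : ∀ x, 0 ≤ g x) :
    π.ν * ∑ e ∈ E with N.pr e ∈ S, g (en e) ≤ #S / #π.PP * ∑ x with N.isU x = b, g x := by
  have e1 : ∑ e ∈ E with N.pr e ∈ S, g (en e) ≤ #S * π.Nf * ∑ x with N.isU x = b, g x := by
    rw [← sum_fiberwise_of_maps_to (t := {x | N.isU x = b}) (g := en)
      fun e he => mem_filter.2 ⟨mem_univ _, h1 e (mem_filter.1 he).1⟩, mul_sum]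
    refine sum_le_sum fun x _ => ?_
    rw [sum_congr rfl fun e he => congrArg g (mem_filter.1 he).2, sum_const, nsmul_eq_mul]
    refine mul_le_mul_of_nonneg_right ?_ (hg x)
    rw [← Nat.cast_mul, Nat.cast_le, mul_comm]
    refine card_le_mul_card_image_of_maps_to (f := N.pr)
      (fun e he => (mem_filter.1 (mem_filter.1 he).1).2) _ fun p _ =>
        le_trans (card_le_card fun e he => ?_) (h2 x p)
    simp only [mem_filter] at he ⊢
    exact ⟨he.1.1.1, he.2, he.1.2⟩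
  have e2 := nf h
  have e3 := pp h
  refine (mul_le_mul_of_nonneg_left e1 (by rw [Par.ν]; positivity)).trans (le_of_eq ?_)
  rw [Par.ν]
  field_simp

theorem fib {ι W : Type} [Fintype W] (E : Finset ι) (g : ι → W) (H : ι → W → ℝ) :
    ∑ x, ∑ e ∈ E with g e = x, H e x = ∑ e ∈ E, H e (g e) := by
  rw [← sum_fiberwise E g fun e => H e (g e)]
  exact sum_congr rfl fun x _ => sum_congr rfl fun e he => by rw [(mem_filter.1 he).2]

theorem log_ps (c : ℕ) : Real.log (π.ps c) = c * π.κ1 := Real.log_exp _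

theorem log_yy (j : ℕ) : Real.log (π.yy j) = j * π.κ0 := Real.log_exp _

theorem cell (h : π.Ok) (j : ℕ) : ((j / π.Nf : ℕ) : ℝ) * π.κ1 ≤ j * π.κ0 ∧
    j * π.κ0 + π.κ0 ≤ ((j / π.Nf : ℕ) : ℝ) * π.κ1 + π.κ1 := by
  have h1 : ((j / π.Nf : ℕ) : ℝ) * π.Nf ≤ j := by exact_mod_cast Nat.div_mul_le_self j π.Nf
  have h2 : (j : ℝ) + 1 ≤ ((j / π.Nf : ℕ) : ℝ) * π.Nf + π.Nf := by
    exact_mod_cast Nat.lt_div_mul_add (a := j) h.Nf
  have h3 := mul_le_mul_of_nonneg_right h1 h.κ0.le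
  have h4 := mul_le_mul_of_nonneg_right h2 h.κ0.le
  rw [Par.κ1]
  constructor <;> linarith

theorem fine (h : π.Ok) (j : ℕ) :
    |Real.log (π.yy j) - Real.log (π.ps (j / π.Nf))| ≤ π.κ1 := by
  obtain ⟨h1, h2⟩ := cell h j
  have := h.κ0
  rw [log_yy, log_ps, abs_le]
  constructor <;> linarith

theorem near {N : Net} {E : Finset N.Ed} (s l : ℝ) (h : π.Ok) (hI : N.Is π E) (hl : 0 ≤ l) :
    (#{x | |Real.log (N.pos π x) - s| ≤ l * π.κ1} : ℝ) ≤ 2 * π.M * (2 * l + 1) := by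
  set A : Finset N.W := {x | |Real.log (N.pos π x) - s| ≤ l * π.κ1} with hA
  have h1 : #A ≤ 2 * π.M * #(A.image N.cell) := by
    refine card_le_mul_card_image _ _ fun c _ => ?_
    have e : {x ∈ A | N.cell x = c} ⊆ (univ.filter fun x => N.isU x = true ∧ N.cell x = c) ∪
        (univ.filter fun x => N.isU x = false ∧ N.cell x = c) := by
      intro x hx
      simp only [mem_union, mem_filter, mem_univ, true_and, (mem_filter.1 hx).2, and_true]
      cases N.isU x <;> simp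
    have := (card_le_card e).trans (card_union_le _ _)
    have := hI.mu true c
    have := hI.mu false c
    omega
  have h2 : (#(A.image N.cell) : ℝ) ≤ 2 * l + 1 := by
    rcases (A.image N.cell).eq_empty_or_nonempty with e | e
    · rw [e, card_empty, Nat.cast_zero]
      linarith
    have e0 : ∀ c ∈ A.image N.cell, |c * π.κ1 - s| ≤ l * π.κ1 := fun c hc => by
      obtain ⟨x, hx, rfl⟩ := mem_image.1 hc
      rw [← log_ps]
      exact (mem_filter.1 hx).2
    have e1 := abs_le.1 (e0 _ (min'_mem _ e))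
    have e2 := abs_le.1 (e0 _ (max'_mem _ e))
    have e3 := card_le_card (s := A.image N.cell)
      (t := Icc ((A.image N.cell).min' e) ((A.image N.cell).max' e))
      fun c hc => mem_Icc.2 ⟨min'_le _ c hc, le_max' _ c hc⟩
    have e4 := min'_le _ _ (max'_mem _ e)
    rw [Nat.card_Icc] at e3
    generalize (A.image N.cell).min' e = a at *
    generalize (A.image N.cell).max' e = b at *
    have e5 : (#(A.image N.cell) : ℝ) + a ≤ b + 1 := by
      exact_mod_cast (by omega : #(A.image N.cell) + a ≤ b + 1)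
    have e6 : (b - a) * π.κ1 ≤ 2 * l * π.κ1 := by linarith [e1.1, e2.2]
    have e7 := le_of_mul_le_mul_right e6 (κ1_pos h)
    linarith
  calc (#A : ℝ) ≤ 2 * π.M * #(A.image N.cell) := by exact_mod_cast h1
    _ ≤ _ := mul_le_mul_of_nonneg_left h2 (by positivity)

end Bas

theorem st_Bas : BasSt where
  κ1_pos _ h := Bas.κ1_pos h
  κ0_le _ h := Bas.κ0_le h
  κ_ge _ _ := Bas.κ_ge
  κ1_le π h := le_trans (le_mul_of_one_le_left (Bas.κ1_pos h).le (by exact_mod_cast h.G)) Bas.κ_ge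
  ν_pos π h := by
    have := Bas.nf h
    have := Bas.pp h
    rw [Par.ν]
    positivity
  lg _ n h _ := Bas.lg h n
  mono _ _ _ _ h e :=
    { up := fun x hx => h.up x (e hx)
      lo := fun x hx => h.lo x (e hx)
      pr := fun x hx => h.pr x (e hx)
      cu := fun x hx => h.cu x (e hx)
      le := fun x hx => h.le x (e hx)
      cl := fun x hx => h.cl x (e hx)
      iu := fun x hx y hy => h.iu x (e hx) y (e hy)
      il := fun x hx y hy => h.il x (e hx) y (e hy)
      mu := h.mu }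
  cntU _ _ _ h hI := Bas.cntU h hI
  cntL _ _ _ h hI := Bas.cntL h hI
  sumU _ N _ S g h hI hg := Bas.sum_le h N.up true hI.up (Bas.cntU h hI) S g hg
  sumL _ N _ S g h hI hg := Bas.sum_le h N.lo false hI.lo (Bas.cntL h hI) S g hg
  Qf_le π N E u h hI := by
    have h1 := Bas.sum_le h N.up true hI.up (Bas.cntU h hI) π.PP (fun x => u x ^ 2)
      fun _ => sq_nonneg _
    have h2 := Bas.sum_le h N.lo false hI.lo (Bas.cntL h hI) π.PP (fun x => u x ^ 2)
      fun _ => sq_nonneg _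
    rw [filter_true_of_mem hI.pr, div_self (Bas.pp h).ne', one_mul] at h1 h2
    have h3 := sum_filter_add_sum_filter_not univ (fun x => N.isU x = true) fun x => u x ^ 2
    simp only [Bool.not_eq_true] at h3
    have h4 : 2 * ∑ e ∈ E, u (N.up e) * u (N.lo e) ≤
        ∑ e ∈ E, u (N.up e) ^ 2 + ∑ e ∈ E, u (N.lo e) ^ 2 := by
      rw [mul_sum, ← sum_add_distrib]
      exact sum_le_sum fun e _ => by nlinarith [sq_nonneg (u (N.up e) - u (N.lo e))]
    have h5 : 0 ≤ π.ν := by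
      rw [Par.ν]
      positivity
    have h6 := mul_le_mul_of_nonneg_left h4 h5
    rw [Net.Qf]
    linarith
  sym N ν E u v := by
    rw [sum_add_distrib, ← Bas.fib E N.lo fun e x => u x * v (N.up e),
      ← Bas.fib E N.up fun e x => u x * v (N.lo e), ← sum_add_distrib, mul_sum]
    refine sum_congr rfl fun x _ => ?_
    rw [Net.opB, ← mul_sum, ← mul_sum]
    ring
  symC N D _ ν E T F F' := by
    have h1 : ∀ e, ∑ d, F (N.lo e) (T e d) * F' (N.up e) d =
        ∑ d, F (N.lo e) d * F' (N.up e) ((T e).symm d) := fun e =>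
      Fintype.sum_equiv (T e) _ _ fun d => by rw [Equiv.symm_apply_apply]
    simp only [sum_add_distrib, h1]
    rw [← Bas.fib E N.lo fun e x => ∑ d, F x d * F' (N.up e) ((T e).symm d),
      ← Bas.fib E N.up fun e x => ∑ d, F x d * F' (N.lo e) (T e d), ← sum_add_distrib, mul_sum]
    refine sum_congr rfl fun x _ => ?_
    rw [sum_comm, sum_comm (s := {e ∈ E | N.up e = x}), ← sum_add_distrib, mul_sum]
    refine sum_congr rfl fun d _ => ?_
    rw [Net.opC, ← mul_sum, ← mul_sum]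
    ring
  proj N D _ ν E T F x := by
    simp only [Net.opC, Net.opB]
    rw [← mul_sum, sum_add_distrib, sum_comm, sum_comm (t := {e ∈ E | N.up e = x})]
    congr 2
    · exact sum_congr rfl fun e _ => Equiv.sum_comp (T e).symm (F (N.up e))
    · exact sum_congr rfl fun e _ => Equiv.sum_comp (T e) (F (N.lo e))
  pos_pos _ _ _ := Real.exp_pos _
  pos_edge π N E h hI e he := by
    have h0 : (0 : ℝ) < N.pr e := by exact_mod_cast (h.pr _ (hI.pr e he)).1.pos
    obtain ⟨h1, h2⟩ := Bas.cell h (N.fj e)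
    obtain ⟨h3, h4⟩ := Bas.cell h (N.fj e - π.lg (N.pr e))
    obtain ⟨h5, h6⟩ := Bas.lg h (N.pr e)
    rw [hI.cu e he] at h1 h2
    rw [hI.cl e he, Nat.cast_sub (hI.le e he)] at h3 h4
    have h7 := Bas.κ0_le h
    have h8 := h.κ0
    rw [Net.pos, Net.pos, Real.log_div (x := π.ps _) (Real.exp_pos _).ne' h0.ne', Bas.log_ps,
      Bas.log_ps, abs_le]
    constructor <;> linarith
  fine_up π N E h hI e he := by
    rw [Net.pos, ← hI.cu e he]
    exact Bas.fine h _
  fine _ j h := Bas.fine h j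
  fine_lo π j p h hp hj := by
    have h0 : (0 : ℝ) < p := by exact_mod_cast hp
    obtain ⟨h5, h6⟩ := Bas.lg h p
    rw [Real.log_div (x := π.yy _) (Real.exp_pos _).ne' h0.ne', Bas.log_yy, Bas.log_yy,
      Nat.cast_sub hj, abs_le]
    constructor <;> linarith
  near _ _ _ s l h hI hl := Bas.near s l h hI hl

end Pool.Agent.Lib.MP_028aa5_nt.T
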