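import Pool.Agent.Lib.MP_028aa5_nt.T.St2

/-! Choice of one label; preparation of the weights and of the denominators. -/

namespace Pool.Agent.Lib.MP_028aa5_nt.T

open Finset
open scoped ComplexConjugate Classical

theorem st_Lab : LabSt := by
  intro V Ed Λ A E s t u lab c lam h1 h2 h3
  by_contra hc
  push Not at hc
  have e1 := sum_fiberwise_of_maps_to (s := A) (t := A.image lab) (g := lab)
    (fun v hv => mem_image_of_mem lab hv) fun v => u v ^ 2
  have e2 := sum_fiberwise_of_maps_to (s := E) (t := A.image lab) (g := fun e => lab (s e))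
    (fun e he => mem_image_of_mem lab (h1 e he).1) fun e => u (s e) * u (t e)
  rw [← e1, ← e2, mul_sum, mul_sum] at h3
  rw [← e1] at h2
  obtain ⟨l, hl, h0⟩ := exists_ne_zero_of_sum_ne_zero h2.ne'
  refine absurd (sum_lt_sum (fun l _ => ?_) ⟨l, hl, hc l
    (lt_of_le_of_ne (sum_nonneg fun _ _ => sq_nonneg _) h0.symm)⟩) (not_lt.2 h3)
  rcases (sum_nonneg fun v (_ : v ∈ {v ∈ A | lab v = l}) => sq_nonneg (u v)).lt_or_eq with e | e
  · exact (hc l e).le
  · rw [← e, sum_eq_zero, mul_zero, mul_zero]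
    intro x hx
    rw [pow_eq_zero_iff (two_ne_zero) |>.1 ((sum_eq_zero_iff_of_nonneg fun _ _ => sq_nonneg _).1
      e.symm (s x) (mem_filter.2 ⟨(h1 x (mem_filter.1 hx).1).1, (mem_filter.1 hx).2⟩)), zero_mul]

theorem st_Blk0 (hB : BasSt) (hD : DenSt) : Blk0St := by
  intro π N E γ τ Q Tm ρ lam ω ok hI hdec ⟨u0, h0, h1⟩ hlam hQ hω
  have hν := hB.ν_pos π ok
  have hP : (0 : ℝ) < #π.PP := by exact_mod_cast ok.ne.card_pos
  have hNf : (0 : ℝ) < π.Nf := by exact_mod_cast ok.Nf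
  have hd : ∀ x, ∃ q : ℕ, ∀ e ∈ E, x = N.up e ∨ x = N.lo e → q ≤ Q ∧ Den π.k q (γ x) := by
    intro x
    by_cases h : ∃ e ∈ E, x = N.up e ∨ x = N.lo e
    · obtain ⟨e, he, h⟩ := h
      obtain ⟨q, q1, q2, q3⟩ := hdec.den e he x h
      obtain ⟨q', q4, q5⟩ := hD.ex _ q _ q1 q3
      exact ⟨q', fun _ _ _ => ⟨le_trans (by exact_mod_cast q4) q2, q5⟩⟩
    · exact ⟨1, fun e he h' => absurd ⟨e, he, h'⟩ h⟩
  choose den hden using hd
  obtain ⟨u, hu⟩ : ∃ u : N.W → ℝ,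
      u = fun x => if ∃ e ∈ E, x = N.up e ∨ x = N.lo e then |u0 x| else 0 := ⟨_, rfl⟩
  have u1 : ∀ x, 0 ≤ u x := fun x => by
    rw [hu]
    dsimp only
    split_ifs
    exacts [abs_nonneg _, le_rfl]
  have u2 : ∑ x, u x ^ 2 ≤ ∑ x, u0 x ^ 2 := sum_le_sum fun x _ => by
    rw [hu]
    dsimp only
    split_ifs
    exacts [(sq_abs _).le, by simpa using sq_nonneg _]
  have u3 : N.Qf π.ν E u0 ≤ N.Qf π.ν E u := by
    refine mul_le_mul_of_nonneg_left (sum_le_sum fun e he => ?_) (by positivity)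
    rw [hu]
    dsimp only
    rw [if_pos ⟨e, he, Or.inl rfl⟩, if_pos ⟨e, he, Or.inr rfl⟩, ← abs_mul]
    exact le_abs_self _
  have u4 := hB.Qf_le π N E u ok hI
  have u5 : 0 ≤ ∑ x, u x ^ 2 := sum_nonneg fun _ _ => sq_nonneg _
  set E1 := {e ∈ E | ¬Nat.Coprime (N.pr e) (den (N.up e))} with hE1
  have c1 : ∀ x, (#{e ∈ E1 | N.up e = x} : ℝ) ≤ π.Nf * ω := by
    intro x
    rcases ({e ∈ E1 | N.up e = x}).eq_empty_or_nonempty with h | ⟨e0, h⟩
    · rw [h, card_empty, Nat.cast_zero]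
      positivity
    obtain ⟨d1, d2⟩ := hden x e0 (mem_filter.1 (mem_filter.1 h).1).1
      (Or.inl (mem_filter.1 h).2.symm)
    have d3 := hD.primes (den x) π.P Q ω {p ∈ π.PP | p ∣ den x} d2.1 d1 (by linarith [ok.P]) hQ
      fun p hp => ⟨(ok.pr p (mem_filter.1 hp).1).1, (ok.pr p (mem_filter.1 hp).1).2.1,
        (mem_filter.1 hp).2⟩
    refine le_trans ?_ (mul_le_mul_of_nonneg_left d3 hNf.le)
    rw [← Nat.cast_mul, Nat.cast_le]
    refine card_le_mul_card_image_of_maps_to (f := N.pr) (fun e he => ?_) _ fun p _ =>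
      le_trans (card_le_card fun e he => ?_) (hB.cntU π N E ok hI x p)
    · obtain ⟨he1, rfl⟩ := mem_filter.1 he
      obtain ⟨he2, he3⟩ := mem_filter.1 he1
      exact mem_filter.2 ⟨hI.pr e he2, not_not.1 fun h' =>
        he3 ((ok.pr _ (hI.pr e he2)).1.coprime_iff_not_dvd.2 h')⟩
    · obtain ⟨he1, he2⟩ := mem_filter.1 he
      obtain ⟨he3, he4⟩ := mem_filter.1 he1
      exact mem_filter.2 ⟨(mem_filter.1 he3).1, he2, he4⟩
  have c2 : π.ν * ∑ e ∈ E1, u (N.up e) ^ 2 ≤ ω / #π.PP * ∑ x, u x ^ 2 := by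
    have e1 : ∑ e ∈ E1, u (N.up e) ^ 2 ≤ π.Nf * ω * ∑ x, u x ^ 2 := by
      rw [← sum_fiberwise E1 N.up, mul_sum]
      refine sum_le_sum fun x _ => ?_
      rw [sum_congr rfl fun e he => congrArg (fun y => u y ^ 2) (mem_filter.1 he).2, sum_const,
        nsmul_eq_mul]
      exact mul_le_mul_of_nonneg_right (c1 x) (sq_nonneg _)
    refine (mul_le_mul_of_nonneg_left e1 hν.le).trans (le_of_eq ?_)
    rw [Par.ν]
    field_simp
  have c3 : π.ν * ∑ e ∈ E1, u (N.lo e) ^ 2 ≤ ∑ x, u x ^ 2 := by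
    have e1 := hB.sumL π N E π.PP (fun x => u x ^ 2) ok hI fun _ => sq_nonneg _
    rw [filter_true_of_mem hI.pr, div_self hP.ne', one_mul] at e1
    exact ((mul_le_mul_of_nonneg_left (sum_le_sum_of_subset_of_nonneg (filter_subset _ _)
      fun _ _ _ => sq_nonneg _) hν.le).trans e1).trans
      (sum_le_sum_of_subset_of_nonneg (filter_subset _ _) fun _ _ _ => sq_nonneg _)
  have c4 : N.Qf π.ν E1 u ≤ 2 * √(ω / #π.PP) * ∑ x, u x ^ 2 := by
    have d0 : 0 < √(ω / #π.PP) := Real.sqrt_pos.2 (by positivity)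
    rw [← Real.mul_self_sqrt (by positivity : 0 ≤ ω / #π.PP)] at c2
    generalize √(ω / #π.PP) = d at d0 c2 ⊢
    have e1 : d * (2 * ∑ e ∈ E1, u (N.up e) * u (N.lo e)) ≤
        ∑ e ∈ E1, u (N.up e) ^ 2 + d * d * ∑ e ∈ E1, u (N.lo e) ^ 2 := by
      rw [mul_sum, mul_sum, mul_sum, ← sum_add_distrib]
      exact sum_le_sum fun e _ => by nlinarith [sq_nonneg (u (N.up e) - d * u (N.lo e))]
    have e2 := mul_le_mul_of_nonneg_left e1 hν.le
    have e3 := mul_le_mul_of_nonneg_left c3 (mul_pos d0 d0).le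
    refine le_of_mul_le_mul_left ?_ d0
    rw [Net.Qf]
    linarith
  have c5 : N.Qf π.ν {e ∈ E | Nat.Coprime (N.pr e) (den (N.up e))} u + N.Qf π.ν E1 u =
      N.Qf π.ν E u := by
    rw [Net.Qf, Net.Qf, Net.Qf, ← mul_add, sum_filter_add_sum_filter_not]
  have c6 := mul_le_mul_of_nonneg_left u2 hlam.le
  refine ⟨u, den, {e ∈ E | Nat.Coprime (N.pr e) (den (N.up e))}, filter_subset _ _, u1,
    fun x hx => not_not.1 fun h => hx (by rw [hu]; exact if_neg h), ?_,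
    fun e he x h => hden x e he h, fun e he => (mem_filter.1 he).2, by linarith⟩
  linarith [mul_pos hlam h0]

end Pool.Agent.Lib.MP_028aa5_nt.T
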