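import Pool.Agent.Lib.MP_028aa5_nt.T.St2

/-! One label on the fine grid. -/

namespace Pool.Agent.Lib.MP_028aa5_nt.T

open Finset
open scoped ComplexConjugate Classical

namespace BlkAJ

lemma cnt_fib {Nf c J : ℕ} (h : 1 ≤ Nf) (hJ : (c + 1) * Nf ≤ J) :
    #{j ∈ range J | j / Nf = c} = Nf := by
  have : {j ∈ range J | j / Nf = c} = Ico (c * Nf) ((c + 1) * Nf) := by
    ext j
    rw [mem_filter, mem_range, mem_Ico, Nat.div_eq_iff h, add_mul, one_mul]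
    rw [add_mul, one_mul] at hJ
    omega
  rw [this, Nat.card_Ico, add_mul, one_mul, Nat.add_sub_cancel_left]

lemma one_cut {L : ℕ} (hL : 1 ≤ L) (n : ℤ) :
    #((range L).filter fun o : ℕ => (n + o) / (L : ℤ) ≠ (n + 1 + o) / (L : ℤ)) ≤ 1 := by
  have L0 : (0 : ℤ) < L := by exact_mod_cast hL
  have key : ∀ o : ℕ, (n + o) / (L : ℤ) ≠ (n + 1 + o) / (L : ℤ) → (L : ℤ) ∣ n + 1 + o := by
    intro o h
    by_contra hd
    apply h
    have h1 := Int.emod_nonneg (n + 1 + o) L0.ne'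
    have h2 := Int.emod_lt_of_pos (n + 1 + o) L0
    have h3 := Int.mul_ediv_add_emod (n + 1 + o) L
    have h4 : (n + 1 + o) % L ≠ 0 := fun h => hd (Int.dvd_of_emod_eq_zero h)
    rw [Int.ediv_eq_iff_of_pos L0]
    constructor <;> nlinarith [lt_of_le_of_ne h1 h4.symm]
  refine card_le_one.2 fun a ha b hb => ?_
  obtain ⟨a1, a2⟩ := mem_filter.1 ha
  obtain ⟨b1, b2⟩ := mem_filter.1 hb
  have h1 := (key a a2).sub (key b b2)
  rw [show n + 1 + a - (n + 1 + b) = (a : ℤ) - b by ring] at h1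
  rw [mem_range] at a1 b1
  have := Int.eq_zero_of_abs_lt_dvd h1 (by rw [abs_lt]; constructor <;> omega)
  omega

lemma one_cut' {L : ℕ} (hL : 1 ≤ L) {x y : ℝ} (h : |x - y| ≤ 1) :
    #((range L).filter fun o : ℕ => (⌊x⌋ + o) / (L : ℤ) ≠ (⌊y⌋ + o) / (L : ℤ)) ≤ 1 := by
  rw [abs_le] at h
  have h1 : ⌊x⌋ ≤ ⌊y⌋ + 1 := by
    rw [← Int.floor_add_one]
    exact Int.floor_le_floor (by linarith)
  have h2 : ⌊y⌋ ≤ ⌊x⌋ + 1 := by
    rw [← Int.floor_add_one]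
    exact Int.floor_le_floor (by linarith)
  rcases lt_trichotomy ⌊x⌋ ⌊y⌋ with h | h | h
  · rw [show ⌊y⌋ = ⌊x⌋ + 1 by omega]
    exact one_cut hL _
  · simp [h]
  · rw [show ⌊x⌋ = ⌊y⌋ + 1 by omega]
    simpa only [ne_comm] using one_cut hL ⌊y⌋

lemma box {L o : ℕ} (hL : 1 ≤ L) (x : ℝ) :
    |x - ((L : ℝ) * ((⌊x⌋ + o) / (L : ℤ) : ℤ) - o)| ≤ L := by
  have L0 : (0 : ℤ) < L := by exact_mod_cast hL
  have h1 := Int.emod_nonneg (⌊x⌋ + o) L0.ne'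
  have h2 := Int.emod_lt_of_pos (⌊x⌋ + o) L0
  have h3 := Int.mul_ediv_add_emod (⌊x⌋ + o) L
  have h4 : ((L : ℤ) * ((⌊x⌋ + o) / L) : ℤ) ≤ ⌊x⌋ + o := by omega
  have h5 : ⌊x⌋ + o + 1 ≤ ((L : ℤ) * ((⌊x⌋ + o) / L) : ℤ) + L := by omega
  have h6 : (L : ℝ) * ((⌊x⌋ + o) / (L : ℤ) : ℤ) ≤ ⌊x⌋ + o := by exact_mod_cast h4
  have h7 : (⌊x⌋ : ℝ) + o + 1 ≤ (L : ℝ) * ((⌊x⌋ + o) / (L : ℤ) : ℤ) + L := by exact_mod_cast h5
  rw [abs_le]
  constructor <;> linarith [Int.floor_le x, Int.lt_floor_add_one x]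

/-- the orbit of a rational phase under the units -/
def orb (k q : ℕ) (γ : Ph) : Set Ph := {β | ∃ a : ℕ, Nat.Coprime a q ∧ EqZ k β (dil a γ)}

lemma orb_eq (hD : DenSt) {k q p : ℕ} {γ γ' : Ph} (h : Den k q γ) (hp : Nat.Coprime p q)
    (h' : EqZ k γ' (dil p γ)) : orb k q γ = orb k q γ' := by
  ext β
  constructor
  · rintro ⟨a, ha, hb⟩
    have t0 : 0 < q.totient := Nat.totient_pos.2 h.1
    refine ⟨a * p ^ (q.totient - 1), Nat.Coprime.mul_left ha (hp.pow_left _),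
      hD.trans _ _ _ _ hb (hD.symm _ _ _ (hD.trans _ _ _ _ (hD.dil _ _ _ _ h') ?_))⟩
    rw [hD.dil_dil, ← Nat.cast_mul]
    refine hD.mod _ q _ _ _ h.2.1 ?_
    rw [mul_assoc, ← pow_succ, Nat.sub_add_cancel t0]
    simpa using (Nat.ModEq.pow_totient hp).mul_left a
  · rintro ⟨a, ha, hb⟩
    refine ⟨a * p, Nat.Coprime.mul_left ha hp, hD.trans _ _ _ _ hb ?_⟩
    rw [Nat.cast_mul, ← hD.dil_dil]
    exact hD.dil _ _ _ _ h'

lemma fine_sz (hN : NSt) (hN2 : N2St) (hB : BasSt) {π : Par} (ok : π.Ok) {j : ℕ} {α : Ph} {T : ℝ}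
    (h1 : 2 * π.κ1 ≤ 1) (h : nm π.k π.κ (π.ps (j / π.Nf)) α ≤ T) :
    nm π.k π.κ (π.yy j) α ≤ 5 ^ π.k * T := by
  have κ1 := hB.κ1_pos π ok
  have κ2 := hB.κ1_le π ok
  have κ0 : 0 < π.κ := κ1.trans_le κ2
  refine (hN2.shift _ _ _ _ _ α κ0 ok.κ (Real.exp_pos _) (Real.exp_pos _) (hB.fine π j ok)
    (by linarith)).trans ?_
  have := hN.nm_nonneg π.k π.κ (π.ps (j / π.Nf)) α κ0.le
  have h3 : 4 * π.κ1 / π.κ ≤ 4 := by
    rw [div_le_iff₀ κ0]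
    linarith
  exact mul_le_mul (pow_le_pow_left₀ (by positivity) (by linarith) _) h this (by positivity)

lemma edge_close (hN : NSt) (hN2 : N2St) (hB : BasSt) {π : Par} {N : Net} {E : Finset N.Ed}
    {γ τ : N.W → Ph} {Q Tm ρ : ℝ} (ok : π.Ok) (hE : N.Is π E) (ρ0 : 0 < ρ)
    (hd : Dec π Q Tm ρ N E γ τ) (h1 : 2 * π.κ1 ≤ 1)
    (h2 : ((1 + 4 * π.κ0 / π.κ) ^ π.k - 1) * (9 ^ π.k * Tm) ≤ ρ) {e : N.Ed} (he : e ∈ E) :
    wn π.k π.κ (tc π.k (π.yy (N.fj e - π.lg (N.pr e))) (τ (N.lo e)) -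
      tc π.k (π.yy (N.fj e)) (τ (N.up e))) ≤ 10 ^ π.k * ρ := by
  have κ0 : 0 < π.κ := (hB.κ1_pos π ok).trans_le (hB.κ1_le π ok)
  have p0 := (ok.pr _ (hE.pr e he)).1.pos
  have p1 : (0 : ℝ) < N.pr e := by exact_mod_cast p0
  have y0 : 0 < π.yy (N.fj e) := Real.exp_pos _
  have a1 := fine_sz hN hN2 hB ok (j := N.fj e - π.lg (N.pr e)) h1
    (T := ρ) (α := τ (N.lo e) - dil (N.pr e) (τ (N.up e))) (by rw [hE.cl e he]; exact hd.re e he)
  have a2 := fine_sz hN hN2 hB ok (j := N.fj e) h1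
    (T := Tm) (α := τ (N.up e)) (by rw [hE.cu e he]; exact hd.sz e he _ (Or.inl rfl))
  have T0 : 0 ≤ Tm := (hN.nm_nonneg _ _ _ _ κ0.le).trans (hd.sz e he _ (Or.inl rfl))
  have a3 := hN2.shift' π.k π.κ _ _ _ (dil (N.pr e) (τ (N.up e))) κ0 ok.κ (div_pos y0 p1)
    (show 0 < π.yy (N.fj e - π.lg (N.pr e)) from Real.exp_pos _) (hB.fine_lo π _ _ ok p0 (hE.le e he)) (by linarith [hB.κ0_le π ok])
  rw [hN.nm_dil, hN.tc_dil _ _ (_ / _), mul_div_cancel₀ _ p1.ne'] at a3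
  have a4 : 0 ≤ (1 + 4 * π.κ0 / π.κ) ^ π.k - 1 := by
    have := ok.κ0
    exact sub_nonneg.2 (one_le_pow₀ (le_add_of_nonneg_right (by positivity)))
  have a5 : (5 : ℝ) ^ π.k * Tm ≤ 9 ^ π.k * Tm := by gcongr; norm_num
  have a6 := hN.wn_add π.k π.κ _ _ κ0.le |>.trans
    (add_le_add a1 (a3.trans ((mul_le_mul_of_nonneg_left (a2.trans a5) a4).trans h2)))
  rw [hN.tc_sub, sub_add_sub_cancel] at a6
  refine a6.trans ?_
  have a7 : (5 : ℝ) ^ π.k + 1 ≤ 10 ^ π.k := by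
    have b1 : (1 : ℝ) ≤ 5 ^ π.k := one_le_pow₀ (by norm_num)
    have b2 : (2 : ℝ) ≤ 2 ^ π.k := le_self_pow₀ (by norm_num) (by have := ok.k1; omega)
    rw [show (10 : ℝ) = 2 * 5 by norm_num, mul_pow]
    nlinarith
  nlinarith

end BlkAJ

open BlkAJ

theorem st_BlkA (hN : NSt) (hN2 : N2St) (hB : BasSt) (hD : DenSt) (hL : LabSt) (h0 : Blk0St) :
    BlkASt := by
  intro π N E γ τ Q Tm ρ lam ω L ok hE ρ0 hd hR L1 h1 hQ ω0 hl h2
  have L0 : (0 : ℝ) < L := by exact_mod_cast L1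
  have kL : (0 : ℝ) ≤ π.k / L := by positivity
  obtain ⟨u, den, E0, e0, u0, u1, u2, hden, hcop, hq⟩ := h0 π N E γ τ Q Tm ρ lam ω ok hE hd hR
    (by linarith [Real.sqrt_nonneg (ω / #π.PP)]) hQ ω0
  have κ0 : 0 < π.κ := (hB.κ1_pos π ok).trans_le (hB.κ1_le π ok)
  have c0 : (0 : ℝ) < #π.PP := by exact_mod_cast ok.ne.card_pos
  have n0 : (0 : ℝ) < π.Nf := by exact_mod_cast ok.Nf
  have ν0 := hB.ν_pos π ok
  set ρ1 : ℝ := 10 ^ π.k * ρ with hρ1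
  have r0 : 0 < ρ1 := by positivity
  set J := (univ.sup N.cell + 1) * π.Nf with hJ
  have hJ' : ∀ x, (N.cell x + 1) * π.Nf ≤ J := fun x =>
    Nat.mul_le_mul_right _ (Nat.succ_le_succ (le_sup (mem_univ x)))
  set A : Finset (N.W × ℕ) := (univ ×ˢ range J).filter fun v => v.2 / π.Nf = N.cell v.1 ∧
    ∃ e ∈ E, v.1 = N.up e ∨ v.1 = N.lo e with hA
  have memA : ∀ x j, j / π.Nf = N.cell x → (∃ e ∈ E, x = N.up e ∨ x = N.lo e) → (x, j) ∈ A :=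
    fun x j h h' => mem_filter.2 ⟨mem_product.2 ⟨mem_univ _, mem_range.2 (by
      have := hJ' x
      rw [Nat.div_eq_iff ok.Nf] at h
      rw [add_mul, one_mul] at this
      have := ok.Nf
      omega)⟩, h, h'⟩
  have sumA : ∑ v ∈ A, u v.1 ^ 2 = π.Nf * ∑ x, u x ^ 2 := by
    rw [hA, sum_filter, sum_product, mul_sum]
    refine sum_congr rfl fun x _ => ?_
    by_cases h : u x = 0
    · simp [h]
    simp only [u1 x h, and_true]
    rw [← sum_filter, sum_const, cnt_fib ok.Nf (hJ' x), nsmul_eq_mul]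
  set s : N.Ed → N.W × ℕ := fun e => (N.up e, N.fj e) with hs
  set t : N.Ed → N.W × ℕ := fun e => (N.lo e, N.fj e - π.lg (N.pr e)) with ht
  set c : N.W × ℕ → ℕ → ℝ := fun v i => π.κ ^ i * tc π.k (π.yy v.2) (τ v.1) i / ρ1 with hc
  set b : ℕ → N.W × ℕ → ℕ → ℤ := fun o v i =>
    if i ∈ Icc 1 π.k then (⌊c v i⌋ + o) / (L : ℤ) else 0 with hb
  have cut : ∀ e ∈ E, #{o ∈ range L | b o (s e) ≠ b o (t e)} ≤ π.k := fun e he => by
    have a1 := edge_close hN hN2 hB ok hE ρ0 hd h1 h2 he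
    calc _ ≤ #((Icc 1 π.k).biUnion fun i => (range L).filter fun o : ℕ =>
          (⌊c (s e) i⌋ + o) / (L : ℤ) ≠ (⌊c (t e) i⌋ + o) / (L : ℤ)) := by
          refine card_le_card fun o ho => ?_
          obtain ⟨o1, o2⟩ := mem_filter.1 ho
          obtain ⟨i, hi⟩ := Function.ne_iff.1 o2
          by_cases h : i ∈ Icc 1 π.k
          · simp only [hb, if_pos h] at hi
            exact mem_biUnion.2 ⟨i, h, mem_filter.2 ⟨o1, hi⟩⟩
          · exact absurd (by simp only [hb, if_neg h]) hi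
      _ ≤ ∑ _i ∈ Icc 1 π.k, 1 := card_biUnion_le.trans (sum_le_sum fun i hi => one_cut' L1 (by
          have a2 := (single_le_sum (fun j _ => mul_nonneg (pow_pos κ0 j).le (abs_nonneg _)) hi).trans a1
          simp only [hc, hs, ht]
          rw [← sub_div, ← mul_sub, abs_div, abs_mul, abs_of_pos r0, abs_of_pos (pow_pos κ0 i),
            div_le_one r0, abs_sub_comm]
          exact a2))
      _ = _ := by simp
  obtain ⟨o, -, ho⟩ : ∃ o ∈ range L, ∑ e ∈ E0 with b o (s e) ≠ b o (t e), u (N.up e) * u (N.lo e) ≤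
      π.k / L * ∑ e ∈ E0, u (N.up e) * u (N.lo e) := by
    refine exists_le_of_sum_le ⟨0, mem_range.2 L1⟩ ?_
    rw [sum_const, card_range, nsmul_eq_mul, ← mul_assoc, mul_div_cancel₀ _ L0.ne', mul_sum]
    simp only [sum_filter]
    rw [sum_comm]
    refine sum_le_sum fun e he => ?_
    rw [← sum_filter, sum_const, nsmul_eq_mul]
    exact mul_le_mul_of_nonneg_right (Nat.cast_le.2 (cut e (e0 he))) (mul_nonneg (u0 _) (u0 _))
  set E' := E0.filter fun e => ¬b o (s e) ≠ b o (t e) with hE'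
  set lab : N.W × ℕ → ℕ × Set Ph × (ℕ → ℤ) := fun v =>
    (den v.1, orb π.k (den v.1) (γ v.1), b o v) with hlab
  have hray : (lam - 2 * √(ω / #π.PP) - π.k / L) * ∑ v ∈ A, u v.1 ^ 2 ≤
      2 / #π.PP * ∑ e ∈ E', u (s e).1 * u (t e).1 := by
    have a1 := sum_filter_add_sum_filter_not E0 (fun e => b o (s e) ≠ b o (t e))
      fun e => u (N.up e) * u (N.lo e)
    have a2 := hB.Qf_le π N E0 u ok (hB.mono π N E E0 hE e0)
    unfold Net.Qf at hq a2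
    have a3 : (2 : ℝ) / #π.PP = π.Nf * (2 * π.ν) := by
      unfold Par.ν
      field_simp
    rw [sumA, a3, mul_left_comm, mul_assoc]
    refine mul_le_mul_of_nonneg_left ?_ n0.le
    change _ ≤ 2 * π.ν * ∑ e ∈ E', u (N.up e) * u (N.lo e)
    nlinarith [mul_le_mul_of_nonneg_left ho ν0.le, mul_le_mul_of_nonneg_left a2 kL]
  have hst : ∀ e ∈ E, s e ∈ A ∧ t e ∈ A := fun e he =>
    ⟨memA _ _ (hE.cu e he) ⟨e, he, Or.inl rfl⟩, memA _ _ (hE.cl e he) ⟨e, he, Or.inr rfl⟩⟩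
  have hlb : ∀ e ∈ E', lab (s e) = lab (t e) := fun e he => by
    obtain ⟨a1, a2⟩ := mem_filter.1 he
    have d1 := (hden e (e0 a1) _ (Or.inl rfl)).2
    have d2 := (hden e (e0 a1) _ (Or.inr rfl)).2
    have d3 : den (N.lo e) = den (N.up e) := hD.uniq _ _ _ _ d2
      (hD.congr _ _ _ _ (hD.symm _ _ _ (hd.rat e (e0 a1))) (hD.cop _ _ _ _ (hcop e a1) d1))
    simp only [hlab, hs, ht, d3, orb_eq hD d1 (hcop e a1) (hd.rat e (e0 a1))]
    rw [not_not.1 a2]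
  obtain ⟨l, l1, l2⟩ := hL _ _ _ A E' s t (fun v => u v.1) lab _ _
    (fun e he => ⟨(hst e (e0 (mem_filter.1 he).1)).1, (hst e (e0 (mem_filter.1 he).1)).2, hlb e he⟩)
    (by rw [sumA]; positivity) hray
  obtain ⟨v0, hv0, -⟩ := exists_ne_zero_of_sum_ne_zero l1.ne'
  obtain ⟨v1, rfl⟩ := (@mem_filter _ _ (_) _ _).1 hv0
  obtain ⟨-, v2, e1, he1, v3⟩ := mem_filter.1 v1
  set t0 : Ph := fun i => ρ1 * (L * b o v0 i - o) / π.κ ^ i with ht0
  have near : ∀ v, b o v = b o v0 → wn π.k π.κ (tc π.k (π.yy v.2) (τ v.1) - t0) ≤ π.k * L * ρ1 := by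
    intro v hv
    refine (sum_le_card_nsmul _ _ (L * ρ1) fun i hi => ?_).trans (by simp [mul_assoc])
    have a1 := box (o := o) L1 (c v i)
    have a2 : b o v0 i = (⌊c v i⌋ + o) / (L : ℤ) := by rw [← hv]; simp only [hb, if_pos hi]
    have a3 := pow_pos κ0 i
    rw [← a2] at a1
    rw [← abs_of_pos a3, ← abs_mul, show π.κ ^ i * (tc π.k (π.yy v.2) (τ v.1) - t0) i =
      (c v i - (L * b o v0 i - o)) * ρ1 by simp only [hc, ht0, Pi.sub_apply]; field_simp, abs_mul,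
      abs_of_pos r0]
    exact mul_le_mul_of_nonneg_right a1 r0.le
  refine ⟨den v0.1, γ v0.1, t0, u, A.filter fun v => lab v = lab v0,
    E'.filter fun e => lab (s e) = lab v0, fun e he => e0 (mem_filter.1 (mem_filter.1 he).1).1,
    (hden e1 he1 _ v3).1, (hden e1 he1 _ v3).2, ?_, u0, fun v hv => ?_, fun e he => ?_, ?_, ?_⟩
  · have a1 := fine_sz hN hN2 hB ok (j := v0.2) h1
      (T := Tm) (α := τ v0.1) (by rw [v2]; exact hd.sz e1 he1 _ v3)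
    have T0 : 0 ≤ Tm := (hN.nm_nonneg _ _ _ _ κ0.le).trans (hd.sz e1 he1 _ v3)
    have a5 : (5 : ℝ) ^ π.k * Tm ≤ 9 ^ π.k * Tm := by gcongr; norm_num
    have a2 := hN.wn_sub π.k π.κ (tc π.k (π.yy v0.2) (τ v0.1)) (tc π.k (π.yy v0.2) (τ v0.1) - t0) κ0.le
    rw [sub_sub_cancel] at a2
    exact a2.trans (add_le_add (a1.trans a5) (near v0 rfl))
  · obtain ⟨a1, a2⟩ := mem_filter.1 hv
    obtain ⟨-, a3, a4⟩ := mem_filter.1 a1
    simp only [hlab, Prod.mk.injEq] at a2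
    refine ⟨a3, a4, ?_, near v a2.2.2⟩
    have : γ v.1 ∈ orb π.k (den v.1) (γ v.1) :=
      ⟨1, Nat.coprime_one_left _, by rw [Nat.cast_one, hD.dil_one]; exact hD.refl _ _⟩
    rwa [a2.2.1] at this
  · obtain ⟨a1, a2⟩ := mem_filter.1 he
    have a3 := (mem_filter.1 a1).1
    refine ⟨mem_filter.2 ⟨(hst e (e0 a3)).1, a2⟩,
      mem_filter.2 ⟨(hst e (e0 a3)).2, (hlb e a1).symm.trans a2⟩, ?_⟩
    have : den (N.up e) = den v0.1 := congrArg Prod.fst a2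
    rw [← this]
    exact hcop e a3
  · convert l1
  · convert l2

end Pool.Agent.Lib.MP_028aa5_nt.T
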