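import Pool.Agent.Lib.MP_028aa5_nt.T.St2

/-! One component: weights on the group of units. -/

namespace Pool.Agent.Lib.MP_028aa5_nt.T

open Finset
open scoped ComplexConjugate Classical

namespace Block

lemma sum_inj {ι V : Type} (S : Finset ι) (T : Finset V) (f : ι → V) (g : V → ℝ)
    (h1 : ∀ x ∈ S, f x ∈ T) (h2 : ∀ x ∈ S, ∀ y ∈ S, f x = f y → x = y) (h3 : ∀ v, 0 ≤ g v) :
    ∑ x ∈ S, g (f x) ≤ ∑ v ∈ T, g v := by
  rw [← sum_image (s := S) (g := f) (f := g) h2]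
  exact sum_le_sum_of_subset_of_nonneg (image_subset_iff.2 h1) fun v _ _ => h3 v

variable {W A : Type} [Fintype A]

/-- the vertices of side `b` at the fine position `j` with label `a` -/
noncomputable def fib (V : Finset (W × ℕ)) (s : W → Bool) (R : W → A → Prop) (b : Bool) (j : ℕ)
    (a : A) : Finset (W × ℕ) := {v ∈ V | v.2 = j ∧ s v.1 = b ∧ R v.1 a}

/-- their weight -/
noncomputable def vv (V : Finset (W × ℕ)) (s : W → Bool) (R : W → A → Prop) (u : W → ℝ)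
    (b : Bool) (j : ℕ) (a : A) : ℝ := √(∑ v ∈ fib V s R b j a, u v.1 ^ 2)

omit [Fintype A] in
lemma mem_fib {V : Finset (W × ℕ)} {s : W → Bool} {R : W → A → Prop} {b : Bool} {j : ℕ} {a : A}
    {v : W × ℕ} : v ∈ fib V s R b j a ↔ v ∈ V ∧ v.2 = j ∧ s v.1 = b ∧ R v.1 a := by
  unfold fib
  exact mem_filter

omit [Fintype A] in
lemma vv_ne {V : Finset (W × ℕ)} {s : W → Bool} {R : W → A → Prop} {u : W → ℝ} {b : Bool} {j : ℕ}
    {a : A} (h : vv V s R u b j a ≠ 0) : ∃ v ∈ V, v.2 = j ∧ s v.1 = b ∧ R v.1 a := by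
  by_contra hc
  apply h
  have : fib V s R b j a = ∅ := eq_empty_of_forall_notMem fun v hv => hc ⟨v, mem_fib.1 hv⟩
  simp [vv, this]

omit [Fintype A] in
lemma vv_sq (V : Finset (W × ℕ)) (s : W → Bool) (R : W → A → Prop) (u : W → ℝ) (b : Bool) (j : ℕ)
    (a : A) : vv V s R u b j a ^ 2 =
      ∑ v ∈ V, if v.2 = j ∧ s v.1 = b ∧ R v.1 a then u v.1 ^ 2 else 0 := by
  rw [vv, Real.sq_sqrt (sum_nonneg fun v _ => sq_nonneg _), fib, sum_filter]

lemma sum_ind (R : A → Prop) (h : ℕ) (c : ℝ) (hR : #{a | R a} = h) :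
    ∑ a, (if R a then c else 0) = h * c := by
  rw [← sum_filter, sum_const, hR, nsmul_eq_mul]

lemma total (V : Finset (W × ℕ)) (s : W → Bool) (R : W → A → Prop) (u : W → ℝ) (Jm h : ℕ)
    (h1 : ∀ v ∈ V, v.2 < Jm) (h2 : ∀ v ∈ V, #{a | R v.1 a} = h) :
    ∑ j ∈ range Jm, ∑ a, (vv V s R u true j a ^ 2 + vv V s R u false j a ^ 2) =
      h * ∑ v ∈ V, u v.1 ^ 2 := by
  have e1 : ∀ j a, vv V s R u true j a ^ 2 + vv V s R u false j a ^ 2 =
      ∑ v ∈ V, if v.2 = j then (if R v.1 a then u v.1 ^ 2 else 0) else 0 := by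
    intro j a
    rw [vv_sq, vv_sq, ← sum_add_distrib]
    refine sum_congr rfl fun v _ => ?_
    by_cases c1 : v.2 = j <;> by_cases c2 : R v.1 a <;> cases s v.1 <;> simp [c1, c2]
  simp only [e1]
  rw [sum_comm, sum_congr rfl fun a _ => sum_comm, sum_comm, mul_sum]
  refine sum_congr rfl fun v hv => ?_
  rw [← sum_ind (R v.1) h _ (h2 v hv)]
  refine sum_congr rfl fun a _ => ?_
  rw [sum_ite_eq, if_pos (mem_range.2 (h1 v hv))]

lemma pairs {Ed : Type} (E : Finset Ed) (R : Ed → A → Prop) (c : Ed → ℝ) (h : ℕ)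
    (h2 : ∀ e ∈ E, #{a | R e a} = h) :
    ∑ x ∈ (E ×ˢ univ) with R x.1 x.2, c x.1 = h * ∑ e ∈ E, c e := by
  rw [sum_filter, sum_product, mul_sum]
  exact sum_congr rfl fun e he => sum_ind (R e) h (c e) (h2 e he)

end Block

open Block in
theorem st_Block (hA : BlkASt) (hD : DenSt) : BlockSt := by
  intro π N E γ τ Q Tm ρ lam ω L Jm hπ hI hρ hDec hRay hL hκ hQ hω hlam hT hJ
  obtain ⟨q, γ0, t, u, V, E1, hE1, hq, hden, ht, hu, hV, hE, hpos, hray⟩ :=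
    hA π N E γ τ Q Tm ρ lam ω L hπ hI hρ hDec hRay hL hκ hQ hω hlam hT
  have hq0 : NeZero q := ⟨by have := hden.1; omega⟩
  obtain ⟨h, hh, hst⟩ := hD.stab π.k q γ0 hden.2.1
  generalize lam - 2 * √(ω / #π.PP) - π.k / L = lam' at hray ⊢
  obtain ⟨R, hR⟩ : ∃ R : N.W → (ZMod q)ˣ → Prop,
      R = fun x (a : (ZMod q)ˣ) => EqZ π.k (γ x) (dil (a : ZMod q).val γ0) := ⟨_, rfl⟩
  have hR' : ∀ x a, R x a ↔ EqZ π.k (γ x) (dil (a : ZMod q).val γ0) := fun x a => by rw [hR]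
  have hc : ∀ v ∈ V, #{a | R v.1 a} = h := by
    intro v hv
    obtain ⟨a0, a1, a2⟩ := (hV v hv).2.2.1
    rw [← hst _ a0 a1 a2]
    congr 1
    ext a
    simp only [mem_filter, hR']
  have hlt : ∀ v ∈ V, v.2 < Jm := by
    intro v hv
    refine lt_of_lt_of_le ?_ (hJ v.1)
    rw [← (hV v hv).1]
    exact (Nat.div_lt_iff_lt_mul hπ.Nf).1 (Nat.lt_succ_self _)
  have htot := total V N.isU R u Jm h hlt hc
  have hpairs := pairs E1 (fun e a => R (N.up e) a) (fun e => u (N.up e) * u (N.lo e)) h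
    fun e he => hc _ (hE e he).1
  obtain ⟨P1, hP1⟩ : ∃ P1 : Finset (N.Ed × (ZMod q)ˣ),
      P1 = (E1 ×ˢ univ).filter fun x => R (N.up x.1) x.2 := ⟨_, rfl⟩
  have hmem : ∀ x, x ∈ P1 ↔ x.1 ∈ E1 ∧ R (N.up x.1) x.2 := fun x => by
    simp only [hP1, mem_filter, mem_product, mem_univ, and_true]
  have hpairs' : ∑ x ∈ P1, u (N.up x.1) * u (N.lo x.1) =
      h * ∑ e ∈ E1, u (N.up e) * u (N.lo e) := by
    rw [← hpairs, hP1]
  have hh' : (0 : ℝ) < h := by exact_mod_cast hh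
  refine ⟨q, hq0, γ0, t, vv V N.isU R u true, vv V N.isU R u false,
    P1.image fun x => (N.fj x.1, x.2, N.pr x.1), hq, ht, hden, fun j a => Real.sqrt_nonneg _,
    fun j a => Real.sqrt_nonneg _, ?_, ?_, ?_, ?_, ?_⟩
  · rw [htot]
    exact mul_pos hh' hpos
  · rw [htot]
    have key : ∑ x ∈ P1, u (N.up x.1) * u (N.lo x.1) ≤
        ∑ g ∈ P1.image fun x => (N.fj x.1, x.2, N.pr x.1), vv V N.isU R u true g.1 g.2.1 *
          vv V N.isU R u false (g.1 - π.lg g.2.2) (g.2.1 * un q g.2.2) := by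
      rw [← sum_fiberwise_of_maps_to (g := fun x => (N.fj x.1, x.2, N.pr x.1))
        (fun x hx => mem_image_of_mem _ hx)]
      refine sum_le_sum ?_
      rintro ⟨j, a, p⟩ -
      have hS : ∀ x ∈ P1.filter fun x => (N.fj x.1, x.2, N.pr x.1) = (j, a, p),
          x.1 ∈ E1 ∧ R (N.up x.1) a ∧ N.fj x.1 = j ∧ x.2 = a ∧ N.pr x.1 = p := by
        intro x hx
        obtain ⟨b1, b2⟩ := mem_filter.1 hx
        obtain ⟨b3, b4⟩ := (hmem x).1 b1
        simp only [Prod.mk.injEq] at b2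
        exact ⟨b3, b2.2.1 ▸ b4, b2⟩
      refine (Real.sum_mul_le_sqrt_mul_sqrt _ _ _).trans (mul_le_mul (Real.sqrt_le_sqrt ?_)
        (Real.sqrt_le_sqrt ?_) (Real.sqrt_nonneg _) (Real.sqrt_nonneg _))
      · refine sum_inj _ _ (fun x : N.Ed × (ZMod q)ˣ => (N.up x.1, j)) (fun v => u v.1 ^ 2)
          (fun x hx => ?_) (fun x hx y hy hxy => ?_) fun v => sq_nonneg _
        · obtain ⟨b1, b2, b3, -, -⟩ := hS x hx
          exact mem_fib.2 ⟨b3 ▸ (hE _ b1).1, rfl, hI.up _ (hE1 b1), b2⟩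
        · obtain ⟨b1, -, b3, b4, b5⟩ := hS x hx
          obtain ⟨c1, -, c3, c4, c5⟩ := hS y hy
          exact Prod.ext (hI.iu _ (hE1 b1) _ (hE1 c1) (b3.trans c3.symm) (b5.trans c5.symm)
            (congrArg Prod.fst hxy)) (b4.trans c4.symm)
      · refine sum_inj _ _ (fun x : N.Ed × (ZMod q)ˣ => (N.lo x.1, j - π.lg p))
          (fun v => u v.1 ^ 2) (fun x hx => ?_) (fun x hx y hy hxy => ?_) fun v => sq_nonneg _
        · obtain ⟨b1, b2, b3, -, b5⟩ := hS x hx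
          refine mem_fib.2 ⟨b3 ▸ b5 ▸ (hE _ b1).2.1, rfl, hI.lo _ (hE1 b1), (hR' _ _).2 ?_⟩
          have d1 := hDec.rat _ (hE1 b1)
          have d2 := hD.dil _ _ _ (N.pr x.1) ((hR' _ _).1 b2)
          have d3 := hD.mod π.k q _ _ γ0 hden.2.1 (hD.un q p a (b5 ▸ (hE _ b1).2.2))
          rw [hD.dil_dil, b5, mul_comm, ← Nat.cast_mul] at d2
          rw [b5] at d1
          exact hD.trans _ _ _ _ (hD.trans _ _ _ _ d1 d2) (hD.symm _ _ _ d3)
        · obtain ⟨b1, -, b3, b4, b5⟩ := hS x hx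
          obtain ⟨c1, -, c3, c4, c5⟩ := hS y hy
          exact Prod.ext (hI.il _ (hE1 b1) _ (hE1 c1) (b3.trans c3.symm) (b5.trans c5.symm)
            (congrArg Prod.fst hxy)) (b4.trans c4.symm)
    have hc2 : (0 : ℝ) ≤ 2 / #π.PP := by positivity
    refine le_trans ?_ (mul_le_mul_of_nonneg_left key hc2)
    rw [hpairs', mul_left_comm lam', mul_left_comm _ (h : ℝ)]
    exact mul_le_mul_of_nonneg_left hray hh'.le
  · intro g hg
    obtain ⟨x, hx, rfl⟩ := mem_image.1 hg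
    obtain ⟨b1, b2⟩ := (hmem x).1 hx
    exact ⟨(hE _ b1).2.2, x.1, hE1 b1, rfl, rfl, (hR' _ _).1 b2, (hV _ (hE _ b1).1).2.2.2⟩
  · intro j a hne
    obtain ⟨v, hv, rfl, b2, -⟩ := vv_ne hne
    obtain ⟨c1, ⟨e, he, c2⟩, -⟩ := hV v hv
    rcases c2 with c2 | c2
    · exact ⟨e, he, c2 ▸ c1⟩
    · rw [c2, hI.lo e he] at b2
      exact absurd b2 (by simp)
  · intro j a hne
    obtain ⟨v, hv, rfl, b2, b3⟩ := vv_ne hne
    obtain ⟨c1, ⟨e, he, c2⟩, -, c3⟩ := hV v hv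
    rcases c2 with c2 | c2
    · rw [c2, hI.up e he] at b2
      exact absurd b2 (by simp)
    · exact ⟨e, he, c2 ▸ c1, c2 ▸ (hR' _ _).1 b3, c2 ▸ c3⟩

end Pool.Agent.Lib.MP_028aa5_nt.T
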