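import Pool.Agent.Lib.MP_028aa5_nt.T.St4

/-! Periodic coefficients on a full box. -/

namespace Pool.Agent.Lib.MP_028aa5_nt.T

open Finset
open scoped ComplexConjugate Classical

namespace Box

theorem integ {L : ℝ} (hL : L ≠ 0) (h : ℤ) (x : ℝ) :
    ∫ v in x..L + x, e (h / L * v) = if h = 0 then (L : ℂ) else 0 := by
  split_ifs with h0
  · simp [h0, e]
  · have l0 : (L : ℂ) ≠ 0 := by exact_mod_cast hL
    have k : ∀ v : ℝ, e (h / L * v) = Complex.exp (h / L * (2 * Real.pi * Complex.I) * v) :=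
      fun v => by
      rw [e]
      push_cast
      ring_nf
    simp only [k]
    rw [integral_exp_mul_complex (mul_ne_zero (div_ne_zero (by exact_mod_cast h0) l0)
      Complex.two_pi_I_ne_zero), Complex.ofReal_add, mul_add, Complex.exp_add,
      mul_right_comm _ _ (L : ℂ), div_mul_cancel₀ _ l0, Complex.exp_int_mul_two_pi_mul_I, one_mul,
      sub_self, zero_div]

theorem crt {D q a : ℕ} (ha : a < D) (hq : 1 ≤ q) (co : Nat.Coprime D q) {G : ℕ → ℂ}
    (hG : Function.Periodic G q) :
    ∑ r ∈ range (D * q) with r % D = a, G r = ∑ b ∈ range q, G b := by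
  refine sum_bij (fun r _ => r % q) (fun r _ => mem_range.2 (Nat.mod_lt _ hq))
    (fun r hr s hs h => ?_) (fun b hb => ?_) fun r _ => (hG.map_mod_nat r).symm
  · rw [mem_filter, mem_range] at hr hs
    exact ((Nat.modEq_and_modEq_iff_modEq_mul co).1 ⟨hr.2.trans hs.2.symm, h⟩).eq_of_lt_of_lt
      hr.1 hs.1
  · have k := (Nat.chineseRemainder co a b).2
    exact ⟨Nat.chineseRemainder co a b, mem_filter.2 ⟨mem_range.2
      (Nat.chineseRemainder_lt_mul co a b (by omega) (by omega)),
      Eq.trans k.1 (Nat.mod_eq_of_lt ha)⟩, Eq.trans k.2 (Nat.mod_eq_of_lt (mem_range.1 hb))⟩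

end Box

open Box in
theorem st_Box (hK : KerSt) : BoxSt := by
  intro A
  obtain ⟨c, M0, hc, H⟩ := hK A
  refine ⟨c / 2, max M0 1, half_pos hc, ?_⟩
  intro M L h D q a G hM l8 l9 ha hq co hD hh hG g1
  have m1 : 1 ≤ M := (le_max_right _ _).trans hM
  have m0 : 0 < M := one_pos.trans_le m1
  have l0 : 0 < L := by linarith
  have d0 : 0 < D * q := Nat.mul_pos (by omega) hq
  have key := fun r (hr : r < D * q) => H M (Real.exp L * M) (h / L) (D * q) r
    ((le_max_left _ _).trans hM) (le_mul_of_one_le_left m0.le (Real.one_le_exp l0.le))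
    (mul_le_mul_of_nonneg_right (Real.exp_le_exp.2 l9) m0.le) hr
    (by
      push_cast
      exact hD.trans (Real.rpow_le_rpow_of_exponent_le m1 (by linarith)))
    (by
      rw [abs_div, abs_of_pos l0, div_le_iff₀ l0]
      nlinarith [Real.rpow_pos_of_pos m0 A])
  rw [Real.log_mul (Real.exp_pos L).ne' m0.ne', Real.log_exp, integ l0.ne'] at key
  have e1 : ∑ n ∈ Ioc ⌊M⌋₊ ⌊Real.exp L * M⌋₊ with n % D = a, G n * (e (h / L * Real.log n) / n) =
      ∑ r ∈ range (D * q) with r % D = a, G r *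
        ∑ n ∈ Ioc ⌊M⌋₊ ⌊Real.exp L * M⌋₊ with n % (D * q) = r, e (h / L * Real.log n) / n := by
    rw [← sum_fiberwise_of_maps_to (t := {r ∈ range (D * q) | r % D = a}) (g := (· % (D * q)))
      fun n hn => mem_filter.2 ⟨mem_range.2 (Nat.mod_lt _ d0),
        (Nat.mod_mul_right_mod n D q).trans (mem_filter.1 hn).2⟩]
    refine sum_congr rfl fun r hr => ?_
    rw [mul_sum, filter_filter]
    refine sum_congr (filter_congr fun n _ => ⟨And.right, fun k => ⟨?_, k⟩⟩) fun n hn => ?_
    · rw [← Nat.mod_mul_right_mod n D q, k, (mem_filter.1 hr).2]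
    · rw [← (mem_filter.1 hn).2, ← Function.Periodic.map_mod_nat hG (n % _), Nat.mod_mul_left_mod,
        Function.Periodic.map_mod_nat hG]
  have e2 : (if h = 0 then (L / (D * q) : ℂ) * ∑ b ∈ range q, G b else 0) =
      ∑ r ∈ range (D * q) with r % D = a,
        G r * (((D * q : ℕ) : ℂ)⁻¹ * if h = 0 then (L : ℂ) else 0) := by
    rw [← sum_mul, crt ha hq co hG]
    split_ifs
    · push_cast
      ring
    · simp
  rw [e1, e2, ← sum_sub_distrib]
  refine (norm_sum_le_of_le _ (n := fun _ => M ^ (-c)) fun r hr => ?_).trans ?_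
  · rw [← mul_sub, norm_mul]
    exact (mul_le_of_le_one_left (norm_nonneg _) (g1 r)).trans
      (key r (mem_range.1 (mem_filter.1 hr).1))
  · rw [sum_const, nsmul_eq_mul]
    have k1 : (#{r ∈ range (D * q) | r % D = a} : ℝ) ≤ D * q := by
      exact_mod_cast (card_filter_le _ _).trans_eq (card_range _)
    refine (mul_le_mul_of_nonneg_right (k1.trans hD) (by positivity)).trans_eq ?_
    rw [← Real.rpow_add m0]
    congr 1
    ring

end Pool.Agent.Lib.MP_028aa5_nt.T
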