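import Pool.Agent.Lib.MP_028aa5_nt.T.St3

/-! The characters of the finite group. -/

namespace Pool.Agent.Lib.MP_028aa5_nt.T

open Finset
open scoped ComplexConjugate Classical

namespace ChA

variable {N0 q : ℕ} [NeZero N0]

theorem std (j : ℤ) : e (j / N0) = ZMod.stdAddChar (j : ZMod N0) := by
  rw [ZMod.stdAddChar_coe, e]
  push_cast
  ring_nf

theorem std' (a x : ZMod N0) : e ((a.val * x.val : ℝ) / N0) = ZMod.stdAddChar (a * x) := by
  simpa using std (N0 := N0) (a.val * x.val : ℕ)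

theorem ch_eq (ξ : ZMod N0 × DirichletCharacter ℂ q) (g : ZMod N0 × (ZMod q)ˣ) :
    ch N0 q ξ g = ZMod.stdAddChar (ξ.1 * g.1) * ξ.2 g.2 := by rw [ch, std']

theorem sumA (b : ZMod N0) :
    ∑ a : ZMod N0, ZMod.stdAddChar (a * b) = if b = 0 then (N0 : ℂ) else 0 := by
  simpa using AddChar.sum_mulShift b (ZMod.isPrimitive_stdAddChar N0)

theorem dv_eq (ξ ξ' : ZMod N0 × DirichletCharacter ℂ q) (g : ZMod N0 × (ZMod q)ˣ) :
    ch N0 q (dv N0 q ξ ξ') g = ch N0 q ξ g * conj (ch N0 q ξ' g) := by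
  simp only [ch_eq, dv, map_mul, ← AddChar.map_neg_eq_conj, sub_mul, MulChar.mul_apply]
  rw [sub_eq_add_neg, AddChar.map_add_eq_mul, ← MulChar.star_apply', RCLike.star_def]
  ring

theorem sumU [NeZero q] {χ : DirichletCharacter ℂ q} (h : χ ≠ 1) : ∑ u : (ZMod q)ˣ, χ u = 0 := by
  obtain ⟨b, hb⟩ := MulChar.ne_one_iff.1 h
  refine eq_zero_of_mul_eq_self_left hb ?_
  simpa only [mul_sum, ← map_mul, ← Units.val_mul] using
    (Group.mulLeft_bijective b).sum_comp fun u : (ZMod q)ˣ => χ u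

end ChA

open ChA in
theorem st_Ch : ChSt where
  norm := fun N0 q _ ξ g => by rw [ch, norm_mul, norm_e, ξ.2.unit_norm_eq_one, mul_one]
  orth := by
    intro N0 q _ _ ξ ξ' h
    simp only [← dv_eq]
    simp only [ch_eq, dv, Fintype.sum_prod_type, ← mul_sum, ← sum_mul, mul_comm (ξ.1 - ξ'.1), sumA]
    split_ifs with h0
    · rw [sumU fun h1 => h (Prod.ext (sub_eq_zero.1 h0) (mul_inv_eq_one.1 h1)), mul_zero]
    · exact zero_mul _
  dual := by
    intro N0 q _ _ g g'
    have k : ∀ ξ, ch N0 q ξ g * conj (ch N0 q ξ g') =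
        ZMod.stdAddChar (ξ.1 * (g.1 - g'.1)) * ξ.2 (g.2 * g'.2⁻¹ : (ZMod q)ˣ) := fun ξ => by
      simp only [ch_eq, map_mul, ← AddChar.map_neg_eq_conj, mul_sub, Units.val_mul]
      rw [sub_eq_add_neg, AddChar.map_add_eq_mul, ← RCLike.star_def (K := ℂ), MulChar.star_apply',
        MulChar.inv_apply, Ring.inverse_unit]
      ring
    simp only [k, Fintype.sum_prod_type, ← mul_sum, ← sum_mul, sumA,
      DirichletCharacter.sum_characters_eq, Units.val_eq_one, mul_inv_eq_one, sub_eq_zero,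
      Prod.ext_iff, Fintype.card_prod, ZMod.card, ZMod.card_units_eq_totient]
    by_cases h1 : g.1 = g'.1 <;> by_cases h2 : g.2 = g'.2 <;> simp [h1, h2]
  dv := fun N0 q _ _ => dv_eq
  mul := by
    intro π N0 q _ _ ξ g
    rw [mul, mul_assoc, sum_mul, sum_filter, Complex.ofReal_natCast]
    congr 1
    refine sum_congr rfl fun p _ => ?_
    split_ifs with h
    · have k : e (-(ξ.1.val * π.lg p : ℝ) / N0) =
          ZMod.stdAddChar (-(ξ.1 * (π.lg p : ZMod N0))) := by
        simpa using std (N0 := N0) (-(ξ.1.val * π.lg p : ℕ))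
      simp only [k, ch_eq, sh, un, dif_pos h, Equiv.prodCongr_apply, Prod.map_fst, Prod.map_snd,
        Equiv.subRight_apply, Equiv.coe_mulRight, Units.val_mul, map_mul, ZMod.coe_unitOfCoprime,
        mul_sub]
      rw [sub_eq_add_neg, AddChar.map_add_eq_mul]
      ring
    · rw [ξ.2.map_nonunit ((ZMod.isUnit_iff_coprime p q).not.2 h), mul_zero, zero_mul]
  cast := fun N0 _ a x => by
    rw [std', ← Int.cast_mul, ← std, Int.cast_mul]
  sum := fun N0 _ x => by
    have k : ∀ a : ZMod N0, e ((a.val * x : ℝ) / N0) = ZMod.stdAddChar (a * (x : ZMod N0)) :=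
      fun a => by simpa using std (N0 := N0) (a.val * x)
    simp only [k, sumA, ZMod.intCast_zmod_eq_zero_iff_dvd]

end Pool.Agent.Lib.MP_028aa5_nt.T
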