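import Pool.Agent.Lib.MP_028aa5_nt.T.St2

/-! Conflicts between digit sources are rare. -/

namespace Pool.Agent.Lib.MP_028aa5_nt.T

open Finset
open scoped ComplexConjugate Classical

namespace ConfJ

/-- digit of an edge -/
def dg (k r : ℕ) (z : ℕ → ℤ) : Dg k r := fun j => ((-z j.val : ℤ) : ZMod (md r j.val))

/-- integer vector of a digit -/
def vl {k r : ℕ} (d : Dg k r) : ℕ → ℤ := fun j => if h : j < k + 1 then ((d ⟨j, h⟩).val : ℤ) else 0

/-- point mass -/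
noncomputable def dl {W D : Type} (x0 : W) (d0 : D) : W → D → ℝ :=
  fun y d' => if y = x0 ∧ d' = d0 then 1 else 0

lemma md_eq {r : ℕ} (hr : 0 < r) (j : ℕ) : md r j = r ^ j := by
  unfold md
  rw [max_eq_left hr]

lemma vl_cast {k r : ℕ} (d : Dg k r) (j : Fin (k + 1)) :
    ((vl d j : ℤ) : ZMod (md r j.val)) = d j := by
  simp [vl, j.2]

lemma dvd_iff {r : ℕ} (hr : 0 < r) (j : ℕ) (x : ℤ) :
    (x : ZMod (md r j)) = 0 ↔ (r : ℤ) ^ j ∣ x := by
  rw [ZMod.intCast_zmod_eq_zero_iff_dvd, md_eq hr]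
  push_cast
  rfl

/-- a vector of level `R` whose entries are divisible lies in the lattice of level `R r` -/
lemma cl_of (hN : NSt) {k : ℕ} {κ y ρ R : ℝ} {r : ℕ} {α β : Ph} {z z' : ℕ → ℤ}
    (h : nm k κ y (α - lat R z) ≤ ρ) (hd : ∀ j ∈ Icc 1 k, (r : ℤ) ^ j ∣ z' j)
    (hβ : ∀ j, β j = α j + R ^ j * (z' j - z j)) : Cl k κ (R * r) y ρ β := by
  refine ⟨fun j => z' j / (r : ℤ) ^ j, le_trans (le_of_eq (hN.nm_congr _ _ _ _ _ fun j hj => ?_)) h⟩
  obtain ⟨c, hc⟩ := hd j hj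
  rcases Nat.eq_zero_or_pos r with rfl | hr
  · have : j ≠ 0 := by have := (mem_Icc.1 hj).1; omega
    simp [lat, hβ, hc, this]
    ring
  · simp only [Pi.sub_apply, lat, hβ, hc, Int.mul_ediv_cancel_left _ (pow_pos (by
      exact_mod_cast hr : (0 : ℤ) < r) j).ne']
    push_cast
    ring

/-- the two consequences of a walk between two sources -/
lemma key (hN : NSt) (hN2 : N2St) (hB : BasSt) (hW : WalkSt) (hI : InvSt) (hA : AbSt)
    {π : Par} {N : Net} {E : Finset N.Ed} {φ : N.W → Ph} {zf : N.Ed → ℕ → ℤ} {R ρ : ℝ} {r : ℕ}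
    {T : N.Ed → Dg π.k r ≃ Dg π.k r} (ok : π.Ok) (hE : N.Is π E) (ρ0 : 0 ≤ ρ)
    (hz : ∀ e ∈ E, nm π.k π.κ (N.pos π (N.lo e))
      (φ (N.lo e) - dil (N.pr e) (φ (N.up e)) - lat R (zf e)) ≤ ρ) (hr : r ∈ π.PP)
    (hT : ∀ e ∈ E, N.pr e ≠ r → ∀ d j,
      T e d j = (N.pr e : ZMod (md r j.val)) ^ j.val * d j - (zf e j.val : ℤ))
    {l : List ℕ} (hl : 2 * (l.length + 2) * π.κ1 ≤ 1) {e0 e1 : N.Ed} (h0 : e0 ∈ E) (h1 : e1 ∈ E)
    (p0 : N.pr e0 = r) (p1 : N.pr e1 = r) {d : Dg π.k r} (hd : d ≠ dg π.k r (zf e1))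
    (hw : N.opL π.ν {e ∈ E | N.pr e ≠ r} T l (dl (N.lo e0) (dg π.k r (zf e0))) (N.lo e1) d ≠ 0) :
    |Real.log (N.pos π (N.up e1) / (ab false l).2) - Real.log (N.pos π (N.up e0) / (ab false l).1)| ≤
      (2 * l.length + 4) * π.κ1 ∧ ∃ z : ℕ → ℤ,
      nm π.k π.κ (N.pos π (N.up e0) / (ab false l).1) (dil (ab false l).1 (φ (N.up e0)) -
        dil (ab false l).2 (φ (N.up e1)) - lat (R / r) z) ≤
          (l.length + 2) * (8 * l.length + 17) ^ π.k * ρ ∧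
      ¬∀ j ∈ Icc 1 π.k, (r : ℤ) ^ j ∣ z j := by
  have rp := (ok.pr r hr).1
  have r0 : (0 : ℝ) < r := by exact_mod_cast rp.pos
  have κ1 := hB.κ1_pos π ok
  have κ2 := hB.κ1_le π ok
  have κ0 : 0 < π.κ := κ1.trans_le κ2
  have κ3 : π.κ1 / π.κ ≤ 1 := (div_le_one κ0).2 κ2
  have L0 : (0 : ℝ) ≤ l.length := Nat.cast_nonneg _
  set ψ : N.W → Dg π.k r → Ph := fun x d => φ x + lat R (vl d) with hψ
  have hsrc : ∀ e ∈ E, N.pr e = r → Cl π.k π.κ (R * r) (N.pos π (N.lo e)) ρ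
      (ψ (N.lo e) (dg π.k r (zf e)) - dil r (φ (N.up e))) := fun e he p => by
    refine cl_of hN (hz e he) (z' := fun j => zf e j + vl (dg π.k r (zf e)) j) (fun j hj => ?_)
      fun j => by simp [hψ, p, lat]; ring
    have := vl_cast (dg π.k r (zf e)) ⟨j, by have := (mem_Icc.1 hj).2; omega⟩
    rw [← dvd_iff rp.pos, Int.cast_add, this]
    simp [dg]
  have hE' := hB.mono π N E _ hE (filter_subset (fun e => N.pr e ≠ r) E)
  have y0 : 0 < N.pos π (N.up e0) / r := div_pos (hB.pos_pos π N _) r0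
  have pe0 := hB.pos_edge π N E ok hE e0 h0
  have pe1 := hB.pos_edge π N E ok hE e1 h1
  rw [p0] at pe0
  rw [p1] at pe1
  have hpl : ∀ p ∈ l, p ∈ π.PP ∧ p ≠ r := fun p hp => by
    obtain ⟨e, he, rfl⟩ := (hW.mem N _ _ _ _ _ _ _ _ hw).1 p hp
    exact ⟨hE.pr e (mem_filter.1 he).1, (mem_filter.1 he).2⟩
  obtain ⟨a0, b0, -, -⟩ := hA.ab_le false l (2 * π.P) (by linarith [ok.P]) fun p hp =>
    ⟨(ok.pr p (hpl p hp).1).1.pos, (ok.pr p (hpl p hp).1).2.2⟩
  have cop := hA.ab_cop false l r rp fun p hp => ⟨(ok.pr p (hpl p hp).1).1, (hpl p hp).2⟩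
  obtain ⟨i1, i2⟩ := hI π N _ _ T ψ (R * r) ρ _ _ (dil r (φ (N.up e0))) _ _ l (N.lo e1) d ok hE' ρ0
    (fun e he d => by
      obtain ⟨he, hp⟩ := mem_filter.1 he
      refine cl_of hN (hz e he) (z' := fun j => zf e j + vl (T e d) j - N.pr e ^ j * vl d j)
        (fun j hj => ?_) fun j => by simp [hψ, lat, dil]; ring
      have hj' : j < π.k + 1 := by have := (mem_Icc.1 hj).2; omega
      have h2 := vl_cast (T e d) ⟨j, hj'⟩
      have h3 := vl_cast d ⟨j, hj'⟩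
      rw [hT e he hp] at h2
      rw [← dvd_iff rp.pos]
      push_cast
      simp only at h2 h3
      rw [h2, h3]
      ring)
    y0 pe0 (hN2.cl_shift _ _ _ _ _ _ _ _ κ0 ok.κ (hB.pos_pos π N _) y0 pe0 (by nlinarith)
      (hsrc e0 h0 p0)) hl hw
  rw [hE.lo e0 h0] at i1 i2
  set a := (ab false l).1
  set b := (ab false l).2
  have a1 : (0 : ℝ) < a := by exact_mod_cast a0
  have b1 : (0 : ℝ) < b := by exact_mod_cast b0
  have u0 := hB.pos_pos π N (N.up e0)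
  have u1 := hB.pos_pos π N (N.up e1)
  have l1 := hB.pos_pos π N (N.lo e1)
  refine ⟨?_, ?_⟩
  · simp only [Real.log_div u0.ne' a1.ne', Real.log_div u1.ne' b1.ne', Real.log_div l1.ne' b1.ne',
      Real.log_div y0.ne' a1.ne', Real.log_div u0.ne' r0.ne', Real.log_div u1.ne' r0.ne',
      abs_le] at i1 pe1 ⊢
    constructor <;> linarith [i1.1, i1.2, pe1.1, pe1.2]
  have i3 : Cl π.k π.κ (R * r) (N.pos π (N.lo e1) / b) ρ
      (dil b (ψ (N.lo e1) (dg π.k r (zf e1)) - dil r (φ (N.up e1)))) :=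
    hN.cl_dil _ _ _ _ _ _ b (by rw [mul_div_cancel₀ _ b1.ne']; exact hsrc e1 h1 p1)
  have i4 := hN2.cl_shift _ _ _ _ _ _ _ _ κ0 ok.κ (div_pos l1 b1) (div_pos y0 a1)
    ((abs_sub_comm _ _).trans_le i1) (by nlinarith) i3
  obtain ⟨z0, i5⟩ := hN.cl_add _ _ _ _ _ _ _ _ κ0.le (hN.cl_neg _ _ _ _ _ _ i2) i4
  refine ⟨fun j => (r : ℤ) ^ j * z0 j + b ^ j * (vl d j - vl (dg π.k r (zf e1)) j), ?_, fun h => ?_⟩
  · have e1' : N.pos π (N.up e0) / a = r * (N.pos π (N.up e0) / r / a) := by field_simp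
    rw [e1', ← hN.nm_dil]
    refine (le_of_eq (hN.nm_congr _ _ _ _ _ fun j _ => ?_)).trans (i5.trans ?_)
    · simp only [hψ, dil, lat, Pi.sub_apply, Pi.add_apply, Pi.neg_apply, div_pow, mul_pow]
      push_cast
      field_simp
      ring
    · have t1 : (1 + 4 * (2 * π.κ1) / π.κ) ^ π.k ≤ (8 * l.length + 17) ^ π.k := by
        refine pow_le_pow_left₀ (by positivity) ?_ _
        rw [show 4 * (2 * π.κ1) / π.κ = 8 * (π.κ1 / π.κ) by ring]
        linarith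
      have t2 : (1 + 4 * (2 * (l.length + 1) * π.κ1) / π.κ) ^ π.k ≤ (8 * l.length + 17) ^ π.k := by
        refine pow_le_pow_left₀ (by positivity) ?_ _
        rw [show 4 * (2 * (l.length + 1) * π.κ1) / π.κ = 8 * (l.length + 1) * (π.κ1 / π.κ) by ring]
        nlinarith
      nlinarith [mul_le_mul_of_nonneg_right t1 ρ0, mul_le_mul_of_nonneg_right t2 ρ0]
  · refine hd (funext fun j => ?_)
    rcases Nat.eq_zero_or_pos j.val with hj | hj
    · have : Subsingleton (ZMod (md r j.val)) := by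
        rw [hj, md, pow_zero]
        infer_instance
      exact Subsingleton.elim _ _
    have h2 := (dvd_add_right (dvd_mul_right _ _)).1 (h j (mem_Icc.2 ⟨hj, by have := j.2; omega⟩))
    have h3 : IsCoprime ((r : ℤ) ^ j.val) ((b : ℤ) ^ j.val) :=
      (Nat.isCoprime_iff_coprime.2 cop.symm).pow
    have h4 := (dvd_iff rp.pos _ _).2 (h3.dvd_of_dvd_mul_left h2)
    rw [Int.cast_sub, vl_cast, vl_cast, sub_eq_zero] at h4
    exact h4

lemma dl_nonneg {W D : Type} (x0 : W) (d0 : D) (y : W) (d : D) : 0 ≤ dl x0 d0 y d := by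
  unfold dl
  split_ifs <;> norm_num

lemma dl_sum {W D : Type} [Fintype W] [Fintype D] (x0 : W) (d0 : D) :
    ∑ y, ∑ d, dl x0 d0 y d = 1 := by
  simp [dl, ite_and]

lemma dl_pair {W D : Type} [Fintype W] [Fintype D] (x0 : W) (d0 : D) (g : W → D → ℝ) :
    ∑ y, ∑ d, g y d * dl x0 d0 y d = g x0 d0 := by
  simp [dl, ite_and]

/-- the conflict weight of a sum of point masses -/
lemma conf_eq (hW : WalkSt) (N : Net) {D : Type} [Fintype D] [DecidableEq D] (ν : ℝ) (E : Finset N.Ed)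
    (T : N.Ed → D ≃ D) (S : Finset ℕ) (hS : ∀ e ∈ E, N.pr e ∈ S) (I : Finset N.Ed)
    (c : N.Ed → ℝ) (x : N.Ed → N.W) (d : N.Ed → D) (i : ℕ) :
    N.conf ν E T (fun y d' => ∑ e ∈ I, c e * dl (x e) (d e) y d') i =
      ∑ l ∈ Fintype.piFinset fun _ : Fin i => S, ∑ e0 ∈ I, ∑ e1 ∈ I, c e0 * c e1 *
        ∑ d' with d' ≠ d e1, N.opL ν E T (List.ofFn l) (dl (x e0) (d e0)) (x e1) d' := by
  set σ : N.W → D → ℝ := fun y d' => ∑ e ∈ I, c e * dl (x e) (d e) y d' with hσ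
  have h1 : ∀ g : N.W → D → ℝ, ∑ y, ∑ d', g y d' * σ y d' = ∑ e ∈ I, c e * g (x e) (d e) := by
    intro g
    simp only [hσ, mul_sum]
    rw [sum_congr rfl fun y _ => sum_comm, sum_comm]
    refine sum_congr rfl fun e _ => ?_
    rw [← dl_pair (x e) (d e) g, mul_sum]
    refine sum_congr rfl fun y _ => ?_
    rw [mul_sum]
    exact sum_congr rfl fun _ _ => by ring
  have h2 : N.conf ν E T σ i = ∑ e ∈ I, c e * ∑ d' with d' ≠ d e, (N.opC ν E T)^[i] σ (x e) d' := by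
    unfold Net.conf
    simp only [← hW.projI N D ν E T i σ, mul_sum univ]
    rw [h1 fun y _ => ∑ d', (N.opC ν E T)^[i] σ y d', h1, ← sum_sub_distrib]
    refine sum_congr rfl fun e _ => ?_
    rw [← mul_sub, filter_ne', sum_erase_eq_sub (mem_univ _)]
  have h3 : ∀ y d', (N.opC ν E T)^[i] σ y d' = ∑ l ∈ Fintype.piFinset fun _ : Fin i => S,
      ∑ e0 ∈ I, c e0 * N.opL ν E T (List.ofFn l) (dl (x e0) (d e0)) y d' := fun y d' => by
    rw [hW.exp N D ν E T S i σ _ _ hS]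
    exact sum_congr rfl fun l _ => hW.lin N D _ ν E T _ I c (fun e => dl (x e) (d e)) y d'
  rw [h2]
  simp only [h3, mul_sum]
  rw [sum_congr rfl fun e _ => sum_comm, sum_comm]
  refine sum_congr rfl fun l _ => ?_
  rw [sum_congr rfl fun e _ => sum_comm, sum_comm]
  exact sum_congr rfl fun _ _ => sum_congr rfl fun _ _ => sum_congr rfl fun _ _ => by ring

lemma src_eq (π : Par) (N : Net) (E : Finset N.Ed) (w : N.W → ℝ) (zf : N.Ed → ℕ → ℤ) (r : ℕ) :
    src π N E w zf r = fun y d' => ∑ e ∈ E with N.pr e = r ∧ w (N.lo e) ≤ 2 * w (N.up e),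
      w (N.lo e) / π.Nf * dl (N.lo e) (dg π.k r (zf e)) y d' := by
  funext y d'
  unfold src dl
  rw [card_filter, sum_filter]
  simp only [Nat.cast_sum, Nat.cast_ite, Nat.cast_one, Nat.cast_zero]
  rw [mul_sum, sum_div]
  refine sum_congr rfl fun e _ => ?_
  by_cases h1 : N.lo e = y
  · subst h1
    by_cases h2 : d' = dg π.k r (zf e)
    · have h3 : d' = fun j : Fin (π.k + 1) => ((-zf e j.val : ℤ) : ZMod (md r j.val)) := h2
      by_cases h4 : N.pr e = r ∧ w (N.lo e) ≤ 2 * w (N.up e)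
      · rw [if_pos h4, if_pos ⟨h4.1, rfl, h4.2, h3⟩, if_pos ⟨rfl, h2⟩]
        ring
      · rw [if_neg h4, if_neg fun h => h4 ⟨h.1, h.2.2.1⟩]
        simp
    · rw [if_neg fun h => h2 h.2.2.2, if_neg (c := _ ∧ d' = _) fun h => h2 h.2]
      simp
  · rw [if_neg fun h => h1 h.2.1, if_neg (c := y = _ ∧ _) fun h => h1 h.1.symm]
    simp

/-- symmetric use of `2 a b ≤ a ^ 2 + b ^ 2` on a relation with few partners -/
lemma rel_sum {W : Type} [Fintype W] (w : W → ℝ) (Q : W → W → Prop) {B : ℝ} (hw : ∑ x, w x ^ 2 ≤ 1)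
    (B0 : 0 ≤ B) (h1 : ∀ x, (#{y | Q x y} : ℝ) ≤ B) (h2 : ∀ y, (#{x | Q x y} : ℝ) ≤ B) :
    ∑ x, ∑ y, (if Q x y then w x * w y else 0) ≤ B := by
  have h3 : ∑ x, ∑ y, (if Q x y then w x ^ 2 else 0) ≤ B * ∑ x, w x ^ 2 := by
    rw [mul_sum]
    refine sum_le_sum fun x _ => ?_
    rw [← sum_filter, sum_const, nsmul_eq_mul]
    exact mul_le_mul_of_nonneg_right (h1 x) (sq_nonneg _)
  have h4 : ∑ x, ∑ y, (if Q x y then w y ^ 2 else 0) ≤ B * ∑ x, w x ^ 2 := by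
    rw [mul_sum, sum_comm]
    refine sum_le_sum fun x _ => ?_
    rw [← sum_filter, sum_const, nsmul_eq_mul]
    exact mul_le_mul_of_nonneg_right (h2 x) (sq_nonneg _)
  have h5 : ∑ x, ∑ y, (if Q x y then w x * w y else 0) ≤
      (∑ x, ∑ y, (if Q x y then w x ^ 2 else 0) + ∑ x, ∑ y, (if Q x y then w y ^ 2 else 0)) / 2 := by
    rw [← sum_add_distrib, sum_div]
    refine sum_le_sum fun x _ => ?_
    rw [← sum_add_distrib, sum_div]
    refine sum_le_sum fun y _ => ?_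
    split_ifs
    · nlinarith [sq_nonneg (w x - w y)]
    · norm_num
  nlinarith

lemma up_sum (hB : BasSt) {π : Par} {N : Net} {E I : Finset N.Ed} (ok : π.Ok) (hE : N.Is π E) {r : ℕ}
    (hI : ∀ e ∈ I, e ∈ E ∧ N.pr e = r) (h : N.W → ℝ) (h0 : ∀ x, 0 ≤ h x) :
    ∑ e ∈ I, h (N.up e) ≤ π.Nf * ∑ x, h x := by
  rw [← sum_fiberwise I N.up, mul_sum]
  refine sum_le_sum fun x _ => ?_
  rw [sum_congr rfl fun e he => congrArg h (mem_filter.1 he).2, sum_const, nsmul_eq_mul]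
  refine mul_le_mul_of_nonneg_right (Nat.cast_le.2 (le_trans (card_le_card fun e he => ?_)
    (hB.cntU π N E ok hE x r))) (h0 x)
  obtain ⟨h1, h2⟩ := mem_filter.1 he
  exact mem_filter.2 ⟨(hI e h1).1, (hI e h1).2, h2⟩

end ConfJ

open ConfJ

theorem st_Conf (hN : NSt) (hN2 : N2St) (hB : BasSt) (hW : WalkSt) (hI : InvSt) (hA : AbSt) :
    ConfSt := by
  intro π N E w φ zf T R ρ Y i ok hE w0 w1 ρ0 ρ1 R0 hz hT hY hi hbig
  have c0 : (0 : ℝ) < #π.PP := by exact_mod_cast ok.ne.card_pos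
  have n0 : (0 : ℝ) < π.Nf := by exact_mod_cast ok.Nf
  have ν0 := (hB.ν_pos π ok).le
  have κ0 : 0 < π.κ := (hB.κ1_pos π ok).trans_le (hB.κ1_le π ok)
  have P0 : 1 ≤ 2 * π.P := by linarith [ok.P]
  set L := Fintype.piFinset fun _ : Fin i => π.PP with hL
  set X : (r : ℕ) → (Fin i → ℕ) → N.Ed → N.Ed → ℝ := fun r l e0 e1 =>
    ∑ d' with d' ≠ dg π.k r (zf e1), N.opL π.ν {e ∈ E | N.pr e ≠ r} (T r) (List.ofFn l)
      (dl (N.lo e0) (dg π.k r (zf e0))) (N.lo e1) d' with hX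
  set Bad : ℕ → (Fin i → ℕ) → N.W → N.W → Prop := fun r l x0 x1 => ∃ e0 ∈ E, ∃ e1 ∈ E,
    N.pr e0 = r ∧ N.pr e1 = r ∧ N.up e0 = x0 ∧ N.up e1 = x1 ∧ X r l e0 e1 ≠ 0 with hBad
  set Near : (Fin i → ℕ) → N.W → N.W → Prop := fun l x0 x1 =>
    |Real.log (N.pos π x1 / (ab false (List.ofFn l)).2) -
      Real.log (N.pos π x0 / (ab false (List.ofFn l)).1)| ≤ (2 * i + 4) * π.κ1 with hNear
  have X0 : ∀ r l e0 e1, 0 ≤ X r l e0 e1 := fun r l e0 e1 =>
    sum_nonneg fun d _ => hW.nonneg N _ _ _ _ _ _ ν0 (dl_nonneg _ _) _ _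
  have X1 : ∀ r l e0 e1, X r l e0 e1 ≤ (1 / (#π.PP : ℝ)) ^ i := fun r l e0 e1 => by
    have h1 := hW.mass π N _ {e ∈ E | N.pr e ≠ r} (T r) (List.ofFn l)
      (dl (N.lo e0) (dg π.k r (zf e0))) ok (hB.mono π N E _ hE (filter_subset _ _)) (dl_nonneg _ _)
    rw [dl_sum, mul_one, List.length_ofFn] at h1
    refine le_trans ?_ (le_trans (single_le_sum (fun x _ => sum_nonneg fun d _ =>
      hW.nonneg N _ _ _ _ _ _ ν0 (dl_nonneg _ _) _ _) (mem_univ (N.lo e1))) h1)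
    exact sum_le_sum_of_subset_of_nonneg (filter_subset _ _) fun d _ _ =>
      hW.nonneg N _ _ _ _ _ _ ν0 (dl_nonneg _ _) _ _
  have K : ∀ r ∈ π.PP, ∀ l x0 x1, Bad r l x0 x1 → Near l x0 x1 ∧ ∃ z : ℕ → ℤ,
      nm π.k π.κ (N.pos π x0 / (ab false (List.ofFn l)).1) (dil (ab false (List.ofFn l)).1 (φ x0) -
        dil (ab false (List.ofFn l)).2 (φ x1) - lat (R / r) z) ≤
          (i + 2) * (8 * i + 17) ^ π.k * ρ ∧ ¬∀ j ∈ Icc 1 π.k, (r : ℤ) ^ j ∣ z j := by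
    rintro r hr l _ _ ⟨e0, h0, e1, h1, p0, p1, rfl, rfl, h⟩
    obtain ⟨d, hd, h⟩ := exists_ne_zero_of_sum_ne_zero h
    have := key hN hN2 hB hW hI hA ok hE ρ0 hz hr (hT r hr) (l := List.ofFn l)
      (by rwa [List.length_ofFn]) h0 h1 p0 p1 (mem_filter.1 hd).2 h
    rwa [List.length_ofFn] at this
  have hab : ∀ l ∈ L, 0 < (ab false (List.ofFn l)).1 ∧ 0 < (ab false (List.ofFn l)).2 ∧
      ((ab false (List.ofFn l)).1 : ℝ) ≤ (2 * π.P) ^ i := fun l hl => by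
    obtain ⟨a, b, c, -⟩ := hA.ab_le false (List.ofFn l) (2 * π.P) P0 fun p hp => by
      obtain ⟨j, rfl⟩ := List.mem_ofFn.1 hp
      have := ok.pr _ (Fintype.mem_piFinset.1 hl j)
      exact ⟨this.1.pos, this.2.2⟩
    exact ⟨a, b, c.trans (pow_le_pow_right₀ P0 (by rw [List.length_ofFn]; omega))⟩
  have one : ∀ l ∈ L, ∀ x0 x1, ∑ r ∈ π.PP, (if Bad r l x0 x1 then w x0 * w x1 else 0) ≤
      if Near l x0 x1 then w x0 * w x1 else 0 := fun l hl x0 x1 => by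
    rw [← sum_filter, sum_const, nsmul_eq_mul]
    rcases (π.PP.filter fun r => Bad r l x0 x1).eq_empty_or_nonempty with h | ⟨r, hr⟩
    · rw [h, card_empty, Nat.cast_zero, zero_mul]
      split_ifs
      exacts [mul_nonneg (w0 _) (w0 _), le_rfl]
    obtain ⟨r1, r2⟩ := mem_filter.1 hr
    obtain ⟨k1, z, k2, k3⟩ := K r r1 l x0 x1 r2
    rw [if_pos k1]
    refine mul_le_of_le_one_left (mul_nonneg (w0 _) (w0 _)) ?_
    refine Nat.cast_le_one.2 (card_le_one.2 fun s hs t ht => ?_)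
    suffices h : ∀ s ∈ π.PP.filter fun r => Bad r l x0 x1, s = r by rw [h s hs, h t ht]
    intro s hs
    by_contra hne
    obtain ⟨s1, s2⟩ := mem_filter.1 hs
    obtain ⟨-, z', k4, -⟩ := K s s1 l x0 x1 s2
    obtain ⟨a0, -, a1⟩ := hab l hl
    have a2 : (0 : ℝ) < (ab false (List.ofFn l)).1 := by exact_mod_cast a0
    obtain ⟨rp, -, r3⟩ := ok.pr r r1
    obtain ⟨sp, -, s3⟩ := ok.pr s s1
    have r0 : (0 : ℝ) < r := by exact_mod_cast rp.pos
    have s0 : (0 : ℝ) < s := by exact_mod_cast sp.pos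
    have A0 : (0 : ℝ) ≤ 2 * (i + 2) * (8 * i + 17) ^ π.k := by positivity
    have h1 : 2 * (i + 2) * (8 * i + 17) ^ π.k + 1 ≤
        π.κ * (N.pos π x0 / (ab false (List.ofFn l)).1) * R / (r * s) := by
      rw [le_div_iff₀ (mul_pos r0 s0), ← mul_div_assoc, div_mul_eq_mul_div, le_div_iff₀ a2]
      refine le_trans ?_ (hbig.trans (by gcongr; exact hY x0))
      rw [mul_assoc, pow_add, mul_comm (_ ^ i), sq]
      gcongr
    refine k3 (hN2.one _ _ _ R _ _ r s z z' rp sp (Ne.symm hne) κ0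
      (div_pos (hB.pos_pos π N _) a2) R0 k2 k4 ?_ (by linarith))
    nlinarith [mul_le_mul_of_nonneg_left ρ1 A0]
  have step : ∀ r ∈ π.PP, N.conf π.ν {e ∈ E | N.pr e ≠ r} (T r) (src π N E w zf r) i ≤
      ∑ l ∈ L, 4 * (1 / (#π.PP : ℝ)) ^ i * ∑ x0, ∑ x1,
        (if Bad r l x0 x1 then w x0 * w x1 else 0) := fun r hr => by
    rw [src_eq, conf_eq hW N π.ν _ (T r) π.PP fun e he => hE.pr e (mem_filter.1 he).1]
    refine sum_le_sum fun l _ => ?_
    set I := E.filter fun e => N.pr e = r ∧ w (N.lo e) ≤ 2 * w (N.up e) with hI'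
    have hI2 : ∀ e ∈ I, e ∈ E ∧ N.pr e = r := fun e he =>
      ⟨(mem_filter.1 he).1, (mem_filter.1 he).2.1⟩
    set g : N.W → N.W → ℝ := fun x0 x1 => if Bad r l x0 x1 then w x0 * w x1 else 0 with hg
    have g0 : ∀ x0 x1, 0 ≤ g x0 x1 := fun x0 x1 => by
      simp only [hg]
      split_ifs
      exacts [mul_nonneg (w0 _) (w0 _), le_rfl]
    have h1 : ∑ e0 ∈ I, ∑ e1 ∈ I, g (N.up e0) (N.up e1) ≤ π.Nf * (π.Nf * ∑ x0, ∑ x1, g x0 x1) := by
      refine (sum_le_sum fun e0 _ => up_sum hB ok hE hI2 _ (g0 _)).trans ?_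
      rw [← mul_sum]
      exact mul_le_mul_of_nonneg_left (up_sum hB ok hE hI2 (fun x0 => ∑ x1, g x0 x1)
        fun x => sum_nonneg fun _ _ => g0 _ _) n0.le
    calc _ ≤ ∑ e0 ∈ I, ∑ e1 ∈ I, 4 * (1 / (#π.PP : ℝ)) ^ i / π.Nf ^ 2 * g (N.up e0) (N.up e1) := by
          refine sum_le_sum fun e0 h0 => sum_le_sum fun e1 h1 => ?_
          change _ * X r l e0 e1 ≤ _
          by_cases h : X r l e0 e1 = 0
          · rw [h, mul_zero]
            exact mul_nonneg (by positivity) (g0 _ _)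
          have hb : Bad r l (N.up e0) (N.up e1) :=
            ⟨e0, (hI2 e0 h0).1, e1, (hI2 e1 h1).1, (hI2 e0 h0).2, (hI2 e1 h1).2, rfl, rfl, h⟩
          simp only [hg, if_pos hb]
          have t0 := (mem_filter.1 h0).2.2
          have t1 := (mem_filter.1 h1).2.2
          have := w0 (N.lo e0)
          have := w0 (N.lo e1)
          have := w0 (N.up e0)
          have := w0 (N.up e1)
          calc _ ≤ 2 * w (N.up e0) / π.Nf * (2 * w (N.up e1) / π.Nf) * (1 / (#π.PP : ℝ)) ^ i := by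
                gcongr
                exacts [X0 _ _ _ _, X1 _ _ _ _]
            _ = _ := by ring
      _ ≤ _ := by
          simp only [← mul_sum]
          refine (mul_le_mul_of_nonneg_left h1 (by positivity)).trans (le_of_eq ?_)
          rw [show ∀ a b : ℝ, 4 * a / π.Nf ^ 2 * (π.Nf * (π.Nf * b)) = 4 * a * b from
            fun a b => by field_simp]
  refine (sum_le_sum step).trans ?_
  rw [sum_comm]
  have fin : ∀ l ∈ L, ∑ r ∈ π.PP, 4 * (1 / (#π.PP : ℝ)) ^ i * ∑ x0, ∑ x1,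
      (if Bad r l x0 x1 then w x0 * w x1 else 0) ≤
      (1 / (#π.PP : ℝ)) ^ i * (8 * (4 * i + 9) * π.M) := fun l hl => by
    obtain ⟨a0, b0, -⟩ := hab l hl
    have a1 : (0 : ℝ) < (ab false (List.ofFn l)).1 := by exact_mod_cast a0
    have b1 : (0 : ℝ) < (ab false (List.ofFn l)).2 := by exact_mod_cast b0
    have h1 := rel_sum w (Near l) (B := 2 * π.M * (2 * (2 * i + 4) + 1)) w1 (by positivity)
      (fun x => by
        refine le_trans (Nat.cast_le.2 (card_le_card fun y hy => ?_)) (hB.near π N E (Real.log (N.pos π x /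
          (ab false (List.ofFn l)).1) + Real.log (ab false (List.ofFn l)).2) (2 * i + 4) ok hE
          (by positivity))
        simp only [hNear, mem_filter, Real.log_div (hB.pos_pos π N y).ne' b1.ne'] at hy ⊢
        rwa [show ∀ a b c : ℝ, a - b - c = a - (c + b) from fun _ _ _ => by ring] at hy)
      (fun y => by
        refine le_trans (Nat.cast_le.2 (card_le_card fun x hx => ?_)) (hB.near π N E (Real.log (N.pos π y /
          (ab false (List.ofFn l)).2) + Real.log (ab false (List.ofFn l)).1) (2 * i + 4) ok hE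
          (by positivity))
        simp only [hNear, mem_filter, Real.log_div (hB.pos_pos π N x).ne' a1.ne'] at hx ⊢
        rwa [abs_sub_comm, show ∀ a b c : ℝ, a - b - c = a - (c + b) from fun _ _ _ => by ring]
          at hx)
    rw [← mul_sum, sum_comm]
    have h2 : ∑ x0, ∑ r ∈ π.PP, ∑ x1, (if Bad r l x0 x1 then w x0 * w x1 else 0) ≤
        ∑ x0, ∑ x1, (if Near l x0 x1 then w x0 * w x1 else 0) := sum_le_sum fun x0 _ => by
      rw [sum_comm]
      exact sum_le_sum fun x1 _ => one l hl x0 x1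
    have h3 : (0 : ℝ) ≤ (1 / (#π.PP : ℝ)) ^ i := by positivity
    nlinarith [mul_le_mul_of_nonneg_left (h2.trans h1) h3]
  refine (sum_le_sum fin).trans (le_of_eq ?_)
  rw [sum_const, hL, Fintype.card_piFinset, prod_const, card_univ, Fintype.card_fin, nsmul_eq_mul]
  push_cast
  rw [← mul_assoc, ← mul_pow, mul_one_div_cancel c0.ne', one_pow, one_mul]

end Pool.Agent.Lib.MP_028aa5_nt.T
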