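import Pool.Agent.Lib.MP_028aa5_nt.T.St4

/-! Low and high frequencies of a convolution. -/

namespace Pool.Agent.Lib.MP_028aa5_nt.T

open Finset
open scoped ComplexConjugate Classical

namespace Conv

/-- finite Fourier series -/
noncomputable def fs (W : Finset ℤ) (f : ℤ → ℂ) (θ : ℝ) : ℂ := ∑ v ∈ W, f v * e (-θ * v)

lemma e_cont : Continuous e := by
  unfold e
  fun_prop

lemma fs_cont (W : Finset ℤ) (f : ℤ → ℂ) : Continuous (fs W f) := by
  unfold fs
  refine continuous_finsetSum _ fun v _ => continuous_const.mul (e_cont.comp ?_)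
  fun_prop

lemma orth (m : ℤ) : ∫ θ in (-(1 / 2) : ℝ)..(1 / 2), e (θ * m) = if m = 0 then 1 else 0 := by
  split_ifs with h
  · subst h
    simp
    norm_num
  · have hc : (2 * Real.pi * Complex.I * m : ℂ) ≠ 0 := by
      have h1 : (m : ℂ) ≠ 0 := by exact_mod_cast h
      have h2 : (Real.pi : ℂ) ≠ 0 := by exact_mod_cast Real.pi_ne_zero
      exact mul_ne_zero (mul_ne_zero (mul_ne_zero two_ne_zero h2) Complex.I_ne_zero) h1
    have e1 : ∀ θ : ℝ, e (θ * m) = Complex.exp ((2 * Real.pi * Complex.I * m : ℂ) * θ) := by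
      intro θ
      unfold e
      congr 1
      push_cast
      ring
    simp only [e1]
    rw [integral_exp_mul_complex hc, ← e1, ← e1]
    have e2 : e ((1 / 2 : ℝ) * m) = e (-(1 / 2 : ℝ) * m) := by
      rw [← e_sub_int ((1 / 2 : ℝ) * m) m]
      congr 1
      ring
    rw [e2, sub_self, zero_div]

lemma parseval (W : Finset ℤ) (f : ℤ → ℂ) :
    ∫ θ in (-(1 / 2) : ℝ)..(1 / 2), ‖fs W f θ‖ ^ 2 = ∑ v ∈ W, ‖f v‖ ^ 2 := by
  have h1 : ∀ θ : ℝ, ((‖fs W f θ‖ ^ 2 : ℝ) : ℂ) =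
      ∑ v ∈ W, ∑ w ∈ W, (f v * conj (f w)) * e (θ * ((w - v : ℤ) : ℝ)) := by
    intro θ
    rw [Complex.ofReal_pow, ← Complex.mul_conj', fs, map_sum, sum_mul_sum]
    refine sum_congr rfl fun v _ => sum_congr rfl fun w _ => ?_
    rw [map_mul, mul_mul_mul_comm, e_mul_conj]
    congr 2
    push_cast
    ring
  have hint : ∀ (c : ℂ) (m : ℤ), IntervalIntegrable (fun θ : ℝ => c * e (θ * m))
      MeasureTheory.volume (-(1 / 2)) (1 / 2) := fun c m =>
    (continuous_const.mul (e_cont.comp (continuous_id.mul continuous_const))).intervalIntegrable _ _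
  apply Complex.ofReal_injective
  rw [← intervalIntegral.integral_ofReal]
  simp only [h1]
  rw [intervalIntegral.integral_finsetSum]
  · rw [Complex.ofReal_sum]
    refine sum_congr rfl fun v hv => ?_
    rw [intervalIntegral.integral_finsetSum fun w _ => hint _ _]
    simp only [intervalIntegral.integral_const_mul, orth]
    rw [sum_eq_single v]
    · rw [sub_self, if_pos rfl, mul_one, Complex.mul_conj', Complex.ofReal_pow]
    · intro w _ hw
      rw [if_neg (sub_ne_zero.2 hw), mul_zero]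
    · intro h
      exact absurd hv h
  · intro v _
    refine Continuous.intervalIntegrable ?_ _ _
    exact continuous_finsetSum _ fun w _ =>
      continuous_const.mul (e_cont.comp (continuous_id.mul continuous_const))

lemma fs_shift (V W : Finset ℤ) (B : ℤ → ℂ) (s : ℤ) (θ : ℝ) (hB : ∀ v, v ∉ V → B v = 0)
    (hW : ∀ u ∈ V, u - s ∈ W) : fs W (fun v => B (v + s)) θ = e (θ * s) * fs V B θ := by
  unfold fs
  have h1 : V.image (fun u => u - s) ⊆ W := by
    intro v hv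
    obtain ⟨u, hu, rfl⟩ := mem_image.1 hv
    exact hW u hu
  rw [← sum_subset h1, sum_image fun u _ u' _ h => sub_left_injective h, mul_sum]
  · refine sum_congr rfl fun u _ => ?_
    beta_reduce
    rw [sub_add_cancel, mul_left_comm, ← e_add]
    congr 2
    push_cast
    ring
  · intro v _ hv
    beta_reduce
    rw [hB (v + s) fun h => hv (mem_image.2 ⟨v + s, h, add_sub_cancel_right v s⟩), zero_mul]

lemma fs_conv (I : Finset ℕ) (a : ℕ → ℂ) (x : ℕ → ℤ) (V W : Finset ℤ) (B : ℤ → ℂ) (r : ℤ) (θ : ℝ)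
    (hB : ∀ v, v ∉ V → B v = 0) (hW : ∀ u ∈ V, ∀ n ∈ I, u - (r - x n) ∈ W) :
    fs W (fun v => ∑ n ∈ I, a n * B (v + r - x n)) θ =
      e (θ * r) * ((∑ n ∈ I, a n * e (-θ * x n)) * fs V B θ) := by
  have h1 : fs W (fun v => ∑ n ∈ I, a n * B (v + r - x n)) θ =
      ∑ n ∈ I, a n * fs W (fun v => B (v + (r - x n))) θ := by
    simp only [fs, sum_mul, mul_sum]
    rw [sum_comm]
    refine sum_congr rfl fun n _ => sum_congr rfl fun v _ => ?_
    rw [add_sub_assoc, mul_assoc]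
  rw [h1, sum_mul, mul_sum]
  refine sum_congr rfl fun n hn => ?_
  rw [fs_shift V W B _ θ hB fun u hu => hW u hu n hn]
  have h2 : e (θ * ((r - x n : ℤ) : ℝ)) = e (θ * r) * e (-θ * x n) := by
    rw [← e_add]
    congr 1
    push_cast
    ring
  rw [h2]
  ring

lemma fs_sub (W : Finset ℤ) (f g : ℤ → ℂ) (θ : ℝ) :
    fs W (fun v => f v - g v) θ = fs W f θ - fs W g θ := by
  simp only [fs, sub_mul, sum_sub_distrib]

lemma geo (θ : ℝ) (n : ℕ) : (∑ r ∈ range n, e (θ * r)) * (e θ - 1) = e (θ * n) - 1 := by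
  induction n with
  | zero => simp
  | succ n ih =>
    rw [sum_range_succ, add_mul, ih, mul_sub, ← e_add]
    push_cast
    rw [mul_add, mul_one, mul_one]
    ring

lemma avg (θ : ℝ) (n : ℕ) (hn : 1 ≤ n) (h1 : 1 / (n : ℝ) ≤ |θ|) (h2 : |θ| ≤ 1 / 2) :
    (n : ℝ) ≤ ∑ r ∈ range n, ‖e (θ * r) - 1‖ ^ 2 := by
  have hn' : (0 : ℝ) < n := by exact_mod_cast hn
  have h3 : ‖∑ r ∈ range n, e (θ * r)‖ * ‖e θ - 1‖ ≤ 2 := by
    rw [← norm_mul, geo]
    refine (norm_sub_le _ _).trans ?_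
    rw [norm_e, norm_one]
    norm_num
  have h4 := le_norm_e_sub_one h2
  have h5 : ‖∑ r ∈ range n, e (θ * r)‖ ≤ n / 2 := by
    rw [div_le_iff₀ hn'] at h1
    have h0 := norm_nonneg (∑ r ∈ range n, e (θ * r))
    have h6 : ‖∑ r ∈ range n, e (θ * r)‖ * (4 * |θ|) ≤ 2 :=
      (mul_le_mul_of_nonneg_left h4 h0).trans h3
    nlinarith [mul_le_mul_of_nonneg_left h1 h0]
  have h6 : ∀ r : ℕ, ‖e (θ * r) - 1‖ ^ 2 = 2 - 2 * (e (θ * r)).re := by
    intro r
    have h7 := norm_e (θ * r)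
    rw [← Complex.normSq_eq_norm_sq, Complex.normSq_sub, Complex.normSq_eq_norm_sq, h7]
    simp
    ring
  simp only [h6, sum_sub_distrib, sum_const, card_range, nsmul_eq_mul, ← mul_sum]
  rw [← Complex.re_sum]
  have h8 := Complex.re_le_norm (∑ r ∈ range n, e (θ * r))
  linarith

end Conv

open Pool.Agent.Lib.MP_028aa5_nt.T.Conv

theorem st_Conv : ConvSt := by
  intro I a x B V r0 a0 Bd hr0 hB ha hd U
  have hr : (0 : ℝ) < r0 := by exact_mod_cast hr0
  obtain ⟨W, hUW, hW⟩ : ∃ W : Finset ℤ, U ⊆ W ∧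
      ∀ r : ℕ, r < r0 → ∀ u ∈ V, ∀ n ∈ I, u - (r - x n) ∈ W := by
    refine ⟨U ∪ (V ×ˢ I ×ˢ range r0).image fun t => t.1 - (t.2.2 - x t.2.1), subset_union_left, ?_⟩
    intro r hr u hu n hn
    exact mem_union_right _ (mem_image.2 ⟨(u, n, r),
      mem_product.2 ⟨hu, mem_product.2 ⟨hn, mem_range.2 hr⟩⟩, rfl⟩)
  have hH : ∀ θ : ℝ, fs W (fun v => ∑ n ∈ I, a n * B (v - x n)) θ =
      (∑ n ∈ I, a n * e (-θ * x n)) * fs V B θ := by
    intro θ
    have h := fs_conv I a x V W B 0 θ hB (by simpa using hW 0 hr0)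
    simpa using h
  have hD : ∀ r : ℕ, r < r0 → ∀ θ : ℝ,
      fs W (fun v => ∑ n ∈ I, a n * B (v + r - x n) - ∑ n ∈ I, a n * B (v - x n)) θ =
        (e (θ * r) - 1) * fs W (fun v => ∑ n ∈ I, a n * B (v - x n)) θ := by
    intro r hr θ
    rw [fs_sub, fs_conv I a x V W B r θ hB (hW r hr), hH, Int.cast_natCast]
    ring
  have hpt : ∀ θ ∈ Set.Icc (-(1 / 2) : ℝ) (1 / 2),
      ‖fs W (fun v => ∑ n ∈ I, a n * B (v - x n)) θ‖ ^ 2 ≤ a0 ^ 2 * ‖fs V B θ‖ ^ 2 +
        (r0 : ℝ)⁻¹ * ∑ r ∈ range r0, ‖fs W (fun v =>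
          ∑ n ∈ I, a n * B (v + r - x n) - ∑ n ∈ I, a n * B (v - x n)) θ‖ ^ 2 := by
    intro θ hθ
    rcases le_total |θ| (1 / r0) with h | h
    · refine le_add_of_le_of_nonneg ?_ (by positivity)
      rw [hH, norm_mul, mul_pow]
      exact mul_le_mul_of_nonneg_right (pow_le_pow_left₀ (norm_nonneg _) (ha θ h) 2) (sq_nonneg _)
    · refine le_add_of_nonneg_of_le (by positivity) ?_
      rw [sum_congr rfl fun r hr => by rw [hD r (mem_range.1 hr) θ, norm_mul, mul_pow], ← sum_mul,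
        ← mul_assoc]
      refine le_mul_of_one_le_left (sq_nonneg _) ?_
      rw [← div_eq_inv_mul, one_le_div hr]
      exact avg θ r0 hr0 h (abs_le.2 hθ)
  have hc : ∀ (W : Finset ℤ) (f : ℤ → ℂ), Continuous fun θ => ‖fs W f θ‖ ^ 2 := fun W f =>
    (fs_cont W f).norm.pow 2
  have hi1 : IntervalIntegrable (fun θ => a0 ^ 2 * ‖fs V B θ‖ ^ 2) MeasureTheory.volume
      (-(1 / 2)) (1 / 2) := (continuous_const.mul (hc _ _)).intervalIntegrable _ _
  have hi2 : IntervalIntegrable (fun θ => (r0 : ℝ)⁻¹ * ∑ r ∈ range r0, ‖fs W (fun v =>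
      ∑ n ∈ I, a n * B (v + r - x n) - ∑ n ∈ I, a n * B (v - x n)) θ‖ ^ 2) MeasureTheory.volume
      (-(1 / 2)) (1 / 2) :=
    (continuous_const.mul (continuous_finsetSum _ fun r _ => hc _ _)).intervalIntegrable _ _
  have hI := intervalIntegral.integral_mono_on (μ := MeasureTheory.volume)
    (by norm_num : (-(1 / 2) : ℝ) ≤ 1 / 2) ((hc _ _).intervalIntegrable _ _) (hi1.add hi2) hpt
  rw [intervalIntegral.integral_add hi1 hi2, intervalIntegral.integral_const_mul,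
    intervalIntegral.integral_const_mul,
    intervalIntegral.integral_finsetSum fun r _ => (hc _ _).intervalIntegrable _ _] at hI
  simp only [parseval] at hI
  have h1 : ∑ v ∈ U, ‖∑ n ∈ I, a n * B (v - x n)‖ ^ 2 ≤ ∑ v ∈ W, ‖∑ n ∈ I, a n * B (v - x n)‖ ^ 2 :=
    sum_le_sum_of_subset_of_nonneg hUW fun _ _ _ => sq_nonneg _
  have h2 : ∑ r ∈ range r0, ∑ v ∈ W,
      ‖∑ n ∈ I, a n * B (v + r - x n) - ∑ n ∈ I, a n * B (v - x n)‖ ^ 2 ≤ r0 * Bd := by
    refine (sum_le_sum fun r hr => hd r (mem_range.1 hr) W).trans (le_of_eq ?_)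
    rw [sum_const, card_range, nsmul_eq_mul]
  have h3 := mul_le_mul_of_nonneg_left h2 (inv_nonneg.2 hr.le)
  rw [inv_mul_cancel_left₀ hr.ne'] at h3
  linarith

end Pool.Agent.Lib.MP_028aa5_nt.T
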