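import Pool.Agent.Lib.MP_028aa5_nt.T.St5

/-! From the stable scale to one component. -/

namespace Pool.Agent.Lib.MP_028aa5_nt.T

open Finset
open scoped ComplexConjugate Classical

namespace CoreA

theorem pw_le {u : ℝ} (h0 : 0 ≤ u) (h1 : u ≤ 1) (k : ℕ) : (1 + u) ^ k - 1 ≤ u * (2 ^ k - 1) := by
  induction k with
  | zero => simp
  | succ k ih =>
    have k1 : (0 : ℝ) ≤ 2 ^ k - 1 := sub_nonneg.2 (one_le_pow₀ one_le_two)
    rw [pow_succ, pow_succ]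
    nlinarith [mul_le_mul_of_nonneg_right ih (add_nonneg zero_le_one h0),
      mul_le_mul_of_nonneg_left h1 (mul_nonneg h0 k1)]

end CoreA

theorem st_CoreA (hI : IterXSt) (hL : LevXSt) (hBl : BlockSt) (hB : BasSt) (hR : RegSt)
    (hD : DenSt) : CoreASt := by
  intro k ε1 ρ2 hk h1 h2
  have k1 : (1 : ℝ) ≤ k := by exact_mod_cast hk
  obtain ⟨a, a0, a1, a2⟩ : ∃ a : ℝ, 0 < a ∧ a ≤ ε1 ∧ a ≤ 1 / 2 :=
    ⟨min ε1 (1 / 2), by positivity, min_le_left _ _, min_le_right _ _⟩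
  obtain ⟨ε, e0, e1, e2⟩ : ∃ ε : ℝ, 0 < ε ∧ ε ≤ a / 16 ∧ ε ≤ 1 / 200 :=
    ⟨min (a / 16) (1 / 200), by positivity, min_le_left _ _, min_le_right _ _⟩
  obtain ⟨tm, t1, t2⟩ : ∃ tm : ℕ, 1 ≤ tm ∧ 1 / (tm : ℝ) ≤ a / 8 := by
    have t0 : 0 < 8 / a := by positivity
    exact ⟨⌈8 / a⌉₊, Nat.ceil_pos.2 t0,
      (one_div_le_one_div_of_le t0 (Nat.le_ceil _)).trans_eq (one_div_div _ _)⟩
  obtain ⟨L, l1, l2⟩ : ∃ L : ℕ, 1 ≤ L ∧ (k : ℝ) / L ≤ a / 4 := by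
    have t0 : 0 < 4 * k / a := by positivity
    refine ⟨⌈4 * k / a⌉₊, Nat.ceil_pos.2 t0,
      (div_le_div_of_nonneg_left (by positivity) t0 (Nat.le_ceil _)).trans_eq ?_⟩
    field_simp
  have l0 : (0 : ℝ) < L := by exact_mod_cast l1
  obtain ⟨ρ, r0, r1, r2⟩ : ∃ ρ : ℝ, 0 < ρ ∧ ρ ≤ 1 ∧ k * L * (10 ^ k * ρ) ≤ ρ2 := by
    refine ⟨min 1 (ρ2 / (k * L * 10 ^ k)), by positivity, min_le_left _ _, ?_⟩
    rw [← mul_assoc, ← le_div_iff₀' (by positivity)]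
    exact min_le_right _ _
  refine ⟨ε, ρ, e0, r0, r1, fun M C D c hM hD0 hc => ?_⟩
  obtain ⟨X1, H1⟩ := hI k M C D ε hk hM hD0 e0 e2
  obtain ⟨X2, H2⟩ := hL k M tm C D c hk hM t1 hD0 hc
  obtain ⟨y0, H3⟩ := hR.poly (64 * c / a ^ 2) (9 / 10) 3 (by norm_num)
  obtain ⟨K, K1, K2, K3, K4⟩ : ∃ K : ℝ, y0 ≤ K ∧ 4 ≤ K ∧ 4 * 18 ^ k / ρ ≤ K ∧ 9 ^ k + ρ2 ≤ K :=
    ⟨max (max y0 4) (max (4 * 18 ^ k / ρ) (9 ^ k + ρ2)), by simp, by simp, by simp, by simp⟩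
  obtain ⟨X3, H4⟩ := hR.base k C D K hk hD0
  refine ⟨max X1 (max X2 X3), fun X hX π N E φ Y Nc Jm hπ hπM hr hE hv hy c1 c2 c3 c4 c5 c6 c7 => ?_⟩
  simp only [ge_iff_le, max_le_iff] at hX
  obtain ⟨b1, b2, b3, b4, b5, -, b6, -, b7⟩ := H4 X hX.2.2 π hπ hr
  obtain ⟨R, E1, φ', i1, i2, i3, i4, i5⟩ := H1 X hX.1 π N E φ ρ Y hπ hπM hr hE r0.le r1 hv hy
    (fun x => (c6 x).1) c5
  have ok := hr.ok
  obtain ⟨E2, γ, τ, j1, j2, j3, j4⟩ := H2 X hX.2.1 π N E1 φ' ρ Y (2 * ε) R Nc hπ hπM hr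
    (hB.mono π N E E1 hE i2) r0.le r1 i4 i5 (by linarith) i1 c1 c2 c3 c4
    ((one_le_pow₀ (by linarith [ok.P])).trans c5) c6
  subst hπ
  have x1 : 1 ≤ X := by linarith
  have x0 : 0 < X := by linarith
  have κ0 : 0 < π.κ := lt_of_lt_of_le (by positivity) hr.κlo
  have s1 : √(c * Real.log X / #π.PP) ≤ a / 8 := by
    have p0 : (0 : ℝ) < #π.PP := by exact_mod_cast ok.ne.card_pos
    have s2 := (mul_le_mul_of_nonneg_left b5 (show 0 ≤ 64 * c / a ^ 2 by positivity)).trans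
      ((H3 π.P (K1.trans b4)).trans b6)
    rw [div_mul_eq_mul_div, div_le_iff₀ (by positivity)] at s2
    rw [Real.sqrt_le_left (by positivity), div_le_iff₀ p0]
    linarith
  have s2 : 1 - a ≤ 1 - 2 * (2 * ε) - 2 / tm - 2 * √(c * Real.log X / #π.PP) - π.k / L := by
    rw [div_eq_mul_one_div 2]
    linarith
  have x7 : 1 ≤ X ^ (7 * π.k) := one_le_pow₀ x1
  have u1 : π.κ0 / π.κ * X ^ (7 * π.k) * X ≤ 1 := by
    have u2 : π.κ0 * X ^ (7 * π.k + 4) = 1 := by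
      rw [hr.κ0, ← Real.rpow_natCast, ← Real.rpow_add x0]
      simp
    rw [div_mul_eq_mul_div, div_mul_eq_mul_div, div_le_one κ0]
    refine le_of_mul_le_mul_right ?_ (pow_pos x0 3)
    rw [pow_add] at u2
    have u4 := mul_le_mul ((div_le_iff₀ x0).1 hr.κlo) (one_le_pow₀ x1 (n := 2)) zero_le_one
      (by positivity)
    linarith
  have u0 : 0 ≤ π.κ0 / π.κ := div_nonneg ok.κ0.le κ0.le
  obtain ⟨q, hq, γ0, t, vU, vL, Gd, m1, m2, m3⟩ := hBl π N E2 γ τ (X ^ c) (X ^ (7 * π.k)) ρ _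
    (c * Real.log X) L Jm ok (hB.mono π N E E2 hE (j1.trans i2)) r0 j3 j4 l1
    (by
      have := mul_le_mul_of_nonneg_right (mul_le_mul K2 (K2.trans b2) (by norm_num) (by linarith))
        κ0.le
      linarith [hB.κ1_le π ok])
    (by
      rw [Real.log_rpow x0]
      exact le_mul_of_one_le_right (mul_nonneg hc.le (by linarith)) (by linarith))
    (mul_pos hc (by linarith)) (by linarith)
    (by
      rw [mul_div_assoc]
      generalize π.κ0 / π.κ = u at u0 u1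
      have v1 : 4 * u ≤ 1 := by
        nlinarith [mul_le_mul_of_nonneg_left (mul_le_mul x7 (K2.trans b1) (by norm_num)
          (by linarith)) u0]
      refine (mul_le_mul_of_nonneg_right ((CoreA.pw_le (by linarith) v1 _).trans
        (mul_le_mul_of_nonneg_left (sub_le_self _ zero_le_one) (by linarith)))
        (by positivity)).trans (le_of_mul_le_mul_right ?_ x0)
      have v2 := (div_le_iff₀ r0).1 (K3.trans b1)
      have v3 := mul_le_mul_of_nonneg_left u1 (show (0 : ℝ) ≤ 4 * 18 ^ π.k by positivity)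
      rw [show (18 : ℝ) = 2 * 9 by norm_num, mul_pow] at v2 v3
      linarith) c7
  refine ⟨E2, γ, τ, q, hq, γ0, t, vU, vL, Gd, j1.trans i2,
    fun x => j2 x ▸ hD.symm _ _ _ (i3 x), m1, m2.trans ?_, m3.den, m3.nU, m3.nL, m3.pos,
    le_trans (mul_le_mul_of_nonneg_right (by linarith) m3.pos.le) m3.ray, fun g hg => ?_, m3.sU,
    fun j b hb => ?_⟩
  · rw [pow_succ]
    nlinarith [mul_le_mul_of_nonneg_left (K4.trans b1) (zero_le_one.trans x7),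
      mul_le_mul_of_nonneg_right x7 h2.le]
  · obtain ⟨g1, e, g2, g3, g4, g5, g6⟩ := m3.gd g hg
    exact ⟨g1, e, g2, g3, g4, g5, g6.trans r2⟩
  · obtain ⟨e, g2, g3, g4, g5⟩ := m3.sL j b hb
    exact ⟨e, g2, g3, g4, g5.trans r2⟩

end Pool.Agent.Lib.MP_028aa5_nt.T
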