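import Pool.Agent.Lib.MP_028aa5_nt.T.St2

/-! Cutting along a growing family of sets. -/

namespace Pool.Agent.Lib.MP_028aa5_nt.T

open Finset
open scoped ComplexConjugate Classical

namespace Cut

lemma mono {W : Type} {G : ℕ → W → Prop} (h : ∀ t x, G t x → G (t + 1) x) {s t : ℕ} (hst : s ≤ t)
    {x : W} (hx : G s x) : G t x := by
  induction t, hst using Nat.le_induction with
  | base => exact hx
  | succ t _ ih => exact h t x ih

lemma split {ι : Type} (E : Finset ι) (a b : ι → Prop) (f : ι → ℝ) :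
    ∑ e ∈ E, f e = ∑ e ∈ E with a e ∧ b e, f e + ∑ e ∈ E with ¬(a e ↔ b e), f e +
      ∑ e ∈ E with ¬a e ∧ ¬b e, f e := by
  simp only [sum_filter, ← sum_add_distrib]
  refine sum_congr rfl fun e _ => ?_
  by_cases ha : a e <;> by_cases hb : b e <;> simp [ha, hb]

end Cut

open Cut

theorem st_Cut (hB : BasSt) : CutSt := by
  intro π N E G ε tm ok hI ⟨u, u0, hu⟩ t1 hε g1 g2 g3 hO
  have ν0 := hB.ν_pos π ok
  have tm0 : (0 : ℝ) < tm := by exact_mod_cast t1
  set w : N.W → ℝ := fun x => |u x| with hw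
  have w0 : ∀ x, 0 ≤ w x := fun x => abs_nonneg _
  have wS : ∑ x, w x ^ 2 = ∑ x, u x ^ 2 := sum_congr rfl fun x _ => sq_abs _
  set S := ∑ x, u x ^ 2 with hS
  have a1 : N.Qf π.ν E u ≤ N.Qf π.ν E w := by
    refine mul_le_mul_of_nonneg_left (sum_le_sum fun e _ => ?_) (by positivity)
    rw [hw, ← abs_mul]
    exact le_abs_self _
  have a2 : N.Qf π.ν E w ≤ S := wS ▸ hB.Qf_le π N E w ok hI
  have a3 : ∑ t ∈ range tm, N.Qf π.ν {e ∈ E | ¬(G t (N.up e) ↔ G t (N.lo e))} w ≤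
      ∑ _t ∈ range tm, S / tm := by
    rw [sum_const, card_range, nsmul_eq_mul, mul_div_cancel₀ _ tm0.ne']
    refine le_trans ?_ a2
    unfold Net.Qf
    rw [← mul_sum]
    refine mul_le_mul_of_nonneg_left ?_ (by positivity)
    have key : ∀ s t, s < t → Disjoint {e ∈ E | ¬(G s (N.up e) ↔ G s (N.lo e))}
        {e ∈ E | ¬(G t (N.up e) ↔ G t (N.lo e))} := by
      intro s t hst
      rw [disjoint_left]
      intro e h1 h2
      obtain ⟨he, h1⟩ := mem_filter.1 h1
      refine (mem_filter.1 h2).2 ?_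
      by_cases c : G s (N.up e)
      · exact iff_of_true (mono g1 hst.le c) (mono g1 hst (g2 s e he c))
      · have c' : G s (N.lo e) := by tauto
        exact iff_of_true (mono g1 hst (g3 s e he c')) (mono g1 hst.le c')
    rw [← sum_biUnion]
    · refine sum_le_sum_of_subset_of_nonneg (biUnion_subset.2 fun t _ => filter_subset _ _)
        fun e _ _ => mul_nonneg (w0 _) (w0 _)
    · intro s _ t _ hst
      rcases lt_or_gt_of_ne hst with h | h
      · exact key s t h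
      · exact (key t s h).symm
  obtain ⟨t, ht, a4⟩ := exists_le_of_sum_le ⟨0, mem_range.2 t1⟩ a3
  refine ⟨t, mem_range.1 ht, ?_⟩
  set w1 : N.W → ℝ := fun x => if G t x then w x else 0 with hw1
  set w2 : N.W → ℝ := fun x => if G t x then 0 else w x with hw2
  have b1 : ∑ x, w1 x ^ 2 + ∑ x, w2 x ^ 2 = S := by
    rw [← wS, ← sum_add_distrib]
    refine sum_congr rfl fun x _ => ?_
    by_cases c : G t x <;> simp [hw1, hw2, c]
  have b2 : N.Qf π.ν E w = N.Qf π.ν {e ∈ E | G t (N.up e) ∧ G t (N.lo e)} w1 +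
      N.Qf π.ν {e ∈ E | ¬(G t (N.up e) ↔ G t (N.lo e))} w +
      N.Qf π.ν {e ∈ E | ¬G t (N.up e) ∧ ¬G t (N.lo e)} w2 := by
    unfold Net.Qf
    rw [← mul_add, ← mul_add, split E (fun e => G t (N.up e)) fun e => G t (N.lo e)]
    have d1 : ∑ e ∈ E with G t (N.up e) ∧ G t (N.lo e), w (N.up e) * w (N.lo e) =
        ∑ e ∈ E with G t (N.up e) ∧ G t (N.lo e), w1 (N.up e) * w1 (N.lo e) := by
      refine sum_congr rfl fun e he => ?_
      have := (mem_filter.1 he).2
      simp [hw1, this.1, this.2]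
    have d2 : ∑ e ∈ E with ¬G t (N.up e) ∧ ¬G t (N.lo e), w (N.up e) * w (N.lo e) =
        ∑ e ∈ E with ¬G t (N.up e) ∧ ¬G t (N.lo e), w2 (N.up e) * w2 (N.lo e) := by
      refine sum_congr rfl fun e he => ?_
      have := (mem_filter.1 he).2
      simp [hw2, this.1, this.2]
    rw [d1, d2]
  have p1 : 0 ≤ ∑ x, w1 x ^ 2 := sum_nonneg fun _ _ => sq_nonneg _
  have p2 : 0 ≤ ∑ x, w2 x ^ 2 := sum_nonneg fun _ _ => sq_nonneg _
  have b3 : N.Qf π.ν {e ∈ E | ¬G t (N.up e) ∧ ¬G t (N.lo e)} w2 ≤ 1 / 2 * ∑ x, w2 x ^ 2 := by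
    rcases p2.eq_or_lt with h | h
    · have := hB.Qf_le π N _ w2 ok
        (hB.mono π N E {e ∈ E | ¬G t (N.up e) ∧ ¬G t (N.lo e)} hI (filter_subset _ _))
      linarith
    · by_contra hc
      obtain ⟨e, he, h0⟩ := hO _ (filter_subset _ _) ⟨w2, h, (not_le.1 hc).le⟩
      have := (mem_filter.1 he).2
      exact h0.elim (fun c => this.1 (mono g1 t.zero_le c)) fun c => this.2 (mono g1 t.zero_le c)
  have b4 := hB.Qf_le π N _ w1 ok
    (hB.mono π N E {e ∈ E | G t (N.up e) ∧ G t (N.lo e)} hI (filter_subset _ _))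
  have e0 : 0 ≤ ε := by
    by_contra hc
    nlinarith [mul_pos (neg_pos.2 (not_le.1 hc)) u0]
  have i0 : 0 < 1 / (tm : ℝ) := by positivity
  rw [div_eq_mul_one_div S] at a4
  rw [div_eq_mul_one_div 2]
  generalize 1 / (tm : ℝ) = τ at *
  have c1 := mul_pos (sub_pos.2 hε) u0
  have c2 := mul_nonneg (sub_pos.2 hε).le p2
  have c3 := mul_nonneg (add_nonneg e0 i0.le) p1
  refine ⟨w1, by nlinarith, ?_⟩
  rw [← b1] at hu a4
  nlinarith

end Pool.Agent.Lib.MP_028aa5_nt.T
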