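import Pool.Agent.Lib.MP_028aa5_nt.T.St2

/-! The digit lemma. -/

namespace Pool.Agent.Lib.MP_028aa5_nt.T

open Finset
open scoped ComplexConjugate Classical

namespace Dig

theorem sym (N : Net) (ν : ℝ) (E : Finset N.Ed) (u v : N.W → ℝ) :
    ∑ x, u x * N.opB ν E v x =
      ν * ∑ e ∈ E, (u (N.lo e) * v (N.up e) + u (N.up e) * v (N.lo e)) := by
  have h : ∀ (a b : N.Ed → N.W), ∑ x, u x * ∑ e ∈ E with a e = x, v (b e) =
      ∑ e ∈ E, u (a e) * v (b e) := by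
    intro a b
    rw [← Finset.sum_fiberwise E a fun e => u (a e) * v (b e)]
    refine Finset.sum_congr rfl fun x _ => ?_
    rw [Finset.mul_sum]
    refine Finset.sum_congr rfl fun e he => ?_
    rw [(Finset.mem_filter.1 he).2]
  rw [Finset.sum_add_distrib, ← h N.lo N.up, ← h N.up N.lo, ← Finset.sum_add_distrib,
    Finset.mul_sum]
  refine Finset.sum_congr rfl fun x _ => ?_
  rw [Net.opB]
  ring

theorem log_sq {A B : ℝ} (hA : 0 < A) (hB : 0 < B) :
    (Real.log A - Real.log B) ^ 2 ≤ A / B + B / A - 2 := by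
  set z := (Real.log A - Real.log B) / 2 with hz
  have h1 : |z| ≤ |Real.sinh z| := by
    rw [Real.abs_sinh]
    exact Real.self_le_sinh_iff.2 (abs_nonneg z)
  have h2 : z ^ 2 ≤ Real.sinh z ^ 2 := sq_le_sq.2 h1
  have h3 : Real.exp z * Real.exp z = A / B := by
    rw [← Real.exp_add, show z + z = Real.log A - Real.log B by rw [hz]; ring, Real.exp_sub,
      Real.exp_log hA, Real.exp_log hB]
  have h4 : Real.exp (-z) * Real.exp (-z) = B / A := by
    rw [← Real.exp_add, show -z + -z = Real.log B - Real.log A by rw [hz]; ring, Real.exp_sub,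
      Real.exp_log hA, Real.exp_log hB]
  have h5 : Real.exp z * Real.exp (-z) = 1 := by rw [← Real.exp_add]; simp
  rw [Real.sinh_eq] at h2
  have h6 : Real.log A - Real.log B = 2 * z := by rw [hz]; ring
  rw [h6, ← h3, ← h4]
  nlinarith

/-- the clamp to the unit interval -/
noncomputable def cl (y : ℝ) : ℝ := max 0 (min 1 y)

theorem cl_nonneg (y : ℝ) : 0 ≤ cl y := le_max_left _ _

theorem cl_le (y : ℝ) : cl y ≤ 1 := max_le zero_le_one (min_le_left _ _)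

theorem cl_one {y : ℝ} (h : 1 ≤ y) : cl y = 1 := by
  rw [cl, min_eq_left h, max_eq_right zero_le_one]

theorem cl_zero {y : ℝ} (h : y ≤ 0) : cl y = 0 :=
  max_eq_left ((min_le_right _ _).trans h)

theorem cl_sq (a b : ℝ) : (cl a - cl b) ^ 2 ≤ (a - b) ^ 2 := by
  have h := ((LipschitzWith.id.const_min (1 : ℝ)).const_max 0).dist_le_mul a b
  rw [Real.dist_eq, Real.dist_eq] at h
  refine sq_le_sq.2 ?_
  simpa [cl] using h

/-- the inequality on one edge -/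
theorem edge {p q P Q c Λ : ℝ} (hp : 0 ≤ p) (hq : 0 ≤ q) (hP : 0 ≤ P) (hQ : 0 ≤ Q)
    (hpP : 0 < p → 0 < P) (hqQ : 0 < q → 0 < Q) (hΛ : 0 < Λ) :
    2 * (p * q) + Λ ^ 2 * (p * q *
      (cl ((Real.log (P / p) - c) / Λ) - cl ((Real.log (Q / q) - c) / Λ)) ^ 2) ≤
      q ^ 2 / Q * P + p ^ 2 / P * Q := by
  rcases hp.eq_or_lt with rfl | hp
  · simp only [zero_mul, mul_zero, add_zero]
    positivity
  rcases hq.eq_or_lt with rfl | hq
  · simp only [zero_mul, mul_zero, add_zero]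
    positivity
  have hP := hpP hp
  have hQ := hqQ hq
  have h1 := log_sq (div_pos hP hp) (div_pos hQ hq)
  have h2 := cl_sq ((Real.log (P / p) - c) / Λ) ((Real.log (Q / q) - c) / Λ)
  have h3 : Λ ^ 2 * ((Real.log (P / p) - c) / Λ - (Real.log (Q / q) - c) / Λ) ^ 2 =
      (Real.log (P / p) - Real.log (Q / q)) ^ 2 := by
    field_simp
    ring
  have h4 : q ^ 2 / Q * P + p ^ 2 / P * Q = p * q * (P / p / (Q / q) + Q / q / (P / p)) := by
    field_simp
  have h5 := (mul_le_mul_of_nonneg_left h2 (sq_nonneg Λ)).trans (h3.le.trans h1)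
  have h6 := mul_le_mul_of_nonneg_left h5 (mul_pos hp hq).le
  rw [h4]
  linarith

theorem core (N : Net) (ν : ℝ) (E E' : Finset N.Ed) (w s Φ : N.W → ℝ) (lam ζ γ t Λ : ℝ)
    (hν : 0 ≤ ν) (hE : E' ⊆ E) (hw0 : ∀ x, 0 ≤ w x) (hw1 : ∑ x, w x ^ 2 = 1)
    (heig : ∀ x, N.opB ν E w x = lam * w x) (hl0 : 0 ≤ lam) (hl1 : lam ≤ 1)
    (hζ : lam - ζ ≤ N.Qf ν E' w) (hs0 : ∀ x, 0 ≤ s x) (hs : ∀ x, s x ≤ w x)
    (hγ : 1 - γ ≤ ∑ x, w x * s x) (hγ4 : γ ≤ 1 / 4) (ht : 0 < t) (hΛ : 0 < Λ)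
    (hΛt : Real.log (2 * t) + Λ ≤ Real.log (1 / 4)) (hΦ0 : ∀ x, 0 ≤ Φ x)
    (hsΦ : ∀ x, s x ≤ 2 * Φ x) (hΦw : ∀ x, Φ x + t * w x ≤ w x)
    (hop : ∀ x, N.opB ν E' (fun y => Φ y + t * w y) x ≤ lam * (2 * (Φ x + t * w x) - s x)) :
    0 ≤ ζ ∧ 0 ≤ γ ∧ ∃ u : N.W → ℝ, (∀ x, 0 ≤ u x ∧ t * u x ≤ Φ x) ∧ 1 / 2 ≤ ∑ x, u x ^ 2 ∧
      lam * ∑ x, u x ^ 2 - ζ - (γ + ζ) / Λ ^ 2 ≤ N.Qf ν E' u := by
  set Ψ : N.W → ℝ := fun y => Φ y + t * w y with hΨ
  have hΨ0 : ∀ x, 0 ≤ Ψ x := fun x => add_nonneg (hΦ0 x) (mul_nonneg ht.le (hw0 x))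
  have hΨp : ∀ x, 0 < w x → 0 < Ψ x := fun x hx =>
    add_pos_of_nonneg_of_pos (hΦ0 x) (mul_pos ht hx)
  let χ : N.W → ℝ := fun x => cl ((Real.log (Ψ x / w x) - Real.log (2 * t)) / Λ)
  have hχ0 : ∀ x, 0 ≤ χ x := fun x => cl_nonneg _
  have hχ1 : ∀ x, χ x ≤ 1 := fun x => cl_le _
  have hχ2 : ∀ x, 0 ≤ 1 - χ x ^ 2 := fun x => by nlinarith [hχ0 x, hχ1 x]
  have hγ0 : 0 ≤ γ := by
    have : ∑ x, w x * s x ≤ ∑ x, w x ^ 2 := Finset.sum_le_sum fun x _ => by
      rw [sq]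
      exact mul_le_mul_of_nonneg_left (hs x) (hw0 x)
    linarith
  -- sums over the larger edge set
  have hbig : ∀ g : N.W → ℝ, (∀ x, 0 ≤ g x) →
      ν * ∑ e ∈ E', (w (N.lo e) * g (N.lo e) * w (N.up e) + w (N.up e) * g (N.up e) * w (N.lo e)) ≤
        lam * ∑ x, w x ^ 2 * g x := by
    intro g hg
    have h1 := sym N ν E (fun x => w x * g x) w
    have h2 : ∑ x, w x * g x * N.opB ν E w x = lam * ∑ x, w x ^ 2 * g x := by
      rw [Finset.mul_sum]
      exact Finset.sum_congr rfl fun x _ => by rw [heig]; ring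
    rw [← h2, h1]
    refine mul_le_mul_of_nonneg_left (Finset.sum_le_sum_of_subset_of_nonneg hE fun e _ _ => ?_) hν
    have := hw0 (N.lo e)
    have := hw0 (N.up e)
    have := hg (N.lo e)
    have := hg (N.up e)
    positivity
  have hζ0 : 0 ≤ ζ := by
    have h1 := hbig (fun _ => 1) fun _ => zero_le_one
    simp only [mul_one] at h1
    rw [hw1] at h1
    have h2 : N.Qf ν E' w =
        ν * ∑ e ∈ E', (w (N.lo e) * w (N.up e) + w (N.up e) * w (N.lo e)) := by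
      rw [Net.Qf, Finset.mul_sum, Finset.mul_sum]
      exact Finset.sum_congr rfl fun e _ => by ring
    linarith
  -- the energy of the logarithm
  have hen : N.Qf ν E' w + Λ ^ 2 * (ν * ∑ e ∈ E', w (N.up e) * w (N.lo e) *
      (χ (N.up e) - χ (N.lo e)) ^ 2) ≤ lam * (1 + γ) := by
    have h1 := sym N ν E' (fun x => w x ^ 2 / Ψ x) Ψ
    have h2 : ∑ x, w x ^ 2 / Ψ x * N.opB ν E' Ψ x ≤ ∑ x, lam * (2 * w x ^ 2 - w x * s x) := by
      refine Finset.sum_le_sum fun x _ => ?_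
      refine (mul_le_mul_of_nonneg_left (hop x) (div_nonneg (sq_nonneg _) (hΨ0 x))).trans ?_
      rcases (hw0 x).eq_or_lt with h | h
      · simp [← h]
      · have a := hΨp x h
        have b : w x ≤ w x ^ 2 / Ψ x := by
          rw [le_div_iff₀ a, sq]
          exact mul_le_mul_of_nonneg_left (hΦw x) h.le
        have c : w x ^ 2 / Ψ x * Ψ x = w x ^ 2 := div_mul_cancel₀ _ a.ne'
        have d := mul_le_mul_of_nonneg_right b (hs0 x)
        change w x ^ 2 / Ψ x * (lam * (2 * Ψ x - s x)) ≤ _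
        rw [mul_left_comm]
        refine mul_le_mul_of_nonneg_left ?_ hl0
        linarith
    have h3 : ∑ x, lam * (2 * w x ^ 2 - w x * s x) ≤ lam * (1 + γ) := by
      rw [← Finset.mul_sum, Finset.sum_sub_distrib, ← Finset.mul_sum, hw1]
      exact mul_le_mul_of_nonneg_left (by linarith) hl0
    refine le_trans ?_ (h2.trans h3)
    rw [h1]
    have h4 : N.Qf ν E' w + Λ ^ 2 * (ν * ∑ e ∈ E', w (N.up e) * w (N.lo e) *
        (χ (N.up e) - χ (N.lo e)) ^ 2) = ν * ∑ e ∈ E', (2 * (w (N.up e) * w (N.lo e)) +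
          Λ ^ 2 * (w (N.up e) * w (N.lo e) * (χ (N.up e) - χ (N.lo e)) ^ 2)) := by
      rw [Net.Qf, Finset.sum_add_distrib, ← Finset.mul_sum, ← Finset.mul_sum]
      ring
    rw [h4]
    refine mul_le_mul_of_nonneg_left (Finset.sum_le_sum fun e _ => ?_) hν
    exact edge (hw0 _) (hw0 _) (hΨ0 _) (hΨ0 _) (hΨp _) (hΨp _) hΛ
  refine ⟨hζ0, hγ0, fun x => w x * χ x, fun x => ⟨mul_nonneg (hw0 x) (hχ0 x), ?_⟩, ?_, ?_⟩
  · rcases (hw0 x).eq_or_lt with h | h
    · simpa [← h] using hΦ0 x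
    by_cases hc : Φ x ≤ t * w x
    · have a : χ x = 0 := by
        refine cl_zero (div_nonpos_of_nonpos_of_nonneg (sub_nonpos.2 ?_) hΛ.le)
        refine Real.log_le_log (div_pos (hΨp x h) h) ?_
        rw [div_le_iff₀ h]
        change Φ x + t * w x ≤ _
        linarith
      simpa [a] using hΦ0 x
    · have a := mul_le_mul_of_nonneg_left (hχ1 x) (mul_pos ht h).le
      linarith [not_le.1 hc]
  · have h1 : ∑ x, (w x ^ 2 - (w x * χ x) ^ 2) ≤ ∑ x, 2 * (w x ^ 2 - w x * s x) := by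
      refine Finset.sum_le_sum fun x _ => ?_
      rcases (hw0 x).eq_or_lt with h | h
      · simp [← h]
      by_cases hc : w x ≤ 2 * s x
      · have a : χ x = 1 := by
          refine cl_one ?_
          rw [le_div_iff₀ hΛ, one_mul, le_sub_iff_add_le']
          refine hΛt.trans (Real.log_le_log (by norm_num) ?_)
          rw [le_div_iff₀ h]
          change _ ≤ Φ x + t * w x
          have := hsΦ x
          have := mul_pos ht h
          linarith
        rw [a]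
        have := mul_le_mul_of_nonneg_left (hs x) h.le
        nlinarith
      · have := mul_le_mul_of_nonneg_left (not_le.1 hc).le h.le
        nlinarith [sq_nonneg (w x * χ x)]
    rw [Finset.sum_sub_distrib, ← Finset.mul_sum, Finset.sum_sub_distrib, hw1] at h1
    linarith
  · have h1 := hbig (fun x => 1 - χ x ^ 2) hχ2
    have h2 : ∑ x, w x ^ 2 * (1 - χ x ^ 2) = 1 - ∑ x, (w x * χ x) ^ 2 := by
      rw [eq_sub_iff_add_eq, ← Finset.sum_add_distrib]
      exact (Finset.sum_congr rfl fun x _ => by ring).trans hw1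
    have h3 : N.Qf ν E' (fun x => w x * χ x) = N.Qf ν E' w -
        ν * ∑ e ∈ E', (w (N.lo e) * (1 - χ (N.lo e) ^ 2) * w (N.up e) +
          w (N.up e) * (1 - χ (N.up e) ^ 2) * w (N.lo e)) -
        ν * ∑ e ∈ E', w (N.up e) * w (N.lo e) * (χ (N.up e) - χ (N.lo e)) ^ 2 := by
      simp only [Net.Qf, Finset.mul_sum, ← Finset.sum_sub_distrib]
      exact Finset.sum_congr rfl fun e _ => by ring
    have h4 : ν * ∑ e ∈ E', w (N.up e) * w (N.lo e) * (χ (N.up e) - χ (N.lo e)) ^ 2 ≤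
        (γ + ζ) / Λ ^ 2 := by
      rw [le_div_iff₀ (pow_pos hΛ 2)]
      have := mul_le_mul_of_nonneg_right hl1 hγ0
      linarith
    rw [h2] at h1
    rw [h3]
    linarith

end Dig

theorem st_Dig (h1 : Dig1St) (h2 : Dig2St) : DigSt := by
  intro N D _ _ ν E E' T w σ lam ζ γ κc m hν hE hw0 hw1 heig hl0 hl1 hζ hσ0 hσ hγ hγ4 hm hκ hconf
  obtain ⟨F, hF0, f1, f2, f3, f4⟩ :=
    h1 N D ν E E' T w σ lam κc m hν hE hw0 heig hl0 hσ0 hσ hκ hconf
  obtain ⟨d, hd⟩ := h2 N D ν E' T F hν hF0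
  have hm' : (3 : ℝ) ≤ m := by exact_mod_cast hm
  have hlog : 0 < Real.log 2 := Real.log_pos (by norm_num)
  have hΛ : 0 < ((m : ℝ) - 2) * Real.log 2 := mul_pos (by linarith) hlog
  have e1 : ∀ y : ℝ, y / 2 ^ (m + 1) = 1 / 2 ^ (m + 1) * y := fun y => by ring
  simp only [e1 (w _)] at f2 f3
  obtain ⟨hζ0, hγ0, u, hu, hu2, hq⟩ := Dig.core N ν E E' w (fun x => ∑ d, σ x d)
    (fun x => ∑ d, F x d) lam ζ γ (1 / 2 ^ (m + 1)) (((m : ℝ) - 2) * Real.log 2) hν hE hw0 hw1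
    heig (by linarith) hl1 hζ (fun x => Finset.sum_nonneg fun d _ => hσ0 x d) hσ hγ hγ4
    (by positivity) hΛ (by
      have a : (2 : ℝ) * (1 / 2 ^ (m + 1)) = (2 ^ m)⁻¹ := by
        rw [pow_succ]
        field_simp
      have b : (1 : ℝ) / 4 = (2 ^ 2)⁻¹ := by norm_num
      rw [a, b, Real.log_inv, Real.log_inv, Real.log_pow, Real.log_pow]
      push_cast
      linarith)
    (fun x => Finset.sum_nonneg fun d _ => hF0 x d) f1 f2 f3
  refine ⟨d, u, by linarith, ?_⟩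
  have hsplit : N.Qf ν {e ∈ E' | T e (d (N.up e)) = d (N.lo e)} u +
      N.Qf ν {e ∈ E' | T e (d (N.up e)) ≠ d (N.lo e)} u = N.Qf ν E' u := by
    simp only [Net.Qf]
    rw [← mul_add, Finset.sum_filter_add_sum_filter_not]
  have hbad : N.Qf ν {e ∈ E' | T e (d (N.up e)) ≠ d (N.lo e)} u ≤
      4 ^ (m + 1) * N.Qf ν {e ∈ E' | T e (d (N.up e)) ≠ d (N.lo e)} fun x => ∑ d, F x d := by
    have a : ∀ x, u x ≤ 2 ^ (m + 1) * ∑ d, F x d := fun x => by
      have := (hu x).2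
      rwa [one_div, inv_mul_le_iff₀ (by positivity)] at this
    simp only [Net.Qf]
    rw [mul_left_comm ((4 : ℝ) ^ (m + 1)), Finset.mul_sum _ _ ((4 : ℝ) ^ (m + 1))]
    refine mul_le_mul_of_nonneg_left (Finset.sum_le_sum fun e _ => ?_) (by positivity)
    refine (mul_le_mul (a _) (a _) (hu _).1 ((hu _).1.trans (a _))).trans_eq ?_
    rw [show (4 : ℝ) = 2 * 2 by norm_num, mul_pow]
    ring
  have h3 : N.Qf ν {e ∈ E' | T e (d (N.up e)) ≠ d (N.lo e)} u ≤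
      2 * (m + 1) ^ 2 * 4 ^ (m + 1) * κc := by
    refine hbad.trans ?_
    have a := mul_le_mul_of_nonneg_left (hd.trans (mul_le_mul_of_nonneg_left f4 zero_le_two))
      (show (0 : ℝ) ≤ 4 ^ (m + 1) by positivity)
    exact a.trans_eq (by ring)
  have h4 : 0 ≤ ζ + (γ + ζ) / (((m : ℝ) - 2) * Real.log 2) ^ 2 +
      2 * (m + 1) ^ 2 * 4 ^ (m + 1) * κc := by positivity
  have h5 := mul_le_mul_of_nonneg_left hu2 h4
  linarith

end Pool.Agent.Lib.MP_028aa5_nt.T
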