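import Pool.Agent.Lib.MP_028aa5_nt.T.St2

/-! The potential of the sources, and the choice of digits. -/

namespace Pool.Agent.Lib.MP_028aa5_nt.T

open Finset
open scoped ComplexConjugate Classical

set_option maxHeartbeats 400000

namespace Dig1

theorem opB_sum {ι : Type} (N : Net) (ν : ℝ) (E : Finset N.Ed) (I : Finset ι) (c : ι → ℝ)
    (u : ι → N.W → ℝ) (x : N.W) :
    N.opB ν E (fun y => ∑ i ∈ I, c i * u i y) x = ∑ i ∈ I, c i * N.opB ν E (u i) x := by
  simp only [Net.opB]
  rw [Finset.sum_comm, Finset.sum_comm (s := E.filter fun e => N.up e = x), ← sum_add_distrib,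
    mul_sum]
  refine sum_congr rfl fun i _ => ?_
  rw [← mul_sum, ← mul_sum]
  ring

theorem opC_sum {ι D : Type} (N : Net) (ν : ℝ) (E : Finset N.Ed) (T : N.Ed → D ≃ D) (I : Finset ι)
    (c : ι → ℝ) (F : ι → N.W → D → ℝ) (x : N.W) (d : D) :
    N.opC ν E T (fun y d' => ∑ i ∈ I, c i * F i y d') x d =
      ∑ i ∈ I, c i * N.opC ν E T (F i) x d := by
  simp only [Net.opC]
  rw [Finset.sum_comm, Finset.sum_comm (s := E.filter fun e => N.up e = x), ← sum_add_distrib,
    mul_sum]
  refine sum_congr rfl fun i _ => ?_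
  rw [← mul_sum, ← mul_sum]
  ring

theorem opB_lin (N : Net) (ν : ℝ) (E : Finset N.Ed) (u v : N.W → ℝ) (b : ℝ) (x : N.W) :
    N.opB ν E (fun y => u y + b * v y) x = N.opB ν E u x + b * N.opB ν E v x := by
  simp only [Net.opB, sum_add_distrib, ← mul_sum]
  ring

theorem opB_smul (N : Net) (ν : ℝ) (E : Finset N.Ed) (v : N.W → ℝ) (b : ℝ) (x : N.W) :
    N.opB ν E (fun y => b * v y) x = b * N.opB ν E v x := by
  simp only [Net.opB, ← mul_sum]
  ring

theorem projI (hB : BasSt) (N : Net) (D : Type) [Fintype D] (ν : ℝ) (E : Finset N.Ed)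
    (T : N.Ed → D ≃ D) (F : N.W → D → ℝ) (m : ℕ) (x : N.W) :
    ∑ d, (N.opC ν E T)^[m] F x d = (N.opB ν E)^[m] (fun y => ∑ d, F y d) x := by
  induction m generalizing x with
  | zero => rfl
  | succ m ih =>
    rw [Function.iterate_succ_apply', Function.iterate_succ_apply', hB.proj]
    exact congrArg (fun u => N.opB ν E u x) (funext ih)

theorem geo (m : ℕ) : ∑ i ∈ range (m + 1), (1 / 2 : ℝ) * (1 / 2) ^ i = 1 - (1 / 2) ^ (m + 1) := by
  induction m with
  | zero => norm_num
  | succ m ih => rw [sum_range_succ, ih]; ring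

theorem half {D : Type} [Fintype D] (a b : D → ℝ) (ha : ∀ d, 0 ≤ a d) (hb : ∀ d, 0 ≤ b d)
    (i j : D) (hij : i ≠ j) (hi : ∀ d, a d ≤ a i) (hj : ∀ d, b d ≤ b j) :
    2 * ∑ d, a d * b d ≤ (∑ d, a d) * ∑ d, b d := by
  have hB : b i + b j ≤ ∑ d, b d :=
    Finset.add_le_sum (fun d _ => hb d) (mem_univ i) (mem_univ j) hij
  have hB1 : ∀ d, b d ≤ ∑ d, b d := fun d => single_le_sum (fun d _ => hb d) (mem_univ d)
  have h1 : (a i - a j) * b j ≤ ∑ d, (a i - a d) * b d :=
    single_le_sum (f := fun d => (a i - a d) * b d)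
      (fun d _ => mul_nonneg (sub_nonneg.2 (hi d)) (hb d)) (mem_univ j)
  have e1 : ∑ d, (a i - a d) * b d = a i * ∑ d, b d - ∑ d, a d * b d := by
    rw [mul_sum, ← sum_sub_distrib]
    exact sum_congr rfl fun d _ => by ring
  have h2 : a i * (∑ d, b d - b i) + a j * (∑ d, b d - b j) ≤ ∑ d', a d' * (∑ d, b d - b d') :=
    Finset.add_le_sum (f := fun d' => a d' * (∑ d, b d - b d'))
      (fun d _ => mul_nonneg (ha d) (sub_nonneg.2 (hB1 d))) (mem_univ i) (mem_univ j) hij
  have e2 : ∑ d', a d' * (∑ d, b d - b d') = (∑ d, a d) * ∑ d, b d - ∑ d, a d * b d := by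
    rw [sum_mul, ← sum_sub_distrib]
    exact sum_congr rfl fun d _ => by ring
  have h3 : (a i - a j) * b i ≤ (a i - a j) * b j :=
    mul_le_mul_of_nonneg_left (hj i) (sub_nonneg.2 (hi j))
  have h4 : a j * b i ≤ a j * (∑ d, b d - b j) :=
    mul_le_mul_of_nonneg_left (by linarith) (ha j)
  rw [e1] at h1
  rw [e2] at h2
  nlinarith

theorem full {D : Type} [Fintype D] (a b : D → ℝ) (ha : ∀ d, 0 ≤ a d) (hb : ∀ d, 0 ≤ b d) :
    ∑ d, a d * b d ≤ (∑ d, a d) * ∑ d, b d := by
  rw [sum_mul]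
  exact sum_le_sum fun d _ =>
    mul_le_mul_of_nonneg_left (single_le_sum (fun d _ => hb d) (mem_univ d)) (ha d)

end Dig1

open Dig1

theorem st_Dig1 (hB : BasSt) (hCf : CfSt) : Dig1St := by
  intro N D _ ν E E' T w σ lam κc m hν hE hw heig hlam hσ hσw hκ hconf
  have hl0 : 0 < lam := by linarith
  obtain ⟨θ, hθ⟩ : ∃ θ : ℝ, θ = 1 / (2 * lam) := ⟨_, rfl⟩
  have hθ0 : 0 < θ := by rw [hθ]; positivity
  have hθl : θ * lam = 1 / 2 := by rw [hθ]; field_simp
  have hθ1 : θ ≤ 1 := by nlinarith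
  obtain ⟨s, hs⟩ : ∃ s : N.W → ℝ, s = fun y => ∑ d, σ y d := ⟨_, rfl⟩
  have hsx : ∀ x, ∑ d, σ x d = s x := fun x => by rw [hs]
  obtain ⟨c, hc⟩ : ∃ c : ℕ → ℝ, c = fun i => 1 / 2 * θ ^ i := ⟨_, rfl⟩
  have hci : ∀ i, c i = 1 / 2 * θ ^ i := fun i => by rw [hc]
  have hc0 : ∀ i, 0 ≤ c i := fun i => by rw [hci]; positivity
  have hproj : ∀ i x, ∑ d, (N.opC ν E' T)^[i] σ x d = (N.opB ν E')^[i] s x := fun i x => by
    rw [projI hB, hs]
  have hpos : ∀ i x, 0 ≤ (N.opB ν E')^[i] s x := fun i x => by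
    rw [← hproj]
    exact sum_nonneg fun d _ => hCf.posC N D ν E' T σ i hν hσ x d
  have hup : ∀ i x, (N.opB ν E')^[i] s x ≤ lam ^ i * w x := by
    intro i
    induction i with
    | zero => intro x; simpa [← hsx] using hσw x
    | succ i ih =>
      intro x
      rw [Function.iterate_succ_apply']
      refine le_trans (hCf.monoB N ν E E' _ (fun y => lam ^ i * w y) hν hE
        (fun y => mul_nonneg (by positivity) (hw y)) ih x) ?_
      rw [opB_smul, heig]
      exact le_of_eq (by ring)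
  have hup' : ∀ i x, c i * (N.opB ν E')^[i] s x ≤ 1 / 2 * (1 / 2) ^ i * w x := fun i x => by
    refine le_trans (mul_le_mul_of_nonneg_left (hup i x) (hc0 i)) (le_of_eq ?_)
    rw [hci, ← hθl, mul_pow]
    ring
  have hΦ : ∀ x, ∑ d, ∑ i ∈ range (m + 1), c i * (N.opC ν E' T)^[i] σ x d =
      ∑ i ∈ range (m + 1), c i * (N.opB ν E')^[i] s x := fun x => by
    rw [sum_comm]
    exact sum_congr rfl fun i _ => by rw [← mul_sum, hproj]
  have ht : ∀ x, w x / 2 ^ (m + 1) = (1 / 2) ^ (m + 1) * w x := fun x => by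
    rw [one_div, inv_pow]; ring
  refine ⟨fun x d => ∑ i ∈ range (m + 1), c i * (N.opC ν E' T)^[i] σ x d, fun x d => ?_,
    fun x => ?_, fun x => ?_, fun x => ?_, ?_⟩
  · exact sum_nonneg fun i _ => mul_nonneg (hc0 i) (hCf.posC N D ν E' T σ i hν hσ x d)
  · rw [hΦ, hsx]
    have h := single_le_sum (f := fun i => c i * (N.opB ν E')^[i] s x)
      (fun i _ => mul_nonneg (hc0 i) (hpos i x)) (mem_range.2 (Nat.succ_pos m))
    simp only [hci 0, pow_zero, mul_one, Function.iterate_zero, id] at h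
    linarith
  · rw [hΦ, ht]
    have h := sum_le_sum (s := range (m + 1)) fun i _ => hup' i x
    rw [← sum_mul, geo] at h
    linarith
  · have e1 : (fun y => ∑ d, ∑ i ∈ range (m + 1), c i * (N.opC ν E' T)^[i] σ y d +
        w y / 2 ^ (m + 1)) = fun y => ∑ i ∈ range (m + 1), c i * (N.opB ν E')^[i] s y +
        (1 / 2) ^ (m + 1) * w y := funext fun y => by rw [hΦ, ht]
    rw [e1, opB_lin, opB_sum, hΦ, ht, hsx]
    have h1 : N.opB ν E' w x ≤ lam * w x := by
      rw [← heig]
      exact hCf.monoB N ν E E' w w hν hE hw (fun _ => le_rfl) x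
    have e2 : ∑ i ∈ range (m + 1), c i * N.opB ν E' ((N.opB ν E')^[i] s) x =
        2 * lam * ∑ i ∈ range (m + 1), c (i + 1) * (N.opB ν E')^[i + 1] s x := by
      rw [mul_sum]
      refine sum_congr rfl fun i _ => ?_
      rw [Function.iterate_succ_apply', hci, hci, pow_succ]
      have : 2 * lam * (1 / 2 * (θ ^ i * θ) * N.opB ν E' ((N.opB ν E')^[i] s) x) =
          2 * (θ * lam) * (1 / 2 * θ ^ i * N.opB ν E' ((N.opB ν E')^[i] s) x) := by ring
      rw [this, hθl]
      ring
    have e3 := sum_range_succ' (fun i => c i * (N.opB ν E')^[i] s x) (m + 1)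
    rw [sum_range_succ] at e3
    simp only [hci 0, pow_zero, mul_one, Function.iterate_zero, id] at e3
    have h2 := hup' (m + 1) x
    have h3 : (1 / 2 : ℝ) ^ (m + 1) * N.opB ν E' w x ≤ (1 / 2) ^ (m + 1) * (lam * w x) :=
      mul_le_mul_of_nonneg_left h1 (by positivity)
    have h4 : ∑ i ∈ range (m + 1), c (i + 1) * (N.opB ν E')^[i + 1] s x ≤
        ∑ i ∈ range (m + 1), c i * (N.opB ν E')^[i] s x - 1 / 2 * s x +
          1 / 2 * (1 / 2) ^ (m + 1) * w x := by linarith
    have h5 := mul_le_mul_of_nonneg_left h4 (show 0 ≤ 2 * lam by positivity)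
    rw [e2]
    linarith
  · have e1 : (fun y => ∑ d, ∑ i ∈ range (m + 1), c i * (N.opC ν E' T)^[i] σ y d) =
        fun y => ∑ i ∈ range (m + 1), c i * (N.opB ν E')^[i] s y := funext hΦ
    have eB : ∑ x, N.opB ν E' (fun y => ∑ i ∈ range (m + 1), c i * (N.opB ν E')^[i] s y) x *
        ∑ i ∈ range (m + 1), c i * (N.opB ν E')^[i] s x =
        ∑ i ∈ range (m + 1), ∑ j ∈ range (m + 1), c i * c j *
          ∑ x, (N.opB ν E')^[i + 1 + j] s x * s x := by
      simp only [opB_sum, sum_mul_sum]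
      rw [sum_comm]
      refine sum_congr rfl fun i _ => ?_
      rw [sum_comm]
      refine sum_congr rfl fun j _ => ?_
      rw [← hCf.adjB, mul_sum]
      refine sum_congr rfl fun x _ => ?_
      rw [Function.iterate_succ_apply']
      ring
    have eC : ∑ x, ∑ d, N.opC ν E' T
        (fun y d' => ∑ i ∈ range (m + 1), c i * (N.opC ν E' T)^[i] σ y d') x d *
        ∑ i ∈ range (m + 1), c i * (N.opC ν E' T)^[i] σ x d =
        ∑ i ∈ range (m + 1), ∑ j ∈ range (m + 1), c i * c j *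
          ∑ x, ∑ d, (N.opC ν E' T)^[i + 1 + j] σ x d * σ x d := by
      have : ∀ i j, c i * c j * ∑ x, ∑ d, (N.opC ν E' T)^[i + 1 + j] σ x d * σ x d =
          ∑ x, ∑ d, c i * N.opC ν E' T ((N.opC ν E' T)^[i] σ) x d *
            (c j * (N.opC ν E' T)^[j] σ x d) := by
        intro i j
        rw [← hCf.adjC, mul_sum]
        refine sum_congr rfl fun x _ => ?_
        rw [mul_sum]
        refine sum_congr rfl fun d _ => ?_
        rw [Function.iterate_succ_apply']
        ring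
      simp only [this, opC_sum, sum_mul_sum]
      symm
      calc _ = ∑ i ∈ range (m + 1), ∑ x, ∑ d, ∑ j ∈ range (m + 1),
            c i * N.opC ν E' T ((N.opC ν E' T)^[i] σ) x d *
              (c j * (N.opC ν E' T)^[j] σ x d) := by
            refine sum_congr rfl fun i _ => ?_
            rw [sum_comm]
            exact sum_congr rfl fun x _ => sum_comm
        _ = _ := by
            rw [sum_comm]
            exact sum_congr rfl fun x _ => sum_comm
    have hcc : ∀ i j, c i * c j ≤ 1 := fun i j => by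
      have a1 : ∀ i, c i ≤ 1 := fun i => by
        have := pow_le_one₀ (n := i) hθ0.le hθ1
        rw [hci]; linarith
      exact mul_le_one₀ (a1 i) (hc0 j) (a1 j)
    have hfin : ∀ i ∈ range (m + 1), ∀ j ∈ range (m + 1),
        c i * c j * ∑ x, (N.opB ν E')^[i + 1 + j] s x * s x -
          c i * c j * ∑ x, ∑ d, (N.opC ν E' T)^[i + 1 + j] σ x d * σ x d ≤ κc := by
      intro i hi j hj
      have h := hconf (i + 1 + j) (by have := mem_range.1 hi; have := mem_range.1 hj; omega)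
      simp only [Net.conf, hsx] at h
      rw [← mul_sub]
      refine le_trans (mul_le_mul_of_nonneg_left h (mul_nonneg (hc0 i) (hc0 j))) ?_
      exact mul_le_of_le_one_left hκ (hcc i j)
    simp only [Net.conf, Function.iterate_one, hΦ]
    rw [eB, eC, ← sum_sub_distrib]
    refine le_trans (sum_le_sum fun i hi => ?_ : _ ≤ ∑ _i ∈ range (m + 1), (m + 1 : ℝ) * κc) ?_
    · rw [← sum_sub_distrib]
      refine le_trans (sum_le_sum fun j hj => hfin i hi j hj) ?_
      simp
    · simp only [sum_const, card_range, nsmul_eq_mul]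
      push_cast
      exact le_of_eq (by ring)

theorem st_Dig2 (hB : BasSt) : Dig2St := by
  intro N D _ _ ν E T F hν hF
  choose d hd using fun x => Finite.exists_max (F x)
  refine ⟨d, ?_⟩
  have e1 : N.conf ν E T F 1 = 2 * ν * ∑ e ∈ E, ((∑ a, F (N.up e) a) * (∑ a, F (N.lo e) a) -
      ∑ a, F (N.up e) a * F (N.lo e) (T e a)) := by
    simp only [Net.conf, Function.iterate_one]
    have a1 := hB.sym N ν E (fun x => ∑ a, F x a) (fun x => ∑ a, F x a)
    have a2 := hB.symC N D ν E T F F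
    have b1 : ∑ x, N.opB ν E (fun y => ∑ a, F y a) x * ∑ a, F x a =
        ∑ x, (∑ a, F x a) * N.opB ν E (fun y => ∑ a, F y a) x :=
      sum_congr rfl fun x _ => mul_comm _ _
    have b2 : ∑ x, ∑ a, N.opC ν E T F x a * F x a = ∑ x, ∑ a, F x a * N.opC ν E T F x a :=
      sum_congr rfl fun x _ => sum_congr rfl fun a _ => mul_comm _ _
    rw [b1, a1, b2, a2, ← mul_sub,
      ← sum_sub_distrib, mul_comm 2 ν, mul_assoc, mul_sum E _ 2]
    refine congrArg (fun t => ν * t) (sum_congr rfl fun e _ => ?_)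
    have : ∑ a, (F (N.lo e) (T e a) * F (N.up e) a + F (N.up e) a * F (N.lo e) (T e a)) =
        2 * ∑ a, F (N.up e) a * F (N.lo e) (T e a) := by
      rw [mul_sum]
      exact sum_congr rfl fun a _ => by ring
    rw [this]
    ring
  have hsum : ∀ e, ∑ a, F (N.lo e) (T e a) = ∑ a, F (N.lo e) a := fun e =>
    Equiv.sum_comp (T e) (F (N.lo e))
  have h0 : ∀ e, 0 ≤ (∑ a, F (N.up e) a) * (∑ a, F (N.lo e) a) -
      ∑ a, F (N.up e) a * F (N.lo e) (T e a) := fun e => by
    have := full (F (N.up e)) (fun a => F (N.lo e) (T e a)) (hF _) (fun a => hF _ _)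
    rw [hsum] at this
    linarith
  have h1 : ∀ e, T e (d (N.up e)) ≠ d (N.lo e) →
      (∑ a, F (N.up e) a) * (∑ a, F (N.lo e) a) ≤
        2 * ((∑ a, F (N.up e) a) * (∑ a, F (N.lo e) a) -
          ∑ a, F (N.up e) a * F (N.lo e) (T e a)) := fun e he => by
    have := half (F (N.up e)) (fun a => F (N.lo e) (T e a)) (hF _) (fun a => hF _ _)
      (d (N.up e)) ((T e).symm (d (N.lo e)))
      (fun h => he (by rw [h, Equiv.apply_symm_apply])) (hd _)
      (fun a => by simpa using hd (N.lo e) (T e a))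
    rw [hsum] at this
    linarith
  rw [e1, Net.Qf, ← mul_assoc, mul_comm 2 (2 * ν), mul_assoc (2 * ν), mul_sum E _ 2]
  refine mul_le_mul_of_nonneg_left ?_ (by positivity)
  refine le_trans (sum_le_sum fun e he => h1 e (mem_filter.1 he).2) ?_
  exact sum_le_sum_of_subset_of_nonneg (filter_subset _ _) fun e _ _ =>
    mul_nonneg zero_le_two (h0 e)

end Pool.Agent.Lib.MP_028aa5_nt.T
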