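import Pool.Agent.Lib.MP_028aa5_nt.T.St4
import Pool.Agent.Lib.MP_30b5ba_nt.P.Typ

/-! The identity of Ramare, the bound of Turan and Kubilius and short shifts of the window. -/

namespace Pool.Agent.Lib.MP_028aa5_nt.T

open Finset
open scoped ComplexConjugate Classical

namespace Eba

lemma inner (hF : FtSt) (g c : ℕ → ℂ) (t M : ℝ) {p : ℕ} (hp : p.Prime)
    (hg : ∀ m, g (p * m) = c p * g m) :
    ∑ m ∈ Ioc ⌊M⌋₊ ⌊64 * M⌋₊ with p ∣ m, lio m * g m / m * e (-t * Real.log m) =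
      -(c p / p * e (-t * Real.log p) * FF g t (M / p)) := by
  rw [sum_dvd hp.pos]
  unfold FF tw
  rw [← mul_div_assoc, Nat.floor_div_natCast, Nat.floor_div_natCast, mul_sum, ← sum_neg_distrib]
  refine sum_congr rfl fun m hm => ?_
  have hm0 : 0 < m := Nat.zero_lt_of_lt (mem_Ioc.1 hm).1
  have hp0 : (p : ℝ) ≠ 0 := Nat.cast_ne_zero.2 hp.pos.ne'
  have hm1 : (m : ℝ) ≠ 0 := Nat.cast_ne_zero.2 hm0.ne'
  have hp2 : (p : ℂ) ≠ 0 := Nat.cast_ne_zero.2 hp.pos.ne'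
  have hm2 : (m : ℂ) ≠ 0 := Nat.cast_ne_zero.2 hm0.ne'
  have e1 : -t * Real.log ((p * m : ℕ) : ℝ) = -t * Real.log p + -t * Real.log m := by
    rw [Nat.cast_mul, Real.log_mul hp0 hm1]
    ring
  rw [e1, e_add, hF.lio_mul, hF.lio_prime p hp, hg, Nat.cast_mul]
  field_simp

lemma idn (hF : FtSt) (S : Finset ℕ) (g c : ℕ → ℂ) (t M : ℝ) (hS : ∀ p ∈ S, p.Prime)
    (hg : ∀ p ∈ S, ∀ m, g (p * m) = c p * g m) :
    FF g t M = tw (fun m => lio m * (1 - (#{p ∈ S | p ∣ m} : ℝ) / LL S : ℝ)) g t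
      (Ioc ⌊M⌋₊ ⌊64 * M⌋₊) -
      (LL S : ℂ)⁻¹ * ∑ p ∈ S, c p / p * e (-t * Real.log p) * FF g t (M / p) := by
  have h1 : ∑ p ∈ S, c p / p * e (-t * Real.log p) * FF g t (M / p) =
      -∑ m ∈ Ioc ⌊M⌋₊ ⌊64 * M⌋₊, (#{p ∈ S | p ∣ m} : ℂ) *
        (lio m * g m / m * e (-t * Real.log m)) := by
    have h2 : ∀ m : ℕ, (#{p ∈ S | p ∣ m} : ℂ) * (lio m * g m / m * e (-t * Real.log m)) =
        ∑ p ∈ S, if p ∣ m then lio m * g m / m * e (-t * Real.log m) else 0 := by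
      intro m
      rw [← sum_filter, sum_const, nsmul_eq_mul]
    simp_rw [h2]
    rw [sum_comm, ← sum_neg_distrib]
    refine sum_congr rfl fun p hp => ?_
    rw [← sum_filter, inner hF g c t M (hS p hp) (hg p hp), neg_neg]
  rw [h1]
  unfold FF tw
  rw [mul_neg, sub_neg_eq_add, mul_sum, ← sum_add_distrib]
  refine sum_congr rfl fun m _ => ?_
  push_cast
  ring

lemma tk (hF : FtSt) (S : Finset ℕ) (M : ℝ) (hM : 1 ≤ M) (hS : ∀ p ∈ S, p.Prime)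
    (hL : 0 < LL S) (hc : (#S : ℝ) ≤ M) :
    ∑ m ∈ Ioc ⌊M⌋₊ ⌊64 * M⌋₊,
      ‖lio m * ((1 - (#{p ∈ S | p ∣ m} : ℝ) / LL S : ℝ) : ℂ)‖ ^ 2 / m ≤ 192 / LL S := by
  have hM0 : 0 < M := by linarith
  have h1 := MP_30b5ba_nt.P.Typ.tk ⌊64 * M⌋₊ S hS (Nat.le_floor (by linarith))
  have h2 : (⌊64 * M⌋₊ : ℝ) ≤ 64 * M := Nat.floor_le (by linarith)
  have h3 : ∑ u ∈ Icc 1 ⌊64 * M⌋₊, ((#{p ∈ S | p ∣ u} : ℝ) - LL S) ^ 2 ≤ 192 * M * LL S := by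
    refine le_trans (le_of_eq ?_) (h1.trans ?_)
    · unfold LL
      congr
    · have : ∑ p ∈ S, 1 / (p : ℝ) = LL S := rfl
      rw [this]
      nlinarith
  calc _ ≤ ∑ m ∈ Ioc ⌊M⌋₊ ⌊64 * M⌋₊, ((#{p ∈ S | p ∣ m} : ℝ) - LL S) ^ 2 / (LL S ^ 2 * M) := by
        refine sum_le_sum fun m hm => ?_
        have hm1 : M ≤ m := by
          have := (mem_Ioc.1 hm).1
          have h4 := Nat.lt_floor_add_one M
          have h5 : (⌊M⌋₊ : ℝ) + 1 ≤ m := by exact_mod_cast this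
          linarith
        have e1 : (1 - (#{p ∈ S | p ∣ m} : ℝ) / LL S) ^ 2 =
            ((#{p ∈ S | p ∣ m} : ℝ) - LL S) ^ 2 / LL S ^ 2 := by
          field_simp
          ring
        have e2 : ‖lio m * ((1 - (#{p ∈ S | p ∣ m} : ℝ) / LL S : ℝ) : ℂ)‖ ^ 2 ≤
            ((#{p ∈ S | p ∣ m} : ℝ) - LL S) ^ 2 / LL S ^ 2 := by
          rw [norm_mul, mul_pow, Complex.norm_real, Real.norm_eq_abs, sq_abs, e1]
          refine mul_le_of_le_one_left (by positivity) ?_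
          exact pow_le_one₀ (norm_nonneg _) (hF.lio_bd m)
        rw [← div_div]
        gcongr
    _ ≤ ∑ m ∈ Icc 1 ⌊64 * M⌋₊, ((#{p ∈ S | p ∣ m} : ℝ) - LL S) ^ 2 / (LL S ^ 2 * M) := by
        refine sum_le_sum_of_subset_of_nonneg ?_ fun m _ _ => by positivity
        intro m hm
        have := mem_Ioc.1 hm
        exact mem_Icc.2 ⟨by omega, this.2⟩
    _ ≤ 192 * M * LL S / (LL S ^ 2 * M) := by
        rw [← sum_div]
        gcongr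
    _ = 192 / LL S := by field_simp

lemma sm (hF : FtSt) (hG : GrSt) (M M' η : ℝ) (hM : 1 ≤ M) (h1 : M ≤ M') (h2 : M' ≤ (1 + η) * M)
    (hη : η ≤ 1) :
    ∃ (a : ℕ → ℂ) (S : Finset ℕ), S ⊆ Ioc ⌊M⌋₊ ⌊Real.exp 8 * M⌋₊ ∧
      ∑ m ∈ S, ‖a m‖ ^ 2 / m ≤ 2 * (η + 1 / M) ∧ ∀ g t, FF g t M' - FF g t M = tw a g t S := by
  have hM0 : 0 < M := by linarith
  have hM2 : M' ≤ 2 * M := by nlinarith
  have hab : ⌊M⌋₊ ≤ ⌊M'⌋₊ := Nat.floor_le_floor h1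
  have hbc : ⌊M'⌋₊ ≤ ⌊64 * M⌋₊ := Nat.floor_le_floor (by linarith)
  have hcd : ⌊64 * M⌋₊ ≤ ⌊64 * M'⌋₊ := Nat.floor_le_floor (by linarith)
  have he : (128 : ℝ) ≤ Real.exp 8 := by
    have h3 : (2 : ℝ) ≤ Real.exp 1 := by
      have := Real.add_one_le_exp (1 : ℝ)
      linarith
    have h4 : Real.exp 8 = Real.exp 1 ^ 8 := by
      rw [← Real.exp_nat_mul]
      norm_num
    rw [h4]
    calc (128 : ℝ) ≤ 2 ^ 8 := by norm_num
      _ ≤ _ := by gcongr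
  have hde : ⌊64 * M'⌋₊ ≤ ⌊Real.exp 8 * M⌋₊ := Nat.floor_le_floor (by nlinarith)
  have hdisj : Disjoint (Ioc ⌊M⌋₊ ⌊M'⌋₊) (Ioc ⌊64 * M⌋₊ ⌊64 * M'⌋₊) := by
    rw [disjoint_left]
    intro m a1 a2
    have := mem_Ioc.1 a1
    have := mem_Ioc.1 a2
    omega
  refine ⟨fun m => if m ≤ ⌊M'⌋₊ then -lio m else lio m,
    Ioc ⌊M⌋₊ ⌊M'⌋₊ ∪ Ioc ⌊64 * M⌋₊ ⌊64 * M'⌋₊, ?_, ?_, ?_⟩
  · intro m hm
    rcases mem_union.1 hm with h | h
    · have := mem_Ioc.1 h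
      exact mem_Ioc.2 ⟨this.1, by omega⟩
    · have := mem_Ioc.1 h
      exact mem_Ioc.2 ⟨by omega, by omega⟩
  · have hlog : Real.log (M' / M) ≤ η := by
      have h3 := Real.log_le_sub_one_of_pos (div_pos (hM0.trans_le h1) hM0)
      have h4 : M' / M ≤ 1 + η := by rwa [div_le_iff₀ hM0]
      linarith
    have b1 := hG.hsum M M' hM0 h1
    have b2 := hG.hsum (64 * M) (64 * M') (by linarith) (by linarith)
    rw [mul_div_mul_left _ _ (by norm_num : (64 : ℝ) ≠ 0)] at b2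
    have b3 : min 1 (1 / M) ≤ 1 / M := min_le_right _ _
    have b4 : min 1 (1 / (64 * M)) ≤ 1 / M :=
      (min_le_right _ _).trans (one_div_le_one_div_of_le hM0 (by linarith))
    calc _ ≤ ∑ m ∈ Ioc ⌊M⌋₊ ⌊M'⌋₊ ∪ Ioc ⌊64 * M⌋₊ ⌊64 * M'⌋₊, 1 / (m : ℝ) := by
          refine sum_le_sum fun m _ => ?_
          have h3 : ‖if m ≤ ⌊M'⌋₊ then -lio m else lio m‖ ≤ 1 := by
            split_ifs
            · rw [norm_neg]
              exact hF.lio_bd m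
            · exact hF.lio_bd m
          have h4 := pow_le_one₀ (n := 2) (norm_nonneg _) h3
          gcongr
      _ ≤ _ := by
          rw [sum_union hdisj]
          linarith
  · intro g t
    unfold FF tw
    rw [sum_union hdisj, ← sum_Ioc_consecutive _ hbc hcd, ← sum_Ioc_consecutive _ hab hbc]
    have c1 : ∑ m ∈ Ioc ⌊M⌋₊ ⌊M'⌋₊, (if m ≤ ⌊M'⌋₊ then -lio m else lio m) * g m / m *
        e (-t * Real.log m) = -∑ m ∈ Ioc ⌊M⌋₊ ⌊M'⌋₊, lio m * g m / m * e (-t * Real.log m) := by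
      rw [← sum_neg_distrib]
      refine sum_congr rfl fun m hm => ?_
      rw [if_pos (mem_Ioc.1 hm).2]
      ring
    have c2 : ∑ m ∈ Ioc ⌊64 * M⌋₊ ⌊64 * M'⌋₊, (if m ≤ ⌊M'⌋₊ then -lio m else lio m) * g m / m *
        e (-t * Real.log m) =
        ∑ m ∈ Ioc ⌊64 * M⌋₊ ⌊64 * M'⌋₊, lio m * g m / m * e (-t * Real.log m) := by
      refine sum_congr rfl fun m hm => ?_
      have := (mem_Ioc.1 hm).1
      rw [if_neg (by omega)]
    rw [c1, c2]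
    ring

end Eba

theorem st_Eba (hF : FtSt) (hG : GrSt) : EbaSt where
  idn := fun S g c t M _ hS _ hg => Eba.idn hF S g c t M hS hg
  tk := Eba.tk hF
  sm := Eba.sm hF hG

end Pool.Agent.Lib.MP_028aa5_nt.T
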