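import Pool.Agent.Lib.MP_028aa5_nt.T.St4

/-! The truncated twisted Dirichlet series of the Liouville function is small. -/

namespace Pool.Agent.Lib.MP_028aa5_nt.T

open Finset
open scoped ComplexConjugate Classical

namespace FJ

/-- uniform bound for the tails -/
lemma tail (σ η : ℝ) (hσ : 0 < σ) (hη : 0 < η) : ∃ Z0 : ℕ, ∀ Z ≥ Z0, ∀ (f : ℕ → ℂ) (s : ℂ),
    (∀ n, ‖f n‖ ≤ 1) → s.re = 1 + σ →
    ‖∑ n ∈ Icc 1 Z, LSeries.term f s n‖ ≤ ‖LSeries f s‖ + η := by
  have hs : Summable fun n : ℕ => 1 / (n : ℝ) ^ (1 + σ) :=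
    Real.summable_one_div_nat_rpow.2 (by linarith)
  have ht := tendsto_sum_nat_add fun n : ℕ => 1 / (n : ℝ) ^ (1 + σ)
  obtain ⟨Z0, hZ⟩ := Filter.eventually_atTop.1 (ht.eventually (eventually_le_nhds hη))
  refine ⟨Z0, fun Z hZ' f s hf hre => ?_⟩
  have hb : ∀ n, ‖LSeries.term f s n‖ ≤ 1 / (n : ℝ) ^ (1 + σ) := fun n => by
    rw [LSeries.norm_term_eq, hre]
    split_ifs
    · positivity
    · exact div_le_div_of_nonneg_right (hf n) (by positivity)
  have hsum : Summable (LSeries.term f s) := Summable.of_norm_bounded hs hb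
  have h1 := hsum.sum_add_tsum_nat_add (Z + 1)
  have h2 : ‖∑' n, LSeries.term f s (n + (Z + 1))‖ ≤ η :=
    (tsum_of_norm_bounded ((summable_nat_add_iff (Z + 1)).2 hs).hasSum
      fun n => hb (n + (Z + 1))).trans (hZ (Z + 1) (by omega))
  have h3 : ∑ n ∈ range (Z + 1), LSeries.term f s n = ∑ n ∈ Icc 1 Z, LSeries.term f s n := by
    rw [range_eq_Ico, sum_eq_sum_Ico_succ_bot (by omega), LSeries.term_zero, zero_add]
    rfl
  have h4 : ∑ n ∈ Icc 1 Z, LSeries.term f s n =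
      LSeries f s - ∑' n, LSeries.term f s (n + (Z + 1)) := by
    rw [← h3, LSeries, ← h1]
    ring
  rw [h4]
  exact (norm_sub_le _ _).trans (by linarith)

lemma term_eq (g : ℕ → ℂ) (σ τ : ℝ) (n : ℕ) (hn : 1 ≤ n) :
    lio n * (((n : ℝ) ^ (-σ) : ℝ) : ℂ) * g n / n * e (-τ * Real.log n) =
      LSeries.term (fun n => lio n * g n) (1 + (σ : ℝ) + Complex.I * (2 * Real.pi * τ : ℝ)) n := by
  have n0 : (0 : ℝ) < n := by exact_mod_cast hn
  have n1 : (n : ℂ) ≠ 0 := by exact_mod_cast (by omega : n ≠ 0)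
  have l : Complex.log (n : ℂ) = (Real.log n : ℝ) := (Complex.natCast_log).symm
  have h1 : (n : ℂ) = Complex.exp (Real.log n : ℝ) := by rw [← l, Complex.exp_log n1]
  rw [LSeries.term_of_ne_zero (by omega), Complex.cpow_def_of_ne_zero n1, l,
    Real.rpow_def_of_pos n0, Complex.ofReal_exp, div_eq_mul_inv, div_eq_mul_inv,
    ← Complex.exp_neg]
  have h2 : (n : ℂ)⁻¹ = Complex.exp (-(Real.log n : ℝ)) := by rw [Complex.exp_neg, ← h1]
  rw [h2]
  unfold e
  have h3 : Complex.exp (-((Real.log n : ℝ) * (1 + (σ : ℝ) + Complex.I * (2 * Real.pi * τ : ℝ)))) =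
      Complex.exp ((Real.log n * -σ : ℝ) : ℂ) * Complex.exp (-(Real.log n : ℝ)) *
        Complex.exp (2 * Real.pi * Complex.I * (-τ * Real.log n : ℝ)) := by
    rw [← Complex.exp_add, ← Complex.exp_add]
    congr 1
    simp only [Complex.ofReal_mul, Complex.ofReal_neg, Complex.ofReal_ofNat]
    ring
  rw [h3]
  ring

end FJ

open FJ

theorem st_F (hFt : FtSt) (h1 : F1St) (h2 : L2St) : FSt := by
  intro q A δ hq hδ
  have q0 : (0 : ℝ) < q := by exact_mod_cast hq
  obtain ⟨X0, hX0⟩ := h2 q (A + 1) (δ / (4 * q)) hq (by positivity)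
  refine ⟨max X0 7, fun X hX => ?_⟩
  have X7 : 7 ≤ X := (le_max_right _ _).trans hX
  have lX : 0 < Real.log X := Real.log_pos (by linarith)
  obtain ⟨Z0, hZ0⟩ := tail (1 / Real.log X) (δ * Real.log X / 2) (by positivity) (by positivity)
  refine ⟨Z0, fun Z hZ χ g τ hg hmul hτ => ?_⟩
  set s : ℂ := 1 + (1 / Real.log X : ℝ) + Complex.I * (2 * Real.pi * τ : ℝ) with hs
  have hre : s.re = 1 + 1 / Real.log X := by
    rw [hs]
    simp only [Complex.add_re, Complex.one_re, Complex.ofReal_re, Complex.mul_re, Complex.I_re,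
      Complex.I_im, Complex.ofReal_im]
    ring
  have hu : |2 * Real.pi * τ| ≤ X ^ (A + 1) := by
    rw [abs_mul, abs_of_pos (by positivity : 0 < 2 * Real.pi), Real.rpow_add_one (by linarith),
      mul_comm]
    exact mul_le_mul hτ (by linarith [Real.pi_lt_d2]) (by positivity)
      (Real.rpow_nonneg (by linarith) _)
  have a1 := hX0 X ((le_max_left _ _).trans hX) χ _ hu
  have a2 := h1 q χ g s hq (by rw [hre]; linarith [one_div_pos.2 lX]) hg hmul
  have a3 := hZ0 Z hZ (fun n => lio n * g n) s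
    (fun n => by
      rw [norm_mul]
      exact mul_le_one₀ (hFt.lio_bd n) (norm_nonneg _) (hg n)) hre
  have a4 : tw (fun n => lio n * ((n : ℝ) ^ (-(1 / Real.log X)) : ℝ)) g τ (Icc 1 Z) =
      ∑ n ∈ Icc 1 Z, LSeries.term (fun n => lio n * g n) s n :=
    sum_congr rfl fun n hn => term_eq g _ τ n (mem_Icc.1 hn).1
  rw [a4]
  refine a3.trans ?_
  rw [← hs] at a1
  set L1 := ‖LSeries (fun n => lio n * g n) s‖
  set L2 := ‖LSeries (fun n => χ n) s‖
  have b0 : 0 ≤ L1 := norm_nonneg _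
  have b1 : L1 ≤ δ / (4 * q) * Real.log X * (L1 * L2) := by
    have := mul_le_mul_of_nonneg_left a1 b0
    linarith
  have b2 : δ / (4 * q) * Real.log X * (L1 * L2) ≤ δ / (4 * q) * Real.log X * (2 * q) :=
    mul_le_mul_of_nonneg_left a2 (by positivity)
  have b3 : δ / (4 * q) * Real.log X * (2 * q) = δ * Real.log X / 2 := by
    field_simp
    ring
  linarith

end Pool.Agent.Lib.MP_028aa5_nt.T
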