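import Pool.Agent.Lib.MP_028aa5_nt.T.St4

/-! The product of the two Dirichlet series is bounded. -/

namespace Pool.Agent.Lib.MP_028aa5_nt.T

open Finset ArithmeticFunction
open scoped ComplexConjugate Classical

namespace F1

/-- the Liouville function on the integers prime to `q` -/
noncomputable def u (q : ℕ) : ArithmeticFunction ℤ where
  toFun n := if Nat.Coprime n q then liouville n else 0
  map_zero' := by simp

lemma u_apply (q n : ℕ) : u q n = if Nat.Coprime n q then liouville n else 0 := rfl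

lemma u_mult (q : ℕ) : (u q).IsMultiplicative := by
  refine ⟨by simp [u_apply, liouville_apply_one], fun {m n} _ => ?_⟩
  simp only [u_apply, Nat.coprime_mul_iff_left, liouville_apply_mul]
  by_cases h1 : Nat.Coprime m q
  · by_cases h2 : Nat.Coprime n q
    · rw [if_pos ⟨h1, h2⟩, if_pos h1, if_pos h2]
    · rw [if_neg fun h => h2 h.2, if_neg h2, mul_zero]
  · rw [if_neg fun h => h1 h.1, if_neg h1, zero_mul]

/-- its sum over the divisors -/
noncomputable def r (q : ℕ) : ArithmeticFunction ℤ := (zeta : ArithmeticFunction ℤ) * u q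

lemma r_apply (q n : ℕ) : r q n = ∑ d ∈ n.divisors, u q d := coe_zeta_mul_apply

lemma r_mult (q : ℕ) : (r q).IsMultiplicative := isMultiplicative_zeta.natCast.mul (u_mult q)

lemma r_cases (q n : ℕ) : r q n = 0 ∨ (r q n = 1 ∧ ∃ a b, a ∣ q ∧ n = a * b ^ 2) := by
  induction n using Nat.recOnPosPrimePosCoprime with
  | zero => exact Or.inl (by simp)
  | one => exact Or.inr ⟨(r_mult q).1, 1, 1, one_dvd _, by simp⟩
  | prime_pow p j hp hj =>
    rw [r_apply, Nat.sum_divisors_prime_pow hp]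
    by_cases h : p ∣ q
    · refine Or.inr ⟨?_, ?_⟩
      · rw [sum_range_succ', pow_zero, (u_mult q).1, sum_eq_zero, zero_add]
        intro i _
        rw [u_apply, if_neg]
        rw [Nat.coprime_pow_left_iff (Nat.succ_pos i), hp.coprime_iff_not_dvd]
        exact fun h' => h' h
      · rcases Nat.even_or_odd' j with ⟨i, rfl | rfl⟩
        · exact ⟨1, p ^ i, one_dvd _, by ring⟩
        · exact ⟨p, p ^ i, h, by ring⟩
    · have h1 : ∀ i, u q (p ^ i) = (-1) ^ i := fun i => by
        rw [u_apply, if_pos (Nat.Coprime.pow_left i (hp.coprime_iff_not_dvd.2 h)),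
          liouville_apply (pow_ne_zero i hp.ne_zero), cardFactors_apply_prime_pow hp]
      simp only [h1, neg_one_geom_sum]
      split_ifs with h2
      · exact Or.inl rfl
      · obtain ⟨i, rfl⟩ : Even j := by
          rw [Nat.even_add_one, not_not] at h2
          exact h2
        exact Or.inr ⟨rfl, 1, p ^ i, one_dvd _, by ring⟩
  | coprime m n _ _ hmn ih1 ih2 =>
    rw [(r_mult q).2 hmn]
    rcases ih1 with h1 | ⟨h1, a, b, ha, rfl⟩
    · exact Or.inl (by rw [h1, zero_mul])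
    rcases ih2 with h2 | ⟨h2, a', b', ha', rfl⟩
    · exact Or.inl (by rw [h2, mul_zero])
    refine Or.inr ⟨by rw [h1, h2, mul_one], a * a', b * b', ?_, by ring⟩
    exact Nat.Coprime.mul_dvd_of_dvd_of_dvd
      (Nat.Coprime.coprime_mul_right_right (Nat.Coprime.coprime_mul_right hmn)) ha ha'

lemma lio_sq {d : ℕ} (hd : d ≠ 0) : liouville d * liouville d = 1 := by
  rw [liouville_apply hd, ← mul_pow]
  simp

lemma conv (q : ℕ) (χ : DirichletCharacter ℂ q) (g : ℕ → ℂ)
    (hg : ∀ d n, Nat.Coprime d q → g (d * n) = χ d * g n) (n : ℕ) :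
    LSeries.convolution (fun n : ℕ => χ n) (fun n => lio n * g n) n = g n * lio n * r q n := by
  rw [LSeries.convolution_def, r_apply]
  beta_reduce
  rw [Nat.sum_divisorsAntidiagonal fun d m => χ d * (lio m * g m), Int.cast_sum, mul_sum]
  refine sum_congr rfl fun d hd => ?_
  obtain ⟨⟨m, rfl⟩, h0⟩ := Nat.mem_divisors.1 hd
  have hd0 : d ≠ 0 := left_ne_zero_of_mul h0
  rw [Nat.mul_div_cancel_left m (Nat.pos_of_ne_zero hd0), u_apply]
  split_ifs with h
  · have h1 : (liouville d : ℂ) * liouville d = 1 := by exact_mod_cast lio_sq hd0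
    rw [hg d m h, lio, lio, liouville_apply_mul]
    push_cast
    linear_combination (-(χ d * g m * liouville m)) * h1
  · rw [χ.map_nonunit fun h' => h ((ZMod.isUnit_iff_coprime d q).1 h')]
    simp

lemma lio_le (n : ℕ) : ‖lio n‖ ≤ 1 := by
  by_cases h : n = 0
  · simp [h, lio]
  · simp [lio, liouville_apply h]

lemma sum_le (q N : ℕ) (hq : 1 ≤ q) (t : ℕ → ℝ) (h0 : t 0 ≤ 0)
    (ht : ∀ n, n ≠ 0 → t n ≤ |(r q n : ℝ)| / n) : ∑ n ∈ range N, t n ≤ 2 * q := by
  let T := image (fun x : ℕ × ℕ => x.1 * x.2 ^ 2) (Icc 1 q ×ˢ Ioo 0 N)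
  have h1 : ∑ n ∈ range N, t n ≤ ∑ n ∈ range N with n ∈ T, 1 / (n : ℝ) := by
    rw [sum_filter]
    refine sum_le_sum fun n hn => ?_
    by_cases hn0 : n = 0
    · subst hn0
      simpa using h0
    refine (ht n hn0).trans ?_
    rcases r_cases q n with h | ⟨h, a, b, ha, rfl⟩
    · rw [h]
      split_ifs
      · simp
      · simp
    · have ha0 : a ≠ 0 := left_ne_zero_of_mul hn0
      have hb0 : b ≠ 0 := fun e => hn0 (by simp [e])
      have hb : b ≤ a * b ^ 2 := Nat.le_of_dvd (Nat.pos_of_ne_zero hn0) ⟨a * b, by ring⟩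
      have hT : a * b ^ 2 ∈ T := mem_image.2 ⟨(a, b), mem_product.2
        ⟨mem_Icc.2 ⟨Nat.pos_of_ne_zero ha0, Nat.le_of_dvd hq ha⟩,
          mem_Ioo.2 ⟨Nat.pos_of_ne_zero hb0, hb.trans_lt (mem_range.1 hn)⟩⟩, rfl⟩
      rw [h, if_pos hT]
      simp
  have h2 : ∑ n ∈ range N with n ∈ T, 1 / (n : ℝ) ≤ ∑ n ∈ T, 1 / (n : ℝ) :=
    sum_le_sum_of_subset_of_nonneg (fun n hn => (mem_filter.1 hn).2) fun n _ _ => by positivity
  have h3 : ∑ n ∈ T, 1 / (n : ℝ) ≤
      ∑ x ∈ Icc 1 q ×ˢ Ioo 0 N, 1 / ((x.1 * x.2 ^ 2 : ℕ) : ℝ) :=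
    sum_image_le_of_nonneg (f := fun n : ℕ => 1 / (n : ℝ)) fun n _ => by positivity
  refine h1.trans (h2.trans (h3.trans ?_))
  rw [sum_product]
  refine (sum_le_card_nsmul _ _ 2 fun a ha => ?_).trans (le_of_eq (by simp [mul_comm]))
  have h4 := sum_Ioo_inv_sq_le (α := ℝ) 0 N
  rw [Nat.cast_zero, zero_add, div_one] at h4
  refine (sum_le_sum fun b hb => ?_).trans h4
  have ha1 : (1 : ℝ) ≤ a := by exact_mod_cast (mem_Icc.1 ha).1
  have hb1 : (0 : ℝ) < b := by exact_mod_cast (mem_Ioo.1 hb).1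
  push_cast
  rw [one_div]
  exact inv_anti₀ (by positivity) (le_mul_of_one_le_left (by positivity) ha1)

end F1

open F1

theorem st_F1 : F1St := by
  intro q χ g s hq hs hg hm
  have hf : LSeriesSummable (fun n => lio n * g n) s :=
    LSeriesSummable_of_bounded_of_one_lt_re (m := 1) (fun n _ => by
      rw [norm_mul]
      exact mul_le_one₀ (lio_le n) (norm_nonneg _) (hg n)) hs
  have hχ : LSeriesSummable (fun n : ℕ => χ n) s :=
    LSeriesSummable_of_bounded_of_one_lt_re (m := 1) (fun n _ => χ.norm_le_one _) hs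
  rw [mul_comm, ← norm_mul, ← LSeries_convolution' hχ hf]
  refine (norm_tsum_le_tsum_norm (hχ.convolution hf).norm).trans ?_
  refine Real.tsum_le_of_sum_range_le (fun n => norm_nonneg _) fun N => ?_
  refine sum_le q N hq _ (by simp) fun n hn => ?_
  have hn1 : (1 : ℝ) ≤ n := by exact_mod_cast Nat.pos_of_ne_zero hn
  rw [LSeries.norm_term_eq, if_neg hn, conv q χ g hm, norm_mul, norm_mul, Complex.norm_intCast]
  have h1 := mul_le_one₀ (hg n) (norm_nonneg _) (lio_le n)
  have h2 : (n : ℝ) ≤ (n : ℝ) ^ s.re := by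
    conv_lhs => rw [← Real.rpow_one n]
    exact Real.rpow_le_rpow_of_exponent_le hn1 hs.le
  exact div_le_div₀ (abs_nonneg _) (mul_le_of_le_one_left (abs_nonneg _) h1) (by linarith) h2

end Pool.Agent.Lib.MP_028aa5_nt.T
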