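import Pool.Agent.Lib.MP_028aa5_nt.T.St3

/-! A nearly invariant pair of weights forces large Fourier coefficients. -/

namespace Pool.Agent.Lib.MP_028aa5_nt.T

open Finset
open scoped ComplexConjugate Classical

namespace Four

variable {Γ Ξ : Type} [Fintype Γ] [Fintype Ξ] {c : Ξ → Γ → ℂ}

omit [Fintype Ξ] in
lemma gram (hn : ∀ ξ g, ‖c ξ g‖ = 1) (ho : ∀ ξ ξ', ξ ≠ ξ' → ∑ g, c ξ g * conj (c ξ' g) = 0)
    (ξ ξ' : Ξ) : ∑ g, c ξ g * conj (c ξ' g) = if ξ = ξ' then (Fintype.card Γ : ℂ) else 0 := by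
  split_ifs with h
  · subst h
    simp [Complex.mul_conj, Complex.normSq_eq_norm_sq, hn]
  · exact ho ξ ξ' h

omit [Fintype Ξ] in
lemma syn (hn : ∀ ξ g, ‖c ξ g‖ = 1) (ho : ∀ ξ ξ', ξ ≠ ξ' → ∑ g, c ξ g * conj (c ξ' g) = 0)
    (a : Ξ → ℂ) (F : Finset Ξ) :
    ∑ g, ‖∑ ξ ∈ F, a ξ * c ξ g‖ ^ 2 = Fintype.card Γ * ∑ ξ ∈ F, ‖a ξ‖ ^ 2 := by
  have h1 : ∀ z : ℂ, ((‖z‖ ^ 2 : ℝ) : ℂ) = z * conj z := fun z => by
    rw [Complex.mul_conj, Complex.normSq_eq_norm_sq]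
  apply Complex.ofReal_injective
  rw [Complex.ofReal_sum, Complex.ofReal_mul, Complex.ofReal_sum]
  simp only [h1]
  calc ∑ g, (∑ ξ ∈ F, a ξ * c ξ g) * conj (∑ ξ ∈ F, a ξ * c ξ g)
      = ∑ ξ ∈ F, ∑ ξ' ∈ F, a ξ * conj (a ξ') * ∑ g, c ξ g * conj (c ξ' g) := by
        simp only [map_sum, map_mul, sum_mul_sum]
        simp only [mul_sum]
        rw [sum_comm]
        refine sum_congr rfl fun ξ _ => ?_
        rw [sum_comm]
        exact sum_congr rfl fun ξ' _ => sum_congr rfl fun g _ => by ring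
    _ = _ := by
        simp only [gram hn ho, mul_ite, mul_zero, mul_sum]
        refine sum_congr rfl fun ξ hξ => ?_
        rw [sum_ite_eq, if_pos hξ, Complex.ofReal_natCast, mul_comm]

lemma inv (hd : ∀ g g', ∑ ξ, c ξ g * conj (c ξ g') = if g = g' then (Fintype.card Γ : ℂ) else 0)
    (f : Γ → ℂ) (g : Γ) : f g = ∑ ξ, hat c f ξ * c ξ g := by
  have hN : (Fintype.card Γ : ℂ) ≠ 0 := by
    have : Nonempty Γ := ⟨g⟩
    exact_mod_cast Fintype.card_ne_zero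
  calc f g = (Fintype.card Γ : ℂ)⁻¹ * ∑ g', f g' * ∑ ξ, c ξ g * conj (c ξ g') := by
        simp only [hd, mul_ite, mul_zero, sum_ite_eq, mem_univ, if_true]
        field_simp
    _ = _ := by
        simp only [hat, mul_sum, sum_mul]
        rw [sum_comm]
        exact sum_congr rfl fun ξ _ => sum_congr rfl fun g' _ => by ring

lemma pars (hn : ∀ ξ g, ‖c ξ g‖ = 1) (ho : ∀ ξ ξ', ξ ≠ ξ' → ∑ g, c ξ g * conj (c ξ' g) = 0)
    (hd : ∀ g g', ∑ ξ, c ξ g * conj (c ξ g') = if g = g' then (Fintype.card Γ : ℂ) else 0)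
    (f : Γ → ℂ) : ∑ g, ‖f g‖ ^ 2 = Fintype.card Γ * ∑ ξ, ‖hat c f ξ‖ ^ 2 := by
  rw [← syn hn ho]
  exact sum_congr rfl fun g _ => by rw [← inv hd f g]

lemma var (S : Finset ℕ) (U : ℂ) (L : ℕ → ℂ) :
    #S * ∑ p ∈ S, ‖L p‖ ^ 2 - ‖∑ p ∈ S, L p‖ ^ 2 ≤ #S * ∑ p ∈ S, ‖U + L p‖ ^ 2 := by
  simp only [← Complex.normSq_eq_norm_sq, Complex.normSq_add, sum_add_distrib, sum_const,
    nsmul_eq_mul, ← mul_sum, ← Complex.re_sum, ← map_sum]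
  have h := Complex.normSq_nonneg ((#S : ℝ) * U + ∑ p ∈ S, L p)
  rw [Complex.normSq_add, Complex.normSq_mul, Complex.normSq_ofReal, mul_assoc (↑(#S : ℝ) : ℂ),
    Complex.re_ofReal_mul] at h
  nlinarith

lemma tail (hn : ∀ ξ g, ‖c ξ g‖ = 1) (ho : ∀ ξ ξ', ξ ≠ ξ' → ∑ g, c ξ g * conj (c ξ' g) = 0)
    (hd : ∀ g g', ∑ ξ, c ξ g * conj (c ξ g') = if g = g' then (Fintype.card Γ : ℂ) else 0)
    {S : Finset ℕ} {n : ℝ} {s : ℕ → Γ ≃ Γ} {m : Ξ → ℂ} (h0 : 0 < n) (h1 : #S ≤ n)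
    (h2 : 7 / 8 * n ≤ #S) (hm : ∀ ξ g, (n : ℂ)⁻¹ * ∑ p ∈ S, c ξ (s p g) = m ξ * c ξ g)
    (g₀ : Γ) (F : Finset Ξ) (hF : ∀ ξ ∈ F, ‖m ξ‖ < 1 / 2) (U L : Γ → ℂ) (E : ℝ)
    (hE : ∑ g, ∑ p ∈ S, ‖U g + L (s p g)‖ ^ 2 ≤ n * E) :
    Fintype.card Γ * ∑ ξ ∈ F, ‖hat c L ξ‖ ^ 2 ≤ 2 * E := by
  have hnC : (n : ℂ) ≠ 0 := by exact_mod_cast h0.ne'
  have hm' : ∀ ξ g, ∑ p ∈ S, c ξ (s p g) = n * m ξ * c ξ g := by
    intro ξ g
    rw [mul_assoc, ← hm, ← mul_assoc, mul_inv_cancel₀ hnC, one_mul]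
  have hb : ∀ ξ, n * ‖m ξ‖ ≤ #S := by
    intro ξ
    have a := norm_sum_le S fun p => c ξ (s p g₀)
    rw [hm', norm_mul, norm_mul, hn, Complex.norm_real, Real.norm_of_nonneg h0.le] at a
    simpa [hn] using a
  have e1 : ∑ g, ‖∑ p ∈ S, L (s p g)‖ ^ 2 =
      Fintype.card Γ * ∑ ξ, ‖hat c L ξ * (n * m ξ)‖ ^ 2 := by
    rw [← syn hn ho]
    refine sum_congr rfl fun g _ => ?_
    congr 2
    calc ∑ p ∈ S, L (s p g) = ∑ p ∈ S, ∑ ξ, hat c L ξ * c ξ (s p g) :=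
          sum_congr rfl fun p _ => inv hd L _
      _ = _ := by
          rw [sum_comm]
          exact sum_congr rfl fun ξ _ => by rw [← mul_sum, hm']; ring
  have e2 : ∑ g, ∑ p ∈ S, ‖L (s p g)‖ ^ 2 = #S * (Fintype.card Γ * ∑ ξ, ‖hat c L ξ‖ ^ 2) := by
    rw [sum_comm, ← pars hn ho hd, ← nsmul_eq_mul, ← sum_const]
    exact sum_congr rfl fun p _ => (s p).sum_comp fun g => ‖L g‖ ^ 2
  have e3 := sum_le_sum fun g (_ : g ∈ (univ : Finset Γ)) => var S (U g) fun p => L (s p g)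
  rw [sum_sub_distrib, ← mul_sum, ← mul_sum, e1, e2] at e3
  have hN : (0 : ℝ) ≤ Fintype.card Γ := Nat.cast_nonneg _
  have e4 : n ^ 2 / 2 * ∑ ξ ∈ F, ‖hat c L ξ‖ ^ 2 ≤
      ∑ ξ, ((#S : ℝ) ^ 2 * ‖hat c L ξ‖ ^ 2 - ‖hat c L ξ * (n * m ξ)‖ ^ 2) := by
    have k : ∀ ξ, (#S : ℝ) ^ 2 * ‖hat c L ξ‖ ^ 2 - ‖hat c L ξ * (n * m ξ)‖ ^ 2 =
        ((#S : ℝ) ^ 2 - (n * ‖m ξ‖) ^ 2) * ‖hat c L ξ‖ ^ 2 := by
      intro ξ
      rw [norm_mul, norm_mul, Complex.norm_real, Real.norm_of_nonneg h0.le]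
      ring
    simp only [k]
    rw [mul_sum]
    refine le_trans (sum_le_sum fun ξ hξ => ?_) (sum_le_univ_sum_of_nonneg fun ξ => ?_)
    · refine mul_le_mul_of_nonneg_right ?_ (sq_nonneg _)
      have a := hF ξ hξ
      have b : n * ‖m ξ‖ ≤ n / 2 := by nlinarith
      have d : 0 ≤ n * ‖m ξ‖ := by positivity
      nlinarith
    · refine mul_nonneg ?_ (sq_nonneg _)
      have a := hb ξ
      have d : 0 ≤ n * ‖m ξ‖ := by positivity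
      nlinarith
  rw [sum_sub_distrib, ← mul_sum] at e4
  have e5 : 0 ≤ ∑ g, ∑ p ∈ S, ‖U g + L (s p g)‖ ^ 2 := by positivity
  have e6 : (#S : ℝ) * ∑ g, ∑ p ∈ S, ‖U g + L (s p g)‖ ^ 2 ≤ n * (n * E) :=
    (mul_le_mul_of_nonneg_right h1 e5).trans (mul_le_mul_of_nonneg_left hE h0.le)
  have e7 := mul_le_mul_of_nonneg_left e4 hN
  have e8 : n ^ 2 * (Fintype.card Γ * ∑ ξ ∈ F, ‖hat c L ξ‖ ^ 2) ≤ n ^ 2 * (2 * E) := by
    nlinarith
  exact le_of_mul_le_mul_left e8 (by positivity)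

omit [Fintype Ξ] in
lemma cs3 (Λ x y : Γ → ℂ) {C X Y : ℝ} (hC : 0 ≤ C) (hX : 0 ≤ X) (hY : 0 ≤ Y)
    (hΛ : ∀ g, ‖Λ g‖ ≤ C) (hx : ∑ g, ‖x g‖ ^ 2 ≤ X ^ 2) (hy : ∑ g, ‖y g‖ ^ 2 ≤ Y ^ 2) :
    ‖∑ g, Λ g * x g * conj (y g)‖ ≤ C * (X * Y) := by
  calc ‖∑ g, Λ g * x g * conj (y g)‖ ≤ ∑ g, C * (‖x g‖ * ‖y g‖) := by
        refine (norm_sum_le _ _).trans (sum_le_sum fun g _ => ?_)
        rw [norm_mul, norm_mul, Complex.norm_conj, mul_assoc]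
        exact mul_le_mul_of_nonneg_right (hΛ g) (by positivity)
    _ ≤ _ := by
        rw [← mul_sum]
        refine mul_le_mul_of_nonneg_left ((Real.sum_mul_le_sqrt_mul_sqrt _ _ _).trans ?_) hC
        exact mul_le_mul (Real.sqrt_le_iff.2 ⟨hX, hx⟩) (Real.sqrt_le_iff.2 ⟨hY, hy⟩)
          (Real.sqrt_nonneg _) hX

omit [Fintype Ξ] in
lemma main (hn : ∀ ξ g, ‖c ξ g‖ = 1) (ho : ∀ ξ ξ', ξ ≠ ξ' → ∑ g, c ξ g * conj (c ξ' g) = 0)
    {dv : Ξ → Ξ → Ξ} (hv : ∀ ξ ξ' g, c (dv ξ ξ') g = c ξ g * conj (c ξ' g)) (g₀ : Γ)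
    (F : Finset Ξ) (Λ : Γ → ℂ) (a b : Ξ → ℂ) {C B : ℝ} (hC : 0 < C)
    (ha : Fintype.card Γ * ∑ ξ ∈ F, ‖a ξ‖ ^ 2 ≤ B)
    (hb : Fintype.card Γ * ∑ ξ ∈ F, ‖b ξ‖ ^ 2 ≤ C ^ 2 * B) :
    ‖∑ g, Λ g * (∑ ξ ∈ F, a ξ * c ξ g) * conj (∑ ξ ∈ F, b ξ * c ξ g)‖ ≤
      C * B * ∑ ζ ∈ image₂ dv F F, ‖hat c Λ ζ‖ := by
  have : Nonempty Γ := ⟨g₀⟩
  have hN : (Fintype.card Γ : ℂ) ≠ 0 := by exact_mod_cast Fintype.card_ne_zero
  have hc : ∀ ξ g, c ξ g ≠ 0 := fun ξ g h => by simpa [h] using hn ξ g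
  have inj : ∀ ξ ξ', (∀ g, c ξ g = c ξ' g) → ξ = ξ' := by
    intro ξ ξ' h
    by_contra hne
    have a := ho ξ ξ' hne
    simp only [← h] at a
    rw [gram hn ho, if_pos rfl] at a
    exact hN a
  set Z := ∑ ζ ∈ image₂ dv F F, ‖hat c Λ ζ‖ with hZ
  have hZ0 : 0 ≤ Z := by positivity
  have z1 : ∀ ξ ∈ F, ∑ ξ' ∈ F, ‖hat c Λ (dv ξ' ξ)‖ ≤ Z := by
    intro ξ hξ
    rw [← sum_image (f := fun ζ => ‖hat c Λ ζ‖) (g := fun ξ' => dv ξ' ξ)]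
    · refine sum_le_sum_of_subset_of_nonneg (fun ζ hζ => ?_) fun _ _ _ => norm_nonneg _
      obtain ⟨ξ', h, rfl⟩ := mem_image.1 hζ
      exact mem_image₂_of_mem h hξ
    · intro x _ y _ h
      refine inj x y fun g => ?_
      have e := hv x ξ g
      rw [show dv x ξ = dv y ξ from h, hv] at e
      exact (mul_right_cancel₀ (by simpa using hc ξ g) e).symm
  have z2 : ∀ ξ' ∈ F, ∑ ξ ∈ F, ‖hat c Λ (dv ξ' ξ)‖ ≤ Z := by
    intro ξ' hξ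
    rw [← sum_image (f := fun ζ => ‖hat c Λ ζ‖) (g := fun ξ => dv ξ' ξ)]
    · refine sum_le_sum_of_subset_of_nonneg (fun ζ hζ => ?_) fun _ _ _ => norm_nonneg _
      obtain ⟨ξ, h, rfl⟩ := mem_image.1 hζ
      exact mem_image₂_of_mem hξ h
    · intro x _ y _ h
      refine inj x y fun g => ?_
      have e := hv ξ' x g
      rw [show dv ξ' x = dv ξ' y from h, hv] at e
      exact (star_injective (mul_left_cancel₀ (hc ξ' g) e)).symm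
  have e1 : ∑ g, Λ g * (∑ ξ ∈ F, a ξ * c ξ g) * conj (∑ ξ ∈ F, b ξ * c ξ g) =
      ∑ ξ ∈ F, ∑ ξ' ∈ F, Fintype.card Γ * (a ξ * conj (b ξ') * hat c Λ (dv ξ' ξ)) := by
    have k : ∀ ξ ξ', Fintype.card Γ * (a ξ * conj (b ξ') * hat c Λ (dv ξ' ξ)) =
        ∑ g, Λ g * (a ξ * c ξ g * (conj (b ξ') * conj (c ξ' g))) := by
      intro ξ ξ'
      rw [hat, mul_left_comm, mul_inv_cancel_left₀ hN, mul_sum]
      refine sum_congr rfl fun g _ => ?_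
      rw [hv, map_mul, Complex.conj_conj]
      ring
    simp only [k]
    simp only [map_sum, map_mul, mul_assoc (Λ _), sum_mul_sum]
    simp only [mul_sum]
    rw [sum_comm]
    exact sum_congr rfl fun ξ _ => sum_comm
  have e2 : 2 * C * ‖∑ ξ ∈ F, ∑ ξ' ∈ F,
      Fintype.card Γ * (a ξ * conj (b ξ') * hat c Λ (dv ξ' ξ))‖ ≤
      C ^ 2 * (Fintype.card Γ * ∑ ξ ∈ F, ‖a ξ‖ ^ 2 * ∑ ξ' ∈ F, ‖hat c Λ (dv ξ' ξ)‖) +
        Fintype.card Γ * ∑ ξ' ∈ F, ‖b ξ'‖ ^ 2 * ∑ ξ ∈ F, ‖hat c Λ (dv ξ' ξ)‖ := by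
    refine (mul_le_mul_of_nonneg_left ((norm_sum_le _ _).trans
      (sum_le_sum fun ξ _ => norm_sum_le _ _)) (by positivity)).trans ?_
    simp only [mul_sum]
    rw [sum_comm (s := F) (t := F)
      (f := fun ξ' ξ => Fintype.card Γ * (‖b ξ'‖ ^ 2 * ‖hat c Λ (dv ξ' ξ)‖)), ← sum_add_distrib]
    refine sum_le_sum fun ξ _ => ?_
    rw [← sum_add_distrib]
    refine sum_le_sum fun ξ' _ => ?_
    rw [norm_mul, norm_mul, norm_mul, Complex.norm_conj, Complex.norm_natCast]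
    have k : 0 ≤ (Fintype.card Γ : ℝ) * ‖hat c Λ (dv ξ' ξ)‖ * (C * ‖a ξ‖ - ‖b ξ'‖) ^ 2 := by
      positivity
    nlinarith
  have hN0 : (0 : ℝ) ≤ Fintype.card Γ := Nat.cast_nonneg _
  have e3 : Fintype.card Γ * ∑ ξ ∈ F, ‖a ξ‖ ^ 2 * ∑ ξ' ∈ F, ‖hat c Λ (dv ξ' ξ)‖ ≤ B * Z := by
    refine le_trans ?_ (mul_le_mul_of_nonneg_right ha hZ0)
    rw [mul_assoc, sum_mul]
    exact mul_le_mul_of_nonneg_left
      (sum_le_sum fun ξ hξ => mul_le_mul_of_nonneg_left (z1 ξ hξ) (sq_nonneg _)) hN0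
  have e4 : Fintype.card Γ * ∑ ξ' ∈ F, ‖b ξ'‖ ^ 2 * ∑ ξ ∈ F, ‖hat c Λ (dv ξ' ξ)‖ ≤
      C ^ 2 * B * Z := by
    refine le_trans ?_ (mul_le_mul_of_nonneg_right hb hZ0)
    rw [mul_assoc, sum_mul]
    exact mul_le_mul_of_nonneg_left
      (sum_le_sum fun ξ hξ => mul_le_mul_of_nonneg_left (z2 ξ hξ) (sq_nonneg _)) hN0
  rw [e1]
  have e5 := mul_le_mul_of_nonneg_left e3 (sq_nonneg C)
  refine le_of_mul_le_mul_left ?_ (show 0 < 2 * C by positivity)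
  nlinarith

lemma split (S : Finset ℕ) (Gd : Finset (Γ × ℕ)) (hG : ∀ x ∈ Gd, x.2 ∈ S) (f : Γ → ℕ → ℝ) :
    ∑ x ∈ Gd, f x.1 x.2 = ∑ g, ∑ p ∈ S, if (g, p) ∈ Gd then f g p else 0 := by
  rw [← sum_product', ← sum_filter]
  refine sum_congr ?_ fun _ _ => rfl
  ext x
  simp only [mem_filter, mem_product, mem_univ, true_and]
  exact ⟨fun h => ⟨hG x h, h⟩, fun h => h.2⟩

lemma avg (S : Finset ℕ) (s : ℕ → Γ ≃ Γ) (u v : Γ → ℝ) (a b : ℝ) :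
    ∑ g, ∑ p ∈ S, (a * u g + b * v (s p g)) = #S * (a * ∑ g, u g + b * ∑ g, v g) := by
  rw [sum_comm, ← nsmul_eq_mul, ← sum_const]
  refine sum_congr rfl fun p _ => ?_
  rw [sum_add_distrib, ← mul_sum, ← mul_sum, (s p).sum_comp]

end Four

open Four in
theorem st_Four : FourSt := by
  intro Γ Ξ _ _ c dv S n s m vU vL Gd ΛU ΛL C1 ε1 ε2 η hn ho hd hv h0 h1 hm hU hL hG hC hΛU hΛL
    hGd hη hbig hpos hray hε0 hε1
  obtain ⟨g₀⟩ : Nonempty Γ := by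
    by_contra h
    rw [not_nonempty_iff] at h
    simp at hpos
  rw [sum_add_distrib] at hpos hray
  set A := ∑ g, vU g ^ 2 with hA
  set B := ∑ g, vL g ^ 2 with hB
  have hA0 : 0 ≤ A := by positivity
  have hB0 : 0 ≤ B := by positivity
  have hS0 : (0 : ℝ) ≤ #S := Nat.cast_nonneg _
  set R := ∑ g, ∑ p ∈ S, if (g, p) ∈ Gd then vU g * vL (s p g) else 0 with hR
  have r0 : n * ((1 - ε1) * (A + B)) ≤ 2 * R := by
    rw [split S Gd hG fun g p => vU g * vL (s p g), ← hR, div_mul_eq_mul_div,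
      le_div_iff₀ h0] at hray
    linarith
  have r1 : ∀ a b : ℝ, 0 ≤ a → 0 ≤ b → a * b = 1 → 2 * R ≤ #S * (a ^ 2 * A + b ^ 2 * B) := by
    intro a b _ _ hab
    rw [hA, hB, ← avg S s (fun g => vU g ^ 2) (fun g => vL g ^ 2), hR, mul_sum]
    refine sum_le_sum fun g _ => ?_
    rw [mul_sum]
    refine sum_le_sum fun p _ => ?_
    split_ifs
    · have k := sq_nonneg (a * vU g - b * vL (s p g))
      have e : (a * vU g - b * vL (s p g)) ^ 2 = a ^ 2 * vU g ^ 2 + b ^ 2 * vL (s p g) ^ 2 -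
          2 * (a * b) * (vU g * vL (s p g)) := by ring
      rw [e, hab] at k
      linarith
    · rw [mul_zero]
      positivity
  have r2 : 7 / 8 * n ≤ #S := by
    have a := r0.trans (r1 1 1 zero_le_one zero_le_one (one_mul 1))
    have b : n * (7 / 8 * (A + B)) ≤ n * ((1 - ε1) * (A + B)) :=
      mul_le_mul_of_nonneg_left (mul_le_mul_of_nonneg_right (by linarith) hpos.le) h0.le
    refine le_of_mul_le_mul_right ?_ hpos
    nlinarith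
  have r3 : A + B ≤ 4 * B := by
    have a := r0.trans (r1 (3 / 4) (4 / 3) (by norm_num) (by norm_num) (by norm_num))
    have b : n * (7 / 8 * (A + B)) ≤ n * ((1 - ε1) * (A + B)) :=
      mul_le_mul_of_nonneg_left (mul_le_mul_of_nonneg_right (by linarith) hpos.le) h0.le
    have d : (#S : ℝ) * ((3 / 4) ^ 2 * A + (4 / 3) ^ 2 * B) ≤
        n * ((3 / 4) ^ 2 * A + (4 / 3) ^ 2 * B) := mul_le_mul_of_nonneg_right h1 (by positivity)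
    have e := le_of_mul_le_mul_left (b.trans (a.trans d)) h0
    linarith
  have hBpos : 0 < B := by linarith
  let D : Γ → ℕ → ℝ := fun g p =>
    if (g, p) ∈ Gd then (vU g - vL (s p g)) ^ 2 else vU g ^ 2 + vL (s p g) ^ 2
  have r4 : ∑ g, ∑ p ∈ S, D g p ≤ n * (4 * ε1 * B) := by
    have e : ∑ g, ∑ p ∈ S, D g p = #S * (1 * A + 1 * B) - 2 * R := by
      rw [hA, hB, ← avg S s (fun g => vU g ^ 2) (fun g => vL g ^ 2), hR, mul_sum,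
        ← sum_sub_distrib]
      refine sum_congr rfl fun g _ => ?_
      rw [mul_sum, ← sum_sub_distrib]
      refine sum_congr rfl fun p _ => ?_
      simp only [D]
      split_ifs <;> ring
    have a : (#S : ℝ) * (1 * A + 1 * B) ≤ n * (1 * A + 1 * B) :=
      mul_le_mul_of_nonneg_right h1 (by positivity)
    have b : n * (ε1 * (A + B)) ≤ n * (ε1 * (4 * B)) :=
      mul_le_mul_of_nonneg_left (mul_le_mul_of_nonneg_left r3 hε0) h0.le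
    rw [e]
    linarith
  set 𝓔 : Finset Ξ := {ξ | 1 / 2 ≤ ‖m ξ‖} with h𝓔
  have hF : ∀ ξ ∈ 𝓔ᶜ, ‖m ξ‖ < 1 / 2 := fun ξ hξ => by simpa [h𝓔] using hξ
  let v : Γ → ℂ := fun g => vL g
  let Ψ : Γ → ℂ := fun g => vL g * ΛL g
  have t1 := tail hn ho hd h0 h1 r2 hm g₀ 𝓔ᶜ hF (fun g => -(vU g : ℂ)) v (4 * ε1 * B) (by
    refine le_trans (sum_le_sum fun g _ => sum_le_sum fun p _ => ?_) r4
    have e : ‖-(vU g : ℂ) + v (s p g)‖ ^ 2 = (vU g - vL (s p g)) ^ 2 := by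
      simp only [v]
      rw [← Complex.ofReal_neg, ← Complex.ofReal_add, Complex.norm_real, Real.norm_eq_abs, sq_abs]
      ring
    rw [e]
    simp only [D]
    split_ifs
    · exact le_rfl
    · have := mul_nonneg (hU g) (hL (s p g))
      nlinarith)
  have t2 := tail hn ho hd h0 h1 r2 hm g₀ 𝓔ᶜ hF (fun g => vU g * ΛU g) Ψ
    (8 * C1 ^ 2 * ε1 * B + 2 * ε2 ^ 2 * B) (by
    have k : ∀ g p, ‖vU g * ΛU g + Ψ (s p g)‖ ^ 2 ≤
        2 * C1 ^ 2 * D g p + (0 * vU g ^ 2 + 2 * ε2 ^ 2 * vL (s p g) ^ 2) := by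
      intro g p
      simp only [D, Ψ]
      have a1 := hU g
      have a2 := hL (s p g)
      split_ifs with hgp
      · have b1 : ‖vU g * ΛU g + vL (s p g) * ΛL (s p g)‖ ≤
            |vU g - vL (s p g)| * C1 + vL (s p g) * ε2 := by
          rw [show vU g * ΛU g + vL (s p g) * ΛL (s p g) = ((vU g - vL (s p g) : ℝ) : ℂ) * ΛU g +
            vL (s p g) * (ΛU g + ΛL (s p g)) by push_cast; ring]
          refine (norm_add_le _ _).trans ?_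
          rw [norm_mul, norm_mul, Complex.norm_real, Complex.norm_real, Real.norm_eq_abs,
            Real.norm_of_nonneg a2]
          exact add_le_add (mul_le_mul_of_nonneg_left (hΛU g) (abs_nonneg _))
            (mul_le_mul_of_nonneg_left (hGd _ hgp) a2)
        refine (pow_le_pow_left₀ (norm_nonneg _) b1 2).trans ?_
        rw [← sq_abs (vU g - vL (s p g))]
        nlinarith [sq_nonneg (|vU g - vL (s p g)| * C1 - vL (s p g) * ε2)]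
      · have b1 : ‖vU g * ΛU g + vL (s p g) * ΛL (s p g)‖ ≤ vU g * C1 + vL (s p g) * C1 := by
          refine (norm_add_le _ _).trans ?_
          rw [norm_mul, norm_mul, Complex.norm_real, Complex.norm_real, Real.norm_of_nonneg a1,
            Real.norm_of_nonneg a2]
          exact add_le_add (mul_le_mul_of_nonneg_left (hΛU g) a1)
            (mul_le_mul_of_nonneg_left (hΛL _) a2)
        refine (pow_le_pow_left₀ (norm_nonneg _) b1 2).trans ?_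
        nlinarith [sq_nonneg (vU g * C1 - vL (s p g) * C1), sq_nonneg (ε2 * vL (s p g))]
    refine (sum_le_sum fun g _ => sum_le_sum fun p _ => k g p).trans ?_
    simp only [sum_add_distrib (f := fun p => 2 * C1 ^ 2 * D _ p)]
    rw [sum_add_distrib, avg S s (fun g => vU g ^ 2) (fun g => vL g ^ 2), ← hA, ← hB]
    simp only [← mul_sum]
    have a := mul_le_mul_of_nonneg_left r4 (show 0 ≤ 2 * C1 ^ 2 by positivity)
    have b : (#S : ℝ) * (0 * A + 2 * ε2 ^ 2 * B) ≤ n * (0 * A + 2 * ε2 ^ 2 * B) :=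
      mul_le_mul_of_nonneg_right h1 (by positivity)
    linarith)
  have nv : ∑ g, ‖v g‖ ^ 2 = B := by simp [v, hB]
  have nΨ : ∑ g, ‖Ψ g‖ ^ 2 ≤ C1 ^ 2 * B := by
    rw [hB, mul_sum]
    refine sum_le_sum fun g _ => ?_
    simp only [Ψ]
    rw [norm_mul, Complex.norm_real, Real.norm_of_nonneg (hL g), mul_pow, mul_comm]
    exact mul_le_mul_of_nonneg_right (pow_le_pow_left₀ (norm_nonneg _) (hΛL g) 2) (sq_nonneg _)
  have hN0 : (0 : ℝ) ≤ Fintype.card Γ := Nat.cast_nonneg _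
  have bes : ∀ f : Γ → ℂ, Fintype.card Γ * ∑ ξ ∈ 𝓔, ‖hat c f ξ‖ ^ 2 ≤ ∑ g, ‖f g‖ ^ 2 := by
    intro f
    rw [pars hn ho hd]
    exact mul_le_mul_of_nonneg_left (sum_le_univ_sum_of_nonneg fun _ => sq_nonneg _) hN0
  have hC0 : 0 < C1 := by linarith
  have m1 := main hn ho hv g₀ 𝓔 ΛL (hat c v) (hat c Ψ) hC0 ((bes v).trans nv.le)
    ((bes Ψ).trans nΨ)
  set δ := √(ε1 + ε2 ^ 2) with hδ
  have hδ0 : 0 ≤ δ := Real.sqrt_nonneg _
  have hδ2 : δ ^ 2 = ε1 + ε2 ^ 2 := Real.sq_sqrt (by positivity)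
  have hb2 : √B ^ 2 = B := Real.sq_sqrt hB0
  have hb0 : 0 ≤ √B := Real.sqrt_nonneg _
  have m2 := cs3 ΛL (fun g => ∑ ξ ∈ 𝓔ᶜ, hat c v ξ * c ξ g) (fun g => ∑ ξ ∈ 𝓔, hat c Ψ ξ * c ξ g)
    (X := 3 * δ * √B) (Y := C1 * √B) hC0.le (by positivity) (by positivity) hΛL (by
      rw [syn hn ho, mul_pow, mul_pow, hδ2, hb2]
      nlinarith [mul_nonneg hε0 hB0, mul_nonneg (sq_nonneg ε2) hB0]) (by
      rw [syn hn ho, mul_pow, hb2]
      exact (bes Ψ).trans nΨ)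
  have m3 := cs3 ΛL v (fun g => ∑ ξ ∈ 𝓔ᶜ, hat c Ψ ξ * c ξ g)
    (X := √B) (Y := 4 * C1 * δ * √B) hC0.le hb0 (by positivity) hΛL (by rw [nv, hb2]) (by
      rw [syn hn ho, mul_pow, mul_pow, mul_pow, hδ2, hb2]
      have a : 1 ≤ C1 ^ 2 := one_le_pow₀ hC
      have b := mul_nonneg (sq_nonneg ε2) hB0
      nlinarith [mul_le_mul_of_nonneg_right a b])
  have dec : ∀ (f : Γ → ℂ) g,
      f g = ∑ ξ ∈ 𝓔, hat c f ξ * c ξ g + ∑ ξ ∈ 𝓔ᶜ, hat c f ξ * c ξ g := fun f g => by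
    rw [sum_add_sum_compl, ← inv hd]
  have low : η ^ 2 * B ≤ ‖∑ g, ΛL g * v g * conj (Ψ g)‖ := by
    have e : ∑ g, ΛL g * v g * conj (Ψ g) = ((∑ g, ‖Ψ g‖ ^ 2 : ℝ) : ℂ) := by
      rw [Complex.ofReal_sum]
      refine sum_congr rfl fun g _ => ?_
      rw [← Complex.normSq_eq_norm_sq, ← Complex.mul_conj, mul_comm (ΛL g)]
    rw [e, Complex.norm_real, Real.norm_of_nonneg (by positivity), hB, mul_sum]
    refine sum_le_sum fun g _ => ?_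
    simp only [Ψ]
    rw [norm_mul, Complex.norm_real, Real.norm_of_nonneg (hL g), mul_pow, mul_comm]
    by_cases hz : vL g = 0
    · simp [hz]
    · exact mul_le_mul_of_nonneg_left (pow_le_pow_left₀ hη (hbig g hz) 2) (sq_nonneg _)
  have tot : ∑ g, ΛL g * v g * conj (Ψ g) =
      ∑ g, ΛL g * (∑ ξ ∈ 𝓔, hat c v ξ * c ξ g) * conj (∑ ξ ∈ 𝓔, hat c Ψ ξ * c ξ g) +
      ∑ g, ΛL g * (∑ ξ ∈ 𝓔ᶜ, hat c v ξ * c ξ g) * conj (∑ ξ ∈ 𝓔, hat c Ψ ξ * c ξ g) +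
      ∑ g, ΛL g * v g * conj (∑ ξ ∈ 𝓔ᶜ, hat c Ψ ξ * c ξ g) := by
    rw [← sum_add_distrib, ← sum_add_distrib]
    refine sum_congr rfl fun g _ => ?_
    rw [← add_mul, ← mul_add, ← dec v g, ← mul_add, ← map_add, ← dec Ψ g]
  rw [tot] at low
  have fin := low.trans ((norm_add₃_le).trans (add_le_add (add_le_add m1 m2) m3))
  refine le_of_mul_le_mul_right ?_ hBpos
  have e1 : C1 * (3 * δ * √B * (C1 * √B)) = 3 * (C1 ^ 2 * δ * B) := by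
    linear_combination (3 * C1 ^ 2 * δ) * hb2
  have e2 : C1 * (√B * (4 * C1 * δ * √B)) = 4 * (C1 ^ 2 * δ * B) := by
    linear_combination (4 * C1 ^ 2 * δ) * hb2
  have e3 : 0 ≤ C1 ^ 2 * δ * B := by positivity
  rw [e1, e2] at fin
  linarith

end Pool.Agent.Lib.MP_028aa5_nt.T
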