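import Pool.Agent.Lib.MP_028aa5_nt.T.St4

/-! The logarithmic grid and elementary sums. -/

namespace Pool.Agent.Lib.MP_028aa5_nt.T

open Finset
open scoped ComplexConjugate Classical

namespace Gr

lemma card_int (U : Finset ℤ) {L : ℝ} (hL : 0 ≤ L) (h : ∀ a ∈ U, ∀ b ∈ U, (b : ℝ) - a ≤ L) :
    (#U : ℝ) ≤ L + 1 := by
  rcases U.eq_empty_or_nonempty with rfl | hU
  · simp; linarith
  · have h1 : U ⊆ Icc (U.min' hU) (U.max' hU) := fun b hb =>
      mem_Icc.2 ⟨U.min'_le b hb, U.le_max' b hb⟩
    have h2 := h _ (U.min'_mem hU) _ (U.max'_mem hU)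
    have h3 : (#(Icc (U.min' hU) (U.max' hU)) : ℤ) = U.max' hU + 1 - U.min' hU :=
      Int.card_Icc_of_le _ _ (by have := U.min'_le_max' hU; omega)
    have h4 : (#U : ℤ) ≤ U.max' hU + 1 - U.min' hU := by
      rw [← h3]; exact_mod_cast card_le_card h1
    have h5 : (#U : ℝ) ≤ (U.max' hU : ℝ) + 1 - U.min' hU := by exact_mod_cast h4
    linarith

lemma log_pw (N : ℕ) (j : ℤ) : Real.log (pw N j) = j / N * Real.log 2 := by
  rw [pw, Real.log_rpow two_pos]

lemma inv_le_log {m : ℝ} (hm : 0 < m) : 1 / (m + 1) ≤ Real.log (m + 1) - Real.log m := by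
  have h := Real.one_sub_inv_le_log_of_pos (x := (m + 1) / m) (by positivity)
  rw [Real.log_div (by positivity) hm.ne'] at h
  refine le_of_eq_of_le ?_ h
  field_simp
  ring

lemma harm {m b : ℕ} (hm : 0 < m) (h : m ≤ b) :
    ∑ n ∈ Ioc m b, 1 / (n : ℝ) ≤ Real.log b - Real.log m := by
  induction b, h using Nat.le_induction with
  | base => simp
  | succ b hb ih =>
    rw [sum_Ioc_succ_top hb]
    have := inv_le_log (m := b) (by exact_mod_cast hm.trans_le hb)
    push_cast
    linarith

lemma zeta_step {σ m : ℝ} (hσ : 0 < σ) (hm : 0 < m) :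
    (m + 1) ^ (-1 - σ) ≤ (m ^ (-σ) - (m + 1) ^ (-σ)) / σ := by
  have h1 : (m + 1) ^ (-1 - σ) = (m + 1) ^ (-σ) * (1 / (m + 1)) := by
    rw [show -1 - σ = -σ + -1 by ring, Real.rpow_add (by positivity), Real.rpow_neg_one, one_div]
  have h2 : m ^ (-σ) = (m + 1) ^ (-σ) * Real.exp (σ * (Real.log (m + 1) - Real.log m)) := by
    rw [Real.rpow_def_of_pos hm, Real.rpow_def_of_pos (by positivity), ← Real.exp_add]
    congr 1; ring
  have h3 := Real.add_one_le_exp (σ * (Real.log (m + 1) - Real.log m))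
  have h4 := mul_le_mul_of_nonneg_left (inv_le_log hm) hσ.le
  have h5 : 0 < (m + 1) ^ (-σ) := by positivity
  rw [le_div_iff₀ hσ, h1, h2]
  nlinarith

lemma zeta_range {σ : ℝ} (hσ : 0 < σ) (m : ℕ) :
    ∑ n ∈ range (m + 2), (n : ℝ) ^ (-1 - σ) ≤ 1 + (1 - ((m : ℝ) + 1) ^ (-σ)) / σ := by
  induction m with
  | zero => simp [sum_range_succ, Real.zero_rpow (show -1 - σ ≠ 0 by linarith)]
  | succ m ih =>
    rw [sum_range_succ]
    have := zeta_step (m := (m : ℝ) + 1) hσ (by positivity)
    push_cast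
    rw [show (m : ℝ) + 2 = m + 1 + 1 by ring]
    rw [sub_div] at *
    linarith

end Gr

open Gr in
theorem st_Gr : GrSt where
  pos N j := Real.rpow_pos_of_pos two_pos _
  add N j j' := by
    rw [pw, pw, pw, ← Real.rpow_add two_pos]
    push_cast
    rw [add_div]
  mul N i hN := by
    have : (N : ℝ) ≠ 0 := by positivity
    rw [pw]
    push_cast
    rw [mul_div_cancel_right₀ _ this, Real.rpow_natCast]
  mono N j j' h := Real.rpow_le_rpow_of_exponent_le one_le_two
    (div_le_div_of_nonneg_right (by exact_mod_cast h) (Nat.cast_nonneg N))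
  step N r h := by
    have := rpow_one_add_le_one_add_mul_self (s := 1) (by norm_num) (p := (r : ℝ) / N)
      (by positivity) (div_le_one_of_le₀ (by exact_mod_cast h) (Nat.cast_nonneg N))
    rw [one_add_one_eq_two, mul_one] at this
    simpa [pw] using this
  le_iff N n j hN hn := by
    rw [lq, Int.ceil_le, pw, ← Real.logb_le_iff_le_rpow one_lt_two (by positivity),
      le_div_iff₀' (by positivity)]
  lq_mul N d n hd hn := by
    have h : (N : ℝ) * Real.logb 2 (d * n : ℕ) = N * Real.logb 2 d + N * Real.logb 2 n := by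
      push_cast
      rw [Real.logb_mul (by positivity) (by positivity), mul_add]
    rw [lq, lq, lq, h]
    exact ⟨Int.ceil_add_le _ _, Int.ceil_add_ceil_le _ _⟩
  lq_near N n := by
    have h : (N : ℝ) / Real.log 2 * Real.log n = N * Real.logb 2 n := by
      rw [Real.logb]; ring
    have h1 := Int.le_ceil ((N : ℝ) * Real.logb 2 n)
    have h2 := Int.ceil_lt_add_one ((N : ℝ) * Real.logb 2 n)
    rw [h, lq, abs_le]
    constructor <;> linarith
  card N U x y hN hx hxy h := by
    have hN' : (0 : ℝ) < N := by positivity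
    have hl : 0 ≤ Real.log (y / x) := Real.log_nonneg ((one_le_div hx).2 hxy)
    refine card_int U (by positivity) fun a ha b hb => ?_
    have h1 := Real.log_le_log hx (h a ha).1
    have h2 := Real.log_le_log (Real.rpow_pos_of_pos two_pos _) (h b hb).2
    change Real.log (pw N b) ≤ _ at h2
    rw [log_pw] at h1 h2
    have h3 : ((b : ℝ) - a) * Real.log 2 ≤ N * Real.log (y / x) := by
      rw [Real.log_div (by linarith) hx.ne', ← div_le_iff₀' hN']
      have : ((b : ℝ) - a) * Real.log 2 / N = b / N * Real.log 2 - a / N * Real.log 2 := by ring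
      linarith
    have h4 := Real.log_two_gt_d9
    have h5 : 0 ≤ N * Real.log (y / x) := by positivity
    by_contra hc
    nlinarith
  geo N U σ hN h0 h1 hU := by
    have hN' : (1 : ℝ) ≤ N := by exact_mod_cast hN
    set z : ℝ := σ * Real.log 2 / N with hz
    have l1 := Real.log_two_gt_d9
    have l2 := Real.log_two_lt_d9
    have hz0 : 0 < z := by positivity
    have hr : Real.exp (-z) < 1 := Real.exp_lt_one_iff.2 (by linarith)
    have h2 : ∀ j ∈ U, pw N j ^ (-σ) = Real.exp (-z) ^ j.toNat := fun j hj => by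
      have : ((j.toNat : ℕ) : ℝ) = j := by exact_mod_cast Int.toNat_of_nonneg (hU j hj)
      rw [Real.rpow_def_of_pos (x := pw N j) (Real.rpow_pos_of_pos two_pos _), log_pw,
        ← Real.exp_nat_mul, this, hz]
      congr 1; ring
    rw [sum_congr rfl h2, ← sum_image (f := fun m : ℕ => Real.exp (-z) ^ m) (g := Int.toNat)
      fun a ha b hb hab => by
        have := hU a ha
        have := hU b hb
        omega]
    refine ((summable_geometric_of_lt_one (Real.exp_pos _).le hr).sum_le_tsum _
      fun _ _ => by positivity).trans ?_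
    rw [tsum_geometric_of_lt_one (Real.exp_pos _).le hr,
      inv_le_comm₀ (by linarith) (by positivity), inv_div]
    have h3 : Real.exp (-z) * (z + 1) ≤ 1 := by
      rw [Real.exp_neg, inv_mul_le_iff₀ (Real.exp_pos _), mul_one]
      exact Real.add_one_le_exp z
    have h4 : z ≤ 1 := by
      rw [hz, div_le_iff₀ (by linarith)]; nlinarith
    have h5 : 2 * (σ / (3 * N)) ≤ z := by
      have : z = σ / (3 * N) * (3 * Real.log 2) := by rw [hz]; field_simp
      have h6 : 0 < σ / (3 * N) := by positivity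
      nlinarith
    nlinarith
  hsum x y hx hxy := by
    have hl : 0 ≤ Real.log (y / x) := Real.log_nonneg ((one_le_div hx).2 hxy)
    rcases le_or_gt ⌊y⌋₊ ⌊x⌋₊ with h | h
    · rw [Ioc_eq_empty (not_lt.2 h), sum_empty]; positivity
    · have h1 := harm (Nat.succ_pos ⌊x⌋₊) (Nat.succ_le_of_lt h)
      have h2 := Nat.lt_floor_add_one x
      have h3 : (1 : ℝ) ≤ (⌊x⌋₊ : ℝ) + 1 := by simp
      have h4 : 1 / ((⌊x⌋₊ : ℝ) + 1) ≤ min 1 (1 / x) :=
        le_min ((div_le_one (by linarith)).2 h3) (one_div_le_one_div_of_le hx h2.le)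
      have h5 := Real.log_le_log hx h2.le
      have h6 : Real.log (⌊y⌋₊ : ℕ) ≤ Real.log y := Real.log_le_log
        (by exact_mod_cast (Nat.zero_le _).trans_lt h) (Nat.floor_le (by linarith))
      rw [← Finset.sum_Ioc_consecutive _ (Nat.le_succ ⌊x⌋₊) (Nat.succ_le_of_lt h),
        Nat.Ioc_succ_singleton, sum_singleton, Real.log_div (by linarith) hx.ne']
      push_cast at h1 ⊢
      linarith
  zeta σ S hσ := by
    have h1 : S ⊆ range (S.sup id + 2) := fun n hn =>
      mem_range.2 (by have : n ≤ S.sup id := le_sup (f := id) hn; omega)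
    refine (sum_le_sum_of_subset_of_nonneg h1 fun _ _ _ => by positivity).trans
      ((zeta_range hσ _).trans ?_)
    have : 0 < (((S.sup id : ℕ) : ℝ) + 1) ^ (-σ) := by positivity
    gcongr
    linarith

end Pool.Agent.Lib.MP_028aa5_nt.T
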