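import Pool.Agent.Lib.MP_028aa5_nt.T.St4

/-! Large values of twisted sums over integers. -/

namespace Pool.Agent.Lib.MP_028aa5_nt.T

open Finset
open scoped ComplexConjugate Classical

theorem st_HMi (hB : BoxSt) : HMiSt := by
  intro A
  obtain ⟨c, M1, hc, hbox⟩ := hB A
  refine ⟨c / 2, max M1 1, by positivity, ?_⟩
  intro M L β q g F S a hM hL8 hL9 hq hqM hg hβ hgβ hF hFA hS
  have hM1 : M1 ≤ M := (le_max_left _ _).trans hM
  have hM0 : 1 ≤ M := (le_max_right _ _).trans hM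
  have hq0 : (0 : ℝ) < q := by exact_mod_cast hq
  set I := Ioc ⌊M⌋₊ ⌊Real.exp L * M⌋₊ with hI
  have hSI : S ⊆ I := hS.trans (Ioc_subset_Ioc_right (Nat.floor_le_floor
    (mul_le_mul_of_nonneg_right (Real.exp_le_exp.2 hL8) (by linarith))))
  have hsq : ∀ n ∈ I, ((√n : ℝ) : ℂ) * ((√n : ℝ) : ℂ) = n ∧ ((√n : ℝ) : ℂ) ≠ 0 := by
    intro n hn
    have h0 : 0 < n := lt_of_le_of_lt (Nat.zero_le _) (mem_Ioc.1 hn).1
    refine ⟨?_, ?_⟩
    · rw [← Complex.ofReal_mul, Real.mul_self_sqrt (Nat.cast_nonneg n), Complex.ofReal_natCast]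
    · have : (0 : ℝ) < √n := Real.sqrt_pos.2 (by exact_mod_cast h0)
      exact_mod_cast this.ne'
  let v : ℤ × DirichletCharacter ℂ q → ℕ → ℂ := fun ξ m =>
    g ξ.2 m * e (-(ξ.1 / L) * Real.log m) / (√m : ℝ)
  let a' : ℕ → ℂ := fun m => if m ∈ S then a m / (√m : ℝ) else 0
  have hpair : ∀ ξ ∈ F, ∀ ξ' ∈ F, ‖∑ n ∈ I, v ξ n * conj (v ξ' n)‖ ≤
      (if ξ = ξ' then 9 * β else 0) + M ^ (-c) := by
    intro ξ hξ ξ' hξ'
    have h1 := hbox M L (ξ'.1 - ξ.1) 1 q 0 (fun n => g ξ.2 n * conj (g ξ'.2 n)) hM1 hL8 hL9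
      one_pos hq (Nat.coprime_one_left q)
      (by
        rw [Nat.cast_one, one_mul]
        exact hqM.trans (Real.rpow_le_rpow_of_exponent_le hM0 (by linarith)))
      (by
        have a1 := hFA ξ hξ
        have a2 := hFA ξ' hξ'
        push_cast
        exact (abs_sub _ _).trans (by linarith))
      (fun n => by rw [hg.per, hg.per])
      (fun n => by
        rw [norm_mul, Complex.norm_conj]
        exact mul_le_one₀ (hg.bd _ _) (norm_nonneg _) (hg.bd _ _))
    rw [filter_true_of_mem fun n _ => Nat.mod_one n, ← hI] at h1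
    have h2 : ∑ n ∈ I, v ξ n * conj (v ξ' n) = ∑ n ∈ I, g ξ.2 n * conj (g ξ'.2 n) *
        (e (((ξ'.1 - ξ.1 : ℤ) : ℝ) / L * Real.log n) / n) := by
      refine sum_congr rfl fun n hn => ?_
      obtain ⟨s1, s2⟩ := hsq n hn
      have e1 : e (((ξ'.1 - ξ.1 : ℤ) : ℝ) / L * Real.log n) =
          e (-(ξ.1 / L) * Real.log n) * conj (e (-(ξ'.1 / L) * Real.log n)) := by
        rw [e_mul_conj]
        congr 1
        push_cast
        ring
      simp only [v, map_div₀, map_mul, Complex.conj_ofReal]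
      rw [e1, ← s1]
      field_simp
    rw [h2]
    refine (norm_le_norm_add_norm_sub' _ _).trans (add_le_add ?_ h1)
    by_cases h : ξ = ξ'
    · subst h
      rw [if_pos (sub_self _), if_pos rfl]
      have e2 : ∑ b ∈ range q, g ξ.2 b * conj (g ξ.2 b) =
          ((∑ b ∈ range q, ‖g ξ.2 b‖ ^ 2 : ℝ) : ℂ) := by
        rw [Complex.ofReal_sum]
        exact sum_congr rfl fun b _ => by rw [Complex.mul_conj, Complex.normSq_eq_norm_sq]
      rw [e2, norm_mul, norm_div, Complex.norm_real, Complex.norm_real, Nat.cast_one, one_mul,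
        Complex.norm_natCast, Real.norm_of_nonneg (by linarith),
        Real.norm_of_nonneg (by positivity), div_mul_eq_mul_div, div_le_iff₀ hq0]
      have a1 := hgβ ξ.2
      have a2 : 0 ≤ ∑ b ∈ range q, ‖g ξ.2 b‖ ^ 2 := by positivity
      nlinarith
    · rw [if_neg h]
      split_ifs with h3
      · have h4 : ξ.2 ≠ ξ'.2 := fun h4 => h (Prod.ext (sub_eq_zero.1 h3).symm h4)
        rw [hg.orth _ _ h4]
        simp
      · simp
  have hrow : ∀ ξ ∈ F, ∑ ξ' ∈ F, ‖∑ n ∈ I, v ξ n * conj (v ξ' n)‖ ≤ 9 * β + M ^ (-(c / 2)) := by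
    intro ξ hξ
    refine (sum_le_sum (hpair ξ hξ)).trans ?_
    rw [sum_add_distrib, sum_ite_eq, if_pos hξ, sum_const, nsmul_eq_mul]
    have h1 : M ^ (-(c / 2)) = M ^ (c / 2) * M ^ (-c) := by
      rw [← Real.rpow_add (by linarith)]
      congr 1
      ring
    rw [h1]
    exact add_le_add le_rfl (mul_le_mul_of_nonneg_right hF (by positivity))
  have h := bessel I F a' v hrow (by positivity)
  have e1 : ∀ ξ : ℤ × DirichletCharacter ℂ q,
      ∑ n ∈ I, a' n * v ξ n = tw a (g ξ.2) (ξ.1 / L) S := by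
    intro ξ
    simp only [a', ite_mul, zero_mul]
    rw [← sum_filter, filter_mem_eq_inter, inter_eq_right.2 hSI, tw]
    refine sum_congr rfl fun n hn => ?_
    obtain ⟨s1, s2⟩ := hsq n (hSI hn)
    simp only [v]
    rw [← s1]
    field_simp
  have e2 : ∑ n ∈ I, ‖a' n‖ ^ 2 = ∑ m ∈ S, ‖a m‖ ^ 2 / m := by
    have k : ∀ n, ‖a' n‖ ^ 2 = if n ∈ S then ‖a n‖ ^ 2 / n else 0 := by
      intro n
      simp only [a']
      split_ifs
      · rw [norm_div, div_pow, Complex.norm_real, Real.norm_of_nonneg (Real.sqrt_nonneg _),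
          Real.sq_sqrt (Nat.cast_nonneg n)]
      · simp
    simp only [k]
    rw [← sum_filter, filter_mem_eq_inter, inter_eq_right.2 hSI]
  simpa only [e1, e2] using h

end Pool.Agent.Lib.MP_028aa5_nt.T
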