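import Pool.Agent.Lib.MP_028aa5_nt.T.St4

/-! Mean square form of the theorem of Halasz. -/

namespace Pool.Agent.Lib.MP_028aa5_nt.T

open Finset
open scoped ComplexConjugate Classical

namespace Hal

/-- the twisted function -/
noncomputable def ff (g : ℕ → ℂ) (t : ℝ) (n : ℕ) : ℂ := lio n * g n * e (-t * Real.log n)

lemma lio_zero : lio 0 = 0 := by simp [lio]

lemma ff_bd (hT : FtSt) {g : ℕ → ℂ} (hg : ∀ n, ‖g n‖ ≤ 1) (t : ℝ) (n : ℕ) : ‖ff g t n‖ ≤ 1 := by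
  rw [ff, norm_mul, norm_mul, norm_e, mul_one]
  exact mul_le_one₀ (hT.lio_bd n) (norm_nonneg _) (hg n)

lemma ff_mul (hT : FtSt) {g c : ℕ → ℂ} (t : ℝ) {d n : ℕ} (h : g (d * n) = c d * g n) :
    ff g t (d * n) = ff c t d * ff g t n := by
  rcases Nat.eq_zero_or_pos d with rfl | hd
  · simp [ff, lio_zero]
  rcases Nat.eq_zero_or_pos n with rfl | hn
  · simp [ff, lio_zero]
  have a1 : (d : ℝ) ≠ 0 := by positivity
  have a2 : (n : ℝ) ≠ 0 := by positivity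
  rw [ff, ff, ff, hT.lio_mul, h, Nat.cast_mul, Real.log_mul a1 a2, mul_add, e_add]
  ring

lemma FF_eq (g : ℕ → ℂ) (t M : ℝ) :
    FF g t M = ∑ n ∈ Ioc ⌊M⌋₊ ⌊64 * M⌋₊, ff g t n / n := by
  unfold FF tw ff
  exact sum_congr rfl fun n _ => by ring

lemma norm_mul_le {z : ℂ} {r : ℝ} (hz : ‖z‖ ≤ 1) (hr : 0 ≤ r) : ‖z * (r : ℂ)‖ ≤ r := by
  rw [norm_mul, Complex.norm_real, Real.norm_of_nonneg hr]
  exact mul_le_of_le_one_left hr hz

lemma hb_supp (N Z : ℕ) (b : ℕ → ℂ) (v : ℤ)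
    (hv : v ∉ (Icc 1 Z).biUnion fun d => Icc (lq N d - 6 * N) (lq N d - 1)) : hb N Z b v = 0 := by
  unfold hb
  refine sum_eq_zero fun d hd => absurd ?_ hv
  obtain ⟨a1, a2, a3⟩ := mem_filter.1 hd
  exact mem_biUnion.2 ⟨d, a1, mem_Icc.2 ⟨by omega, by omega⟩⟩

/-- low frequencies -/
lemma low (hG : GrSt) (hT : FtSt) {g : ℕ → ℂ} (hg : ∀ n, ‖g n‖ ≤ 1) (t θ σ : ℝ) (N Z : ℕ)
    (hσ : 0 < σ) :
    ‖∑ n ∈ Icc 1 Z, ff g t n * ((n : ℝ) ^ (-1 - σ) : ℝ) * e (-θ * (lq N n : ℤ))‖ ≤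
      ‖tw (fun n => lio n * ((n : ℝ) ^ (-σ) : ℝ)) g (t + θ * (N / Real.log 2)) (Icc 1 Z)‖ +
        7 * |θ| * (1 + 1 / σ) := by
  have e1 : tw (fun n => lio n * ((n : ℝ) ^ (-σ) : ℝ)) g (t + θ * (N / Real.log 2)) (Icc 1 Z) =
      ∑ n ∈ Icc 1 Z, ff g t n * ((n : ℝ) ^ (-1 - σ) : ℝ) *
        e (-θ * (N / Real.log 2 * Real.log n)) := by
    unfold tw ff
    refine sum_congr rfl fun n hn => ?_
    have a1 : (n : ℝ) ≠ 0 := by have := (mem_Icc.1 hn).1; positivity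
    rw [show -1 - σ = -σ - 1 by ring, Real.rpow_sub_one a1,
      show -(t + θ * (N / Real.log 2)) * Real.log n =
        -t * Real.log n + -θ * (N / Real.log 2 * Real.log n) by ring, e_add]
    push_cast
    ring
  rw [e1]
  refine (norm_le_insert' _ _).trans (add_le_add le_rfl ?_)
  rw [← sum_sub_distrib]
  refine (norm_sum_le _ _).trans (le_trans ?_
    (mul_le_mul_of_nonneg_left (hG.zeta σ (Icc 1 Z) hσ) (by positivity)))
  rw [mul_sum]
  refine sum_le_sum fun n _ => ?_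
  rw [← mul_sub, norm_mul, mul_comm]
  refine mul_le_mul ((norm_e_sub_le _ _).trans ?_)
    (norm_mul_le (ff_bd hT hg t n) (Real.rpow_nonneg (Nat.cast_nonneg n) _)) (norm_nonneg _)
    (by positivity)
  rw [← mul_sub, abs_mul, abs_neg]
  exact mul_le_mul_of_nonneg_left (mul_le_of_le_one_right (abs_nonneg _) (hG.lq_near N n))
    (by norm_num)

lemma wt {X M : ℝ} (hX : 1 < X) (h1 : X ^ (1 / 2 : ℝ) ≤ M) (h2 : M ≤ X) :
    Real.log X / 6 ≤ Real.log M * M ^ (-(1 / Real.log X)) := by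
  have hX0 : 0 < X := by linarith
  have hL : 0 < Real.log X := Real.log_pos hX
  have a0 : 0 < X ^ (1 / 2 : ℝ) := Real.rpow_pos_of_pos hX0 _
  have a1 := Real.log_le_log a0 h1
  rw [Real.log_rpow hX0] at a1
  have a2 := Real.rpow_le_rpow_of_nonpos (a0.trans_le h1) h2
    (show -(1 / Real.log X) ≤ 0 by rw [neg_nonpos]; positivity)
  rw [Real.rpow_def_of_pos hX0, show Real.log X * -(1 / Real.log X) = -1 by field_simp] at a2
  have a3 : 1 / 3 ≤ M ^ (-(1 / Real.log X)) := by linarith [Real.exp_neg_one_gt_d9]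
  calc Real.log X / 6 = 1 / 2 * Real.log X * (1 / 3) := by ring
    _ ≤ _ := mul_le_mul a1 a3 (by norm_num) (by linarith)

lemma sq_le {x y : ℂ} {w l E : ℝ} (h0 : 0 ≤ l) (h1 : l ≤ w) (h2 : ‖x - w * y‖ ≤ E) :
    l ^ 2 * ‖y‖ ^ 2 ≤ 2 * ‖x‖ ^ 2 + 2 * E ^ 2 := by
  have a1 : ‖(w : ℂ) * y‖ ≤ ‖x‖ + E := by
    have := norm_le_insert x (w * y)
    linarith
  rw [norm_mul, Complex.norm_real, Real.norm_of_nonneg (h0.trans h1)] at a1
  have a2 : l * ‖y‖ ≤ ‖x‖ + E := (mul_le_mul_of_nonneg_right h1 (norm_nonneg _)).trans a1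
  have a3 := pow_le_pow_left₀ (mul_nonneg h0 (norm_nonneg _)) a2 2
  nlinarith [sq_nonneg (‖x‖ - E)]

lemma freq {X A t θ : ℝ} {N : ℕ} (hX : 2 * N + 1 ≤ X) (ht : |t| ≤ X ^ A) (hθ : |θ| ≤ 1) :
    |t + θ * (N / Real.log 2)| ≤ X ^ (max A 0 + 1) := by
  have hN : (0 : ℝ) ≤ N := Nat.cast_nonneg N
  have hX1 : 1 ≤ X := by linarith
  have a1 : X ^ A ≤ X ^ max A 0 := Real.rpow_le_rpow_of_exponent_le hX1 (le_max_left _ _)
  have a2 : 1 ≤ X ^ max A 0 := Real.one_le_rpow hX1 (le_max_right _ _)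
  have a3 : (N : ℝ) / Real.log 2 ≤ 2 * N := by
    rw [div_le_iff₀ (Real.log_pos one_lt_two)]
    nlinarith [Real.log_two_gt_d9]
  have a4 : 0 ≤ (N : ℝ) / Real.log 2 := div_nonneg hN (Real.log_pos one_lt_two).le
  have a5 : |θ * (N / Real.log 2)| ≤ 2 * N := by
    rw [abs_mul, abs_of_nonneg a4]
    exact (mul_le_of_le_one_left a4 hθ).trans a3
  rw [Real.rpow_add_one (by linarith)]
  nlinarith [abs_add_le t (θ * (N / Real.log 2))]

end Hal

open Hal in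
theorem st_Hal (hC : ConvSt) (h1 : Hal1St) (h2 : Hal2St) (h3 : Hal3St) (hF : FSt) (hG : GrSt)
    (hT : FtSt) : HalSt := by
  intro q A δ hq hδ
  obtain ⟨C1, hC1, H1⟩ := h1
  obtain ⟨C2, hC2, H2⟩ := h2
  obtain ⟨C3, hC3, H3⟩ := h3
  obtain ⟨K, hK⟩ : ∃ K : ℝ, K = 288 * C1 + 144 * C2 + 576 * C3 ^ 2 := ⟨_, rfl⟩
  have hK0 : 0 < K := by rw [hK]; positivity
  obtain ⟨ε, hε0, hε1, hεK⟩ : ∃ ε : ℝ, 0 < ε ∧ ε ≤ 1 ∧ K * ε ≤ δ :=
    ⟨min 1 (δ / K), lt_min one_pos (div_pos hδ hK0), min_le_left _ _,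
      (le_div_iff₀' hK0).1 (min_le_right _ _)⟩
  obtain ⟨r0, hr0⟩ := exists_nat_ge (14 / ε)
  rw [div_le_iff₀ hε0] at hr0
  obtain ⟨N1, hN1⟩ := exists_nat_ge (r0 / ε)
  rw [div_le_iff₀ hε0] at hN1
  have hr1 : (14 : ℝ) ≤ r0 := by nlinarith [(Nat.cast_nonneg r0 : (0 : ℝ) ≤ r0)]
  have hr2 : 1 ≤ r0 := by exact_mod_cast (show (1 : ℝ) ≤ r0 by linarith)
  refine ⟨N1, fun N hN => ?_⟩
  have hN' : (N1 : ℝ) ≤ N := by exact_mod_cast hN
  have hN2 : (r0 : ℝ) ≤ N * ε := by nlinarith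
  have hN3 : (r0 : ℝ) ≤ N := by nlinarith [(Nat.cast_nonneg N : (0 : ℝ) ≤ N)]
  have hN4 : r0 ≤ N := by exact_mod_cast hN3
  have hN5 : 1 ≤ N := hr2.trans hN4
  have hN0 : (0 : ℝ) < N := by linarith
  obtain ⟨X1, HF⟩ := hF q (max A 0 + 1) ε hq hε0
  refine ⟨max (max X1 100) (max (2 * N + 1) (Real.exp (q / ε))), fun X hX => ?_⟩
  simp only [ge_iff_le, max_le_iff] at hX
  obtain ⟨⟨hX1, hX2⟩, hX3, hX4⟩ := hX
  intro χ g t U hg hm ht hU
  obtain ⟨Z0, HZ⟩ := HF X hX1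
  obtain ⟨Z1, hZ1⟩ := exists_nat_ge (128 * X)
  have hZ : 128 * X ≤ (max Z0 Z1 : ℕ) := hZ1.trans (by exact_mod_cast le_max_right Z0 Z1)
  have HZ' := HZ (max Z0 Z1) (le_max_left _ _) χ g
  generalize max Z0 Z1 = Z at hZ HZ'
  have hX0 : 0 < X := by linarith
  have hq' : (1 : ℝ) ≤ q := by exact_mod_cast hq
  have hL1 : q ≤ Real.log X * ε := by
    rw [← div_le_iff₀ hε0]
    exact (Real.le_log_iff_exp_le hX0).2 hX4
  have hL0 : 0 < Real.log X := Real.log_pos (by linarith)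
  have hL2 : 1 ≤ Real.log X := by nlinarith
  have hσ0 : 0 < 1 / Real.log X := by positivity
  have hσ1 : 1 / Real.log X ≤ 1 := (div_le_one hL0).2 hL2
  have H3' := fun v hv => H3 N Z q (ff g t) (ff (fun d => χ d) t) X v hN5 hq hX2 hZ (hU v hv).1
    (hU v hv).2 (ff_bd hT hg t) (ff_bd hT (fun d => χ.norm_le_one d) t)
    fun d n h => ff_mul hT t (hm d n h)
  have hlow := fun θ => low hG hT hg t θ (1 / Real.log X) N Z hσ0
  have ha : ∀ n : ℕ, ‖ff g t n * ((n : ℝ) ^ (-1 - 1 / Real.log X) : ℝ)‖ ≤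
      (n : ℝ) ^ (-1 - 1 / Real.log X) := fun n =>
    norm_mul_le (ff_bd hT hg t n) (Real.rpow_nonneg (Nat.cast_nonneg n) _)
  have hb' : ∀ d : ℕ, ‖(if Nat.Coprime d q then ff (fun d => χ d) t d *
      (ArithmeticFunction.vonMangoldt d * (d : ℝ) ^ (-1 - 1 / Real.log X) : ℝ) else 0 : ℂ)‖ ≤
      ArithmeticFunction.vonMangoldt d * (d : ℝ) ^ (-1 - 1 / Real.log X) := by
    intro d
    have := mul_nonneg (ArithmeticFunction.vonMangoldt_nonneg (n := d))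
      (Real.rpow_nonneg (Nat.cast_nonneg d) (-1 - 1 / Real.log X))
    split_ifs
    · exact norm_mul_le (ff_bd hT (fun d => χ.norm_le_one d) t d) this
    · rwa [norm_zero]
  have hconv := hC (Icc 1 Z) _ (lq N) (hb N Z _) _ r0 (2 * ε * Real.log X)
    (2 * C2 * N * ε ^ 2 * Real.log X ^ 3) hr2 (hb_supp N Z _)
    (fun θ hθ => by
      have a1 : |θ| * r0 ≤ 1 := (le_div_iff₀ (by linarith)).1 hθ
      have a0 := abs_nonneg θ
      have a2 : 14 * |θ| ≤ ε := by nlinarith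
      have a3 := HZ' _ hg hm (freq hX3 ht (show |θ| ≤ 1 by linarith))
      refine (hlow θ).trans ?_
      rw [one_div_one_div]
      nlinarith [mul_le_mul_of_nonneg_left hL2 a0, mul_le_mul_of_nonneg_right a2 hL0.le])
    (fun r hr U' => by
      refine (H2 N Z r r0 _ _ _ U' hr hN4 hσ0 hσ1 ha hb').trans ?_
      have a1 : (r0 : ℝ) / N ≤ ε := by rw [div_le_iff₀' hN0]; exact hN2
      have a2 := pow_le_pow_left₀ (by positivity) a1 2
      have a3 : 1 ≤ ε ^ 2 * Real.log X ^ 3 := by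
        have b1 : 1 ≤ Real.log X * ε := hq'.trans hL1
        have b2 : 1 ≤ (Real.log X * ε) ^ 2 := one_le_pow₀ b1
        nlinarith
      have a4 := mul_le_mul_of_nonneg_right a2 (pow_pos hL0 3).le
      rw [one_div, inv_pow, div_inv_eq_mul]
      have a5 : 0 ≤ C2 * N := by positivity
      nlinarith [mul_le_mul_of_nonneg_left (add_le_add a4 a3) a5]) U
  have hen := H1 N Z _ _ ((Icc 1 Z).biUnion fun d => Icc (lq N d - 6 * N) (lq N d - 1)) hN5 hσ0 hσ1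
    hb'
  have hcard := hG.card N U (X ^ (1 / 2 : ℝ)) X hN5 (Real.rpow_pos_of_pos hX0 _)
    (Real.rpow_le_self_of_one_le (by linarith) (by norm_num)) hU
  rw [Real.log_div hX0.ne' (Real.rpow_pos_of_pos hX0 _).ne', Real.log_rpow hX0] at hcard
  have hE : C3 * (q + Real.log X / N) ≤ 2 * C3 * ε * Real.log X := by
    have a1 : Real.log X / N ≤ Real.log X * ε := by
      rw [div_le_iff₀ hN0]
      nlinarith
    nlinarith
  have hsum := sum_le_sum fun v (hv : v ∈ U) => sq_le (by positivity)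
    (wt (by linarith) (hU v hv).1 (hU v hv).2) ((H3' v hv).trans hE)
  simp only [← FF_eq] at hsum
  rw [← mul_sum, sum_add_distrib, ← mul_sum, sum_const, nsmul_eq_mul] at hsum
  have hH := hconv.trans (add_le_add (mul_le_mul_of_nonneg_left hen (sq_nonneg _)) le_rfl)
  have hU2 : (#U : ℝ) ≤ 2 * N * Real.log X := by
    have : (1 : ℝ) ≤ N := by exact_mod_cast hN5
    nlinarith
  have hfin := hsum.trans (add_le_add (mul_le_mul_of_nonneg_left hH zero_le_two)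
    (mul_le_mul_of_nonneg_right hU2 (by positivity)))
  generalize ∑ j ∈ U, ‖FF g t (pw N j)‖ ^ 2 = S at hfin
  generalize Real.log X = L at hfin hL0
  have b1 : (L / 6) ^ 2 * S ≤ (L / 6) ^ 2 * (K * ε ^ 2 * N * L) := by
    refine hfin.trans (le_of_eq ?_)
    rw [hK]
    field_simp
    ring
  refine (le_of_mul_le_mul_left b1 (by positivity)).trans ?_
  have b2 : K * ε ^ 2 ≤ δ := by nlinarith [mul_pos hK0 hε0]
  exact mul_le_mul_of_nonneg_right (mul_le_mul_of_nonneg_right b2 hN0.le) hL0.le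

end Pool.Agent.Lib.MP_028aa5_nt.T
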