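import Pool.Agent.Lib.MP_028aa5_nt.T.St4

/-! Energy of window sums over prime powers and of the shifts of their convolution. -/

namespace Pool.Agent.Lib.MP_028aa5_nt.T

open Finset
open scoped ComplexConjugate Classical ArithmeticFunction.vonMangoldt

namespace Hal1

lemma pw_zero (N : ℕ) : pw N 0 = 1 := by simp [pw]

lemma geo (hG : GrSt) {N : ℕ} (U : Finset ℤ) (c : ℤ) {σ : ℝ} (hN : 1 ≤ N) (h0 : 0 < σ)
    (h1 : σ ≤ 1) : ∑ v ∈ U, (if 0 ≤ v + c then pw N (v + c) ^ (-σ) else 0) ≤ 3 * N / σ := by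
  rw [← sum_filter, ← sum_image (g := fun v => v + c) (f := fun j => pw N j ^ (-σ))
    fun a _ b _ h => add_right_cancel h]
  refine hG.geo N _ σ hN h0 h1 fun j hj => ?_
  obtain ⟨v, hv, rfl⟩ := mem_image.1 hj
  exact (mem_filter.1 hv).2

lemma psi_le {S : Finset ℕ} {y : ℝ} (hy : 0 ≤ y) (h : ∀ d ∈ S, 1 ≤ d ∧ (d : ℝ) ≤ y) :
    ∑ d ∈ S, Λ d ≤ 6 * y := by
  have h1 : ∑ d ∈ S, Λ d ≤ Chebyshev.psi y :=
    sum_le_sum_of_subset_of_nonneg (fun d hd => mem_Ioc.2 ⟨(h d hd).1, Nat.le_floor (h d hd).2⟩)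
      fun _ _ _ => ArithmeticFunction.vonMangoldt_nonneg
  refine h1.trans ((Chebyshev.psi_le_const_mul_self hy).trans ?_)
  have h2 : Real.log 4 ≤ 2 := by
    rw [show (4 : ℝ) = 2 ^ 2 by norm_num, Real.log_pow]
    have := Real.log_two_lt_d9
    push_cast
    linarith
  gcongr
  linarith

lemma hb_le (hG : GrSt) {N Z : ℕ} {b : ℕ → ℂ} {σ : ℝ} (hN : 1 ≤ N)
    (hb' : ∀ d, ‖b d‖ ≤ Λ d * (d : ℝ) ^ (-1 - σ)) (v : ℤ) {K : ℝ} (hK : 0 ≤ K)
    (h : ∀ d : ℕ, 1 ≤ d → pw N v < d → d ≤ 64 * pw N v → (d : ℝ) ^ (-1 - σ) ≤ K) :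
    ‖hb N Z b v‖ ≤ 384 * pw N v * K := by
  have hp := hG.pos N v
  have hm : ∀ d ∈ (Icc 1 Z).filter fun d => 1 ≤ lq N d - v ∧ lq N d - v ≤ 6 * N,
      1 ≤ d ∧ pw N v < d ∧ d ≤ 64 * pw N v := fun d hd => by
    obtain ⟨h1, h2, h3⟩ := mem_filter.1 hd
    have h4 := (mem_Icc.1 h1).1
    refine ⟨h4, not_le.1 fun h5 => ?_, ?_⟩
    · have := (hG.le_iff N d v hN h4).2 h5
      omega
    · have h5 := (hG.le_iff N d (v + (6 : ℕ) * N) hN h4).1 (by push_cast; omega)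
      rw [hG.add, hG.mul N 6 hN] at h5
      linarith
  unfold hb
  refine (norm_sum_le _ _).trans ((sum_le_sum (g := fun d => Λ d * K) fun d hd => ?_).trans ?_)
  · obtain ⟨h1, h2, h3⟩ := hm d hd
    exact (hb' d).trans (mul_le_mul_of_nonneg_left (h d h1 h2 h3)
      ArithmeticFunction.vonMangoldt_nonneg)
  · rw [← sum_mul]
    refine mul_le_mul_of_nonneg_right ((psi_le (y := 64 * pw N v) (by positivity) fun d hd =>
      ⟨(hm d hd).1, (hm d hd).2.2⟩).trans (le_of_eq (by ring))) hK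

lemma logsum (hG : GrSt) {x y ρ σ : ℝ} (hx : 1 ≤ x) (hxy : x ≤ y) (hy : y ≤ x * (1 + ρ))
    (hρ0 : 0 ≤ ρ) (hρ : ρ ≤ 1) (h0 : 0 < σ) :
    (∑ m ∈ Ioc ⌊x⌋₊ ⌊y⌋₊, Real.log m * (m : ℝ) ^ (-1 - σ)) ^ 2 ≤
      8 * ρ ^ 2 / σ ^ 2 * x ^ (-σ) + 16 * x ^ (-1 : ℝ) := by
  have hx0 : 0 < x := by linarith
  obtain ⟨A1, hA1⟩ : ∃ A1, A1 = 2 / σ * x ^ (-(σ / 2)) := ⟨_, rfl⟩
  obtain ⟨A2, hA2⟩ : ∃ A2, A2 = 2 * (2 * x) ^ (1 / 2 : ℝ) := ⟨_, rfl⟩
  have h1 : 0 ≤ A1 := by rw [hA1]; positivity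
  have h2 : 0 ≤ A2 := by rw [hA2]; positivity
  have h3 : ∀ m ∈ Ioc ⌊x⌋₊ ⌊y⌋₊, Real.log m * (m : ℝ) ^ (-1 - σ) ≤ min A1 A2 * (1 / m) := by
    intro m hm
    obtain ⟨h4, h5⟩ := mem_Ioc.1 hm
    have h6 : x < m := (Nat.floor_lt hx0.le).1 h4
    have h7 : (m : ℝ) ≤ y := (Nat.le_floor_iff (by linarith)).1 h5
    have h8 : (0 : ℝ) < m := by linarith
    have h9 : 0 ≤ Real.log m := Real.log_nonneg (by linarith)
    rw [show -1 - σ = -σ + -1 by ring, Real.rpow_add h8, Real.rpow_neg_one, ← mul_assoc, one_div]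
    refine mul_le_mul_of_nonneg_right (le_min ?_ ?_) (by positivity)
    · calc Real.log m * (m : ℝ) ^ (-σ) ≤ (m : ℝ) ^ (σ / 2) / (σ / 2) * (m : ℝ) ^ (-σ) := by
            gcongr
            exact Real.log_le_rpow_div h8.le (half_pos h0)
        _ = 2 / σ * (m : ℝ) ^ (-(σ / 2)) := by
            rw [show -(σ / 2) = σ / 2 + -σ by ring, Real.rpow_add h8]
            field_simp
        _ ≤ A1 := by
            rw [hA1]
            exact mul_le_mul_of_nonneg_left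
              (Real.rpow_le_rpow_of_nonpos hx0 h6.le (by linarith)) (by positivity)
    · calc Real.log m * (m : ℝ) ^ (-σ) ≤ Real.log m :=
            mul_le_of_le_one_right h9
              (Real.rpow_le_one_of_one_le_of_nonpos (by linarith) (by linarith))
        _ ≤ (m : ℝ) ^ (1 / 2 : ℝ) / (1 / 2) := Real.log_le_rpow_div h8.le (by norm_num)
        _ ≤ A2 := by
            have : (m : ℝ) ^ (1 / 2 : ℝ) ≤ (2 * x) ^ (1 / 2 : ℝ) :=
              Real.rpow_le_rpow h8.le (by nlinarith) (by norm_num)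
            rw [hA2]
            linarith
  have h4 : Real.log (y / x) ≤ ρ := by
    refine (Real.log_le_sub_one_of_pos (div_pos (by linarith) hx0)).trans ?_
    rw [sub_le_iff_le_add, div_le_iff₀ hx0]
    linarith
  have h5 : ∑ m ∈ Ioc ⌊x⌋₊ ⌊y⌋₊, Real.log m * (m : ℝ) ^ (-1 - σ) ≤ A1 * ρ + A2 * x⁻¹ := by
    refine (sum_le_sum h3).trans ?_
    rw [← mul_sum]
    refine (mul_le_mul_of_nonneg_left ((hG.hsum x y hx0 hxy).trans
      (add_le_add h4 (min_le_right _ _))) (le_min h1 h2)).trans ?_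
    rw [mul_add, one_div]
    gcongr
    · exact min_le_left _ _
    · exact min_le_right _ _
  have h6 : 0 ≤ ∑ m ∈ Ioc ⌊x⌋₊ ⌊y⌋₊, Real.log m * (m : ℝ) ^ (-1 - σ) :=
    sum_nonneg fun m _ => mul_nonneg (Real.log_natCast_nonneg m) (by positivity)
  have e1 : A1 ^ 2 = 4 / σ ^ 2 * x ^ (-σ) := by
    rw [hA1, mul_pow, ← Real.rpow_natCast (x ^ _), ← Real.rpow_mul hx0.le]
    congr 1
    · ring
    · congr 1
      push_cast
      ring
  have e2 : A2 ^ 2 = 8 * x := by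
    rw [hA2, mul_pow, ← Real.rpow_natCast (_ ^ _), ← Real.rpow_mul (by positivity)]
    norm_num
    ring
  calc _ ≤ (A1 * ρ + A2 * x⁻¹) ^ 2 := pow_le_pow_left₀ h6 h5 2
    _ ≤ 2 * (A1 * ρ) ^ 2 + 2 * (A2 * x⁻¹) ^ 2 := by nlinarith [sq_nonneg (A1 * ρ - A2 * x⁻¹)]
    _ = _ := by
      rw [mul_pow, mul_pow, e1, e2, Real.rpow_neg_one]
      field_simp
      ring

/-- the mass of the pairs near the position `u` -/
noncomputable def ms (N Z r : ℕ) (σ : ℝ) (u : ℤ) : ℝ :=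
  ∑ p ∈ Icc 1 Z ×ˢ Icc 1 Z, if 1 ≤ lq N p.1 + lq N p.2 - u ∧ lq N p.1 + lq N p.2 - u ≤ r then
    (p.1 : ℝ) ^ (-1 - σ) * (Λ p.2 * (p.2 : ℝ) ^ (-1 - σ)) else 0

lemma ms_nonneg (N Z r : ℕ) (σ : ℝ) (u : ℤ) : 0 ≤ ms N Z r σ u :=
  sum_nonneg fun p _ => by
    have := @ArithmeticFunction.vonMangoldt_nonneg p.2
    positivity

lemma ms_le (hG : GrSt) {N : ℕ} (Z r : ℕ) (σ : ℝ) (u : ℤ) (hN : 1 ≤ N) : ms N Z r σ u ≤
    ∑ m ∈ Ioc ⌊pw N (u - 1)⌋₊ ⌊pw N (u + r)⌋₊, Real.log m * (m : ℝ) ^ (-1 - σ) := by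
  unfold ms
  rw [← sum_filter, ← sum_fiberwise_of_maps_to (g := fun p : ℕ × ℕ => p.1 * p.2)
    (t := Ioc ⌊pw N (u - 1)⌋₊ ⌊pw N (u + r)⌋₊)]
  · refine sum_le_sum fun m hm => ?_
    have hm0 : m ≠ 0 := by
      have := (mem_Ioc.1 hm).1
      omega
    rw [← ArithmeticFunction.vonMangoldt_sum,
      ← Nat.sum_divisorsAntidiagonal' (f := fun _ d => Λ d), sum_mul]
    refine le_trans (le_of_eq (sum_congr rfl fun p hp => ?_))
      (sum_le_sum_of_subset_of_nonneg (fun p hp => ?_) fun p _ _ => ?_)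
    · rw [← (mem_filter.1 hp).2, Nat.cast_mul, Real.mul_rpow (by positivity) (by positivity)]
      ring
    · exact Nat.mem_divisorsAntidiagonal.2 ⟨(mem_filter.1 hp).2, hm0⟩
    · have := @ArithmeticFunction.vonMangoldt_nonneg p.2
      positivity
  · intro p hp
    obtain ⟨h1, h2, h3⟩ := mem_filter.1 hp
    rw [mem_product, mem_Icc, mem_Icc] at h1
    have h4 := hG.lq_mul N p.1 p.2 h1.1.1 h1.2.1
    have h5 : 1 ≤ p.1 * p.2 := Nat.mul_pos h1.1.1 h1.2.1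
    refine mem_Ioc.2 ⟨(Nat.floor_lt (hG.pos _ _).le).2 (not_le.1 fun h => ?_),
      Nat.le_floor ((hG.le_iff N _ _ hN h5).1 (by omega))⟩
    have := (hG.le_iff N _ _ hN h5).2 h
    omega

lemma ms_sq (hG : GrSt) {N : ℕ} (Z : ℕ) {r r0 : ℕ} {σ : ℝ} (u : ℤ) (hr : r < r0) (hr0 : r0 ≤ N)
    (h0 : 0 < σ) : ms N Z r σ u ^ 2 ≤
      8 * ((r0 : ℝ) / N) ^ 2 / σ ^ 2 * (if 0 ≤ u + -1 then pw N (u + -1) ^ (-σ) else 0) +
      16 * (if 0 ≤ u + -1 then pw N (u + -1) ^ (-1 : ℝ) else 0) := by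
  have hN : 1 ≤ N := by omega
  have hN0 : (0 : ℝ) < N := by exact_mod_cast hN
  have h1 := ms_le hG Z r σ u hN
  split_ifs with h
  · refine (pow_le_pow_left₀ (ms_nonneg _ _ _ _ _) h1 2).trans
      (logsum hG ?_ (hG.mono _ _ _ (by omega)) ?_ (by positivity) ?_ h0)
    · exact (pw_zero N).ge.trans (hG.mono _ _ _ h)
    · refine (hG.mono N _ (u - 1 + r0) (by omega)).trans ?_
      rw [hG.add]
      exact mul_le_mul_of_nonneg_left (hG.step N r0 hr0) (hG.pos _ _).le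
    · rw [div_le_one hN0]
      exact_mod_cast hr0
  · have h2 : ms N Z r σ u = 0 := by
      refine le_antisymm (h1.trans (le_of_eq (sum_eq_zero fun m hm => ?_))) (ms_nonneg _ _ _ _ _)
      obtain ⟨h3, h4⟩ := mem_Ioc.1 hm
      have h5 : 1 ≤ m := by omega
      have h6 := (hG.le_iff N m _ hN h5).2 ((Nat.le_floor_iff (hG.pos _ _).le).1 h4)
      have h7 : m = 1 := by
        by_contra h8
        have h9 : (2 : ℝ) ≤ m := by exact_mod_cast (by omega : 2 ≤ m)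
        have h10 := (hG.le_iff N m (N - 1) hN h5).1 (by omega)
        have h11 := (hG.le_iff N 2 (N - 1) hN (by norm_num)).2 (by exact_mod_cast h9.trans h10)
        simp [lq] at h11
      simp [h7]
    simp [h2]

lemma diff_le {N Z r : ℕ} {a b : ℕ → ℂ} {σ : ℝ} (ha : ∀ n, ‖a n‖ ≤ (n : ℝ) ^ (-1 - σ))
    (hb' : ∀ d, ‖b d‖ ≤ Λ d * (d : ℝ) ^ (-1 - σ)) (v : ℤ) :
    ‖hc N Z a b (v + r) - hc N Z a b v‖ ≤ ms N Z r σ v + ms N Z r σ (v + 6 * N) := by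
  unfold hc hb ms
  simp only [sum_filter, mul_sum]
  rw [← sum_product', ← sum_product', ← sum_sub_distrib, ← sum_add_distrib]
  refine (norm_sum_le _ _).trans (sum_le_sum fun p _ => ?_)
  have h1 : ‖a p.1 * b p.2‖ ≤ (p.1 : ℝ) ^ (-1 - σ) * (Λ p.2 * (p.2 : ℝ) ^ (-1 - σ)) := by
    rw [norm_mul]
    exact mul_le_mul (ha _) (hb' _) (norm_nonneg _) (by positivity)
  have h2 := (norm_nonneg _).trans h1
  split_ifs <;> first
    | omega
    | (simp only [sub_self, mul_zero, sub_zero, zero_sub, norm_neg, norm_zero]; linarith)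

end Hal1

open Hal1 in
theorem st_Hal1 (hG : GrSt) : Hal1St := by
  refine ⟨384 ^ 2 * 9, by norm_num, fun N Z b σ U hN h0 h1 hb' => ?_⟩
  have hN0 : (0 : ℝ) < N := by exact_mod_cast hN
  have h2 : ∀ v ∈ U, ‖hb N Z b v‖ ^ 2 ≤ 384 ^ 2 * ((if 0 ≤ v + 0 then pw N (v + 0) ^ (-σ) else 0) +
      if v ∈ Ico (-(6 * N : ℤ)) 0 then 1 else 0) := by
    intro v _
    have hp := hG.pos N v
    rw [add_zero]
    by_cases h : 0 ≤ v
    · have h3 : 1 ≤ pw N v := (pw_zero N).ge.trans (hG.mono _ _ _ h)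
      have h4 := hb_le hG (Z := Z) hN hb' v (K := pw N v ^ (-1 - σ)) (by positivity)
        fun d _ h5 _ => Real.rpow_le_rpow_of_nonpos hp h5.le (by linarith)
      rw [show -1 - σ = -1 + -σ by ring, Real.rpow_add hp, Real.rpow_neg_one, mul_assoc,
        mul_inv_cancel_left₀ hp.ne'] at h4
      have h5 : pw N v ^ (-σ) ≤ 1 := Real.rpow_le_one_of_one_le_of_nonpos h3 (by linarith)
      have h6 : 0 ≤ pw N v ^ (-σ) := by positivity
      rw [if_pos h, if_neg (by simp; omega), add_zero]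
      refine (pow_le_pow_left₀ (norm_nonneg _) h4 2).trans ?_
      nlinarith
    rw [if_neg h, zero_add]
    split_ifs with h3
    · have h4 := hb_le hG (Z := Z) hN hb' v zero_le_one fun d h5 _ _ =>
        Real.rpow_le_one_of_one_le_of_nonpos (by exact_mod_cast h5) (by linarith)
      have h5 : pw N v ≤ 1 := (hG.mono _ _ _ (not_le.1 h).le).trans (pw_zero N).le
      rw [mul_one]
      exact pow_le_pow_left₀ (norm_nonneg _) (by linarith) 2
    · have h4 : hb N Z b v = 0 := by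
        refine sum_eq_zero fun d hd => ?_
        obtain ⟨h5, -, h6⟩ := mem_filter.1 hd
        have h7 : (1 : ℝ) ≤ d := by exact_mod_cast (mem_Icc.1 h5).1
        have h8 : 0 ≤ lq N d :=
          Int.ceil_nonneg (mul_nonneg hN0.le (Real.logb_nonneg one_lt_two h7))
        rw [mem_Ico] at h3
        omega
      simp [h4]
  refine (sum_le_sum h2).trans ?_
  rw [← mul_sum, sum_add_distrib, mul_assoc, mul_div_assoc]
  refine mul_le_mul_of_nonneg_left ?_ (by norm_num)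
  have h3 := geo hG U 0 hN h0 h1
  have h4 : ∑ v ∈ U, (if v ∈ Ico (-(6 * N : ℤ)) 0 then (1 : ℝ) else 0) ≤ 6 * N := by
    rw [sum_ite_mem, sum_const, nsmul_eq_mul, mul_one]
    have h5 := card_le_card (inter_subset_right (s₁ := U) (s₂ := Ico (-(6 * N : ℤ)) 0))
    rw [Int.card_Ico] at h5
    exact_mod_cast (by omega : #(U ∩ Ico (-(6 * N : ℤ)) 0) ≤ 6 * N)
  have h5 : (6 : ℝ) * N ≤ 6 * N / σ := by
    rw [le_div_iff₀ h0]
    exact mul_le_of_le_one_right (by positivity) h1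
  have h6 : (9 : ℝ) * N / σ = 3 * N / σ + 6 * N / σ := by ring
  linarith

open Hal1 in
theorem st_Hal2 (hG : GrSt) : Hal2St := by
  refine ⟨200, by norm_num, fun N Z r r0 a b σ U hr hr0 h0 h1 ha hb' => ?_⟩
  have hN : 1 ≤ N := by omega
  have hN0 : (0 : ℝ) < N := by exact_mod_cast hN
  have h2 : ∀ c : ℤ, ∑ v ∈ U, ms N Z r σ (v + c) ^ 2 ≤
      48 * N * (((r0 : ℝ) / N) ^ 2 / σ ^ 3 + 1) := by
    intro c
    refine (sum_le_sum fun v _ => ms_sq hG Z (v + c) hr hr0 h0).trans ?_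
    simp only [add_assoc]
    rw [sum_add_distrib, ← mul_sum, ← mul_sum]
    have h3 := geo hG U (c + -1) hN h0 h1
    have h4 := geo hG U (c + -1) hN one_pos le_rfl
    have h5 : 0 ≤ N * (((r0 : ℝ) / N) ^ 2 / σ ^ 3) := by positivity
    calc _ ≤ 8 * ((r0 : ℝ) / N) ^ 2 / σ ^ 2 * (3 * N / σ) + 16 * (3 * N / 1) := by gcongr
      _ = 24 * (N * (((r0 : ℝ) / N) ^ 2 / σ ^ 3)) + 48 * N := by ring
      _ ≤ _ := by linarith
  have h3 : ∀ v ∈ U, ‖hc N Z a b (v + r) - hc N Z a b v‖ ^ 2 ≤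
      2 * ms N Z r σ (v + 0) ^ 2 + 2 * ms N Z r σ (v + 6 * N) ^ 2 := fun v _ => by
    rw [add_zero]
    refine (pow_le_pow_left₀ (norm_nonneg _) (diff_le ha hb' v) 2).trans ?_
    nlinarith [sq_nonneg (ms N Z r σ v - ms N Z r σ (v + 6 * N))]
  refine (sum_le_sum h3).trans ?_
  rw [sum_add_distrib, ← mul_sum, ← mul_sum]
  have h4 : 0 ≤ N * (((r0 : ℝ) / N) ^ 2 / σ ^ 3 + 1) := by positivity
  linarith [h2 0, h2 (6 * N)]

end Pool.Agent.Lib.MP_028aa5_nt.T
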