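import Pool.Agent.Lib.MP_028aa5_nt.T.St4

/-! The convolution with the von Mangoldt function is the window sum weighted by the logarithm. -/

namespace Pool.Agent.Lib.MP_028aa5_nt.T

open Finset
open scoped ComplexConjugate Classical

namespace Hal3J

open ArithmeticFunction

/-- grouping pairs by their product -/
lemma regroup {K : Type} [AddCommMonoid K] [Module ℝ K] (Z : ℕ) (I : Finset ℕ)
    (hI : I ⊆ Icc 1 Z) (G : ℕ → K) :
    ∑ n ∈ Icc 1 Z, ∑ d ∈ Icc 1 Z, (if d * n ∈ I then vonMangoldt d • G (d * n) else 0) =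
      ∑ m ∈ I, Real.log m • G m := by
  rw [sum_comm, ← sum_product', ← sum_filter,
    ← sum_fiberwise_of_maps_to (g := fun x : ℕ × ℕ => x.1 * x.2) (t := I)
      (fun x hx => (mem_filter.1 hx).2)]
  refine sum_congr rfl fun m hm => ?_
  have hm' := mem_Icc.1 (hI hm)
  have h : ({x ∈ {x ∈ Icc 1 Z ×ˢ Icc 1 Z | x.1 * x.2 ∈ I} | x.1 * x.2 = m} : Finset (ℕ × ℕ)) =
      m.divisorsAntidiagonal := by
    ext ⟨d, n⟩
    simp only [mem_filter, mem_product, mem_Icc, Nat.mem_divisorsAntidiagonal]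
    constructor
    · rintro ⟨-, h⟩
      exact ⟨h, by omega⟩
    · rintro ⟨h, h0⟩
      have d0 : 0 < d := Nat.pos_of_ne_zero fun h1 => h0 (by rw [← h, h1, zero_mul])
      have n0 : 0 < n := Nat.pos_of_ne_zero fun h1 => h0 (by rw [← h, h1, mul_zero])
      have d1 : d ≤ m := h ▸ Nat.le_mul_of_pos_right d n0
      have n1 : n ≤ m := h ▸ Nat.le_mul_of_pos_left n d0
      exact ⟨⟨⟨⟨d0, by omega⟩, n0, by omega⟩, h ▸ hm⟩, h⟩
  rw [h, ← vonMangoldt_sum, sum_smul,
    ← Nat.sum_divisorsAntidiagonal (fun d _ => vonMangoldt d • G m)]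
  refine sum_congr rfl fun x hx => ?_
  rw [(Nat.mem_divisorsAntidiagonal.1 hx).1]

lemma geo (p : ℝ) (hp : 0 < p) (Z : ℕ) : ∑ j ∈ Icc 1 Z, (p - 1) / p ^ j = 1 - 1 / p ^ Z := by
  induction Z with
  | zero => simp
  | succ Z ih =>
    rw [sum_Icc_succ_top (by omega), ih]
    field_simp
    ring

/-- prime powers that are not coprime to `q` -/
lemma bad (Z q : ℕ) (hq : 1 ≤ q) :
    ∑ d ∈ Icc 1 Z, (if Nat.Coprime d q then 0 else vonMangoldt d / (d : ℝ)) ≤ q := by
  have nn : ∀ d : ℕ, 0 ≤ vonMangoldt d / (d : ℝ) := fun d =>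
    div_nonneg vonMangoldt_nonneg (Nat.cast_nonneg d)
  have h1 : ∑ d ∈ Icc 1 Z, (if Nat.Coprime d q then 0 else vonMangoldt d / (d : ℝ)) =
      ∑ d ∈ Icc 1 Z with ¬Nat.Coprime d q ∧ IsPrimePow d, vonMangoldt d / (d : ℝ) := by
    rw [sum_filter]
    refine sum_congr rfl fun d _ => ?_
    by_cases h : Nat.Coprime d q
    · simp [h]
    · by_cases h' : IsPrimePow d
      · simp [h, h']
      · simp [h, h', vonMangoldt_eq_zero_iff.2 h']
  have h2 : ({d ∈ Icc 1 Z | ¬Nat.Coprime d q ∧ IsPrimePow d} : Finset ℕ) ⊆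
      (q.primeFactors ×ˢ Icc 1 Z).image fun x => x.1 ^ x.2 := by
    intro d hd
    obtain ⟨hd, hc, hp0⟩ := mem_filter.1 hd
    obtain ⟨p, j, hp, hj, rfl⟩ := (isPrimePow_nat_iff _).1 hp0
    refine mem_image.2 ⟨(p, j), mem_product.2 ⟨?_, mem_Icc.2 ⟨hj, ?_⟩⟩, rfl⟩
    · refine Nat.mem_primeFactors.2 ⟨hp, ?_, by omega⟩
      by_contra h
      exact hc (Nat.Coprime.pow_left _ ((Nat.Prime.coprime_iff_not_dvd hp).2 h))
    · exact (Nat.lt_pow_self hp.one_lt).le.trans (mem_Icc.1 hd).2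
  rw [h1]
  refine (sum_le_sum_of_subset_of_nonneg h2 fun d _ _ => nn d).trans ?_
  refine (sum_image_le_of_nonneg fun d _ => nn d).trans ?_
  rw [sum_product]
  have h3 : ∀ p ∈ q.primeFactors, ∑ j ∈ Icc 1 Z, vonMangoldt (p ^ j) / ((p ^ j : ℕ) : ℝ) ≤ 1 := by
    intro p hp
    have pp := Nat.prime_of_mem_primeFactors hp
    have p0 : (0 : ℝ) < p := by exact_mod_cast pp.pos
    refine (sum_le_sum (g := fun j => ((p : ℝ) - 1) / p ^ j) fun j hj => ?_).trans ?_
    · rw [vonMangoldt_apply_pow (by have := (mem_Icc.1 hj).1; omega), vonMangoldt_apply_prime pp]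
      push_cast
      exact div_le_div_of_nonneg_right (Real.log_le_sub_one_of_pos p0) (by positivity)
    · rw [geo p p0]
      have : 0 ≤ 1 / (p : ℝ) ^ Z := by positivity
      linarith
  refine (sum_le_sum h3).trans ?_
  rw [sum_const, nsmul_eq_mul, mul_one]
  have h4 : q.primeFactors ⊆ Icc 1 q := fun p hp =>
    mem_Icc.2 ⟨(Nat.prime_of_mem_primeFactors hp).pos, Nat.le_of_mem_primeFactors hp⟩
  have := card_le_card h4
  rw [Nat.card_Icc] at this
  exact_mod_cast (by omega : #q.primeFactors ≤ q)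

lemma log64 : Real.log 64 ≤ 5 := by
  have := Real.log_two_lt_d9
  rw [show (64 : ℝ) = 2 ^ 6 by norm_num, Real.log_pow]
  push_cast
  linarith

lemma win (hG : GrSt) (x : ℝ) (hx : 0 < x) : ∑ n ∈ Ioc ⌊x⌋₊ ⌊64 * x⌋₊, 1 / (n : ℝ) ≤ 6 := by
  have h := hG.hsum x (64 * x) hx (by linarith)
  rw [mul_div_assoc, div_self hx.ne', mul_one] at h
  linarith [log64, min_le_left (1 : ℝ) (1 / x)]

/-- the terms with `d` not coprime to `q` -/
lemma third (hG : GrSt) (Z q : ℕ) (hq : 1 ≤ q) (M : ℝ) (hM : 0 < M) :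
    ∑ n ∈ Icc 1 Z, ∑ d ∈ Icc 1 Z, (if ¬Nat.Coprime d q ∧ d * n ∈ Ioc ⌊M⌋₊ ⌊64 * M⌋₊ then
      vonMangoldt d • (1 / ((d * n : ℕ) : ℝ)) else 0) ≤ 6 * q := by
  rw [sum_comm]
  refine le_trans (sum_le_sum (g := fun d =>
    6 * if Nat.Coprime d q then 0 else vonMangoldt d / (d : ℝ)) fun d hd => ?_) ?_
  · by_cases h : Nat.Coprime d q
    · rw [if_pos h, mul_zero]
      exact (sum_eq_zero fun n _ => if_neg fun h' => h'.1 h).le
    · have d1 := (mem_Icc.1 hd).1
      have d0 : (0 : ℝ) < d := by exact_mod_cast d1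
      have nn : 0 ≤ vonMangoldt d / (d : ℝ) := div_nonneg vonMangoldt_nonneg d0.le
      rw [if_neg h, ← sum_filter]
      have h1 : ({n ∈ Icc 1 Z | ¬Nat.Coprime d q ∧ d * n ∈ Ioc ⌊M⌋₊ ⌊64 * M⌋₊} : Finset ℕ) ⊆
          Ioc ⌊M / d⌋₊ ⌊64 * (M / d)⌋₊ := by
        intro n hn
        obtain ⟨h1, h2⟩ := mem_Ioc.1 (mem_filter.1 hn).2.2
        rw [Nat.floor_lt hM.le] at h1
        rw [Nat.le_floor_iff (by positivity)] at h2
        push_cast at h1 h2
        rw [mem_Ioc, Nat.floor_lt (by positivity), Nat.le_floor_iff (by positivity),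
          div_lt_iff₀ d0, ← mul_div_assoc, le_div_iff₀ d0]
        constructor <;> linarith
      have h2 : ∀ n : ℕ, vonMangoldt d • (1 / ((d * n : ℕ) : ℝ)) =
          vonMangoldt d / (d : ℝ) * (1 / (n : ℝ)) := fun n => by
        rw [smul_eq_mul]
        push_cast
        rw [one_div, mul_inv]
        ring
      simp only [h2]
      rw [← mul_sum, mul_comm]
      refine mul_le_mul_of_nonneg_right ?_ nn
      exact (sum_le_sum_of_subset_of_nonneg h1 fun n _ _ => by positivity).trans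
        (win hG _ (by positivity))
  · rw [← mul_sum]
    exact mul_le_mul_of_nonneg_left (bad Z q hq) (by norm_num)

lemma mem_win (hG : GrSt) {N m : ℕ} (hN : 1 ≤ N) (hm : 1 ≤ m) (a b : ℤ) :
    m ∈ Ioc ⌊pw N a⌋₊ ⌊pw N b⌋₊ ↔ a < lq N m ∧ lq N m ≤ b := by
  rw [mem_Ioc, Nat.floor_lt (hG.pos N a).le, Nat.le_floor_iff (hG.pos N b).le,
    hG.le_iff N m b hN hm, ← not_le (a := lq N m), hG.le_iff N m a hN hm, not_le]

/-- one step of the grid -/
lemma edge (hG : GrSt) {N : ℕ} (hN : 1 ≤ N) (X : ℝ) (u : ℤ) (hX : 100 ≤ X)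
    (h0 : X ^ (1 / 2 : ℝ) ≤ pw N u) (h1 : pw N u ≤ 64 * X) :
    ∑ m ∈ Ioc ⌊pw N (u - 1)⌋₊ ⌊pw N u⌋₊, Real.log m • (1 / (m : ℝ)) ≤
      2 * (Real.log X / N) + 8 := by
  have X0 : 0 < X := by linarith
  have N1 : (1 : ℝ) ≤ N := by exact_mod_cast hN
  have x0 := hG.pos N (u - 1)
  have e1 : pw N u = pw N (u - 1) * pw N 1 := by
    rw [← hG.add]
    congr 1
    ring
  have s1 : pw N 1 ≤ 1 + 1 / (N : ℝ) := by simpa using hG.step N 1 hN
  have s0 := hG.pos N 1
  have iN : (1 : ℝ) / N ≤ 1 := (div_le_one (by linarith)).2 N1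
  have hs := hG.hsum _ _ x0 (hG.mono N (u - 1) u (by omega))
  have e2 : pw N u / pw N (u - 1) = pw N 1 := by
    rw [e1, mul_div_cancel_left₀ _ x0.ne']
  rw [e2] at hs
  have l1 := Real.log_le_sub_one_of_pos s0
  set s := X ^ (1 / 2 : ℝ) with hsd
  have sp : 0 < s := Real.rpow_pos_of_pos X0 _
  have ls : Real.log X ≤ 2 * s := by
    have h2 := Real.log_le_sub_one_of_pos sp
    rw [hsd, Real.log_rpow X0] at h2
    linarith
  have lX : 0 ≤ Real.log X := Real.log_nonneg (by linarith)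
  have hx : 1 / pw N (u - 1) ≤ 2 / s := by
    rw [div_le_div_iff₀ x0 sp]
    have := mul_le_mul_of_nonneg_left (show pw N 1 ≤ 2 by linarith) x0.le
    linarith
  have hL : Real.log (64 * X) ≤ 2 * Real.log X := by
    rw [Real.log_mul (by norm_num) X0.ne']
    linarith [Real.log_le_log (by norm_num) (show (64 : ℝ) ≤ X by linarith)]
  have h2 : ∑ m ∈ Ioc ⌊pw N (u - 1)⌋₊ ⌊pw N u⌋₊, Real.log m • (1 / (m : ℝ)) ≤
      2 * Real.log X * ∑ m ∈ Ioc ⌊pw N (u - 1)⌋₊ ⌊pw N u⌋₊, 1 / (m : ℝ) := by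
    rw [mul_sum]
    refine sum_le_sum fun m hm => ?_
    obtain ⟨m0, m1⟩ := mem_Ioc.1 hm
    rw [Nat.le_floor_iff (hG.pos N u).le] at m1
    have m2 : (0 : ℝ) < m := by exact_mod_cast (by omega : 0 < m)
    rw [smul_eq_mul]
    exact mul_le_mul_of_nonneg_right ((Real.log_le_log m2 (m1.trans h1)).trans hL) (by positivity)
  have h3 : ∑ m ∈ Ioc ⌊pw N (u - 1)⌋₊ ⌊pw N u⌋₊, 1 / (m : ℝ) ≤ 1 / N + 2 / s := by
    have := min_le_right (1 : ℝ) (1 / pw N (u - 1))
    linarith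
  have h4 : Real.log X * (2 / s) ≤ 4 := by
    rw [← mul_div_assoc, div_le_iff₀ sp]
    linarith
  calc _ ≤ 2 * Real.log X * (1 / N + 2 / s) :=
        h2.trans (mul_le_mul_of_nonneg_left h3 (by positivity))
    _ = 2 * (Real.log X / N) + 2 * (Real.log X * (2 / s)) := by ring
    _ ≤ _ := by linarith

/-- the weight is almost constant on a window -/
lemma weight (X M m : ℝ) (hX : 100 ≤ X) (M1 : 1 ≤ M) (MX : M ≤ X) (h0 : M ≤ m) (h1 : m ≤ 64 * M) :
    |Real.log m * m ^ (-(1 / Real.log X)) - Real.log M * M ^ (-(1 / Real.log X))| ≤ 10 := by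
  have M0 : 0 < M := by linarith
  have m0 : 0 < m := by linarith
  have lX : 0 < Real.log X := Real.log_pos (by linarith)
  set σ := 1 / Real.log X with hσ
  have σ0 : 0 < σ := by positivity
  have a0 : 0 ≤ Real.log M := Real.log_nonneg M1
  have a1 : Real.log M ≤ Real.log m := Real.log_le_log M0 h0
  have a2 : Real.log m ≤ Real.log M + 5 := by
    have := Real.log_le_log m0 h1
    rw [Real.log_mul (by norm_num) M0.ne'] at this
    linarith [log64]
  have a3 : Real.log M * σ ≤ 1 := by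
    rw [hσ, mul_one_div, div_le_one lX]
    exact Real.log_le_log M0 MX
  rw [Real.rpow_def_of_pos m0, Real.rpow_def_of_pos M0]
  set a := Real.log M
  set b := Real.log m
  have e0 : Real.exp (b * -σ) = Real.exp (a * -σ) * Real.exp ((b - a) * -σ) := by
    rw [← Real.exp_add]
    congr 1
    ring
  have A0 := Real.exp_pos (a * -σ)
  have A1 : Real.exp (a * -σ) ≤ 1 := Real.exp_le_one_iff.2 (by nlinarith)
  have B0 := Real.exp_pos ((b - a) * -σ)
  have B1 : Real.exp ((b - a) * -σ) ≤ 1 := Real.exp_le_one_iff.2 (by nlinarith)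
  have B2 : (b - a) * -σ + 1 ≤ Real.exp ((b - a) * -σ) := Real.add_one_le_exp _
  rw [e0]
  set A := Real.exp (a * -σ)
  set B := Real.exp ((b - a) * -σ)
  have e1 : b * (A * B) - a * A = A * ((b - a) * B - a * (1 - B)) := by ring
  have c1 : 0 ≤ (b - a) * B := by nlinarith
  have c2 : (b - a) * B ≤ 5 := by nlinarith
  have c3 : 0 ≤ a * (1 - B) := by nlinarith
  have c4 : a * (1 - B) ≤ 5 := by
    have : a * (1 - B) ≤ a * ((b - a) * σ) := mul_le_mul_of_nonneg_left (by linarith) a0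
    nlinarith
  rw [e1, abs_mul, abs_of_pos A0]
  have : |(b - a) * B - a * (1 - B)| ≤ 10 := abs_le.2 ⟨by linarith, by linarith⟩
  nlinarith [abs_nonneg ((b - a) * B - a * (1 - B))]

lemma term (t : ℂ) (τ : ℝ) (ht : ‖t‖ ≤ τ) (c P I I0 I1 : Prop) [Decidable c] [Decidable P]
    [Decidable I] [Decidable I0] [Decidable I1] [Decidable (¬c ∧ I)] (h0 : P → ¬I → I0)
    (h1 : I → ¬P → I1) :
    ‖(if P then (if c then t else 0) else 0) - (if I then t else 0)‖ ≤
      (if I0 then τ else 0) + (if I1 then τ else 0) + (if ¬c ∧ I then τ else 0) := by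
  have τ0 : 0 ≤ τ := (norm_nonneg t).trans ht
  by_cases hP : P <;> by_cases hI : I <;> by_cases hc : c <;> by_cases h2 : I0 <;>
    by_cases h3 : I1 <;> simp_all <;> linarith

end Hal3J

open Hal3J ArithmeticFunction

theorem st_Hal3 (hG : GrSt) : Hal3St := by
  refine ⟨100, by norm_num, fun N Z q f f0 X v hN hq hX hZ h0 h1 hf _ hmul => ?_⟩
  have X0 : 0 < X := by linarith
  have lX : 0 < Real.log X := Real.log_pos (by linarith)
  have M0 := hG.pos N v
  have M1 : 1 ≤ pw N v := (Real.one_le_rpow (by linarith) (by norm_num)).trans h0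
  have e64 : pw N (v + 6 * N) = 64 * pw N v := by
    have := hG.mul N 6 hN
    push_cast at this
    rw [hG.add, this]
    ring
  set σ := 1 / Real.log X with hσ
  have σ0 : 0 < σ := by positivity
  set G : ℕ → ℂ := fun m => f m * (((m : ℝ) ^ (-1 - σ) : ℝ) : ℂ) with hGd
  have sub : ∀ a b : ℤ, b ≤ v + 6 * N → Ioc ⌊pw N a⌋₊ ⌊pw N b⌋₊ ⊆ Icc 1 Z := by
    intro a b hb m hm
    obtain ⟨m0, m1⟩ := mem_Ioc.1 hm
    rw [Nat.le_floor_iff (hG.pos N b).le] at m1
    have h2 := hG.mono N _ _ hb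
    have h3 : (m : ℝ) ≤ Z := by linarith
    exact mem_Icc.2 ⟨by omega, by exact_mod_cast h3⟩
  have subI : Ioc ⌊pw N v⌋₊ ⌊64 * pw N v⌋₊ ⊆ Icc 1 Z := e64 ▸ sub v _ le_rfl
  have Gb : ∀ m : ℕ, 1 ≤ m → ‖G m‖ ≤ 1 / (m : ℝ) := fun m hm => by
    have m1 : (1 : ℝ) ≤ m := by exact_mod_cast hm
    have h2 : (m : ℝ) ^ (-1 - σ) ≤ 1 / m := by
      rw [one_div, ← Real.rpow_neg_one]
      exact Real.rpow_le_rpow_of_exponent_le m1 (by linarith)
    have h3 : 0 ≤ (m : ℝ) ^ (-1 - σ) := by positivity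
    simp only [hGd]
    rw [norm_mul, Complex.norm_real, Real.norm_of_nonneg h3]
    exact (mul_le_of_le_one_left h3 (hf m)).trans h2
  have eh : hc N Z (fun n => f n * ((n : ℝ) ^ (-1 - σ) : ℝ))
      (fun d => if Nat.Coprime d q then
        f0 d * (vonMangoldt d * (d : ℝ) ^ (-1 - σ) : ℝ) else 0) v =
      ∑ n ∈ Icc 1 Z, ∑ d ∈ Icc 1 Z,
        if 1 ≤ lq N d - (v - lq N n) ∧ lq N d - (v - lq N n) ≤ 6 * N then
          (if Nat.Coprime d q then vonMangoldt d • G (d * n) else 0) else 0 := by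
    unfold hc hb
    refine sum_congr rfl fun n _ => ?_
    rw [sum_filter, mul_sum]
    refine sum_congr rfl fun d _ => ?_
    split_ifs with h2 h3
    · simp only [hGd]
      rw [hmul d n h3, Nat.cast_mul, Real.mul_rpow (Nat.cast_nonneg d) (Nat.cast_nonneg n),
        Complex.real_smul]
      push_cast
      ring
    · simp
    · simp
  have hA : ‖∑ m ∈ Ioc ⌊pw N v⌋₊ ⌊64 * pw N v⌋₊, Real.log m • G m -
      (Real.log (pw N v) * pw N v ^ (-σ) : ℝ) *
        ∑ n ∈ Ioc ⌊pw N v⌋₊ ⌊64 * pw N v⌋₊, f n / n‖ ≤ 60 := by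
    rw [mul_sum, ← sum_sub_distrib]
    refine (norm_sum_le _ _).trans (le_trans (sum_le_sum (g := fun m : ℕ => 10 * (1 / (m : ℝ)))
      fun m hm => ?_) ?_)
    · obtain ⟨m0, m1⟩ := mem_Ioc.1 hm
      rw [Nat.floor_lt M0.le] at m0
      rw [Nat.le_floor_iff (by positivity)] at m1
      have mp : (0 : ℝ) < m := by linarith
      have hw := weight X (pw N v) m hX M1 h1 m0.le m1
      have e1 : Real.log m • G m - (Real.log (pw N v) * pw N v ^ (-σ) : ℝ) * (f m / m) =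
          ((Real.log m * (m : ℝ) ^ (-σ) - Real.log (pw N v) * pw N v ^ (-σ)) * (1 / (m : ℝ)) : ℝ) *
            f m := by
        simp only [hGd]
        rw [show -1 - σ = -σ + -1 by ring, Real.rpow_add mp, Real.rpow_neg_one, Complex.real_smul]
        push_cast
        ring
      rw [e1, norm_mul, Complex.norm_real, Real.norm_eq_abs, abs_mul,
        abs_of_nonneg (show 0 ≤ 1 / (m : ℝ) by positivity)]
      exact (mul_le_of_le_one_right (by positivity) (hf m)).trans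
        (mul_le_mul_of_nonneg_right hw (by positivity))
    · rw [← mul_sum]
      linarith [win hG _ M0]
  have hB : ‖(∑ n ∈ Icc 1 Z, ∑ d ∈ Icc 1 Z,
        if 1 ≤ lq N d - (v - lq N n) ∧ lq N d - (v - lq N n) ≤ 6 * N then
          (if Nat.Coprime d q then vonMangoldt d • G (d * n) else 0) else 0) -
      ∑ m ∈ Ioc ⌊pw N v⌋₊ ⌊64 * pw N v⌋₊, Real.log m • G m‖ ≤
      4 * (Real.log X / N) + 16 + 6 * q := by
    have E0 := edge hG hN X v hX h0 (by linarith)
    have E1 := edge hG hN X (v + 6 * N) hX (by linarith) (by linarith)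
    have E2 := third hG Z q hq (pw N v) M0
    rw [← regroup Z _ (sub _ _ (by omega))] at E0
    rw [← regroup Z _ (sub _ _ le_rfl)] at E1
    rw [← regroup Z _ subI, ← sum_sub_distrib]
    refine le_trans ?_ (le_of_le_of_eq (add_le_add (add_le_add E0 E1) E2) (by ring))
    rw [← sum_add_distrib, ← sum_add_distrib]
    refine (norm_sum_le _ _).trans (sum_le_sum fun n hn => ?_)
    rw [← sum_sub_distrib, ← sum_add_distrib, ← sum_add_distrib]
    refine (norm_sum_le _ _).trans (sum_le_sum fun d hd => ?_)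
    have n1 := (mem_Icc.1 hn).1
    have d1 := (mem_Icc.1 hd).1
    have m1 : 1 ≤ d * n := Nat.mul_pos d1 n1
    obtain ⟨q1, q2⟩ := hG.lq_mul N d n d1 n1
    refine term _ _ ?_ _ _ _ _ _ ?_ ?_
    · rw [norm_smul, Real.norm_of_nonneg vonMangoldt_nonneg, smul_eq_mul]
      exact mul_le_mul_of_nonneg_left (Gb _ m1) vonMangoldt_nonneg
    · rw [← e64, mem_win hG hN m1, mem_win hG hN m1]
      omega
    · rw [← e64, mem_win hG hN m1, mem_win hG hN m1]
      omega
  rw [eh]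
  have q1 : (1 : ℝ) ≤ q := by exact_mod_cast hq
  have l0 : 0 ≤ Real.log X / N := by positivity
  refine (norm_sub_le_norm_sub_add_norm_sub _ _ _).trans ((add_le_add hB hA).trans ?_)
  linarith

end Pool.Agent.Lib.MP_028aa5_nt.T
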