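import Pool.Agent.Lib.MP_028aa5_nt.T.St2

/-! The invariant along a walk, and the combinatorics of `ab`. -/

namespace Pool.Agent.Lib.MP_028aa5_nt.T

open Finset
open scoped ComplexConjugate Classical

namespace Inv

lemma dil_dil (a b : ℝ) (α : Ph) : dil a (dil b α) = dil (a * b) α := by
  funext j
  simp only [dil, mul_pow, mul_assoc]

lemma dil_one (α : Ph) : dil 1 α = α := by
  funext j
  simp only [dil, one_pow, one_mul]

lemma dil_sub (a : ℝ) (α β : Ph) : dil a (α - β) = dil a α - dil a β := by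
  funext j
  simp only [dil, Pi.sub_apply, mul_sub]

lemma ab_down (s : Bool) (p : ℕ) (l : List ℕ) (h : s.xor (l.length % 2 == 1) = true) :
    ab s (p :: l) = ((ab s l).1 * p, (ab s l).2) := by
  rw [ab, if_pos h]

lemma ab_up (s : Bool) (p : ℕ) (l : List ℕ) (h : s.xor (l.length % 2 == 1) = false) :
    ab s (p :: l) = ((ab s l).1, (ab s l).2 * p) := by
  rw [ab, if_neg (by rw [h]; exact Bool.false_ne_true)]

lemma xor_succ (s : Bool) (n : ℕ) :
    s.xor ((n + 1) % 2 == 1) = !(s.xor (n % 2 == 1)) := by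
  rcases Nat.mod_two_eq_zero_or_one n with h | h
  · have h' : (n + 1) % 2 = 1 := by omega
    rw [h, h']
    cases s <;> rfl
  · have h' : (n + 1) % 2 = 0 := by omega
    rw [h, h']
    cases s <;> rfl

lemma opC_ne (N : Net) (D : Type) (ν : ℝ) (E : Finset N.Ed) (T : N.Ed → D ≃ D)
    (F : N.W → D → ℝ) (x : N.W) (d : D) (h : N.opC ν E T F x d ≠ 0) :
    (∃ e ∈ E, N.lo e = x ∧ F (N.up e) ((T e).symm d) ≠ 0) ∨
      ∃ e ∈ E, N.up e = x ∧ F (N.lo e) (T e d) ≠ 0 := by
  by_contra hc
  push Not at hc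
  apply h
  unfold Net.opC
  rw [sum_eq_zero, sum_eq_zero, add_zero, mul_zero]
  · intro e he
    rw [mem_filter] at he
    exact hc.2 e he.1 he.2
  · intro e he
    rw [mem_filter] at he
    exact hc.1 e he.1 he.2

lemma fac_le (k n : ℕ) (κ κ1 ρ ρ0 : ℝ) (hκ : 0 < κ) (h0 : 0 ≤ κ1) (h1 : κ1 ≤ κ) (hρ : 0 ≤ ρ) :
    (1 + 4 * (2 * (n + 2) * κ1) / κ) ^ k * ρ + (ρ0 + n * (8 * n + 17) ^ k * ρ) ≤
      ρ0 + ((n + 1 : ℕ) : ℝ) * (8 * ((n + 1 : ℕ) : ℝ) + 17) ^ k * ρ := by
  have hn : (0 : ℝ) ≤ n := Nat.cast_nonneg n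
  have h2 : 4 * (2 * (n + 2) * κ1) / κ ≤ 8 * (n + 2) := by
    rw [div_le_iff₀ hκ]
    nlinarith
  have h3 : 0 ≤ 4 * (2 * (n + 2) * κ1) / κ := by positivity
  have h4 : (1 + 4 * (2 * (n + 2) * κ1) / κ) ^ k ≤ (8 * ((n : ℝ) + 1) + 17) ^ k :=
    pow_le_pow_left₀ (by linarith) (by linarith) k
  have h5 : (8 * (n : ℝ) + 17) ^ k ≤ (8 * ((n : ℝ) + 1) + 17) ^ k :=
    pow_le_pow_left₀ (by linarith) (by linarith) k
  push_cast
  have h6 := mul_le_mul_of_nonneg_right h4 hρ
  have h7 := mul_le_mul_of_nonneg_left (mul_le_mul_of_nonneg_right h5 hρ) hn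
  nlinarith

/-- the two sublists of the downward and of the upward steps -/
def sp (s : Bool) : List ℕ → List ℕ × List ℕ
  | [] => ([], [])
  | p :: l => if s.xor (l.length % 2 == 1) then (p :: (sp s l).1, (sp s l).2)
      else ((sp s l).1, p :: (sp s l).2)

lemma sp_down (s : Bool) (p : ℕ) (l : List ℕ) (h : s.xor (l.length % 2 == 1) = true) :
    sp s (p :: l) = (p :: (sp s l).1, (sp s l).2) := by
  rw [sp, if_pos h]

lemma sp_up (s : Bool) (p : ℕ) (l : List ℕ) (h : s.xor (l.length % 2 == 1) = false) :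
    sp s (p :: l) = ((sp s l).1, p :: (sp s l).2) := by
  rw [sp, if_neg (by rw [h]; exact Bool.false_ne_true)]

lemma ab_eq (s : Bool) (l : List ℕ) : ab s l = ((sp s l).1.prod, (sp s l).2.prod) := by
  induction l with
  | nil => rfl
  | cons p l ih =>
    cases h : s.xor (l.length % 2 == 1)
    · rw [ab_up s p l h, sp_up s p l h, ih, List.prod_cons, mul_comm]
    · rw [ab_down s p l h, sp_down s p l h, ih, List.prod_cons, mul_comm]

lemma sp_mem (s : Bool) (l : List ℕ) :
    (∀ p ∈ (sp s l).1, p ∈ l) ∧ ∀ p ∈ (sp s l).2, p ∈ l := by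
  induction l with
  | nil => simp [sp]
  | cons q l ih =>
    cases h : s.xor (l.length % 2 == 1)
    · rw [sp_up s q l h]
      refine ⟨fun p hp => List.mem_cons_of_mem _ (ih.1 p hp), fun p hp => ?_⟩
      rcases List.mem_cons.1 hp with rfl | hp
      · exact List.mem_cons_self
      · exact List.mem_cons_of_mem _ (ih.2 p hp)
    · rw [sp_down s q l h]
      refine ⟨fun p hp => ?_, fun p hp => List.mem_cons_of_mem _ (ih.2 p hp)⟩
      rcases List.mem_cons.1 hp with rfl | hp
      · exact List.mem_cons_self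
      · exact List.mem_cons_of_mem _ (ih.1 p hp)

lemma sp_len (s : Bool) (l : List ℕ) :
    (sp s l).1.length = (if s then (l.length + 1) / 2 else l.length / 2) ∧
      (sp s l).2.length = (if s then l.length / 2 else (l.length + 1) / 2) := by
  induction l with
  | nil => cases s <;> simp [sp]
  | cons q l ih =>
    cases h : s.xor (l.length % 2 == 1)
    · rw [sp_up s q l h]
      simp only [List.length_cons, ih.1, ih.2]
      cases s <;> simp at h ⊢ <;> omega
    · rw [sp_down s q l h]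
      simp only [List.length_cons, ih.1, ih.2]
      cases s <;> simp at h ⊢ <;> omega

lemma sp_inj (s : Bool) (l : List ℕ) : ∀ l' : List ℕ, l.length = l'.length → sp s l = sp s l' →
    l = l' := by
  induction l with
  | nil =>
    intro l' h _
    exact (List.length_eq_zero_iff.1 h.symm).symm
  | cons q l ih =>
    intro l' h h2
    cases l' with
    | nil => simp at h
    | cons q' l' =>
      have hl : l.length = l'.length := by simpa using h
      cases h3 : s.xor (l.length % 2 == 1)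
      · rw [sp_up s q l h3, sp_up s q' l' (hl ▸ h3), Prod.mk.injEq, List.cons.injEq] at h2
        rw [h2.2.1, ih l' hl (Prod.ext h2.1 h2.2.2)]
      · rw [sp_down s q l h3, sp_down s q' l' (hl ▸ h3), Prod.mk.injEq, List.cons.injEq] at h2
        rw [h2.1.1, ih l' hl (Prod.ext h2.1.2 h2.2)]

lemma prod_le (B : ℝ) (L : List ℕ) (h : ∀ p ∈ L, 0 < p ∧ (p : ℝ) ≤ B) :
    0 < L.prod ∧ (L.prod : ℝ) ≤ B ^ L.length := by
  induction L with
  | nil => simp
  | cons q L ih =>
    obtain ⟨h1, h2⟩ := ih fun p hp => h p (List.mem_cons_of_mem _ hp)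
    obtain ⟨h3, h4⟩ := h q List.mem_cons_self
    rw [List.prod_cons, List.length_cons, pow_succ', Nat.cast_mul]
    exact ⟨Nat.mul_pos h3 h1,
      mul_le_mul h4 h2 (Nat.cast_nonneg _) ((Nat.cast_nonneg _).trans h4)⟩

/-- lists of `n` primes with product `a` -/
noncomputable def Pm (n a : ℕ) : Finset (List ℕ) :=
  a.primeFactorsList.permutations.toFinset.filter fun L => L.length = n

lemma Pm_card (n a : ℕ) : #(Pm n a) ≤ n.factorial := by
  rcases (Pm n a).eq_empty_or_nonempty with h | ⟨L, hL⟩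
  · rw [h]
    exact Nat.zero_le _
  · rw [Pm, mem_filter, List.mem_toFinset, List.mem_permutations] at hL
    have h1 : a.primeFactorsList.length = n := by rw [← hL.1.length_eq, hL.2]
    calc #(Pm n a) ≤ #a.primeFactorsList.permutations.toFinset := card_filter_le _ _
      _ ≤ a.primeFactorsList.permutations.length := List.toFinset_card_le _
      _ = n.factorial := by rw [List.length_permutations, h1]

lemma Pm_mem (n a : ℕ) (L : List ℕ) (h1 : L.length = n) (h2 : ∀ p ∈ L, p.Prime)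
    (h3 : L.prod = a) : L ∈ Pm n a := by
  rw [Pm, mem_filter, List.mem_toFinset, List.mem_permutations]
  exact ⟨Nat.primeFactorsList_unique h3 h2, h1⟩

lemma ex_ofFn (S : Finset ℕ) (n : ℕ) (L : List ℕ) (h : L.length = n) (hS : ∀ p ∈ L, p ∈ S) :
    ∃ m ∈ Fintype.piFinset fun _ : Fin n => S, List.ofFn m = L := by
  subst h
  exact ⟨L.get, Fintype.mem_piFinset.2 fun i => hS _ (List.get_mem L i), List.ofFn_get L⟩

lemma mem_ofFn (S : Finset ℕ) (n : ℕ) (l : Fin n → ℕ)
    (hl : l ∈ Fintype.piFinset fun _ : Fin n => S) : ∀ p ∈ List.ofFn l, p ∈ S := by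
  intro p hp
  obtain ⟨i, rfl⟩ := List.mem_ofFn.1 hp
  exact Fintype.mem_piFinset.1 hl i

lemma sp_len2 (s : Bool) (n : ℕ) (l : Fin (2 * n) → ℕ) :
    (sp s (List.ofFn l)).1.length = n ∧ (sp s (List.ofFn l)).2.length = n := by
  have h := sp_len s (List.ofFn l)
  rw [List.length_ofFn] at h
  have h1 : (2 * n + 1) / 2 = n := by omega
  have h2 : 2 * n / 2 = n := by omega
  rw [h1, h2, ite_self] at h
  exact h

end Inv

open Pool.Agent.Lib.MP_028aa5_nt.T.Inv

theorem st_Ab : AbSt where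
  ab_le s l B hB h := by
    obtain ⟨h1, h2⟩ := prod_le B (sp s l).1 fun p hp => h p ((sp_mem s l).1 p hp)
    obtain ⟨h3, h4⟩ := prod_le B (sp s l).2 fun p hp => h p ((sp_mem s l).2 p hp)
    obtain ⟨h5, h6⟩ := sp_len s l
    rw [ab_eq]
    refine ⟨h1, h3, h2.trans (pow_le_pow_right₀ hB ?_), h4.trans (pow_le_pow_right₀ hB ?_)⟩
    · rw [h5]
      split_ifs <;> omega
    · rw [h6]
      split_ifs <;> omega
  ab_cop s l r hr h := by
    rw [ab_eq]
    refine Nat.coprime_list_prod_left_iff.2 fun p hp => ?_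
    obtain ⟨h1, h2⟩ := h p ((sp_mem s l).2 p hp)
    exact (Nat.coprime_primes h1 hr).2 h2
  ab_fib s S n a b hS := by
    have h1 : #{l ∈ Fintype.piFinset fun _ : Fin (2 * n) => S | ab s (List.ofFn l) = (a, b)} ≤
        #(Pm n a ×ˢ Pm n b) := by
      refine card_le_card_of_injOn (fun l => sp s (List.ofFn l)) ?_ ?_
      · intro l hl
        rw [mem_coe, mem_filter, ab_eq, Prod.mk.injEq] at hl
        have hm := mem_ofFn S _ l hl.1
        rw [mem_coe, mem_product]
        exact ⟨Pm_mem n a _ (sp_len2 s n l).1 (fun p hp => hS p (hm p ((sp_mem s _).1 p hp)))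
          hl.2.1, Pm_mem n b _ (sp_len2 s n l).2 (fun p hp => hS p (hm p ((sp_mem s _).2 p hp)))
          hl.2.2⟩
      · intro l _ l' _ h
        exact List.ofFn_injective (sp_inj s _ _ (by rw [List.length_ofFn, List.length_ofFn]) h)
    rw [card_product] at h1
    rw [sq]
    exact h1.trans (Nat.mul_le_mul (Pm_card n a) (Pm_card n b))
  ab_img s S n := by
    have h1 : ((Fintype.piFinset fun _ : Fin (2 * n) => S).image
        fun l => (ab s (List.ofFn l)).2) ⊆
        (Fintype.piFinset fun _ : Fin n => S).image fun m => (List.ofFn m).prod := by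
      intro b hb
      obtain ⟨l, hl, rfl⟩ := mem_image.1 hb
      obtain ⟨m, hm, h⟩ := ex_ofFn S n (sp s (List.ofFn l)).2 (sp_len2 s n l).2
        fun p hp => mem_ofFn S _ l hl p ((sp_mem s _).2 p hp)
      exact mem_image.2 ⟨m, hm, by rw [h, ab_eq]⟩
    refine (card_le_card h1).trans (card_image_le.trans ?_)
    rw [Fintype.card_piFinset, prod_const, card_univ, Fintype.card_fin]
  prod_fib S n b hS := by
    refine le_trans ?_ (Pm_card n b)
    refine card_le_card_of_injOn (fun l => List.ofFn l) ?_ ?_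
    · intro l hl
      rw [mem_coe, mem_filter] at hl
      exact Pm_mem n b _ List.length_ofFn (fun p hp => hS p (mem_ofFn S n l hl.1 p hp))
        (by rw [List.prod_ofFn, hl.2])
    · intro l _ l' _ h
      exact List.ofFn_injective h

theorem st_Inv (hN : NSt) (hN2 : N2St) (hB : BasSt) : InvSt := by
  intro π N D E T ψ c ρ ρ0 y0 β x0 d0 l x d hok hI hρ hE hy0 hp0 hc0
  have hκ1 := hB.κ1_pos π hok
  have hκ1κ := hB.κ1_le π hok
  have hκ : 0 < π.κ := hκ1.trans_le hκ1κ
  suffices H : 2 * (l.length + 2) * π.κ1 ≤ 1 →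
      N.opL π.ν E T l (fun y d' => if y = x0 ∧ d' = d0 then 1 else 0) x d ≠ 0 →
      N.isU x = (N.isU x0).xor (l.length % 2 == 1) ∧ 0 < (ab (N.isU x0) l).1 ∧
      0 < (ab (N.isU x0) l).2 ∧
      |Real.log (N.pos π x / (ab (N.isU x0) l).2) - Real.log (y0 / (ab (N.isU x0) l).1)| ≤
        2 * (l.length + 1) * π.κ1 ∧
      Cl π.k π.κ c (y0 / (ab (N.isU x0) l).1) (ρ0 + l.length * (8 * l.length + 17) ^ π.k * ρ)
        (dil (ab (N.isU x0) l).2 (ψ x d) - dil (ab (N.isU x0) l).1 β) from
    fun h1 h2 => (H h1 h2).2.2.2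
  induction l generalizing x d with
  | nil =>
    intro _ h
    have h' : x = x0 ∧ d = d0 := by
      by_contra hc
      exact h (if_neg hc)
    obtain ⟨rfl, rfl⟩ := h'
    have e1 : ab (N.isU x) [] = (1, 1) := rfl
    rw [e1]
    simp only [List.length_nil, Nat.cast_one, div_one, dil_one, Nat.cast_zero, zero_mul, add_zero,
      zero_add, mul_one]
    refine ⟨by simp, one_pos, one_pos, ?_, hc0⟩
    rw [abs_sub_comm]
    exact hp0
  | cons p l ih =>
    intro hlen h
    rw [List.length_cons] at hlen ⊢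
    have hn : (0 : ℝ) ≤ l.length := Nat.cast_nonneg _
    have hu : 2 * ((l.length : ℝ) + 2) * π.κ1 ≤ 1 := by
      push_cast at hlen
      nlinarith
    rw [xor_succ]
    rcases opC_ne N D _ _ T _ x d h with ⟨e, he, hx, hne⟩ | ⟨e, he, hx, hne⟩
    · rw [mem_filter] at he
      obtain ⟨he, hp⟩ := he
      subst hx hp
      obtain ⟨i1, i2, i3, i4, i5⟩ := ih _ _ hu hne
      rw [hI.up e he] at i1
      rw [ab_down _ _ _ i1.symm, ← i1]
      set a := (ab (N.isU x0) l).1
      set b := (ab (N.isU x0) l).2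
      have hp0 : 0 < N.pr e := (hok.pr _ (hI.pr e he)).1.pos
      have ha : (0 : ℝ) < a := by exact_mod_cast i2
      have hb : (0 : ℝ) < b := by exact_mod_cast i3
      have hp : (0 : ℝ) < N.pr e := by exact_mod_cast hp0
      have hU := hB.pos_pos π N (N.up e)
      have hL := hB.pos_pos π N (N.lo e)
      have hed := hB.pos_edge π N E hok hI e he
      have hpos : |Real.log (N.pos π (N.lo e) / b) - Real.log (y0 / ((a * N.pr e : ℕ) : ℝ))| ≤
          2 * ((l.length : ℝ) + 2) * π.κ1 := by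
        rw [Real.log_div hU.ne' hp.ne'] at hed
        rw [Real.log_div hU.ne' hb.ne', Real.log_div hy0.ne' ha.ne'] at i4
        rw [Nat.cast_mul, Real.log_div hL.ne' hb.ne', Real.log_div hy0.ne' (mul_pos ha hp).ne',
          Real.log_mul ha.ne' hp.ne']
        rw [abs_le] at hed i4 ⊢
        constructor <;> linarith [hed.1, hed.2, i4.1, i4.2]
      refine ⟨hI.lo e he, Nat.mul_pos i2 hp0, i3, ?_, ?_⟩
      · refine hpos.trans (le_of_eq ?_)
        push_cast
        ring
      · have e1 : y0 / a = (N.pr e : ℝ) * (y0 / ((a * N.pr e : ℕ) : ℝ)) := by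
          push_cast
          field_simp
        rw [e1] at i5
        have c1 := hN.cl_dil _ _ _ _ _ _ _ i5
        have c2 := hE e he ((T e).symm d)
        rw [Equiv.apply_symm_apply] at c2
        have e2 : N.pos π (N.lo e) = (b : ℝ) * (N.pos π (N.lo e) / b) := by field_simp
        rw [e2] at c2
        have c3 := hN.cl_dil _ _ _ _ _ _ _ c2
        have c4 := hN2.cl_shift _ _ _ _ (y0 / ((a * N.pr e : ℕ) : ℝ)) _ _ _ hκ hok.κ
          (div_pos hL hb) (div_pos hy0 (by exact_mod_cast Nat.mul_pos i2 hp0))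
          (by rw [abs_sub_comm]; exact hpos) hu c3
        have c5 := hN.cl_add _ _ _ _ _ _ _ _ hκ.le c4 c1
        have c6 := hN.cl_mono _ _ _ _ _ _ _ (fac_le π.k l.length π.κ π.κ1 ρ ρ0 hκ hκ1.le hκ1κ hρ) c5
        have e3 : dil b (ψ (N.lo e) d - dil (N.pr e) (ψ (N.up e) ((T e).symm d))) +
            dil (N.pr e) (dil b (ψ (N.up e) ((T e).symm d)) - dil a β) =
            dil b (ψ (N.lo e) d) - dil ((a * N.pr e : ℕ) : ℝ) β := by
          rw [dil_sub, dil_sub, dil_dil, dil_dil, dil_dil, Nat.cast_mul, mul_comm (N.pr e : ℝ) b,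
            mul_comm (N.pr e : ℝ) a]
          abel
        rw [e3] at c6
        exact c6
    · rw [mem_filter] at he
      obtain ⟨he, hp⟩ := he
      subst hx hp
      obtain ⟨i1, i2, i3, i4, i5⟩ := ih _ _ hu hne
      rw [hI.lo e he] at i1
      rw [ab_up _ _ _ i1.symm, ← i1]
      set a := (ab (N.isU x0) l).1
      set b := (ab (N.isU x0) l).2
      have hp0 : 0 < N.pr e := (hok.pr _ (hI.pr e he)).1.pos
      have ha : (0 : ℝ) < a := by exact_mod_cast i2
      have hb : (0 : ℝ) < b := by exact_mod_cast i3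
      have hp : (0 : ℝ) < N.pr e := by exact_mod_cast hp0
      have hU := hB.pos_pos π N (N.up e)
      have hL := hB.pos_pos π N (N.lo e)
      have hed := hB.pos_edge π N E hok hI e he
      refine ⟨hI.up e he, i2, Nat.mul_pos i3 hp0, ?_, ?_⟩
      · rw [Real.log_div hU.ne' hp.ne'] at hed
        rw [Real.log_div hL.ne' hb.ne', Real.log_div hy0.ne' ha.ne'] at i4
        dsimp only
        rw [Nat.cast_mul, Real.log_div hU.ne' (mul_pos hb hp).ne', Real.log_div hy0.ne' ha.ne',
          Real.log_mul hb.ne' hp.ne']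
        push_cast
        rw [abs_le] at hed i4 ⊢
        constructor <;> linarith [hed.1, hed.2, i4.1, i4.2]
      · have c2 := hN.cl_neg _ _ _ _ _ _ (hE e he d)
        have e2 : N.pos π (N.lo e) = (b : ℝ) * (N.pos π (N.lo e) / b) := by field_simp
        rw [e2] at c2
        have c3 := hN.cl_dil _ _ _ _ _ _ _ c2
        have c4 := hN2.cl_shift _ _ _ _ (y0 / a) (2 * ((l.length : ℝ) + 2) * π.κ1) _ _ hκ hok.κ
          (div_pos hL hb) (div_pos hy0 ha)
          (by rw [abs_sub_comm]; exact i4.trans (by nlinarith)) hu c3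
        have c5 := hN.cl_add _ _ _ _ _ _ _ _ hκ.le c4 i5
        have c6 := hN.cl_mono _ _ _ _ _ _ _ (fac_le π.k l.length π.κ π.κ1 ρ ρ0 hκ hκ1.le hκ1κ hρ) c5
        have e3 : dil b (-(ψ (N.lo e) (T e d) - dil (N.pr e) (ψ (N.up e) d))) +
            (dil b (ψ (N.lo e) (T e d)) - dil a β) =
            dil ((b * N.pr e : ℕ) : ℝ) (ψ (N.up e) d) - dil a β := by
          rw [neg_sub, dil_sub, dil_dil, Nat.cast_mul]
          abel
        rw [e3] at c6
        exact c6

end Pool.Agent.Lib.MP_028aa5_nt.T
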