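import Pool.Agent.Lib.MP_028aa5_nt.T.St2

/-! Iterating the digit step. -/

namespace Pool.Agent.Lib.MP_028aa5_nt.T

open Finset
open scoped ComplexConjugate Classical

namespace Iter

lemma ray_mono {N : Net} {ν : ℝ} {E : Finset N.Ed} {a b : ℝ} (h : N.Ray ν E a) (hab : b ≤ a) :
    N.Ray ν E b := by
  obtain ⟨u, h1, h2⟩ := h
  exact ⟨u, h1, (mul_le_mul_of_nonneg_right hab h1.le).trans h2⟩

lemma is_mono {N : Net} {π : Par} {E E' : Finset N.Ed} (h : N.Is π E) (hE : E' ⊆ E) :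
    N.Is π E' :=
  ⟨fun e he => h.up e (hE he), fun e he => h.lo e (hE he), fun e he => h.pr e (hE he),
    fun e he => h.cu e (hE he), fun e he => h.le e (hE he), fun e he => h.cl e (hE he),
    fun e he e' he' => h.iu e (hE he) e' (hE he'), fun e he e' he' => h.il e (hE he) e' (hE he'),
    h.mu⟩

lemma pot {m0 m i : ℕ} (h0 : 23040 ≤ m0) (_h1 : m0 ≤ m) :
    1 / ((min (m0 + i / 4) m : ℕ) : ℝ) ^ 2 ≤
      16 / (4 * m0 + i - 4 : ℝ) - 16 / (4 * m0 + (i + 1 : ℕ) - 4 : ℝ) + 1 / (m : ℝ) ^ 2 := by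
  have a0 : (23040 : ℝ) ≤ m0 := by exact_mod_cast h0
  have a1 : (0 : ℝ) ≤ i := Nat.cast_nonneg i
  have b0 : (0 : ℝ) < 4 * m0 + i - 4 := by linarith
  have e : 16 / (4 * m0 + i - 4 : ℝ) - 16 / (4 * m0 + (i + 1 : ℕ) - 4 : ℝ) =
      16 / ((4 * m0 + i - 4) * (4 * m0 + i - 3)) := by
    have b1 : (4 * m0 + i - 3 : ℝ) ≠ 0 := by linarith
    rw [show (4 * m0 + (i + 1 : ℕ) - 4 : ℝ) = 4 * m0 + i - 3 by push_cast; ring]
    field_simp
    ring
  have b2 : (0 : ℝ) < (4 * m0 + i - 4) * (4 * m0 + i - 3) := mul_pos b0 (by linarith)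
  rw [e]
  rcases le_total (m0 + i / 4) m with h | h
  · rw [min_eq_left h]
    have c0 : 4 * m0 + i ≤ 4 * (m0 + i / 4) + 3 := by omega
    generalize m0 + i / 4 = n at c0
    have c1 : (4 * m0 + i : ℝ) ≤ 4 * n + 3 := by exact_mod_cast c0
    have c2 : (0 : ℝ) < n := by linarith
    have c3 : 1 / (n : ℝ) ^ 2 ≤ 16 / ((4 * m0 + i - 4) * (4 * m0 + i - 3)) := by
      rw [div_le_div_iff₀ (by positivity) b2]
      nlinarith
    have c4 : 0 ≤ 1 / (m : ℝ) ^ 2 := by positivity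
    linarith
  · rw [min_eq_right h]
    have : 0 ≤ 16 / ((4 * m0 + i - 4 : ℝ) * (4 * m0 + i - 3)) := by positivity
    linarith

end Iter

open Iter in
theorem st_Iter (hS : StepSt) : IterSt := by
  intro π N E φ ρ Y ε m0 m s ok his hρ0 hρ1 hlv hray hε0 hε1 hPP hM hm0 hm hY hκ hP hKY hs hδ
  have hP2 := ok.P
  have hPP0 : (0 : ℝ) < #π.PP := by exact_mod_cast (by omega : 0 < #π.PP)
  have a0 : (23040 : ℝ) ≤ m0 := by exact_mod_cast hm0
  have hm1 : (0 : ℝ) < m := by exact_mod_cast (by omega : 0 < m)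
  have hκ1 : 0 ≤ π.κ1 := mul_nonneg (Nat.cast_nonneg _) ok.κ0.le
  set δ : ℝ := 10 ^ 6 * π.M * m ^ 4 * 4 ^ m / #π.PP with hδdef
  have hδ0 : 0 ≤ δ := by positivity
  let c : ℕ → ℝ := fun i => 720 * ε * (16 / (4 * m0 - 4) - 16 / (4 * m0 + i - 4 : ℝ)) +
    i * (720 * ε * (1 / (m : ℝ) ^ 2) + δ)
  have hc : ∀ i ≤ s, 0 ≤ c i ∧ c i ≤ ε := by
    intro i hi
    have b0 : (0 : ℝ) ≤ i := Nat.cast_nonneg i
    have b1 : (i : ℝ) ≤ s := by exact_mod_cast hi
    have b2 : 16 / (4 * m0 + i - 4 : ℝ) ≤ 16 / (4 * m0 - 4) :=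
      div_le_div_of_nonneg_left (by norm_num) (by linarith) (by linarith)
    have b3 : 0 ≤ 16 / (4 * m0 + i - 4 : ℝ) := div_nonneg (by norm_num) (by linarith)
    have b4 : 16 / (4 * m0 - 4 : ℝ) ≤ 1 / 2880 := by
      rw [div_le_div_iff₀ (by linarith) (by norm_num)]
      linarith
    have b5 : (s : ℝ) * (1 / (m : ℝ) ^ 2) ≤ 1 / 2880 := by
      have : (2880 * s : ℝ) ≤ m ^ 2 := by exact_mod_cast hs
      rw [mul_one_div, div_le_div_iff₀ (by positivity) (by norm_num)]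
      linarith
    have b6 : (s : ℝ) * δ ≤ ε / 2 := by
      rw [hδdef, ← mul_div_assoc, div_le_iff₀ hPP0]
      exact hδ
    have b7 : 0 ≤ 720 * ε * (1 / (m : ℝ) ^ 2) + δ := by positivity
    have b8 := mul_le_mul_of_nonneg_right b1 b7
    have b9 := mul_le_mul_of_nonneg_left b5 hε0.le
    have b10 : ε * (16 / (4 * m0 - 4) - 16 / (4 * m0 + i - 4 : ℝ)) ≤ ε * (1 / 2880) :=
      mul_le_mul_of_nonneg_left (by linarith) hε0.le
    refine ⟨add_nonneg (mul_nonneg (by positivity) (by linarith)) (mul_nonneg b0 b7), ?_⟩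
    simp only [c]
    nlinarith
  have main : ∀ i ≤ s, ∃ (R : ℕ) (E' : Finset N.Ed) (φ' : N.W → Ph), π.P ^ i ≤ R ∧ E' ⊆ E ∧
      (∀ x, EqZ π.k (φ' x) (φ x)) ∧ N.Lv π R ρ φ' E' ∧ N.Ray π.ν E' (1 - (ε + c i)) := by
    intro i
    induction i with
    | zero =>
      intro _
      refine ⟨1, E, φ, by simp, subset_rfl, fun x j _ => ⟨0, by simp⟩, by simpa using hlv, ?_⟩
      simpa [c] using hray
    | succ i ih =>
      intro hi
      obtain ⟨R, E', φ', h1, h2, h3, h4, h5⟩ := ih (by omega)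
      obtain ⟨c0, c1⟩ := hc i (by omega)
      have hpot := pot (i := i) hm0 hm
      have n1 : min (m0 + i / 4) m ≤ m := min_le_right _ _
      have n2 : 4 * min (m0 + i / 4) m ≤ 4 * m0 + i := by
        have := min_le_left (m0 + i / 4) m
        omega
      have n3 : 4 ≤ min (m0 + i / 4) m := le_min (by omega) (by omega)
      generalize min (m0 + i / 4) m = n at hpot n1 n2 n3
      have n4 : (n : ℝ) ≤ m := by exact_mod_cast n1
      have n5 : (0 : ℝ) ≤ n := Nat.cast_nonneg n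
      have hR : (0 : ℝ) < R := lt_of_lt_of_le (by positivity) h1
      obtain ⟨r, hr, E'', hE'', z, g1, g2⟩ := hS π N E' φ' R ρ Y (ε + c i) n ok (is_mono his h2)
        hρ0 hρ1 hR h4 h5 (by linarith) (by linarith) hPP hM n3 hY
        (le_trans (mul_le_mul_of_nonneg_right (by linarith) hκ1) hκ) (by
          have d1 : 2 * (2 * (n : ℝ) + 5) * (16 * n + 41) ^ π.k + 1 ≤ π.P :=
            le_trans (by gcongr) hP
          have d2 : (2 * π.P) ^ (2 * n + 5) ≤ (π.P ^ 2) ^ (2 * n + 5) :=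
            pow_le_pow_left₀ (by linarith) (by nlinarith) _
          calc _ ≤ π.P * (π.P ^ 2) ^ (2 * n + 5) :=
                mul_le_mul d1 d2 (by positivity) (by linarith)
            _ = π.P ^ (4 * n + 11) := by ring
            _ ≤ π.P ^ (4 * m0 + 11 + i) := pow_le_pow_right₀ (by linarith) (by omega)
            _ ≤ π.κ * Y * R := by
                rw [pow_add]
                exact mul_le_mul hKY h1 (by positivity) (le_trans (by positivity) hKY))
      refine ⟨R * r, E'', fun x => φ' x + lat R (z x), ?_, hE''.trans h2, ?_, ?_,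
        ray_mono g2 ?_⟩
      · rw [pow_succ, Nat.cast_mul]
        exact mul_le_mul h1 (ok.pr r hr).2.1.le (by linarith) hR.le
      · intro x j hj
        obtain ⟨t, ht⟩ := h3 x j hj
        refine ⟨t + R ^ j * z x j, ?_⟩
        simp only [Pi.add_apply, lat, ht]
        push_cast
        ring
      · rw [Nat.cast_mul]
        exact g1
      · have d1 : 10 ^ 6 * π.M * (n : ℝ) ^ 4 * 4 ^ n / #π.PP ≤ δ := by
          rw [hδdef]
          gcongr
          norm_num
        have d2 : 360 * (ε + c i) / (n : ℝ) ^ 2 ≤ 720 * ε * (1 / (n : ℝ) ^ 2) := by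
          rw [mul_one_div]
          exact div_le_div_of_nonneg_right (by linarith) (by positivity)
        have d3 := mul_le_mul_of_nonneg_left hpot (show 0 ≤ 720 * ε by positivity)
        have d4 : c (i + 1) = c i + 720 * ε * (16 / (4 * m0 + i - 4 : ℝ) -
            16 / (4 * m0 + (i + 1 : ℕ) - 4 : ℝ) + 1 / (m : ℝ) ^ 2) + δ := by
          simp only [c]
          rw [show ((i + 1 : ℕ) : ℝ) * (720 * ε * (1 / (m : ℝ) ^ 2) + δ) =
            (i + 1) * (720 * ε * (1 / (m : ℝ) ^ 2) + δ) by push_cast; ring]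
          ring
        linarith
  obtain ⟨R, E', φ', h1, h2, h3, h4, h5⟩ := main s le_rfl
  exact ⟨R, E', φ', h1, h2, h3, h4, ray_mono h5 (by linarith [(hc s le_rfl).2])⟩

end Pool.Agent.Lib.MP_028aa5_nt.T
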