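import Pool.Agent.Lib.MP_028aa5_nt.T.St5

/-! The iteration of the digit step in the asymptotic regime. -/

namespace Pool.Agent.Lib.MP_028aa5_nt.T

open Finset
open scoped ComplexConjugate Classical

namespace IterX

theorem steps {k l t s m : ℝ} (hk : 1 ≤ k) (hl : 230400 ≤ l) (ht : 0 ≤ t)
    (h : (300 * k) ^ 3 * t ≤ l ^ 3) (hs : s ≤ (7 * k + 2) * t / l + 1) (hm : l / 10 < m + 1) :
    2880 * s ≤ m ^ 2 := by
  have hl0 : 0 < l := by linarith
  have h1 : k ≤ k ^ 3 := le_self_pow₀ hk (by norm_num)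
  have h2 : 3000000 * ((7 * k + 2) * t) ≤ l ^ 3 := by
    have h3 : 3000000 * (7 * k + 2) ≤ (300 * k) ^ 3 := by
      rw [mul_pow]
      linarith
    calc 3000000 * ((7 * k + 2) * t) = 3000000 * (7 * k + 2) * t := by ring
      _ ≤ (300 * k) ^ 3 * t := mul_le_mul_of_nonneg_right h3 ht
      _ ≤ l ^ 3 := h
  have h4 : (7 * k + 2) * t / l ≤ l ^ 2 / 3000000 := by
    rw [div_le_div_iff₀ hl0 (by norm_num)]
    calc (7 * k + 2) * t * 3000000 = 3000000 * ((7 * k + 2) * t) := by ring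
      _ ≤ l ^ 3 := h2
      _ = l ^ 2 * l := by ring
  have h5 : l / 11 ≤ m := by linarith
  have h6 : (l / 11) ^ 2 ≤ m ^ 2 := pow_le_pow_left₀ (by positivity) h5 2
  have h7 : 230400 * l ≤ l ^ 2 := by
    rw [sq]
    exact mul_le_mul_of_nonneg_right hl hl0.le
  rw [div_pow] at h6
  linarith

theorem four_pow {P : ℝ} (hP : 0 < P) {m : ℕ} (hm : (m : ℝ) ≤ Real.log P / 10) :
    (4 : ℝ) ^ m ≤ P ^ (1 / 5 : ℝ) := by
  have h1 : (2 : ℝ) ≤ Real.exp 1 := by linarith [Real.add_one_le_exp 1]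
  calc (4 : ℝ) ^ m = 2 ^ (2 * m) := by rw [pow_mul]; norm_num
    _ ≤ Real.exp 1 ^ (2 * m) := pow_le_pow_left₀ (by norm_num) h1 _
    _ = Real.exp (2 * m) := by rw [← Real.exp_nat_mul, mul_one]; push_cast; rfl
    _ ≤ Real.exp (Real.log P * (1 / 5)) := Real.exp_le_exp.2 (by linarith)
    _ = P ^ (1 / 5 : ℝ) := (Real.rpow_def_of_pos hP _).symm

end IterX

open IterX in
theorem st_IterX (hI : IterSt) (hR : RegSt) (hB : BasSt) : IterXSt := by
  intro k M C D ε hk hM hD hε hε'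
  obtain ⟨y1, h1⟩ := hR.poly 200 (9 / 10) 0 (by norm_num)
  obtain ⟨y2, h2⟩ := hR.poly (2 * 2 ^ k) 1 (k + 1) one_pos
  obtain ⟨y3, h3⟩ := hR.poly (2 * 10 ^ 6 * M / ε) (7 / 10) 6 (by norm_num)
  obtain ⟨X0, h0⟩ := hR.base k C D (max 230400 (max y1 (max y2 y3))) hk hD
  refine ⟨X0, fun X hX π N E φ ρ Y ek eM hreg hN hρ hρ' hLv hRay hY hP => ?_⟩
  obtain ⟨b1, b2, b3, b4, -, b6, b7, -, b9⟩ := h0 X hX π ek hreg
  have hK := le_max_left (230400 : ℝ) (max y1 (max y2 y3))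
  have hK' := le_max_right (230400 : ℝ) (max y1 (max y2 y3))
  have c1 := h1 π.P (((le_max_left _ _).trans hK').trans b4)
  have c2 := h2 π.P ((((le_max_left _ _).trans (le_max_right _ _)).trans hK').trans b4)
  have c3 := h3 π.P ((((le_max_right _ _).trans (le_max_right _ _)).trans hK').trans b4)
  generalize max 230400 (max y1 (max y2 y3)) = K at *
  have ok := hreg.ok
  have hP0 : 0 < π.P := by linarith
  have hX0 : 0 < X := by linarith
  have hl : 230400 ≤ Real.log π.P := hK.trans b3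
  have ht : 1 ≤ Real.log X := by linarith
  have hk' : (1 : ℝ) ≤ k := by exact_mod_cast hk
  have hlo : (300 * (k : ℝ)) ^ 3 * Real.log X ≤ Real.log π.P ^ 3 := by
    have a1 := (Real.le_log_iff_exp_le hP0).2 hreg.lo
    rw [ek] at a1
    have a2 := pow_le_pow_left₀ (by positivity) a1 3
    rwa [mul_pow, ← Real.rpow_natCast (Real.log X ^ (1 / 3 : ℝ)) 3,
      ← Real.rpow_mul (by linarith), show (1 / 3 : ℝ) * ((3 : ℕ) : ℝ) = 1 by norm_num,
      Real.rpow_one] at a2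
  have hlt : Real.log π.P ≤ Real.log X := by
    have a1 : Real.log X ^ (1 / 2 : ℝ) ≤ Real.log X ^ (1 : ℝ) :=
      Real.rpow_le_rpow_of_exponent_le ht (by norm_num)
    rw [Real.rpow_one] at a1
    nlinarith
  have hm1 : ((⌊Real.log π.P / 10⌋₊ : ℕ) : ℝ) ≤ Real.log π.P / 10 := Nat.floor_le (by linarith)
  have hm2 := Nat.lt_floor_add_one (Real.log π.P / 10)
  have hm3 : 23040 ≤ ⌊Real.log π.P / 10⌋₊ := Nat.le_floor (by push_cast; linarith)
  have hs1 := Nat.le_ceil ((7 * k + 2) * Real.log X / Real.log π.P)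
  have hs2 := (Nat.ceil_lt_add_one (a := (7 * k + 2) * Real.log X / Real.log π.P)
    (div_nonneg (by positivity) (by linarith))).le
  generalize ⌊Real.log π.P / 10⌋₊ = m at hm1 hm2 hm3
  generalize ⌈(7 * k + 2) * Real.log X / Real.log π.P⌉₊ = s at hs1 hs2
  have hsm := steps hk' hl (by linarith) hlo hs2 hm2
  have hm0 : (0 : ℝ) ≤ m := Nat.cast_nonneg m
  have hs0 : (0 : ℝ) ≤ s := Nat.cast_nonneg s
  have hml : (m : ℝ) ≤ Real.log π.P := by linarith
  have hm5 : 2 * (2 * (m : ℝ) + 5) ≤ Real.log π.P := by linarith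
  obtain ⟨R, E', φ', r1, r2, r3, r4, r5⟩ := hI π N E φ ρ Y ε 23040 m s ok hN hρ hρ' hLv hRay hε
    hε' (by
      rw [pow_zero, mul_one] at c1
      exact_mod_cast c1.trans b7) (eM ▸ hM) le_rfl hm3 hY
    (by
      have a1 := hB.κ1_pos π ok
      have a2 := hB.κ1_le π ok
      have a3 : 2 * (2 * (m : ℝ) + 5) ≤ K * Real.log X := by nlinarith
      exact (mul_le_mul a3 a2 a1.le (by nlinarith)).trans b9)
    (by
      rw [Real.rpow_one] at c2
      rw [ek]
      have a1 : (16 * (m : ℝ) + 41) ^ k ≤ (2 * Real.log π.P) ^ k :=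
        pow_le_pow_left₀ (by positivity) (by linarith) k
      have a2 : 2 * (2 * (m : ℝ) + 5) * (16 * (m : ℝ) + 41) ^ k ≤
          Real.log π.P * (2 * Real.log π.P) ^ k :=
        mul_le_mul hm5 a1 (by positivity) (by linarith)
      have a3 : 1 ≤ Real.log π.P * (2 * Real.log π.P) ^ k :=
        one_le_mul_of_one_le_of_one_le (by linarith) (one_le_pow₀ (by linarith))
      have a4 : 2 * (Real.log π.P * (2 * Real.log π.P) ^ k) =
          2 * 2 ^ k * Real.log π.P ^ (k + 1) := by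
        rw [mul_pow]
        ring
      linarith)
    hP (by exact_mod_cast hsm)
    (by
      have a1 : (s : ℝ) ≤ Real.log π.P ^ 2 := by
        have := pow_le_pow_left₀ hm0 hml 2
        linarith
      have a2 : (m : ℝ) ^ 4 ≤ Real.log π.P ^ 4 := pow_le_pow_left₀ hm0 hml 4
      have a3 := four_pow hP0 hm1
      have a4 : π.P ^ (7 / 10 : ℝ) * π.P ^ (1 / 5 : ℝ) = π.P ^ (9 / 10 : ℝ) := by
        rw [← Real.rpow_add hP0]
        norm_num
      rw [eM]
      calc (s : ℝ) * (10 ^ 6 * M * m ^ 4 * 4 ^ m)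
          ≤ Real.log π.P ^ 2 * (10 ^ 6 * M * Real.log π.P ^ 4 * π.P ^ (1 / 5 : ℝ)) := by
            gcongr
        _ = ε / 2 * (2 * 10 ^ 6 * M / ε * Real.log π.P ^ 6 * π.P ^ (1 / 5 : ℝ)) := by
            field_simp
        _ ≤ ε / 2 * (π.P ^ (7 / 10 : ℝ) * π.P ^ (1 / 5 : ℝ)) := by gcongr
        _ ≤ ε / 2 * #π.PP := by
            rw [a4]
            gcongr)
  refine ⟨R, E', φ', le_trans ?_ r1, r2, r3, r4, r5⟩
  rw [div_le_iff₀ (by linarith)] at hs1
  rw [← Real.exp_log hX0, ← Real.exp_log hP0, ← Real.exp_nat_mul, ← Real.exp_nat_mul]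
  refine Real.exp_le_exp.2 ?_
  push_cast
  exact hs1

end Pool.Agent.Lib.MP_028aa5_nt.T
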