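import Pool.Agent.Lib.MP_028aa5_nt.T.St4

/-! Sums of `e (u log n) / n` over a progression. -/

namespace Pool.Agent.Lib.MP_028aa5_nt.T

open Finset
open scoped ComplexConjugate Classical

namespace Ker1

/-- the integral of the exponential -/
noncomputable def J (u s t : ℝ) : ℂ := ∫ v in s..t, e (u * v)

theorem cont (u : ℝ) : Continuous fun v : ℝ => e (u * v) := by
  unfold e
  fun_prop

theorem J_le (u s t : ℝ) : ‖J u s t‖ ≤ |t - s| := by
  have := intervalIntegral.norm_integral_le_of_norm_le_const (a := s) (b := t) (C := 1)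
    (f := fun v : ℝ => e (u * v)) fun v _ => (norm_e _).le
  rwa [one_mul] at this

theorem J_sub (u r s t : ℝ) : J u r t - J u r s = J u s t :=
  intervalIntegral.integral_interval_sub_left ((cont u).intervalIntegrable _ _)
    ((cont u).intervalIntegrable _ _)

theorem J_near (u : ℝ) {s t : ℝ} (h : s ≤ t) :
    ‖J u s t - ((t - s : ℝ) : ℂ) * e (u * s)‖ ≤ 7 * |u| * (t - s) ^ 2 := by
  have h1 : J u s t - ((t - s : ℝ) : ℂ) * e (u * s) = ∫ v in s..t, (e (u * v) - e (u * s)) := by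
    rw [intervalIntegral.integral_sub ((cont u).intervalIntegrable _ _) intervalIntegrable_const,
      intervalIntegral.integral_const, J, Complex.real_smul]
  rw [h1]
  refine (intervalIntegral.norm_integral_le_of_norm_le_const (C := 7 * |u| * (t - s))
    fun v hv => ?_).trans_eq ?_
  · rw [Set.uIoc_of_le h] at hv
    refine (norm_e_sub_le _ _).trans ?_
    rw [← mul_sub, abs_mul, abs_of_nonneg (sub_nonneg.2 hv.1.le), mul_assoc]
    gcongr
    exact hv.2
  · rw [abs_of_nonneg (sub_nonneg.2 h)]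
    ring

theorem J_osc {u : ℝ} (hu : u ≠ 0) (s t : ℝ) : ‖J u s t‖ ≤ 1 / |u| := by
  have hc : (2 * Real.pi * Complex.I * u : ℂ) ≠ 0 := by
    simp [hu, Real.pi_ne_zero]
  have h1 : ∀ v : ℝ, e (u * v) = Complex.exp (2 * Real.pi * Complex.I * u * v) := fun v => by
    unfold e
    congr 1
    push_cast
    ring
  have h2 : J u s t = (e (u * t) - e (u * s)) / (2 * Real.pi * Complex.I * u) := by
    simp only [J, h1]
    exact integral_exp_mul_complex hc
  have h3 : ‖(2 * Real.pi * Complex.I * u : ℂ)‖ = 2 * Real.pi * |u| := by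
    simp [abs_of_pos Real.pi_pos]
  have h4 : ‖e (u * t) - e (u * s)‖ ≤ 2 := by
    refine (norm_sub_le _ _).trans ?_
    rw [norm_e, norm_e]
    norm_num
  have h5 : 0 < |u| := abs_pos.2 hu
  rw [h2, norm_div, h3, div_le_div_iff₀ (by positivity) h5]
  have := Real.pi_gt_three
  nlinarith

theorem log_gap {x y : ℝ} (hx : 0 < x) (h : x ≤ y) :
    0 ≤ Real.log y - Real.log x ∧ Real.log y - Real.log x ≤ (y - x) / x ∧
      (y - x) / x - ((y - x) / x) ^ 2 ≤ Real.log y - Real.log x := by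
  have hy : 0 < y := hx.trans_le h
  refine ⟨sub_nonneg.2 (Real.log_le_log hx h), ?_, ?_⟩
  · rw [← Real.log_div hy.ne' hx.ne', sub_div, div_self hx.ne']
    exact Real.log_le_sub_one_of_pos (div_pos hy hx)
  · rw [← Real.log_div hy.ne' hx.ne']
    refine le_trans ?_ (Real.one_sub_inv_le_log_of_pos (div_pos hy hx))
    set t := (y - x) / x with ht
    have h0 : 0 ≤ t := div_nonneg (sub_nonneg.2 h) hx.le
    have h1 : y / x = 1 + t := by
      rw [ht]
      field_simp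
      ring
    rw [h1, ← sub_nonneg]
    have h2 : 1 - (1 + t)⁻¹ - (t - t ^ 2) = t ^ 3 / (1 + t) := by
      field_simp
      ring
    rw [h2]
    positivity

/-- one term -/
theorem term (u : ℝ) {M x D : ℝ} (hM : 0 < M) (hx : M ≤ x) (hD : 0 < D) :
    ‖e (u * Real.log x) / x - (D : ℂ)⁻¹ * J u (Real.log x) (Real.log (x + D))‖ ≤
      min (7 * (1 + |u|) * D / M ^ 2) (2 / M) := by
  have hx0 : 0 < x := hM.trans_le hx
  obtain ⟨g0, g1, g2⟩ := log_gap hx0 (show x ≤ x + D by linarith)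
  rw [add_sub_cancel_left] at g1 g2
  set l := Real.log (x + D) - Real.log x with hl
  have hD' : (D : ℂ) ≠ 0 := Complex.ofReal_ne_zero.2 hD.ne'
  have hx' : (x : ℂ) ≠ 0 := Complex.ofReal_ne_zero.2 hx0.ne'
  have hi : 1 / x ≤ 1 / M := one_div_le_one_div_of_le hM hx
  refine le_min ?_ ?_
  · have h1 : e (u * Real.log x) / x - (D : ℂ)⁻¹ * J u (Real.log x) (Real.log (x + D)) =
        (D : ℂ)⁻¹ * (((D / x - l : ℝ) : ℂ) * e (u * Real.log x) -
          (J u (Real.log x) (Real.log (x + D)) - ((l : ℝ) : ℂ) * e (u * Real.log x))) := by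
      push_cast
      field_simp
      ring
    have h2 := J_near u (sub_nonneg.1 g0)
    have h3 : ‖((D / x - l : ℝ) : ℂ) * e (u * Real.log x)‖ ≤ (D / x) ^ 2 := by
      rw [norm_mul, norm_e, mul_one, Complex.norm_real, Real.norm_eq_abs,
        abs_of_nonneg (sub_nonneg.2 g1)]
      linarith
    have h4 : l ^ 2 ≤ (D / x) ^ 2 := pow_le_pow_left₀ g0 g1 2
    have h5 : (D / x) ^ 2 ≤ (D / M) ^ 2 := by gcongr
    have hu := abs_nonneg u
    rw [h1, norm_mul, norm_inv, Complex.norm_real, Real.norm_eq_abs, abs_of_pos hD,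
      inv_mul_le_iff₀ hD]
    refine (norm_sub_le _ _).trans ?_
    have h6 : D * (7 * (1 + |u|) * D / M ^ 2) = 7 * (1 + |u|) * (D / M) ^ 2 := by
      field_simp
    have h7 := mul_le_mul_of_nonneg_left (h4.trans h5) hu
    have h8 := sq_nonneg (D / M)
    rw [h6]
    linarith
  · refine (norm_sub_le _ _).trans ?_
    rw [norm_div, norm_e, norm_mul, norm_inv, Complex.norm_real, Complex.norm_real,
      Real.norm_eq_abs, Real.norm_eq_abs, abs_of_pos hD, abs_of_pos hx0]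
    have h1 : D⁻¹ * ‖J u (Real.log x) (Real.log (x + D))‖ ≤ 1 / x := by
      rw [inv_mul_le_iff₀ hD]
      refine (J_le _ _ _).trans ?_
      rw [abs_of_nonneg g0, mul_one_div]
      exact g1
    have h2 : 2 / M = 1 / M + 1 / M := by ring
    linarith

theorem tele (g : ℕ → ℂ) {a b : ℕ} (h : a ≤ b) :
    ∑ m ∈ Ioc a b, (g (m + 1) - g m) = g (b + 1) - g (a + 1) := by
  induction b, h using Nat.le_induction with
  | base => simp
  | succ b hb ih =>
    rw [Finset.sum_Ioc_succ_top hb, ih]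
    ring

/-- the first point of the progression after `y` -/
theorem first {D a : ℕ} (ha : a < D) {y : ℝ} (hy : 0 ≤ y) :
    y ≤ (a - D : ℝ) + D * (((⌊y⌋₊ + (D - a)) / D + 1 : ℕ) : ℝ) ∧
      (a - D : ℝ) + D * (((⌊y⌋₊ + (D - a)) / D + 1 : ℕ) : ℝ) ≤ y + D := by
  have h0 : 0 < D := by omega
  have h1 := Nat.div_add_mod (⌊y⌋₊ + (D - a)) D
  have h2 := Nat.mod_lt (⌊y⌋₊ + (D - a)) h0
  generalize (⌊y⌋₊ + (D - a)) / D = q at h1 ⊢
  have h3 : ⌊y⌋₊ + 1 ≤ a + D * q := by omega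
  have h4 : a + D * q ≤ ⌊y⌋₊ + D := by omega
  have h5 : (⌊y⌋₊ : ℝ) + 1 ≤ a + D * q := by exact_mod_cast h3
  have h6 : (a : ℝ) + D * q ≤ ⌊y⌋₊ + D := by exact_mod_cast h4
  have h7 := Nat.lt_floor_add_one y
  have h8 := Nat.floor_le hy
  push_cast
  constructor <;> linarith

theorem ends (u : ℝ) {M y p D : ℝ} (hM : 0 < M) (hy : M ≤ y) (h1 : y ≤ p) (h2 : p ≤ y + D) :
    ‖J u (Real.log y) (Real.log p)‖ ≤ D / M := by
  have hy0 : 0 < y := hM.trans_le hy
  obtain ⟨g0, g1, -⟩ := log_gap hy0 h1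
  refine (J_le _ _ _).trans ?_
  rw [abs_of_nonneg g0]
  exact g1.trans (div_le_div₀ (by linarith) (by linarith) hM hy)

end Ker1

open Ker1 in
theorem st_Ker1 : Ker1St := by
  refine ⟨7 * Real.exp 9 + 4, fun M M' u D a hM hMM hM9 ha => ?_⟩
  have hM0 : 0 < M := by linarith
  have hD0 : (0 : ℝ) < D := by exact_mod_cast (show 0 < D by omega)
  have hD' : (D : ℂ) ≠ 0 := by exact_mod_cast hD0.ne'
  have hfl : ⌊M⌋₊ ≤ ⌊M'⌋₊ := Nat.floor_le_floor hMM
  have hu := abs_nonneg u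
  set G : ℝ → ℂ := fun x => J u (Real.log M) (Real.log x) with hG
  set p : ℕ → ℝ := fun m => (a - D : ℝ) + D * m with hp
  obtain ⟨p1, p2⟩ := first ha hM0.le
  obtain ⟨q1, q2⟩ := first ha (hM0.le.trans hMM)
  have hmm : (⌊M⌋₊ + (D - a)) / D ≤ (⌊M'⌋₊ + (D - a)) / D := Nat.div_le_div_right (by omega)
  have ht : ∑ n ∈ Ioc ⌊M⌋₊ ⌊M'⌋₊ with n % D = a, (G (n + D) - G n) =
      G (p ((⌊M'⌋₊ + (D - a)) / D + 1)) - G (p ((⌊M⌋₊ + (D - a)) / D + 1)) := by
    rw [← tele (fun m => G (p m)) hmm]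
    refine (sum_ap ha _ _ fun x => G (x + D) - G x).trans (Finset.sum_congr rfl fun m _ => ?_)
    simp only [hp]
    congr 2
    push_cast
    ring
  have hsplit : ∑ n ∈ Ioc ⌊M⌋₊ ⌊M'⌋₊ with n % D = a, e (u * Real.log n) / n -
      (D : ℂ)⁻¹ * ∫ v in Real.log M..Real.log M', e (u * v) =
      ∑ n ∈ Ioc ⌊M⌋₊ ⌊M'⌋₊ with n % D = a, (e (u * Real.log n) / ((n : ℝ) : ℂ) -
        ((D : ℝ) : ℂ)⁻¹ * J u (Real.log n) (Real.log (n + D))) +
      (D : ℂ)⁻¹ * (J u (Real.log M') (Real.log (p ((⌊M'⌋₊ + (D - a)) / D + 1))) -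
        J u (Real.log M) (Real.log (p ((⌊M⌋₊ + (D - a)) / D + 1)))) := by
    have h1 : ∀ x : ℝ, J u (Real.log x) (Real.log (x + D)) = G (x + D) - G x := fun x =>
      (J_sub u _ _ _).symm
    simp only [h1, Finset.sum_sub_distrib, ← Finset.mul_sum, Complex.ofReal_natCast]
    rw [← Finset.sum_sub_distrib (fun n : ℕ => G (n + D)), ht,
      ← J_sub u (Real.log M) (Real.log M')]
    simp only [hG, J]
    ring
  rw [hsplit]
  refine (norm_add_le _ _).trans ?_
  have hb0 : 0 ≤ min (7 * (1 + |u|) * D / M ^ 2) (2 / M) := by positivity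
  have h1 : ‖∑ n ∈ Ioc ⌊M⌋₊ ⌊M'⌋₊ with n % D = a, (e (u * Real.log n) / ((n : ℝ) : ℂ) -
      ((D : ℝ) : ℂ)⁻¹ * J u (Real.log n) (Real.log (n + D)))‖ ≤
      (Real.exp 9 * M / D + 1) * min (7 * (1 + |u|) * D / M ^ 2) (2 / M) := by
    refine (norm_sum_le _ _).trans ((Finset.sum_le_card_nsmul _ _ _ fun n hn => term u hM0 ?_
      hD0).trans ?_)
    · have := (Finset.mem_Ioc.1 (Finset.mem_filter.1 hn).1).1
      exact (Nat.lt_of_floor_lt this).le
    · rw [nsmul_eq_mul]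
      refine mul_le_mul_of_nonneg_right ?_ hb0
      have c1 := (abs_le.1 (card_ap ha hfl)).2
      have c2 : ((⌊M'⌋₊ : ℝ) - ⌊M⌋₊) / D ≤ Real.exp 9 * M / D := by
        have := Nat.floor_le (hM0.le.trans hMM)
        have := Nat.cast_nonneg (α := ℝ) ⌊M⌋₊
        exact div_le_div_of_nonneg_right (by linarith) hD0.le
      linarith
  have h2 : (Real.exp 9 * M / D + 1) * min (7 * (1 + |u|) * D / M ^ 2) (2 / M) ≤
      7 * Real.exp 9 * (1 + |u|) / M + 2 / M := by
    rw [add_mul, one_mul]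
    refine add_le_add ((mul_le_mul_of_nonneg_left (min_le_left _ _) (by positivity)).trans_eq ?_)
      (min_le_right _ _)
    field_simp
  have h3 : ‖(D : ℂ)⁻¹ * (J u (Real.log M') (Real.log (p ((⌊M'⌋₊ + (D - a)) / D + 1))) -
      J u (Real.log M) (Real.log (p ((⌊M⌋₊ + (D - a)) / D + 1))))‖ ≤ 2 / M := by
    rw [norm_mul, norm_inv, Complex.norm_natCast, inv_mul_le_iff₀ hD0]
    refine (norm_sub_le _ _).trans ((add_le_add (ends u hM0 hMM q1 q2)
      (ends u hM0 le_rfl p1 p2)).trans_eq ?_)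
    ring
  have h4 : 4 / M ≤ 4 * (1 + |u|) / M := div_le_div_of_nonneg_right (by linarith) hM0.le
  have h5 : (7 * Real.exp 9 + 4) * (1 + |u|) / M =
      7 * Real.exp 9 * (1 + |u|) / M + 4 * (1 + |u|) / M := by ring
  have h6 : 4 / M = 2 / M + 2 / M := by ring
  linarith

open Ker1 in
theorem st_Ker (h1 : Ker1St) (h2 : Ker2St) : KerSt := by
  intro A
  obtain ⟨C, hC⟩ := h1
  obtain ⟨c, M0, hc, h2⟩ := h2 A
  set c' := min c (1 / 2) / 2 with hc'
  have a0 : 0 < c' := by positivity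
  have a1 : 2 * c' ≤ c := by
    have := min_le_left c (1 / 2)
    linarith
  have a2 : 2 * c' ≤ 1 / 2 := by
    have := min_le_right c (1 / 2)
    linarith
  obtain ⟨M1, hM1⟩ := Filter.eventually_atTop.1
    ((tendsto_rpow_atTop a0).eventually_ge_atTop (max 2 (2 * C)))
  refine ⟨c', max (max M0 1) M1, a0, fun M M' u D a hM hMM hM9 ha hD hu => ?_⟩
  have b0 : M0 ≤ M := (le_max_left _ _).trans ((le_max_left _ _).trans hM)
  have b1 : 1 ≤ M := (le_max_right _ _).trans ((le_max_left _ _).trans hM)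
  have b2 := hM1 M ((le_max_right _ _).trans hM)
  have hM0 : 0 < M := by linarith
  have b3 : max 2 (2 * C) * M ^ (-(2 * c')) ≤ M ^ (-c') := by
    refine (mul_le_mul_of_nonneg_right b2 (by positivity)).trans_eq ?_
    rw [← Real.rpow_add hM0]
    congr 1
    ring
  have b4 : M ^ (-(1 / 2) : ℝ) ≤ M ^ (-(2 * c')) :=
    Real.rpow_le_rpow_of_exponent_le b1 (by linarith)
  have b5 : 0 < M ^ (1 / 2 : ℝ) := by positivity
  have b6 : 0 ≤ M ^ (-(2 * c')) := by positivity
  refine le_trans ?_ b3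
  rcases le_total |u| (M ^ (1 / 2 : ℝ)) with h | h
  · refine (hC M M' u D a b1 hMM hM9 ha).trans ?_
    have d1 : 1 ≤ M ^ (1 / 2 : ℝ) := Real.one_le_rpow b1 (by norm_num)
    have d2 : M ^ (1 / 2 : ℝ) / M = M ^ (-(1 / 2) : ℝ) := by
      rw [← Real.rpow_sub_one hM0.ne']
      norm_num
    have d3 : (1 + |u|) / M ≤ 2 * M ^ (-(2 * c')) := by
      refine (div_le_div_of_nonneg_right (show 1 + |u| ≤ 2 * M ^ (1 / 2 : ℝ) by linarith)
        hM0.le).trans ?_
      rw [mul_div_assoc, d2]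
      linarith
    have d4 : 0 ≤ (1 + |u|) / M := by positivity
    have d5 : C ≤ max 2 (2 * C) / 2 := by
      have := le_max_right 2 (2 * C)
      linarith
    have d6 : 0 ≤ max 2 (2 * C) / 2 := by positivity
    rw [mul_div_assoc]
    exact (mul_le_mul d5 d3 d4 d6).trans_eq (by ring)
  · have d1 := h2 M M' u D a b0 hMM hM9 ha
      (hD.trans (Real.rpow_le_rpow_of_exponent_le b1 (by linarith))) h hu
    have d2 : M ^ (-c) ≤ M ^ (-(2 * c')) := Real.rpow_le_rpow_of_exponent_le b1 (by linarith)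
    have hu0 : u ≠ 0 := abs_pos.1 (b5.trans_le h)
    have d3 : ‖(D : ℂ)⁻¹ * ∫ v in Real.log M..Real.log M', e (u * v)‖ ≤ M ^ (-(1 / 2) : ℝ) := by
      have e1 : (1 : ℝ) ≤ D := by exact_mod_cast (show 1 ≤ D by omega)
      rw [norm_mul, norm_inv, Complex.norm_natCast, Real.rpow_neg hM0.le, ← one_div (M ^ _)]
      refine (mul_le_of_le_one_left (norm_nonneg _) (inv_le_one_of_one_le₀ e1)).trans ?_
      exact (J_osc hu0 _ _).trans (one_div_le_one_div_of_le b5 h)
    refine (norm_sub_le _ _).trans ?_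
    have d4 := mul_le_mul_of_nonneg_right (le_max_left 2 (2 * C)) b6
    linarith

end Pool.Agent.Lib.MP_028aa5_nt.T
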