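import Pool.Agent.Lib.MP_028aa5_nt.T.St4

/-! Exponential sums with a logarithmic phase at large frequencies. -/

namespace Pool.Agent.Lib.MP_028aa5_nt.T

open Finset
open scoped ComplexConjugate Classical

namespace Ker2J

lemma pd (j : ℕ) (u c : ℝ) : PD (j + 1) (-u / (j + 1))
    fun t => c - u * ∑ i ∈ range (j + 1), t ^ (i + 1) / (i + 1) := by
  have := PD.poly (j + 1) (Polynomial.C c + ∑ i ∈ range (j + 1),
      Polynomial.monomial (i + 1) (-u / (i + 1)))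
    ((Polynomial.natDegree_add_le _ _).trans (max_le (by simp)
      (Polynomial.natDegree_sum_le_of_forall_le _ _ fun i hi =>
        (Polynomial.natDegree_monomial_le _).trans (mem_range.1 hi))))
  simp only [Polynomial.coeff_add, Polynomial.coeff_C_succ, Polynomial.finset_sum_coeff,
    Polynomial.coeff_monomial, Polynomial.eval_add, Polynomial.eval_C, Polynomial.eval_finset_sum,
    Polynomial.eval_monomial, add_left_inj, sum_ite_eq', mem_range, zero_add] at this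
  rw [if_pos (by omega)] at this
  convert this using 2
  rw [mul_sum, sub_eq_add_neg, ← sum_neg_distrib]
  exact congrArg _ (sum_congr rfl fun _ _ => by ring)

lemma block {j A : ℕ} (hW : WeylSt (j + 1) A) {M x x' u Z R η : ℝ} {D a N : ℕ} (M0 : 0 < M)
    (h1 : M ≤ x) (h2 : x ≤ x') (h3 : x' ≤ x + M / Z) (Z2 : 2 ≤ Z) (R2 : 2 ≤ R) (ha : a < D)
    (hN : M / Z / D + 2 ≤ N) (hη : |u| / Z ^ (j + 2) ≤ η)
    (s1 : R ^ A * ((D / x) ^ (j + 1) * |u| / (j + 1)) ≤ 1 / 2)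
    (s2 : R ^ A < N ^ (j + 1) * ((D / x) ^ (j + 1) * |u| / (j + 1))) :
    ‖∑ n ∈ Ioc ⌊x⌋₊ ⌊x'⌋₊ with n % D = a, e (u * Real.log n) / n‖ ≤
      N / M * (1 / R + 14 * η + 1 / Z) := by
  have x0 : 0 < x := by linarith
  have D0 : 0 < D := by omega
  have D1 : (0 : ℝ) < D := by exact_mod_cast D0
  have Z0 : 0 < Z := by linarith
  have N2 : (0 : ℝ) < N := lt_of_lt_of_le (by positivity) hN
  set g : ℝ → ℝ := fun y => u * Real.log x - u * ∑ i ∈ range (j + 1), (1 - y / x) ^ (i + 1) / (i + 1)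
    with hg
  have f1 : (⌊x'⌋₊ : ℝ) - ⌊x⌋₊ ≤ M / Z + 1 := by
    linarith [Nat.floor_le (x0.le.trans h2), Nat.lt_floor_add_one x]
  have hb : (⌊x'⌋₊ + (D - a)) / D ≤ (⌊x⌋₊ + (D - a)) / D + N := by
    have b1 := (div_bounds D0 (⌊x'⌋₊ + (D - a))).2
    have b2 := (div_bounds D0 (⌊x⌋₊ + (D - a))).1
    have b3 : ((⌊x'⌋₊ + (D - a) : ℕ) : ℝ) / D ≤ ((⌊x⌋₊ + (D - a) : ℕ) : ℝ) / D + M / Z / D + 1 := by
      rw [← add_div, div_add_one D1.ne']
      have : (1 : ℝ) ≤ D := by exact_mod_cast D0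
      refine div_le_div_of_nonneg_right ?_ D1.le
      push_cast [Nat.cast_add]
      linarith
    exact_mod_cast (by linarith : (((⌊x'⌋₊ + (D - a)) / D : ℕ) : ℝ) ≤
      ((⌊x⌋₊ + (D - a)) / D : ℕ) + N)
  have main : ‖∑ n ∈ Ioc ⌊x⌋₊ ⌊x'⌋₊ with n % D = a, e (g n)‖ ≤ N / R := by
    rw [sum_ap ha _ _ fun y => e (g y)]
    by_contra hc
    have p1 := (pd j u (u * Real.log x)).affine (1 - (a - D) / x) (-D / x)
    obtain ⟨q, q1, q2, q3⟩ := hW R _ _ N _ _ R2 p1 hb (by exact_mod_cast N2) (by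
      refine (not_le.1 hc).le.trans (le_of_eq ?_)
      simp only [hg]
      congr 1
      refine sum_congr rfl fun m _ => ?_
      rw [show 1 - (a - D + D * (m : ℝ)) / x = 1 - (a - D) / x + -D / x * m by ring])
    have q0 : (1 : ℝ) ≤ q := by exact_mod_cast q1
    have e1 : |(q : ℝ) * ((-D / x) ^ (j + 1) * (-u / (j + 1)))| =
        q * ((D / x) ^ (j + 1) * |u| / (j + 1)) := by
      rw [abs_mul, abs_mul, abs_pow, abs_div, abs_div, abs_neg, abs_neg, Nat.abs_cast, Nat.abs_cast,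
        abs_of_pos x0, abs_of_pos (by positivity : (0 : ℝ) < j + 1), mul_div_assoc]
    have e0 : 0 ≤ (D / x) ^ (j + 1) * |u| / (j + 1) := by positivity
    have e2 := q3.abs_le (by rw [e1]; exact (mul_le_mul_of_nonneg_right q2 e0).trans s1)
    rw [e1, le_div_iff₀ (by positivity)] at e2
    nlinarith [mul_le_mul_of_nonneg_right q0 (mul_nonneg e0 (pow_pos N2 (j + 1)).le)]
  have cnt : (#{n ∈ Ioc ⌊x⌋₊ ⌊x'⌋₊ | n % D = a} : ℝ) ≤ N := by
    have c1 := (abs_le.1 (card_ap ha (Nat.floor_le_floor h2))).2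
    have c2 : ((⌊x'⌋₊ : ℝ) - ⌊x⌋₊) / D ≤ M / Z / D + 1 := by
      rw [div_add_one D1.ne']
      have : (1 : ℝ) ≤ D := by exact_mod_cast D0
      exact div_le_div_of_nonneg_right (by linarith) D1.le
    linarith
  have η0 : 0 ≤ η := le_trans (by positivity) hη
  have term : ∀ n ∈ Ioc ⌊x⌋₊ ⌊x'⌋₊, ‖e (u * Real.log n) / n - e (g n) / x‖ ≤ (14 * η + 1 / Z) / M := by
    intro n hn
    obtain ⟨n1, n2⟩ := mem_Ioc.1 hn
    rw [Nat.floor_lt x0.le] at n1
    rw [Nat.le_floor_iff (x0.le.trans h2)] at n2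
    have n0 : (0 : ℝ) < n := by linarith
    have w1 : |1 - n / x| ≤ 1 / Z := by
      rw [abs_sub_comm, abs_of_nonneg (sub_nonneg.2 ((one_le_div x0).2 n1.le)), sub_le_iff_le_add,
        div_le_iff₀ x0]
      have : M / Z ≤ 1 / Z * x := by rw [div_mul_eq_mul_div, one_mul]; gcongr
      linarith
    have w2 : 1 / Z ≤ 1 / 2 := one_div_le_one_div_of_le two_pos Z2
    have w3 := Real.abs_log_sub_add_sum_range_le (x := 1 - n / x) (by linarith) (j + 1)
    rw [sub_sub_cancel, Real.log_div n0.ne' x0.ne'] at w3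
    have w4 : |u * Real.log n - g n| ≤ 2 * η := by
      rw [show u * Real.log n - g n = u * (∑ i ∈ range (j + 1), (1 - n / x) ^ (i + 1) / (i + 1) +
        (Real.log n - Real.log x)) by simp only [hg]; ring, abs_mul]
      have : |1 - n / x| ^ (j + 1 + 1) / (1 - |1 - n / x|) ≤ (1 / Z) ^ (j + 2) / (1 / 2) := by
        gcongr
        linarith
      refine (mul_le_mul_of_nonneg_left (w3.trans this) (abs_nonneg _)).trans ?_
      rw [one_div_pow, show |u| * (1 / Z ^ (j + 2) / (1 / 2)) = 2 * (|u| / Z ^ (j + 2)) by ring]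
      linarith
    have n3 : (n : ℂ) ≠ 0 := by exact_mod_cast n0.ne'
    have x3 : (x : ℂ) ≠ 0 := by exact_mod_cast x0.ne'
    rw [show e (u * Real.log n) / n - e (g n) / x = ((e (u * Real.log n) - e (g n)) +
      e (g n) * ((1 - n / x : ℝ) : ℂ)) / n by push_cast; field_simp; ring, norm_div,
      Complex.norm_natCast]
    refine div_le_div₀ (by positivity) ((norm_add_le _ _).trans (add_le_add
      ((norm_e_sub_le _ _).trans (by linarith)) ?_)) M0 (by linarith)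
    rwa [norm_mul, norm_e, one_mul, Complex.norm_real]
  have t1 : ‖∑ n ∈ Ioc ⌊x⌋₊ ⌊x'⌋₊ with n % D = a, e (u * Real.log n) / n -
      (∑ n ∈ Ioc ⌊x⌋₊ ⌊x'⌋₊ with n % D = a, e (g n)) / x‖ ≤ N * ((14 * η + 1 / Z) / M) := by
    rw [sum_div, ← sum_sub_distrib]
    refine (norm_sum_le _ _).trans ((sum_le_card_nsmul _ _ _ fun n hn =>
      term n (mem_filter.1 hn).1).trans ?_)
    rw [nsmul_eq_mul]
    exact mul_le_mul_of_nonneg_right cnt (by positivity)
  have t2 := (norm_sub_norm_le _ _).trans t1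
  rw [norm_div, Complex.norm_real, Real.norm_of_nonneg x0.le] at t2
  have t3 : ‖∑ n ∈ Ioc ⌊x⌋₊ ⌊x'⌋₊ with n % D = a, e (g n)‖ / x ≤ N / R / M :=
    div_le_div₀ (by positivity) main M0 h1
  rw [show N / M * (1 / R + 14 * η + 1 / Z) = N / R / M + N * ((14 * η + 1 / Z) / M) by ring]
  linarith

lemma tile (f : ℕ → ℂ) (x : ℕ → ℝ) (hx : ∀ i, x i ≤ x (i + 1)) (W : ℕ) :
    ∑ n ∈ Ioc ⌊x 0⌋₊ ⌊x W⌋₊, f n = ∑ i ∈ range W, ∑ n ∈ Ioc ⌊x i⌋₊ ⌊x (i + 1)⌋₊, f n := by
  induction W with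
  | zero => simp
  | succ W ih =>
    rw [sum_range_succ, ← ih, sum_Ioc_consecutive _
      (Nat.floor_le_floor (monotone_nat_of_le_succ hx (Nat.zero_le W))) (Nat.floor_le_floor (hx W))]

lemma big (K : ℝ) {c : ℝ} (hc : 0 < c) : ∃ M0 : ℝ, ∀ M ≥ M0, K ≤ M ^ c :=
  Filter.eventually_atTop.1 ((tendsto_rpow_atTop hc).eventually_ge_atTop K)

end Ker2J

open Ker2J

theorem st_Ker2 : Ker2St := by
  intro A
  obtain ⟨j, j1, j2⟩ : ∃ j : ℕ, 1 ≤ j ∧ 4 * A ≤ (2 * j + 3 : ℕ) :=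
    ⟨⌈2 * |A|⌉₊ + 1, by omega, by
      push_cast
      linarith [Nat.le_ceil (2 * |A|), le_abs_self A]⟩
  obtain ⟨B, hW⟩ := weyl (k := j + 1) (by omega)
  have n5 : (5 : ℝ) ≤ (2 * j + 3 : ℕ) := by exact_mod_cast (by omega : 5 ≤ 2 * j + 3)
  obtain ⟨s, s0, s1, s2⟩ : ∃ s : ℝ, 0 < s ∧ s ≤ 1 / 10 ∧ s * (2 * j + 3 : ℕ) = 1 / 2 :=
    ⟨1 / (2 * (2 * j + 3 : ℕ)), by positivity, one_div_le_one_div_of_le (by norm_num) (by linarith),
      by field_simp⟩
  obtain ⟨c, c0, c1, c2⟩ : ∃ c : ℝ, 0 < c ∧ 2 * c * B ≤ s / 2 ∧ 2 * c ≤ s / 2 := by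
    refine ⟨s / (4 * (B + 1)), by positivity, ?_, ?_⟩ <;>
    · rw [← sub_nonneg]
      field_simp
      ring_nf
      positivity
  set E := Real.exp 9 with hE
  have E1 : 1 ≤ E := Real.one_le_exp (by norm_num)
  obtain ⟨M1, b1⟩ := big (64 * E) c0
  obtain ⟨M2, b2⟩ := big (E ^ (j + 1) * (j + 1) + 1) (half_pos s0)
  obtain ⟨M3, b3⟩ := big 3 (show (0 : ℝ) < 2 / 5 by norm_num)
  refine ⟨c, max (max M1 M2) (max M3 1), c0, fun M M' u D a hM h1 h2 ha hD u1 u2 => ?_⟩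
  simp only [max_le_iff] at hM
  obtain ⟨⟨m1, m2⟩, m3, m4⟩ := hM
  replace b1 := b1 M m1
  replace b2 := b2 M m2
  replace b3 := b3 M m3
  have M0 : 0 < M := by linarith
  have mono : ∀ x y : ℝ, x ≤ y → M ^ x ≤ M ^ y := fun x y => Real.rpow_le_rpow_of_exponent_le m4
  have pos : ∀ x : ℝ, 0 < M ^ x := fun x => Real.rpow_pos_of_pos M0 x
  have D1 : (1 : ℝ) ≤ D := by exact_mod_cast (by omega : 1 ≤ D)
  obtain ⟨V, V0, hV⟩ : ∃ V : ℝ, 0 ≤ V ∧ V ^ (2 * j + 3) = |u| :=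
    ⟨|u| ^ ((2 * j + 3 : ℕ) : ℝ)⁻¹, by positivity,
      Real.rpow_inv_natCast_pow (abs_nonneg _) (by omega)⟩
  have V1 : M ^ s ≤ V := by
    refine le_of_pow_le_pow_left₀ (n := 2 * j + 3) (by omega) V0 ?_
    rwa [hV, ← Real.rpow_natCast, ← Real.rpow_mul M0.le, s2]
  have V2 : V ≤ M ^ (1 / 4 : ℝ) := by
    refine le_of_pow_le_pow_left₀ (n := 2 * j + 3) (by omega) (pos _).le ?_
    rw [hV, ← Real.rpow_natCast, ← Real.rpow_mul M0.le]
    exact u2.trans (mono _ _ (by linarith))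
  set R := M ^ (2 * c) with hR
  have R1 : R = M ^ c * M ^ c := by rw [hR, two_mul, Real.rpow_add M0]
  have R2 : 2 ≤ R := by nlinarith
  have R3 : R ≤ V := (mono _ _ (by linarith)).trans V1
  have R4 : R ^ B ≤ M ^ (s / 2) := by
    rw [hR, ← Real.rpow_natCast, ← Real.rpow_mul M0.le]
    exact mono _ _ c1
  have V3 : 0 < V := by linarith
  have Z2 : 2 ≤ V ^ 2 := by nlinarith
  have w1 : D * V ^ 2 * M ^ (2 / 5 : ℝ) ≤ M := by
    calc _ ≤ M ^ c * (M ^ (1 / 4 : ℝ)) ^ 2 * M ^ (2 / 5 : ℝ) := by gcongr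
      _ = M ^ (c + 9 / 10) := by
        rw [sq, ← Real.rpow_add M0, ← Real.rpow_add M0, ← Real.rpow_add M0]
        congr 1
        ring
      _ ≤ M ^ (1 : ℝ) := mono _ _ (by linarith)
      _ = M := Real.rpow_one M
  set H := M / V ^ 2 / D with hH
  have H1 : M ^ (2 / 5 : ℝ) ≤ H := by
    rw [hH, div_div, le_div_iff₀ (by positivity)]
    linarith
  set N := ⌈H⌉₊ + 2 with hN
  have N1 : H + 2 ≤ N := by rw [hN]; push_cast; linarith [Nat.le_ceil H]
  have N2 : (N : ℝ) ≤ 2 * H := by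
    rw [hN]
    push_cast
    linarith [Nat.ceil_lt_add_one (show 0 ≤ H by linarith)]
  set x : ℕ → ℝ := fun i => min (M + i * (M / V ^ 2)) M' with hx
  have q0 : 0 < M / V ^ 2 := by positivity
  have x1 : ∀ i, x i ≤ x (i + 1) := fun i => min_le_min_right _ (by push_cast; linarith)
  have x2 : ∀ i, M ≤ x i := fun i => le_min (le_add_of_nonneg_right (by positivity)) h1
  have x3 : ∀ i, x (i + 1) ≤ x i + M / V ^ 2 := fun i => by
    simp only [hx, ← min_add_add_right]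
    exact min_le_min (by push_cast; linarith) (by linarith)
  have blk : ∀ i, ‖∑ n ∈ Ioc ⌊x i⌋₊ ⌊x (i + 1)⌋₊ with n % D = a, e (u * Real.log n) / n‖ ≤
      32 / (V ^ 2 * R) := fun i => by
    have y0 : 0 < x i := M0.trans_le (x2 i)
    have e1 : (D / x i) ^ (j + 1) * |u| = (D * V ^ 2 / x i) ^ (j + 1) * V := by
      rw [← hV, mul_div_right_comm, mul_pow, ← pow_mul]
      ring
    refine (block hW M0 (x2 i) (x1 i) (x3 i) Z2 R2 ha N1 (η := 1 / V) (le_of_eq ?_) ?_ ?_).trans ?_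
    · rw [← hV]
      field_simp
      ring
    · have t1 : D * V ^ 2 / x i ≤ 1 / M ^ (2 / 5 : ℝ) := by
        rw [div_le_div_iff₀ y0 (pos _)]
        linarith [x2 i]
      have t2 : (D * V ^ 2 / x i) ^ (j + 1) ≤ (1 / M ^ (2 / 5 : ℝ)) ^ 2 :=
        (pow_le_pow_left₀ (by positivity) t1 _).trans (pow_le_pow_of_le_one (by positivity)
          ((div_le_one (pos _)).2 (by linarith)) (by omega))
      have t3 : M ^ (s / 2) * M ^ (1 / 4 : ℝ) ≤ M ^ (2 / 5 : ℝ) := by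
        rw [← Real.rpow_add M0]
        exact mono _ _ (by linarith)
      rw [e1]
      calc _ ≤ M ^ (s / 2) * ((1 / M ^ (2 / 5 : ℝ)) ^ 2 * M ^ (1 / 4 : ℝ) / 1) := by
            gcongr
            exact le_add_of_nonneg_left (Nat.cast_nonneg _)
        _ = M ^ (s / 2) * M ^ (1 / 4 : ℝ) / (M ^ (2 / 5 : ℝ)) ^ 2 := by ring
        _ ≤ 1 / 2 := by
            rw [div_le_div_iff₀ (by positivity) two_pos]
            nlinarith
    · have t1 : 1 / E ≤ N * (D * V ^ 2 / x i) := by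
        have : x i ≤ E * M := (min_le_right _ _).trans h2
        calc 1 / E = H * (D * V ^ 2 / (E * M)) := by rw [hH]; field_simp
          _ ≤ _ := by gcongr; linarith
      have t2 := pow_le_pow_left₀ (by positivity) t1 (j + 1)
      rw [e1, ← mul_div_assoc, ← mul_assoc, ← mul_pow, lt_div_iff₀ (by positivity)]
      have t3 : M ^ s = M ^ (s / 2) * M ^ (s / 2) := by rw [← Real.rpow_add M0, add_halves]
      have t4 : 0 < E ^ (j + 1) := by positivity
      refine lt_of_lt_of_le ?_ (mul_le_mul t2 V1 (pos _).le (by positivity))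
      rw [one_div_pow, one_div_mul_eq_div, lt_div_iff₀ t4, t3]
      have t5 := mul_le_mul_of_nonneg_right R4 (show 0 ≤ (j + 1 : ℝ) * E ^ (j + 1) by positivity)
      nlinarith [pos (s / 2)]
    · have t1 : 1 / V ≤ 1 / R := one_div_le_one_div_of_le (by linarith) R3
      have t2 : 1 / V ^ 2 ≤ 1 / R := one_div_le_one_div_of_le (by linarith) (by nlinarith)
      have t3 : N / M ≤ 2 / V ^ 2 := by
        rw [div_le_iff₀ M0]
        refine N2.trans ?_
        rw [show 2 / V ^ 2 * M = 2 * (M / V ^ 2) by ring]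
        exact mul_le_mul_of_nonneg_left (div_le_self q0.le D1) two_pos.le
      calc _ ≤ 2 / V ^ 2 * (16 * (1 / R)) := mul_le_mul t3 (by linarith) (by positivity) (by positivity)
        _ = _ := by field_simp; norm_num
  have e0 : x 0 = M := by simp [hx, h1]
  have e1 : x ⌈E * V ^ 2⌉₊ = M' := by
    refine min_eq_right (h2.trans ?_)
    have := mul_le_mul_of_nonneg_right (Nat.le_ceil (E * V ^ 2)) q0.le
    rw [show E * V ^ 2 * (M / V ^ 2) = E * M by field_simp] at this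
    linarith
  have t := tile (fun n => if n % D = a then e (u * Real.log n) / n else 0) x x1 ⌈E * V ^ 2⌉₊
  simp only [← sum_filter, e0, e1] at t
  rw [t]
  refine (norm_sum_le _ _).trans ((sum_le_card_nsmul _ _ _ fun i _ => blk i).trans ?_)
  rw [card_range, nsmul_eq_mul, Real.rpow_neg M0.le]
  have t1 : (⌈E * V ^ 2⌉₊ : ℝ) ≤ 2 * (E * V ^ 2) := by
    nlinarith [Nat.ceil_lt_add_one (show 0 ≤ E * V ^ 2 by positivity)]
  calc _ ≤ 2 * (E * V ^ 2) * (32 / (V ^ 2 * R)) := by gcongr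
    _ = 64 * E / M ^ c * (M ^ c)⁻¹ := by rw [R1]; field_simp; norm_num
    _ ≤ _ := mul_le_of_le_one_left (inv_pos.2 (pos c)).le ((div_le_one (pos c)).2 b1)

end Pool.Agent.Lib.MP_028aa5_nt.T
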