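import Pool.Agent.Lib.MP_028aa5_nt.T.St4

/-! Upper bound for Dirichlet series of characters near the line `1`. -/

namespace Pool.Agent.Lib.MP_028aa5_nt.T

open Finset Filter
open scoped ComplexConjugate Classical

namespace L

lemma abel {b : ℕ → ℂ} {ω : ℕ → ℝ} {N0 : ℕ} {K : ℝ} (hb : ∀ N ≥ N0, ‖∑ n ∈ Ioc N0 N, b n‖ ≤ K)
    (h0 : ∀ n, 0 ≤ ω n) (h1 : ∀ n ≥ N0, ω (n + 1) ≤ ω n) {N : ℕ} (hN : N0 ≤ N) :
    ‖∑ n ∈ Ioc N0 N, b n * ω n‖ ≤ K * ω N0 := by
  have key : ‖∑ n ∈ Ioc N0 N, b n * ω n - (∑ n ∈ Ioc N0 N, b n) * ω N‖ ≤ K * (ω N0 - ω N) := by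
    induction N, hN using Nat.le_induction with
    | base => simp
    | succ N hN ih =>
      rw [sum_Ioc_succ_top hN, sum_Ioc_succ_top hN]
      have e1 : ∑ n ∈ Ioc N0 N, b n * ω n + b (N + 1) * ω (N + 1) -
          (∑ n ∈ Ioc N0 N, b n + b (N + 1)) * ω (N + 1) =
          (∑ n ∈ Ioc N0 N, b n * ω n - (∑ n ∈ Ioc N0 N, b n) * ω N) +
            (∑ n ∈ Ioc N0 N, b n) * ((ω N - ω (N + 1) : ℝ) : ℂ) := by
        push_cast
        ring
      rw [e1]
      refine (norm_add_le _ _).trans ?_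
      have a1 := sub_nonneg.2 (h1 N hN)
      rw [norm_mul, Complex.norm_real, Real.norm_of_nonneg a1]
      have a2 := mul_le_mul_of_nonneg_right (hb N hN) a1
      linarith
  have a3 : ‖(∑ n ∈ Ioc N0 N, b n) * ω N‖ ≤ K * ω N := by
    rw [norm_mul, Complex.norm_real, Real.norm_of_nonneg (h0 N)]
    exact mul_le_mul_of_nonneg_right (hb N hN) (h0 N)
  have a4 := norm_add_le (∑ n ∈ Ioc N0 N, b n * ω n - (∑ n ∈ Ioc N0 N, b n) * ω N)
    ((∑ n ∈ Ioc N0 N, b n) * ω N)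
  rw [sub_add_cancel] at a4
  linarith

lemma cont (w : ℝ) : Continuous fun v : ℝ => e (w * v) := by
  unfold e
  fun_prop

lemma int_le {u : ℝ} (hu : 1 ≤ |u|) (a b : ℝ) :
    ‖∫ v in a..b, e (-u / (2 * Real.pi) * v)‖ ≤ 2 := by
  have u0 : u ≠ 0 := by
    rintro rfl
    norm_num at hu
  have e1 : ∀ v : ℝ, e (-u / (2 * Real.pi) * v) = Complex.exp (-u * Complex.I * v) := fun v => by
    unfold e
    congr 1
    have : (Real.pi : ℂ) ≠ 0 := by exact_mod_cast Real.pi_ne_zero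
    push_cast
    field_simp
  have c0 : (-u * Complex.I : ℂ) ≠ 0 := by simp [u0]
  have n1 : ∀ v : ℝ, ‖Complex.exp (-u * Complex.I * v)‖ = 1 := fun v => by
    rw [← e1, norm_e]
  simp only [e1]
  rw [integral_exp_mul_complex c0, norm_div]
  have n2 : ‖(-u * Complex.I : ℂ)‖ = |u| := by simp
  rw [n2, div_le_iff₀ (by linarith)]
  have := norm_sub_le (Complex.exp (-u * Complex.I * b)) (Complex.exp (-u * Complex.I * a))
  rw [n1, n1] at this
  linarith

lemma block {q : ℕ} (hq : 1 ≤ q) (χ : DirichletCharacter ℂ q) (S : Finset ℕ) (g : ℕ → ℂ) (J : ℂ)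
    {ε : ℝ} (h : ∀ a < q, ‖∑ n ∈ S with n % q = a, g n - (q : ℂ)⁻¹ * J‖ ≤ ε) :
    ‖∑ n ∈ S, χ n * g n - (∑ a ∈ range q, χ a) * (q : ℂ)⁻¹ * J‖ ≤ q * ε := by
  rw [← sum_fiberwise_of_maps_to (s := S) (t := range q) (g := fun n => n % q)
    fun n _ => mem_range.2 (Nat.mod_lt _ hq), mul_assoc, sum_mul, ← sum_sub_distrib]
  refine (norm_sum_le _ _).trans ((sum_le_card_nsmul _ _ ε fun a ha => ?_).trans (by simp))
  have e1 : ∑ n ∈ S with n % q = a, χ n * g n = χ a * ∑ n ∈ S with n % q = a, g n := by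
    rw [mul_sum]
    refine sum_congr rfl fun n hn => ?_
    rw [← (mem_filter.1 hn).2, ZMod.natCast_mod]
  rw [e1, ← mul_sub, norm_mul]
  calc _ ≤ 1 * ε := mul_le_mul (χ.norm_le_one _) (h a (mem_range.1 ha)) (norm_nonneg _) zero_le_one
    _ = ε := one_mul ε

lemma chain {b : ℕ → ℂ} {m : ℂ} {w M0 E r : ℝ} (h0 : 0 < M0) (hE : 0 ≤ E) (hr : 0 ≤ r)
    (h : ∀ (i : ℕ) (y : ℝ), M0 * Real.exp (9 * i) ≤ y → y ≤ Real.exp 9 * (M0 * Real.exp (9 * i)) →
      ‖∑ n ∈ Ioc ⌊M0 * Real.exp (9 * i)⌋₊ ⌊y⌋₊, b n -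
        m * ∫ v in Real.log (M0 * Real.exp (9 * i))..Real.log y, e (w * v)‖ ≤ E * r ^ i)
    (i : ℕ) : ∀ y, M0 ≤ y → y ≤ M0 * Real.exp (9 * i) →
      ‖∑ n ∈ Ioc ⌊M0⌋₊ ⌊y⌋₊, b n - m * ∫ v in Real.log M0..Real.log y, e (w * v)‖ ≤
        E * ∑ j ∈ range i, r ^ j := by
  induction i with
  | zero =>
    intro y h1 h2
    have : y = M0 := le_antisymm (by simpa using h2) h1
    simp [this]
  | succ i ih =>
    intro y h1 h2
    rw [sum_range_succ, mul_add]
    rcases le_total y (M0 * Real.exp (9 * i)) with h3 | h3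
    · exact (ih y h1 h3).trans (le_add_of_nonneg_right (by positivity))
    · have a0 : M0 ≤ M0 * Real.exp (9 * i) :=
        le_mul_of_one_le_right h0.le (Real.one_le_exp (by positivity))
      have a1 := ih _ a0 le_rfl
      have a2 := h i y h3 (by
        refine h2.trans (le_of_eq ?_)
        push_cast
        rw [mul_add, Real.exp_add]
        ring_nf)
      rw [← sum_Ioc_consecutive b (Nat.floor_le_floor a0) (Nat.floor_le_floor h3),
        ← intervalIntegral.integral_add_adjacent_intervals (b := Real.log (M0 * Real.exp (9 * i)))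
          ((cont w).intervalIntegrable _ _) ((cont w).intervalIntegrable _ _), mul_add,
        add_sub_add_comm]
      exact (norm_add_le _ _).trans (add_le_add a1 a2)

lemma term_eq (f : ℕ → ℂ) (σ u : ℝ) {n : ℕ} (hn : 1 ≤ n) :
    LSeries.term f (1 + (σ : ℂ) + Complex.I * u) n =
      f n * (e (-u / (2 * Real.pi) * Real.log n) / n) * (((n : ℝ) ^ (-σ) : ℝ) : ℂ) := by
  have n0 : (0 : ℝ) < n := by exact_mod_cast hn
  have n1 : (n : ℂ) ≠ 0 := by exact_mod_cast n0.ne'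
  have p0 : (Real.pi : ℂ) ≠ 0 := by exact_mod_cast Real.pi_ne_zero
  have e1 : (n : ℂ) = Complex.exp (Real.log n : ℝ) := by
    rw [← Complex.ofReal_exp, Real.exp_log n0]
    simp
  rw [LSeries.term_of_ne_zero (by omega), Complex.cpow_def_of_ne_zero n1, ← Complex.natCast_log,
    Real.rpow_def_of_pos n0, Complex.ofReal_exp, mul_assoc, div_eq_mul_inv (f n)]
  congr 1
  rw [e1, ← e1]
  conv_rhs => rw [e1]
  unfold e
  rw [← Complex.exp_neg, ← Complex.exp_sub, ← Complex.exp_add]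
  congr 1
  push_cast
  field_simp
  ring

end L

open L

theorem st_L (hK : KerSt) : LSt := by
  intro q A δ hq hδ
  obtain ⟨c, M1, hc, hK⟩ := hK (max A 0 / (δ / 2))
  set r := Real.exp (-(9 * c)) with hr
  have r0 : 0 < r := Real.exp_pos _
  have r1 : r < 1 := Real.exp_lt_one_iff.2 (by linarith)
  have t1 := tendsto_rpow_atTop (half_pos hδ)
  have ev : ∀ᶠ X : ℝ in atTop, M1 ≤ X ^ (δ / 2) ∧ 1 ≤ X ∧ q * (1 - r)⁻¹ ≤ (X ^ (δ / 2)) ^ c ∧
      4 / (δ / 2) ≤ Real.log X :=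
    (t1.eventually_ge_atTop _).and ((eventually_ge_atTop _).and
      ((((tendsto_rpow_atTop hc).comp t1).eventually_ge_atTop _).and
        (Real.tendsto_log_atTop.eventually_ge_atTop _)))
  obtain ⟨X0, hX0⟩ := eventually_atTop.1 ev
  refine ⟨X0, fun X hX χ u u1 uA => ?_⟩
  obtain ⟨x1, x2, x3, x4⟩ := hX0 X hX
  set M0 := X ^ (δ / 2) with hM0
  have m1 : 1 ≤ M0 := Real.one_le_rpow x2 (half_pos hδ).le
  have m0 : 0 < M0 := by linarith
  have i1 : 1 ≤ (1 - r)⁻¹ := (one_le_inv₀ (by linarith)).2 (by linarith)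
  have q0 : (0 : ℝ) ≤ q := Nat.cast_nonneg q
  have l0 : 0 < Real.log X := lt_of_lt_of_le (by positivity) x4
  have hw : |-u / (2 * Real.pi)| ≤ M0 ^ (max A 0 / (δ / 2)) := by
    rw [hM0, ← Real.rpow_mul (by linarith), mul_div_cancel₀ _ (half_pos hδ).ne', abs_div, abs_neg]
    refine (div_le_self (abs_nonneg _) ?_).trans
      (uA.trans (Real.rpow_le_rpow_of_exponent_le x2 (le_max_left _ _)))
    rw [abs_of_pos Real.two_pi_pos]
    linarith [Real.pi_gt_three]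
  set b : ℕ → ℂ := fun n => χ n * (e (-u / (2 * Real.pi) * Real.log n) / n) with hb
  set m : ℂ := (∑ a ∈ range q, χ a) * (q : ℂ)⁻¹ with hm
  have hm1 : ‖m‖ ≤ 1 := by
    rw [hm, norm_mul, norm_inv, Complex.norm_natCast, ← div_eq_mul_inv,
      div_le_one (by exact_mod_cast hq)]
    exact (norm_sum_le _ _).trans
      ((sum_le_card_nsmul _ _ 1 fun a _ => χ.norm_le_one _).trans (by simp))
  have hch := chain (b := b) (m := m) (w := -u / (2 * Real.pi)) (E := q * M0 ^ (-c)) m0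
    (by positivity) r0.le (fun i y y1 y2 => by
      have a0 : M0 ≤ M0 * Real.exp (9 * i) :=
        le_mul_of_one_le_right m0.le (Real.one_le_exp (by positivity))
      have a1 : (q : ℝ) ≤ (M0 * Real.exp (9 * i)) ^ c :=
        ((le_mul_of_one_le_right q0 i1).trans x3).trans (Real.rpow_le_rpow m0.le a0 hc.le)
      have a2 := hw.trans (Real.rpow_le_rpow m0.le a0
        (div_nonneg (le_max_right A 0) (half_pos hδ).le))
      refine (block hq χ _ _ _ fun a ha => hK _ y _ q a (x1.trans a0) y1 y2 ha a1 a2).trans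
        (le_of_eq ?_)
      rw [Real.mul_rpow m0.le (Real.exp_pos _).le, hr, ← Real.exp_mul, ← Real.exp_nat_mul,
        show 9 * (i : ℝ) * -c = i * -(9 * c) by ring, mul_assoc])
  have hS : ∀ N ≥ ⌊M0⌋₊, ‖∑ n ∈ Ioc ⌊M0⌋₊ N, b n‖ ≤ 3 := by
    intro N hN
    rcases hN.eq_or_lt with rfl | hN
    · simp
    · have a1 : M0 ≤ N := (Nat.lt_floor_add_one M0).le.trans (by exact_mod_cast hN)
      have a2 : (N : ℝ) ≤ M0 * Real.exp (9 * N) := by
        have := Real.add_one_le_exp (9 * N : ℝ)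
        have n0 : (0 : ℝ) ≤ N := Nat.cast_nonneg N
        nlinarith
      have a3 := hch N N a1 a2
      rw [Nat.floor_natCast] at a3
      have a4 : ∑ j ∈ range N, r ^ j ≤ (1 - r)⁻¹ := by
        rw [← tsum_geometric_of_lt_one r0.le r1]
        exact (summable_geometric_of_lt_one r0.le r1).sum_le_tsum _ fun _ _ => by positivity
      have a5 : q * M0 ^ (-c) * ∑ j ∈ range N, r ^ j ≤ 1 := by
        have p0 : 0 < M0 ^ c := by positivity
        calc q * M0 ^ (-c) * ∑ j ∈ range N, r ^ j ≤ q * M0 ^ (-c) * (1 - r)⁻¹ := by gcongr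
          _ = q * (1 - r)⁻¹ / M0 ^ c := by
            rw [Real.rpow_neg m0.le]
            ring
          _ ≤ 1 := (div_le_one p0).2 x3
      have a6 : ‖m * ∫ v in Real.log M0..Real.log N, e (-u / (2 * Real.pi) * v)‖ ≤ 2 := by
        rw [norm_mul]
        calc _ ≤ 1 * 2 := mul_le_mul hm1 (int_le u1 _ _) (norm_nonneg _) zero_le_one
          _ = 2 := one_mul _
      have a7 := norm_add_le (∑ n ∈ Ioc ⌊M0⌋₊ N, b n -
        m * ∫ v in Real.log M0..Real.log N, e (-u / (2 * Real.pi) * v))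
        (m * ∫ v in Real.log M0..Real.log N, e (-u / (2 * Real.pi) * v))
      rw [sub_add_cancel] at a7
      linarith
  set σ := 1 / Real.log X with hσ
  have s0 : 0 < σ := by positivity
  have n1 : 1 ≤ ⌊M0⌋₊ := Nat.le_floor (by simpa using m1)
  have w1 : ∀ n : ℕ, 1 ≤ n → (n : ℝ) ^ (-σ) ≤ 1 := fun n hn =>
    Real.rpow_le_one_of_one_le_of_nonpos (by exact_mod_cast hn) (by linarith)
  have hsum : LSeriesSummable (fun n : ℕ => χ n) (1 + (σ : ℂ) + Complex.I * u) :=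
    χ.LSeriesSummable_of_one_lt_re (by simp [s0])
  refine le_of_tendsto ((tendsto_add_atTop_iff_nat 1).2 hsum.hasSum.tendsto_sum_nat).norm
    (eventually_atTop.2 ⟨⌊M0⌋₊, fun N hN => ?_⟩)
  have e1 : ∑ n ∈ range (N + 1), LSeries.term (fun n : ℕ => χ n) (1 + (σ : ℂ) + Complex.I * u) n =
      ∑ n ∈ Ioc 0 ⌊M0⌋₊, b n * ((n : ℝ) ^ (-σ) : ℝ) +
        ∑ n ∈ Ioc ⌊M0⌋₊ N, b n * ((n : ℝ) ^ (-σ) : ℝ) := by
    rw [sum_Ioc_consecutive _ (Nat.zero_le _) hN, Nat.range_succ_eq_Icc_zero,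
      ← Finset.Ioc_insert_left (Nat.zero_le N), sum_insert (by simp), LSeries.term_zero, zero_add]
    exact sum_congr rfl fun n hn => term_eq _ σ u (mem_Ioc.1 hn).1
  rw [e1]
  have b1 : ‖∑ n ∈ Ioc 0 ⌊M0⌋₊, b n * ((n : ℝ) ^ (-σ) : ℝ)‖ ≤ 1 + δ / 2 * Real.log X := by
    have a1 := harmonic_le_one_add_log ⌊M0⌋₊
    have a2 : Real.log ⌊M0⌋₊ ≤ δ / 2 * Real.log X := by
      rw [← Real.log_rpow (by linarith)]
      exact Real.log_le_log (by exact_mod_cast n1) (Nat.floor_le m0.le)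
    refine (norm_sum_le _ _).trans (le_trans ?_ (a1.trans (by linarith)))
    rw [harmonic_eq_sum_Icc, ← Finset.Icc_add_one_left_eq_Ioc]
    push_cast
    refine sum_le_sum fun n hn => ?_
    have a3 : 1 ≤ n := (mem_Icc.1 hn).1
    rw [hb]
    simp only [norm_mul, norm_div, norm_e, Complex.norm_natCast, Complex.norm_real, one_div]
    rw [Real.norm_of_nonneg (by positivity)]
    calc _ ≤ 1 * (n : ℝ)⁻¹ * 1 := by
          gcongr
          · exact χ.norm_le_one _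
          · exact w1 n a3
      _ = _ := by ring
  have b2 := abel (ω := fun n => (n : ℝ) ^ (-σ)) hS (fun n => by positivity)
    (fun n hn => Real.rpow_le_rpow_of_nonpos (by exact_mod_cast n1.trans hn)
      (by push_cast; linarith) (by linarith)) hN
  have b3 := w1 _ n1
  rw [div_le_iff₀ (half_pos hδ)] at x4
  refine (norm_add_le _ _).trans ?_
  nlinarith

end Pool.Agent.Lib.MP_028aa5_nt.T
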