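import Pool.Agent.Lib.MP_028aa5_nt.T.St2

/-! Propagation of a rational approximation along the edges. -/

namespace Pool.Agent.Lib.MP_028aa5_nt.T

open Finset
open scoped ComplexConjugate Classical

namespace Lev

/-- rational point of level `R` -/
noncomputable def rp (R q : ℕ) (z : ℕ → ℤ) : Ph := fun j => (R : ℝ) ^ j * z j / q

theorem cls_mono {k : ℕ} {κ y : ℝ} {R : ℕ} {Q Q' T T' : ℝ} {α : Ph} (h : Cls k κ y R Q T α)
    (h1 : Q ≤ Q') (h2 : T ≤ T') : Cls k κ y R Q' T' α := by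
  obtain ⟨q, z, a, b, c⟩ := h
  exact ⟨q, z, a, b.trans h1, c.trans h2⟩

/-- moving a phase along an edge costs a factor `9 ^ k` -/
theorem edge (hN : NSt) (hN2 : N2St) (hB : BasSt) {π : Par} {N : Net} {E : Finset N.Ed}
    (ok : π.Ok) (hI : N.Is π E) (h1 : 2 * π.κ1 ≤ 1) {e : N.Ed} (he : e ∈ E) (τ : Ph) :
    nm π.k π.κ (N.pos π (N.lo e)) (dil (N.pr e) τ) ≤ 9 ^ π.k * nm π.k π.κ (N.pos π (N.up e)) τ ∧
    nm π.k π.κ (N.pos π (N.up e)) τ ≤ 9 ^ π.k * nm π.k π.κ (N.pos π (N.lo e)) (dil (N.pr e) τ) := by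
  have k1 := hB.κ1_pos π ok
  have k2 := hB.κ1_le π ok
  have k0 : 0 < π.κ := k1.trans_le k2
  have p0 : (0 : ℝ) < N.pr e := Nat.cast_pos.2 (ok.pr _ (hI.pr e he)).1.pos
  have u0 := hB.pos_pos π N (N.up e)
  have l0 := hB.pos_pos π N (N.lo e)
  have h2 := hB.pos_edge π N E ok hI e he
  rw [Real.log_div u0.ne' p0.ne'] at h2
  have h3 : |Real.log (N.pos π (N.up e)) - Real.log (N.pr e * N.pos π (N.lo e))| ≤ 2 * π.κ1 := by
    rw [Real.log_mul p0.ne' l0.ne', ← sub_sub]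
    exact h2
  have h4 : (1 + 4 * (2 * π.κ1) / π.κ) ^ π.k ≤ 9 ^ π.k := by
    refine pow_le_pow_left₀ (by positivity) ?_ _
    have : 4 * (2 * π.κ1) / π.κ ≤ 8 := by
      rw [div_le_iff₀ k0]
      linarith
    linarith
  rw [hN.nm_dil]
  exact ⟨(hN2.shift _ _ _ _ _ τ k0 ok.κ u0 (by positivity) (by rwa [abs_sub_comm]) h1).trans
      (mul_le_mul_of_nonneg_right h4 (hN.nm_nonneg _ _ _ _ k0.le)),
    (hN2.shift _ _ _ _ _ τ k0 ok.κ (by positivity) u0 h3 h1).trans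
      (mul_le_mul_of_nonneg_right h4 (hN.nm_nonneg _ _ _ _ k0.le))⟩

theorem down (hN : NSt) (hN2 : N2St) (hB : BasSt) {π : Par} {N : Net} {E : Finset N.Ed}
    (ok : π.Ok) (hI : N.Is π E) (h1 : 2 * π.κ1 ≤ 1) {φ : N.W → Ph} {R : ℕ} {ρ Q T : ℝ}
    (hL : N.Lv π R ρ φ E) (hρ : ρ ≤ T) {e : N.Ed} (he : e ∈ E)
    (h : Cls π.k π.κ (N.pos π (N.up e)) R Q T (φ (N.up e))) :
    Cls π.k π.κ (N.pos π (N.lo e)) R Q (2 * 9 ^ π.k * T) (φ (N.lo e)) := by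
  obtain ⟨q, z, q1, q2, hz⟩ := h
  obtain ⟨w, hw⟩ := hL e he
  have k0 : 0 < π.κ := (hB.κ1_pos π ok).trans_le (hB.κ1_le π ok)
  have q0 : (q : ℝ) ≠ 0 := Nat.cast_ne_zero.2 (by omega)
  refine ⟨q, fun j => (N.pr e : ℤ) ^ j * z j + q * w j, q1, q2, ?_⟩
  have e1 : (φ (N.lo e) - fun j => (R : ℝ) ^ j * (((N.pr e : ℤ) ^ j * z j + q * w j : ℤ) : ℝ) / q) =
      (φ (N.lo e) - dil (N.pr e) (φ (N.up e)) - lat R w) +
        dil (N.pr e) (φ (N.up e) - fun j => (R : ℝ) ^ j * z j / q) := by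
    funext j
    simp only [Pi.sub_apply, Pi.add_apply, dil, lat]
    push_cast
    field_simp
    ring
  rw [e1]
  have h2 := (edge hN hN2 hB ok hI h1 he (φ (N.up e) - fun j => (R : ℝ) ^ j * z j / q)).1
  have h3 := hN.nm_add π.k π.κ (N.pos π (N.lo e)) (φ (N.lo e) - dil (N.pr e) (φ (N.up e)) - lat R w)
    (dil (N.pr e) (φ (N.up e) - fun j => (R : ℝ) ^ j * z j / q)) k0.le
  have h4 : (1 : ℝ) ≤ 9 ^ π.k := one_le_pow₀ (by norm_num)
  have h5 := (hN.nm_nonneg _ _ _ _ k0.le).trans hz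
  nlinarith [mul_le_mul_of_nonneg_left hz (zero_le_one.trans h4), mul_le_mul_of_nonneg_right h4 h5]

theorem up (hN : NSt) (hN2 : N2St) (hB : BasSt) {π : Par} {N : Net} {E : Finset N.Ed}
    (ok : π.Ok) (hI : N.Is π E) (h1 : 2 * π.κ1 ≤ 1) {φ : N.W → Ph} {R : ℕ} {ρ Q T : ℝ}
    (hL : N.Lv π R ρ φ E) (hρ : ρ ≤ T) {e : N.Ed} (he : e ∈ E)
    (h : Cls π.k π.κ (N.pos π (N.lo e)) R Q T (φ (N.lo e))) :
    Cls π.k π.κ (N.pos π (N.up e)) R (Q * (2 * π.P) ^ π.k) (2 * 9 ^ π.k * T) (φ (N.up e)) := by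
  obtain ⟨q, z, q1, q2, hz⟩ := h
  obtain ⟨w, hw⟩ := hL e he
  obtain ⟨pp, -, p2⟩ := ok.pr _ (hI.pr e he)
  have k0 : 0 < π.κ := (hB.κ1_pos π ok).trans_le (hB.κ1_le π ok)
  have q0 : (q : ℝ) ≠ 0 := Nat.cast_ne_zero.2 (by omega)
  have p0 : (0 : ℝ) < N.pr e := Nat.cast_pos.2 pp.pos
  refine ⟨q * N.pr e ^ π.k, fun j => (N.pr e : ℤ) ^ (π.k - j) * (z j - q * w j),
    Nat.mul_pos q1 (pow_pos pp.pos _), ?_, ?_⟩
  · push_cast
    exact mul_le_mul q2 (pow_le_pow_left₀ p0.le p2 _) (by positivity)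
      ((Nat.cast_nonneg q).trans q2)
  refine (edge hN hN2 hB ok hI h1 he _).2.trans ?_
  rw [hN.nm_congr _ _ _ _ ((φ (N.lo e) - fun j => (R : ℝ) ^ j * z j / q) -
    (φ (N.lo e) - dil (N.pr e) (φ (N.up e)) - lat R w))]
  · have h3 := hN.nm_sub π.k π.κ (N.pos π (N.lo e)) (φ (N.lo e) - fun j => (R : ℝ) ^ j * z j / q)
      (φ (N.lo e) - dil (N.pr e) (φ (N.up e)) - lat R w) k0.le
    have h4 : (0 : ℝ) ≤ 9 ^ π.k := by positivity
    calc _ ≤ 9 ^ π.k * (2 * T) := mul_le_mul_of_nonneg_left (by linarith) h4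
      _ = _ := by ring
  · intro j hj
    obtain ⟨i, hi⟩ := Nat.exists_eq_add_of_le (mem_Icc.1 hj).2
    have e1 : π.k - j = i := by omega
    simp only [Pi.sub_apply, dil, lat, e1]
    rw [hi]
    push_cast
    field_simp
    ring

/-- two rational approximations at the ends of an edge are exactly compatible -/
theorem compat (hN : NSt) (hN2 : N2St) (hB : BasSt) {π : Par} {N : Net} {E : Finset N.Ed}
    (ok : π.Ok) (hI : N.Is π E) (h1 : 2 * π.κ1 ≤ 1) {a b : Ph} {R q q' : ℕ} {ρ Q T Y : ℝ}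
    {z z' w : ℕ → ℤ} {e : N.Ed} (he : e ∈ E) (hR : 0 < R) (hρ : ρ ≤ 1) (q1 : 1 ≤ q)
    (q2 : q ≤ Q) (q1' : 1 ≤ q') (q2' : q' ≤ Q) (hY : Y ≤ N.pos π (N.lo e))
    (hw : nm π.k π.κ (N.pos π (N.lo e)) (b - dil (N.pr e) a - lat R w) ≤ ρ)
    (ha : nm π.k π.κ (N.pos π (N.up e)) (a - rp R q z) ≤ T)
    (hb : nm π.k π.κ (N.pos π (N.lo e)) (b - rp R q' z') ≤ T)
    (hQ : (2 * 9 ^ π.k * T + 1) * Q ^ 2 < π.κ * Y * R) :
    ∀ j ∈ Icc 1 π.k, rp R q' z' j = dil (N.pr e) (rp R q z) j + lat R w j := by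
  have k0 : 0 < π.κ := (hB.κ1_pos π ok).trans_le (hB.κ1_le π ok)
  have q0 : (0 : ℝ) < q := Nat.cast_pos.2 q1
  have q0' : (0 : ℝ) < q' := Nat.cast_pos.2 q1'
  have R0 : (0 : ℝ) < R := Nat.cast_pos.2 hR
  have l0 := hB.pos_pos π N (N.lo e)
  have T0 := (hN.nm_nonneg _ _ _ _ k0.le).trans ha
  have h9 : (1 : ℝ) ≤ 9 ^ π.k := one_le_pow₀ (by norm_num)
  set n : ℕ → ℤ := fun j => ((q : ℤ) * q') ^ (j - 1) *
    (q * z' j - q' * ((N.pr e : ℤ) ^ j * z j) - q * q' * w j) with hn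
  have e1 : ∀ j ∈ Icc 1 π.k, lat (R / (q * q')) n j =
      rp R q' z' j - (dil (N.pr e) (rp R q z) j + lat R w j) := by
    intro j hj
    obtain ⟨i, rfl⟩ := Nat.exists_eq_add_of_le' (mem_Icc.1 hj).1
    simp only [hn, lat, rp, dil, Nat.add_sub_cancel]
    push_cast
    rw [div_pow, pow_succ ((q : ℝ) * q')]
    field_simp
    ring
  have e2 : nm π.k π.κ (N.pos π (N.lo e)) (lat (R / (q * q')) n) ≤ 2 * 9 ^ π.k * T + 1 := by
    rw [hN.nm_congr _ _ _ _ (((b - dil (N.pr e) a - lat R w) + dil (N.pr e) (a - rp R q z)) -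
      (b - rp R q' z'))]
    · have a1 := hN.nm_sub π.k π.κ (N.pos π (N.lo e))
        ((b - dil (N.pr e) a - lat R w) + dil (N.pr e) (a - rp R q z)) (b - rp R q' z') k0.le
      have a2 := hN.nm_add π.k π.κ (N.pos π (N.lo e)) (b - dil (N.pr e) a - lat R w)
        (dil (N.pr e) (a - rp R q z)) k0.le
      have a3 := (edge hN hN2 hB ok hI h1 he (a - rp R q z)).1
      nlinarith [mul_le_mul_of_nonneg_left ha (zero_le_one.trans h9),
        mul_le_mul_of_nonneg_right h9 T0]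
    · intro j hj
      rw [e1 j hj]
      simp only [Pi.sub_apply, Pi.add_apply, dil]
      ring
  have e3 : 2 * 9 ^ π.k * T + 1 < π.κ * N.pos π (N.lo e) * (R / (q * q')) := by
    rw [← mul_div_assoc, lt_div_iff₀ (by positivity)]
    calc _ ≤ (2 * 9 ^ π.k * T + 1) * Q ^ 2 := by
          rw [sq]
          exact mul_le_mul_of_nonneg_left (mul_le_mul q2 q2' q0'.le (q0.le.trans q2))
            (by positivity)
      _ < π.κ * Y * R := hQ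
      _ ≤ _ := by gcongr
  have e4 := hN2.rigid π.k π.κ _ (R / (q * q')) n k0 l0 (by positivity)
    (le_trans (le_add_of_nonneg_left (by positivity)) e3.le) (e2.trans_lt e3)
  intro j hj
  have := e1 j hj
  rw [lat, e4 j hj, Int.cast_zero, mul_zero] at this
  linarith

end Lev

theorem st_Lev (hN : NSt) (hN2 : N2St) (hB : BasSt) (hS : SeedSt) (hC : CutSt) : LevSt := by
  intro π N E φ ρ nW ε Y Y' Na e0 Q Tm R n tm Wd ok hI ρ0 ρ1 hR hL hRay tm1 hε hW n1 hκ Y1 hpos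
    hNa hNa2 hWd he0 hQ hTm hrig
  have k1 := hB.κ1_pos π ok
  have k0 : 0 < π.κ := k1.trans_le (hB.κ1_le π ok)
  have P2 := ok.P
  have n1' : (1 : ℝ) ≤ n := Nat.one_le_cast.2 n1
  have kk : (1 : ℝ) ≤ π.k := Nat.one_le_cast.2 ok.k1
  have h1 : 2 * π.κ1 ≤ 1 := by nlinarith
  have Y1' : 1 ≤ Y' := by
    obtain ⟨u, u0, -⟩ := hRay
    obtain ⟨x, -⟩ := nonempty_of_sum_ne_zero u0.ne'
    exact Y1.trans ((hpos x).1.trans (hpos x).2)
  have W1 : (1 : ℝ) ≤ Wd := by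
    have : 0 < Na := by linarith
    exact le_trans (le_add_of_nonneg_left (by positivity)) hWd
  have P1 : 1 ≤ 2 * π.P := by linarith
  have e1 : 1 ≤ e0 := by
    refine le_trans ?_ he0
    refine one_le_mul_of_one_le_of_one_le (one_le_mul_of_one_le_of_one_le (one_le_pow₀ ?_)
      (one_le_mul_of_one_le_of_one_le (by linarith) (one_le_pow₀ (by linarith)))) (one_le_pow₀ P1)
    rw [le_div_iff₀ k0]
    linarith [ok.κ]
  set T0 := 2 ^ π.k * π.k * Y' ^ π.k * (2 * (Wd : ℝ) ^ π.k) ^ π.k * e0 with hT0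
  have T1 : 1 ≤ T0 :=
    one_le_mul_of_one_le_of_one_le (one_le_mul_of_one_le_of_one_le (one_le_mul_of_one_le_of_one_le
      (one_le_mul_of_one_le_of_one_le (one_le_pow₀ (by norm_num)) kk) (one_le_pow₀ Y1'))
      (one_le_pow₀ (one_le_mul_of_one_le_of_one_le (by norm_num) (one_le_pow₀ W1)))) e1
  have c1 : (1 : ℝ) ≤ 2 * 9 ^ π.k :=
    one_le_mul_of_one_le_of_one_le (by norm_num) (one_le_pow₀ (by norm_num))
  have hT : ∀ t : ℕ, ρ ≤ (2 * 9 ^ π.k) ^ t * T0 := fun t =>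
    ρ1.trans (one_le_mul_of_one_le_of_one_le (one_le_pow₀ c1) T1)
  have mQ : ∀ s t : ℕ, s ≤ t → (Wd : ℝ) ^ (π.k ^ 3) * (2 * π.P) ^ (π.k * s) ≤
      (Wd : ℝ) ^ (π.k ^ 3) * (2 * π.P) ^ (π.k * t) := fun s t h =>
    mul_le_mul_of_nonneg_left (pow_le_pow_right₀ P1 (Nat.mul_le_mul_left _ h)) (by positivity)
  have mT : ∀ s t : ℕ, s ≤ t → (2 * 9 ^ π.k) ^ s * T0 ≤ (2 * 9 ^ π.k) ^ t * T0 := fun s t h =>
    mul_le_mul_of_nonneg_right (pow_le_pow_right₀ c1 h) (by linarith)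
  obtain ⟨t, ht, hray⟩ := hC π N E (fun t x => Cls π.k π.κ (N.pos π x) R
      ((Wd : ℝ) ^ (π.k ^ 3) * (2 * π.P) ^ (π.k * t)) ((2 * 9 ^ π.k) ^ t * T0) (φ x)) ε tm ok hI hRay
    tm1 hε (fun t x h => Lev.cls_mono h (mQ _ _ t.le_succ) (mT _ _ t.le_succ))
    (fun t e he h => Lev.cls_mono (Lev.down hN hN2 hB ok hI h1 hL (hT t) he h) (mQ _ _ t.le_succ)
      (le_of_eq (by ring)))
    (fun t e he h => Lev.cls_mono (Lev.up hN hN2 hB ok hI h1 hL (hT t) he h) (le_of_eq (by ring))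
      (le_of_eq (by ring)))
    (fun E' hE hr => by
      obtain ⟨e, he, x, hx, h⟩ := hS π N E' φ ρ nW Y' Na e0 R n Wd ok (hB.mono π N E E' hI hE) ρ0 ρ1
        hR (fun e he => hL e (hE he)) hr hW n1 hκ (fun x => (hpos x).2) hNa hNa2 hWd he0
      refine ⟨e, he, ?_⟩
      simp only [mul_zero, pow_zero, mul_one, one_mul]
      rcases hx with rfl | rfl
      exacts [Or.inl h, Or.inr h])
  have hch : ∀ x, ∃ (q : ℕ) (z : ℕ → ℤ), Cls π.k π.κ (N.pos π x) R Q Tm (φ x) →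
      1 ≤ q ∧ q ≤ Q ∧ nm π.k π.κ (N.pos π x) (φ x - Lev.rp R q z) ≤ Tm := by
    intro x
    by_cases h : Cls π.k π.κ (N.pos π x) R Q Tm (φ x)
    · obtain ⟨q, z, h'⟩ := h
      exact ⟨q, z, fun _ => h'⟩
    · exact ⟨1, 0, fun h' => absurd h' h⟩
  choose q z hqz using hch
  set E' := {e ∈ E | Cls π.k π.κ (N.pos π (N.up e)) R
      ((Wd : ℝ) ^ (π.k ^ 3) * (2 * π.P) ^ (π.k * t)) ((2 * 9 ^ π.k) ^ t * T0) (φ (N.up e)) ∧
    Cls π.k π.κ (N.pos π (N.lo e)) R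
      ((Wd : ℝ) ^ (π.k ^ 3) * (2 * π.P) ^ (π.k * t)) ((2 * 9 ^ π.k) ^ t * T0) (φ (N.lo e))} with hE'
  have hsub : E' ⊆ E := filter_subset _ _
  have hend : ∀ e ∈ E', ∀ x, x = N.up e ∨ x = N.lo e →
      1 ≤ q x ∧ q x ≤ Q ∧ nm π.k π.κ (N.pos π x) (φ x - Lev.rp R (q x) (z x)) ≤ Tm := by
    intro e he x hx
    obtain ⟨-, a, b⟩ := mem_filter.1 he
    refine hqz x (Lev.cls_mono ?_ ((mQ _ _ ht.le).trans hQ) ((mT _ _ ht.le).trans hTm))
    rcases hx with rfl | rfl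
    exacts [a, b]
  have hex : ∀ e ∈ E', ∃ w : ℕ → ℤ, nm π.k π.κ (N.pos π (N.lo e))
      (φ (N.lo e) - dil (N.pr e) (φ (N.up e)) - lat R w) ≤ ρ ∧ ∀ j ∈ Icc 1 π.k,
      Lev.rp R (q (N.lo e)) (z (N.lo e)) j =
        dil (N.pr e) (Lev.rp R (q (N.up e)) (z (N.up e))) j + lat R w j := by
    intro e he
    obtain ⟨w, hw⟩ := hL e (hsub he)
    obtain ⟨a1, a2, a3⟩ := hend e he _ (Or.inl rfl)
    obtain ⟨b1, b2, b3⟩ := hend e he _ (Or.inr rfl)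
    exact ⟨w, hw, Lev.compat hN hN2 hB ok hI h1 (hsub he) hR ρ1 a1 a2 b1 b2 (hpos _).1 hw a3 b3 hrig⟩
  refine ⟨E', fun x => Lev.rp R (q x) (z x), fun x => φ x - Lev.rp R (q x) (z x), hsub,
    fun x => (add_sub_cancel _ _).symm, ⟨fun e he x hx => ?_, fun e he x hx => (hend e he x hx).2.2,
      fun e he j hj => ?_, fun e he => ?_⟩, hray⟩
  · obtain ⟨a1, a2, -⟩ := hend e he x hx
    refine ⟨q x, a1, a2, fun j _ => ⟨(R : ℤ) ^ j * z x j, ?_⟩⟩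
    have : (q x : ℝ) ≠ 0 := Nat.cast_ne_zero.2 (by omega)
    simp only [Lev.rp, Pi.zero_apply]
    push_cast
    field_simp
    ring
  · obtain ⟨w, -, h⟩ := hex e he
    refine ⟨(R : ℤ) ^ j * w j, ?_⟩
    rw [h j hj, lat]
    push_cast
    rfl
  · obtain ⟨w, hw, h⟩ := hex e he
    refine le_trans (le_of_eq (hN.nm_congr _ _ _ _ _ fun j hj => ?_)) hw
    have := h j hj
    simp only [Pi.sub_apply, dil] at this ⊢
    rw [this]
    ring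

end Pool.Agent.Lib.MP_028aa5_nt.T
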