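import Pool.Agent.Lib.MP_028aa5_nt.T.St5

/-! The decomposition of the phases in the asymptotic regime. -/

namespace Pool.Agent.Lib.MP_028aa5_nt.T

open Finset
open scoped ComplexConjugate Classical

namespace LevX

theorem dec_mono {π : Par} {Q Q' Tm ρ : ℝ} {N : Net} {E : Finset N.Ed} {γ τ : N.W → Ph}
    (h : Dec π Q Tm ρ N E γ τ) (hQ : Q ≤ Q') : Dec π Q' Tm ρ N E γ τ where
  den e he x hx := by
    obtain ⟨q, h1, h2, h3⟩ := h.den e he x hx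
    exact ⟨q, h1, h2.trans hQ, h3⟩
  sz := h.sz
  rat := h.rat
  re := h.re

theorem card_pos {N : Net} {ν lam : ℝ} {E : Finset N.Ed} (h : N.Ray ν E lam) :
    1 ≤ Fintype.card N.W := by
  obtain ⟨u, hu, -⟩ := h
  obtain ⟨x, -, -⟩ := exists_ne_zero_of_sum_ne_zero hu.ne'
  exact Fintype.card_pos_iff.2 ⟨x⟩

/-- the number of steps -/
theorem steps {l p : ℝ} (h4 : 4 ≤ p) (hp : p ≤ l) :
    ∃ n : ℕ, 1 ≤ n ∧ 3 * l ≤ n * p ∧ n * p ≤ 3 * l + p ∧ (n : ℝ) ≤ l := by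
  have p0 : 0 < p := by linarith
  have h0 : 0 < 3 * l / p := div_pos (by linarith) p0
  have c1 : 3 * l / p ≤ ⌈3 * l / p⌉₊ := Nat.le_ceil _
  have c2 : (⌈3 * l / p⌉₊ : ℝ) < 3 * l / p + 1 := Nat.ceil_lt_add_one h0.le
  refine ⟨⌈3 * l / p⌉₊, Nat.ceil_pos.2 h0, (div_le_iff₀ p0).1 c1, ?_, ?_⟩
  · rw [← sub_lt_iff_lt_add, lt_div_iff₀ p0] at c2
    linarith
  · rw [← sub_lt_iff_lt_add, lt_div_iff₀ p0] at c2
    have c3 : (0 : ℝ) ≤ ⌈3 * l / p⌉₊ := Nat.cast_nonneg _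
    nlinarith

theorem fac_le {K E : ℝ} {n : ℕ} (hK : 4 ≤ K) (h : (K * (n + 1) ^ 2) ^ n ≤ E) :
    (4 : ℝ) ^ n * (n.factorial : ℝ) ^ 2 ≤ E := by
  refine le_trans ?_ h
  have h1 : (n.factorial : ℝ) ≤ ((n : ℝ) + 1) ^ n := by
    have h2 : n.factorial ≤ (n + 1) ^ n :=
      (Nat.factorial_le_pow n).trans (Nat.pow_le_pow_left (Nat.le_succ n) n)
    exact_mod_cast h2
  rw [mul_pow, ← pow_mul, mul_comm 2 n, pow_mul]
  exact mul_le_mul (pow_le_pow_left₀ (by norm_num) hK n)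
    (pow_le_pow_left₀ (Nat.cast_nonneg _) h1 2) (by positivity) (by positivity)

theorem lin_le {K E : ℝ} {n : ℕ} (hn : 1 ≤ n) (hK : 1 ≤ K) (h : (K * (n + 1) ^ 2) ^ n ≤ E) :
    K * (n + 1) ≤ E := by
  have h0 : (0 : ℝ) ≤ n := Nat.cast_nonneg n
  have h1 : K * (n + 1) ≤ K * ((n : ℝ) + 1) ^ 2 :=
    mul_le_mul_of_nonneg_left (by nlinarith) (by linarith)
  have h2 : (1 : ℝ) ≤ K * (n + 1) := by nlinarith
  exact h1.trans ((le_self_pow₀ (h2.trans h1) (by omega)).trans h)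

theorem two_le {E : ℝ} {n : ℕ} (h : (4 : ℝ) ^ n * (n.factorial : ℝ) ^ 2 ≤ E) :
    (2 : ℝ) ^ n ≤ E := by
  have h1 : (1 : ℝ) ≤ n.factorial := by exact_mod_cast n.factorial_pos
  have h2 : (2 : ℝ) ^ n ≤ 4 ^ n := pow_le_pow_left₀ (by norm_num) (by norm_num) n
  exact h2.trans ((le_mul_of_one_le_right (by positivity) (one_le_pow₀ h1)).trans h)

theorem rat_le {K E P pp : ℝ} {n : ℕ} (hK : 2 ≤ K) (hP : 0 ≤ P) (hp : 0 ≤ pp)
    (h : (K * (n + 1) * P / pp) ^ n ≤ E) : (2 * P) ^ n / pp ^ n ≤ E := by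
  refine le_trans ?_ h
  rw [← div_pow]
  have h0 : (0 : ℝ) ≤ n := Nat.cast_nonneg n
  refine pow_le_pow_left₀ (by positivity) (div_le_div_of_nonneg_right
    (mul_le_mul_of_nonneg_right (by nlinarith) hP) hp) n

/-- many loops -/
theorem many {k E X nW F pn : ℝ} (hE : 2 ≤ E) (hX : 0 < X) (h1 : 2 * k ≤ E)
    (hF0 : 0 < F) (hF : F ≤ E) (hW0 : 0 < nW) (hW : nW ≤ 2 * X) (h3 : E ^ 3 ≤ X)
    (hp : X ^ 2 < pn) : 2 * k < pn / (nW * F) := by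
  rw [lt_div_iff₀ (by positivity)]
  have a1 : nW * F ≤ E * X * E := mul_le_mul (by nlinarith) hF hF0.le (by positivity)
  have a2 : 2 * k * (nW * F) ≤ E * (E * X * E) := mul_le_mul h1 a1 (by positivity) (by linarith)
  have a3 : E ^ 3 * X ≤ X * X := mul_le_mul_of_nonneg_right h3 hX.le
  nlinarith

/-- the width -/
theorem width {k E κ1 nW F pn A B : ℝ} (hE : 0 ≤ E) (hF0 : 0 < F) (hF : F ≤ E) (hW0 : 0 < nW)
    (hp : 0 < pn) (hA0 : 0 ≤ A) (hA : A / pn ≤ E) (h1 : 2 * k * B * (κ1 * nW) ≤ E) :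
    2 * k * (A * B * κ1) / (pn / (nW * F)) ≤ E ^ 3 := by
  have e1 : 2 * k * (A * B * κ1) / (pn / (nW * F)) = 2 * k * B * (κ1 * nW) * (A / pn * F) := by
    field_simp
  have a1 : A / pn * F ≤ E * E := mul_le_mul hA hF hF0.le hE
  rw [e1]
  calc _ ≤ E * (A / pn * F) := mul_le_mul_of_nonneg_right h1 (by positivity)
    _ ≤ E * (E * E) := mul_le_mul_of_nonneg_left a1 hE
    _ = E ^ 3 := by ring

theorem wd {E : ℝ} (hE : 2 ≤ E) : ∃ Wd : ℕ, E ^ 3 + 1 ≤ Wd ∧ (Wd : ℝ) ≤ E ^ 4 := by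
  refine ⟨⌈E ^ 3 + 1⌉₊, Nat.le_ceil _, (Nat.ceil_lt_add_one (by positivity)).le.trans ?_⟩
  have h : (2 : ℝ) ^ 3 ≤ E ^ 3 := pow_le_pow_left₀ (by norm_num) hE 3
  nlinarith

theorem e0_le {E X κ P : ℝ} {k n : ℕ} (hE : 2 ≤ E) (hX : 0 < X) (hκ : 1 / X ≤ κ) (hP : 0 ≤ P)
    (h1 : 33 * ((n : ℝ) + 1) ≤ E) (h2 : (2 * P) ^ n ≤ X ^ 3 * E ^ 2) :
    (2 / κ) ^ k * (2 * n * (16 * n + 17) ^ k) * (2 * P) ^ (n * k) ≤
      X ^ (4 * k) * E ^ (4 * k + 1) := by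
  have n0 : (0 : ℝ) ≤ n := Nat.cast_nonneg n
  have κ0 : 0 < κ := lt_of_lt_of_le (by positivity) hκ
  have a1 : 2 / κ ≤ E * X := by
    rw [div_le_iff₀ hX] at hκ
    rw [div_le_iff₀ κ0]
    nlinarith
  have a2 := pow_le_pow_left₀ (by positivity) a1 k
  have a3 : (16 * (n : ℝ) + 17) ^ k ≤ E ^ k := pow_le_pow_left₀ (by positivity) (by linarith) k
  have a4 : 2 * (n : ℝ) * (16 * n + 17) ^ k ≤ E * E ^ k :=
    mul_le_mul (by linarith) a3 (by positivity) (by linarith)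
  have a5 := pow_le_pow_left₀ (by positivity) h2 k
  rw [← pow_mul] at a5
  refine (mul_le_mul (mul_le_mul a2 a4 (by positivity) (by positivity)) a5 (by positivity)
    (by positivity)).trans (le_of_eq ?_)
  simp only [mul_pow, ← pow_mul]
  ring

theorem Q_le {E P W : ℝ} {k tm : ℕ} (hE : 2 ≤ E) (hP0 : 0 ≤ P) (hP : P ≤ E) (hW0 : 0 ≤ W)
    (hW : W ≤ E ^ 4) : W ^ (k ^ 3) * (2 * P) ^ (k * tm) ≤ E ^ (4 * k ^ 3 + 2 * (k * tm)) := by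
  have a1 : 2 * P ≤ E ^ 2 := by nlinarith
  rw [pow_add, pow_mul E 4, pow_mul E 2]
  exact mul_le_mul (pow_le_pow_left₀ hW0 hW _) (pow_le_pow_left₀ (by positivity) a1 _)
    (by positivity) (by positivity)

theorem T_le {E X W e0 : ℝ} {k tm : ℕ} (hk : 1 ≤ k) (hE : 4 ≤ E) (hX : 1 ≤ X) (hW0 : 0 ≤ W)
    (hW : W ≤ E ^ 4) (h0 : 0 ≤ e0) (he : e0 ≤ X ^ (4 * k) * E ^ (4 * k + 1))
    (hc : (2 * 9 ^ k) ^ tm * (2 ^ k * k) ≤ E) (hd : E ^ (4 * k ^ 2 + 6 * k + 2) ≤ X) :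
    (2 * 9 ^ k) ^ tm * (2 ^ k * k * (4 * X) ^ k * (2 * W ^ k) ^ k * e0) ≤ X ^ (7 * k) := by
  have a1 : (4 * X) ^ k ≤ (E * X) ^ k :=
    pow_le_pow_left₀ (by positivity) (mul_le_mul_of_nonneg_right hE (by linarith)) k
  have a2 : (2 * W ^ k) ^ k ≤ (E * (E ^ 4) ^ k) ^ k :=
    pow_le_pow_left₀ (by positivity)
      (mul_le_mul (by linarith) (pow_le_pow_left₀ hW0 hW k) (by positivity) (by linarith)) k
  have E0 : 0 ≤ E := by linarith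
  have a3 := mul_le_mul hc (mul_le_mul (mul_le_mul a1 a2 (by positivity) (by positivity)) he h0
    (by positivity)) (by positivity) E0
  have e1 : E * ((E * X) ^ k * (E * (E ^ 4) ^ k) ^ k * (X ^ (4 * k) * E ^ (4 * k + 1))) =
      X ^ (5 * k) * E ^ (4 * k ^ 2 + 6 * k + 2) := by
    simp only [mul_pow, ← pow_mul]
    ring
  rw [e1] at a3
  have a4 : X ^ (5 * k) * X ≤ X ^ (7 * k) := by
    rw [← pow_succ]
    exact pow_le_pow_right₀ hX (by omega)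
  refine le_trans (le_of_eq (by ring)) (a3.trans
    ((mul_le_mul_of_nonneg_left hd (by positivity)).trans a4))

theorem last {X Q a R c : ℝ} {m : ℕ} (hX : 1 < X) (hQ0 : 0 ≤ Q) (hQ : Q ≤ X ^ (1 / 4 : ℝ))
    (hc0 : 0 ≤ c) (hc : c + 1 ≤ X) (ha : 1 ≤ a) (hR : X ^ (m + 2) ≤ R) :
    (c * X ^ m + 1) * Q ^ 2 < a * R := by
  have X0 : 0 < X := by linarith
  have a1 : Q ^ 2 < X := by
    refine lt_of_le_of_lt (pow_le_pow_left₀ hQ0 hQ 2) ?_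
    rw [← Real.rpow_natCast, ← Real.rpow_mul X0.le]
    exact Real.rpow_lt_self_of_one_lt hX (by norm_num)
  have a2 : 1 ≤ X ^ m := one_le_pow₀ hX.le
  have a3 : c * X ^ m + 1 ≤ X * X ^ m := by nlinarith
  have a4 : (c * X ^ m + 1) * Q ^ 2 < (c * X ^ m + 1) * X :=
    mul_lt_mul_of_pos_left a1 (by positivity)
  have a5 : (c * X ^ m + 1) * X ≤ X ^ (m + 2) :=
    (mul_le_mul_of_nonneg_right a3 X0.le).trans (le_of_eq (by ring))
  have a6 : R ≤ a * R := le_mul_of_one_le_left (le_trans (by positivity) hR) ha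
  linarith

theorem pow_pp {X P pp : ℝ} {n : ℕ} (hX : 1 < X) (hP : 0 < P) (h : P ^ (9 / 10 : ℝ) ≤ pp)
    (hn : 3 * Real.log X ≤ n * Real.log P) : X ^ 2 < pp ^ n := by
  have l0 := Real.log_pos hX
  refine lt_of_lt_of_le ?_ (pow_le_pow_left₀ (by positivity) h n)
  rw [Real.rpow_def_of_pos hP, ← Real.exp_nat_mul]
  nth_rewrite 1 [← Real.exp_log (show 0 < X by linarith)]
  rw [← Real.exp_nat_mul, Real.exp_lt_exp]
  push_cast
  linarith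

theorem pow_P {X P E : ℝ} {n : ℕ} (hX : 0 < X) (hP : 0 < P) (hE : P ≤ E) (h2 : (2 : ℝ) ^ n ≤ E)
    (hn : n * Real.log P ≤ 3 * Real.log X + Real.log P) : (2 * P) ^ n ≤ X ^ 3 * E ^ 2 := by
  have a1 : P ^ n ≤ X ^ 3 * P := by
    rw [← Real.log_le_log_iff (by positivity) (by positivity), Real.log_mul (by positivity) hP.ne',
      Real.log_pow, Real.log_pow]
    push_cast
    linarith
  have a2 : P ^ n ≤ X ^ 3 * E := a1.trans (mul_le_mul_of_nonneg_left hE (by positivity))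
  rw [mul_pow]
  exact (mul_le_mul h2 a2 (by positivity) (by linarith)).trans (le_of_eq (by ring))

theorem P_le {l P K : ℝ} (hP : 0 < P) (hK : 1 ≤ K) (hl : 1 ≤ l) (h0 : 0 ≤ Real.log P)
    (h : K * Real.log P ≤ l ^ (1 / 2 : ℝ)) :
    P ≤ Real.exp (l ^ (3 / 4 : ℝ)) ∧ Real.log P ≤ l := by
  have a1 : Real.log P ≤ l ^ (1 / 2 : ℝ) := (le_mul_of_one_le_left h0 hK).trans h
  refine ⟨?_, a1.trans (Real.rpow_le_self_of_one_le hl (by norm_num))⟩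
  rw [← Real.log_le_iff_le_exp hP]
  exact a1.trans (Real.rpow_le_rpow_of_exponent_le hl (by norm_num))

theorem aux1 {k M E : ℝ} (hk : 1 ≤ k) (hM : 1 ≤ M) (h : 128 * k * M ≤ E) : 2 * k ≤ E := by
  nlinarith

theorem aux2 {K l p y : ℝ} (hK : 33 ≤ K) (hl : K ≤ l) (hp : p ≤ l) (h : y ≤ 3 * l + p) :
    y ≤ K * l := by
  nlinarith

theorem aux3 {K l n κ1 κ : ℝ} (hK : 33 ≤ K) (h1 : 1 ≤ n) (h2 : n ≤ l) (h3 : 0 < κ1) (h4 : κ1 ≤ κ)
    (h : K * l * κ ≤ 1) : 2 * (2 * n + 2) * κ1 ≤ 1 := by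
  have a1 : 2 * (2 * n + 2) ≤ K * l := by nlinarith
  exact (mul_le_mul a1 h4 h3.le (by linarith)).trans h

theorem aux4 {k M n κ1 Nc K : ℝ} (hk : 1 ≤ k) (hM : 1 ≤ M) (hn : 1 ≤ n) (h1 : 0 < κ1) (h2 : 0 ≤ Nc)
    (h3 : Nc * κ1 ≤ 2) (hK : 128 * k * M ≤ K) :
    2 * k * (16 * n + 8) * (κ1 * (2 * M * Nc)) ≤ K * (n + 1) := by
  have a1 : κ1 * (2 * M * Nc) ≤ 4 * M := by nlinarith
  have a2 : 2 * k * (16 * n + 8) * (κ1 * (2 * M * Nc)) ≤ 2 * k * (16 * (n + 1)) * (4 * M) :=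
    mul_le_mul (mul_le_mul_of_nonneg_left (by linarith) (by linarith)) a1 (by positivity)
      (by positivity)
  have a3 := mul_le_mul_of_nonneg_right hK (show (0 : ℝ) ≤ n + 1 by linarith)
  linarith

end LevX

open LevX in
theorem st_LevX (hL : LevSt) (hR : RegSt) (hB : BasSt) : LevXSt := by
  intro k M tm C D c hk hM htm hD hc
  obtain ⟨K, K1, K2, K3, K4⟩ : ∃ K : ℝ, 33 ≤ K ∧ 128 * (k : ℝ) * M ≤ K ∧
      (2 * 9 ^ k) ^ tm * (2 ^ k * (k : ℝ)) ≤ K ∧ 2 * 9 ^ k + 1 ≤ K := by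
    have a1 : (0 : ℝ) ≤ 128 * (k : ℝ) * M := by positivity
    have a2 : (0 : ℝ) ≤ (2 * 9 ^ k) ^ tm * (2 ^ k * (k : ℝ)) := by positivity
    have a3 : (0 : ℝ) ≤ 2 * 9 ^ k + 1 := by positivity
    exact ⟨33 + 128 * (k : ℝ) * M + (2 * 9 ^ k) ^ tm * (2 ^ k * (k : ℝ)) + (2 * 9 ^ k + 1),
      by linarith, by linarith, by linarith, by linarith⟩
  obtain ⟨c', c0, c1, c2⟩ : ∃ c' : ℝ, 0 < c' ∧ c' ≤ c ∧ c' ≤ 1 / 4 :=
    ⟨min c (1 / 4), lt_min hc (by norm_num), min_le_left _ _, min_le_right _ _⟩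
  obtain ⟨d, d1, d2, d3⟩ : ∃ d : ℕ, 3 ≤ d ∧ 4 * k ^ 3 + 2 * (k * tm) ≤ d ∧
      4 * k ^ 2 + 6 * k + 2 ≤ d :=
    ⟨3 + (4 * k ^ 3 + 2 * (k * tm)) + (4 * k ^ 2 + 6 * k + 2), by omega, by omega, by omega⟩
  obtain ⟨X1, h1⟩ := hR.base k C D K hk hD
  obtain ⟨X2, h2⟩ := hR.small d c' c0
  obtain ⟨X3, h3⟩ := hR.fact k C D K hk hD (by linarith)
  refine ⟨max X1 (max X2 X3), fun X hX π N E φ ρ Y ε R Nc pk pM hReg hI r0 r1 hLv hRay hε hRX hW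
    hNc hNM Y1 Y2 hpos => ?_⟩
  obtain ⟨b1, b2, b3, b4, -, b6, b7, -, b9⟩ := h1 X (le_trans (le_max_left _ _) hX) π pk hReg
  have s1 := h2 X (le_trans (le_trans (le_max_left _ _) (le_max_right _ _)) hX)
  have f0 := h3 X (le_trans (le_trans (le_max_right _ _) (le_max_right _ _)) hX) π pk hReg
  clear h1 h2 h3 hX
  subst pk pM
  have X1' : 1 < X := by linarith
  have X0 : 0 < X := by linarith
  have P0 : 0 < π.P := by linarith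
  obtain ⟨p1, p2⟩ := P_le P0 (show 1 ≤ K by linarith) (show 1 ≤ Real.log X by linarith)
    (by linarith) b6
  obtain ⟨n, n1, n2, n3, n4⟩ := steps (show 4 ≤ Real.log π.P by linarith) p2
  obtain ⟨f1, f2⟩ := f0 n (aux2 K1 b2 p2 n3)
  rw [Real.exp_nat_mul] at s1
  generalize Real.exp (Real.log X ^ (3 / 4 : ℝ)) = Ee at s1 f1 f2 p1
  have E1 : K ≤ Ee := b4.trans p1
  have E2 : 2 ≤ Ee := by linarith
  have q1 : X ^ c' ≤ X ^ (1 / 4 : ℝ) := Real.rpow_le_rpow_of_exponent_le X1'.le c2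
  have q2 : ∀ j ≤ d, Ee ^ j ≤ X ^ c' := fun j hj => (pow_le_pow_right₀ (by linarith) hj).trans s1
  have q3 : X ^ c' ≤ X := Real.rpow_le_self_of_one_le X1'.le (by linarith)
  have g2 := fac_le (show 4 ≤ K by linarith) f2
  have g3 := lin_le n1 (show 1 ≤ K by linarith) f2
  have g1 := rat_le (show 2 ≤ K by linarith) P0.le (Nat.cast_nonneg _) f1
  have g5 := pow_pp X1' P0 b7 n2
  have g6 := pow_P X0 P0 p1 (two_le g2) n3
  have k1 : (1 : ℝ) ≤ π.k := by exact_mod_cast hk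
  have M1 : (1 : ℝ) ≤ π.M := by exact_mod_cast hM
  have n0 : (1 : ℝ) ≤ n := by exact_mod_cast n1
  have κ1 := hB.κ1_pos π hReg.ok
  have κ2 := hB.κ1_le π hReg.ok
  have w1 : ((Fintype.card N.W : ℕ) : ℝ) ≤ 2 * π.M * Nc := by exact_mod_cast hW
  have w0 : (0 : ℝ) < 2 * π.M * Nc := lt_of_lt_of_le (by exact_mod_cast card_pos hRay) w1
  have F0 : (0 : ℝ) < 4 ^ n * (n.factorial : ℝ) ^ 2 := by positivity
  obtain ⟨Wd, W1, W2⟩ := wd E2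
  have R0 : 0 < R := by
    have h : (0 : ℝ) < R := lt_of_lt_of_le (by positivity) hRX
    exact_mod_cast h
  have t1 : 2 * (2 * (n : ℝ) + 2) * π.κ1 ≤ 1 := aux3 K1 n0 n4 κ1 κ2 b9
  have t2 : 2 * (π.k : ℝ) < (#π.PP : ℝ) ^ n / (2 * π.M * Nc * (4 ^ n * (n.factorial : ℝ) ^ 2)) :=
    many E2 X0 (aux1 k1 M1 (K2.trans E1)) F0 g2 w0 (by linarith) ((q2 3 d1).trans q3) g5
  have t3 : 2 * π.k * ((2 * π.P) ^ n * (16 * n + 8) * π.κ1) /
      ((#π.PP : ℝ) ^ n / (2 * π.M * Nc * (4 ^ n * (n.factorial : ℝ) ^ 2))) ≤ Ee ^ 3 := by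
    exact width (by linarith) F0 g2 w0 (lt_trans (by positivity) g5) (by positivity) g1
      ((aux4 k1 M1 n0 κ1 (Nat.cast_nonneg _) hNc K2).trans g3)
  have t4 := e0_le (k := π.k) E2 X0 hReg.κlo P0.le
    ((mul_le_mul_of_nonneg_right K1 (by linarith)).trans g3) g6
  have κ0 : 0 < π.κ := κ1.trans_le κ2
  obtain ⟨E', γ, τ, r2, r3, r4, r5⟩ := hL π N E φ ρ (2 * π.M * Nc) ε Y (4 * X) _ _ (X ^ c')
    (X ^ (7 * π.k)) R n tm Wd hReg.ok hI r0 r1 R0 hLv hRay htm hε w1 n1 t1 Y1 hpos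
    (le_of_eq (by rw [mul_left_comm, ← mul_assoc])) t2 ((add_le_add t3 le_rfl).trans W1) le_rfl
    ((Q_le E2 P0.le p1 (Nat.cast_nonneg _) W2).trans (q2 _ d2))
    (T_le hk (by linarith) X1'.le (Nat.cast_nonneg _) W2 (by positivity) t4 (K3.trans E1)
      ((q2 _ d3).trans q3))
    (last X1' (by positivity) q1 (by positivity) (K4.trans b1) Y2 hRX)
  exact ⟨E', γ, τ, r2, r3, dec_mono r4 (Real.rpow_le_rpow_of_exponent_le X1'.le c1), r5⟩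

end Pool.Agent.Lib.MP_028aa5_nt.T
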