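import Pool.Agent.Lib.MP_028aa5_nt.T.St2

/-! A graph with a large eigenvalue has a vertex with many loops. -/

namespace Pool.Agent.Lib.MP_028aa5_nt.T

open Finset
open scoped ComplexConjugate Classical

namespace LoopJ

/-- some diagonal entry of an even power of the adjacency operator is large -/
lemma diag (hCf : CfSt) (hPF : PFSt) (N : Net) {ν nW : ℝ} (hν : 0 ≤ ν) (E : Finset N.Ed)
    (hR : N.Ray ν E (1 / 2)) (hW : Fintype.card N.W ≤ nW) (n : ℕ) :
    0 < nW ∧ ∃ x, 1 / (4 ^ n * nW) ≤ (N.opB ν E)^[2 * n] (fun y => if y = x then 1 else 0) x := by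
  obtain ⟨u, hu, hq⟩ := hR
  have hne : Nonempty N.W := by
    by_contra h
    rw [not_nonempty_iff] at h
    simp at hu
  obtain ⟨w, lam, -, hw, he, hl⟩ := hPF N ν E hν hne
  have h1 : 1 / 2 ≤ lam := le_of_mul_le_mul_right (hq.trans (hl u)) hu
  have h2 : ∀ i x, (N.opB ν E)^[i] w x = lam ^ i * w x := by
    intro i
    induction i with
    | zero => simp
    | succ i ih =>
      intro x
      have e : N.opB ν E w = fun y => lam * w y + 0 * w y := funext fun y => by
        rw [he, zero_mul, add_zero]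
      rw [Function.iterate_succ_apply, e, hCf.linB, ih, zero_mul, add_zero, pow_succ', mul_assoc]
  have h3 : ∀ y, (lam ^ n) ^ 2 * w y ^ 2 ≤
      (N.opB ν E)^[2 * n] (fun z => if z = y then 1 else 0) y := by
    intro y
    have e1 := hCf.adjB N ν E w (fun z => if z = y then 1 else 0) 0 n
    have e2 := hCf.adjB N ν E (fun z => if z = y then 1 else 0) (fun z => if z = y then 1 else 0)
      n n
    simp only [mul_ite, mul_one, mul_zero, sum_ite_eq', mem_univ, if_true, zero_add, h2,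
      pow_zero, one_mul, ← pow_two, ← two_mul] at e1 e2
    rw [← mul_pow, ← e1, ← e2]
    refine (sum_mul_sq_le_sq_mul_sq _ _ _).trans ?_
    rw [hw, one_mul]
  have h4 : (0 : ℝ) < Fintype.card N.W := by exact_mod_cast Fintype.card_pos
  have h5 := h4.trans_le hW
  refine ⟨h5, ?_⟩
  obtain ⟨x, -, hx⟩ := exists_le_of_sum_le (s := univ) (f := fun _ : N.W => 1 / (4 ^ n * nW))
    (g := fun x => (N.opB ν E)^[2 * n] (fun y => if y = x then 1 else 0) x) univ_nonempty (by
      refine le_trans ?_ (sum_le_sum fun y _ => h3 y)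
      rw [← mul_sum, hw, mul_one, sum_const, card_univ, nsmul_eq_mul]
      calc (Fintype.card N.W : ℝ) * (1 / (4 ^ n * nW)) ≤ nW * (1 / (4 ^ n * nW)) := by gcongr
        _ = ((1 / 2) ^ n) ^ 2 := by
          rw [← pow_mul, mul_comm n, pow_mul]
          field_simp
          rw [← mul_pow]
          norm_num
        _ ≤ _ := by gcongr)
  exact ⟨x, hx⟩

/-- pigeonhole on the second product -/
lemma pigeon {α : Type} (Λ : Finset α) (hΛ : Λ.Nonempty) (f : α → ℕ × ℕ) {K L c : ℝ}
    (h1 : (#(Λ.image fun l => (f l).2) : ℝ) ≤ K)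
    (h2 : ∀ a b, (#{l ∈ Λ | f l = (a, b)} : ℝ) ≤ L) (hL : 0 < L) (hc : 0 ≤ c)
    (h3 : K * (c * L) ≤ #Λ) : ∃ (b : ℕ) (A : Finset ℕ), c ≤ #A ∧ (∃ l ∈ Λ, (f l).2 = b) ∧
      ∀ a ∈ A, ∃ l ∈ Λ, f l = (a, b) := by
  obtain ⟨b, hb, h4⟩ := exists_le_of_sum_le (s := Λ.image fun l => (f l).2) (f := fun _ => c * L)
    (g := fun b => (#{l ∈ Λ | (f l).2 = b} : ℝ)) (hΛ.image _) (by
      rw [← Nat.cast_sum, ← card_eq_sum_card_image, sum_const, nsmul_eq_mul]
      exact (mul_le_mul_of_nonneg_right h1 (by positivity)).trans h3)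
  refine ⟨b, {l ∈ Λ | (f l).2 = b}.image fun l => (f l).1, le_of_mul_le_mul_right (h4.trans ?_) hL,
    mem_image.1 hb, fun a ha => ?_⟩
  · refine card_le_fibers _ _ (fun l => (f l).1)
      (fun l hl => mem_image_of_mem (fun l => (f l).1) hl) fun a _ => ?_
    refine le_trans (Nat.cast_le.2 (card_le_card fun l hl => ?_)) (h2 a b)
    simp only [mem_filter] at hl ⊢
    exact ⟨hl.1.1, Prod.ext hl.2 hl.1.2⟩
  · obtain ⟨l, hl, e⟩ := mem_image.1 ha
    exact ⟨l, (mem_filter.1 hl).1, Prod.ext e (mem_filter.1 hl).2⟩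

end LoopJ

open LoopJ

theorem st_Loop (hN2 : N2St) (hB : BasSt) (hCf : CfSt) (hPF : PFSt) (hW : WalkSt) (hI : InvSt)
    (hA : AbSt) : LoopSt := by
  intro π N E φ R ρ nW n ok hE ρ0 ρ1 hR hLv hRay hcard n1 hκ
  have hν := (hB.ν_pos π ok).le
  have hκ1 := hB.κ1_pos π ok
  have hκ0 : 0 < π.κ := hκ1.trans_le (hB.κ1_le π ok)
  have hP : (0 : ℝ) < #π.PP := by exact_mod_cast ok.ne.card_pos
  have hP1 : 1 ≤ 2 * π.P := by linarith [ok.P]
  obtain ⟨hnW, x, hx⟩ := diag hCf hPF N hν E hRay hcard n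
  let T : N.Ed → Unit ≃ Unit := fun _ => Equiv.refl _
  let F : N.W → Unit → ℝ := fun y _ => if y = x then 1 else 0
  have hF : ∀ y d, 0 ≤ F y d := fun y d => by
    simp only [F]
    split_ifs <;> norm_num
  let Λ := {l ∈ Fintype.piFinset fun _ : Fin (2 * n) => π.PP |
    N.opL π.ν E T (List.ofFn l) F x () ≠ 0}
  have h1 : 1 / (4 ^ n * nW) ≤ #Λ * (1 / (#π.PP : ℝ)) ^ (2 * n) := by
    have e := hW.projI N Unit π.ν E T (2 * n) F x
    simp only [univ_unique, sum_singleton] at e
    refine (hx.trans_eq e.symm).trans ((hW.exp N Unit π.ν E T π.PP (2 * n) F x () hE.pr).trans_le ?_)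
    rw [← sum_filter_ne_zero, ← nsmul_eq_mul]
    refine sum_le_card_nsmul _ _ _ fun l _ => ?_
    have h2 := hW.mass π N Unit E T (List.ofFn l) F ok hE hF
    simp only [univ_unique, sum_singleton, List.length_ofFn] at h2
    refine (single_le_sum (f := fun y => N.opL π.ν E T (List.ofFn l) F y ())
      (fun y _ => hW.nonneg N Unit π.ν E T _ F hν hF y ()) (mem_univ x)).trans (h2.trans_eq ?_)
    simp [F]
  have hΛ : Λ.Nonempty := by
    rw [← card_pos]
    by_contra h
    rw [Nat.eq_zero_of_not_pos h, Nat.cast_zero, zero_mul] at h1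
    exact absurd h1 (not_le.2 (by positivity))
  have hfac : (0 : ℝ) < n.factorial := by exact_mod_cast n.factorial_pos
  obtain ⟨b, A, h2, ⟨l0, hl0, hb⟩, h3⟩ := pigeon Λ hΛ (fun l => ab (N.isU x) (List.ofFn l))
    (K := #π.PP ^ n) (L := n.factorial ^ 2) (c := #π.PP ^ n / (4 ^ n * nW * n.factorial ^ 2))
    (by exact_mod_cast (card_le_card (image_subset_image (filter_subset _ _))).trans
          (hA.ab_img (N.isU x) π.PP n))
    (fun a b => by
      exact_mod_cast (card_le_card (filter_subset_filter _ (filter_subset _ _))).trans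
        (hA.ab_fib (N.isU x) π.PP n a b fun p hp => (ok.pr p hp).1))
    (by positivity) (by positivity) (by
      rw [one_div_pow, mul_one_div, le_div_iff₀ (by positivity)] at h1
      refine le_of_eq_of_le ?_ h1
      rw [two_mul, pow_add]
      field_simp)
  have h4 : ∀ l ∈ Λ, 0 < (ab (N.isU x) (List.ofFn l)).1 ∧ 0 < (ab (N.isU x) (List.ofFn l)).2 ∧
      (ab (N.isU x) (List.ofFn l)).1 ≤ (2 * π.P) ^ n ∧
      (ab (N.isU x) (List.ofFn l)).2 ≤ (2 * π.P) ^ n := by
    intro l hl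
    have h := hA.ab_le (N.isU x) (List.ofFn l) (2 * π.P) hP1 fun p hp => by
      obtain ⟨i, rfl⟩ := List.mem_ofFn.1 hp
      have := ok.pr _ (Fintype.mem_piFinset.1 (mem_filter.1 hl).1 i)
      exact ⟨this.1.pos, this.2.2⟩
    rwa [List.length_ofFn, show (2 * n + 1) / 2 = n by omega] at h
  obtain ⟨e, he, hxe⟩ := (hW.mem N Unit π.ν E T _ F x () (mem_filter.1 hl0).2).2 fun h => by
    have := congrArg List.length h
    rw [List.length_ofFn, List.length_nil] at this
    omega
  refine ⟨e, he, x, hxe, b, A, h2, hb ▸ (h4 l0 hl0).2.1, hb ▸ (h4 l0 hl0).2.2.2, fun a ha => ?_⟩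
  obtain ⟨l, hl, hab⟩ := h3 a ha
  have h5 := h4 l hl
  have hpos := hB.pos_pos π N x
  have h6 := hI π N Unit E T (fun y _ => φ y) R ρ 0 (N.pos π x) (φ x) x () (List.ofFn l) x () ok hE
    ρ0 (fun e he _ => hLv e he) hpos (by rw [sub_self, abs_zero]; positivity)
    ⟨0, by simp [nm, wn, tc, lat]⟩ (by rwa [List.length_ofFn, Nat.cast_mul, Nat.cast_two])
    (by simpa only [and_true] using (mem_filter.1 hl).2)
  rw [hab] at h5 h6
  rw [List.length_ofFn, Nat.cast_mul, Nat.cast_two] at h6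
  obtain ⟨a0, b0, a1, -⟩ := h5
  obtain ⟨h7, z, hz⟩ := h6
  have a0' : (0 : ℝ) < a := by exact_mod_cast a0
  have b0' : (0 : ℝ) < b := by exact_mod_cast b0
  refine ⟨a0, ?_, fun j hj => ⟨-z j, ?_⟩⟩
  · rw [Real.log_div hpos.ne' b0'.ne', Real.log_div hpos.ne' a0'.ne', sub_sub_sub_cancel_left] at h7
    exact h7.trans_eq (by ring)
  · have h8 := (hN2.coef π.k π.κ _ _ hκ0 ok.κ (div_pos hpos a0') j hj).trans
      (mul_le_mul_of_nonneg_left hz (by positivity))
    have h9 : 1 ≤ (N.pos π x / a) ^ j * (2 * π.P) ^ (n * π.k) := by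
      have p1 : 1 ≤ N.pos π x := Real.one_le_exp (by positivity)
      calc (1 : ℝ) ≤ (N.pos π x / a * (2 * π.P) ^ n) ^ j := by
            refine one_le_pow₀ ?_
            rw [div_mul_eq_mul_div, le_div_iff₀ a0', one_mul]
            exact a1.trans (le_mul_of_one_le_left (by positivity) p1)
        _ ≤ _ := by
            rw [mul_pow, ← pow_mul]
            exact mul_le_mul_of_nonneg_left
              (pow_le_pow_right₀ hP1 (Nat.mul_le_mul_left n (mem_Icc.1 hj).2)) (by positivity)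
    have e1 : ((a : ℝ) ^ j - b ^ j) * (φ x j / R ^ j) - (-z j : ℤ) =
        -((dil b (φ x) - dil a (φ x) - lat R z) j / R ^ j) := by
      simp only [Pi.sub_apply, dil, lat, Int.cast_neg]
      field_simp
      ring
    rw [e1, abs_neg, abs_div, abs_of_pos (pow_pos hR j)]
    refine div_le_div_of_nonneg_right ?_ (pow_pos hR j).le
    refine (le_mul_of_one_le_right (abs_nonneg _) h9).trans ?_
    rw [← mul_assoc]
    refine mul_le_mul_of_nonneg_right (h8.trans ?_) (by positivity)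
    refine mul_le_mul_of_nonneg_left ?_ (by positivity)
    rw [zero_add, show 8 * (2 * (n : ℝ)) + 17 = 16 * n + 17 by ring]
    exact mul_le_of_le_one_right (by positivity) ρ1

end Pool.Agent.Lib.MP_028aa5_nt.T
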