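import Pool.Agent.Lib.MP_028aa5_nt.T.St2

/-! Matching into a largest family; dilates of a family. -/

namespace Pool.Agent.Lib.MP_028aa5_nt.T

open Finset
open scoped ComplexConjugate Classical

namespace MD

lemma cl_self (hN : NSt) (k : ℕ) (κ y ρ : ℝ) (α : Ph) (hρ : 0 ≤ ρ) : Cl k κ 1 y ρ (α - α) := by
  refine ⟨0, ?_⟩
  have : α - α - lat 1 0 = 0 := by
    funext j
    simp [lat]
  rw [this, hN.nm_zero]
  exact hρ

lemma hall (hN : NSt) (k : ℕ) (κ η ρ y : ℝ) (f : ℕ → ℂ) (A AL A' B : Finset Ph) (hρ : 0 ≤ ρ)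
    (hA : Fam k κ f η ρ y A) (hL : Fam k κ f η ρ y AL)
    (hmax : ∀ A', Fam k κ f η ρ y A' → #A' ≤ #AL) (hA' : A' ⊆ A) (hB : B ⊆ AL)
    (hnb : ∀ α ∈ A', ∀ β ∈ AL, Cl k κ 1 y ρ (β - α) → β ∈ B) : #A' ≤ #B := by
  have hF : Fam k κ f η ρ y ((AL \ B) ∪ A') := by
    refine ⟨fun α hα => ?_, fun α hα β hβ hne hcl => ?_⟩
    · rcases mem_union.1 hα with h | h
      · exact hL.1 α (mem_sdiff.1 h).1
      · exact hA.1 α (hA' h)
    · rcases mem_union.1 hα with h | h <;> rcases mem_union.1 hβ with h' | h'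
      · exact hL.2 α (mem_sdiff.1 h).1 β (mem_sdiff.1 h').1 hne hcl
      · exact (mem_sdiff.1 h).2 (hnb β h' α (mem_sdiff.1 h).1 hcl)
      · have := hN.cl_neg _ _ _ _ _ _ hcl
        rw [neg_sub] at this
        exact (mem_sdiff.1 h').2 (hnb α h β (mem_sdiff.1 h').1 this)
      · exact hA.2 α (hA' h) β (hA' h') hne hcl
  have hd : Disjoint (AL \ B) A' := by
    rw [disjoint_left]
    intro α h h'
    exact (mem_sdiff.1 h).2 (hnb α h' α (mem_sdiff.1 h).1 (cl_self hN k κ y ρ α hρ))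
  have h1 := hmax _ hF
  rw [card_union_of_disjoint hd, card_sdiff_of_subset hB] at h1
  have h2 := card_le_card hB
  omega

lemma dil_inj (p : ℕ) (hp : 0 < p) : Function.Injective (dil p) := by
  intro α β h
  funext j
  have h1 : (p : ℝ) ^ j * α j = (p : ℝ) ^ j * β j := congrFun h j
  have h2 : (p : ℝ) ^ j ≠ 0 := pow_ne_zero _ (by exact_mod_cast hp.ne')
  exact mul_left_cancel₀ h2 h1

lemma dil_lat (p : ℕ) (hp : 0 < p) (α β : Ph) (z : ℕ → ℤ) :
    dil p α - dil p β - lat 1 z = dil p (α - β - lat (1 / p) z) := by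
  funext j
  have h2 : (p : ℝ) ≠ 0 := by exact_mod_cast hp.ne'
  have h3 : (p : ℝ) ^ j * (1 / (p : ℝ)) ^ j = 1 := by
    rw [← mul_pow, mul_one_div_cancel h2, one_pow]
  simp only [dil, lat, Pi.sub_apply, one_pow, one_mul]
  linear_combination (z j : ℝ) * h3

lemma cl_of_dvd (hN : NSt) (k : ℕ) (κ y ρ : ℝ) (α : Ph) (p : ℕ) (hp : 0 < p) (z : ℕ → ℤ)
    (hz : ∀ j ∈ Icc 1 k, (p : ℤ) ^ j ∣ z j) (h : nm k κ y (α - lat (1 / p) z) ≤ ρ) :
    Cl k κ 1 y ρ α := by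
  refine ⟨fun j => z j / (p : ℤ) ^ j, ?_⟩
  rw [hN.nm_congr k κ y _ (α - lat (1 / p) z)]
  · exact h
  · intro j hj
    obtain ⟨w, hw⟩ := hz j hj
    have h0 : (p : ℤ) ^ j ≠ 0 := pow_ne_zero _ (by exact_mod_cast hp.ne')
    have h2 : (p : ℝ) ≠ 0 := by exact_mod_cast hp.ne'
    have h3 : (p : ℝ) ^ j * (1 / (p : ℝ)) ^ j = 1 := by
      rw [← mul_pow, mul_one_div_cancel h2, one_pow]
    simp only [lat, Pi.sub_apply, one_pow, one_mul]
    rw [hw, Int.mul_ediv_cancel_left _ h0]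
    push_cast
    linear_combination (w : ℝ) * h3

end MD

theorem st_Match (hN : NSt) : MatchSt := by
  intro k κ η ρ y f A AL hρ hA hL hmax
  obtain ⟨g, hg, hg'⟩ := (Finset.all_card_le_biUnion_card_iff_existsInjective'
    (fun α : A => {β ∈ AL | Cl k κ 1 y ρ (β - α)})).1 (by
      intro s
      have h := MD.hall hN k κ η ρ y f A AL (s.map (Function.Embedding.subtype _))
        (s.biUnion fun α : A => {β ∈ AL | Cl k κ 1 y ρ (β - α)}) hρ hA hL hmax
        (by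
          intro α hα
          obtain ⟨a, _, rfl⟩ := mem_map.1 hα
          exact a.2)
        (biUnion_subset.2 fun a _ => filter_subset _ _)
        (by
          intro α hα β hβ hcl
          obtain ⟨a, ha, rfl⟩ := mem_map.1 hα
          exact mem_biUnion.2 ⟨a, ha, mem_filter.2 ⟨hβ, hcl⟩⟩)
      rwa [card_map] at h)
  refine ⟨fun α => if h : α ∈ A then g ⟨α, h⟩ else α, fun α hα β hβ h => ?_, fun α hα => ?_⟩
  · have hα' : α ∈ A := hα
    have hβ' : β ∈ A := hβ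
    simp only [dif_pos hα', dif_pos hβ'] at h
    exact congrArg Subtype.val (hg h)
  · simp only [dif_pos hα]
    exact mem_filter.1 (hg' ⟨α, hα⟩)

theorem st_Desc (hN : NSt) (hN2 : N2St) (hC : CSt) (hB : BasSt) : DescSt := by
  intro π f η η' ρ ρ' ε2 K1 y A hπ hf hκ1 hP hK hρ' hρ hρρ hη hA
  have hκ1p := hB.κ1_pos π hπ
  have hκ : 0 < π.κ := lt_of_lt_of_le hκ1p (hB.κ1_le π hπ)
  have hP2 := hπ.P
  have hK1 : 1 ≤ K1 := by nlinarith
  have hy : 0 < y := by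
    by_contra h
    have := mul_nonpos_of_nonneg_of_nonpos hκ.le (not_lt.1 h)
    linarith
  have hG : (0 : ℝ) < π.G := by exact_mod_cast hπ.G
  have hq : 2 * π.κ1 / π.κ ≤ 2 / π.G := by
    rw [div_le_div_iff₀ hκ hG]
    have := hB.κ_ge π hπ
    linarith
  refine ⟨(A ×ˢ A).biUnion fun q => {p ∈ π.PP | q.1 ≠ q.2 ∧
    ∃ z, nm π.k π.κ y (q.1 - q.2 - lat (1 / p) z) ≤ ρ}, ?_, fun p hp hc => ?_⟩
  · refine (card_biUnion_le_card_mul _ _ 1 fun q hq => ?_).trans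
      (by rw [card_product, mul_one, sq])
    refine card_le_one.2 fun r hr s hs => ?_
    by_contra hne
    obtain ⟨hr, hq', z, hz⟩ := mem_filter.1 hr
    obtain ⟨hs, -, z', hz'⟩ := mem_filter.1 hs
    obtain ⟨r1, r2, r3⟩ := hπ.pr r hr
    obtain ⟨s1, s2, s3⟩ := hπ.pr s hs
    have hrs : (0 : ℝ) < r * s := mul_pos (by linarith) (by linarith)
    have h3 : 3 ≤ π.κ * y * 1 / (r * s) := by
      rw [le_div_iff₀ hrs]
      have : (r : ℝ) * s ≤ (2 * π.P) * (2 * π.P) :=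
        mul_le_mul r3 s3 (by linarith) (by linarith)
      nlinarith
    have := hN2.one π.k π.κ y 1 ρ _ r s z z' r1 s1 hne hκ hy one_pos hz hz' (by linarith)
      (by linarith)
    exact hA.2 q.1 (mem_product.1 hq).1 q.2 (mem_product.1 hq).2 hq'
      (MD.cl_of_dvd hN _ _ _ _ _ r r1.pos z this hz)
  · obtain ⟨p1, p2, p3⟩ := hπ.pr p hp
    have hp0 : (0 : ℝ) < p := by linarith
    have hyp : 0 < y / p := div_pos hy hp0
    refine ⟨(MD.dil_inj p p1.pos).injOn, fun y' hK' hyy => ⟨fun α' hα' => ?_, ?_⟩⟩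
    · obtain ⟨α, hα, rfl⟩ := mem_image.1 hα'
      obtain ⟨hα, hε⟩ := mem_filter.1 hα
      have h1 := hA.1 α hα
      have h2 := hC.move π.k π.κ f y' (y / p) (2 * π.κ1) (dil p α) hf hκ hπ.κ (by linarith) hyp
        hyy hκ1
      have h3 : 1 / (π.κ * y') ≤ 1 / K1 := one_div_le_one_div_of_le (by linarith) hK'
      have h4 : ‖cc π.k π.κ f y α‖ ≤ ‖cc π.k π.κ f y α + cc π.k π.κ f (y / p) (dil p α)‖ +
          ‖cc π.k π.κ f (y / p) (dil p α)‖ := by
        simpa using norm_sub_le (cc π.k π.κ f y α + cc π.k π.κ f (y / p) (dil p α))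
          (cc π.k π.κ f (y / p) (dil p α))
      have h5 : ‖cc π.k π.κ f (y / p) (dil p α)‖ ≤
          ‖cc π.k π.κ f (y / p) (dil p α) - cc π.k π.κ f y' (dil p α)‖ +
            ‖cc π.k π.κ f y' (dil p α)‖ := by
        simpa using norm_add_le (cc π.k π.κ f (y / p) (dil p α) - cc π.k π.κ f y' (dil p α))
          (cc π.k π.κ f y' (dil p α))
      linarith
    · intro α' hα' β' hβ' hne hcl
      obtain ⟨α, hα, rfl⟩ := mem_image.1 hα'
      obtain ⟨β, hβ, rfl⟩ := mem_image.1 hβ'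
      have hy' : 0 < y' := by
        by_contra h
        have := mul_nonpos_of_nonneg_of_nonpos hκ.le (not_lt.1 h)
        linarith
      obtain ⟨z, hz⟩ := hN2.cl_shift π.k π.κ 1 y' (y / p) (2 * π.κ1) ρ' _ hκ hπ.κ hy' hyp hyy hκ1
        hcl
      rw [MD.dil_lat p p1.pos, hN.nm_dil, mul_div_cancel₀ _ hp0.ne'] at hz
      have h1 : 1 + 4 * (2 * π.κ1) / π.κ ≤ 1 + 8 / π.G := by
        have e1 : 4 * (2 * π.κ1) / π.κ = 4 * (2 * π.κ1 / π.κ) := by ring
        have e2 : (8 : ℝ) / π.G = 4 * (2 / π.G) := by ring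
        rw [e1, e2]
        linarith
      have h2 : (1 + 4 * (2 * π.κ1) / π.κ) ^ π.k ≤ (1 + 8 / π.G) ^ π.k :=
        pow_le_pow_left₀ (by positivity) h1 _
      have h3 := mul_le_mul_of_nonneg_right h2 hρ'
      refine hc (mem_biUnion.2 ⟨(α, β), mem_product.2 ⟨(mem_filter.1 hα).1, (mem_filter.1 hβ).1⟩,
        mem_filter.2 ⟨hp, fun h => hne (congrArg (dil p) h), z, ?_⟩⟩)
      linarith

end Pool.Agent.Lib.MP_028aa5_nt.T
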