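import Pool.Agent.Lib.MP_028aa5_nt.T.St1

/-! Algebra of phases and local norms. -/

namespace Pool.Agent.Lib.MP_028aa5_nt.T

open Finset
open scoped ComplexConjugate Classical

namespace N

lemma tc_add (k : ℕ) (y : ℝ) (α β : Ph) : tc k y (α + β) = tc k y α + tc k y β := by
  funext j
  simp only [tc, Pi.add_apply, ← sum_add_distrib]
  exact sum_congr rfl fun i _ => by ring

lemma tc_sub (k : ℕ) (y : ℝ) (α β : Ph) : tc k y (α - β) = tc k y α - tc k y β := by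
  funext j
  simp only [tc, Pi.sub_apply, ← sum_sub_distrib]
  exact sum_congr rfl fun i _ => by ring

lemma tc_zero (k : ℕ) (y : ℝ) : tc k y 0 = 0 := by
  funext j
  simp [tc]

lemma tc_dil (k : ℕ) (a y : ℝ) (α : Ph) : tc k y (dil a α) = tc k (a * y) α := by
  funext j
  simp only [tc, dil, mul_pow]
  exact sum_congr rfl fun i _ => by ring

lemma tc_congr (k : ℕ) (y : ℝ) (α β : Ph) (h : ∀ j ∈ Icc 1 k, α j = β j) :
    ∀ j ∈ Icc 1 k, tc k y α j = tc k y β j := by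
  intro j hj
  refine sum_congr rfl fun i hi => ?_
  rw [mem_Icc] at hj hi
  rw [h i (mem_Icc.2 ⟨by omega, hi.2⟩)]

lemma wn_nonneg (k : ℕ) (κ : ℝ) (t : Ph) (h : 0 ≤ κ) : 0 ≤ wn k κ t :=
  sum_nonneg fun _ _ => mul_nonneg (pow_nonneg h _) (abs_nonneg _)

lemma wn_add (k : ℕ) (κ : ℝ) (t t' : Ph) (h : 0 ≤ κ) :
    wn k κ (t + t') ≤ wn k κ t + wn k κ t' := by
  simp only [wn, ← sum_add_distrib, ← mul_add]
  exact sum_le_sum fun j _ => mul_le_mul_of_nonneg_left (abs_add_le _ _) (pow_nonneg h _)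

lemma wn_sub (k : ℕ) (κ : ℝ) (t t' : Ph) (h : 0 ≤ κ) :
    wn k κ (t - t') ≤ wn k κ t + wn k κ t' := by
  simp only [wn, ← sum_add_distrib, ← mul_add]
  exact sum_le_sum fun j _ => mul_le_mul_of_nonneg_left (abs_sub _ _) (pow_nonneg h _)

lemma wn_comm (k : ℕ) (κ : ℝ) (t t' : Ph) : wn k κ (t - t') = wn k κ (t' - t) :=
  sum_congr rfl fun j _ => by rw [Pi.sub_apply, Pi.sub_apply, abs_sub_comm]

lemma nm_add (k : ℕ) (κ y : ℝ) (α β : Ph) (h : 0 ≤ κ) :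
    nm k κ y (α + β) ≤ nm k κ y α + nm k κ y β := by
  rw [nm, tc_add]
  exact wn_add k κ _ _ h

lemma nm_sub (k : ℕ) (κ y : ℝ) (α β : Ph) (h : 0 ≤ κ) :
    nm k κ y (α - β) ≤ nm k κ y α + nm k κ y β := by
  rw [nm, tc_sub]
  exact wn_sub k κ _ _ h

lemma nm_comm (k : ℕ) (κ y : ℝ) (α β : Ph) : nm k κ y (α - β) = nm k κ y (β - α) := by
  rw [nm, nm, tc_sub, tc_sub, wn_comm]

lemma nm_neg (k : ℕ) (κ y : ℝ) (α : Ph) : nm k κ y (-α) = nm k κ y α := by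
  rw [← zero_sub, nm_comm, sub_zero]

lemma nm_congr (k : ℕ) (κ y : ℝ) (α β : Ph) (h : ∀ j ∈ Icc 1 k, α j = β j) :
    nm k κ y α = nm k κ y β := by
  unfold nm wn
  exact sum_congr rfl fun j hj => by rw [tc_congr k y α β h j hj]

lemma nm_dil (k : ℕ) (κ a y : ℝ) (α : Ph) : nm k κ y (dil a α) = nm k κ (a * y) α := by
  rw [nm, nm, tc_dil]

lemma binom (z : ℝ) (i : ℕ) : (1 + z) ^ i = 1 + ∑ j ∈ Icc 1 i, (i.choose j : ℝ) * z ^ j := by
  rw [add_comm 1 z, add_pow, range_eq_Ico, sum_eq_sum_Ico_succ_bot (Nat.succ_pos i)]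
  simp only [pow_zero, one_pow, mul_one, Nat.choose_zero_right, Nat.cast_one, zero_add]
  congr 1
  exact sum_congr rfl fun j _ => mul_comm _ _

lemma eval (k : ℕ) (y x : ℝ) (α : Ph) (hy : y ≠ 0) :
    ph k α x = ph k α y + ph k (tc k y α) (x / y - 1) := by
  set z := x / y - 1 with hz
  have hx : x = y * (1 + z) := by
    rw [hz]
    field_simp
    ring
  have h1 : ph k (tc k y α) z =
      ∑ i ∈ Icc 1 k, ∑ j ∈ Icc 1 i, (i.choose j : ℝ) * (α i * y ^ i) * z ^ j := by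
    simp only [ph, tc, sum_mul]
    refine sum_comm' fun j i => ?_
    simp only [mem_Icc]
    omega
  rw [h1, ph, ph, ← sum_add_distrib]
  refine sum_congr rfl fun i _ => ?_
  rw [hx, mul_pow, binom, mul_add, mul_add, mul_one, mul_sum, mul_sum]
  congr 1
  exact sum_congr rfl fun j _ => by ring

lemma ph_le (k : ℕ) (κ z : ℝ) (t : Ph) (h : |z| ≤ κ) : |ph k t z| ≤ wn k κ t := by
  refine (abs_sum_le_sum_abs _ _).trans (sum_le_sum fun j _ => ?_)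
  rw [abs_mul, abs_pow, mul_comm]
  exact mul_le_mul_of_nonneg_right (pow_le_pow_left₀ (abs_nonneg _) h _) (abs_nonneg _)

lemma ph_dil (k : ℕ) (a : ℝ) (α : Ph) (x : ℝ) : ph k (dil a α) x = ph k α (a * x) :=
  sum_congr rfl fun j _ => by
    rw [dil, mul_pow]
    ring

lemma ph_add (k : ℕ) (α β : Ph) (x : ℝ) : ph k (α + β) x = ph k α x + ph k β x := by
  simp only [ph, Pi.add_apply, add_mul, sum_add_distrib]

lemma ph_sub (k : ℕ) (α β : Ph) (x : ℝ) : ph k (α - β) x = ph k α x - ph k β x := by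
  simp only [ph, Pi.sub_apply, sub_mul, sum_sub_distrib]

lemma ph_eqZ (k : ℕ) (α β : Ph) (n : ℤ) (h : EqZ k α β) :
    ∃ m : ℤ, ph k α n = ph k β n + m := by
  choose! c hc using h
  refine ⟨∑ j ∈ Icc 1 k, c j * n ^ j, ?_⟩
  push_cast
  rw [ph, ph, ← sum_add_distrib]
  refine sum_congr rfl fun j hj => ?_
  rw [hc j hj, add_mul]

lemma e_eqZ (k : ℕ) (α β : Ph) (n : ℤ) (h : EqZ k α β) : e (ph k α n) = e (ph k β n) := by
  obtain ⟨m, hm⟩ := ph_eqZ k α β n h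
  rw [hm, e_add, e_int, mul_one]

lemma e_eqN (k : ℕ) (α β : Ph) (n : ℕ) (h : EqZ k α β) : e (-ph k α n) = e (-ph k β n) := by
  obtain ⟨m, hm⟩ := ph_eqZ k α β n h
  rw [Int.cast_natCast] at hm
  rw [hm, neg_add, e_add, ← Int.cast_neg, e_int, mul_one]

lemma nm_zero (k : ℕ) (κ y : ℝ) : nm k κ y 0 = 0 := by
  simp [nm, tc_zero, wn]

lemma nm_mono (k : ℕ) (κ κ' y : ℝ) (α : Ph) (h : 0 ≤ κ) (h' : κ ≤ κ') :
    nm k κ y α ≤ nm k κ' y α := by
  unfold nm wn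
  exact sum_le_sum fun _ _ =>
    mul_le_mul_of_nonneg_right (pow_le_pow_left₀ h h' _) (abs_nonneg _)

lemma nm_scale (k : ℕ) (κ W y : ℝ) (α : Ph) (h : 0 ≤ κ) (hW : 1 ≤ W) :
    nm k (W * κ) y α ≤ W ^ k * nm k κ y α := by
  simp only [nm, wn, mul_sum]
  refine sum_le_sum fun j hj => ?_
  rw [mul_pow, mul_assoc]
  exact mul_le_mul_of_nonneg_right (pow_le_pow_right₀ hW (mem_Icc.1 hj).2)
    (mul_nonneg (pow_nonneg h _) (abs_nonneg _))

lemma lat_add (c : ℝ) (z z' : ℕ → ℤ) : lat c (z + z') = lat c z + lat c z' := by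
  funext j
  simp only [lat, Pi.add_apply, Int.cast_add, mul_add]

lemma lat_sub (c : ℝ) (z z' : ℕ → ℤ) : lat c (z - z') = lat c z - lat c z' := by
  funext j
  simp only [lat, Pi.sub_apply, Int.cast_sub, mul_sub]

lemma lat_mul (c : ℝ) (r : ℕ) (z : ℕ → ℤ) :
    lat (c * r) z = lat c fun j => (r : ℤ) ^ j * z j := by
  funext j
  simp only [lat, mul_pow]
  push_cast
  ring

lemma lat_dil (a c : ℝ) (z : ℕ → ℤ) : dil a (lat c z) = lat (a * c) z := by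
  funext j
  simp only [lat, dil, mul_pow, mul_assoc]

lemma cl_neg (k : ℕ) (κ c y ρ : ℝ) (α : Ph) (h : Cl k κ c y ρ α) : Cl k κ c y ρ (-α) := by
  obtain ⟨z, hz⟩ := h
  refine ⟨-z, ?_⟩
  have : -α - lat c (-z) = -(α - lat c z) := by
    funext j
    simp only [lat, Pi.sub_apply, Pi.neg_apply, Int.cast_neg]
    ring
  rwa [this, nm_neg]

lemma cl_add (k : ℕ) (κ c y ρ ρ' : ℝ) (α β : Ph) (h : 0 ≤ κ) (h1 : Cl k κ c y ρ α)
    (h2 : Cl k κ c y ρ' β) : Cl k κ c y (ρ + ρ') (α + β) := by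
  obtain ⟨z, hz⟩ := h1
  obtain ⟨z', hz'⟩ := h2
  refine ⟨z + z', ?_⟩
  rw [lat_add, add_sub_add_comm]
  exact (nm_add k κ y _ _ h).trans (add_le_add hz hz')

lemma cl_dil (k : ℕ) (κ c y ρ : ℝ) (α : Ph) (a : ℕ) (h : Cl k κ c (a * y) ρ α) :
    Cl k κ c y ρ (dil a α) := by
  obtain ⟨z, hz⟩ := h
  refine ⟨fun j => (a : ℤ) ^ j * z j, ?_⟩
  have : dil a α - lat c (fun j => (a : ℤ) ^ j * z j) = dil a (α - lat c z) := by
    funext j
    simp only [lat, dil, Pi.sub_apply]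
    push_cast
    ring
  rwa [this, nm_dil]

end N

theorem st_N : NSt where
  tc_add := N.tc_add
  tc_sub := N.tc_sub
  tc_dil := N.tc_dil
  tc_congr := N.tc_congr
  wn_nonneg := N.wn_nonneg
  wn_add := N.wn_add
  wn_sub := N.wn_sub
  wn_comm := N.wn_comm
  nm_nonneg := fun k κ _ _ h => N.wn_nonneg k κ _ h
  nm_add := N.nm_add
  nm_sub := N.nm_sub
  nm_neg := N.nm_neg
  nm_congr := N.nm_congr
  nm_dil := N.nm_dil
  eval := N.eval
  ph_le := N.ph_le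
  ph_dil := N.ph_dil
  ph_add := N.ph_add
  ph_sub := N.ph_sub
  e_eqZ := N.e_eqZ
  e_eqN := N.e_eqN
  nm_zero := N.nm_zero
  nm_comm := N.nm_comm
  nm_mono := N.nm_mono
  nm_scale := N.nm_scale
  lat_add := N.lat_add
  lat_sub := N.lat_sub
  lat_mul := N.lat_mul
  lat_dil := N.lat_dil
  cl_mono := fun _ _ _ _ _ _ _ h ⟨z, hz⟩ => ⟨z, hz.trans h⟩
  cl_neg := N.cl_neg
  cl_add := N.cl_add
  cl_dil := N.cl_dil

end Pool.Agent.Lib.MP_028aa5_nt.T
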