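import Pool.Agent.Lib.MP_028aa5_nt.T.St1

/-! Change of the base point, coefficients and rigidity for the local norms. -/

namespace Pool.Agent.Lib.MP_028aa5_nt.T

open Finset
open scoped ComplexConjugate Classical

namespace N2J

lemma tay {k : ℕ} {f : Polynomial ℝ} (hf : f.natDegree ≤ k) (r : ℝ) (j : ℕ) :
    (Polynomial.taylor r f).coeff j = ∑ i ∈ Icc j k, r ^ (i - j) * i.choose j * f.coeff i := by
  conv_lhs => rw [f.as_sum_range' (k + 1) (Nat.lt_succ_of_le hf), map_sum,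
    Polynomial.finsetSum_coeff]
  simp only [Polynomial.taylor_monomial, Polynomial.coeff_C_mul, Polynomial.coeff_X_add_C_pow]
  rw [← sum_subset (s₁ := Icc j k) (fun i hi => mem_range.2 (Nat.lt_succ_of_le (mem_Icc.1 hi).2))]
  · exact sum_congr rfl fun i _ => mul_comm _ _
  · intro i hi h
    rw [mem_range] at hi
    rw [mem_Icc] at h
    rw [Nat.choose_eq_zero_of_lt (by omega), Nat.cast_zero, mul_zero, mul_zero]

lemma key (k : ℕ) (y s : ℝ) (α : Ph) (j : ℕ) :
    ∑ i ∈ Icc j k, s ^ (i - j) * i.choose j * (α i * y ^ i) =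
      ∑ l ∈ Icc j k, (s - 1) ^ (l - j) * l.choose j * tc k y α l := by
  let f : Polynomial ℝ := ∑ i ∈ range (k + 1), Polynomial.monomial i (α i * y ^ i)
  have hf : f.natDegree ≤ k := Polynomial.natDegree_sum_le_of_forall_le _ _ fun i hi =>
    (Polynomial.natDegree_monomial_le _).trans (Nat.le_of_lt_succ (mem_range.1 hi))
  have hc : ∀ r l, (Polynomial.taylor r f).coeff l =
      ∑ i ∈ Icc l k, r ^ (i - l) * i.choose l * (α i * y ^ i) := fun r l => by
    rw [tay hf]
    refine sum_congr rfl fun i hi => ?_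
    simp [f, Polynomial.coeff_monomial, Nat.lt_succ_of_le (mem_Icc.1 hi).2]
  have h := tay (k := k) (f := Polynomial.taylor 1 f) (by rwa [Polynomial.natDegree_taylor])
    (s - 1) j
  rw [Polynomial.taylor_taylor, sub_add_cancel, hc] at h
  rw [h]
  refine sum_congr rfl fun l _ => ?_
  simp only [hc, one_pow, one_mul, tc]

lemma swap (k : ℕ) {x d : ℝ} (hx : 0 ≤ x) (hd : 0 ≤ d) {b : ℕ → ℝ} (hb : ∀ l, 0 ≤ b l) :
    ∑ j ∈ Icc 1 k, ∑ l ∈ Icc j k, x ^ j * d ^ (l - j) * l.choose j * b l ≤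
      ∑ l ∈ Icc 1 k, (x + d) ^ l * b l := by
  rw [sum_comm' (t' := Icc 1 k) (s' := fun l => Icc 1 l) fun j l => by
    simp only [mem_Icc]
    omega]
  refine sum_le_sum fun l _ => ?_
  rw [← sum_mul, add_pow]
  refine mul_le_mul_of_nonneg_right (sum_le_sum_of_subset_of_nonneg
    (fun j hj => mem_range.2 (Nat.lt_succ_of_le (mem_Icc.1 hj).2)) fun _ _ _ => by positivity)
    (hb l)

lemma pow_sub (s : ℝ) (j : ℕ) : |s ^ j - 1| + 1 ≤ (1 + |s - 1|) ^ j := by
  induction j with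
  | zero => simp
  | succ j ih =>
    have e : s ^ (j + 1) - 1 = (s ^ j - 1) * (s - 1) + (s ^ j - 1) + (s - 1) := by ring
    have h := abs_add_three ((s ^ j - 1) * (s - 1)) (s ^ j - 1) (s - 1)
    rw [← e, abs_mul] at h
    rw [pow_succ (1 + |s - 1|)]
    exact le_trans (by linarith) (mul_le_mul_of_nonneg_right ih (by positivity))

lemma step (k : ℕ) (y s : ℝ) (α : Ph) {j : ℕ} (hj : j ≤ k) :
    |tc k (y * s) α j - tc k y α j| + |tc k y α j| ≤
      ∑ l ∈ Icc j k, (1 + |s - 1|) ^ j * |s - 1| ^ (l - j) * l.choose j * |tc k y α l| := by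
  have e : tc k (y * s) α j =
      ∑ l ∈ Icc j k, s ^ j * ((s - 1) ^ (l - j) * l.choose j * tc k y α l) := by
    rw [← mul_sum, ← key, mul_sum, tc]
    refine sum_congr rfl fun i hi => ?_
    obtain ⟨m, rfl⟩ := Nat.exists_eq_add_of_le (mem_Icc.1 hi).1
    rw [Nat.add_sub_cancel_left]
    ring
  have h1 := pow_sub s j
  have h2 : |s ^ j| ≤ (1 + |s - 1|) ^ j :=
    le_trans (by simpa using abs_add_le (s ^ j - 1) 1) h1
  rw [e, ← Ioc_insert_left hj, sum_insert left_notMem_Ioc, sum_insert left_notMem_Ioc,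
    Nat.sub_self, pow_zero, pow_zero, Nat.choose_self, Nat.cast_one, mul_one, mul_one, mul_one,
    one_mul, add_sub_right_comm, ← sub_one_mul]
  have h3 := abs_add_le ((s ^ j - 1) * tc k y α j)
    (∑ l ∈ Ioc j k, s ^ j * ((s - 1) ^ (l - j) * l.choose j * tc k y α l))
  have h4 : |∑ l ∈ Ioc j k, s ^ j * ((s - 1) ^ (l - j) * l.choose j * tc k y α l)| ≤
      ∑ l ∈ Ioc j k, (1 + |s - 1|) ^ j * |s - 1| ^ (l - j) * l.choose j * |tc k y α l| := by
    refine (abs_sum_le_sum_abs _ _).trans (sum_le_sum fun l _ => ?_)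
    rw [abs_mul, abs_mul, abs_mul, abs_pow (s - 1), Nat.abs_cast, mul_assoc, mul_assoc, mul_assoc]
    exact mul_le_mul_of_nonneg_right h2 (by positivity)
  have h5 := mul_le_mul_of_nonneg_right h1 (abs_nonneg (tc k y α j))
  rw [abs_mul] at h3
  linarith

lemma both {k : ℕ} {κ y y' u : ℝ} (α : Ph) (h0 : 0 < κ) (h1 : κ ≤ 1) (hy : 0 < y) (hy' : 0 < y')
    (hu : |Real.log y' - Real.log y| ≤ u) (hu1 : u ≤ 1) :
    wn k κ (tc k y' α - tc k y α) + nm k κ y α ≤ (1 + 4 * u / κ) ^ k * nm k κ y α := by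
  obtain ⟨s, rfl⟩ : ∃ s, y' = y * s := ⟨y' / y, by field_simp⟩
  have hs : 0 < s := (mul_pos_iff_of_pos_left hy).1 hy'
  rw [Real.log_mul hy.ne' hs.ne', add_sub_cancel_left] at hu
  have hd : |s - 1| ≤ 2 * u := by
    have := Real.abs_exp_sub_one_le (hu.trans hu1)
    rw [Real.exp_log hs] at this
    linarith
  have hd0 := abs_nonneg (s - 1)
  have hq : 0 ≤ 4 * u / κ := div_nonneg (by linarith) h0.le
  unfold nm wn
  rw [← sum_add_distrib, mul_sum]
  calc _ ≤ ∑ j ∈ Icc 1 k, ∑ l ∈ Icc j k,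
        (κ * (1 + |s - 1|)) ^ j * |s - 1| ^ (l - j) * l.choose j * |tc k y α l| := by
        refine sum_le_sum fun j hj => ?_
        rw [← mul_add]
        refine (mul_le_mul_of_nonneg_left (step k y s α (mem_Icc.1 hj).2)
          (by positivity)).trans_eq ?_
        rw [mul_sum]
        exact sum_congr rfl fun l _ => by rw [mul_pow]; ring
    _ ≤ _ := swap k (by positivity) hd0 fun _ => abs_nonneg _
    _ ≤ _ := by
        refine sum_le_sum fun l hl => ?_
        rw [← mul_assoc]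
        refine mul_le_mul_of_nonneg_right ?_ (abs_nonneg _)
        calc _ ≤ ((1 + 4 * u / κ) * κ) ^ l := by
              refine pow_le_pow_left₀ (by positivity) ?_ l
              rw [add_mul (1 : ℝ), div_mul_cancel₀ _ h0.ne']
              nlinarith
          _ ≤ _ := by
              rw [mul_pow]
              exact mul_le_mul_of_nonneg_right
                (pow_le_pow_right₀ (le_add_of_nonneg_right hq) (mem_Icc.1 hl).2) (by positivity)

lemma shift (hN : NSt) {k : ℕ} {κ y y' u : ℝ} (α : Ph) (h0 : 0 < κ) (h1 : κ ≤ 1) (hy : 0 < y)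
    (hy' : 0 < y') (hu : |Real.log y' - Real.log y| ≤ u) (hu1 : u ≤ 1) :
    nm k κ y' α ≤ (1 + 4 * u / κ) ^ k * nm k κ y α := by
  have h := hN.wn_add k κ (tc k y' α - tc k y α) (tc k y α) h0.le
  rw [sub_add_cancel] at h
  exact h.trans (both α h0 h1 hy hy' hu hu1)

lemma rigid {k : ℕ} {κ y c : ℝ} {z : ℕ → ℤ} (h0 : 0 < κ) (hy : 0 < y) (hc : 0 < c)
    (h1 : 1 ≤ κ * y * c) (h2 : nm k κ y (lat c z) < κ * y * c) : ∀ j ∈ Icc 1 k, z j = 0 := by
  by_contra hn
  have hne : {j ∈ Icc 1 k | z j ≠ 0}.Nonempty := by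
    push Not at hn
    obtain ⟨j, hj, h⟩ := hn
    exact ⟨j, mem_filter.2 ⟨hj, h⟩⟩
  obtain ⟨j, hj, hm⟩ := exists_max_image _ id hne
  obtain ⟨hj, hz⟩ := mem_filter.1 hj
  have e : tc k y (lat c z) j = (y * c) ^ j * z j := by
    rw [tc, sum_eq_single_of_mem j (mem_Icc.2 ⟨le_rfl, (mem_Icc.1 hj).2⟩)]
    · rw [Nat.choose_self, lat]
      ring
    · intro i hi hij
      have hi0 : z i = 0 := by
        by_contra h
        rw [mem_Icc] at hi hj
        exact hij (le_antisymm (hm i (mem_filter.2 ⟨mem_Icc.2 ⟨by omega, hi.2⟩, h⟩)) hi.1)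
      simp [lat, hi0]
  have h3 : κ ^ j * |tc k y (lat c z) j| ≤ nm k κ y (lat c z) :=
    single_le_sum (f := fun j => κ ^ j * |tc k y (lat c z) j|) (fun _ _ => by positivity) hj
  have h4 : (1 : ℝ) ≤ |(z j : ℝ)| := by exact_mod_cast Int.one_le_abs hz
  rw [e, abs_mul, abs_of_pos (by positivity), ← mul_assoc, ← mul_pow, ← mul_assoc] at h3
  refine absurd (h3.trans_lt h2) (not_lt.2 ?_)
  exact (le_self_pow₀ h1 (by have := (mem_Icc.1 hj).1; omega)).trans
    (le_mul_of_one_le_right (by positivity) h4)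

end N2J

open N2J

theorem st_N2 (hN : NSt) : N2St where
  shift := fun _ _ _ _ _ α => shift hN α
  shift' := fun k κ y y' u α h0 h1 hy hy' hu hu1 => by
    rw [sub_one_mul]
    exact le_sub_iff_add_le.2 (both α h0 h1 hy hy' hu hu1)
  cl_shift := fun k κ c y y' u ρ α h0 h1 hy hy' hu hu1 ⟨z, hz⟩ => by
    have : 0 ≤ u := (abs_nonneg _).trans hu
    exact ⟨z, (shift hN _ h0 h1 hy hy' hu hu1).trans
      (mul_le_mul_of_nonneg_left hz (by positivity))⟩
  coef := fun k κ y α h0 h1 hy j hj => by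
    have h := key k y 0 α j
    rw [sum_eq_single_of_mem j (mem_Icc.2 ⟨le_rfl, (mem_Icc.1 hj).2⟩) fun i hi hij => by
      rw [zero_pow (Nat.sub_ne_zero_of_lt ((mem_Icc.1 hi).1.lt_of_ne' hij)), zero_mul, zero_mul],
      Nat.sub_self, pow_zero, Nat.choose_self, Nat.cast_one, one_mul, one_mul] at h
    rw [← abs_of_pos (pow_pos hy j), ← abs_mul, h, nm, wn, mul_sum]
    refine (abs_sum_le_sum_abs _ _).trans ((sum_le_sum fun l hl => ?_).trans
      (sum_le_sum_of_subset_of_nonneg (Icc_subset_Icc_left (mem_Icc.1 hj).1)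
        fun _ _ _ => by positivity))
    rw [abs_mul, abs_mul, abs_pow, zero_sub, abs_neg, abs_one, one_pow, one_mul, Nat.abs_cast,
      ← mul_assoc]
    refine mul_le_mul_of_nonneg_right ?_ (abs_nonneg _)
    calc (l.choose j : ℝ) ≤ 2 ^ l := by exact_mod_cast Nat.choose_le_two_pow l j
      _ = (2 / κ) ^ l * κ ^ l := by rw [← mul_pow, div_mul_cancel₀ _ h0.ne']
      _ ≤ _ := mul_le_mul_of_nonneg_right (pow_le_pow_right₀
          ((one_le_div h0).2 (by linarith)) (mem_Icc.1 hl).2) (by positivity)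
  coef' := fun k κ y α h0 h1 hy => by
    rw [nm, wn, mul_sum]
    calc _ ≤ ∑ j ∈ Icc 1 k, ∑ l ∈ Icc j k,
          (1 : ℝ) ^ j * 1 ^ (l - j) * l.choose j * (|α l| * y ^ l) := by
          refine sum_le_sum fun j _ => (mul_le_of_le_one_left (abs_nonneg _)
            (pow_le_one₀ h0 h1)).trans ((abs_sum_le_sum_abs _ _).trans_eq
              (sum_congr rfl fun l _ => ?_))
          rw [abs_mul, abs_mul, Nat.abs_cast, abs_of_nonneg (pow_nonneg hy l), one_pow, one_pow,
            one_mul, one_mul]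
      _ ≤ _ := swap k zero_le_one zero_le_one fun _ => by positivity
      _ ≤ _ := sum_le_sum fun l hl => mul_le_mul_of_nonneg_right
          (one_add_one_eq_two (R := ℝ) ▸ pow_le_pow_right₀ (by norm_num) (mem_Icc.1 hl).2)
          (by positivity)
  rigid := fun _ _ _ _ _ => rigid
  one := fun k κ y R ρ α r s z z' hr hs hne h0 hy hR h1 h2 h3 h4 j hj => by
    have r0 : (0 : ℝ) < r := by exact_mod_cast hr.pos
    have s0 : (0 : ℝ) < s := by exact_mod_cast hs.pos
    have e : α - lat (R / s) z' - (α - lat (R / r) z) =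
        lat (R / (r * s)) fun j => (s : ℤ) ^ j * z j - (r : ℤ) ^ j * z' j := by
      funext i
      simp only [Pi.sub_apply, lat, div_pow, mul_pow]
      push_cast
      field_simp
      ring
    have h5 := hN.nm_sub k κ y (α - lat (R / s) z') (α - lat (R / r) z) h0.le
    rw [e] at h5
    rw [mul_div_assoc] at h3 h4
    have h6 := sub_eq_zero.1 (rigid h0 hy (by positivity) h4
      ((h5.trans (add_le_add h2 h1)).trans_lt (by rwa [← two_mul])) j hj)
    exact ((Nat.isCoprime_iff_coprime.2 ((Nat.coprime_primes hr hs).2 hne)).pow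
      (n := j)).dvd_of_dvd_mul_left ⟨_, h6⟩

end Pool.Agent.Lib.MP_028aa5_nt.T
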