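import Pool.Agent.Lib.MP_028aa5_nt.T.St2

/-! The Perron vector of a weighted multigraph. -/

namespace Pool.Agent.Lib.MP_028aa5_nt.T

open Finset
open scoped ComplexConjugate Classical

namespace PF

lemma sym (N : Net) (ν : ℝ) (E : Finset N.Ed) (u v : N.W → ℝ) : ∑ x, u x * N.opB ν E v x =
    ν * ∑ e ∈ E, (u (N.lo e) * v (N.up e) + u (N.up e) * v (N.lo e)) := by
  have k : ∀ (f : N.Ed → N.W) (h : N.Ed → ℝ),
      ∑ x, u x * ∑ e ∈ E with f e = x, h e = ∑ e ∈ E, u (f e) * h e := by
    intro f h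
    rw [← sum_fiberwise E f]
    refine sum_congr rfl fun x _ => ?_
    rw [mul_sum]
    exact sum_congr rfl fun e he => by rw [(mem_filter.1 he).2]
  rw [sum_add_distrib, ← k, ← k, ← sum_add_distrib, mul_sum]
  refine sum_congr rfl fun x _ => ?_
  unfold Net.opB
  ring

lemma lin_zero {b c : ℝ} (h : ∀ t : ℝ, 0 ≤ b * t + c * t ^ 2) : b = 0 := by
  have h1 := discrim_le_zero (a := c) (b := b) (c := 0) fun t => by
    have := h t
    nlinarith
  unfold discrim at h1
  nlinarith [sq_nonneg b]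

end PF

theorem st_PF : PFSt := by
  intro N ν E hν ⟨x₀⟩
  let S : Set (N.W → ℝ) := {u | ∑ x, u x ^ 2 = 1}
  have hSc : IsCompact S := by
    refine (isCompact_univ_pi fun _ : N.W => isCompact_Icc (a := (-1 : ℝ)) (b := 1)).of_isClosed_subset
      (isClosed_eq (by fun_prop) continuous_const) fun u hu x _ => ?_
    have h1 : u x ^ 2 ≤ 1 :=
      (single_le_sum (f := fun x => u x ^ 2) (fun _ _ => sq_nonneg _) (mem_univ x)).trans_eq hu
    exact abs_le.1 ((sq_le_one_iff_abs_le_one _).1 h1)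
  have hSn : S.Nonempty := ⟨Pi.single x₀ 1, by simp [S, Pi.single_apply]⟩
  have hQ : Continuous (N.Qf ν E) := by
    unfold Net.Qf
    fun_prop
  obtain ⟨w₀, hw₀, hmax⟩ := hSc.exists_isMaxOn hSn hQ.continuousOn
  have hle : ∀ u, N.Qf ν E u ≤ N.Qf ν E w₀ * ∑ x, u x ^ 2 := by
    intro u
    have h0 : 0 ≤ ∑ x, u x ^ 2 := by positivity
    rcases h0.eq_or_lt with h | h
    · have hu : ∀ x, u x = 0 := fun x => pow_eq_zero_iff (two_ne_zero) |>.1
        ((sum_eq_zero_iff_of_nonneg fun _ _ => sq_nonneg _).1 h.symm x (mem_univ x))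
      simp [Net.Qf, hu]
    · set r := √(∑ x, u x ^ 2) with hr
      have hr0 : 0 < r := Real.sqrt_pos.2 h
      have hr2 : r ^ 2 = ∑ x, u x ^ 2 := Real.sq_sqrt h0
      have h1 : (fun x => u x / r) ∈ S := by
        simp only [S, Set.mem_ofPred_eq, div_pow]
        rw [← sum_div, hr2, div_self h.ne']
      have h2 : N.Qf ν E (fun x => u x / r) ≤ N.Qf ν E w₀ := hmax h1
      have h3 : N.Qf ν E (fun x => u x / r) = N.Qf ν E u / r ^ 2 := by
        simp only [Net.Qf, div_mul_div_comm, ← sum_div, ← sq]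
        ring
      rwa [h3, div_le_iff₀ (by positivity), hr2] at h2
  set lam := N.Qf ν E w₀ with hlam
  let w : N.W → ℝ := fun x => |w₀ x|
  have hw1 : ∑ x, w x ^ 2 = 1 := by
    simp only [w, sq_abs]
    exact hw₀
  have hw2 : N.Qf ν E w = lam := by
    refine le_antisymm (by simpa [hw1] using hle w) ?_
    rw [hlam]
    unfold Net.Qf
    refine mul_le_mul_of_nonneg_left (sum_le_sum fun e _ => ?_) (by positivity)
    simp only [w, ← abs_mul]
    exact le_abs_self _
  refine ⟨w, lam, fun x => abs_nonneg _, hw1, fun x => ?_, hle⟩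
  let v : N.W → ℝ := Pi.single x 1
  have e1 : ∑ y, v y * N.opB ν E w y = N.opB ν E w x := by simp [v, Pi.single_apply]
  have e2 : ∑ y, v y * w y = w x := by simp [v, Pi.single_apply]
  have key := PF.lin_zero (b := 2 * (lam * w x - N.opB ν E w x))
    (c := lam * ∑ y, v y ^ 2 - N.Qf ν E v) fun t => by
      have h := hle fun y => w y + t * v y
      have a1 : ∑ y, (w y + t * v y) ^ 2 = 1 + 2 * t * w x + t ^ 2 * ∑ y, v y ^ 2 := by
        rw [← hw1, ← e2, mul_sum, mul_sum, ← sum_add_distrib, ← sum_add_distrib]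
        exact sum_congr rfl fun y _ => by ring
      have a2 : N.Qf ν E (fun y => w y + t * v y) =
          lam + 2 * t * N.opB ν E w x + t ^ 2 * N.Qf ν E v := by
        rw [← hw2, ← e1, PF.sym]
        simp only [Net.Qf, mul_sum, ← sum_add_distrib]
        exact sum_congr rfl fun e _ => by ring
      rw [a1, a2] at h
      nlinarith
  linarith

end Pool.Agent.Lib.MP_028aa5_nt.T
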