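import Pool.Agent.Lib.MP_028aa5_nt.T.St5

/-! Growth comparisons in the asymptotic regime. -/

namespace Pool.Agent.Lib.MP_028aa5_nt.T

open Finset Filter
open scoped ComplexConjugate Classical

namespace RegJ

lemma ev_pow (K a b : ℝ) (hab : a < b) : ∀ᶠ L : ℝ in atTop, K * L ^ a ≤ L ^ b := by
  have h := (tendsto_rpow_atTop (sub_pos.2 hab)).eventually_ge_atTop K
  filter_upwards [h, eventually_gt_atTop 0] with L h1 h2
  have e1 : L ^ b = L ^ (b - a) * L ^ a := by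
    rw [← Real.rpow_add h2]; congr 1; ring
  rw [e1]
  exact mul_le_mul_of_nonneg_right h1 (Real.rpow_nonneg h2.le _)

lemma ev_log (K a b : ℝ) (hab : a < b) :
    ∀ᶠ X : ℝ in atTop, K * Real.log X ^ a ≤ Real.log X ^ b :=
  Real.tendsto_log_atTop.eventually (ev_pow K a b hab)

lemma ev_poly (K c : ℝ) (d : ℕ) (hc : 0 < c) :
    ∀ᶠ y : ℝ in atTop, K * Real.log y ^ d ≤ y ^ c := by
  have h := (isLittleO_log_rpow_rpow_atTop (d : ℝ) hc).bound
    (show 0 < 1 / (|K| + 1) by positivity)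
  filter_upwards [h, eventually_ge_atTop 1] with y h1 h2
  have hl : 0 ≤ Real.log y := Real.log_nonneg h2
  rw [Real.rpow_natCast, Real.norm_of_nonneg (pow_nonneg hl _),
    Real.norm_of_nonneg (Real.rpow_nonneg (by linarith) _)] at h1
  have hK : 0 < |K| + 1 := by positivity
  have h3 : (|K| + 1) * Real.log y ^ d ≤ y ^ c := by
    have := mul_le_mul_of_nonneg_left h1 hK.le
    rwa [← mul_assoc, mul_one_div_cancel hK.ne', one_mul] at this
  refine le_trans (mul_le_mul_of_nonneg_right ?_ (pow_nonneg hl _)) h3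
  linarith [le_abs_self K]

lemma lo_log {π : Par} {X C D : ℝ} (h : Reg π X C D) (hL : 0 ≤ Real.log X) :
    Real.log X ^ (1 / 3 : ℝ) ≤ Real.log π.P := by
  have h1 : 300 * π.k * Real.log X ^ (1 / 3 : ℝ) ≤ Real.log π.P :=
    (Real.le_log_iff_exp_le (by linarith [h.ok.P])).2 h.lo
  have h2 : (1 : ℝ) ≤ π.k := by exact_mod_cast h.ok.k1
  have h3 : 0 ≤ Real.log X ^ (1 / 3 : ℝ) := Real.rpow_nonneg hL _
  refine le_trans ?_ h1
  exact le_mul_of_one_le_left h3 (by linarith)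

lemma hi_log {π : Par} {X C D : ℝ} (h : Reg π X C D) (hL : 0 ≤ Real.log X) :
    Real.log π.P ≤ |C| * Real.log X ^ (1 / 3 : ℝ) := by
  have h1 : Real.log π.P ≤ C * Real.log X ^ (1 / 3 : ℝ) :=
    (Real.log_le_iff_le_exp (by linarith [h.ok.P])).2 h.hi
  exact h1.trans (mul_le_mul_of_nonneg_right (le_abs_self C) (Real.rpow_nonneg hL _))

lemma card_le {π : Par} (h : π.Ok) : (#π.PP : ℝ) ≤ π.P + 1 := by
  have hP : 0 ≤ π.P := by linarith [h.P]
  have hs : π.PP ⊆ Ioc ⌊π.P⌋₊ ⌊2 * π.P⌋₊ := fun p hp => by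
    obtain ⟨_, h1, h2⟩ := h.pr p hp
    exact mem_Ioc.2 ⟨(Nat.floor_lt hP).2 h1, Nat.le_floor h2⟩
  have h1 : #π.PP ≤ ⌊2 * π.P⌋₊ - ⌊π.P⌋₊ := by
    simpa using card_le_card hs
  have h2 : ⌊π.P⌋₊ ≤ ⌊2 * π.P⌋₊ := Nat.floor_le_floor (by linarith)
  have h3 : (#π.PP : ℝ) ≤ (⌊2 * π.P⌋₊ : ℝ) - ⌊π.P⌋₊ := by
    rw [← Nat.cast_sub h2]; exact_mod_cast h1
  have h4 := Nat.floor_le (show 0 ≤ 2 * π.P by linarith)
  have h5 := Nat.lt_floor_add_one π.P
  linarith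

lemma cube (L : ℝ) (hL : 0 ≤ L) : (L ^ (1 / 3 : ℝ)) ^ 3 = L := by
  rw [← Real.rpow_natCast, ← Real.rpow_mul hL]; norm_num

lemma base (k : ℕ) (C D K : ℝ) (hD : 0 < D) : ∃ X0 : ℝ, ∀ X ≥ X0, ∀ π : Par, π.k = k →
    Reg π X C D → K ≤ X ∧ K ≤ Real.log X ∧ K ≤ Real.log π.P ∧ K ≤ π.P ∧
      Real.log X ≤ Real.log π.P ^ 3 ∧ K * Real.log π.P ≤ Real.log X ^ (1 / 2 : ℝ) ∧
      π.P ^ (9 / 10 : ℝ) ≤ #π.PP ∧ (#π.PP : ℝ) ≤ π.P + 1 ∧ K * Real.log X * π.κ ≤ 1 := by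
  obtain ⟨y0, hy0⟩ := eventually_atTop.1 (ev_poly D (1 / 10) 1 (by norm_num))
  refine eventually_atTop.1 ?_
  filter_upwards [eventually_ge_atTop K, eventually_ge_atTop 1,
    Real.tendsto_log_atTop.eventually_ge_atTop K, ev_log (max K y0) 0 (1 / 3) (by norm_num),
    ev_log (|K| * |C|) (1 / 3) (1 / 2) (by norm_num), ev_poly |K| (1 / 2) 1 (by norm_num)]
    with X h1 h2 h3 h4 h5 h6 π _ hR
  have hL : 0 ≤ Real.log X := Real.log_nonneg h2
  have hP := hR.ok.P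
  have hP0 : 0 < π.P := by linarith
  have hlP : 0 < Real.log π.P := Real.log_pos (by linarith)
  have a1 := lo_log hR hL
  have a2 := hi_log hR hL
  rw [Real.rpow_zero, mul_one] at h4
  have a3 : max K y0 ≤ Real.log π.P := h4.trans a1
  have a4 : Real.log π.P ≤ π.P := by linarith [Real.log_le_sub_one_of_pos hP0]
  refine ⟨h1, h3, (le_max_left _ _).trans a3, (le_max_left _ _).trans (a3.trans a4), ?_, ?_, ?_,
    card_le hR.ok, ?_⟩
  · rw [← cube _ hL]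
    exact pow_le_pow_left₀ (Real.rpow_nonneg hL _) a1 3
  · refine le_trans ?_ h5
    rw [mul_assoc]
    exact (mul_le_mul_of_nonneg_right (le_abs_self K) hlP.le).trans
      (mul_le_mul_of_nonneg_left a2 (abs_nonneg K))
  · refine le_trans ?_ hR.pp
    have b1 := hy0 π.P ((le_max_right _ _).trans (a3.trans a4))
    rw [pow_one] at b1
    rw [le_div_iff₀ (mul_pos hD hlP)]
    have e1 : π.P ^ (9 / 10 : ℝ) * π.P ^ (1 / 10 : ℝ) = π.P := by
      rw [← Real.rpow_add hP0]; norm_num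
    exact (mul_le_mul_of_nonneg_left b1 (Real.rpow_nonneg hP0.le _)).trans e1.le
  · have hX : 0 < X := by linarith
    have hκ : 0 ≤ π.κ := le_trans (by positivity) hR.κlo
    rw [pow_one] at h6
    have b1 : K * Real.log X ≤ X ^ (1 / 2 : ℝ) :=
      (mul_le_mul_of_nonneg_right (le_abs_self K) hL).trans h6
    have e1 : X ^ (1 / 2 : ℝ) * X ^ (-(1 / 2 : ℝ)) = 1 := by
      rw [← Real.rpow_add hX]; norm_num
    exact (mul_le_mul b1 hR.κhi hκ (Real.rpow_nonneg hX.le _)).trans e1.le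

lemma small (K c : ℝ) (hc : 0 < c) : ∃ X0 : ℝ, ∀ X ≥ X0,
    Real.exp (K * Real.log X ^ (3 / 4 : ℝ)) ≤ X ^ c := by
  refine eventually_atTop.1 ?_
  filter_upwards [ev_log (K / c) (3 / 4) 1 (by norm_num), eventually_gt_atTop 0] with X h1 h2
  rw [Real.rpow_def_of_pos h2, Real.exp_le_exp]
  rw [Real.rpow_one, div_mul_eq_mul_div, div_le_iff₀ hc] at h1
  exact h1

lemma pow_le {L K b : ℝ} {n : ℕ} (hL : 1 ≤ L) (hb0 : 0 ≤ b) (hb : b ≤ L ^ 2)
    (hn : (n : ℝ) ≤ K * L ^ (2 / 3 : ℝ)) (hK : 2 * K * Real.log L ≤ L ^ (1 / 12 : ℝ)) :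
    b ^ n ≤ Real.exp (L ^ (3 / 4 : ℝ)) := by
  have hL0 : 0 < L := by linarith
  have hl : 0 ≤ Real.log L := Real.log_nonneg hL
  have h1 : b ^ n ≤ (L ^ 2) ^ n := pow_le_pow_left₀ hb0 hb n
  have h2 : (L ^ 2) ^ n = Real.exp (n * (2 * Real.log L)) := by
    rw [Real.exp_nat_mul]
    congr 1
    rw [show (2 : ℝ) * Real.log L = ((2 : ℕ) : ℝ) * Real.log L by norm_num, Real.exp_nat_mul,
      Real.exp_log hL0]
  rw [h2] at h1
  refine h1.trans (Real.exp_le_exp.2 ?_)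
  have e1 : L ^ (3 / 4 : ℝ) = L ^ (1 / 12 : ℝ) * L ^ (2 / 3 : ℝ) := by
    rw [← Real.rpow_add hL0]; norm_num
  rw [e1]
  calc (n : ℝ) * (2 * Real.log L) ≤ K * L ^ (2 / 3 : ℝ) * (2 * Real.log L) :=
        mul_le_mul_of_nonneg_right hn (by positivity)
    _ = 2 * K * Real.log L * L ^ (2 / 3 : ℝ) := by ring
    _ ≤ _ := mul_le_mul_of_nonneg_right hK (Real.rpow_nonneg hL0.le _)

lemma fact (k : ℕ) (C D K : ℝ) (hD : 0 < D) (hK : 0 ≤ K) : ∃ X0 : ℝ, ∀ X ≥ X0, ∀ π : Par,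
    π.k = k → Reg π X C D → ∀ n : ℕ, n * Real.log π.P ≤ K * Real.log X →
      (K * (n + 1) * π.P / #π.PP) ^ n ≤ Real.exp (Real.log X ^ (3 / 4 : ℝ)) ∧
      (K * (n + 1) ^ 2) ^ n ≤ Real.exp (Real.log X ^ (3 / 4 : ℝ)) := by
  refine eventually_atTop.1 ?_
  filter_upwards [Real.tendsto_log_atTop.eventually_ge_atTop 1,
    Real.tendsto_log_atTop.eventually (ev_poly (2 * K) (1 / 12) 1 (by norm_num)),
    ev_log (K * (K + 1) * (D * |C|)) 1 2 (by norm_num),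
    ev_log (K * (K + 1) ^ 2) (4 / 3) 2 (by norm_num)] with X h1 h2 h3 h4 π _ hR n hn
  set L := Real.log X with hLdef
  have hL0 : 0 < L := by linarith
  have hP := hR.ok.P
  have hP0 : 0 < π.P := by linarith
  have hlP : 0 < Real.log π.P := Real.log_pos (by linarith)
  have a1 := lo_log hR hL0.le
  have a2 := hi_log hR hL0.le
  rw [← hLdef] at a1 a2
  rw [pow_one] at h2
  rw [Real.rpow_one, Real.rpow_two] at h3
  rw [Real.rpow_two] at h4
  have p1 : 0 < L ^ (1 / 3 : ℝ) := Real.rpow_pos_of_pos hL0 _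
  have p2 : 1 ≤ L ^ (2 / 3 : ℝ) := Real.one_le_rpow h1 (by norm_num)
  have e1 : L ^ (2 / 3 : ℝ) * L ^ (1 / 3 : ℝ) = L := by
    rw [← Real.rpow_add hL0]; norm_num
  have e2 : (L ^ (2 / 3 : ℝ)) ^ 2 = L ^ (4 / 3 : ℝ) := by
    rw [← Real.rpow_natCast, ← Real.rpow_mul hL0.le]; norm_num
  have hn0 : (0 : ℝ) ≤ n := Nat.cast_nonneg n
  have b1 : (n : ℝ) ≤ K * L ^ (2 / 3 : ℝ) := by
    refine le_of_mul_le_mul_right ?_ p1
    rw [mul_assoc, e1]
    exact (mul_le_mul_of_nonneg_left a1 hn0).trans hn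
  have b2 : (n : ℝ) + 1 ≤ (K + 1) * L ^ (2 / 3 : ℝ) := by
    rw [add_mul, one_mul]; exact add_le_add b1 p2
  have hc : (0 : ℝ) < #π.PP := by exact_mod_cast hR.ok.ne.card_pos
  have b3 : π.P / #π.PP ≤ D * |C| * L ^ (1 / 3 : ℝ) := by
    have c1 := hR.pp
    rw [div_le_iff₀ (mul_pos hD hlP)] at c1
    rw [div_le_iff₀ hc]
    refine c1.trans ?_
    rw [mul_comm, mul_assoc D |C|]
    exact mul_le_mul_of_nonneg_right (mul_le_mul_of_nonneg_left a2 hD.le) hc.le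
  refine ⟨pow_le h1 (by positivity) ?_ b1 h2, pow_le h1 (by positivity) ?_ b1 h2⟩
  · refine le_trans ?_ h3
    calc K * (n + 1) * π.P / #π.PP = K * (((n : ℝ) + 1) * (π.P / #π.PP)) := by ring
      _ ≤ K * ((K + 1) * L ^ (2 / 3 : ℝ) * (D * |C| * L ^ (1 / 3 : ℝ))) :=
        mul_le_mul_of_nonneg_left (mul_le_mul b2 b3 (by positivity) (by positivity)) hK
      _ = K * (K + 1) * (D * |C|) * (L ^ (2 / 3 : ℝ) * L ^ (1 / 3 : ℝ)) := by ring
      _ = _ := by rw [e1]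
  · refine le_trans ?_ h4
    calc K * ((n : ℝ) + 1) ^ 2 ≤ K * ((K + 1) * L ^ (2 / 3 : ℝ)) ^ 2 :=
        mul_le_mul_of_nonneg_left (pow_le_pow_left₀ (by positivity) b2 2) hK
      _ = K * (K + 1) ^ 2 * (L ^ (2 / 3 : ℝ)) ^ 2 := by ring
      _ = _ := by rw [e2]

end RegJ

theorem st_Reg : RegSt where
  base k C D K _ hD := RegJ.base k C D K hD
  poly K c d hc := eventually_atTop.1 (RegJ.ev_poly K c d hc)
  small := RegJ.small
  fact k C D K _ hD hK := RegJ.fact k C D K hD hK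

end Pool.Agent.Lib.MP_028aa5_nt.T
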