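import Pool.Agent.Lib.MP_028aa5_nt.T.St5

/-! The grid and the prime range at height `X`. -/

namespace Pool.Agent.Lib.MP_028aa5_nt.T

open Finset Filter
open scoped ComplexConjugate Classical

namespace Setup

theorem grid {X W s κ0 K : ℝ} {G M : ℕ} (hG : 1 ≤ G) (hs : s * s = X) (hs4 : 4 ≤ s) (hK : K ≤ s)
    (hW1 : 1 ≤ W) (hW : 8 * W ≤ s) (hGM : (G : ℝ) * M ≤ W) (h0 : 0 < κ0)
    (hκ0 : G * κ0 ≤ 1 / X) : ∃ Nf c0 Nc : ℕ, 1 ≤ Nf ∧ ∀ π : Par, π.G = G → π.Nf = Nf →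
      π.κ0 = κ0 → W ≤ π.κ * π.ps c0 ∧ π.κ * X ≤ 8 * W ∧ π.κ * K ≤ 1 ∧ π.κ ≤ s⁻¹ ∧
      X / 2 ≤ π.ps c0 ∧ π.ps c0 ≤ X ∧ 3 * X ≤ π.ps (c0 + Nc) ∧ π.ps (c0 + Nc) ≤ 4 * X ∧
      1 ≤ Nc * π.κ1 ∧ Nc * π.κ1 ≤ Real.log 4 ∧ (Nc : ℝ) * M ≤ X := by
  have hs0 : 0 < s := by linarith
  have hX : 1 ≤ X := by nlinarith
  have hX0 : 0 < X := by linarith
  have hG1 : (1 : ℝ) ≤ G := by exact_mod_cast hG
  have hGκ : 0 < G * κ0 := by positivity
  set Nf := ⌈2 * W / X / (G * κ0)⌉₊ with hNf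
  have hq : 0 < 2 * W / X / (G * κ0) := by positivity
  have n1 : 2 * W / X ≤ Nf * (G * κ0) := (div_le_iff₀ hGκ).1 (Nat.le_ceil _)
  have n2 : Nf * (G * κ0) ≤ 2 * W / X + G * κ0 := by
    have := mul_le_mul_of_nonneg_right (Nat.ceil_lt_add_one hq.le).le hGκ.le
    rwa [add_mul, div_mul_cancel₀ _ hGκ.ne', one_mul] at this
  have hNf1 : 1 ≤ Nf := Nat.ceil_pos.2 hq
  have hNf1' : (1 : ℝ) ≤ Nf := by exact_mod_cast hNf1
  generalize Nf = n at n1 n2 hNf1 hNf1'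
  set κ1 : ℝ := n * κ0 with hκ1
  have k0 : 0 < κ1 := by positivity
  have g1 : 2 * W / X ≤ G * κ1 := n1.trans_eq (by rw [hκ1]; ring)
  have g2 : G * κ1 ≤ 4 * W / X := by
    have a : 1 / X ≤ 2 * W / X := div_le_div_of_nonneg_right (by linarith) hX0.le
    have b : G * κ1 = n * (G * κ0) := by rw [hκ1]; ring
    have c : 4 * W / X = 2 * W / X + 2 * W / X := by ring
    linarith
  have g3 : 8 * W / X ≤ s⁻¹ := by
    rw [div_le_iff₀ hX0, ← hs, inv_mul_cancel_left₀ hs0.ne']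
    exact hW
  have g4 : s⁻¹ ≤ 1 / 4 := by
    rw [← one_div]
    exact one_div_le_one_div_of_le (by norm_num) hs4
  have g5 : 8 * W / X = 2 * (4 * W / X) := by ring
  have g6 : κ1 ≤ G * κ1 := le_mul_of_one_le_left k0.le hG1
  have k8 : κ1 ≤ 1 / 8 := by linarith
  have e1 : G * κ1 ≤ Real.exp (G * κ1) - 1 := by linarith [Real.add_one_le_exp (G * κ1)]
  have e2 : Real.exp (G * κ1) - 1 ≤ 8 * W / X := by
    have a : |(G : ℝ) * κ1| ≤ 1 := by
      rw [abs_of_nonneg (by positivity)]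
      linarith
    have b := (le_abs_self _).trans (Real.abs_exp_sub_one_le a)
    rw [abs_of_nonneg (by positivity)] at b
    linarith
  have hl : 0 ≤ Real.log X := Real.log_nonneg hX
  have l4 : Real.log 4 = 2 * Real.log 2 := by
    rw [show (4 : ℝ) = 2 ^ 2 by norm_num, Real.log_pow]
    norm_num
  have l2 := Real.log_two_gt_d9
  have l2' := Real.log_two_lt_d9
  have fl : ∀ y : ℝ, 0 ≤ y → ⌊y / κ1⌋₊ * κ1 ≤ y ∧ y - κ1 ≤ ⌊y / κ1⌋₊ * κ1 := fun y hy => by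
    refine ⟨(le_div_iff₀ k0).1 (Nat.floor_le (by positivity)), ?_⟩
    have := (div_lt_iff₀ k0).1 (Nat.lt_floor_add_one (y / κ1))
    linarith
  obtain ⟨c1, c2⟩ := fl _ hl
  obtain ⟨d1, d2⟩ := fl (Real.log 4) (by linarith)
  refine ⟨n, ⌊Real.log X / κ1⌋₊, ⌊Real.log 4 / κ1⌋₊, hNf1, fun π p1 p2 p3 => ?_⟩
  generalize ⌊Real.log X / κ1⌋₊ = c0 at c1 c2 ⊢
  generalize ⌊Real.log 4 / κ1⌋₊ = Nc at d1 d2 ⊢
  have q1 : π.κ1 = κ1 := by rw [Par.κ1, p2, p3]
  have q2 : π.κ = Real.exp (G * κ1) - 1 := by rw [Par.κ, q1, p1]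
  have q3 : ∀ c : ℕ, π.ps c = Real.exp (c * κ1) := fun c => by rw [Par.ps, q1]
  have lower : ∀ y t z : ℝ, 0 < y → Real.log y - t ≤ z → y * (1 - t) ≤ Real.exp z := by
    intro y t z hy h
    refine le_trans ?_ (Real.exp_le_exp.2 h)
    rw [sub_eq_add_neg (Real.log y), Real.exp_add, Real.exp_log hy]
    exact mul_le_mul_of_nonneg_left (by linarith [Real.add_one_le_exp (-t)]) hy.le
  have upper : ∀ y z : ℝ, 0 < y → z ≤ Real.log y → Real.exp z ≤ y := fun y z hy h =>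
    (Real.exp_le_exp.2 h).trans_eq (Real.exp_log hy)
  have l4X : Real.log (4 * X) = Real.log 4 + Real.log X := Real.log_mul (by norm_num) hX0.ne'
  have r1 : X / 2 ≤ Real.exp (c0 * κ1) := by
    have := lower X κ1 _ hX0 c2
    nlinarith
  have κ0' : 0 ≤ Real.exp (G * κ1) - 1 := by linarith [mul_pos (zero_lt_one.trans_le hG1) k0]
  rw [q1, q2, q3, q3]
  refine ⟨?_, (le_div_iff₀ hX0).1 e2, ?_, e2.trans g3, r1, upper _ _ hX0 c1, ?_, ?_, by linarith,
    d1, ?_⟩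
  · refine le_trans (le_of_eq ?_) (mul_le_mul (g1.trans e1) r1 (by positivity) κ0')
    field_simp
  · refine (mul_le_mul_of_nonneg_left hK κ0').trans ?_
    exact (mul_le_mul_of_nonneg_right (e2.trans g3) hs0.le).trans_eq (inv_mul_cancel₀ hs0.ne')
  · have := lower (4 * X) (2 * κ1) (((c0 + Nc : ℕ) : ℝ) * κ1) (by positivity) (by
      push_cast
      linarith)
    nlinarith
  · refine upper _ _ (by positivity) ?_
    push_cast
    linarith
  · have a : (Nc : ℝ) * (2 * W / X) ≤ 2 * G := by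
      refine (mul_le_mul_of_nonneg_left g1 (Nat.cast_nonneg _)).trans ?_
      rw [mul_left_comm, mul_comm 2]
      exact mul_le_mul_of_nonneg_left (by linarith) (by linarith)
    rw [← mul_div_assoc, div_le_iff₀ hX0] at a
    have b : (Nc : ℝ) * M * G ≤ X * G := by
      have := mul_le_mul_of_nonneg_left hGM (Nat.cast_nonneg (α := ℝ) Nc)
      linarith
    exact le_of_mul_le_mul_right b (by linarith)

theorem primes (hP : PrSt) (L : ℝ) : ∃ a : ℝ, 0 < a ∧ ∀ᶠ X : ℝ in atTop, ∃ i0 i1 : ℕ,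
    X ^ a ≤ (2 : ℝ) ^ i0 ∧ (2 : ℝ) ^ i1 ≤ X ^ (1 / 10 : ℝ) ∧ L ≤ LL (SS i0 i1) := by
  obtain ⟨j0, hj⟩ := hP.blk
  set b := Real.exp (8 * |L|) with hb
  have b1 : 1 ≤ b := Real.one_le_exp (by positivity)
  have l2 : 0 < Real.log 2 := Real.log_pos (by norm_num)
  have ht : Tendsto (fun X : ℝ => Real.log X / Real.log 2) atTop atTop :=
    Real.tendsto_log_atTop.atTop_div_const l2
  refine ⟨1 / (40 * b), by positivity, ?_⟩
  filter_upwards [ht.eventually_ge_atTop (40 * b * (j0 + 1)), eventually_gt_atTop (0 : ℝ)]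
    with X h1 hX
  have e1 : ∀ y : ℝ, X ^ y = (2 : ℝ) ^ (y * (Real.log X / Real.log 2)) := fun y => by
    rw [Real.rpow_def_of_pos hX, Real.rpow_def_of_pos (by norm_num : (0 : ℝ) < 2)]
    congr 1
    field_simp
  rw [e1, e1]
  generalize Real.log X / Real.log 2 = t at h1
  have j1 : (0 : ℝ) ≤ j0 := Nat.cast_nonneg _
  have t1 : 40 * b ≤ t := le_trans (le_mul_of_one_le_right (by positivity) (by linarith)) h1
  have t0 : 0 ≤ t := by linarith
  have a1 : (j0 : ℝ) + 1 ≤ 1 / (40 * b) * t := by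
    rw [one_div, le_inv_mul_iff₀ (by positivity)]
    exact h1
  have u1 := Nat.le_ceil (1 / (40 * b) * t)
  have u2 := (Nat.ceil_lt_add_one (show 0 ≤ 1 / (40 * b) * t by positivity)).le
  have v1 := Nat.floor_le (show 0 ≤ 1 / 10 * t by positivity)
  have v2 := (Nat.lt_floor_add_one (1 / 10 * t)).le
  refine ⟨⌈1 / (40 * b) * t⌉₊, ⌊1 / 10 * t⌋₊, ?_⟩
  generalize ⌈1 / (40 * b) * t⌉₊ = i0 at u1 u2 ⊢
  generalize ⌊1 / 10 * t⌋₊ = i1 at v1 v2 ⊢
  refine ⟨?_, ?_, ?_⟩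
  · rw [← Real.rpow_natCast]
    exact Real.rpow_le_rpow_of_exponent_le (by norm_num) u1
  · rw [← Real.rpow_natCast]
    exact Real.rpow_le_rpow_of_exponent_le (by norm_num) v1
  · have w0 : j0 + 1 ≤ i0 := by exact_mod_cast a1.trans u1
    have w1 : (0 : ℝ) < i0 := by linarith
    have w2 : b * i0 ≤ i1 := by
      have a := mul_le_mul_of_nonneg_left u2 (show 0 ≤ b by linarith)
      have c : b * (1 / (40 * b) * t + 1) = t / 40 + b := by field_simp
      linarith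
    have w3 : i0 ≤ i1 := by
      have : (i0 : ℝ) ≤ i1 := (le_mul_of_one_le_left w1.le b1).trans w2
      exact_mod_cast this
    have w4 : 8 * |L| ≤ Real.log (i1 / i0) := by
      rw [Real.le_log_iff_exp_le (div_pos (w1.trans_le (by exact_mod_cast w3)) w1),
        le_div_iff₀ w1]
      exact w2
    have w5 := (hP.harm i0 i1 (by omega) w3).1
    have w6 : ∑ j ∈ Ico i0 i1, 1 / (j : ℝ) ≤ 8 * LL (SS i0 i1) := by
      rw [LL, hP.sumR i0 i1 _ w3, Finset.mul_sum]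
      refine Finset.sum_le_sum fun j hj' => ?_
      have a := (hj j (by have := (Finset.mem_Ico.1 hj').1; omega)).1
      rw [LL] at a
      have c : 1 / (j : ℝ) = 8 * (1 / (8 * j)) := by ring
      linarith
    linarith [le_abs_self L]

end Setup

open Setup in
theorem st_Setup (hP : PrSt) : SetupSt := by
  intro L
  obtain ⟨a, ha, h1⟩ := primes hP L
  refine ⟨a, ha, fun k G M C1 K hG hC => ?_⟩
  have t1 : Tendsto (fun X : ℝ => Real.log X ^ (1 / 3 : ℝ)) atTop atTop :=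
    (tendsto_rpow_atTop (by norm_num)).comp Real.tendsto_log_atTop
  have t2 : Tendsto (fun X : ℝ => X ^ (1 / 2 : ℝ)) atTop atTop := tendsto_rpow_atTop (by norm_num)
  refine eventually_atTop.1 ?_
  filter_upwards [h1, t1.eventually_ge_atTop 1, t1.eventually_ge_atTop (4 * C1),
    t1.eventually_ge_atTop (G * M / C1), Real.tendsto_log_atTop.eventually_ge_atTop 28,
    t2.eventually_ge_atTop 4, t2.eventually_ge_atTop K, eventually_ge_atTop (1 : ℝ),
    eventually_ge_atTop (G : ℝ)] with X h1 r1 r2 r3 l1 s1 s2 x1 x2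
  obtain ⟨i0, i1, p1, p2, p3⟩ := h1
  have hX : 0 < X := by linarith
  have r4 : (Real.log X ^ (1 / 3 : ℝ)) ^ 3 = Real.log X := by
    rw [← Real.rpow_natCast, ← Real.rpow_mul (by linarith)]
    norm_num
  have s3 : X ^ (1 / 2 : ℝ) * X ^ (1 / 2 : ℝ) = X := by
    rw [← Real.rpow_add hX]
    norm_num
  have s4 : X ^ (1 / 2 : ℝ) = Real.exp (Real.log X / 4) * Real.exp (Real.log X / 4) := by
    rw [Real.rpow_def_of_pos hX, ← Real.exp_add]
    congr 1
    ring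
  generalize Real.log X ^ (1 / 3 : ℝ) = r at r1 r2 r3 r4 ⊢
  have w1 : C1 * r ≤ Real.log X / 4 := by
    have a : 4 * C1 * r ≤ r * r := mul_le_mul_of_nonneg_right r2 (by linarith)
    have b : r * r ≤ r * r * r := le_mul_of_one_le_right (by positivity) r1
    rw [← r4]
    linarith
  have w2 : 8 * Real.exp (C1 * r) ≤ X ^ (1 / 2 : ℝ) := by
    rw [s4]
    refine mul_le_mul ?_ (Real.exp_le_exp.2 w1) (by positivity) (by positivity)
    linarith [Real.add_one_le_exp (Real.log X / 4)]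
  have w3 : (G : ℝ) * M ≤ Real.exp (C1 * r) := by
    rw [div_le_iff₀ hC] at r3
    linarith [Real.add_one_le_exp (C1 * r)]
  have w4 : (G : ℝ) * X ^ (-(7 * k + 4 : ℝ)) ≤ 1 / X := by
    have a : X ^ (-(7 * k + 4 : ℝ)) ≤ X ^ (-2 : ℝ) :=
      Real.rpow_le_rpow_of_exponent_le x1 (by linarith [Nat.cast_nonneg (α := ℝ) k])
    have b : X ^ (-2 : ℝ) = 1 / (X * X) := by
      rw [Real.rpow_neg hX.le, Real.rpow_two, one_div, sq]
    refine (mul_le_mul x2 a (by positivity) hX.le).trans_eq ?_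
    rw [b]
    field_simp
  obtain ⟨Nf, c0, Nc, n1, n2⟩ := grid hG s3 s1 s2 (Real.one_le_exp (by positivity)) w2 w3
    (by positivity) w4
  refine ⟨Nf, c0, Nc, i0, i1, n1, p1, p2, p3, fun π _ q1 q2 q3 => ?_⟩
  rw [Real.rpow_neg hX.le]
  exact n2 π q1 q2 q3

end Pool.Agent.Lib.MP_028aa5_nt.T
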