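import Pool.Agent.Lib.MP_028aa5_nt.T.St3

/-! Few characters have a large eigenvalue. -/

namespace Pool.Agent.Lib.MP_028aa5_nt.T

open Finset
open scoped ComplexConjugate Classical

namespace Sparse

lemma moment (hC : ChSt) (N0 : ℕ) [NeZero N0] {ι : Type} (Λ : Finset ι) (L : ι → ℤ) (c : ι → ℂ)
    (hc : ∀ l, ‖c l‖ ≤ 1) :
    ∑ a : ZMod N0, ‖∑ l ∈ Λ, e (-(a.val * L l : ℝ) / N0) * c l‖ ^ 2 ≤
      N0 * ∑ l ∈ Λ, (#{l' ∈ Λ | (N0 : ℤ) ∣ L l' - L l} : ℝ) := by
  have h1 : ((∑ a : ZMod N0, ‖∑ l ∈ Λ, e (-(a.val * L l : ℝ) / N0) * c l‖ ^ 2 : ℝ) : ℂ) =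
      ∑ l ∈ Λ, ∑ l' ∈ Λ, c l * conj (c l') *
        if (N0 : ℤ) ∣ L l' - L l then (N0 : ℂ) else 0 := by
    push_cast
    simp only [← Complex.mul_conj', map_sum, sum_mul_sum]
    simp only [← hC.sum, mul_sum]
    rw [sum_comm]
    refine sum_congr rfl fun l _ => ?_
    rw [sum_comm]
    refine sum_congr rfl fun l' _ => sum_congr rfl fun a _ => ?_
    rw [map_mul, mul_mul_mul_comm, e_mul_conj, mul_comm]
    congr 2
    push_cast
    ring
  have h2 := congrArg norm h1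
  rw [Complex.norm_real, Real.norm_of_nonneg (by positivity)] at h2
  rw [h2, mul_sum]
  refine (norm_sum_le _ _).trans (sum_le_sum fun l _ => (norm_sum_le _ _).trans ?_)
  rw [card_filter, Nat.cast_sum, mul_sum]
  refine sum_le_sum fun l' _ => ?_
  split_ifs
  · rw [norm_mul, norm_mul, Complex.norm_conj, Complex.norm_natCast]
    have := mul_le_one₀ (hc l) (norm_nonneg (c l')) (hc l')
    have h0 : (0 : ℝ) ≤ N0 := Nat.cast_nonneg _
    push_cast
    nlinarith
  · simp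

lemma e_sum {ι : Type} (s : Finset ι) (x : ι → ℝ) : e (∑ i ∈ s, x i) = ∏ i ∈ s, e (x i) := by
  induction s using Finset.induction_on with
  | empty => simp
  | insert a s ha ih => rw [sum_insert ha, prod_insert ha, e_add, ih]

/-- the sum of the rounded logarithms -/
noncomputable def Lg (π : Par) {n : ℕ} (l : Fin n → ℕ) : ℤ := ∑ i, (π.lg (l i) : ℤ)

lemma mul_pow_eq (π : Par) (N0 q n : ℕ) (ξ : ZMod N0 × DirichletCharacter ℂ q) :
    mul π N0 q ξ ^ n = ((#π.PP : ℂ)⁻¹) ^ n * ∑ l ∈ Fintype.piFinset fun _ : Fin n => π.PP,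
      e (-(ξ.1.val * Lg π l : ℝ) / N0) * ∏ i, ξ.2 (l i) := by
  rw [mul, mul_pow, sum_pow']
  congr 1
  refine sum_congr rfl fun l _ => ?_
  rw [prod_mul_distrib, ← e_sum]
  congr 2
  simp only [Lg, Int.cast_sum, Int.cast_natCast, mul_sum, ← sum_neg_distrib, sum_div]

lemma log_bd (hB : BasSt) {π : Par} (h : π.Ok) {n : ℕ} {l : Fin n → ℕ}
    (hl : l ∈ Fintype.piFinset fun _ : Fin n => π.PP) :
    Real.log (∏ i, l i : ℕ) ≤ Lg π l * π.κ0 ∧
      Lg π l * π.κ0 ≤ Real.log (∏ i, l i : ℕ) + n * π.κ0 := by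
  have hp : ∀ i, 0 < l i := fun i => (h.pr _ (Fintype.mem_piFinset.1 hl i)).1.pos
  rw [Nat.cast_prod, Real.log_prod fun i _ => by exact_mod_cast (hp i).ne']
  simp only [Lg, Int.cast_sum, Int.cast_natCast, sum_mul]
  refine ⟨sum_le_sum fun i _ => (hB.lg π _ h (hp i)).1, ?_⟩
  refine (sum_le_sum fun i _ => (hB.lg π _ h (hp i)).2.le).trans (le_of_eq ?_)
  simp [sum_add_distrib]

lemma diff_bd (hB : BasSt) {π : Par} (h : π.Ok) {n : ℕ} {l l' : Fin n → ℕ}
    (hl : l ∈ Fintype.piFinset fun _ : Fin n => π.PP)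
    (hl' : l' ∈ Fintype.piFinset fun _ : Fin n => π.PP) :
    ((Lg π l' : ℝ) - Lg π l) * π.κ0 ≤ 2 * n := by
  have hκ : π.κ0 ≤ 1 := (hB.κ0_le π h).trans ((hB.κ1_le π h).trans h.κ)
  simp only [Lg, Int.cast_sum, Int.cast_natCast, ← sum_sub_distrib, sum_mul]
  refine (sum_le_card_nsmul _ _ 2 fun i _ => ?_).trans (le_of_eq (by simp [mul_comm]))
  obtain ⟨a1, a2, -⟩ := h.pr _ (Fintype.mem_piFinset.1 hl i)
  obtain ⟨b1, -, b3⟩ := h.pr _ (Fintype.mem_piFinset.1 hl' i)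
  have c1 := (hB.lg π _ h a1.pos).1
  have c2 := (hB.lg π _ h b1.pos).2
  have a0 : (0 : ℝ) < l i := by exact_mod_cast a1.pos
  have b0 : (0 : ℝ) < l' i := by exact_mod_cast b1.pos
  have c3 : Real.log (l' i) ≤ Real.log 2 + Real.log (l i) := by
    rw [← Real.log_mul two_ne_zero a0.ne']
    exact Real.log_le_log b0 (by linarith)
  have c4 := Real.log_two_lt_d9
  nlinarith

lemma prod_le (hB : BasSt) {π : Par} (h : π.Ok) {n : ℕ}
    (hn : 2 * n * π.κ0 * (2 * π.P) ^ n < 1) {l l' : Fin n → ℕ}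
    (hl : l ∈ Fintype.piFinset fun _ : Fin n => π.PP)
    (hl' : l' ∈ Fintype.piFinset fun _ : Fin n => π.PP) (hL : Lg π l' = Lg π l) :
    ∏ i, l' i ≤ ∏ i, l i := by
  by_contra hlt
  have a1 := (log_bd hB h hl').1
  have a2 := (log_bd hB h hl).2
  have hb : ((∏ i, l' i : ℕ) : ℝ) ≤ (2 * π.P) ^ n := by
    rw [Nat.cast_prod]
    refine (prod_le_prod (g := fun _ => 2 * π.P) (fun i _ => Nat.cast_nonneg _) fun i _ =>
      (h.pr _ (Fintype.mem_piFinset.1 hl' i)).2.2).trans (le_of_eq (by simp))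
  have h0 : 0 < ∏ i, l i := prod_pos fun i _ => (h.pr _ (Fintype.mem_piFinset.1 hl i)).1.pos
  generalize ∏ i, l i = b at *
  generalize ∏ i, l' i = b' at *
  have c0 : (0 : ℝ) < b := by exact_mod_cast h0
  have c1 : (b : ℝ) + 1 ≤ b' := by exact_mod_cast not_le.1 hlt
  have c2 : (0 : ℝ) < b' := by linarith
  have c3 := Real.log_le_sub_one_of_pos (div_pos c0 c2)
  rw [Real.log_div c0.ne' c2.ne'] at c3
  have c4 : (b : ℝ) / b' ≤ 1 - 1 / b' := by
    rw [le_sub_iff_add_le, ← add_div, div_le_one c2]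
    exact c1
  have c5 : 1 / (b' : ℝ) ≤ n * π.κ0 := by
    rw [hL] at a1
    linarith
  rw [div_le_iff₀ c2] at c5
  have c6 : 0 ≤ n * π.κ0 := mul_nonneg (Nat.cast_nonneg n) h.κ0.le
  have c7 := mul_le_mul_of_nonneg_left hb c6
  nlinarith

lemma count (hA : AbSt) (hB : BasSt) {π : Par} (h : π.Ok) {N0 n : ℕ} (hN : 8 ≤ N0 * π.κ0)
    (hn : 2 * n * π.κ0 * (2 * π.P) ^ n < 1) {l : Fin n → ℕ}
    (hl : l ∈ Fintype.piFinset fun _ : Fin n => π.PP) :
    (#{l' ∈ Fintype.piFinset fun _ : Fin n => π.PP | (N0 : ℤ) ∣ Lg π l' - Lg π l} : ℝ) ≤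
      (2 * n + 1) * n.factorial := by
  have hκ := h.κ0
  have hn0 : (0 : ℝ) ≤ n := Nat.cast_nonneg n
  refine (card_le_fibers _ (Icc (-(n : ℤ)) n) (fun l' => (Lg π l' - Lg π l) / N0)
    (L := n.factorial) (fun l' hl' => ?_) fun b _ => ?_).trans (le_of_eq ?_)
  · obtain ⟨h1, i, hi⟩ := mem_filter.1 hl'
    have hN0 : (N0 : ℤ) ≠ 0 := by
      intro h0
      have : (N0 : ℝ) = 0 := by exact_mod_cast h0
      rw [this] at hN
      linarith
    rw [hi, Int.mul_ediv_cancel_left _ hN0, mem_Icc]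
    have hi' : (Lg π l' : ℝ) - Lg π l = N0 * i := by exact_mod_cast hi
    have a1 := diff_bd hB h hl h1
    have a2 := diff_bd hB h h1 hl
    rw [← neg_sub, hi'] at a2
    rw [hi'] at a1
    constructor
    · have : -(n : ℝ) ≤ i := by
        by_contra hc
        nlinarith
      exact_mod_cast this
    · have : (i : ℝ) ≤ n := by
        by_contra hc
        nlinarith
      exact_mod_cast this
  · rcases eq_empty_or_nonempty {a ∈ {l' ∈ Fintype.piFinset fun _ : Fin n => π.PP |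
        (N0 : ℤ) ∣ Lg π l' - Lg π l} | (Lg π a - Lg π l) / N0 = b} with h0 | ⟨l0, h0⟩
    · rw [h0]
      simp
    · have key := hA.prod_fib π.PP n (∏ i, l0 i) fun p hp => (h.pr p hp).1
      have sub := card_le_card (s := {a ∈ {l' ∈ Fintype.piFinset fun _ : Fin n => π.PP |
        (N0 : ℤ) ∣ Lg π l' - Lg π l} | (Lg π a - Lg π l) / N0 = b})
        (t := {l ∈ Fintype.piFinset fun _ : Fin n => π.PP | ∏ i, l i = ∏ i, l0 i}) (by
          intro a ha
          simp only [mem_filter] at ha h0 ⊢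
          have e1 := Int.mul_ediv_cancel' ha.1.2
          have e2 := Int.mul_ediv_cancel' h0.1.2
          rw [ha.2] at e1
          rw [h0.2] at e2
          have e3 : Lg π a = Lg π l0 := by omega
          exact ⟨ha.1.1, le_antisymm (prod_le hB h hn h0.1.1 ha.1.1 e3)
            (prod_le hB h hn ha.1.1 h0.1.1 e3.symm)⟩)
      exact_mod_cast sub.trans key
  · rw [Int.card_Icc, show (n : ℤ) + 1 - -(n : ℤ) = ((2 * n + 1 : ℕ) : ℤ) by push_cast; ring,
      Int.toNat_natCast]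
    push_cast
    ring

end Sparse

open Sparse

theorem st_Sparse (hC : ChSt) (hA : AbSt) (hB : BasSt) : SparseSt := by
  intro π N0 q n _ _ h hN hn
  have hP : (0 : ℝ) < #π.PP := by exact_mod_cast h.ne.card_pos
  have h1 : (#{ξ | 1 / 2 ≤ ‖mul π N0 q ξ‖} : ℝ) ≤ 4 ^ n * ∑ ξ, ‖mul π N0 q ξ ^ n‖ ^ 2 := by
    rw [card_filter, Nat.cast_sum, mul_sum]
    refine sum_le_sum fun ξ _ => ?_
    split_ifs with hξ
    · rw [norm_pow, ← pow_mul, mul_comm n 2, pow_mul, ← mul_pow, Nat.cast_one]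
      exact one_le_pow₀ (by nlinarith)
    · rw [Nat.cast_zero]
      positivity
  have h2 : ∀ χ : DirichletCharacter ℂ q, ∑ a : ZMod N0, ‖mul π N0 q (a, χ) ^ n‖ ^ 2 ≤
      N0 * ((2 * n + 1) * n.factorial) / #π.PP ^ n := by
    intro χ
    have a1 := moment hC N0 (Fintype.piFinset fun _ : Fin n => π.PP) (Lg π)
      (fun l => ∏ i, χ (l i)) fun l => by
        rw [norm_prod]
        exact prod_le_one (fun i _ => norm_nonneg _) fun i _ => χ.norm_le_one _
    have a2 := sum_le_card_nsmul _ _ _ fun l hl => count hA hB h hN hn (l := l) hl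
    rw [Fintype.card_piFinset, prod_const, card_univ, Fintype.card_fin, nsmul_eq_mul,
      Nat.cast_pow] at a2
    simp only [mul_pow_eq, norm_mul, mul_pow, ← mul_sum, norm_pow, norm_inv,
      Complex.norm_natCast]
    have a3 := a1.trans (mul_le_mul_of_nonneg_left a2 (Nat.cast_nonneg N0))
    refine (mul_le_mul_of_nonneg_left a3 (by positivity)).trans (le_of_eq ?_)
    rw [inv_pow]
    field_simp
  have h3 : (Fintype.card (DirichletCharacter ℂ q) : ℝ) ≤ q := by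
    rw [← Nat.card_eq_fintype_card, DirichletCharacter.card_eq_totient_of_hasEnoughRootsOfUnity]
    exact_mod_cast Nat.totient_le q
  refine h1.trans ?_
  rw [Fintype.sum_prod_type_right]
  have h4 := sum_le_card_nsmul univ _ _ fun χ _ => h2 χ
  rw [card_univ, nsmul_eq_mul] at h4
  refine (mul_le_mul_of_nonneg_left (h4.trans (mul_le_mul_of_nonneg_right h3 (by positivity)))
    (by positivity)).trans (le_of_eq ?_)
  ring

end Pool.Agent.Lib.MP_028aa5_nt.T
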