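import Pool.Agent.Lib.MP_028aa5_nt.T.St5

/-! The large spectrum is sparse in the asymptotic regime. -/

namespace Pool.Agent.Lib.MP_028aa5_nt.T

open Finset
open scoped ComplexConjugate Classical

namespace SparseXJ

/-- choice of the length of the products -/
lemma len {A L s P : ℝ} (hA : 1 ≤ A) (hL : 72 * A ≤ L) (hs : s ^ 2 = L) (hs0 : 0 ≤ s) (hP : 2 ≤ P) :
    ∃ n : ℕ, n * Real.log P ≤ A * L ∧ 2 * n + 1 ≤ Real.exp s ∧
      (2 * P) ^ n * Real.exp s ≤ Real.exp (A * L) ∧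
      Real.exp (A * L) ≤ (2 * P) ^ (n + 1) * Real.exp s := by
  have h1 : 1 ≤ Real.log (2 * P) := by
    rw [Real.le_log_iff_exp_le (by linarith)]
    linarith [Real.exp_one_lt_d9]
  have h2 : s ≤ A * L := by
    have : L ≤ A * L := le_mul_of_one_le_left (by linarith) hA
    nlinarith [sq_nonneg (s - 1)]
  have h3 := (le_div_iff₀ (by linarith)).1
    (Nat.floor_le (div_nonneg (sub_nonneg.2 h2) (zero_le_one.trans h1)))
  have h4 := (div_lt_iff₀ (by linarith)).1 (Nat.lt_floor_add_one ((A * L - s) / Real.log (2 * P)))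
  generalize ⌊(A * L - s) / Real.log (2 * P)⌋₊ = n at h3 h4
  have h5 : ∀ m : ℕ, (2 * P) ^ m * Real.exp s = Real.exp (m * Real.log (2 * P) + s) := fun m => by
    rw [Real.exp_add, Real.exp_nat_mul, Real.exp_log (by linarith)]
  have n0 : (0 : ℝ) ≤ n := n.cast_nonneg
  refine ⟨n, ?_, ?_, ?_, ?_⟩
  · have := mul_le_mul_of_nonneg_left (Real.log_le_log (by linarith) (by linarith : P ≤ 2 * P)) n0
    linarith
  · have h6 := Real.pow_div_factorial_le_exp s hs0 4
    have h7 : (n : ℝ) ≤ A * L := by nlinarith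
    rw [show s ^ 4 = (s ^ 2) ^ 2 by ring, hs, show ((Nat.factorial 4 : ℕ) : ℝ) = 24 by
      norm_num [Nat.factorial]] at h6
    nlinarith
  · rw [h5, Real.exp_le_exp]
    linarith
  · rw [h5, Real.exp_le_exp, Nat.cast_succ]
    linarith

end SparseXJ

theorem st_SparseX (hR : RegSt) (hS : SparseSt) : SparseXSt := by
  intro k C D c hk hD hc
  obtain ⟨X1, h1⟩ := hR.base k C D (72 * (7 * k + 4)) hk hD
  obtain ⟨X2, h2⟩ := hR.small 4 (c / 4) (by positivity)
  obtain ⟨X3, h3⟩ := hR.fact k C D (7 * k + 4) hk hD (by positivity)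
  refine ⟨max X1 (max X2 X3), fun X hX π N0 q _ _ pk reg n8 n9 hq => ?_⟩
  obtain ⟨b1, b2, -, b4, -, b6, -⟩ := h1 X (le_of_max_le_left hX) π pk reg
  replace h2 := h2 X (le_of_max_le_left (le_of_max_le_right hX))
  replace h3 := h3 X (le_of_max_le_right (le_of_max_le_right hX)) π pk reg
  have hκ := reg.κ0
  have hA : (11 : ℝ) ≤ 7 * k + 4 := by
    have : (1 : ℝ) ≤ k := by exact_mod_cast hk
    linarith
  rw [pk] at hκ
  generalize (7 * k + 4 : ℝ) = A at *
  have X0 : 0 < X := by linarith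
  have hP := reg.ok.P
  have hm : (0 : ℝ) < #π.PP := by exact_mod_cast reg.ok.ne.card_pos
  rw [Real.rpow_def_of_pos X0, mul_neg, mul_comm, Real.exp_neg] at hκ
  have hst : Real.log X ^ (1 / 2 : ℝ) ≤ Real.log X ^ (3 / 4 : ℝ) :=
    Real.rpow_le_rpow_of_exponent_le (by linarith) (by norm_num)
  obtain ⟨n, n1, n2, n3, n4⟩ := SparseXJ.len (A := A) (s := Real.log X ^ (1 / 2 : ℝ)) (by linarith)
    b2 (by rw [← Real.rpow_natCast, ← Real.rpow_mul (by linarith)]; norm_num)
    (Real.rpow_nonneg (by linarith) _) hP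
  replace h3 := (h3 n n1).1
  generalize Real.log X ^ (1 / 2 : ℝ) = s at *
  generalize Real.log X ^ (3 / 4 : ℝ) = t at *
  have e0 := Real.exp_pos (A * Real.log X)
  have h4 := hS π N0 q n reg.ok n8 (by
    rw [hκ, mul_right_comm, ← div_eq_mul_inv, div_lt_one e0]
    refine lt_of_lt_of_le ?_ n3
    rw [mul_comm]
    exact mul_lt_mul_of_pos_left (by linarith) (by positivity))
  have h5 : (N0 : ℝ) ≤ 9 * ((2 * π.P) ^ (n + 1) * Real.exp s) := by
    rw [hκ, ← div_eq_mul_inv, div_le_iff₀ e0] at n9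
    linarith
  have h6 : 18 * π.P ≤ Real.exp s := by
    have l0 : 0 ≤ Real.log π.P := Real.log_nonneg (by linarith)
    calc 18 * π.P ≤ π.P ^ 2 := by nlinarith
      _ = Real.exp (2 * Real.log π.P) := by
        rw [two_mul, Real.exp_add, Real.exp_log (by linarith), pow_two]
      _ ≤ _ := Real.exp_le_exp.2 (by nlinarith)
  have h7 : (n.factorial : ℝ) ≤ (n + 1) ^ n := by
    exact_mod_cast n.factorial_le_pow.trans (Nat.pow_le_pow_left n.le_succ n)
  have h8 : (#{ξ | 1 / 2 ≤ ‖mul π N0 q ξ‖} : ℝ) ≤ X ^ (c / 4) * X ^ (c / 4) :=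
    calc _ ≤ _ := h4
      _ ≤ 4 ^ n * (9 * ((2 * π.P) ^ (n + 1) * Real.exp s)) * X ^ (c / 4) * Real.exp s *
            (n + 1) ^ n / #π.PP ^ n := by gcongr
      _ = 18 * π.P * Real.exp s * Real.exp s * (8 * (n + 1) * π.P / #π.PP) ^ n * X ^ (c / 4) := by
          rw [div_pow, show (8 : ℝ) * (n + 1) * π.P = 4 * (2 * π.P) * (n + 1) by ring,
            mul_pow (4 * (2 * π.P)), mul_pow 4, pow_succ]
          generalize (2 * π.P) ^ n = v
          generalize ((n : ℝ) + 1) ^ n = w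
          ring
      _ ≤ Real.exp s * Real.exp s * Real.exp s * (A * (n + 1) * π.P / #π.PP) ^ n * X ^ (c / 4) := by
          gcongr
          linarith
      _ ≤ Real.exp t * Real.exp t * Real.exp t * Real.exp t * X ^ (c / 4) := by gcongr
      _ ≤ _ := by
          rw [← Real.exp_add, ← Real.exp_add, ← Real.exp_add, show t + t + t + t = 4 * t by ring]
          gcongr
  calc (#(spec π N0 q) : ℝ) ≤ #{ξ | 1 / 2 ≤ ‖mul π N0 q ξ‖} * #{ξ | 1 / 2 ≤ ‖mul π N0 q ξ‖} := by
        exact_mod_cast card_image₂_le _ _ _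
    _ ≤ X ^ (c / 4) * X ^ (c / 4) * (X ^ (c / 4) * X ^ (c / 4)) := by gcongr
    _ = _ := by
        rw [← Real.rpow_add X0, ← Real.rpow_add X0]
        congr 1
        ring

end Pool.Agent.Lib.MP_028aa5_nt.T
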