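import Pool.Agent.Lib.MP_028aa5_nt.T.St2

/-! The sources of digits. -/

namespace Pool.Agent.Lib.MP_028aa5_nt.T

open Finset
open scoped ComplexConjugate Classical

namespace Src

theorem sum_src (π : Par) (N : Net) (E : Finset N.Ed) (w : N.W → ℝ) (zf : N.Ed → ℕ → ℤ) (r : ℕ)
    (x : N.W) : ∑ d, src π N E w zf r x d =
      w x * #{e ∈ E | N.pr e = r ∧ N.lo e = x ∧ w x ≤ 2 * w (N.up e)} / π.Nf := by
  unfold src
  rw [← sum_div, ← mul_sum]
  congr 2
  simp only [card_filter]
  push_cast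
  rw [sum_comm]
  refine sum_congr rfl fun e _ => ?_
  simp only [ite_and, sum_ite_irrel, sum_ite_eq', mem_univ, if_true, sum_const_zero]

theorem half (hB : BasSt) (π : Par) (N : Net) (E : Finset N.Ed) (w : N.W → ℝ) (lam : ℝ)
    (hI : N.Is π E) (he : ∀ x, N.opB π.ν E w x = lam * w x) (b : Bool) :
    lam * ∑ x with N.isU x = b, w x ^ 2 = π.ν * ∑ e ∈ E, w (N.up e) * w (N.lo e) := by
  have h := hB.sym N π.ν E (fun x => if N.isU x = b then w x else 0) w
  rw [sum_filter, mul_sum]
  refine Eq.trans (sum_congr rfl fun x _ => ?_) (h.trans (congrArg _ (sum_congr rfl fun e h => ?_)))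
  · rw [he]
    split_ifs <;> ring
  · rw [hI.up e h, hI.lo e h]
    cases b <;> simp [mul_comm]

end Src

open Src in
theorem st_Src (hB : BasSt) : SrcSt := by
  intro π N E w zf lam ε ok hI hw h1 he hl hε
  have nf : (0 : ℝ) < π.Nf := by exact_mod_cast ok.Nf
  have pp : (0 : ℝ) < #π.PP := by exact_mod_cast ok.ne.card_pos
  have ν0 := hB.ν_pos π ok
  have a := half hB π N E w lam hI he true
  have b := half hB π N E w lam hI he false
  have ab : ∑ x with N.isU x = true, w x ^ 2 + ∑ x with N.isU x = false, w x ^ 2 = 1 := by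
    rw [← h1, sum_filter, sum_filter, ← sum_add_distrib]
    refine sum_congr rfl fun x _ => ?_
    cases N.isU x <;> simp
  have l0 : 0 < lam := by linarith
  have ab' := mul_left_cancel₀ l0.ne' (a.trans b.symm)
  have a2 : ∑ x with N.isU x = true, w x ^ 2 = 1 / 2 := by linarith
  have b2 : ∑ x with N.isU x = false, w x ^ 2 = 1 / 2 := by linarith
  rw [a2] at a
  have s2 : ∀ r x, ∑ d, src π N E w zf r x d ≤ w x := by
    intro r x
    rw [sum_src, div_le_iff₀ nf]
    refine mul_le_mul_of_nonneg_left ?_ (hw x)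
    have := hB.cntL π N E ok hI x r
    refine Nat.cast_le.2 (le_trans (card_le_card fun e h => ?_) this)
    exact mem_filter.2 ⟨(mem_filter.1 h).1, (mem_filter.1 h).2.1, (mem_filter.1 h).2.2.1⟩
  have s3 : ∀ r x d, N.isU x = true → src π N E w zf r x d = 0 := by
    intro r x d h
    rw [src, filter_false_of_mem, card_empty, Nat.cast_zero, mul_zero, zero_div]
    rintro e k ⟨-, rfl, -⟩
    exact absurd (h.symm.trans (hI.lo e k)) (by decide)
  refine ⟨fun r x d => div_nonneg (mul_nonneg (hw x) (Nat.cast_nonneg _)) nf.le, s2, s3,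
    fun r => ?_, ?_, fun r => ?_⟩
  · rw [← b2, sum_filter]
    refine sum_le_sum fun x _ => ?_
    cases h : N.isU x
    · rw [if_pos rfl, sq]
      exact mul_le_mul_of_nonneg_left (s2 r x) (hw x)
    · simp [s3 r x _ h]
  · have e1 : ∑ r ∈ π.PP, ∑ x, w x * ∑ d, src π N E w zf r x d = #π.PP * (π.ν *
        ∑ e ∈ E, if w (N.lo e) ≤ 2 * w (N.up e) then w (N.lo e) ^ 2 else 0) := by
      have q : ∀ r x, w x * ∑ d, src π N E w zf r x d = ∑ e ∈ E, if N.pr e = r then
          if N.lo e = x then if w x ≤ 2 * w (N.up e) then w x ^ 2 / π.Nf else 0 else 0 else 0 := by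
        intro r x
        rw [sum_src, card_filter]
        push_cast
        rw [mul_sum, sum_div, mul_sum]
        refine sum_congr rfl fun e _ => ?_
        simp only [ite_and]
        split_ifs <;> ring
      simp only [q]
      rw [sum_congr rfl fun r _ => sum_comm, sum_comm, mul_sum, mul_sum]
      refine sum_congr rfl fun e h => ?_
      simp only [sum_ite_irrel, sum_ite_eq, mem_univ, if_true, sum_const_zero, hI.pr e h, Par.ν]
      split_ifs
      · field_simp
      · simp
    rw [e1, mul_comm]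
    refine mul_le_mul_of_nonneg_left ?_ pp.le
    have u := hB.sumU π N E π.PP (fun x => w x ^ 2) ok hI fun x => sq_nonneg _
    have v := hB.sumL π N E π.PP (fun x => w x ^ 2) ok hI fun x => sq_nonneg _
    rw [filter_true_of_mem hI.pr, div_self pp.ne', one_mul] at u v
    rw [a2] at u
    rw [b2] at v
    have k : 8 * ∑ e ∈ E, w (N.up e) * w (N.lo e) - 4 * ∑ e ∈ E, w (N.up e) ^ 2 -
        3 * ∑ e ∈ E, w (N.lo e) ^ 2 ≤
        ∑ e ∈ E, if w (N.lo e) ≤ 2 * w (N.up e) then w (N.lo e) ^ 2 else 0 := by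
      simp only [mul_sum, ← sum_sub_distrib]
      refine sum_le_sum fun e _ => ?_
      split_ifs with h
      · nlinarith [sq_nonneg (w (N.up e) - w (N.lo e))]
      · nlinarith [hw (N.up e), not_le.1 h]
    have k' := mul_le_mul_of_nonneg_left k ν0.le
    have l1 : lam ≤ 1 := by
      have := hB.Qf_le π N E w ok hI
      rw [Net.Qf, h1] at this
      linarith
    linarith
  · have u := hB.sumU π N E {r} (fun x => w x ^ 2) ok hI fun x => sq_nonneg _
    have v := hB.sumL π N E {r} (fun x => w x ^ 2) ok hI fun x => sq_nonneg _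
    rw [card_singleton, Nat.cast_one] at u v
    rw [a2, sum_filter] at u
    rw [b2, sum_filter] at v
    have k : 2 * ∑ e ∈ E, w (N.up e) * w (N.lo e) ≤
        2 * (∑ e ∈ E, if N.pr e ≠ r then w (N.up e) * w (N.lo e) else 0) +
        (∑ e ∈ E, if N.pr e ∈ ({r} : Finset ℕ) then w (N.up e) ^ 2 else 0) +
        ∑ e ∈ E, if N.pr e ∈ ({r} : Finset ℕ) then w (N.lo e) ^ 2 else 0 := by
      simp only [mul_sum, ← sum_add_distrib]
      refine sum_le_sum fun e _ => ?_
      by_cases h : N.pr e = r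
      · simp only [h, ne_eq, not_true, if_false, mem_singleton, if_true]
        nlinarith [sq_nonneg (w (N.up e) - w (N.lo e))]
      · simp [h]
    have k' := mul_le_mul_of_nonneg_left k ν0.le
    rw [Net.Qf, sum_filter]
    linarith

theorem st_Boost (hB : BasSt) (hCf : CfSt) : BoostSt := by
  intro π N D _ E E' T w σ0 lam ζ ok hI hE hw h1 he hl hζ s0 s1 sU
  have ν0 := (hB.ν_pos π ok).le
  have l0 : 0 < lam := by linarith
  have c0 : 0 ≤ lam⁻¹ := inv_nonneg.2 l0.le
  have c2 : lam⁻¹ ≤ 2 := by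
    rw [inv_le_comm₀ l0 two_pos]
    linarith
  have pj : ∀ x, ∑ d, (σ0 x d + lam⁻¹ * N.opC π.ν E' T σ0 x d) =
      ∑ d, σ0 x d + lam⁻¹ * N.opB π.ν E' (fun y => ∑ d, σ0 y d) x := fun x => by
    rw [sum_add_distrib, ← mul_sum, hB.proj]
  have z : ∀ x, N.isU x = true → ∑ d, σ0 x d = 0 := fun x h => sum_eq_zero fun d _ => sU x d h
  refine ⟨fun x d => σ0 x d + lam⁻¹ * N.opC π.ν E' T σ0 x d, fun x d => add_nonneg (s0 x d)
    (mul_nonneg c0 (hCf.posC N D _ E' T σ0 1 ν0 s0 x d)), fun x => ?_, ?_, fun i => ?_⟩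
  · rw [pj]
    cases h : N.isU x
    · rw [Net.opB, sum_eq_zero fun e k => z _ (hI.up e (hE (mem_filter.1 k).1)),
        filter_false_of_mem, sum_empty, add_zero, mul_zero, mul_zero, add_zero]
      · exact s1 x
      · rintro e k rfl
        exact absurd ((hI.up e (hE k)).symm.trans h) (by decide)
    · rw [z x h, zero_add, inv_mul_le_iff₀ l0, ← he]
      exact hCf.monoB N _ E E' _ w ν0 hE hw s1 x
  · simp only [pj, mul_add, sum_add_distrib, mul_left_comm _ lam⁻¹, ← mul_sum]
    set s : N.W → ℝ := fun y => ∑ d, σ0 y d with hs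
    have sn : ∀ x, 0 ≤ s x := fun x => sum_nonneg fun d _ => s0 x d
    have a := hB.sym N π.ν E' w s
    have b := hB.sym N π.ν E s w
    have q := hCf.Qf N π.ν E w
    have b' : ∑ x, s x * N.opB π.ν E w x = lam * ∑ x, w x * s x := by
      rw [mul_sum]
      exact sum_congr rfl fun x _ => by rw [he]; ring
    have q' : ∑ x, w x * N.opB π.ν E w x = lam := by
      rw [← mul_one lam, ← h1, mul_sum]
      exact sum_congr rfl fun x _ => by rw [he]; ring
    rw [b', ← sum_sdiff hE] at b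
    rw [q', Net.Qf, ← sum_sdiff hE] at q
    rw [Net.Qf] at hζ
    have c : ∑ e ∈ E', (s (N.lo e) * w (N.up e) + s (N.up e) * w (N.lo e)) =
        ∑ e ∈ E', (w (N.lo e) * s (N.up e) + w (N.up e) * s (N.lo e)) :=
      sum_congr rfl fun e _ => by ring
    have k : ∑ e ∈ E \ E', (s (N.lo e) * w (N.up e) + s (N.up e) * w (N.lo e)) ≤
        2 * ∑ e ∈ E \ E', w (N.up e) * w (N.lo e) := by
      rw [mul_sum]
      refine sum_le_sum fun e _ => ?_
      nlinarith [mul_le_mul_of_nonneg_right (s1 (N.lo e)) (hw (N.up e)),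
        mul_le_mul_of_nonneg_right (s1 (N.up e)) (hw (N.lo e))]
    have k' := mul_le_mul_of_nonneg_left k ν0
    have k0 : 0 ≤ π.ν * ∑ e ∈ E \ E', w (N.up e) * w (N.lo e) :=
      mul_nonneg ν0 (sum_nonneg fun e _ => mul_nonneg (hw _) (hw _))
    have ζ0 : 0 ≤ ζ := by linarith
    have f : lam * ∑ x, w x * s x - ζ ≤ ∑ x, w x * N.opB π.ν E' s x := by
      rw [c] at b
      linarith
    have f' := mul_le_mul_of_nonneg_left f c0
    rw [mul_sub, inv_mul_cancel_left₀ l0.ne'] at f'
    have := mul_le_mul_of_nonneg_right c2 ζ0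
    change 2 * ∑ x, w x * s x - 2 * ζ ≤ ∑ x, w x * s x + lam⁻¹ * ∑ x, w x * N.opB π.ν E' s x
    linarith
  · rw [hCf.boost]
    have a := hCf.nonneg N D _ E' T σ0 (i + 1) ν0 s0
    have b := hCf.nonneg N D _ E' T σ0 (i + 2) ν0 s0
    have c : lam⁻¹ ^ 2 ≤ 4 := by nlinarith
    nlinarith [mul_le_mul_of_nonneg_right c2 a, mul_le_mul_of_nonneg_right c b]

end Pool.Agent.Lib.MP_028aa5_nt.T
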