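import Pool.Agent.Lib.MP_028aa5_nt.T.St2

/-! One more digit. -/

namespace Pool.Agent.Lib.MP_028aa5_nt.T

open Finset
open scoped ComplexConjugate Classical

namespace StepJ

/-- the affine bijection of the digits along an edge -/
noncomputable def tr (k r p : ℕ) (z : ℕ → ℤ) : Dg k r ≃ Dg k r :=
  Equiv.piCongrRight fun j : Fin (k + 1) =>
    (Units.mulLeft (un (md r j.val) p ^ j.val)).trans
      (Equiv.subRight ((z j.val : ℤ) : ZMod (md r j.val)))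

lemma md_eq {r : ℕ} (hr : r.Prime) (j : ℕ) : md r j = r ^ j := by
  unfold md
  rw [max_eq_left hr.one_le]

lemma tr_apply {k r p : ℕ} (hr : r.Prime) (hp : p.Prime) (hne : p ≠ r) (z : ℕ → ℤ) (d : Dg k r)
    (j : Fin (k + 1)) :
    tr k r p z d j = (p : ZMod (md r j.val)) ^ j.val * d j - (z j.val : ℤ) := by
  have hc : Nat.Coprime p (md r j.val) := by
    rw [md_eq hr]
    exact Nat.Coprime.pow_right _ ((Nat.coprime_primes hp hr).2 hne)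
  have hu : ((un (md r j.val) p : (ZMod (md r j.val))ˣ) : ZMod (md r j.val)) = p := by
    unfold un
    rw [dif_pos hc, ZMod.coe_unitOfCoprime]
  simp [tr, hu]

lemma ray_mono {N : Net} {ν : ℝ} {E : Finset N.Ed} {a b : ℝ} (h : N.Ray ν E a) (hab : b ≤ a) :
    N.Ray ν E b := by
  obtain ⟨u, h0, h1⟩ := h
  exact ⟨u, h0, (mul_le_mul_of_nonneg_right hab h0.le).trans h1⟩

/-- lift of the digits to integers -/
noncomputable def lift (k r : ℕ) (d : Dg k r) (j : ℕ) : ℤ :=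
  if h : j < k + 1 then ((d ⟨j, h⟩).val : ℤ) else 0

lemma dvd_of_eq {k r p : ℕ} (hr : r.Prime) (hp : p.Prime) (hne : p ≠ r) (z : ℕ → ℤ)
    (d d' : Dg k r) (h : tr k r p z d = d') (j : ℕ) (hj : j ≤ k) :
    (r : ℤ) ^ j ∣ lift k r d' j - (p : ℤ) ^ j * lift k r d j + z j := by
  have hj' : j < k + 1 := Nat.lt_succ_of_le hj
  have h1 := tr_apply hr hp hne z d ⟨j, hj'⟩
  rw [h] at h1
  have h2 : ((md r j : ℕ) : ℤ) = (r : ℤ) ^ j := by
    rw [md_eq hr]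
    push_cast
    rfl
  rw [← h2, ← ZMod.intCast_zmod_eq_zero_iff_dvd]
  unfold lift
  rw [dif_pos hj', dif_pos hj']
  push_cast
  rw [ZMod.natCast_zmod_val, ZMod.natCast_zmod_val, h1]
  ring

/-- choice of a point that is good for two averages -/
lemma pick (S : Finset ℕ) (hS : S.Nonempty) (g K : ℕ → ℝ) (A B : ℝ) (hA : 0 < A) (hB : 0 < B)
    (g0 : ∀ r ∈ S, 0 ≤ g r) (K0 : ∀ r ∈ S, 0 ≤ K r) (hg : ∑ r ∈ S, g r ≤ #S * A)
    (hK : ∑ r ∈ S, K r ≤ #S * B) : ∃ r ∈ S, g r ≤ 2 * A ∧ K r ≤ 2 * B := by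
  have h : ∑ r ∈ S, (g r / A + K r / B) ≤ ∑ _r ∈ S, (2 : ℝ) := by
    rw [sum_add_distrib, ← sum_div, ← sum_div, sum_const, nsmul_eq_mul]
    have h1 : (∑ r ∈ S, g r) / A ≤ #S := (div_le_iff₀ hA).2 hg
    have h2 : (∑ r ∈ S, K r) / B ≤ #S := (div_le_iff₀ hB).2 hK
    linarith
  obtain ⟨r, hr, h⟩ := exists_le_of_sum_le hS h
  have h1 : 0 ≤ g r / A := div_nonneg (g0 r hr) hA.le
  have h2 : 0 ≤ K r / B := div_nonneg (K0 r hr) hB.le
  exact ⟨r, hr, (div_le_iff₀ hA).1 (by linarith), (div_le_iff₀ hB).1 (by linarith)⟩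

/-- the numerical inequality -/
lemma num (ε ζ M lam : ℝ) (m : ℕ) (e0 : 0 ≤ ε) (z0 : 0 < ζ) (hM : 1 ≤ M) (hm : 4 ≤ m)
    (hl : 1 - ε ≤ lam) :
    1 - ε - 360 * ε / m ^ 2 - 10 ^ 6 * M * m ^ 4 * 4 ^ m * ζ ≤
      lam - 2 * (ζ + (2 * (10 * ε + 2 * ζ) + ζ) / ((m - 2) * Real.log 2) ^ 2 +
        2 * (m + 1) ^ 2 * 4 ^ (m + 1) * (18 * ((2 * m + 4) * (8 * (8 * m + 21) * M) * ζ))) := by
  have m4 : (4 : ℝ) ≤ m := by exact_mod_cast hm
  have l2 := Real.log_two_gt_d9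
  have hΛ : (m : ℝ) / 3 ≤ (m - 2) * Real.log 2 := by nlinarith
  have hΛ2 : (m : ℝ) ^ 2 / 9 ≤ ((m - 2) * Real.log 2) ^ 2 := by
    have := pow_le_pow_left₀ (by positivity) hΛ 2
    linarith [show ((m : ℝ) / 3) ^ 2 = m ^ 2 / 9 by ring]
  have mp : (0 : ℝ) < m ^ 2 := by positivity
  have m16 : (16 : ℝ) ≤ m ^ 2 := by nlinarith
  have h1 : (2 * (10 * ε + 2 * ζ) + ζ) / ((m - 2) * Real.log 2) ^ 2 ≤
      (2 * (10 * ε + 2 * ζ) + ζ) / (m ^ 2 / 9) :=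
    div_le_div_of_nonneg_left (by positivity) (by positivity) hΛ2
  have h2 : (2 * (10 * ε + 2 * ζ) + ζ) / ((m : ℝ) ^ 2 / 9) = 180 * ε / m ^ 2 + 45 * ζ / m ^ 2 := by
    field_simp
    ring
  have h3 : 45 * ζ / (m : ℝ) ^ 2 ≤ 3 * ζ := by
    rw [div_le_iff₀ mp]
    nlinarith
  have p4 : (1 : ℝ) ≤ 4 ^ m := one_le_pow₀ (by norm_num)
  have a1 : ((m : ℝ) + 1) ^ 2 ≤ 2 * m ^ 2 := by nlinarith
  have a2 : (2 * (m : ℝ) + 4) * (8 * m + 21) ≤ 42 * m ^ 2 := by nlinarith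
  have a3 : ((m : ℝ) + 1) ^ 2 * ((2 * m + 4) * (8 * m + 21)) ≤ 2 * m ^ 2 * (42 * m ^ 2) :=
    mul_le_mul a1 a2 (by positivity) (by positivity)
  have c0 : 0 ≤ M * 4 ^ m * ζ := by positivity
  have c1 : ζ ≤ M * 4 ^ m * ζ := by
    have : 1 ≤ M * 4 ^ m := one_le_mul_of_one_le_of_one_le hM p4
    nlinarith
  have m44 : (1 : ℝ) ≤ m ^ 4 := one_le_pow₀ (by linarith)
  have h4 : 2 * ((m : ℝ) + 1) ^ 2 * 4 ^ (m + 1) * (18 * ((2 * m + 4) * (8 * (8 * m + 21) * M) * ζ)) =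
      1152 * (((m : ℝ) + 1) ^ 2 * ((2 * m + 4) * (8 * m + 21))) * (M * 4 ^ m * ζ) := by
    ring
  have h5 : 1152 * (((m : ℝ) + 1) ^ 2 * ((2 * m + 4) * (8 * m + 21))) * (M * 4 ^ m * ζ) ≤
      1152 * (2 * m ^ 2 * (42 * m ^ 2)) * (M * 4 ^ m * ζ) := by
    gcongr
  have h6 : M * 4 ^ m * ζ ≤ m ^ 4 * (M * 4 ^ m * ζ) := le_mul_of_one_le_left c0 m44
  have h7 : 10 ^ 6 * M * (m : ℝ) ^ 4 * 4 ^ m * ζ = 10 ^ 6 * (m ^ 4 * (M * 4 ^ m * ζ)) := by ring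
  have h8 : 1152 * (2 * (m : ℝ) ^ 2 * (42 * m ^ 2)) * (M * 4 ^ m * ζ) =
      96768 * (m ^ 4 * (M * 4 ^ m * ζ)) := by ring
  have h9 : 360 * ε / (m : ℝ) ^ 2 = 2 * (180 * ε / m ^ 2) := by ring
  rw [h4, h7, h9]
  linarith

end StepJ

open StepJ

theorem st_Step (hN : NSt) (hB : BasSt) (hCf : CfSt) (hPF : PFSt) (hSrc : SrcSt)
    (hBoost : BoostSt) (hConf : ConfSt) (hDig : DigSt) : StepSt := by
  intro π N E φ R ρ Y ε m hOk hIs r0 r1 hR hLv hRay e0 e1 hPP hM hm hY hκ hbig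
  have ν0 := (hB.ν_pos π hOk).le
  obtain ⟨u, u0, u1⟩ := hRay
  have hne : Nonempty N.W := by
    by_contra h
    rw [not_nonempty_iff] at h
    simp at u0
  obtain ⟨w, lam, w0, w1, hw, hmax⟩ := hPF N π.ν E ν0 hne
  have l1 : 1 - ε ≤ lam := le_of_mul_le_mul_right (u1.trans (hmax u)) u0
  have l2 : lam ≤ 1 := by
    have h1 := hB.Qf_le π N E w hOk hIs
    rw [hCf.Qf, w1] at h1
    have h2 : ∑ x, w x * N.opB π.ν E w x = lam * ∑ x, w x ^ 2 := by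
      rw [mul_sum]
      exact sum_congr rfl fun x _ => by rw [hw x]; ring
    rw [h2, w1] at h1
    linarith
  have lh : 1 / 2 ≤ lam := by linarith
  have hz : ∀ e : N.Ed, ∃ z : ℕ → ℤ, e ∈ E → nm π.k π.κ (N.pos π (N.lo e))
      (φ (N.lo e) - dil (N.pr e) (φ (N.up e)) - lat R z) ≤ ρ := fun e => by
    by_cases he : e ∈ E
    · obtain ⟨z, hz⟩ := hLv e he
      exact ⟨z, fun _ => hz⟩
    · exact ⟨0, fun h => absurd h he⟩
  choose zf hzf using hz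
  set T : (r : ℕ) → N.Ed → Dg π.k r ≃ Dg π.k r := fun r e => tr π.k r (N.pr e) (zf e) with hT
  obtain ⟨s0, s1, s2, s3, s4, s5⟩ := hSrc π N E w zf lam ε hOk hIs w0 w1 hw l1 (by linarith)
  have n200 : (200 : ℝ) ≤ #π.PP := by exact_mod_cast hPP
  have np : (0 : ℝ) < #π.PP := by linarith
  set ζ : ℝ := 1 / #π.PP with hζ
  have z0 : 0 < ζ := by positivity
  have z1 : ζ ≤ 1 / 200 := one_div_le_one_div_of_le (by norm_num) n200
  have nz : #π.PP * ζ = 1 := by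
    rw [hζ]
    field_simp
  have M1 : (1 : ℝ) ≤ π.M := by exact_mod_cast hM
  have κ0 := (hB.κ1_pos π hOk).le
  have P1 : (1 : ℝ) ≤ 2 * π.P := by linarith [hOk.P]
  have hc : ∀ i ∈ range (2 * m + 4), ∑ r ∈ π.PP,
      N.conf π.ν {e ∈ E | N.pr e ≠ r} (T r) (src π N E w zf r) i ≤ 8 * (8 * m + 21) * π.M := by
    intro i hi
    have hi' : i ≤ 2 * m + 3 := by
      have := mem_range.1 hi
      omega
    have hi2 : (i : ℝ) ≤ 2 * m + 3 := by exact_mod_cast hi'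
    refine (hConf π N E w φ zf T R ρ Y i hOk hIs w0 w1.le r0 r1 hR hzf ?_ hY ?_ ?_).trans ?_
    · intro r hr e he hne d j
      exact tr_apply (hOk.pr r hr).1 (hOk.pr _ (hIs.pr e he)).1 hne _ d j
    · exact le_trans (mul_le_mul_of_nonneg_right (by linarith) κ0) hκ
    · refine le_trans ?_ hbig
      have h1 : (2 * π.P) ^ (i + 2) ≤ (2 * π.P) ^ (2 * m + 5) := pow_le_pow_right₀ P1 (by omega)
      have h2 : (8 * (i : ℝ) + 17) ^ π.k ≤ (16 * m + 41) ^ π.k :=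
        pow_le_pow_left₀ (by positivity) (by linarith) _
      have h3 : 2 * ((i : ℝ) + 2) ≤ 2 * (2 * m + 5) := by linarith
      gcongr
    · exact mul_le_mul_of_nonneg_right (by linarith) (by linarith)
  obtain ⟨r, hr, hg, hK⟩ := pick π.PP hOk.ne
    (fun r => 1 - 2 * ∑ x, w x * ∑ d, src π N E w zf r x d + 2 * ζ)
    (fun r => ∑ i ∈ range (2 * m + 4),
      N.conf π.ν {e ∈ E | N.pr e ≠ r} (T r) (src π N E w zf r) i)
    (10 * ε + 2 * ζ) ((2 * m + 4) * (8 * (8 * m + 21) * π.M) * ζ) (by positivity) (by positivity)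
    (fun r _ => by linarith [s3 r])
    (fun r _ => sum_nonneg fun i _ => hCf.nonneg N _ _ _ _ _ i ν0 (s0 r))
    (by
      rw [sum_add_distrib, sum_sub_distrib, ← mul_sum, sum_const, sum_const, nsmul_eq_mul,
        nsmul_eq_mul]
      linarith)
    (by
      rw [sum_comm]
      refine (sum_le_sum hc).trans ?_
      rw [sum_const, card_range, nsmul_eq_mul]
      push_cast
      refine le_of_eq ?_
      linear_combination (-((2 * (m : ℝ) + 4) * (8 * (8 * m + 21) * π.M))) * nz)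
  have rp := (hOk.pr r hr).1
  have hsub : ({e ∈ E | N.pr e ≠ r} : Finset N.Ed) ⊆ E := filter_subset _ _
  obtain ⟨σ, σ0, σ1, σ2, σ3⟩ := hBoost π N (Dg π.k r) E {e ∈ E | N.pr e ≠ r} (T r) w
    (src π N E w zf r) lam ζ hOk hIs hsub w0 w1 hw lh (s5 r) (s0 r) (s1 r) (s2 r)
  have one : ∀ i < 2 * m + 4, N.conf π.ν {e ∈ E | N.pr e ≠ r} (T r) (src π N E w zf r) i ≤
      2 * ((2 * m + 4) * (8 * (8 * m + 21) * π.M) * ζ) := fun i hi =>
    (single_le_sum (f := fun i => N.conf π.ν {e ∈ E | N.pr e ≠ r} (T r) (src π N E w zf r) i)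
      (fun i _ => hCf.nonneg N _ _ _ _ _ i ν0 (s0 r)) (mem_range.2 hi)).trans hK
  obtain ⟨d, hd⟩ := hDig N (Dg π.k r) π.ν E {e ∈ E | N.pr e ≠ r} (T r) w σ lam ζ
    (2 * (10 * ε + 2 * ζ)) (18 * ((2 * m + 4) * (8 * (8 * m + 21) * π.M) * ζ)) m ν0 hsub w0 w1 hw
    lh l2 (s5 r) σ0 σ1 (by linarith) (by linarith) (by omega) (by positivity)
    (fun i hi => by
      linarith [σ3 i, one i (by omega), one (i + 1) (by omega), one (i + 2) (by omega)])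
  refine ⟨r, hr, _, ?_, fun x => lift π.k r (d x), ?_, ray_mono hd ?_⟩
  · intro e he
    simp only [mem_filter] at he
    exact he.1.1
  · intro e he
    simp only [mem_filter] at he
    obtain ⟨⟨he0, hne⟩, he2⟩ := he
    refine ⟨fun j => (lift π.k r (d (N.lo e)) j - (N.pr e : ℤ) ^ j * lift π.k r (d (N.up e)) j +
      zf e j) / (r : ℤ) ^ j, le_of_eq_of_le (hN.nm_congr _ _ _ _ _ fun j hj => ?_) (hzf e he0)⟩
    have hdv := dvd_of_eq rp (hOk.pr _ (hIs.pr e he0)).1 hne (zf e) _ _ he2 j (mem_Icc.1 hj).2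
    have h1 := Int.mul_ediv_cancel' hdv
    have h2 := congrArg (fun t : ℤ => (t : ℝ)) h1
    simp only [Int.cast_mul, Int.cast_pow, Int.cast_natCast, Int.cast_add, Int.cast_sub] at h2
    simp only [Pi.sub_apply, Pi.add_apply, lat, dil, mul_pow]
    linear_combination (-(R ^ j)) * h2
  · have := num ε ζ π.M lam m e0 z0 M1 hm l1
    rw [div_eq_mul_one_div _ (#π.PP : ℝ)]
    exact this

end Pool.Agent.Lib.MP_028aa5_nt.T
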