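import Pool.Agent.Lib.MP_028aa5_nt.T.St3

/-! The values of `cs` on one component. -/

namespace Pool.Agent.Lib.MP_028aa5_nt.T

open Finset
open scoped ComplexConjugate Classical

namespace Tr

lemma yy_pos (π : Par) (j : ℕ) : 0 < π.yy j := Real.exp_pos _

lemma ps_pos (π : Par) (c : ℕ) : 0 < π.ps c := Real.exp_pos _

lemma ps_le (π : Par) (h : π.Ok) (j : ℕ) : π.ps (j / π.Nf) ≤ π.yy j := by
  unfold Par.ps Par.yy Par.κ1
  refine Real.exp_le_exp.2 ?_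
  rw [← mul_assoc]
  refine mul_le_mul_of_nonneg_right ?_ h.κ0.le
  exact_mod_cast Nat.div_mul_le_self j π.Nf

lemma yy_le (hB : BasSt) (π : Par) (h : π.Ok) {j p : ℕ} (hp : 0 < p) (hj : π.lg p ≤ j) :
    π.yy (j - π.lg p) ≤ π.yy j / p := by
  have p0 : (0 : ℝ) < p := by exact_mod_cast hp
  have h1 := (hB.lg π p h hp).1
  unfold Par.yy
  rw [← Real.exp_log p0, ← Real.exp_sub, Nat.cast_sub hj]
  refine Real.exp_le_exp.2 ?_
  linarith

lemma basic (hB : BasSt) (π : Par) (h : π.Ok) (hG : 4 ≤ π.G) :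
    0 < π.κ ∧ π.κ1 ≤ 1 ∧ π.κ0 ≤ π.κ / 4 ∧ π.κ1 / π.κ ≤ 1 / π.G ∧ π.κ0 / π.κ ≤ 1 / π.G := by
  have h1 := hB.κ1_pos π h
  have h2 := hB.κ0_le π h
  have h3 := hB.κ_ge π h
  have h4 := hB.κ1_le π h
  have h5 : (4 : ℝ) ≤ π.G := by exact_mod_cast hG
  have h6 : 0 < π.κ := h1.trans_le h4
  have h7 : π.κ1 / π.κ ≤ 1 / π.G := by
    rw [div_le_div_iff₀ h6 (by linarith)]
    linarith
  refine ⟨h6, h4.trans h.κ, by nlinarith, h7, le_trans ?_ h7⟩
  exact div_le_div_of_nonneg_right h2 h6.le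

lemma chain {A A1 A2 E c c0 d d0 : ℂ} {x1 x2 x3 x4 x5 x6 : ℝ} (hE : ‖E‖ = 1)
    (h1 : ‖A - E * c‖ ≤ x1) (h2 : ‖A2 - A1‖ ≤ x2) (h3 : ‖A1 - E * d‖ ≤ x3) (h4 : ‖c0 - c‖ ≤ x4)
    (h5 : ‖d0 - d‖ ≤ x5) (h6 : ‖c0 + d0‖ ≤ x6) : ‖A + A2‖ ≤ x1 + x2 + x3 + (x6 + x4 + x5) := by
  rw [show A + A2 = (A - E * c) + (A2 - A1) + (A1 - E * d) +
    E * ((c0 + d0) - (c0 - c) - (d0 - d)) by ring]
  refine (norm_add_le _ _).trans (add_le_add (norm_add₃_le.trans (by gcongr)) ?_)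
  rw [norm_mul, hE, one_mul]
  exact (norm_sub_le _ _).trans (add_le_add ((norm_sub_le _ _).trans (add_le_add h6 h4)) h5)

end Tr

theorem st_Tr (hN : NSt) (hC : CSt) (hB : BasSt) (hD : DenSt) : TrSt where
  good π f φ γ τ γ0 t q _ a j p K ε2 ρ2 h hG hf hq hpq hp hj hK5 hK hφ hγ hw hc := by
    obtain ⟨k0, k1, k2, k3, k4⟩ := Tr.basic hB π h hG
    have p0 : (0 : ℝ) < p := by exact_mod_cast hp
    have p1 : (1 : ℝ) ≤ p := by exact_mod_cast hp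
    have y0 := Tr.yy_pos π j
    have c0 := Tr.ps_pos π (j / π.Nf)
    have K1 : K ≤ π.κ * (π.yy j / p) := hK.trans (mul_le_mul_of_nonneg_left
      ((Tr.ps_le π h _).trans (Tr.yy_le hB π h hp hj)) k0.le)
    have K2 : K ≤ π.κ * π.yy j :=
      K1.trans (mul_le_mul_of_nonneg_left (div_le_self y0.le p1) k0.le)
    have i1 : 1 / (π.κ * (π.yy j / p)) ≤ 1 / K := one_div_le_one_div_of_le (by linarith) K1
    have i2 : 1 / (π.κ * π.yy j) ≤ 1 / K := one_div_le_one_div_of_le (by linarith) K2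
    have l1 : |Real.log (π.ps (j / π.Nf)) - Real.log (π.yy j)| ≤ π.κ1 := by
      rw [abs_sub_comm]
      exact hB.fine π j h
    have l2 : |Real.log (π.ps (j / π.Nf) / p) - Real.log (π.yy j / p)| ≤ π.κ1 := by
      rw [Real.log_div c0.ne' p0.ne', Real.log_div y0.ne' p0.ne', sub_sub_sub_cancel_right]
      exact l1
    have e1 : EqZ π.k φ (dil (a : ZMod q).val γ0 + τ) :=
      hD.trans _ _ _ _ hφ (hD.add _ _ _ _ _ hγ (hD.refl _ _))
    have e2 : EqZ π.k (dil p φ)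
        (dil ((a * un q p : (ZMod q)ˣ) : ZMod q).val γ0 + dil p τ) := by
      have g1 := hD.dil _ _ _ p e1
      rw [hD.dil_add, hD.dil_dil, mul_comm, ← Nat.cast_mul] at g1
      exact hD.trans _ _ _ _ g1
        (hD.add _ _ _ _ _ (hD.mod _ q _ _ _ hq (hD.un q p a hpq).symm) (hD.refl _ _))
    have e3 : (p : ℝ) * (π.yy j / p) = π.yy j := by field_simp
    have s1 := hC.star π.k π.κ f (π.yy j) φ γ0 τ t _ hf k0 (by linarith) e1
    have s2 := hC.star π.k π.κ f (π.yy j / p) _ γ0 _ t _ hf k0 (by linarith) e2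
    rw [hN.ph_dil, hN.tc_dil, e3] at s2
    have m1 := hC.move π.k π.κ f (π.yy j) _ _ φ hf k0 h.κ (by linarith) c0 l1 k1
    have m2 := hC.move π.k π.κ f (π.yy j / p) _ _ (dil p φ) hf k0 h.κ (by linarith)
      (div_pos c0 p0) l2 k1
    have m3 := hC.moves π.k π.κ f γ0 t (π.yy j / p) _ _
      ((a * un q p : (ZMod q)ˣ) : ZMod q).val hf k0 h.κ (by linarith) (Tr.yy_pos π _)
      (hB.fine_lo π j p h hp hj) k2
    refine (Tr.chain (norm_e _) s1 m3 s2 m1 m2 hc).trans ?_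
    have i3 : 0 ≤ 1 / K := by positivity
    rw [show (60 : ℝ) / π.G = 60 * (1 / π.G) by ring, show 180 / K = 180 * (1 / K) by ring]
    linarith
  big π f φ γ τ γ0 t a j K η ρ2 h hG hf hK1 hK hφ hγ hw hc := by
    obtain ⟨k0, k1, -, k3, -⟩ := Tr.basic hB π h hG
    have K2 : K ≤ π.κ * π.yy j := hK.trans (mul_le_mul_of_nonneg_left (Tr.ps_le π h _) k0.le)
    have i1 : 1 / (π.κ * π.ps (j / π.Nf)) ≤ 1 / K := one_div_le_one_div_of_le (by linarith) hK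
    have e1 : EqZ π.k φ (dil a γ0 + τ) :=
      hD.trans _ _ _ _ hφ (hD.add _ _ _ _ _ hγ (hD.refl _ _))
    have s1 := hC.star π.k π.κ f (π.yy j) φ γ0 τ t _ hf k0 (by linarith) e1
    have m1 := hC.move π.k π.κ f (π.ps (j / π.Nf)) _ _ φ hf k0 h.κ (by linarith)
      (Tr.yy_pos π j) (hB.fine π j h) k1
    have n1 := norm_sub_norm_le (e (ph π.k τ (π.yy j)) * cc π.k π.κ f (π.yy j) φ)
      (cs π.k π.κ f γ0 t (π.yy j) a)
    rw [norm_sub_rev, norm_mul, norm_e, one_mul] at n1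
    have n2 := norm_sub_norm_le (cc π.k π.κ f (π.ps (j / π.Nf)) φ) (cc π.k π.κ f (π.yy j) φ)
    rw [norm_sub_rev] at n2
    rw [show (20 : ℝ) / π.G = 20 * (1 / π.G) by ring, show 20 / K = 20 * (1 / K) by ring]
    linarith

end Pool.Agent.Lib.MP_028aa5_nt.T
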