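import Pool.Agent.Lib.MP_028aa5_nt.T.St3

/-! The inverse Weyl inequality for all coefficients. -/

namespace Pool.Agent.Lib.MP_028aa5_nt.T

open Finset
open scoped ComplexConjugate Classical

namespace W1J

lemma pd (k : ℕ) (α : Ph) : PD (k + 1) (α (k + 1)) (ph (k + 1) α) := by
  have := PD.poly (k + 1) (∑ j ∈ Icc 1 (k + 1), Polynomial.monomial j (α j))
    (Polynomial.natDegree_sum_le_of_forall_le _ _ fun j hj =>
      (Polynomial.natDegree_monomial_le _).trans (mem_Icc.1 hj).2)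
  simp only [Polynomial.finset_sum_coeff, Polynomial.coeff_monomial, Polynomial.eval_finset_sum,
    Polynomial.eval_monomial, sum_ite_eq', mem_Icc] at this
  rw [if_pos (by omega)] at this
  exact this

lemma top (k : ℕ) {R : ℝ} (hR : 1 ≤ R) : ∃ B : ℝ, 1 ≤ B ∧ ∀ κ y α, 0 < κ → 1 ≤ κ * y →
    κ * y / R ≤ ‖∑ n ∈ Ioc ⌊y⌋₊ ⌊y * (1 + κ)⌋₊, e (ph (k + 1) α n)‖ →
    ∃ (q : ℕ) (m : ℤ), 1 ≤ q ∧ q ≤ B ∧ |α (k + 1) - m / q| * (κ * y) ^ (k + 1) ≤ B := by
  obtain ⟨A, hA⟩ := weyl (k := k + 1) (by omega)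
  refine ⟨(2 * R) ^ A, one_le_pow₀ (by linarith), fun κ y α κ0 h1 h => ?_⟩
  have y0 : 0 < y := (mul_pos_iff_of_pos_left κ0).1 (by linarith)
  have n1 : κ * y ≤ (⌊κ * y⌋₊ + 1 : ℕ) := by exact_mod_cast (Nat.lt_floor_add_one _).le
  have n2 : ((⌊κ * y⌋₊ + 1 : ℕ) : ℝ) ≤ 2 * (κ * y) := by
    push_cast
    linarith [Nat.floor_le (show 0 ≤ κ * y by linarith)]
  obtain ⟨q, q1, q2, m, hm⟩ := hA (2 * R) _ _ (⌊κ * y⌋₊ + 1) ⌊y⌋₊ ⌊y * (1 + κ)⌋₊ (by linarith)
    (pd k α) (by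
      rw [← Nat.lt_add_one_iff, Nat.floor_lt (by positivity)]
      push_cast
      linarith [Nat.lt_floor_add_one y, Nat.lt_floor_add_one (κ * y)]) (by omega)
    (le_trans (by rw [div_le_div_iff₀ (by linarith) (by linarith)]; nlinarith) h)
  refine ⟨q, m, q1, q2, ?_⟩
  have q0 : (1 : ℝ) ≤ q := by exact_mod_cast q1
  rw [le_div_iff₀ (by positivity)] at hm
  refine le_trans ?_ hm
  have : |α (k + 1) - m / q| ≤ |q * α (k + 1) - m| := by
    rw [show (q : ℝ) * α (k + 1) - m = q * (α (k + 1) - m / q) by field_simp, abs_mul,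
      abs_of_pos (by linarith : (0 : ℝ) < q)]
    exact le_mul_of_one_le_left (abs_nonneg _) q0
  gcongr

lemma alt {K j : ℕ} (h : j < K) :
    ∑ i ∈ Icc j K, (i.choose j : ℝ) * ((K.choose i : ℝ) * (-1) ^ (K - i)) = 0 := by
  have h1 := add_pow (1 : ℝ) (-1) (K - j)
  rw [add_neg_cancel, zero_pow (by omega)] at h1
  rw [← Ico_add_one_right_eq_Icc, sum_Ico_eq_sum_range, show K + 1 - j = K - j + 1 by omega,
    ← mul_zero (K.choose j : ℝ), h1, mul_sum]
  refine sum_congr rfl fun i hi => ?_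
  have h2 := Nat.choose_mul (n := K) (k := j + i) (s := j) (by omega)
  rw [Nat.add_sub_cancel_left] at h2
  have h3 : (K.choose (j + i) : ℝ) * ((j + i).choose j) = K.choose j * (K - j).choose i := by
    exact_mod_cast h2
  rw [Nat.sub_add_eq, one_pow]
  linear_combination (-1) ^ (K - j - i) * h3

/-- the coefficients of `θ (x - y) ^ K` -/
noncomputable def bn (K : ℕ) (θ y : ℝ) : Ph := fun i => θ * K.choose i * (-y) ^ (K - i)

lemma nm_bn (k : ℕ) (κ θ y : ℝ) (κ0 : 0 ≤ κ) (y0 : 0 ≤ y) :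
    nm (k + 1) κ y (bn (k + 1) θ y) = |θ| * (κ * y) ^ (k + 1) := by
  unfold nm wn
  rw [sum_Icc_succ_top (by omega), sum_eq_zero, zero_add]
  · simp [tc, bn, abs_mul, abs_of_nonneg y0, mul_pow]
    ring
  intro j hj
  have h := alt (K := k + 1) (j := j) (by have := (mem_Icc.1 hj).2; omega)
  have : tc (k + 1) y (bn (k + 1) θ y) j = θ * y ^ (k + 1) * 0 := by
    rw [← h, mul_sum]
    refine sum_congr rfl fun i hi => ?_
    have h2 : y ^ (k + 1) = y ^ (k + 1 - i) * y ^ i := by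
      rw [← pow_add, Nat.sub_add_cancel (mem_Icc.1 hi).2]
    rw [bn, neg_pow y, h2]
    ring
  simp [this]

lemma ph_bn (K : ℕ) (θ y x : ℝ) : ph K (bn K θ y) x = θ * (x - y) ^ K - θ * (-y) ^ K := by
  rw [sub_eq_add_neg x, add_pow, range_eq_Ico, sum_eq_sum_Ico_succ_bot (by omega),
    Ico_add_one_right_eq_Icc, mul_add, mul_sum]
  simp only [ph, bn, pow_zero, Nat.sub_zero, Nat.choose_zero_right, Nat.cast_one, zero_add]
  rw [one_mul, mul_one, add_sub_cancel_left]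
  exact sum_congr rfl fun _ _ => by ring

lemma nm_succ (k : ℕ) (κ y : ℝ) (α : Ph) (h : α (k + 1) = 0) : nm (k + 1) κ y α = nm k κ y α := by
  unfold nm wn
  rw [sum_Icc_succ_top (by omega)]
  have h1 : tc (k + 1) y α (k + 1) = 0 := by simp [tc, h]
  rw [h1, abs_zero, mul_zero, add_zero]
  refine sum_congr rfl fun j hj => ?_
  unfold tc
  rw [sum_Icc_succ_top (by have := (mem_Icc.1 hj).2; omega), h]
  simp

lemma tile (f : ℕ → ℂ) (y h : ℝ) (h0 : 0 ≤ h) (W : ℕ) : ∑ n ∈ Ioc ⌊y⌋₊ ⌊y + W * h⌋₊, f n =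
    ∑ i ∈ range W, ∑ n ∈ Ioc ⌊y + i * h⌋₊ ⌊y + (i + 1) * h⌋₊, f n := by
  induction W with
  | zero => simp
  | succ W ih =>
    rw [sum_range_succ, ← ih, sum_Ioc_consecutive _ (Nat.floor_le_floor (le_add_of_nonneg_right
      (by positivity))) (Nat.floor_le_floor (by nlinarith))]
    push_cast
    rfl

/-- a periodic factor can be replaced by a linear phase -/
lemma per (hC : ChSt) (I : Finset ℕ) (f : ℕ → ℂ) {q : ℕ} (hq : 1 ≤ q) (m : ℤ) (K : ℕ) :
    ∃ s : ℕ, ‖∑ n ∈ I, e (m / q * n ^ K) * f n‖ ≤ q * ‖∑ n ∈ I, e (s / q * n) * f n‖ := by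
  have : NeZero q := ⟨by omega⟩
  have q0 : (0 : ℝ) < q := by exact_mod_cast hq
  have q1 : (q : ℂ) ≠ 0 := by exact_mod_cast (by omega : q ≠ 0)
  obtain ⟨s, -, hs⟩ := exists_max_image univ
    (fun s : ZMod q => ‖∑ n ∈ I, e (s.val / q * n) * f n‖) univ_nonempty
  refine ⟨s.val, ?_⟩
  have key : ∀ n : ℕ, e (m / q * n ^ K) = ∑ r ∈ range q, ∑ a : ZMod q,
      (q : ℂ)⁻¹ * e (m / q * r ^ K) * e (-(a.val * r / q)) * e (a.val / q * n) := fun n => by
    have h1 : ∀ r : ℕ, ∑ a : ZMod q, (q : ℂ)⁻¹ * e (m / q * r ^ K) * e (-(a.val * r / q)) *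
        e (a.val / q * n) = (q : ℂ)⁻¹ * e (m / q * r ^ K) *
          if (q : ℤ) ∣ (n : ℤ) - r then (q : ℂ) else 0 := fun r => by
      rw [← hC.sum q, mul_sum]
      refine sum_congr rfl fun a _ => ?_
      rw [mul_assoc, ← e_add]
      congr 2
      push_cast
      ring
    simp only [h1]
    rw [sum_eq_single (n % q)]
    · have h2 : (q : ℤ) ∣ (n : ℤ) - (n % q : ℕ) := (Nat.mod_modEq n q).dvd
      rw [if_pos h2, mul_right_comm, inv_mul_cancel₀ q1, one_mul]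
      obtain ⟨c, hc⟩ := h2.trans (sub_dvd_pow_sub_pow (n : ℤ) (n % q : ℕ) K)
      have h3 : (n : ℝ) ^ K - ((n % q : ℕ) : ℝ) ^ K = q * c := by exact_mod_cast hc
      rw [← e_sub_int _ (m * c)]
      congr 1
      push_cast at h3 ⊢
      rw [sub_eq_iff_eq_add, sub_eq_iff_eq_add.1 h3]
      field_simp
      ring
    · intro r hr hne
      rw [if_neg, mul_zero]
      intro h
      have := (Nat.modEq_iff_dvd.2 h : r ≡ n [MOD q])
      rw [Nat.ModEq, Nat.mod_eq_of_lt (mem_range.1 hr)] at this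
      exact hne this
    · intro h
      exact absurd (mem_range.2 (Nat.mod_lt _ hq)) h
  rw [sum_congr rfl fun n _ => by rw [key n]]
  simp only [sum_mul]
  rw [sum_comm]
  refine (norm_sum_le _ _).trans ((sum_le_card_nsmul _ _
    ‖∑ n ∈ I, e (s.val / q * n) * f n‖ fun r _ => ?_).trans (by simp))
  rw [sum_comm]
  refine (norm_sum_le _ _).trans ((sum_le_card_nsmul _ _
    ((q : ℝ)⁻¹ * ‖∑ n ∈ I, e (s.val / q * n) * f n‖) fun a _ => ?_).trans ?_)
  · simp only [mul_assoc, ← mul_sum, norm_mul, norm_e, one_mul, norm_inv, Complex.norm_natCast]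
    exact mul_le_mul_of_nonneg_left (hs a (mem_univ _)) (by positivity)
  · rw [card_univ, ZMod.card, nsmul_eq_mul, ← mul_assoc, mul_inv_cancel₀ q0.ne', one_mul]

/-- the statement for one degree -/
def St (k : ℕ) : Prop := ∀ R : ℝ, 1 ≤ R → ∃ (Q : ℕ) (B K0 : ℝ), ∀ κ y α,
  0 < κ → κ ≤ 1 → K0 ≤ κ * y → κ * y / R ≤ ‖∑ n ∈ Ioc ⌊y⌋₊ ⌊y * (1 + κ)⌋₊, e (ph k α n)‖ →
  ∃ (q : ℕ) (z : ℕ → ℤ), 1 ≤ q ∧ q ≤ Q ∧ nm k κ y (α - fun j => (z j : ℝ) / q) ≤ B

lemma base : St 1 := by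
  intro R hR
  obtain ⟨B, -, h⟩ := top 0 hR
  refine ⟨⌊B⌋₊, B, 1, fun κ y α κ0 _ h1 h2 => ?_⟩
  obtain ⟨q, m, q1, q2, h3⟩ := h κ y α κ0 h1 h2
  have y0 : 0 < y := (mul_pos_iff_of_pos_left κ0).1 (by linarith)
  refine ⟨q, fun _ => m, q1, Nat.le_floor q2, le_trans (le_of_eq ?_) h3⟩
  simp [nm, wn, tc, abs_mul, abs_of_pos y0]
  ring

lemma step (hN : NSt) (hN2 : N2St) (hC : ChSt) {k : ℕ} (hk : 1 ≤ k) (ih : St k) : St (k + 1) := by
  intro R hR
  obtain ⟨B, B1, h⟩ := top k hR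
  obtain ⟨Q', B', K', ih⟩ := ih (2 * R * B) (by nlinarith)
  set W : ℕ := ⌈28 * R * B⌉₊ with hW
  have W1 : 28 * R * B ≤ W := Nat.le_ceil _
  have W2 : (1 : ℝ) ≤ W := by nlinarith
  refine ⟨⌊B⌋₊ * Q', 5 ^ (k + 1) * ((2 * W) ^ (k + 1) * (B' + B)), W * max K' 1,
    fun κ y α κ0 κ1 h1 h2 => ?_⟩
  set H := κ * y / W with hH
  have H1 : max K' 1 ≤ H := by rw [hH, le_div_iff₀ (by linarith)]; linarith
  have H2 : 1 ≤ H := (le_max_right _ _).trans H1
  have H3 : κ * y = W * H := by rw [hH]; field_simp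
  have H4 : 1 ≤ κ * y := by nlinarith
  have y0 : 0 < y := (mul_pos_iff_of_pos_left κ0).1 (by linarith)
  obtain ⟨q, m, q1, q2, h3⟩ := h κ y α κ0 H4 h2
  have q0 : (0 : ℝ) < q := by exact_mod_cast q1
  set θ := α (k + 1) - m / q with hθ
  rw [mul_add, mul_one, mul_comm y κ, H3, tile _ _ _ (by linarith)] at h2
  obtain ⟨i, hi, h4⟩ : ∃ i ∈ range W, H / R ≤
      ‖∑ n ∈ Ioc ⌊y + i * H⌋₊ ⌊y + (i + 1) * H⌋₊, e (ph (k + 1) α n)‖ := by
    refine exists_le_of_sum_le ⟨0, mem_range.2 (by exact_mod_cast W2)⟩ ?_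
    rw [sum_const, card_range, nsmul_eq_mul, ← mul_div_assoc]
    exact h2.trans (norm_sum_le _ _)
  have i1 : (i : ℝ) ≤ W := by exact_mod_cast (mem_range.1 hi).le
  set y' := y + i * H with hy'
  have y1 : y ≤ y' := le_add_of_nonneg_right (by positivity)
  have y2 : y' ≤ y * (1 + κ) := by nlinarith
  have y3 : 0 < y' := by linarith
  set κ' := H / y' with hκ'
  have k0 : 0 < κ' := by positivity
  have k1 : κ' * y' = H := div_mul_cancel₀ _ y3.ne'
  have k2 : κ ≤ 2 * W * κ' := by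
    refine le_of_mul_le_mul_right ?_ y3
    rw [mul_assoc, k1]
    nlinarith [mul_le_mul_of_nonneg_left y2 κ0.le, mul_pos κ0 y0]
  have k3 : κ' ≤ 1 := by
    rw [hκ', div_le_one y3]
    nlinarith
  rw [show y + (i + 1) * H = y' * (1 + κ') by rw [mul_add y', mul_comm y' κ', k1, hy']; ring] at h4
  set I := Ioc ⌊y'⌋₊ ⌊y' * (1 + κ')⌋₊ with hI
  have I1 : ∀ n ∈ I, |(n : ℝ) - y'| ≤ H := fun n hn => by
    obtain ⟨a, b⟩ := mem_Ioc.1 hn
    rw [Nat.floor_lt y3.le] at a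
    rw [Nat.le_floor_iff (by positivity)] at b
    rw [abs_le]
    constructor <;> nlinarith
  have I2 : (#I : ℝ) ≤ 2 * H := by
    refine (card_le_of_diam I (L := H) (by linarith) fun a ha b hb => ?_).trans (by linarith)
    have a1 := (Nat.floor_lt y3.le).1 (mem_Ioc.1 ha).1
    linarith [(abs_le.1 (I1 b hb)).2]
  have θ1 : |θ| * H ^ (k + 1) * W ≤ B := by
    rw [H3, mul_pow] at h3
    have : (W : ℝ) ≤ W ^ (k + 1) := le_self_pow₀ W2 (by omega)
    nlinarith [mul_le_mul_of_nonneg_left this (show 0 ≤ |θ| * H ^ (k + 1) by positivity)]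
  set δ := bn (k + 1) θ y' with hδ
  have dec : ∀ x : ℝ, ph (k + 1) α x = m / q * x ^ (k + 1) + ph k (α - δ) x - θ * (-y') ^ (k + 1) +
      θ * (x - y') ^ (k + 1) := fun x => by
    have a1 := ph_bn (k + 1) θ y' x
    rw [hN.ph_sub]
    unfold ph at a1 ⊢
    rw [sum_Icc_succ_top (by omega)] at a1 ⊢
    have a2 : bn (k + 1) θ y' (k + 1) = θ := by simp [bn]
    rw [a2] at a1
    linear_combination a1
  have h5 : H / (2 * R) ≤ ‖∑ n ∈ I, e (m / q * n ^ (k + 1)) * e (ph k (α - δ) n)‖ := by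
    have a1 : ‖∑ n ∈ I, e (ph (k + 1) α n) - e (-(θ * (-y') ^ (k + 1))) *
        ∑ n ∈ I, e (m / q * n ^ (k + 1)) * e (ph k (α - δ) n)‖ ≤ #I * (7 * (|θ| * H ^ (k + 1))) := by
      rw [mul_sum, ← sum_sub_distrib, ← nsmul_eq_mul]
      refine (norm_sum_le _ _).trans (sum_le_card_nsmul _ _ _ fun n hn => ?_)
      rw [← e_add, ← e_add]
      refine (norm_e_sub_le _ _).trans ?_
      rw [dec, show ∀ a b c d : ℝ, a + b - c + d - (-c + (a + b)) = d from fun _ _ _ _ => by ring,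
        abs_mul, abs_pow]
      have := I1 n hn
      gcongr
    have a2 := (norm_sub_norm_le _ _).trans a1
    rw [norm_mul, norm_e, one_mul] at a2
    have a3 : 7 * (|θ| * H ^ (k + 1)) ≤ 1 / (4 * R) := by
      rw [le_div_iff₀ (by linarith)]
      refine le_of_mul_le_mul_right ?_ (show 0 < B by linarith)
      nlinarith [mul_le_mul_of_nonneg_left W1 (show 0 ≤ |θ| * H ^ (k + 1) by positivity)]
    have a4 := mul_le_mul I2 a3 (by positivity) (by positivity)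
    rw [show 2 * H * (1 / (4 * R)) = H / (2 * R) by ring] at a4
    rw [show H / R = H / (2 * R) + H / (2 * R) by ring] at h4
    linarith
  obtain ⟨s, hs⟩ := per hC I (fun n => e (ph k (α - δ) n)) q1 m (k + 1)
  set β : Ph := α - δ + fun j => if j = 1 then (s : ℝ) / q else 0 with hβ
  have h6 : ∀ x : ℝ, e (s / q * x) * e (ph k (α - δ) x) = e (ph k β x) := fun x => by
    rw [← e_add, hβ, hN.ph_add, add_comm]
    congr 2
    simp [ph, hk]
  simp only [h6] at hs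
  obtain ⟨q', z', p1, p2, p3⟩ := ih κ' y' β k0 k3 (by rw [k1]; exact (le_max_left _ _).trans H1) (by
    rw [k1, div_le_iff₀ (by positivity)]
    have a1 := h5.trans (hs.trans (mul_le_mul_of_nonneg_right q2 (norm_nonneg _)))
    rw [div_le_iff₀ (by positivity)] at a1
    linarith)
  have q3 : (0 : ℝ) < q' := by exact_mod_cast p1
  refine ⟨q * q', fun j => if j = k + 1 then m * q' else z' j * q - if j = 1 then s * q' else 0,
    Nat.mul_pos q1 p1, Nat.mul_le_mul (Nat.le_floor q2) p2, ?_⟩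
  set γ1 : Ph := fun j => if j = k + 1 then 0 else (β - fun j => (z' j : ℝ) / q') j with hγ1
  rw [hN.nm_congr _ _ _ _ (γ1 + δ) fun j _ => by
    by_cases a1 : j = k + 1
    · simp [hγ1, a1, hδ, bn, hθ]
      field_simp
    · by_cases a2 : j = 1
      · simp [hγ1, hβ, a2, show k ≠ 0 by omega]
        field_simp
        ring
      · simp [hγ1, hβ, a1, a2]
        field_simp
        ring]
  have b1 : nm (k + 1) κ' y' (γ1 + δ) ≤ B' + B := by
    refine (hN.nm_add _ _ _ _ _ k0.le).trans (add_le_add ?_ ?_)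
    · rw [nm_succ _ _ _ _ (by simp [hγ1]), hN.nm_congr _ _ _ _ (β - fun j => (z' j : ℝ) / q')
        fun j hj => if_neg (by have := (mem_Icc.1 hj).2; omega)]
      exact p3
    · rw [hδ, nm_bn _ _ _ _ k0.le y3.le, k1]
      exact (le_mul_of_one_le_right (by positivity) W2).trans θ1
  have b2 := (hN.nm_mono _ _ _ y' (γ1 + δ) κ0.le k2).trans
    ((hN.nm_scale (k + 1) κ' (2 * W) y' _ k0.le (by linarith)).trans
      (mul_le_mul_of_nonneg_left b1 (by positivity)))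
  refine (hN2.shift _ _ y' y κ _ κ0 κ1 y3 y0 ?_ κ1).trans ?_
  · rw [abs_sub_comm, abs_of_nonneg (sub_nonneg.2 (Real.log_le_log y0 y1)), ← Real.log_div y3.ne' y0.ne']
    refine (Real.log_le_sub_one_of_pos (by positivity)).trans ?_
    rw [sub_le_iff_le_add, div_le_iff₀ y0]
    linarith
  · rw [mul_div_assoc, div_self κ0.ne', show (1 : ℝ) + 4 * 1 = 5 by norm_num]
    exact mul_le_mul_of_nonneg_left b2 (by positivity)

end W1J

theorem st_W1 (hN : NSt) (hN2 : N2St) (hC : ChSt) : W1St := by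
  intro k R hk
  revert R
  induction k, hk using Nat.le_induction with
  | base => exact W1J.base
  | succ k hk ih => exact W1J.step hN hN2 hC hk ih

end Pool.Agent.Lib.MP_028aa5_nt.T
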