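import Pool.Agent.Lib.MP_028aa5_nt.T.St1

/-! Separated families of correlating phases are bounded. -/

namespace Pool.Agent.Lib.MP_028aa5_nt.T

open Finset
open scoped ComplexConjugate Classical

namespace W2

/-- the finite set of codes -/
noncomputable def code (k Q : ℕ) (L : ℝ) : Finset (ℕ × (Fin k → ℤ) × (Fin k → ℤ)) :=
  Icc 1 Q ×ˢ (Fintype.piFinset fun _ => Ico (0 : ℤ) Q) ×ˢ
    Fintype.piFinset fun _ => Icc (-(⌊L⌋₊ : ℤ)) ⌊L⌋₊

lemma term_le {k j : ℕ} {κ : ℝ} (hκ : 0 < κ) (t : Ph) (hj : j ∈ Icc 1 k) :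
    κ ^ j * |t j| ≤ wn k κ t :=
  single_le_sum (f := fun j => κ ^ j * |t j|) (fun _ _ => by positivity) hj

lemma close (hN : NSt) {k Q : ℕ} {κ y ρ B : ℝ} (hk : 1 ≤ k) (hκ : 0 < κ) (hρ : 0 < ρ) (α : Ph)
    (S : Finset Ph)
    (h1 : ∀ β ∈ S, ∃ (q : ℕ) (z : ℕ → ℤ), 1 ≤ q ∧ q ≤ Q ∧
      nm k κ y (β - α - fun j => (z j : ℝ) / q) ≤ B)
    (h2 : ∀ β ∈ S, ∀ β' ∈ S, β ≠ β' → ¬Cl k κ 1 y ρ (β - β')) :
    #S ≤ #(code k Q (B * k / ρ + 1)) := by
  choose! q z hq1 hqQ hnm using h1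
  have k0 : (0 : ℝ) < k := by exact_mod_cast hk
  set t : Ph → Ph := fun β => tc k y (β - α - fun j => (z β j : ℝ) / q β) with ht
  refine card_le_card_of_injOn (fun β => (q β, fun j : Fin k => z β (j + 1) % q β,
    fun j : Fin k => ⌊κ ^ (j.val + 1) * t β (j + 1) * k / ρ⌋)) ?_ ?_
  · intro β hβ
    have a1 := hq1 β hβ
    have a2 := hqQ β hβ
    simp only [code, coe_product, Set.mem_prod, mem_coe, Fintype.mem_piFinset]
    refine ⟨mem_Icc.2 ⟨a1, a2⟩, fun j => mem_Ico.2 ⟨Int.emod_nonneg _ (by omega), ?_⟩,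
      fun j => mem_int_Icc ?_⟩
    · have := Int.emod_lt_of_pos (z β (j + 1)) (b := q β) (by omega)
      omega
    · have b1 : κ ^ (j.val + 1) * |t β (j + 1)| ≤ B :=
        (term_le hκ _ (mem_Icc.2 ⟨by omega, by omega⟩)).trans (hnm β hβ)
      have b2 : |κ ^ (j.val + 1) * t β (j + 1) * k / ρ| ≤ B * k / ρ := by
        rw [abs_div, abs_mul, abs_mul, abs_of_pos hρ, abs_of_pos k0, abs_of_pos (pow_pos hκ _)]
        gcongr
      generalize κ ^ (j.val + 1) * t β (j + 1) * k / ρ = x at b2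
      have b3 := Int.floor_le x
      have b4 := Int.lt_floor_add_one x
      rw [abs_le] at b2 ⊢
      constructor <;> linarith [b2.1, b2.2]
  · intro β hβ β' hβ' he
    by_contra hne
    simp only [Prod.mk.injEq] at he
    obtain ⟨e1, e2, e3⟩ := he
    have q0 : (q β' : ℝ) ≠ 0 := by
      have := hq1 β' hβ'
      positivity
    refine h2 β hβ β' hβ' hne ⟨fun j => (z β j - z β' j) / q β', ?_⟩
    have c1 : nm k κ y (β - β' - lat 1 fun j => (z β j - z β' j) / q β') =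
        nm k κ y ((β - α - fun j => (z β j : ℝ) / q β) - (β' - α - fun j => (z β' j : ℝ) / q β')) := by
      refine hN.nm_congr _ _ _ _ _ fun j hj => ?_
      obtain ⟨j1, j2⟩ := mem_Icc.1 hj
      have d1 := congrFun e2 ⟨j - 1, by omega⟩
      simp only [Nat.sub_add_cancel j1, e1] at d1
      obtain ⟨c, hc⟩ := (Int.ModEq.dvd d1.symm : (q β' : ℤ) ∣ z β j - z β' j)
      have d2 : (z β j : ℝ) - z β' j = q β' * c := by exact_mod_cast hc
      have d3 : (q β' : ℤ) ≠ 0 := by exact_mod_cast q0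
      simp only [Pi.sub_apply, lat, one_pow, one_mul, hc, Int.mul_ediv_cancel_left _ d3, e1]
      field_simp
      linarith
    rw [c1, nm, hN.tc_sub]
    calc wn k κ (t β - t β') ≤ ∑ _j ∈ Icc 1 k, ρ / k := by
          refine sum_le_sum fun j hj => ?_
          obtain ⟨j1, j2⟩ := mem_Icc.1 hj
          have d1 := congrFun e3 ⟨j - 1, by omega⟩
          simp only [Nat.sub_add_cancel j1] at d1
          have d2 := Int.abs_sub_lt_one_of_floor_eq_floor d1
          have d3 : κ ^ j * t β j * k / ρ - κ ^ j * t β' j * k / ρ =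
              κ ^ j * (t β j - t β' j) * k / ρ := by ring
          rw [d3, abs_div, abs_mul, abs_mul, abs_of_pos hρ, abs_of_pos k0,
            abs_of_pos (pow_pos hκ _), div_lt_one hρ] at d2
          rw [le_div_iff₀ k0]
          exact d2.le
      _ = ρ := by
          rw [sum_const, Nat.card_Icc, nsmul_eq_mul, Nat.add_sub_cancel]
          field_simp

lemma card_win {κ y : ℝ} (hκ : 0 < κ) (h : 1 ≤ κ * y) :
    (#(Ioc ⌊y⌋₊ ⌊y * (1 + κ)⌋₊) : ℝ) ≤ 2 * (κ * y) := by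
  have y0 : 0 < y := by
    by_contra hy
    nlinarith [mul_nonneg hκ.le (neg_nonneg.2 (not_lt.1 hy))]
  have h1 : ⌊y⌋₊ ≤ ⌊y * (1 + κ)⌋₊ := Nat.floor_le_floor (by nlinarith)
  rw [Nat.card_Ioc, Nat.cast_sub h1]
  have h2 := Nat.floor_le (show 0 ≤ y * (1 + κ) by positivity)
  have h3 := Nat.lt_floor_add_one y
  nlinarith

end W2

open W2

theorem st_W2 (hN : NSt) (hW1 : W1St) : W2St := by
  intro k η ρ hk hη hρ
  obtain ⟨Q, B, K0, hW⟩ := hW1 k (max 1 (4 / η ^ 2)) hk (le_max_left _ _)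
  set R := max 1 (4 / η ^ 2) with hR
  set C := #(code k Q (B * k / ρ + 1)) with hC
  refine ⟨⌈8 * (C : ℝ) / η ^ 2⌉₊, max K0 1, fun κ y f A hκ hκ1 hK hf hA => ?_⟩
  have N1 : 1 ≤ κ * y := (le_max_right _ _).trans hK
  have NK : K0 ≤ κ * y := (le_max_left _ _).trans hK
  have R0 : 0 < R := lt_of_lt_of_le one_pos (le_max_left _ _)
  have hI := card_win hκ N1
  set I := Ioc ⌊y⌋₊ ⌊y * (1 + κ)⌋₊ with hIdef
  have hrow : ∀ α ∈ A, ∑ β ∈ A, ‖∑ n ∈ I, e (-ph k α n) * conj (e (-ph k β n))‖ ≤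
      C * (2 * (κ * y)) + #A * (κ * y / R) := by
    intro α _
    have e1 : ∀ β : Ph, ∑ n ∈ I, e (-ph k α n) * conj (e (-ph k β n)) =
        ∑ n ∈ I, e (ph k (β - α) n) := fun β => by
      refine sum_congr rfl fun n _ => ?_
      rw [e_mul_conj, hN.ph_sub]
      congr 1
      ring
    simp only [e1]
    rw [← sum_filter_add_sum_filter_not A fun β => κ * y / R ≤ ‖∑ n ∈ I, e (ph k (β - α) n)‖]
    refine add_le_add ?_ ?_
    · refine (sum_le_card_nsmul _ _ (2 * (κ * y)) fun β _ => ?_).trans ?_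
      · refine (norm_sum_le _ _).trans ?_
        simpa using hI
      · rw [nsmul_eq_mul]
        refine mul_le_mul_of_nonneg_right ?_ (by linarith)
        exact_mod_cast close hN hk hκ hρ α _
          (fun β hβ => hW κ y _ hκ hκ1 NK (mem_filter.1 hβ).2)
          fun β hβ β' hβ' => hA.2 β (mem_filter.1 hβ).1 β' (mem_filter.1 hβ').1
    · refine (sum_le_card_nsmul _ _ (κ * y / R) fun β hβ =>
        (not_le.1 (mem_filter.1 hβ).2).le).trans ?_
      rw [nsmul_eq_mul]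
      refine mul_le_mul_of_nonneg_right ?_ (by positivity)
      exact_mod_cast card_filter_le _ _
  have hb := bessel I A f (fun α n => e (-ph k α n)) hrow (by positivity)
  have h1 : ∑ n ∈ I, ‖f n‖ ^ 2 ≤ 2 * (κ * y) := by
    refine (sum_le_card_nsmul _ _ 1 fun n _ => pow_le_one₀ (norm_nonneg _) (hf n)).trans ?_
    simpa using hI
  have h2 : #A * (η * (κ * y)) ^ 2 ≤ ∑ α ∈ A, ‖∑ n ∈ I, f n * e (-ph k α n)‖ ^ 2 := by
    rw [← nsmul_eq_mul]
    refine card_nsmul_le_sum _ _ _ fun α hα => pow_le_pow_left₀ (by positivity) ?_ 2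
    have := hA.1 α hα
    rw [cc, norm_mul, norm_inv, Complex.norm_real, Real.norm_of_nonneg (by linarith),
      inv_mul_eq_div, le_div_iff₀ (by linarith)] at this
    exact this
  have h3 := h2.trans (hb.trans (mul_le_mul_of_nonneg_left h1 (by positivity)))
  have h4 : 1 / R ≤ η ^ 2 / 4 := by
    rw [div_le_div_iff₀ R0 (by norm_num)]
    have : 4 / η ^ 2 ≤ R := le_max_right _ _
    rw [div_le_iff₀ (by positivity)] at this
    linarith
  have h5 : (#A : ℝ) ≤ 8 * (C : ℝ) / η ^ 2 := by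
    rw [le_div_iff₀ (by positivity)]
    have a0 : (0 : ℝ) ≤ #A := Nat.cast_nonneg _
    have a1 : 0 < (κ * y) ^ 2 := by positivity
    have a2 : (#A : ℝ) * η ^ 2 * (κ * y) ^ 2 ≤ (4 * C + 2 * #A * (1 / R)) * (κ * y) ^ 2 := by
      calc (#A : ℝ) * η ^ 2 * (κ * y) ^ 2 = #A * (η * (κ * y)) ^ 2 := by ring
        _ ≤ _ := h3
        _ = _ := by ring
    have a3 := le_of_mul_le_mul_right a2 a1
    nlinarith [mul_le_mul_of_nonneg_left h4 a0]
  exact_mod_cast h5.trans (Nat.le_ceil _)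

end Pool.Agent.Lib.MP_028aa5_nt.T
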