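import Pool.Agent.Lib.MP_028aa5_nt.T.St2

/-! Expansion of the powers of the operator of a cover into walks. -/

namespace Pool.Agent.Lib.MP_028aa5_nt.T

open Finset
open scoped ComplexConjugate Classical

namespace Walk

variable (N : Net) {D : Type} (ν : ℝ) (E : Finset N.Ed) (T : N.Ed → D ≃ D)

theorem lin1 {ι : Type} (I : Finset ι) (c : ι → ℝ) (F : ι → N.W → D → ℝ) (x : N.W) (d : D) :
    N.opC ν E T (fun y d' => ∑ i ∈ I, c i * F i y d') x d =
      ∑ i ∈ I, c i * N.opC ν E T (F i) x d := by
  simp only [Net.opC]
  rw [sum_comm, sum_comm (s := {e ∈ E | N.up e = x}), ← sum_add_distrib, mul_sum]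
  refine sum_congr rfl fun i _ => ?_
  rw [← mul_sum, ← mul_sum]
  ring

theorem split {S : Finset ℕ} (h : ∀ e ∈ E, N.pr e ∈ S) (F : N.W → D → ℝ) (x : N.W) (d : D) :
    N.opC ν E T F x d = ∑ p ∈ S, N.opC ν (E.filter fun e => N.pr e = p) T F x d := by
  simp only [Net.opC, filter_comm (fun e => N.pr e = _)]
  rw [← mul_sum, sum_add_distrib, sum_fiberwise_of_maps_to fun e he => h e (mem_filter.1 he).1,
    sum_fiberwise_of_maps_to fun e he => h e (mem_filter.1 he).1]

theorem nonneg (hν : 0 ≤ ν) {F : N.W → D → ℝ} (hF : ∀ x d, 0 ≤ F x d) (l : List ℕ) :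
    ∀ x d, 0 ≤ N.opL ν E T l F x d := by
  induction l with
  | nil => exact hF
  | cons p l ih =>
    exact fun x d => mul_nonneg hν
      (add_nonneg (sum_nonneg fun _ _ => ih _ _) (sum_nonneg fun _ _ => ih _ _))

end Walk

open Walk in
theorem st_Walk (hB : BasSt) : WalkSt where
  exp := by
    intro N D ν E T S m F x d h
    induction m generalizing x d with
    | zero => simp [Net.opL]
    | succ m ih =>
      have e1 : (N.opC ν E T)^[m] F = fun y d' => ∑ l ∈ Fintype.piFinset fun _ : Fin m => S,
          1 * N.opL ν E T (List.ofFn l) F y d' := by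
        funext y d'
        simp only [one_mul, ih]
      rw [Function.iterate_succ_apply', e1, lin1]
      simp only [one_mul, split N ν E T h (N.opL ν E T _ F)]
      rw [← sum_product']
      refine sum_nbij' (fun z => Fin.cons z.2 z.1) (fun l => (Fin.tail l, l 0)) ?_ ?_ ?_ ?_ ?_
      · intro z hz
        rw [mem_product, Fintype.mem_piFinset] at hz
        exact Fintype.mem_piFinset.2 (Fin.cases hz.2 hz.1)
      · intro l hl
        rw [Fintype.mem_piFinset] at hl
        exact mem_product.2 ⟨Fintype.mem_piFinset.2 fun i => hl _, hl 0⟩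
      · intro z _
        simp
      · intro l _
        simp
      · intro z _
        simp [List.ofFn_succ, Net.opL]
  nonneg := fun N D ν E T l F hν hF => nonneg N ν E T hν hF l
  lin := by
    intro N D ι ν E T l I c F x d
    induction l generalizing x d with
    | nil => rfl
    | cons p l ih =>
      simp only [Net.opL]
      rw [← lin1]
      congr 1
      funext y d'
      exact ih y d'
  mass := by
    intro π N D _ E T l F h hE hF
    induction l with
    | nil => simp [Net.opL]
    | cons p l ih =>
      have g0 : ∀ x, 0 ≤ ∑ d, N.opL π.ν E T l F x d :=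
        fun x => sum_nonneg fun d _ => nonneg N _ E T (hB.ν_pos π h).le hF l x d
      have k1 := hB.sym N π.ν (E.filter fun e => N.pr e = p) 1 fun x => ∑ d, N.opL π.ν E T l F x d
      have k2 := hB.sumU π N E {p} _ h hE g0
      have k3 := hB.sumL π N E {p} _ h hE g0
      have k4 := sum_filter_add_sum_filter_not univ (fun x => N.isU x = true)
        fun x => ∑ d, N.opL π.ν E T l F x d
      simp only [mem_singleton, card_singleton, Nat.cast_one, Pi.one_apply, one_mul,
        sum_add_distrib, mul_add, Bool.not_eq_true] at k1 k2 k3 k4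
      simp only [Net.opL, hB.proj]
      rw [k1, List.length_cons, pow_succ', mul_assoc]
      refine le_trans ?_ (mul_le_mul_of_nonneg_left ih (by positivity))
      rw [← k4, mul_add]
      exact add_le_add k2 k3
  mem := by
    intro N D ν E T l F x d h
    induction l generalizing x d with
    | nil => simp
    | cons p l ih =>
      have k : ∃ e ∈ E, N.pr e = p ∧ (x = N.up e ∨ x = N.lo e) ∧
          ∃ y d', N.opL ν E T l F y d' ≠ 0 := by
        by_contra hc
        refine h (mul_eq_zero_of_right _ ?_)
        rw [sum_eq_zero, sum_eq_zero, add_zero] <;> intro e he <;> by_contra h0 <;>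
          simp only [mem_filter] at he
        · exact hc ⟨e, he.1.1, he.1.2, Or.inl he.2.symm, _, _, h0⟩
        · exact hc ⟨e, he.1.1, he.1.2, Or.inr he.2.symm, _, _, h0⟩
      obtain ⟨e, he, h1, h2, y, d', h3⟩ := k
      exact ⟨List.forall_mem_cons.2 ⟨⟨e, he, h1⟩, (ih y d' h3).1⟩, fun _ => ⟨e, he, h2⟩⟩
  projI := by
    intro N D _ ν E T m F x
    induction m generalizing x with
    | zero => rfl
    | succ m ih =>
      rw [Function.iterate_succ_apply', Function.iterate_succ_apply', hB.proj]
      congr 1
      funext y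
      exact ih y

end Pool.Agent.Lib.MP_028aa5_nt.T
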