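import Pool.Agent.Lib.MP_028aa5_nt.T.St1

/-! Choice of a narrow window of primes. -/

namespace Pool.Agent.Lib.MP_028aa5_nt.T

open Finset
open scoped ComplexConjugate Classical

set_option maxHeartbeats 400000

namespace Win

theorem split (g : ℕ → ℝ) (x y z : ℝ) (h1 : x ≤ y) (h2 : y ≤ z) :
    ∑ p ∈ pri x y, g p + ∑ p ∈ pri y z, g p = ∑ p ∈ pri x z, g p := by
  simp only [pri, sum_filter]
  exact sum_Ioc_consecutive _ (Nat.floor_le_floor h1) (Nat.floor_le_floor h2)

theorem tele (g : ℕ → ℝ) (Q : ℕ → ℝ) (hQ : ∀ i, Q i ≤ Q (i + 1)) (n : ℕ) :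
    ∑ i ∈ range n, ∑ p ∈ pri (Q i) (Q (i + 1)), g p = ∑ p ∈ pri (Q 0) (Q n), g p := by
  induction n with
  | zero => simp [pri]
  | succ n ih =>
    rw [sum_range_succ, ih]
    exact split g _ _ _ (monotone_nat_of_le_succ hQ (Nat.zero_le n)) (hQ n)

end Win

theorem st_Win (hP : PrSt) : WinSt := by
  intro δ L hδ hδ1 hL
  obtain ⟨P0, hP0⟩ := hP.win δ hδ hδ1
  refine ⟨Real.exp (4 * L) + 3, max P0 (Real.exp 1), by linarith [Real.exp_pos (4 * L)], ?_⟩
  intro P1 hP1 t C ht hC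
  have hP1a : P0 ≤ P1 := le_trans (le_max_left _ _) hP1
  have hP1b : Real.exp 1 ≤ P1 := le_trans (le_max_right _ _) hP1
  have he2 : (2 : ℝ) ≤ Real.exp 1 := by linarith [Real.add_one_le_exp (1 : ℝ)]
  have hP1p : 0 < P1 := by linarith
  obtain ⟨a, ha⟩ : ∃ a, a = Real.log P1 := ⟨_, rfl⟩
  have ha1 : 1 ≤ a := by
    rw [ha]
    exact (Real.le_log_iff_exp_le hP1p).2 hP1b
  obtain ⟨E, hE⟩ : ∃ E, E = Real.exp (4 * L) := ⟨_, rfl⟩
  have hE0 : 0 < E := by rw [hE]; exact Real.exp_pos _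
  rw [← hE] at hC ⊢
  obtain ⟨Q, hQ⟩ : ∃ Q : ℕ → ℝ, ∀ i, Q i = P1 * (1 + δ) ^ i := ⟨_, fun _ => rfl⟩
  have hQs : ∀ i, Q (i + 1) = (1 + δ) * Q i := fun i => by rw [hQ, hQ]; ring
  have hQ0 : Q 0 = P1 := by rw [hQ]; ring
  have hQ1 : ∀ i, P1 ≤ Q i := fun i => by
    rw [hQ]
    exact le_mul_of_one_le_right hP1p.le (one_le_pow₀ (by linarith))
  have hQp : ∀ i, 0 < Q i := fun i => lt_of_lt_of_le hP1p (hQ1 i)
  have hQm : ∀ i, Q i ≤ Q (i + 1) := fun i => by
    rw [hQs]
    nlinarith [hQp i]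
  have hlog : ∀ i : ℕ, Real.log (Q i) ≤ a + i * δ := fun i => by
    rw [hQ, Real.log_mul hP1p.ne' (by positivity), Real.log_pow, ← ha]
    have h1 : Real.log (1 + δ) ≤ δ := by
      linarith [Real.log_le_sub_one_of_pos (show 0 < 1 + δ by linarith)]
    have h2 := mul_le_mul_of_nonneg_left h1 (Nat.cast_nonneg (α := ℝ) i)
    linarith
  have hlog1 : ∀ i, 1 ≤ Real.log (Q i) := fun i =>
    le_trans ha1 (by rw [ha]; exact Real.log_le_log hP1p (hQ1 i))
  obtain ⟨I, hI⟩ : ∃ I : ℕ, I = ⌈a * E / δ⌉₊ := ⟨_, rfl⟩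
  have hI1 : a * E ≤ I * δ := by
    rw [hI]
    exact (div_le_iff₀ hδ).1 (Nat.le_ceil _)
  have hI2 : I * δ ≤ a * E + 1 := by
    have h1 : (I : ℝ) < a * E / δ + 1 := by
      rw [hI]
      exact Nat.ceil_lt_add_one (by positivity)
    have h2 := mul_le_mul_of_nonneg_right h1.le hδ.le
    rw [add_mul, div_mul_cancel₀ _ hδ.ne'] at h2
    linarith
  have hIp : 0 < I := by
    by_contra h
    have h0 : I = 0 := by omega
    rw [h0] at hI1
    have : 0 < a * E := by positivity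
    simp only [Nat.cast_zero, zero_mul] at hI1
    linarith
  have htop : 2 * Q I ≤ P1 ^ (E + 3) := by
    rw [Real.rpow_def_of_pos hP1p, ← ha]
    have h1 : Q I ≤ Real.exp (a + I * δ) := by
      rw [← Real.exp_log (hQp I)]
      exact Real.exp_le_exp.2 (hlog I)
    have h2 : Real.exp 1 * Real.exp (a + I * δ) ≤ Real.exp (a * (E + 3)) := by
      rw [← Real.exp_add]
      exact Real.exp_le_exp.2 (by nlinarith)
    exact le_trans (mul_le_mul he2 h1 (hQp I).le (Real.exp_pos _).le) h2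
  have hmono : Monotone Q := monotone_nat_of_le_succ hQm
  have hnn : ∀ p : ℕ, 0 ≤ t p / p := fun p => div_nonneg (ht p) (Nat.cast_nonneg p)
  have hC0 : 0 ≤ C := le_trans (sum_nonneg fun p _ => hnn p) hC
  by_contra hcon
  have hfail : ∀ i < I, C / L * #(pri (Q i) ((1 + δ) * Q i)) <
      ∑ p ∈ pri (Q i) ((1 + δ) * Q i), t p := by
    intro i hi
    by_contra h
    exact hcon ⟨Q i, hQ1 i, le_trans (by linarith [hmono hi.le]) htop,
      hP0 _ (le_trans hP1a (hQ1 i)), not_lt.1 h⟩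
  have hwin : ∀ i ∈ range I,
      C / (4 * L) * (Real.log (a + (i + 1 : ℕ) * δ) - Real.log (a + i * δ)) <
        ∑ p ∈ pri (Q i) (Q (i + 1)), t p / p := by
    intro i hi
    have hb : 0 < a + i * δ := by positivity
    have h1 : Real.log (a + (i + 1 : ℕ) * δ) - Real.log (a + i * δ) ≤ δ / (a + i * δ) := by
      have hb' : 0 < a + (i + 1 : ℕ) * δ := by positivity
      rw [← Real.log_div hb'.ne' hb.ne']
      refine le_trans (Real.log_le_sub_one_of_pos (by positivity)) (le_of_eq ?_)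
      push_cast
      field_simp
      ring
    have h2 : δ / (a + i * δ) ≤ δ / Real.log (Q i) :=
      div_le_div_of_nonneg_left hδ.le (by linarith [hlog1 i]) (hlog i)
    have h3 := hP0 _ (le_trans hP1a (hQ1 i))
    have h4 := hfail i (mem_range.1 hi)
    have h5 : (∑ p ∈ pri (Q i) ((1 + δ) * Q i), t p) / (2 * Q i) ≤
        ∑ p ∈ pri (Q i) (Q (i + 1)), t p / p := by
      rw [hQs, sum_div]
      refine sum_le_sum fun p hp => ?_
      obtain ⟨hp1, hp2⟩ := mem_filter.1 hp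
      have hp0 : (0 : ℝ) < p := by exact_mod_cast hp2.pos
      have hp3 : (p : ℝ) ≤ (1 + δ) * Q i :=
        le_trans (Nat.cast_le.2 (mem_Ioc.1 hp1).2)
          (Nat.floor_le (mul_nonneg (by linarith) (hQp i).le))
      exact div_le_div_of_nonneg_left (ht p) hp0 (by nlinarith [hQp i])
    have h6 : C / (4 * L) * (δ / Real.log (Q i)) =
        C / L * (δ * Q i / (2 * Real.log (Q i))) / (2 * Q i) := by
      have := (hQp i).ne'
      have : Real.log (Q i) ≠ 0 := by linarith [hlog1 i]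
      field_simp
      ring
    have h7 : C / L * (δ * Q i / (2 * Real.log (Q i))) / (2 * Q i) <
        (∑ p ∈ pri (Q i) ((1 + δ) * Q i), t p) / (2 * Q i) :=
      div_lt_div_of_pos_right
        (lt_of_le_of_lt (mul_le_mul_of_nonneg_left h3 (by positivity)) h4) (by linarith [hQp i])
    have h8 := mul_le_mul_of_nonneg_left (le_trans h1 h2) (show 0 ≤ C / (4 * L) by positivity)
    linarith
  have hsum := sum_lt_sum_of_nonempty (nonempty_range_iff.2 hIp.ne') hwin
  rw [Win.tele (fun p => t p / p) Q hQm, ← mul_sum,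
    sum_range_sub (fun i : ℕ => Real.log (a + i * δ)), hQ0] at hsum
  have h9 : ∑ p ∈ pri P1 (Q I), t p / p ≤ ∑ p ∈ pri P1 (P1 ^ (E + 3)), t p / p := by
    rw [← Win.split (fun p => t p / p) P1 (Q I) (P1 ^ (E + 3)) (hQ1 I) (by linarith [hQp I])]
    exact le_add_of_nonneg_right (sum_nonneg fun p _ => hnn p)
  have h10 : 4 * L ≤ Real.log (a + I * δ) - Real.log (a + (0 : ℕ) * δ) := by
    have h1 : Real.log (a * E) ≤ Real.log (a + I * δ) :=
      Real.log_le_log (by positivity) (by linarith)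
    rw [Real.log_mul (by linarith) hE0.ne', hE, Real.log_exp] at h1
    simp only [Nat.cast_zero, zero_mul, add_zero]
    linarith
  have h11 := mul_le_mul_of_nonneg_left h10 (show 0 ≤ C / (4 * L) by positivity)
  rw [div_mul_cancel₀ _ (by positivity)] at h11
  linarith

end Pool.Agent.Lib.MP_028aa5_nt.T
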