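import Pool.Agent.Lib.MP_028aa5_nt.T.A0
import Pool.Agent.Lib.MP_028aa5_nt.T.A0a
import Pool.Agent.Lib.MP_028aa5_nt.T.A1
import Pool.Agent.Lib.MP_028aa5_nt.T.A2
import Pool.Agent.Lib.MP_028aa5_nt.T.Bas
import Pool.Agent.Lib.MP_028aa5_nt.T.Blk0
import Pool.Agent.Lib.MP_028aa5_nt.T.BlkA
import Pool.Agent.Lib.MP_028aa5_nt.T.Block
import Pool.Agent.Lib.MP_028aa5_nt.T.Box
import Pool.Agent.Lib.MP_028aa5_nt.T.C
import Pool.Agent.Lib.MP_028aa5_nt.T.Cf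
import Pool.Agent.Lib.MP_028aa5_nt.T.Ch
import Pool.Agent.Lib.MP_028aa5_nt.T.Conf
import Pool.Agent.Lib.MP_028aa5_nt.T.Conv
import Pool.Agent.Lib.MP_028aa5_nt.T.CoreA
import Pool.Agent.Lib.MP_028aa5_nt.T.CoreB
import Pool.Agent.Lib.MP_028aa5_nt.T.Cut
import Pool.Agent.Lib.MP_028aa5_nt.T.Den
import Pool.Agent.Lib.MP_028aa5_nt.T.Dig
import Pool.Agent.Lib.MP_028aa5_nt.T.Dig1
import Pool.Agent.Lib.MP_028aa5_nt.T.E
import Pool.Agent.Lib.MP_028aa5_nt.T.Eb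
import Pool.Agent.Lib.MP_028aa5_nt.T.Eba
import Pool.Agent.Lib.MP_028aa5_nt.T.End
import Pool.Agent.Lib.MP_028aa5_nt.T.F
import Pool.Agent.Lib.MP_028aa5_nt.T.F1
import Pool.Agent.Lib.MP_028aa5_nt.T.Four
import Pool.Agent.Lib.MP_028aa5_nt.T.Ft
import Pool.Agent.Lib.MP_028aa5_nt.T.G0
import Pool.Agent.Lib.MP_028aa5_nt.T.Gq
import Pool.Agent.Lib.MP_028aa5_nt.T.Gr
import Pool.Agent.Lib.MP_028aa5_nt.T.HMi
import Pool.Agent.Lib.MP_028aa5_nt.T.HMp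
import Pool.Agent.Lib.MP_028aa5_nt.T.Hal
import Pool.Agent.Lib.MP_028aa5_nt.T.Hal1
import Pool.Agent.Lib.MP_028aa5_nt.T.Hal3
import Pool.Agent.Lib.MP_028aa5_nt.T.Hat
import Pool.Agent.Lib.MP_028aa5_nt.T.Inv
import Pool.Agent.Lib.MP_028aa5_nt.T.Iter
import Pool.Agent.Lib.MP_028aa5_nt.T.IterX
import Pool.Agent.Lib.MP_028aa5_nt.T.Ker1
import Pool.Agent.Lib.MP_028aa5_nt.T.Ker2
import Pool.Agent.Lib.MP_028aa5_nt.T.L
import Pool.Agent.Lib.MP_028aa5_nt.T.L2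
import Pool.Agent.Lib.MP_028aa5_nt.T.Lam
import Pool.Agent.Lib.MP_028aa5_nt.T.Lev
import Pool.Agent.Lib.MP_028aa5_nt.T.LevX
import Pool.Agent.Lib.MP_028aa5_nt.T.Loop
import Pool.Agent.Lib.MP_028aa5_nt.T.MD
import Pool.Agent.Lib.MP_028aa5_nt.T.Main
import Pool.Agent.Lib.MP_028aa5_nt.T.N
import Pool.Agent.Lib.MP_028aa5_nt.T.N2
import Pool.Agent.Lib.MP_028aa5_nt.T.One
import Pool.Agent.Lib.MP_028aa5_nt.T.PF
import Pool.Agent.Lib.MP_028aa5_nt.T.Pr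
import Pool.Agent.Lib.MP_028aa5_nt.T.Reg
import Pool.Agent.Lib.MP_028aa5_nt.T.Seed
import Pool.Agent.Lib.MP_028aa5_nt.T.Setup
import Pool.Agent.Lib.MP_028aa5_nt.T.Sparse
import Pool.Agent.Lib.MP_028aa5_nt.T.SparseX
import Pool.Agent.Lib.MP_028aa5_nt.T.Src
import Pool.Agent.Lib.MP_028aa5_nt.T.Step
import Pool.Agent.Lib.MP_028aa5_nt.T.Tr
import Pool.Agent.Lib.MP_028aa5_nt.T.W1
import Pool.Agent.Lib.MP_028aa5_nt.T.W2
import Pool.Agent.Lib.MP_028aa5_nt.T.W3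
import Pool.Agent.Lib.MP_028aa5_nt.T.Walk
import Pool.Agent.Lib.MP_028aa5_nt.T.Win

/-! All parts together. -/

namespace Pool.Agent.Lib.MP_028aa5_nt.T

theorem all_N2 : N2St := st_N2 st_N
theorem all_C : CSt := st_C st_N
theorem all_Cf : CfSt := st_Cf st_Bas
theorem all_Ft : FtSt := st_Ft st_Pr
theorem all_W1 : W1St := st_W1 st_N all_N2 st_Ch
theorem all_Walk : WalkSt := st_Walk st_Bas
theorem all_Inv : InvSt := st_Inv st_N all_N2 st_Bas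
theorem all_Ker : KerSt := st_Ker st_Ker1 st_Ker2
theorem all_Box : BoxSt := st_Box all_Ker

theorem all_A2 : A2St :=
  st_A2 (st_One all_C (st_A1 (st_Match st_N) (st_Desc st_N all_N2 all_C st_Bas)) (st_Win st_Pr)) (st_W2 st_N all_W1)

theorem all_Iter : IterSt :=
  st_Iter (st_Step st_N st_Bas all_Cf st_PF (st_Src st_Bas) (st_Boost st_Bas all_Cf)
    (st_Conf st_N all_N2 st_Bas all_Walk all_Inv st_Ab)
    (st_Dig (st_Dig1 st_Bas all_Cf) (st_Dig2 st_Bas)))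

theorem all_Lev : LevSt :=
  st_Lev st_N all_N2 st_Bas (st_Seed all_N2 st_Bas
    (st_Loop all_N2 st_Bas all_Cf st_PF all_Walk all_Inv st_Ab) st_Int) (st_Cut st_Bas)

theorem all_Block : BlockSt :=
  st_Block (st_BlkA st_N all_N2 st_Bas st_Den st_Lab (st_Blk0 st_Bas st_Den)) st_Den

theorem all_Hal : HalSt :=
  st_Hal st_Conv (st_Hal1 st_Gr) (st_Hal2 st_Gr) (st_Hal3 st_Gr)
    (st_F all_Ft st_F1 (st_L2 (st_L all_Ker))) st_Gr all_Ft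

theorem all_E : ESt :=
  st_E (st_Ec (st_Eb (st_Eba all_Ft st_Gr) (st_HMi all_Box) (st_HMp all_Box) all_Hal st_Pr st_Gr)
    (st_Gq st_N st_Den st_G0 (st_W3 all_W1 all_N2)) st_G0 (st_HMi all_Box) st_Gr all_Ft)
    (st_HMp all_Box) st_G0 all_Ft st_Pr

theorem all_CoreB : CoreBSt :=
  st_CoreB (st_End st_N all_C st_Bas st_Four st_Ch st_Lam (st_Tr st_N all_C st_Bas st_Den))
    (st_SparseX st_Reg (st_Sparse st_Ch st_Ab st_Bas)) (st_Hat st_Ch st_Gr st_G0) all_E all_Ft st_Reg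

theorem all_Main : MainSt :=
  st_Main all_Ft st_Reg (st_A0 (st_A0a st_Meas) all_Ft) all_A2
    (st_Core st_Bas (st_CoreA (st_IterX all_Iter st_Reg st_Bas) (st_LevX all_Lev st_Reg st_Bas) all_Block st_Bas st_Reg st_Den)
      all_CoreB) (st_Setup st_Pr)

end Pool.Agent.Lib.MP_028aa5_nt.T
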