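import Pool.Agent.Lib.MP_028aa5_nt.T.St2

/-! Basic properties of the adjacency operators and of the conflict weights. -/

namespace Pool.Agent.Lib.MP_028aa5_nt.T

open Finset
open scoped ComplexConjugate Classical

namespace Cf

variable (N : Net) (D : Type) (ν : ℝ) (E : Finset N.Ed) (T : N.Ed → D ≃ D)

theorem linB1 (u v : N.W → ℝ) (a b : ℝ) (x : N.W) :
    N.opB ν E (fun y => a * u y + b * v y) x = a * N.opB ν E u x + b * N.opB ν E v x := by
  simp only [Net.opB, sum_add_distrib, ← mul_sum]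
  ring

theorem linC1 (F F' : N.W → D → ℝ) (a b : ℝ) (x : N.W) (d : D) :
    N.opC ν E T (fun y d' => a * F y d' + b * F' y d') x d =
      a * N.opC ν E T F x d + b * N.opC ν E T F' x d := by
  simp only [Net.opC, sum_add_distrib, ← mul_sum]
  ring

theorem linB (u v : N.W → ℝ) (a b : ℝ) (i : ℕ) :
    (N.opB ν E)^[i] (fun y => a * u y + b * v y) =
      fun x => a * (N.opB ν E)^[i] u x + b * (N.opB ν E)^[i] v x := by
  induction i with
  | zero => rfl
  | succ i ih =>
    funext x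
    rw [Function.iterate_succ_apply', Function.iterate_succ_apply', Function.iterate_succ_apply',
      ih, linB1]

theorem linC (F F' : N.W → D → ℝ) (a b : ℝ) (i : ℕ) :
    (N.opC ν E T)^[i] (fun y d' => a * F y d' + b * F' y d') =
      fun x d => a * (N.opC ν E T)^[i] F x d + b * (N.opC ν E T)^[i] F' x d := by
  induction i with
  | zero => rfl
  | succ i ih =>
    funext x d
    rw [Function.iterate_succ_apply', Function.iterate_succ_apply', Function.iterate_succ_apply',
      ih, linC1]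

theorem posC (F : N.W → D → ℝ) (i : ℕ) (hν : 0 ≤ ν) (hF : ∀ x d, 0 ≤ F x d) :
    ∀ x d, 0 ≤ (N.opC ν E T)^[i] F x d := by
  induction i with
  | zero => exact hF
  | succ i ih =>
    intro x d
    rw [Function.iterate_succ_apply']
    exact mul_nonneg hν (add_nonneg (sum_nonneg fun e _ => ih _ _) (sum_nonneg fun e _ => ih _ _))

theorem monoB (E' : Finset N.Ed) (u v : N.W → ℝ) (hν : 0 ≤ ν) (hE : E' ⊆ E) (hv : ∀ x, 0 ≤ v x)
    (huv : ∀ x, u x ≤ v x) (x : N.W) : N.opB ν E' u x ≤ N.opB ν E v x := by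
  refine mul_le_mul_of_nonneg_left (add_le_add ?_ ?_) hν
  · exact (sum_le_sum fun e _ => huv _).trans
      (sum_le_sum_of_subset_of_nonneg (filter_subset_filter _ hE) fun e _ _ => hv _)
  · exact (sum_le_sum fun e _ => huv _).trans
      (sum_le_sum_of_subset_of_nonneg (filter_subset_filter _ hE) fun e _ _ => hv _)

theorem adjB1 (hB : BasSt) (u v : N.W → ℝ) :
    ∑ x, u x * N.opB ν E v x = ∑ x, N.opB ν E u x * v x := by
  have h : ∑ x, N.opB ν E u x * v x = ∑ x, v x * N.opB ν E u x :=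
    sum_congr rfl fun x _ => mul_comm _ _
  rw [h, hB.sym, hB.sym]
  congr 1
  exact sum_congr rfl fun e _ => by ring

theorem adjB (hB : BasSt) (u v : N.W → ℝ) (i j : ℕ) :
    ∑ x, (N.opB ν E)^[i] u x * (N.opB ν E)^[j] v x = ∑ x, (N.opB ν E)^[i + j] u x * v x := by
  induction j generalizing i with
  | zero => rfl
  | succ j ih =>
    rw [Function.iterate_succ_apply', adjB1 N ν E hB,
      ← Function.iterate_succ_apply' (N.opB ν E), ih, Nat.succ_add_eq_add_succ]

theorem Qf (hB : BasSt) (u : N.W → ℝ) : N.Qf ν E u = ∑ x, u x * N.opB ν E u x := by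
  rw [hB.sym, Net.Qf, mul_comm 2 ν, mul_assoc, mul_sum]
  congr 1
  exact sum_congr rfl fun e _ => by ring

variable [Fintype D]

theorem adjC1 (hB : BasSt) (F F' : N.W → D → ℝ) :
    ∑ x, ∑ d, F x d * N.opC ν E T F' x d = ∑ x, ∑ d, N.opC ν E T F x d * F' x d := by
  have h : ∑ x, ∑ d, N.opC ν E T F x d * F' x d = ∑ x, ∑ d, F' x d * N.opC ν E T F x d :=
    sum_congr rfl fun x _ => sum_congr rfl fun d _ => mul_comm _ _
  rw [h, hB.symC, hB.symC]
  congr 1
  exact sum_congr rfl fun e _ => sum_congr rfl fun d _ => by ring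

theorem adjC (hB : BasSt) (F F' : N.W → D → ℝ) (i j : ℕ) :
    ∑ x, ∑ d, (N.opC ν E T)^[i] F x d * (N.opC ν E T)^[j] F' x d =
      ∑ x, ∑ d, (N.opC ν E T)^[i + j] F x d * F' x d := by
  induction j generalizing i with
  | zero => rfl
  | succ j ih =>
    rw [Function.iterate_succ_apply', adjC1 N D ν E T hB,
      ← Function.iterate_succ_apply' (N.opC ν E T), ih, Nat.succ_add_eq_add_succ]

theorem projI (hB : BasSt) (σ : N.W → D → ℝ) (i : ℕ) :
    (fun x => ∑ d, (N.opC ν E T)^[i] σ x d) = (N.opB ν E)^[i] fun y => ∑ d, σ y d := by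
  induction i with
  | zero => rfl
  | succ i ih =>
    funext x
    rw [Function.iterate_succ_apply', Function.iterate_succ_apply', hB.proj, ih]

theorem nonneg (hB : BasSt) (σ : N.W → D → ℝ) (i : ℕ) (hν : 0 ≤ ν) (hσ : ∀ x d, 0 ≤ σ x d) :
    0 ≤ N.conf ν E T σ i := by
  rw [Net.conf, sub_nonneg, ← projI N D ν E T hB]
  refine sum_le_sum fun x _ => ?_
  rw [sum_mul]
  exact sum_le_sum fun d _ => mul_le_mul_of_nonneg_left
    (single_le_sum (fun d' _ => hσ x d') (mem_univ d)) (posC N D ν E T σ i hν hσ x d)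

theorem boost (hB : BasSt) (σ : N.W → D → ℝ) (c : ℝ) (i : ℕ) :
    N.conf ν E T (fun x d => σ x d + c * N.opC ν E T σ x d) i =
      N.conf ν E T σ i + 2 * c * N.conf ν E T σ (i + 1) + c ^ 2 * N.conf ν E T σ (i + 2) := by
  set s : N.W → ℝ := fun y => ∑ d, σ y d with hs
  have h0 : ∀ y, ∑ d, (σ y d + c * N.opC ν E T σ y d) = 1 * s y + c * N.opB ν E s y := by
    intro y
    rw [sum_add_distrib, ← mul_sum, hB.proj, one_mul]
  have h1 : (fun x d => σ x d + c * N.opC ν E T σ x d) =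
      fun x d => 1 * σ x d + c * N.opC ν E T σ x d := by simp only [one_mul]
  have b1 := adjB N ν E hB s s i 1
  have b2 := adjB N ν E hB s s (i + 1) 1
  have c1 := adjC N D ν E T hB σ σ i 1
  have c2 := adjC N D ν E T hB σ σ (i + 1) 1
  rw [Function.iterate_one] at b1 b2 c1 c2
  have eB : ∑ x, (N.opB ν E)^[i] (fun y => 1 * s y + c * N.opB ν E s y) x *
      (1 * s x + c * N.opB ν E s x) =
      ∑ x, (N.opB ν E)^[i] s x * s x + c * ∑ x, (N.opB ν E)^[i] s x * N.opB ν E s x +
        c * ∑ x, (N.opB ν E)^[i + 1] s x * s x +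
        c ^ 2 * ∑ x, (N.opB ν E)^[i + 1] s x * N.opB ν E s x := by
    rw [linB, ← Function.iterate_succ_apply (N.opB ν E)]
    simp only [mul_sum, ← sum_add_distrib]
    exact sum_congr rfl fun x _ => by ring
  have eC : ∑ x, ∑ d, (N.opC ν E T)^[i] (fun x d => σ x d + c * N.opC ν E T σ x d) x d *
      (σ x d + c * N.opC ν E T σ x d) =
      ∑ x, ∑ d, (N.opC ν E T)^[i] σ x d * σ x d +
        c * ∑ x, ∑ d, (N.opC ν E T)^[i] σ x d * N.opC ν E T σ x d +
        c * ∑ x, ∑ d, (N.opC ν E T)^[i + 1] σ x d * σ x d +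
        c ^ 2 * ∑ x, ∑ d, (N.opC ν E T)^[i + 1] σ x d * N.opC ν E T σ x d := by
    rw [h1, linC, ← Function.iterate_succ_apply (N.opC ν E T)]
    simp only [mul_sum, ← sum_add_distrib]
    exact sum_congr rfl fun x _ => sum_congr rfl fun d _ => by ring
  simp only [Net.conf, h0]
  rw [eB, eC, b1, b2, c1, c2]
  ring

end Cf

theorem st_Cf (hB : BasSt) : CfSt where
  nonneg N D _ ν E T σ i hν hσ := Cf.nonneg N D ν E T hB σ i hν hσ
  adjB N ν E u v i j := Cf.adjB N ν E hB u v i j
  adjC N D _ ν E T F F' i j := Cf.adjC N D ν E T hB F F' i j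
  linB N ν E u v a b i x := congrFun (Cf.linB N ν E u v a b i) x
  linC N D ν E T F F' a b i x d := congrFun (congrFun (Cf.linC N D ν E T F F' a b i) x) d
  monoB N ν E E' u v hν hE hv huv x := Cf.monoB N ν E E' u v hν hE hv huv x
  posC N D ν E T F i hν hF := Cf.posC N D ν E T F i hν hF
  Qf N ν E u := Cf.Qf N ν E hB u
  boost N D _ ν E T σ c i := Cf.boost N D ν E T hB σ c i

end Pool.Agent.Lib.MP_028aa5_nt.T
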