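import Pool.Agent.Lib.MP_028aa5_nt.Primes
import Pool.Agent.Lib.MP_028aa5_nt.TK
import Mathlib.NumberTheory.ArithmeticFunction.Liouville

/-! Definitions for the range `exp (C (log X)^(1/3))` of local uniformity for polynomial phases. -/

namespace Pool.Agent.Lib.MP_028aa5_nt.T

open Finset
open scoped ComplexConjugate Classical

/-- a phase is a vector of coefficients, only the places `1, ..., k` matter -/
abbrev Ph := ℕ → ℝ

/-- value of the phase -/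
noncomputable def ph (k : ℕ) (α : Ph) (x : ℝ) : ℝ := ∑ j ∈ Icc 1 k, α j * x ^ j

/-- the phase `x ↦ α (a x)` -/
noncomputable def dil (a : ℝ) (α : Ph) : Ph := fun j => a ^ j * α j

/-- coefficient of `z ^ j` in `α (y (1 + z))` -/
noncomputable def tc (k : ℕ) (y : ℝ) (α : Ph) (j : ℕ) : ℝ :=
  ∑ i ∈ Icc j k, (i.choose j : ℝ) * (α i * y ^ i)

/-- weighted norm of a vector of local coefficients -/
noncomputable def wn (k : ℕ) (κ : ℝ) (t : Ph) : ℝ := ∑ j ∈ Icc 1 k, κ ^ j * |t j|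

/-- local size of a phase on the interval `(y, y (1 + κ)]` -/
noncomputable def nm (k : ℕ) (κ y : ℝ) (α : Ph) : ℝ := wn k κ (tc k y α)

/-- lattice vector -/
noncomputable def lat (c : ℝ) (z : ℕ → ℤ) : Ph := fun j => c ^ j * z j

/-- `α` is within `ρ` of the lattice of level `c` -/
def Cl (k : ℕ) (κ c y ρ : ℝ) (α : Ph) : Prop := ∃ z : ℕ → ℤ, nm k κ y (α - lat c z) ≤ ρ

/-- equality modulo integer vectors -/
def EqZ (k : ℕ) (α β : Ph) : Prop := ∀ j ∈ Icc 1 k, ∃ n : ℤ, α j = β j + n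

/-- normalised correlation on `(y, y (1 + κ)]` -/
noncomputable def cc (k : ℕ) (κ : ℝ) (f : ℕ → ℂ) (y : ℝ) (α : Ph) : ℂ :=
  ((κ * y : ℝ) : ℂ)⁻¹ * ∑ n ∈ Ioc ⌊y⌋₊ ⌊y * (1 + κ)⌋₊, f n * e (-ph k α n)

/-- a separated family of phases that correlate with `f` -/
def Fam (k : ℕ) (κ : ℝ) (f : ℕ → ℂ) (η ρ y : ℝ) (A : Finset Ph) : Prop :=
  (∀ α ∈ A, η ≤ ‖cc k κ f y α‖) ∧ ∀ α ∈ A, ∀ β ∈ A, α ≠ β → ¬Cl k κ 1 y ρ (α - β)

/-- numerical data: degree, fine step, fine points per cell, cells per interval, primes -/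
structure Par where
  k : ℕ
  κ0 : ℝ
  Nf : ℕ
  G : ℕ
  P : ℝ
  PP : Finset ℕ
  M : ℕ

namespace Par

noncomputable def κ1 (π : Par) : ℝ := π.Nf * π.κ0
noncomputable def κ (π : Par) : ℝ := Real.exp (π.G * π.κ1) - 1
/-- fine position -/
noncomputable def yy (π : Par) (j : ℕ) : ℝ := Real.exp (j * π.κ0)
/-- position of a cell -/
noncomputable def ps (π : Par) (c : ℕ) : ℝ := Real.exp (c * π.κ1)
/-- rounded logarithm -/
noncomputable def lg (π : Par) (n : ℕ) : ℕ := ⌈Real.log n / π.κ0⌉₊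
/-- weight of an edge -/
noncomputable def ν (π : Par) : ℝ := 1 / (π.Nf * #π.PP)

structure Ok (π : Par) : Prop where
  k1 : 1 ≤ π.k
  κ0 : 0 < π.κ0
  Nf : 1 ≤ π.Nf
  G : 1 ≤ π.G
  κ : π.κ ≤ 1
  P : 2 ≤ π.P
  ne : π.PP.Nonempty
  pr : ∀ p ∈ π.PP, p.Prime ∧ π.P < p ∧ p ≤ 2 * π.P

end Par

/-- a bipartite multigraph; an edge has an upper and a lower end, a prime and a fine position -/
structure Net where
  W : Type
  [fW : Fintype W]
  Ed : Type
  up : Ed → W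
  lo : Ed → W
  pr : Ed → ℕ
  fj : Ed → ℕ
  isU : W → Bool
  cell : W → ℕ

attribute [instance] Net.fW

namespace Net

variable (N : Net)

/-- adjacency operator -/
noncomputable def opB (ν : ℝ) (E : Finset N.Ed) (u : N.W → ℝ) (x : N.W) : ℝ :=
  ν * (∑ e ∈ E with N.lo e = x, u (N.up e) + ∑ e ∈ E with N.up e = x, u (N.lo e))

/-- its quadratic form -/
noncomputable def Qf (ν : ℝ) (E : Finset N.Ed) (u : N.W → ℝ) : ℝ :=
  2 * ν * ∑ e ∈ E, u (N.up e) * u (N.lo e)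

/-- the top eigenvalue is at least `lam` -/
def Ray (ν : ℝ) (E : Finset N.Ed) (lam : ℝ) : Prop :=
  ∃ u : N.W → ℝ, 0 < ∑ x, u x ^ 2 ∧ lam * ∑ x, u x ^ 2 ≤ N.Qf ν E u

/-- adjacency operator of the cover given by the bijections `T e` from upper to lower digits -/
noncomputable def opC {D : Type} (ν : ℝ) (E : Finset N.Ed) (T : N.Ed → D ≃ D)
    (F : N.W → D → ℝ) (x : N.W) (d : D) : ℝ :=
  ν * (∑ e ∈ E with N.lo e = x, F (N.up e) ((T e).symm d) +
    ∑ e ∈ E with N.up e = x, F (N.lo e) (T e d))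

/-- weight of the walks of length `m` that join two sources with different digits -/
noncomputable def conf {D : Type} [Fintype D] (ν : ℝ) (E : Finset N.Ed) (T : N.Ed → D ≃ D)
    (σ : N.W → D → ℝ) (m : ℕ) : ℝ :=
  ∑ x, (N.opB ν E)^[m] (fun y => ∑ d, σ y d) x * ∑ d, σ x d -
    ∑ x, ∑ d, (N.opC ν E T)^[m] σ x d * σ x d

/-- walks with a prescribed list of primes, the head of the list is the last step -/
noncomputable def opL {D : Type} (ν : ℝ) (E : Finset N.Ed) (T : N.Ed → D ≃ D) :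
    List ℕ → (N.W → D → ℝ) → N.W → D → ℝ
  | [], F => F
  | p :: l, F => N.opC ν (E.filter fun e => N.pr e = p) T (opL ν E T l F)

/-- position of a vertex -/
noncomputable def pos (π : Par) (x : N.W) : ℝ := π.ps (N.cell x)

structure Is (π : Par) (E : Finset N.Ed) : Prop where
  up : ∀ e ∈ E, N.isU (N.up e) = true
  lo : ∀ e ∈ E, N.isU (N.lo e) = false
  pr : ∀ e ∈ E, N.pr e ∈ π.PP
  cu : ∀ e ∈ E, N.fj e / π.Nf = N.cell (N.up e)
  le : ∀ e ∈ E, π.lg (N.pr e) ≤ N.fj e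
  cl : ∀ e ∈ E, (N.fj e - π.lg (N.pr e)) / π.Nf = N.cell (N.lo e)
  iu : ∀ e ∈ E, ∀ e' ∈ E, N.fj e = N.fj e' → N.pr e = N.pr e' → N.up e = N.up e' → e = e'
  il : ∀ e ∈ E, ∀ e' ∈ E, N.fj e = N.fj e' → N.pr e = N.pr e' → N.lo e = N.lo e' → e = e'
  mu : ∀ b c, #{x | N.isU x = b ∧ N.cell x = c} ≤ π.M

/-- the phases `φ` are compatible along the edges modulo the lattice of level `R` -/
def Lv (π : Par) (R ρ : ℝ) (φ : N.W → Ph) (E : Finset N.Ed) : Prop :=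
  ∀ e ∈ E, Cl π.k π.κ R (N.pos π (N.lo e)) ρ (φ (N.lo e) - dil (N.pr e) (φ (N.up e)))

end Net

/-- the modulus `r ^ j` (for `r ≥ 1`) -/
def md (r j : ℕ) : ℕ := max r 1 ^ j

instance (r j : ℕ) : NeZero (md r j) := ⟨by unfold md; positivity⟩

/-- digits modulo `r` -/
abbrev Dg (k r : ℕ) := (j : Fin (k + 1)) → ZMod (md r j.val)

/-- source of digits: lower ends of the edges of prime `r` whose upper end has comparable weight -/
noncomputable def src (π : Par) (N : Net) (E : Finset N.Ed) (w : N.W → ℝ) (zf : N.Ed → ℕ → ℤ)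
    (r : ℕ) (x : N.W) (d : Dg π.k r) : ℝ :=
  w x * #{e ∈ E | N.pr e = r ∧ N.lo e = x ∧ w x ≤ 2 * w (N.up e) ∧
    d = fun j : Fin (π.k + 1) => ((-zf e j.val : ℤ) : ZMod (md r j.val))} / π.Nf

/-- products of the primes of the downward and of the upward steps of a walk that starts on the
side `s` (`true` = upper side); the head of the list is the last step -/
def ab (s : Bool) : List ℕ → ℕ × ℕ
  | [] => (1, 1)
  | p :: l => if s.xor (l.length % 2 == 1) then ((ab s l).1 * p, (ab s l).2)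
      else ((ab s l).1, (ab s l).2 * p)

/-- the unit given by `p` -/
noncomputable def un (q p : ℕ) : (ZMod q)ˣ :=
  if h : Nat.Coprime p q then ZMod.unitOfCoprime p h else 1

/-- the primes in `(x, y]` -/
noncomputable def pri (x y : ℝ) : Finset ℕ := (Ioc ⌊x⌋₊ ⌊y⌋₊).filter Nat.Prime

/-- the primes in `(2 ^ i, 2 ^ i']` -/
def SS (i i' : ℕ) : Finset ℕ := (Ioc (2 ^ i) (2 ^ i')).filter Nat.Prime

/-- sum of reciprocals -/
noncomputable def LL (S : Finset ℕ) : ℝ := ∑ p ∈ S, 1 / (p : ℝ)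

/-- the Liouville function -/
noncomputable def lio (n : ℕ) : ℂ := (ArithmeticFunction.liouville n : ℤ)

/-- the Liouville function weighted by the number of prime factors in `S` -/
noncomputable def fw (S : Finset ℕ) (B : ℕ) (n : ℕ) : ℂ :=
  lio n * ((min #{p ∈ S | p ∣ n} B : ℕ) : ℂ) / B

/-- `q` is the exact common denominator of `γ` -/
def Den (k q : ℕ) (γ : Ph) : Prop :=
  1 ≤ q ∧ EqZ k (fun j => q * γ j) 0 ∧ ∀ q' : ℕ, 1 ≤ q' → EqZ k (fun j => q' * γ j) 0 → q ∣ q'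

/-- component of the rational phase along a character -/
noncomputable def gch (k q : ℕ) [NeZero q] (γ : Ph) (χ : DirichletCharacter ℂ q) (n : ℕ) : ℂ :=
  (q.totient : ℂ)⁻¹ * ∑ a : (ZMod q)ˣ, conj (χ a) * e (-ph k γ ((a : ZMod q).val * n))

/-- correlation with a rational phase times a fixed function of `n / y` -/
noncomputable def cs (k : ℕ) (κ : ℝ) (f : ℕ → ℂ) (γ t : Ph) (y : ℝ) (a : ℕ) : ℂ :=
  ((κ * y : ℝ) : ℂ)⁻¹ * ∑ n ∈ Ioc ⌊y⌋₊ ⌊y * (1 + κ)⌋₊,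
    f n * e (-ph k γ (a * n) - ph k t (n / y - 1))

/-- the kernel on the cyclic group of fine positions -/
noncomputable def ker (π : Par) (N0 : ℕ) (t : Ph) (i : ZMod N0) : ℂ :=
  if 0 < i.val ∧ i.val ≤ π.G * π.Nf then e (-ph π.k t (π.yy i.val - 1)) else 0

/-- the model of `cs` on the finite group -/
noncomputable def Lam (π : Par) (N0 q : ℕ) (S : Finset ℕ) (f : ℕ → ℂ) (γ t : Ph)
    (g : ZMod N0 × (ZMod q)ˣ) : ℂ :=
  (π.κ : ℂ)⁻¹ * ∑ n ∈ S, f n / n * e (-ph π.k γ ((g.2 : ZMod q).val * n)) *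
    ker π N0 t ((π.lg n : ZMod N0) - g.1)

/-- characters of the finite group -/
noncomputable def ch (N0 q : ℕ) (ξ : ZMod N0 × DirichletCharacter ℂ q)
    (g : ZMod N0 × (ZMod q)ˣ) : ℂ :=
  e ((ξ.1.val * g.1.val : ℝ) / N0) * ξ.2 g.2

/-- eigenvalue of the averaged dilation -/
noncomputable def mul (π : Par) (N0 q : ℕ) (ξ : ZMod N0 × DirichletCharacter ℂ q) : ℂ :=
  (#π.PP : ℂ)⁻¹ * ∑ p ∈ π.PP, e (-(ξ.1.val * π.lg p : ℝ) / N0) * ξ.2 p

/-- the bilinear truncation of `fw`: `p` in a dyadic block, cofactor in `(Mi i, 64 Mi i]` -/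
noncomputable def ft (i0 i1 B : ℕ) (Mi : ℕ → ℝ) (n : ℕ) : ℂ :=
  lio n * (#{ip ∈ (Ico i0 i1).sigma fun i => blk (2 ^ i) | ip.2 ∣ n ∧
    n / ip.2 ∈ Ioc ⌊Mi ip.1⌋₊ ⌊64 * Mi ip.1⌋₊} : ℕ) / B

/-- twisted sums -/
noncomputable def tw (a g : ℕ → ℂ) (t : ℝ) (S : Finset ℕ) : ℂ :=
  ∑ m ∈ S, a m * g m / m * e (-t * Real.log m)

/-- twisted sums of the Liouville function -/
noncomputable def FF (g : ℕ → ℂ) (t M : ℝ) : ℂ := tw lio g t (Ioc ⌊M⌋₊ ⌊64 * M⌋₊)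

/-- a family of `q`-periodic functions that transform by the characters -/
structure GF (q : ℕ) (g : DirichletCharacter ℂ q → ℕ → ℂ) : Prop where
  per : ∀ χ n, g χ (n + q) = g χ n
  bd : ∀ χ n, ‖g χ n‖ ≤ 1
  mul : ∀ χ d n, Nat.Coprime d q → g χ (d * n) = χ d * g χ n
  orth : ∀ χ χ', χ ≠ χ' → ∑ m ∈ range q, g χ m * conj (g χ' m) = 0

/-- Fourier coefficient on a finite set -/
noncomputable def hat {Γ Ξ : Type} [Fintype Γ] (c : Ξ → Γ → ℂ) (Λ : Γ → ℂ) (ξ : Ξ) : ℂ :=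
  (Fintype.card Γ : ℂ)⁻¹ * ∑ g, Λ g * conj (c ξ g)

/-- quotient of two characters -/
noncomputable def dv (N0 q : ℕ) (ξ ξ' : ZMod N0 × DirichletCharacter ℂ q) :
    ZMod N0 × DirichletCharacter ℂ q := (ξ.1 - ξ'.1, ξ.2 * ξ'.2⁻¹)

/-- quotients of characters with a large eigenvalue -/
noncomputable def spec (π : Par) (N0 q : ℕ) [NeZero N0] [NeZero q] :
    Finset (ZMod N0 × DirichletCharacter ℂ q) :=
  image₂ (dv N0 q) {ξ | 1 / 2 ≤ ‖mul π N0 q ξ‖} {ξ | 1 / 2 ≤ ‖mul π N0 q ξ‖}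

/-- dilation by `p` on the finite group -/
noncomputable def sh (π : Par) (N0 q p : ℕ) :
    ZMod N0 × (ZMod q)ˣ ≃ ZMod N0 × (ZMod q)ˣ :=
  (Equiv.subRight (π.lg p : ZMod N0)).prodCongr (Equiv.mulRight (un q p))

/-- rounded binary logarithm -/
noncomputable def lq (N n : ℕ) : ℤ := ⌈N * Real.logb 2 n⌉

/-- grid of positions -/
noncomputable def pw (N : ℕ) (j : ℤ) : ℝ := (2 : ℝ) ^ ((j : ℝ) / N)

/-- window sums on the grid -/
noncomputable def hb (N Z : ℕ) (b : ℕ → ℂ) (v : ℤ) : ℂ :=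
  ∑ d ∈ Icc 1 Z with 1 ≤ lq N d - v ∧ lq N d - v ≤ 6 * N, b d

/-- their convolution with the weights `a` -/
noncomputable def hc (N Z : ℕ) (a b : ℕ → ℂ) (v : ℤ) : ℂ :=
  ∑ n ∈ Icc 1 Z, a n * hb N Z b (v - lq N n)

/-- the asymptotic regime -/
structure Reg (π : Par) (X C D : ℝ) : Prop where
  ok : π.Ok
  lo : Real.exp (300 * π.k * Real.log X ^ (1 / 3 : ℝ)) ≤ π.P
  hi : π.P ≤ Real.exp (C * Real.log X ^ (1 / 3 : ℝ))
  pp : π.P / (D * Real.log π.P) ≤ #π.PP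
  κ0 : π.κ0 = X ^ (-(7 * π.k + 4 : ℝ))
  κlo : 1 / X ≤ π.κ
  κhi : π.κ ≤ X ^ (-(1 / 2 : ℝ))

/-- the quantity of the problem for polynomial phases of degree at most `k` -/
noncomputable def supS (k : ℕ) (H x : ℝ) : ℝ :=
  ⨆ Q : {Q : Polynomial ℝ // Q.natDegree ≤ k},
    ‖∑ n ∈ Ioc ⌊x⌋₊ ⌊x + H⌋₊, lio n * e (Q.1.eval (n : ℝ))‖

end Pool.Agent.Lib.MP_028aa5_nt.T
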