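import Pool.Agent.Lib.MP_028aa5_nt.T.St4

/-! Twisted sums of the Liouville function: bounded denominators. -/

namespace Pool.Agent.Lib.MP_028aa5_nt.T

open Finset
open scoped ComplexConjugate Classical

namespace Eb

theorem three (a b c : ℂ) : ‖a - b - c‖ ^ 2 ≤ 3 * ‖a‖ ^ 2 + 3 * ‖b‖ ^ 2 + 3 * ‖c‖ ^ 2 := by
  have h : ‖a - b - c‖ ≤ ‖a‖ + ‖b‖ + ‖c‖ :=
    (norm_sub_le _ _).trans (add_le_add (norm_sub_le _ _) le_rfl)
  have h2 := pow_le_pow_left₀ (norm_nonneg _) h 2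
  nlinarith [sq_nonneg (‖a‖ - ‖b‖), sq_nonneg (‖a‖ - ‖c‖), sq_nonneg (‖b‖ - ‖c‖)]

theorem norm_inv_LL {S : Finset ℕ} (hL : 0 < LL S) (z : ℂ) :
    ‖(LL S : ℂ)⁻¹ * z‖ ^ 2 = ‖z‖ ^ 2 / LL S ^ 2 := by
  rw [norm_mul, norm_inv, Complex.norm_real, Real.norm_eq_abs, abs_of_pos hL, mul_pow, inv_pow,
    inv_mul_eq_div]

theorem jensen {S : Finset ℕ} (hL : 0 < LL S) (c D : ℕ → ℂ) (hc : ∀ p ∈ S, ‖c p‖ ≤ 1 / (p : ℝ)) :
    ‖(LL S : ℂ)⁻¹ * ∑ p ∈ S, c p * D p‖ ^ 2 ≤ (∑ p ∈ S, 1 / (p : ℝ) * ‖D p‖ ^ 2) / LL S := by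
  have h1 : ‖∑ p ∈ S, c p * D p‖ ≤ ∑ p ∈ S, 1 / (p : ℝ) * ‖D p‖ :=
    (norm_sum_le _ _).trans (sum_le_sum fun p hp => by
      rw [norm_mul]
      exact mul_le_mul_of_nonneg_right (hc p hp) (norm_nonneg _))
  have h2 : (∑ p ∈ S, 1 / (p : ℝ) * ‖D p‖) ^ 2 ≤
      (∑ p ∈ S, 1 / (p : ℝ)) * ∑ p ∈ S, 1 / (p : ℝ) * ‖D p‖ ^ 2 :=
    sum_sq_le_sum_mul_sum_of_sq_le_mul S (fun p _ => by positivity) (fun p _ => by positivity)
      fun p _ => le_of_eq (by ring)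
  have h3 := (pow_le_pow_left₀ (norm_nonneg _) h1 2).trans h2
  rw [norm_inv_LL hL, div_le_div_iff₀ (by positivity) hL]
  have e1 : (∑ p ∈ S, 1 / (p : ℝ)) = LL S := rfl
  rw [e1] at h3
  nlinarith

theorem cs {ι : Type} (B : Finset ι) (x : ι → ℂ) :
    ‖∑ b ∈ B, x b‖ ^ 2 ≤ #B * ∑ b ∈ B, ‖x b‖ ^ 2 :=
  (pow_le_pow_left₀ (norm_nonneg _) (norm_sum_le _ _) 2).trans sq_sum_le_card_mul_sum_sq

theorem e8 : (64 : ℝ) ≤ Real.exp 8 := by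
  have h1 : (2 : ℝ) ≤ Real.exp 1 := by linarith [Real.add_one_le_exp 1]
  have h2 : Real.exp 8 = Real.exp 1 ^ 8 := by
    rw [← Real.exp_nat_mul]
    norm_num
  have h3 := pow_le_pow_left₀ (by norm_num) h1 8
  rw [h2]
  linarith

theorem pw_mul (N3 N4 : ℕ) (h4 : 1 ≤ N4) (β : ℤ) : pw (N3 * N4) (β * N4) = pw N3 β := by
  unfold pw
  congr 1
  have h : (N4 : ℝ) ≠ 0 := by positivity
  push_cast
  rw [mul_div_mul_right _ _ h]

theorem pw_sub (hG : GrSt) (N3 N4 : ℕ) (h4 : 1 ≤ N4) (j β : ℤ) :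
    pw (N3 * N4) (j - β * N4) = pw (N3 * N4) j / pw N3 β := by
  rw [eq_div_iff (hG.pos N3 β).ne', ← pw_mul N3 N4 h4 β, ← hG.add, sub_add_cancel]

/-- the class of a prime -/
noncomputable def cl (N p : ℕ) : ℤ := lq N p - 1

theorem cl_lt (hG : GrSt) {N p : ℕ} (hN : 1 ≤ N) (hp : 1 ≤ p) : pw N (cl N p) < p := by
  by_contra h
  have h1 := (hG.le_iff N p _ hN hp).2 (not_lt.1 h)
  unfold cl at h1
  omega

theorem le_cl (hG : GrSt) {N p : ℕ} (hN : 1 ≤ N) (hp : 1 ≤ p) :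
    (p : ℝ) ≤ (1 + 1 / N) * pw N (cl N p) := by
  have h1 := (hG.le_iff N p (lq N p) hN hp).1 le_rfl
  have h2 : pw N (lq N p) = pw N (cl N p) * pw N ((1 : ℕ) : ℤ) := by
    rw [← hG.add]
    congr 1
    unfold cl
    push_cast
    ring
  have h3 := hG.step N 1 hN
  have h4 := hG.pos N (cl N p)
  rw [h2] at h1
  push_cast at h3 h1
  nlinarith

/-- coefficient of a prime -/
noncomputable def cp (c : ℕ → ℂ) (t : ℝ) (p : ℕ) : ℂ := c p / p * e (-t * Real.log p)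

theorem cp_le {q : ℕ} (χ : DirichletCharacter ℂ q) (t : ℝ) (p : ℕ) :
    ‖cp (fun n => χ n) t p‖ ≤ 1 / (p : ℝ) := by
  unfold cp
  rw [norm_mul, norm_e, mul_one, norm_div, Complex.norm_natCast]
  exact div_le_div_of_nonneg_right (DirichletCharacter.norm_le_one χ _) (Nat.cast_nonneg _)

theorem regroup (S : Finset ℕ) (B : Finset ℤ) (N : ℕ) (hB : ∀ p ∈ S, cl N p ∈ B) (c : ℕ → ℂ)
    (t : ℝ) (Φ : ℤ → ℂ) : ∑ p ∈ S, cp c t p * Φ (cl N p) =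
      ∑ β ∈ B, tw 1 c t (S.filter fun p => cl N p = β) * Φ β := by
  rw [← sum_fiberwise_of_maps_to hB]
  refine sum_congr rfl fun β _ => ?_
  unfold tw
  rw [sum_mul]
  refine sum_congr rfl fun p hp => ?_
  rw [(mem_filter.1 hp).2, Pi.one_apply, one_mul]
  rfl

section Core

variable {q : ℕ} {g : DirichletCharacter ℂ q → ℕ → ℂ} {F : Finset (ℤ × DirichletCharacter ℂ q)}
  {S : Finset ℕ} {L Xh : ℝ}

/-- the large values estimate for integers in the form in which it is used -/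
def HI (g : DirichletCharacter ℂ q → ℕ → ℂ) (F : Finset (ℤ × DirichletCharacter ℂ q))
    (L Xh : ℝ) : Prop :=
  ∀ (M : ℝ) (S' : Finset ℕ) (a : ℕ → ℂ), Xh ≤ M → S' ⊆ Ioc ⌊M⌋₊ ⌊Real.exp 8 * M⌋₊ →
    ∑ ξ ∈ F, ‖tw a (g ξ.2) (ξ.1 / L) S'‖ ^ 2 ≤ 10 * ∑ m ∈ S', ‖a m‖ ^ 2 / m

theorem term1 (hE : EbaSt) (hI : HI g F L Xh) (hS : ∀ p ∈ S, p.Prime) (hL : 0 < LL S) {M : ℝ}
    (h1 : 1 ≤ M) (hM : Xh ≤ M) (hc : (#S : ℝ) ≤ M) :
    ∑ ξ ∈ F, ‖tw (fun m => lio m * (1 - (#{p ∈ S | p ∣ m} : ℝ) / LL S : ℝ)) (g ξ.2) (ξ.1 / L)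
      (Ioc ⌊M⌋₊ ⌊64 * M⌋₊)‖ ^ 2 ≤ 1920 / LL S := by
  refine (hI M _ _ hM (Ioc_subset_Ioc_right (Nat.floor_le_floor ?_))).trans ?_
  · exact mul_le_mul_of_nonneg_right e8 (by linarith)
  · have h := hE.tk S M h1 hS hL hc
    have e1 : 1920 / LL S = 10 * (192 / LL S) := by ring
    rw [e1]
    exact mul_le_mul_of_nonneg_left h (by norm_num)

theorem term2 (hE : EbaSt) (hG : GrSt) (hI : HI g F L Xh) (hS : ∀ p ∈ S, p.Prime)
    (hL : 0 < LL S) {N : ℕ} (hN : 1 ≤ N) (hX : (N : ℝ) ≤ Xh) {M : ℝ} (hM : ∀ p ∈ S, Xh ≤ M / p) :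
    ∑ ξ ∈ F, ‖(LL S : ℂ)⁻¹ * ∑ p ∈ S, cp (fun n => ξ.2 n) (ξ.1 / L) p *
      (FF (g ξ.2) (ξ.1 / L) (M / p) - FF (g ξ.2) (ξ.1 / L) (M / pw N (cl N p)))‖ ^ 2 ≤
      40 / N := by
  have hN' : (1 : ℝ) ≤ N := by exact_mod_cast hN
  have key : ∀ p ∈ S, ∑ ξ ∈ F, ‖FF (g ξ.2) (ξ.1 / L) (M / p) -
      FF (g ξ.2) (ξ.1 / L) (M / pw N (cl N p))‖ ^ 2 ≤ 40 / N := by
    intro p hp
    have hp1 := (hS p hp).one_le
    have hp0 : (0 : ℝ) < p := by exact_mod_cast hp1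
    have h1 : (N : ℝ) ≤ M / p := hX.trans (hM p hp)
    have hM0 : 0 < M := by
      have h2 : 0 < M / p := by linarith
      exact (div_pos_iff_of_pos_right hp0).1 h2
    have h3 := hG.pos N (cl N p)
    have h4 : M / p ≤ M / pw N (cl N p) :=
      div_le_div_of_nonneg_left hM0.le h3 (cl_lt hG hN hp1).le
    have h5 : M / pw N (cl N p) ≤ (1 + 1 / N) * (M / p) := by
      rw [← mul_div_assoc, div_le_div_iff₀ h3 hp0]
      have h6 := mul_le_mul_of_nonneg_left (le_cl hG hN hp1) hM0.le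
      linarith
    have h7 : 1 / (N : ℝ) ≤ 1 := by
      rw [div_le_one (by linarith)]
      exact hN'
    obtain ⟨a, S', h8, h9, h10⟩ := hE.sm (M / p) _ (1 / N) (hN'.trans h1) h4 h5 h7
    have h11 := hI (M / p) S' a (hM p hp) h8
    have h12 : 1 / (M / p) ≤ 1 / (N : ℝ) := one_div_le_one_div_of_le (by linarith) h1
    have e1 : (40 : ℝ) / N = 40 * (1 / N) := by ring
    calc _ = ∑ ξ ∈ F, ‖tw a (g ξ.2) (ξ.1 / L) S'‖ ^ 2 :=
          sum_congr rfl fun ξ _ => by rw [norm_sub_rev, h10]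
      _ ≤ _ := by linarith
  calc _ ≤ ∑ ξ ∈ F, (∑ p ∈ S, 1 / (p : ℝ) * ‖FF (g ξ.2) (ξ.1 / L) (M / p) -
        FF (g ξ.2) (ξ.1 / L) (M / pw N (cl N p))‖ ^ 2) / LL S :=
        sum_le_sum fun ξ _ => jensen hL _ _ fun p _ => cp_le _ _ _
    _ = (∑ p ∈ S, 1 / (p : ℝ) * ∑ ξ ∈ F, ‖FF (g ξ.2) (ξ.1 / L) (M / p) -
        FF (g ξ.2) (ξ.1 / L) (M / pw N (cl N p))‖ ^ 2) / LL S := by
        rw [← sum_div, sum_comm]
        simp only [mul_sum]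
    _ ≤ (∑ p ∈ S, 1 / (p : ℝ) * (40 / N)) / LL S :=
        div_le_div_of_nonneg_right (sum_le_sum fun p hp =>
          mul_le_mul_of_nonneg_left (key p hp) (by positivity)) hL.le
    _ = 40 / N := by
        rw [← sum_mul]
        exact mul_div_cancel_left₀ _ hL.ne'

theorem term3 (hL : 0 < LL S) (U B : Finset ℤ) (N : ℕ) (hB : ∀ p ∈ S, cl N p ∈ B)
    (Φ : ℤ × DirichletCharacter ℂ q → ℤ → ℤ → ℂ) {K H : ℝ} (hH0 : 0 ≤ H)
    (hP : ∀ β ∈ B, ∑ ξ ∈ F, ‖tw 1 (fun n => ξ.2 n) (ξ.1 / L) (S.filter fun p => cl N p = β)‖ ^ 2 ≤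
      K * LL (S.filter fun p => cl N p = β))
    (hH : ∀ β ∈ B, ∀ ξ ∈ F, ∑ j ∈ U, ‖Φ ξ j β‖ ^ 2 ≤ H) :
    ∑ j ∈ U, ∑ ξ ∈ F, ‖(LL S : ℂ)⁻¹ * ∑ p ∈ S, cp (fun n => ξ.2 n) (ξ.1 / L) p *
      Φ ξ j (cl N p)‖ ^ 2 ≤ #B * K * H / LL S := by
  have h1 : ∀ ξ ∈ F, ∑ j ∈ U, ‖∑ p ∈ S, cp (fun n => ξ.2 n) (ξ.1 / L) p * Φ ξ j (cl N p)‖ ^ 2 ≤
      #B * ∑ β ∈ B, ‖tw 1 (fun n => ξ.2 n) (ξ.1 / L) (S.filter fun p => cl N p = β)‖ ^ 2 * H := by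
    intro ξ hξ
    calc _ ≤ ∑ j ∈ U, #B * ∑ β ∈ B, ‖tw 1 (fun n => ξ.2 n) (ξ.1 / L)
          (S.filter fun p => cl N p = β)‖ ^ 2 * ‖Φ ξ j β‖ ^ 2 := by
          refine sum_le_sum fun j _ => ?_
          rw [regroup S B N hB _ _ (Φ ξ j)]
          refine (cs _ _).trans (le_of_eq ?_)
          simp only [norm_mul, mul_pow]
      _ = #B * ∑ β ∈ B, ‖tw 1 (fun n => ξ.2 n) (ξ.1 / L)
          (S.filter fun p => cl N p = β)‖ ^ 2 * ∑ j ∈ U, ‖Φ ξ j β‖ ^ 2 := by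
          rw [← mul_sum, sum_comm]
          simp only [mul_sum]
      _ ≤ _ := mul_le_mul_of_nonneg_left (sum_le_sum fun β hβ =>
          mul_le_mul_of_nonneg_left (hH β hβ ξ hξ) (sq_nonneg _)) (Nat.cast_nonneg _)
  have h2 : ∑ β ∈ B, LL (S.filter fun p => cl N p = β) = LL S :=
    sum_fiberwise_of_maps_to hB _
  have h3 : ∑ ξ ∈ F, (#B * ∑ β ∈ B, ‖tw 1 (fun n => ξ.2 n) (ξ.1 / L)
      (S.filter fun p => cl N p = β)‖ ^ 2 * H) ≤ #B * (K * LL S * H) := by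
    rw [← mul_sum, sum_comm, ← h2]
    refine mul_le_mul_of_nonneg_left ?_ (Nat.cast_nonneg _)
    rw [mul_sum, sum_mul]
    refine sum_le_sum fun β hβ => ?_
    rw [← sum_mul]
    exact mul_le_mul_of_nonneg_right (hP β hβ) hH0
  rw [sum_comm]
  simp only [norm_inv_LL hL, ← sum_div]
  rw [div_le_div_iff₀ (by positivity) hL]
  have h4 := mul_le_mul_of_nonneg_right ((sum_le_sum h1).trans h3) hL.le
  refine h4.trans (le_of_eq ?_)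
  ring

theorem core (hE : EbaSt) (hG : GrSt) (hg : GF q g) (hI : HI g F L Xh) (hS : ∀ p ∈ S, p.Prime)
    (hL : 0 < LL S) (hcop : ∀ p ∈ S, Nat.Coprime p q) (U B : Finset ℤ) {N3 N4 : ℕ} (h3 : 1 ≤ N3)
    (h4 : 1 ≤ N4) (hX : (N3 : ℝ) ≤ Xh) (hB : ∀ p ∈ S, cl N3 p ∈ B) {K H : ℝ} (hH0 : 0 ≤ H)
    (hP : ∀ β ∈ B, ∑ ξ ∈ F, ‖tw 1 (fun n => ξ.2 n) (ξ.1 / L)
      (S.filter fun p => cl N3 p = β)‖ ^ 2 ≤ K * LL (S.filter fun p => cl N3 p = β))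
    (hH : ∀ β ∈ B, ∀ ξ ∈ F,
      ∑ j ∈ U, ‖FF (g ξ.2) (ξ.1 / L) (pw (N3 * N4) (j - β * N4))‖ ^ 2 ≤ H)
    (hU : ∀ j ∈ U, Xh ≤ pw (N3 * N4) j ∧ (#S : ℝ) ≤ pw (N3 * N4) j ∧
      ∀ p ∈ S, Xh ≤ pw (N3 * N4) j / p) :
    ∑ j ∈ U, ∑ ξ ∈ F, ‖FF (g ξ.2) (ξ.1 / L) (pw (N3 * N4) j)‖ ^ 2 ≤
      3 * (#U * (1920 / LL S)) + 3 * (#U * (40 / N3)) + 3 * (#B * K * H / LL S) := by
  have h3' : (1 : ℝ) ≤ N3 := by exact_mod_cast h3
  have t1 := sum_le_sum fun j (hj : j ∈ U) =>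
    term1 hE hI hS hL (h3'.trans (hX.trans (hU j hj).1)) (hU j hj).1 (hU j hj).2.1
  have t2 := sum_le_sum fun j (hj : j ∈ U) => term2 hE hG hI hS hL h3 hX (hU j hj).2.2
  have t3 := term3 hL U B N3 hB
    (fun ξ j β => FF (g ξ.2) (ξ.1 / L) (pw (N3 * N4) (j - β * N4))) hH0 hP hH
  rw [sum_const, nsmul_eq_mul] at t1 t2
  refine le_trans ?_ (add_le_add (add_le_add (mul_le_mul_of_nonneg_left t1 (by norm_num))
    (mul_le_mul_of_nonneg_left t2 (by norm_num))) (mul_le_mul_of_nonneg_left t3 (by norm_num)))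
  simp only [mul_sum (a := (3 : ℝ)), ← sum_add_distrib]
  refine sum_le_sum fun j _ => sum_le_sum fun ξ _ => le_trans (le_of_eq ?_) (three _ _ _)
  congr 2
  rw [hE.idn S (g ξ.2) (fun n => ξ.2 n) (ξ.1 / L) _ (hG.pos _ j).le hS hL
    fun p hp m => hg.mul _ _ _ (hcop p hp), sub_sub, ← mul_add, ← sum_add_distrib]
  congr 2
  refine sum_congr rfl fun p _ => ?_
  rw [pw_sub hG N3 N4 h4, ← mul_add, sub_add_cancel]
  rfl

end Core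

theorem idx {K : ℕ} (hK : 1 ≤ K) {X : ℝ} (hX : 1 ≤ X) (h : 20 * (K : ℝ) ≤ Real.log X) :
    ∃ i : ℕ, X ^ (1 / (20 * (K : ℝ))) ≤ 2 ^ i ∧ (2 : ℝ) ^ (K * i) ≤ X ^ (1 / 10 : ℝ) ∧
      Real.log X / (20 * K) ≤ i ∧ ((K * i : ℕ) : ℝ) ≤ Real.log X := by
  have hK' : (1 : ℝ) ≤ K := by exact_mod_cast hK
  have l1 := Real.log_two_gt_d9
  have l2 := Real.log_two_lt_d9
  have hX0 : 0 < X := by linarith
  have p2 : ∀ n : ℕ, (2 : ℝ) ^ n = Real.exp (n * Real.log 2) := fun n => by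
    rw [Real.exp_nat_mul, Real.exp_log (by norm_num)]
  set y := Real.log X / (20 * K) with hy
  have y0 : 0 ≤ y := by
    rw [hy]
    exact div_nonneg (by linarith) (by linarith)
  have y1 : y * K = Real.log X / 20 := by
    rw [hy]
    field_simp
  have c1 : y / Real.log 2 ≤ ⌈y / Real.log 2⌉₊ := Nat.le_ceil _
  have c2 : (⌈y / Real.log 2⌉₊ : ℝ) < y / Real.log 2 + 1 :=
    Nat.ceil_lt_add_one (div_nonneg y0 (by linarith))
  generalize ⌈y / Real.log 2⌉₊ = i at c1 c2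
  have i0 : (0 : ℝ) ≤ i := Nat.cast_nonneg i
  rw [div_le_iff₀ (by linarith)] at c1
  rw [← sub_lt_iff_lt_add, lt_div_iff₀ (by linarith)] at c2
  have c3 : (i : ℝ) * Real.log 2 ≤ y + 1 := by nlinarith
  have c4 : (K * i : ℝ) * Real.log 2 ≤ Real.log X / 10 := by
    have c5 := mul_le_mul_of_nonneg_left c3 (show (0 : ℝ) ≤ K by linarith)
    nlinarith
  refine ⟨i, ?_, ?_, ?_, ?_⟩
  · rw [p2, Real.rpow_def_of_pos hX0, Real.exp_le_exp, mul_one_div]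
    exact c1
  · rw [p2, Real.rpow_def_of_pos hX0, Real.exp_le_exp]
    push_cast
    linarith
  · nlinarith
  · push_cast
    have c6 : (0 : ℝ) ≤ K * i := by positivity
    nlinarith

theorem LL_ge (hP : PrSt) : ∃ i0 : ℕ, ∀ (K i : ℕ), 1 ≤ K → 1 ≤ i → i0 ≤ i →
    Real.log K / 8 ≤ LL (SS i (K * i)) := by
  obtain ⟨i0, h0⟩ := hP.blk
  refine ⟨i0, fun K i hK hi h => ?_⟩
  have hle : i ≤ K * i := Nat.le_mul_of_pos_left i hK
  have h1 := (hP.harm i (K * i) hi hle).1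
  have e1 : ((K * i : ℕ) : ℝ) / i = K := by
    have h2 : (i : ℝ) ≠ 0 := by positivity
    push_cast
    field_simp
  rw [e1] at h1
  unfold LL
  rw [hP.sumR i (K * i) _ hle]
  refine (div_le_div_of_nonneg_right h1 (by norm_num)).trans ?_
  rw [sum_div]
  refine sum_le_sum fun j hj => le_trans (le_of_eq ?_) (h0 j (h.trans (mem_Ico.1 hj).1)).1
  rw [div_div, mul_comm]

theorem mem_SS {i i' p : ℕ} (hp : p ∈ SS i i') :
    p.Prime ∧ (2 : ℝ) ^ i < p ∧ (p : ℝ) ≤ 2 ^ i' := by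
  obtain ⟨h1, h2⟩ := mem_filter.1 hp
  obtain ⟨h3, h4⟩ := mem_Ioc.1 h1
  exact ⟨h2, by exact_mod_cast h3, by exact_mod_cast h4⟩

theorem card_SS (i i' : ℕ) : (#(SS i i') : ℝ) ≤ 2 ^ i' := by
  have h : #(SS i i') ≤ 2 ^ i' := (card_filter_le _ _).trans (by
    rw [Nat.card_Ioc]
    exact Nat.sub_le _ _)
  exact_mod_cast h

theorem cl_mem (hG : GrSt) {N i i' p : ℕ} (hN : 1 ≤ N) (hp : p ∈ SS i i') :
    cl N p ∈ Ico ((i : ℤ) * N) ((i' : ℤ) * N) := by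
  obtain ⟨h1, h2, h3⟩ := mem_SS hp
  rw [← hG.mul N i hN] at h2
  rw [← hG.mul N i' hN] at h3
  have h4 := (hG.le_iff N p _ hN h1.one_le).2 h3
  have h5 := mt (hG.le_iff N p ((i : ℤ) * N) hN h1.one_le).1 (not_le.2 h2)
  unfold cl
  rw [mem_Ico]
  omega

theorem cl_sub (hG : GrSt) {N : ℕ} (hN : 1 ≤ N) {S : Finset ℕ} (hS : ∀ p ∈ S, p.Prime) (β : ℤ) :
    (S.filter fun p => cl N p = β) ⊆ Ioc ⌊pw N β⌋₊ ⌊Real.exp 8 * pw N β⌋₊ := by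
  intro p hp
  obtain ⟨h1, rfl⟩ := mem_filter.1 hp
  have h2 := (hS p h1).one_le
  have h3 := hG.pos N (cl N p)
  have hN' : (1 : ℝ) ≤ N := by exact_mod_cast hN
  have h7 : 1 / (N : ℝ) ≤ 1 := by
    rw [div_le_one (by linarith)]
    exact hN'
  refine mem_Ioc.2 ⟨(Nat.floor_lt h3.le).2 (cl_lt hG hN h2),
    Nat.le_floor ((le_cl hG hN h2).trans ?_)⟩
  exact mul_le_mul_of_nonneg_right (by linarith [e8]) h3.le

theorem rp_le {X M a b c : ℝ} (hX : 1 ≤ X) (ha : 0 ≤ a) (hc : 0 ≤ c) (hM : X ^ a ≤ M)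
    (h : b ≤ a * c) : X ^ b ≤ M ^ c := by
  have _ := ha
  refine (Real.rpow_le_rpow_of_exponent_le hX h).trans ?_
  rw [Real.rpow_mul (by linarith)]
  exact Real.rpow_le_rpow (by positivity) hM hc

theorem hal_unif (hH : HalSt) (Q0 : ℕ) (A δ : ℝ) (hδ : 0 < δ) : ∃ N1 : ℕ, ∀ N ≥ N1,
    ∀ᶠ X : ℝ in Filter.atTop, ∀ q ∈ Icc 1 Q0,
      ∀ (χ : DirichletCharacter ℂ q) (g : ℕ → ℂ) (t : ℝ) (U : Finset ℤ), (∀ n, ‖g n‖ ≤ 1) →
      (∀ d n, Nat.Coprime d q → g (d * n) = χ d * g n) → |t| ≤ X ^ A →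
      (∀ j ∈ U, X ^ (1 / 2 : ℝ) ≤ pw N j ∧ pw N j ≤ X) →
      ∑ j ∈ U, ‖FF g t (pw N j)‖ ^ 2 ≤ δ * N * Real.log X := by
  rw [← Filter.eventually_atTop]
  simp only [Filter.eventually_all_finset]
  intro q hq
  obtain ⟨N1, h⟩ := hH q A δ (mem_Icc.1 hq).1 hδ
  exact Filter.eventually_atTop.2 ⟨N1, fun N hN => Filter.eventually_atTop.2 (h N hN)⟩

theorem big {a : ℝ} (ha : 0 < a) (y : ℝ) : ∀ᶠ X : ℝ in Filter.atTop, y ≤ X ^ a :=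
  (tendsto_rpow_atTop ha).eventually_ge_atTop y

theorem bigL (y : ℝ) : ∀ᶠ X : ℝ in Filter.atTop, y ≤ Real.log X :=
  Real.tendsto_log_atTop.eventually_ge_atTop y

theorem card_U (hG : GrSt) {N : ℕ} (hN : 1 ≤ N) {X : ℝ} (X1 : 1 ≤ X) (l20 : 20 ≤ Real.log X)
    {U : Finset ℤ} (hU : ∀ j ∈ U, X ^ (3 / 4 : ℝ) ≤ pw N j ∧ pw N j ≤ X) :
    (#U : ℝ) ≤ N * Real.log X := by
  have Xp : 0 < X := by linarith
  have hN' : (1 : ℝ) ≤ N := by exact_mod_cast hN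
  have h1 := hG.card N U _ _ hN (by positivity)
    (Real.rpow_le_self_of_one_le X1 (show (3 / 4 : ℝ) ≤ 1 by norm_num)) hU
  rw [Real.log_div Xp.ne' (by positivity), Real.log_rpow Xp] at h1
  nlinarith

theorem card_B (i K N : ℕ) :
    (#(Ico ((i : ℤ) * N) (((K * i : ℕ) : ℤ) * N)) : ℝ) ≤ N * ((K * i : ℕ) : ℝ) := by
  have h1 : #(Ico ((i : ℤ) * N) (((K * i : ℕ) : ℤ) * N)) ≤ N * (K * i) := by
    rw [Int.card_Ico, Int.toNat_le]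
    have h2 : (0 : ℤ) ≤ (i : ℤ) * N := by positivity
    push_cast
    linarith
  exact_mod_cast h1

theorem fin {ε a C N3 N l L0 Λ u b δ : ℝ} (hε : 0 < ε) (a0 : 0 < a) (C0 : 0 < C) (h3 : 1 ≤ N3)
    (hN : 1 ≤ N) (l20 : 20 ≤ l) (hL1 : 1 ≤ L0) (hL2 : 17280 / ε ≤ L0) (h3e : 360 / ε ≤ N3)
    (hL : L0 ≤ Λ) (u1 : u ≤ N * l) (u2 : b ≤ N3 * l) (hδ : δ = ε * a / (9 * N3 * C)) :
    3 * (u * (1920 / Λ)) + 3 * (u * (40 / N3)) + 3 * (b * (C / (a * l)) * (δ * N * l) / Λ) ≤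
      ε * N * l := by
  have v1 : 1920 / Λ ≤ ε / 9 := by
    rw [div_le_iff₀ hε] at hL2
    rw [div_le_div_iff₀ (by linarith) (by norm_num)]
    nlinarith
  have v2 : 40 / N3 ≤ ε / 9 := by
    rw [div_le_iff₀ hε] at h3e
    rw [div_le_div_iff₀ (by linarith) (by norm_num)]
    nlinarith
  have l0 : 0 < l := by linarith
  have N0 : 0 < N := by linarith
  have n3 : 0 < N3 := by linarith
  have δ0 : 0 < δ := by
    rw [hδ]
    positivity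
  have v3 : b * (C / (a * l)) * (δ * N * l) / Λ ≤ N * l * (ε / 9) := by
    have w1 : b * (C / (a * l)) * (δ * N * l) ≤ N3 * l * (C / (a * l)) * (δ * N * l) :=
      mul_le_mul_of_nonneg_right (mul_le_mul_of_nonneg_right u2 (by positivity)) (by positivity)
    have w2 : N3 * l * (C / (a * l)) * (δ * N * l) = N * l * (ε / 9) := by
      rw [hδ]
      field_simp
    rw [w2] at w1
    exact (div_le_div_of_nonneg_right w1 (by linarith)).trans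
      (div_le_self (by positivity) (by linarith))
  have v4 := mul_le_mul u1 v1 (div_nonneg (by norm_num) (by linarith)) (by positivity)
  have v5 := mul_le_mul u1 v2 (by positivity) (by positivity)
  linarith

end Eb

open Eb in
theorem st_Eb (hE : EbaSt) (hMi : HMiSt) (hMp : HMpSt) (hHal : HalSt) (hPr : PrSt) (hG : GrSt) :
    EbSt := by
  intro Q0 A ε hε
  obtain ⟨i0, hLL⟩ := LL_ge hPr
  obtain ⟨L0, hL1, hL2⟩ : ∃ L0 : ℝ, 1 ≤ L0 ∧ 17280 / ε ≤ L0 :=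
    ⟨max 1 (17280 / ε), le_max_left _ _, le_max_right _ _⟩
  obtain ⟨K, hK1, hK2⟩ : ∃ K : ℕ, 1 ≤ K ∧ L0 ≤ Real.log K / 8 := by
    refine ⟨⌈Real.exp (8 * L0)⌉₊, Nat.ceil_pos.2 (Real.exp_pos _), ?_⟩
    have h := Real.log_le_log (Real.exp_pos _) (Nat.le_ceil (Real.exp (8 * L0)))
    rw [Real.log_exp] at h
    linarith
  obtain ⟨N3, h3, h3e⟩ : ∃ N3 : ℕ, 1 ≤ N3 ∧ 360 / ε ≤ N3 :=
    ⟨⌈360 / ε⌉₊, Nat.ceil_pos.2 (by positivity), Nat.le_ceil _⟩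
  obtain ⟨A1, hA0, hA1⟩ : ∃ A1 : ℝ, 0 ≤ A1 ∧ A ≤ A1 := ⟨max 0 A, le_max_left _ _, le_max_right _ _⟩
  have hK' : (1 : ℝ) ≤ K := by exact_mod_cast hK1
  have h3' : (1 : ℝ) ≤ N3 := by exact_mod_cast h3
  obtain ⟨a, ha⟩ : ∃ a : ℝ, a = 1 / (20 * (K : ℝ)) := ⟨_, rfl⟩
  have a0 : 0 < a := by
    rw [ha]
    positivity
  obtain ⟨c1, M1, c10, hMi⟩ := hMi (2 * A1)
  obtain ⟨c2, C, M2, c20, C0, hMp⟩ := hMp (A1 / a)
  obtain ⟨δ, hδ⟩ : ∃ δ : ℝ, δ = ε * a / (9 * N3 * C) := ⟨_, rfl⟩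
  have δ0 : 0 < δ := by
    rw [hδ]
    positivity
  obtain ⟨N1, hHal⟩ := hal_unif hHal Q0 A1 δ δ0
  obtain ⟨N4, h4, h41⟩ : ∃ N4 : ℕ, 1 ≤ N4 ∧ N1 ≤ N3 * N4 :=
    ⟨N1 + 1, by omega, (Nat.le_succ N1).trans (Nat.le_mul_of_pos_left _ h3)⟩
  obtain ⟨c, c0, hc1, hc2⟩ : ∃ c : ℝ, 0 < c ∧ c ≤ 1 / 2 * c1 ∧ c ≤ a * c2 :=
    ⟨min (1 / 2 * c1) (a * c2), lt_min (by positivity) (by positivity), min_le_left _ _,
      min_le_right _ _⟩
  have hN : 1 ≤ N3 * N4 := Nat.mul_pos h3 h4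
  have hN' : (1 : ℝ) ≤ (N3 * N4 : ℕ) := by exact_mod_cast hN
  have half : (0 : ℝ) < 1 / 2 := by norm_num
  obtain ⟨X0, hX0⟩ := Filter.eventually_atTop.1 ((hHal _ h41).and ((big half M1).and
    ((big half N3).and ((big a0 M2).and ((big a0 Q0).and ((big c0 Q0).and
    ((bigL (20 * K)).and ((bigL (20 * K * i0)).and (Filter.eventually_ge_atTop 1)))))))))
  refine ⟨c, N3 * N4, X0, c0, hN, fun X hX L q g F U L8 L9 q1 qQ hg hF hξ hU => ?_⟩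
  obtain ⟨hHal, b1, b2, b3, b4, b5, b6, b7, X1⟩ := hX0 X hX
  have Xp : 0 < X := by linarith
  obtain ⟨i, i1, i2, i3, i4⟩ := idx hK1 X1 b6
  rw [← ha] at i1
  have l20 : 20 ≤ Real.log X := by linarith
  have i5 : 1 ≤ i := by
    have h : (0 : ℝ) < i := lt_of_lt_of_le (by positivity) i3
    exact_mod_cast h
  have i6 : i0 ≤ i := by
    have h : (i0 : ℝ) ≤ i := le_trans (by
      rw [le_div_iff₀ (by positivity)]
      linarith) i3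
    exact_mod_cast h
  have hL : L0 ≤ LL (SS i (K * i)) := hK2.trans (hLL K i hK1 i5 i6)
  have qX : (q : ℝ) ≤ X ^ c := le_trans (by exact_mod_cast qQ) b5
  have hξ1 : ∀ ξ ∈ F, |(ξ.1 : ℝ)| ≤ X ^ A1 := fun ξ h =>
    (hξ ξ h).trans (Real.rpow_le_rpow_of_exponent_le X1 hA1)
  have hS : ∀ p ∈ SS i (K * i), p.Prime := fun p hp => (mem_SS hp).1
  have xh : 1 ≤ X ^ (1 / 2 : ℝ) := h3'.trans b2
  have hI : HI g F L (X ^ (1 / 2 : ℝ)) := by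
    intro M S' a' hM hS'
    have h1 := hMi M L 1 q g F S' a' (b1.trans hM) L8 L9 q1
      (qX.trans (rp_le X1 half.le c10.le hM hc1)) hg zero_le_one (fun χ => by
        refine (sum_le_sum fun m _ => pow_le_one₀ (norm_nonneg _) (hg.bd χ m)).trans ?_
        rw [sum_const, card_range, nsmul_eq_mul, mul_comm])
      (hF.trans (rp_le X1 half.le c10.le hM hc1))
      (fun ξ h => (hξ1 ξ h).trans (rp_le X1 half.le (by positivity) hM (by linarith))) hS'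
    refine h1.trans (mul_le_mul_of_nonneg_right ?_ (sum_nonneg fun m _ => by positivity))
    have h2 : M ^ (-c1) ≤ 1 := Real.rpow_le_one_of_one_le_of_nonpos (xh.trans hM) (by linarith)
    linarith
  have hcop : ∀ p ∈ SS i (K * i), Nat.Coprime p q := by
    intro p hp
    have h1 : (q : ℝ) < p :=
      lt_of_le_of_lt (le_trans (by exact_mod_cast qQ) (b4.trans i1)) (mem_SS hp).2.1
    exact Nat.coprime_of_lt_prime (by omega) (by exact_mod_cast h1) (hS p hp)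
  have hβ : ∀ β ∈ Ico ((i : ℤ) * N3) (((K * i : ℕ) : ℤ) * N3),
      X ^ a ≤ pw N3 β ∧ pw N3 β ≤ X ^ (1 / 10 : ℝ) := by
    intro β h
    obtain ⟨h1, h2⟩ := mem_Ico.1 h
    have h5 := hG.mono N3 _ _ h1
    have h6 := hG.mono N3 _ _ h2.le
    rw [hG.mul N3 _ h3] at h5 h6
    exact ⟨i1.trans h5, h6.trans i2⟩
  have xa : 1 ≤ X ^ a := Real.one_le_rpow X1 a0.le
  have x1 : X ^ (1 / 2 : ℝ) * X ^ (1 / 10 : ℝ) ≤ X ^ (3 / 4 : ℝ) := by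
    rw [← Real.rpow_add Xp]
    exact Real.rpow_le_rpow_of_exponent_le X1 (by norm_num)
  have x2 : ∀ y z : ℝ, X ^ (3 / 4 : ℝ) ≤ y → 0 < z → z ≤ X ^ (1 / 10 : ℝ) →
      X ^ (1 / 2 : ℝ) ≤ y / z := by
    intro y z hy hz hz'
    rw [le_div_iff₀ hz]
    exact (mul_le_mul_of_nonneg_left hz' (by linarith)).trans (x1.trans hy)
  have key := Eb.core (K := C / (a * Real.log X)) (H := δ * (N3 * N4 : ℕ) * Real.log X) hE hG hg hI hS
    (by linarith) hcop U (Ico ((i : ℤ) * N3) (((K * i : ℕ) : ℤ) * N3)) h3 h4 b2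
    (fun p hp => cl_mem hG h3 hp) (by positivity) ?_ ?_ ?_
  · exact key.trans (fin hε a0 C0 h3' hN' l20 hL1 hL2 h3e hL (card_U hG hN X1 l20 hU)
      ((card_B i K N3).trans (mul_le_mul_of_nonneg_left i4 (Nat.cast_nonneg _))) hδ)
  · intro β h
    obtain ⟨h1, -⟩ := hβ β h
    refine (hMp (pw N3 β) L q F _ (b3.trans h1) L8 L9 q1 (qX.trans (rp_le X1 a0.le c20.le h1 hc2))
      (hF.trans (rp_le X1 a0.le c20.le h1 hc2)) (fun ξ h' => (hξ1 ξ h').trans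
        (rp_le X1 a0.le (by positivity) h1 (le_of_eq (mul_div_cancel₀ _ a0.ne').symm)))
      (cl_sub hG h3 hS β) fun p hp => hS p (mem_filter.1 hp).1).trans ?_
    refine mul_le_mul_of_nonneg_right (div_le_div_of_nonneg_left C0.le (by positivity) ?_)
      (sum_nonneg fun p _ => by positivity)
    rw [← Real.log_rpow Xp]
    exact Real.log_le_log (by positivity) h1
  · intro β h ξ h'
    obtain ⟨h1, h2⟩ := hβ β h
    have h5 := hHal q (mem_Icc.2 ⟨q1, qQ⟩) ξ.2 (g ξ.2) (ξ.1 / L) (U.image fun j => j - β * N4)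
      (hg.bd _) (hg.mul _) ?_ ?_
    · rwa [sum_image fun x _ y _ hxy => sub_left_injective hxy] at h5
    · rw [abs_div, abs_of_pos (show 0 < L by linarith)]
      exact (div_le_self (abs_nonneg _) (by linarith)).trans (hξ1 ξ h')
    · intro j' hj'
      obtain ⟨j, hj, rfl⟩ := mem_image.1 hj'
      rw [pw_sub hG N3 N4 h4]
      exact ⟨x2 _ _ (hU j hj).1 (hG.pos _ _) h2,
        (div_le_self (hG.pos _ _).le (xa.trans h1)).trans (hU j hj).2⟩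
  · intro j hj
    refine ⟨le_trans (Real.rpow_le_rpow_of_exponent_le X1 (by norm_num)) (hU j hj).1,
      (card_SS _ _).trans (i2.trans (le_trans
        (Real.rpow_le_rpow_of_exponent_le X1 (by norm_num)) (hU j hj).1)), fun p hp => ?_⟩
    exact x2 _ _ (hU j hj).1 (by exact_mod_cast (hS p hp).pos) ((mem_SS hp).2.2.trans i2)

end Pool.Agent.Lib.MP_028aa5_nt.T
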