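import Pool.Agent.Lib.MP_028aa5_nt.T.St4

/-! Large values of twisted sums over primes. -/

namespace Pool.Agent.Lib.MP_028aa5_nt.T

open Finset
open scoped ComplexConjugate Classical

namespace HMp

lemma quad {ι : Type} (F : Finset ι) (J : Finset ℕ) (t : ι → ℂ) (v : ι → ℕ → ℂ) (y R : ℝ)
    (hR : 0 ≤ R) (h : ∀ ξ ∈ F, ∀ ξ' ∈ F, ‖∑ n ∈ J, v ξ n * conj (v ξ' n) / n -
      (if ξ = ξ' then (y : ℂ) else 0)‖ ≤ R) :
    |∑ n ∈ J, ‖∑ ξ ∈ F, conj (t ξ) * v ξ n‖ ^ 2 / n - y * ∑ ξ ∈ F, ‖t ξ‖ ^ 2| ≤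
      R * (#F * ∑ ξ ∈ F, ‖t ξ‖ ^ 2) := by
  have h1 : ∀ n : ℕ, ((‖∑ ξ ∈ F, conj (t ξ) * v ξ n‖ ^ 2 / n : ℝ) : ℂ) =
      ∑ ξ ∈ F, ∑ ξ' ∈ F, conj (t ξ) * t ξ' * (v ξ n * conj (v ξ' n) / n) := by
    intro n
    push_cast
    rw [← Complex.mul_conj', map_sum, sum_mul_sum, sum_div]
    refine sum_congr rfl fun ξ _ => ?_
    rw [sum_div]
    refine sum_congr rfl fun ξ' _ => ?_
    rw [map_mul, Complex.conj_conj]
    ring
  have h2 : ((y * ∑ ξ ∈ F, ‖t ξ‖ ^ 2 : ℝ) : ℂ) =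
      ∑ ξ ∈ F, ∑ ξ' ∈ F, conj (t ξ) * t ξ' * (if ξ = ξ' then (y : ℂ) else 0) := by
    push_cast
    rw [mul_sum]
    refine sum_congr rfl fun ξ hξ => ?_
    simp only [mul_ite, mul_zero, sum_ite_eq, if_pos hξ]
    rw [Complex.conj_mul', mul_comm]
  have h3 : ((∑ n ∈ J, ‖∑ ξ ∈ F, conj (t ξ) * v ξ n‖ ^ 2 / n - y * ∑ ξ ∈ F, ‖t ξ‖ ^ 2 : ℝ) : ℂ) =
      ∑ ξ ∈ F, ∑ ξ' ∈ F, conj (t ξ) * t ξ' * (∑ n ∈ J, v ξ n * conj (v ξ' n) / n -
        (if ξ = ξ' then (y : ℂ) else 0)) := by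
    rw [Complex.ofReal_sub, Complex.ofReal_sum, h2, sum_congr rfl fun n _ => h1 n, sum_comm,
      ← sum_sub_distrib]
    refine sum_congr rfl fun ξ _ => ?_
    rw [sum_comm, ← sum_sub_distrib]
    refine sum_congr rfl fun ξ' _ => ?_
    rw [mul_sub, mul_sum]
  rw [← Real.norm_eq_abs, ← Complex.norm_real, h3]
  calc _ ≤ ∑ ξ ∈ F, ∑ ξ' ∈ F, ‖t ξ‖ * ‖t ξ'‖ * R := by
        refine norm_sum_le_of_le _ fun ξ hξ => norm_sum_le_of_le _ fun ξ' hξ' => ?_
        rw [norm_mul, norm_mul, RCLike.norm_conj]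
        exact mul_le_mul_of_nonneg_left (h ξ hξ ξ' hξ') (by positivity)
    _ = R * (∑ ξ ∈ F, ‖t ξ‖) ^ 2 := by
        rw [sq, sum_mul_sum, mul_sum]
        refine sum_congr rfl fun ξ _ => ?_
        rw [mul_sum]
        exact sum_congr rfl fun ξ' _ => mul_comm _ _
    _ ≤ _ := mul_le_mul_of_nonneg_left sq_sum_le_card_mul_sum_sq hR

lemma dual {ι : Type} (F : Finset ι) (S : Finset ℕ) (t : ι → ℂ) (v : ι → ℕ → ℂ)
    (h : ∀ ξ, t ξ = ∑ p ∈ S, v ξ p / p) :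
    (∑ ξ ∈ F, ‖t ξ‖ ^ 2) ^ 2 ≤ LL S * ∑ p ∈ S, ‖∑ ξ ∈ F, conj (t ξ) * v ξ p‖ ^ 2 / p := by
  have h1 : ((∑ ξ ∈ F, ‖t ξ‖ ^ 2 : ℝ) : ℂ) = ∑ p ∈ S, (∑ ξ ∈ F, conj (t ξ) * v ξ p) / p := by
    push_cast
    simp only [sum_div]
    rw [sum_comm]
    refine sum_congr rfl fun ξ _ => ?_
    rw [← Complex.conj_mul']
    nth_rewrite 2 [h ξ]
    rw [mul_sum]
    exact sum_congr rfl fun p _ => (mul_div_assoc _ _ _).symm
  have h0 : 0 ≤ ∑ ξ ∈ F, ‖t ξ‖ ^ 2 := by positivity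
  have h2 : ∑ ξ ∈ F, ‖t ξ‖ ^ 2 ≤ ∑ p ∈ S, ‖∑ ξ ∈ F, conj (t ξ) * v ξ p‖ / p := by
    rw [← Real.norm_of_nonneg h0, ← Complex.norm_real, h1]
    refine norm_sum_le_of_le _ fun p _ => ?_
    rw [norm_div, Complex.norm_natCast]
  refine (pow_le_pow_left₀ h0 h2 2).trans ?_
  refine sum_sq_le_sum_mul_sum_of_sq_le_mul S (fun p _ => by positivity)
    (fun p _ => by positivity) fun p _ => le_of_eq ?_
  ring

lemma orth (q : ℕ) (hq : 1 ≤ q) (χ χ' : DirichletCharacter ℂ q) :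
    ∑ b ∈ range q, χ b * conj (χ' b) = if χ = χ' then (q.totient : ℂ) else 0 := by
  have : NeZero q := ⟨by omega⟩
  have h1 : ∑ b ∈ range q, χ b * conj (χ' b) = ∑ a : ZMod q, (χ * χ'⁻¹) a := by
    refine sum_nbij' (fun b => (b : ZMod q)) (fun a => a.val) (fun _ _ => mem_univ _)
      (fun a _ => mem_range.2 (ZMod.val_lt a)) (fun b hb => ZMod.val_cast_of_lt (mem_range.1 hb))
      (fun a _ => ZMod.natCast_zmod_val a) fun b _ => ?_
    rw [MulChar.mul_apply, ← MulChar.star_apply', RCLike.star_def]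
  rw [h1]
  split_ifs with h
  · rw [h, mul_inv_cancel, MulChar.sum_one_eq_card_units, ZMod.card_units_eq_totient]
  · exact MulChar.sum_eq_zero_of_ne_one fun h' => h (mul_inv_eq_one.1 h')

lemma tot (q : ℕ) : (q.totient : ℝ) * ∏ p ∈ q.primeFactors, (1 + 1 / (p : ℝ)) ≤ q := by
  have h1 : (q.totient : ℝ) = q * ∏ p ∈ q.primeFactors, (1 - (p : ℝ)⁻¹) := by
    have := congrArg (Rat.cast : ℚ → ℝ) (Nat.totient_eq_mul_prod_factors q)
    push_cast at this
    exact this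
  rw [h1, mul_assoc, ← prod_mul_distrib]
  refine mul_le_of_le_one_right (Nat.cast_nonneg _) (prod_le_one (fun p hp => ?_) fun p _ => ?_)
  · have h2 : (1 : ℝ) ≤ p := by exact_mod_cast (Nat.prime_of_mem_primeFactors hp).one_le
    exact mul_nonneg (sub_nonneg.2 (inv_le_one_of_one_le₀ h2)) (by positivity)
  · rw [one_div]
    nlinarith [sq_nonneg (p : ℝ)⁻¹]

end HMp

open HMp in
theorem st_HMp (hB : BoxSt) : HMpSt := by
  intro A
  obtain ⟨c1, M1, hc1, hbox⟩ := hB A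
  obtain ⟨c, hc, hc8, hcl⟩ : ∃ c : ℝ, 0 < c ∧ 8 * c ≤ c1 ∧ c ≤ 1 :=
    ⟨min (c1 / 8) 1, by positivity, by linarith [min_le_left (c1 / 8) 1], min_le_right _ _⟩
  refine ⟨c, 37 / c, max M1 (Real.exp (2 / c)), hc, by positivity,
    fun M L q F S hM hL8 hL9 hq hqM hF hA hS hP => ?_⟩
  have hM1 : M1 ≤ M := (le_max_left _ _).trans hM
  have hM2 : Real.exp (2 / c) ≤ M := (le_max_right _ _).trans hM
  have hM0 : 0 < M := (Real.exp_pos _).trans_le hM2
  have hM3 : 1 ≤ M := (Real.one_le_exp (by positivity)).trans hM2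
  have hlog : 2 / c ≤ Real.log M := (Real.le_log_iff_exp_le hM0).2 hM2
  have hlog' : 2 ≤ c * Real.log M := by rwa [div_le_iff₀' hc] at hlog
  have hl0 : 0 < Real.log M := lt_of_lt_of_le (by positivity) hlog
  obtain ⟨z, hz2, hzM, hzl⟩ : ∃ z : ℕ, 2 ≤ z ∧ (z : ℝ) ≤ M ^ c ∧
      c * Real.log M / 2 ≤ Real.log z := by
    have e1 : M ^ c = Real.exp (c * Real.log M / 2) ^ 2 := by
      rw [← Real.exp_nat_mul, Real.rpow_def_of_pos hM0]
      congr 1
      push_cast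
      ring
    have e2 : 2 ≤ Real.exp (c * Real.log M / 2) := by
      linarith [Real.add_one_le_exp (c * Real.log M / 2)]
    have e3 : Real.exp (c * Real.log M / 2) ≤ ⌊M ^ c⌋₊ := by
      have := Nat.lt_floor_add_one (M ^ c)
      nlinarith
    refine ⟨⌊M ^ c⌋₊, by exact_mod_cast e2.trans e3, Nat.floor_le (by positivity), ?_⟩
    exact (Real.le_log_iff_exp_le (by linarith)).2 e3
  have hzM' : z ≤ ⌊M⌋₊ := by
    refine Nat.le_floor (hzM.trans ?_)
    simpa using Real.rpow_le_rpow_of_exponent_le hM3 hcl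
  set v : ℤ × DirichletCharacter ℂ q → ℕ → ℂ :=
    fun ξ n => ξ.2 n * e (-(ξ.1 / L) * Real.log n) with hv
  set t : ℤ × DirichletCharacter ℂ q → ℂ := fun ξ => tw 1 (fun n => ξ.2 n) (ξ.1 / L) S with ht
  have h1 := dual F S t v fun ξ => sum_congr rfl fun p _ => by
    simp only [hv, Pi.one_apply]
    ring
  set T := ∑ ξ ∈ F, ‖t ξ‖ ^ 2 with hT
  have T0 : 0 ≤ T := by positivity
  have q0 : (0 : ℝ) < q := by exact_mod_cast hq
  have h2 := sieve_q (q := q) (by omega) hz2 (Ioc ⌊M⌋₊ ⌊Real.exp L * M⌋₊)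
    (fun n => ‖∑ ξ ∈ F, conj (t ξ) * v ξ n‖ ^ 2 / n) (fun n _ => by positivity)
    (Y := L * q.totient / q * T) (R := M ^ (-c1) * (#F * T)) (by positivity) (by positivity)
    fun D hD hDz hDq a ha => by
      have D0 : (0 : ℝ) < D := by exact_mod_cast hD
      have e1 : (D * q : ℝ) ≤ M ^ c1 := by
        have e2 : (D : ℝ) ≤ z ^ 2 := by exact_mod_cast hDz
        calc (D * q : ℝ) ≤ (M ^ c) ^ 2 * M ^ c := by
              refine mul_le_mul (e2.trans ?_) hqM q0.le (by positivity)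
              gcongr
          _ = M ^ (3 * c) := by
              rw [← pow_succ, ← Real.rpow_natCast, ← Real.rpow_mul hM0.le, mul_comm]
              norm_num
          _ ≤ _ := Real.rpow_le_rpow_of_exponent_le hM3 (by linarith)
      rw [show L * q.totient / q * T / D = L / (D * q) * q.totient * T by field_simp]
      refine quad F _ t v _ _ (by positivity) fun ξ hξ ξ' hξ' => ?_
      have e3 := hbox M L (ξ'.1 - ξ.1) D q a (fun n => ξ.2 n * conj (ξ'.2 n)) hM1 hL8 hL9 ha hq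
        hDq e1 (by
          push_cast
          linarith [abs_sub (ξ'.1 : ℝ) ξ.1, hA ξ hξ, hA ξ' hξ'])
        (fun n => by simp)
        (fun n => by
          rw [norm_mul, RCLike.norm_conj]
          exact mul_le_one₀ (ξ.2.norm_le_one _) (norm_nonneg _) (ξ'.2.norm_le_one _))
      refine le_of_eq_of_le ?_ e3
      congr 2
      · refine sum_congr rfl fun n _ => ?_
        have e4 : e (((ξ'.1 - ξ.1 : ℤ) : ℝ) / L * Real.log n) =
            e (-(ξ.1 / L) * Real.log n) * conj (e (-(ξ'.1 / L) * Real.log n)) := by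
          rw [e_mul_conj]
          congr 1
          push_cast
          ring
        simp only [hv]
        rw [e4, map_mul]
        ring
      · rw [orth q hq]
        by_cases e5 : ξ = ξ'
        · simp [e5]
        · rw [if_neg e5]
          split_ifs with e6 e7
          · exact absurd (Prod.ext (by omega) e7) e5
          · rw [mul_zero]
          · rfl
  have h3 : ∑ p ∈ S, ‖∑ ξ ∈ F, conj (t ξ) * v ξ p‖ ^ 2 / p ≤
      ∑ n ∈ Ioc ⌊M⌋₊ ⌊Real.exp L * M⌋₊ with n.Prime ∧ z < n,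
        ‖∑ ξ ∈ F, conj (t ξ) * v ξ n‖ ^ 2 / n := by
    refine sum_le_sum_of_subset_of_nonneg (fun p hp => ?_) fun n _ _ => by positivity
    have e1 := mem_Ioc.1 (hS hp)
    refine mem_filter.2 ⟨mem_Ioc.2 ⟨e1.1, e1.2.trans (Nat.floor_le_floor ?_)⟩, hP p hp,
      hzM'.trans_lt e1.1⟩
    gcongr
  have h4 : 2 * (L * q.totient / q * T) * (∏ p ∈ q.primeFactors, (1 + 1 / (p : ℝ))) /
      Real.log z ≤ 36 / (c * Real.log M) * T := by
    have e1 : (q.totient : ℝ) * (∏ p ∈ q.primeFactors, (1 + 1 / (p : ℝ))) / q ≤ 1 :=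
      (div_le_one q0).2 (tot q)
    have e2 : 0 ≤ (q.totient : ℝ) * (∏ p ∈ q.primeFactors, (1 + 1 / (p : ℝ))) / q := by
      positivity
    calc _ = 2 * T * (L * ((q.totient : ℝ) * (∏ p ∈ q.primeFactors, (1 + 1 / (p : ℝ))) / q)) /
          Real.log z := by ring
      _ ≤ 2 * T * (9 * 1) / (c * Real.log M / 2) := by gcongr
      _ = _ := by
          field_simp
          ring
  have h5 : M ^ (-c1) * (#F * T) * (z : ℝ) ^ 6 ≤ 1 / (c * Real.log M) * T := by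
    have e1 : M ^ (-c1) * (M ^ c) ^ 7 ≤ 1 / (c * Real.log M) := by
      rw [← Real.rpow_natCast, ← Real.rpow_mul hM0.le, ← Real.rpow_add hM0]
      refine (Real.rpow_le_rpow_of_exponent_le hM3 (z := -c) (by push_cast; linarith)).trans ?_
      rw [Real.rpow_neg hM0.le, one_div]
      refine inv_anti₀ (by positivity) ?_
      rw [Real.rpow_def_of_pos hM0, mul_comm c]
      linarith [Real.add_one_le_exp (Real.log M * c)]
    calc _ ≤ M ^ (-c1) * (M ^ c * T) * (M ^ c) ^ 6 := by gcongr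
      _ = M ^ (-c1) * (M ^ c) ^ 7 * T := by ring
      _ ≤ _ := by gcongr
  have L0 : 0 ≤ LL S := sum_nonneg fun p _ => by positivity
  have h6 : T ^ 2 ≤ 37 / c / Real.log M * LL S * T := by
    refine h1.trans ?_
    calc _ ≤ LL S * (36 / (c * Real.log M) * T + 1 / (c * Real.log M) * T) :=
          mul_le_mul_of_nonneg_left (h3.trans (h2.trans (add_le_add h4 h5))) L0
      _ = _ := by
          field_simp
          ring
  rcases T0.eq_or_lt with h | h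
  · rw [← h]
    positivity
  · rw [sq] at h6
    exact le_of_mul_le_mul_right h6 h

end Pool.Agent.Lib.MP_028aa5_nt.T
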