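import Pool.Agent.Lib.MP_028aa5_nt.T.St4

/-! Lower bound for the Dirichlet series of a character near the line `1`. -/

namespace Pool.Agent.Lib.MP_028aa5_nt.T

open Finset
open scoped ComplexConjugate Classical

namespace L2

open Filter Topology Complex DirichletCharacter

/-- a continuous function without zeros on `re s ≥ 1` that is dominated by the series -/
theorem exists_dom (q : ℕ) [NeZero q] (χ : DirichletCharacter ℂ q) :
    ∃ G : ℂ → ℂ, Continuous G ∧ (∀ s : ℂ, 1 ≤ s.re → G s ≠ 0) ∧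
      ∀ s : ℂ, 1 < s.re → ‖s - 1‖ ≤ 2 → ‖G s‖ ≤ 2 * ‖LSeries (fun n => χ n) s‖ := by
  by_cases hχ : χ = 1
  · subst hχ
    refine ⟨LFunctionTrivChar₁ q, (differentiable_LFunctionTrivChar₁ q).continuous, ?_, ?_⟩
    · intro s hs
      by_cases h1 : s = 1
      · subst h1
        exact LFunctionTrivChar₁_apply_one_ne_zero q
      · rw [LFunctionTrivChar₁, Function.update_of_ne h1]
        exact mul_ne_zero (sub_ne_zero.2 h1)
          (LFunction_ne_zero_of_one_le_re _ (Or.inr h1) hs)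
    · intro s hs h2
      have h1 : s ≠ 1 := by
        rintro rfl
        simp at hs
      rw [LFunctionTrivChar₁, Function.update_of_ne h1, norm_mul, LFunctionTrivChar,
        LFunction_eq_LSeries _ hs]
      exact mul_le_mul_of_nonneg_right h2 (norm_nonneg _)
  · refine ⟨LFunction χ, (differentiable_LFunction hχ).continuous,
      fun s hs => LFunction_ne_zero_of_one_le_re _ (Or.inl hχ) hs, ?_⟩
    intro s hs _
    rw [LFunction_eq_LSeries _ hs]
    have := norm_nonneg (LSeries (fun n => χ n) s)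
    linarith

/-- small frequencies -/
theorem small (q : ℕ) [NeZero q] (χ : DirichletCharacter ℂ q) :
    ∃ m : ℝ, 0 < m ∧ ∀ x u : ℝ, 0 < x → x ≤ 1 → |u| ≤ 1 →
      m ≤ ‖LSeries (fun n => χ n) (1 + x + I * u)‖ := by
  obtain ⟨G, hc, hne, hle⟩ := exists_dom q χ
  have hK : IsCompact (Set.Icc (1 : ℝ) 2 ×ℂ Set.Icc (-1 : ℝ) 1) :=
    isCompact_Icc.reProdIm isCompact_Icc
  have hne' : (Set.Icc (1 : ℝ) 2 ×ℂ Set.Icc (-1 : ℝ) 1).Nonempty :=
    ⟨1, by simp [mem_reProdIm]⟩
  obtain ⟨s0, hs0, hmin⟩ := hK.exists_isMinOn hne' hc.norm.continuousOn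
  have h0 : 0 < ‖G s0‖ := norm_pos_iff.2 (hne s0 (mem_reProdIm.1 hs0).1.1)
  refine ⟨‖G s0‖ / 2, by positivity, fun x u hx hx1 hu => ?_⟩
  have hu' := abs_le.1 hu
  have hmem : (1 + x + I * u : ℂ) ∈ Set.Icc (1 : ℝ) 2 ×ℂ Set.Icc (-1 : ℝ) 1 := by
    rw [mem_reProdIm]
    constructor
    · constructor <;> simp <;> linarith
    · constructor <;> simp <;> linarith
  have h1 : ‖G s0‖ ≤ ‖G (1 + x + I * u)‖ := hmin hmem
  have h2 : ‖(1 + x + I * u : ℂ) - 1‖ ≤ 2 := by
    have e : (1 + x + I * u : ℂ) - 1 = x + I * u := by ring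
    rw [e]
    refine (norm_add_le _ _).trans ?_
    rw [norm_mul, norm_I, one_mul, norm_real, norm_real, Real.norm_eq_abs, Real.norm_eq_abs,
      abs_of_pos hx]
    linarith
  have h3 := hle (1 + x + I * u) (by simpa using hx) h2
  linarith

theorem tend : Tendsto (fun X : ℝ => 1 / Real.log X) atTop (𝓝[>] 0) := by
  have := (tendsto_inv_atTop_nhdsGT_zero (𝕜 := ℝ)).comp Real.tendsto_log_atTop
  simpa [Function.comp_def, one_div] using this

/-- the trivial character -/
theorem triv (q : ℕ) [NeZero q] : ∃ C : ℝ, 0 < C ∧ ∀ᶠ X : ℝ in atTop,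
    ‖LSeries (fun n => (1 : DirichletCharacter ℂ q) n) (1 + (1 / Real.log X : ℝ))‖ ≤
      C * Real.log X := by
  obtain ⟨C, hC, h⟩ := (LFunctionTrivChar_isBigO_near_one_horizontal (N := q)).exists_pos
  refine ⟨C, hC, ?_⟩
  filter_upwards [tend.eventually h.bound, eventually_gt_atTop 1] with X hX h1
  have hl : 0 < Real.log X := Real.log_pos h1
  have hre : 1 < (1 + ((1 / Real.log X : ℝ) : ℂ)).re := by
    rw [add_re, one_re, ofReal_re]
    have : 0 < 1 / Real.log X := by positivity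
    linarith
  rw [LFunctionTrivChar, LFunction_eq_LSeries _ hre] at hX
  refine hX.trans (le_of_eq ?_)
  rw [norm_div, norm_one, norm_real, Real.norm_eq_abs, abs_of_pos (by positivity),
    one_div_one_div]

end L2

open Filter L2 in
theorem st_L2 (hL : LSt) : L2St := by
  intro q A δ hq hδ
  have : NeZero q := ⟨by omega⟩
  obtain ⟨C, hC, hT⟩ := triv q
  obtain ⟨X1, hX1⟩ := hL q (max A 0 + 1) (δ ^ 4 / C ^ 3) hq (by positivity)
  have hs : ∀ᶠ X : ℝ in atTop, ∀ χ : DirichletCharacter ℂ q, ∀ u : ℝ, |u| ≤ 1 →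
      1 ≤ δ * Real.log X *
        ‖LSeries (fun n => χ n) (1 + (1 / Real.log X : ℝ) + Complex.I * u)‖ := by
    rw [eventually_all]
    intro χ
    obtain ⟨m, hm, h⟩ := small q χ
    filter_upwards [Real.tendsto_log_atTop.eventually_ge_atTop (max 1 (1 / (δ * m)))] with X hX
    intro u hu
    have h1 : 1 ≤ Real.log X := (le_max_left _ _).trans hX
    have h2 : 1 / (δ * m) ≤ Real.log X := (le_max_right _ _).trans hX
    have h3 := h (1 / Real.log X) u (by positivity) (by rw [div_le_one (by linarith)]; exact h1) hu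
    rw [div_le_iff₀ (by positivity)] at h2
    calc 1 ≤ δ * Real.log X * m := by linarith
      _ ≤ _ := mul_le_mul_of_nonneg_left h3 (by positivity)
  obtain ⟨X0, hX0⟩ := eventually_atTop.1
    (hs.and (hT.and ((eventually_ge_atTop X1).and (eventually_ge_atTop 2))))
  refine ⟨X0, fun X hX χ u hu => ?_⟩
  obtain ⟨ha, hb, hc, hd⟩ := hX0 X hX
  rcases le_total |u| 1 with h1 | h1
  · exact ha χ u h1
  have hl : 0 < Real.log X := Real.log_pos (by linarith)
  have hu2 : |2 * u| ≤ X ^ (max A 0 + 1) := by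
    rw [abs_mul, abs_two, Real.rpow_add (by linarith), Real.rpow_one]
    have h3 : X ^ A ≤ X ^ (max A 0) :=
      Real.rpow_le_rpow_of_exponent_le (by linarith) (le_max_left _ _)
    have h4 : 0 ≤ X ^ (max A 0) := by positivity
    nlinarith
  have h2 := hX1 X hc (χ ^ 2) (2 * u) (by rw [abs_mul, abs_two]; linarith) hu2
  have h3 := DirichletCharacter.norm_LSeries_product_ge_one χ
    (x := 1 / Real.log X) (by positivity) u
  have e : (1 + ((1 / Real.log X : ℝ) : ℂ) + 2 * Complex.I * u) =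
      1 + ((1 / Real.log X : ℝ) : ℂ) + Complex.I * ((2 * u : ℝ) : ℂ) := by
    push_cast
    ring
  rw [e, norm_mul, norm_mul, norm_pow, norm_pow] at h3
  have h4 : 1 ≤ (δ * Real.log X *
      ‖LSeries (fun n => χ n) (1 + (1 / Real.log X : ℝ) + Complex.I * u)‖) ^ 4 := by
    refine le_trans h3 ?_
    calc _ ≤ (C * Real.log X) ^ 3 *
          ‖LSeries (fun n => χ n) (1 + (1 / Real.log X : ℝ) + Complex.I * u)‖ ^ 4 *
          (δ ^ 4 / C ^ 3 * Real.log X) := by
          refine mul_le_mul ?_ h2 (norm_nonneg _) (by positivity)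
          exact mul_le_mul_of_nonneg_right (pow_le_pow_left₀ (norm_nonneg _) hb 3) (by positivity)
      _ = _ := by
          field_simp
  exact (one_le_pow_iff_of_nonneg (by positivity) (by norm_num)).1 h4

end Pool.Agent.Lib.MP_028aa5_nt.T
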