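import Pool.Agent.Lib.MP_028aa5_nt.T.St1

/-! Primes in short windows and in dyadic blocks. -/

namespace Pool.Agent.Lib.MP_028aa5_nt.T

open Finset
open scoped ComplexConjugate Classical

namespace Pr

lemma theta_sub {x y : ℝ} (h : x ≤ y) :
    ∑ p ∈ pri x y, Real.log p = Chebyshev.theta y - Chebyshev.theta x := by
  unfold pri Chebyshev.theta
  simp only [sum_filter]
  rw [← sum_Ioc_consecutive _ (Nat.zero_le ⌊x⌋₊) (Nat.floor_le_floor h)]
  ring

lemma win (δ : ℝ) (h0 : 0 < δ) (h1 : δ ≤ 1) : ∃ P0 : ℝ, ∀ P ≥ P0,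
    δ * P / (2 * Real.log P) ≤ #(pri P ((1 + δ) * P)) := by
  have h := Pool.Agent.Shared.PNTAP.theta_pnt
  obtain ⟨x0, h2⟩ := Filter.eventually_atTop.1
    ((h.eventually (lt_mem_nhds (show 1 - δ / 12 < 1 by linarith))).and
      (h.eventually (gt_mem_nhds (show 1 < 1 + δ / 12 by linarith))))
  refine ⟨max x0 4, fun P hP => ?_⟩
  have p4 : 4 ≤ P := (le_max_right _ _).trans hP
  have p0 : x0 ≤ P := (le_max_left _ _).trans hP
  have pp : P ≤ (1 + δ) * P := by nlinarith
  have a1 := (h2 P p0).2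
  have a2 := (h2 _ (p0.trans pp)).1
  rw [div_lt_iff₀ (by linarith)] at a1
  rw [lt_div_iff₀ (by linarith)] at a2
  have l0 : 0 < Real.log P := Real.log_pos (by linarith)
  have l1 : 2 * Real.log 2 ≤ Real.log P := by
    rw [show 2 * Real.log 2 = Real.log 4 by
      rw [show (4 : ℝ) = 2 ^ 2 by norm_num, Real.log_pow]; norm_num]
    exact Real.log_le_log (by norm_num) p4
  have a3 : ∑ p ∈ pri P ((1 + δ) * P), Real.log p ≤
      #(pri P ((1 + δ) * P)) * (3 / 2 * Real.log P) := by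
    rw [← nsmul_eq_mul]
    refine sum_le_card_nsmul _ _ _ fun p hp => ?_
    obtain ⟨hp1, hp2⟩ := mem_filter.1 hp
    have b1 : (p : ℝ) ≤ (1 + δ) * P := (Nat.le_floor_iff (by linarith)).1 (mem_Ioc.1 hp1).2
    have b2 : Real.log p ≤ Real.log (2 * P) :=
      Real.log_le_log (by exact_mod_cast hp2.pos) (by nlinarith)
    rw [Real.log_mul (by norm_num) (by linarith)] at b2
    linarith
  rw [theta_sub pp] at a3
  rw [div_le_iff₀ (by linarith)]
  have c1 : δ * δ * P ≤ δ * P := by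
    have : 0 ≤ δ * P := by positivity
    nlinarith
  nlinarith

lemma blk' : ∃ i0 : ℕ, ∀ i ≥ i0,
    1 / (8 * (i : ℝ)) ≤ LL (blk (2 ^ i)) ∧ LL (blk (2 ^ i)) ≤ 4 / i := by
  obtain ⟨P0, h⟩ := blk_card
  refine ⟨max P0 1, fun i hi => ?_⟩
  have i1 : 1 ≤ i := (le_max_right _ _).trans hi
  have i0 : (0 : ℝ) < i := by exact_mod_cast i1
  have a1 := h (2 ^ i) (((le_max_left _ _).trans hi).trans Nat.lt_two_pow_self.le)
  have l2 := Real.log_two_lt_d9
  have l3 := Real.log_two_gt_d9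
  have q0 : (0 : ℝ) < 2 ^ i := by positivity
  push_cast at a1
  rw [Real.log_pow] at a1
  constructor
  · have a2 : #(blk (2 ^ i)) * (1 / (2 * 2 ^ i : ℝ)) ≤ LL (blk (2 ^ i)) := by
      rw [← nsmul_eq_mul]
      refine card_nsmul_le_sum _ _ _ fun p hp => ?_
      obtain ⟨hp1, hp2⟩ := mem_filter.1 hp
      exact one_div_le_one_div_of_le (by exact_mod_cast hp2.pos)
        (by exact_mod_cast (mem_Ioc.1 hp1).2)
    refine le_trans ?_ a2
    calc 1 / (8 * (i : ℝ)) ≤ 1 / (8 * (i * Real.log 2)) :=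
          one_div_le_one_div_of_le (by positivity) (by nlinarith)
      _ = 2 ^ i / (4 * (i * Real.log 2)) * (1 / (2 * 2 ^ i)) := by
          field_simp
          norm_num
      _ ≤ _ := mul_le_mul_of_nonneg_right a1 (by positivity)
  · have a2 : LL (blk (2 ^ i)) ≤ #(blk (2 ^ i)) * (1 / (2 ^ i : ℝ)) := by
      rw [← nsmul_eq_mul]
      refine sum_le_card_nsmul _ _ _ fun p hp => ?_
      obtain ⟨hp1, -⟩ := mem_filter.1 hp
      exact one_div_le_one_div_of_le q0 (by exact_mod_cast (mem_Ioc.1 hp1).1.le)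
    have a3 : #(blk (2 ^ i)) * (i * Real.log 2) ≤ ∑ p ∈ blk (2 ^ i), Real.log p := by
      rw [← nsmul_eq_mul]
      refine card_nsmul_le_sum _ _ _ fun p hp => ?_
      obtain ⟨hp1, -⟩ := mem_filter.1 hp
      rw [← Real.log_pow]
      exact Real.log_le_log q0 (by exact_mod_cast (mem_Ioc.1 hp1).1.le)
    have a4 : ∑ p ∈ blk (2 ^ i), Real.log p ≤ Chebyshev.theta ((2 * 2 ^ i : ℕ) : ℝ) := by
      unfold Chebyshev.theta
      rw [Nat.floor_natCast]
      exact sum_le_sum_of_subset_of_nonneg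
        (filter_subset_filter _ (Ioc_subset_Ioc_left (Nat.zero_le _)))
        fun p _ _ => Real.log_natCast_nonneg p
    have a5 := Chebyshev.theta_le_log4_mul_x (Nat.cast_nonneg (α := ℝ) (2 * 2 ^ i))
    rw [show (4 : ℝ) = 2 ^ 2 by norm_num, Real.log_pow] at a5
    have a6 : (#(blk (2 ^ i)) : ℝ) * i * Real.log 2 ≤ 4 * 2 ^ i * Real.log 2 := by
      have := (a3.trans a4).trans a5
      push_cast at this
      linarith
    have a7 := le_of_mul_le_mul_right a6 (by linarith)
    refine a2.trans ?_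
    rw [mul_one_div, div_le_div_iff₀ q0 i0]
    exact a7

lemma sum {M : Type} [AddCommMonoid M] (i i' : ℕ) (g : ℕ → M) (h : i ≤ i') :
    ∑ p ∈ SS i i', g p = ∑ j ∈ Ico i i', ∑ p ∈ MP_028aa5_nt.blk (2 ^ j), g p := by
  induction i', h using Nat.le_induction with
  | base => simp [SS]
  | succ n hn ih =>
    rw [sum_Ico_succ_top hn, ← ih]
    unfold SS MP_028aa5_nt.blk
    simp only [sum_filter]
    rw [sum_Ioc_consecutive _ (Nat.pow_le_pow_right two_pos hn) (by omega), pow_succ, mul_comm]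

lemma harm (i i' : ℕ) (h1 : 1 ≤ i) (h : i ≤ i') :
    Real.log (i' / i) ≤ ∑ j ∈ Ico i i', 1 / (j : ℝ) ∧
      ∑ j ∈ Ico i i', 1 / (j : ℝ) ≤ 1 / i - 1 / i' + Real.log (i' / i) := by
  have i0 : (0 : ℝ) < i := by exact_mod_cast h1
  induction i', h using Nat.le_induction with
  | base => simp [i0.ne']
  | succ n hn ih =>
    have n0 : (0 : ℝ) < n := by exact_mod_cast h1.trans hn
    have e1 : Real.log ((n + 1 : ℕ) / i) = Real.log (n / i) + Real.log ((n + 1) / n) := by
      rw [← Real.log_mul (by positivity) (by positivity)]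
      congr 1
      push_cast
      field_simp
    have a1 := Real.log_le_sub_one_of_pos (show (0 : ℝ) < (n + 1) / n by positivity)
    have a2 := Real.one_sub_inv_le_log_of_pos (show (0 : ℝ) < (n + 1) / n by positivity)
    have e2 : ((n : ℝ) + 1) / n - 1 = 1 / n := by
      field_simp
      ring
    have e3 : 1 - (((n : ℝ) + 1) / n)⁻¹ = 1 / (n + 1) := by
      field_simp
      ring
    rw [sum_Ico_succ_top hn, e1]
    push_cast
    constructor <;> linarith [ih.1, ih.2]

end Pr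

theorem st_Pr : PrSt where
  win := Pr.win
  blk := Pr.blk'
  sum := fun i i' g h => Pr.sum i i' g h
  sumR := fun i i' g h => Pr.sum i i' g h
  harm := fun i i' h1 h => by
    obtain ⟨a1, a2⟩ := Pr.harm i i' h1 h
    have a3 : 1 / (i : ℝ) ≤ 1 := by
      rw [div_le_one (by exact_mod_cast h1)]
      exact_mod_cast h1
    have a4 : 0 ≤ 1 / (i' : ℝ) := by positivity
    exact ⟨a1, by linarith⟩

end Pool.Agent.Lib.MP_028aa5_nt.T
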