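import Pool.Agent.Lib.MP_028aa5_nt.T.Defs

/-! Statements, part 1: norms, correlations, Weyl sums, primes, the stable scale. -/

namespace Pool.Agent.Lib.MP_028aa5_nt.T

open Finset
open scoped ComplexConjugate Classical

structure NSt : Prop where
  tc_add : ∀ k y α β, tc k y (α + β) = tc k y α + tc k y β
  tc_sub : ∀ k y α β, tc k y (α - β) = tc k y α - tc k y β
  tc_dil : ∀ k a y α, tc k y (dil a α) = tc k (a * y) α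
  tc_congr : ∀ k y α β, (∀ j ∈ Icc 1 k, α j = β j) → ∀ j ∈ Icc 1 k, tc k y α j = tc k y β j
  wn_nonneg : ∀ k κ t, 0 ≤ κ → 0 ≤ wn k κ t
  wn_add : ∀ k κ t t', 0 ≤ κ → wn k κ (t + t') ≤ wn k κ t + wn k κ t'
  wn_sub : ∀ k κ t t', 0 ≤ κ → wn k κ (t - t') ≤ wn k κ t + wn k κ t'
  wn_comm : ∀ k κ t t', wn k κ (t - t') = wn k κ (t' - t)
  nm_nonneg : ∀ k κ y α, 0 ≤ κ → 0 ≤ nm k κ y α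
  nm_add : ∀ k κ y α β, 0 ≤ κ → nm k κ y (α + β) ≤ nm k κ y α + nm k κ y β
  nm_sub : ∀ k κ y α β, 0 ≤ κ → nm k κ y (α - β) ≤ nm k κ y α + nm k κ y β
  nm_neg : ∀ k κ y α, nm k κ y (-α) = nm k κ y α
  nm_congr : ∀ k κ y α β, (∀ j ∈ Icc 1 k, α j = β j) → nm k κ y α = nm k κ y β
  nm_dil : ∀ k κ a y α, nm k κ y (dil a α) = nm k κ (a * y) α
  eval : ∀ k y x α, y ≠ 0 → ph k α x = ph k α y + ph k (tc k y α) (x / y - 1)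
  ph_le : ∀ k κ z t, |z| ≤ κ → |ph k t z| ≤ wn k κ t
  ph_dil : ∀ k a α x, ph k (dil a α) x = ph k α (a * x)
  ph_add : ∀ k α β x, ph k (α + β) x = ph k α x + ph k β x
  ph_sub : ∀ k α β x, ph k (α - β) x = ph k α x - ph k β x
  e_eqZ : ∀ k α β (n : ℤ), EqZ k α β → e (ph k α n) = e (ph k β n)
  e_eqN : ∀ k α β (n : ℕ), EqZ k α β → e (-ph k α n) = e (-ph k β n)
  nm_zero : ∀ k κ y, nm k κ y 0 = 0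
  nm_comm : ∀ k κ y α β, nm k κ y (α - β) = nm k κ y (β - α)
  nm_mono : ∀ k κ κ' y α, 0 ≤ κ → κ ≤ κ' → nm k κ y α ≤ nm k κ' y α
  nm_scale : ∀ k κ W y α, 0 ≤ κ → 1 ≤ W → nm k (W * κ) y α ≤ W ^ k * nm k κ y α
  lat_add : ∀ c z z', lat c (z + z') = lat c z + lat c z'
  lat_sub : ∀ c z z', lat c (z - z') = lat c z - lat c z'
  lat_mul : ∀ c (r : ℕ) z, lat (c * r) z = lat c fun j => (r : ℤ) ^ j * z j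
  lat_dil : ∀ a c z, dil a (lat c z) = lat (a * c) z
  cl_mono : ∀ k κ c y ρ ρ' α, ρ ≤ ρ' → Cl k κ c y ρ α → Cl k κ c y ρ' α
  cl_neg : ∀ k κ c y ρ α, Cl k κ c y ρ α → Cl k κ c y ρ (-α)
  cl_add : ∀ k κ c y ρ ρ' α β, 0 ≤ κ → Cl k κ c y ρ α → Cl k κ c y ρ' β →
    Cl k κ c y (ρ + ρ') (α + β)
  cl_dil : ∀ k κ c y ρ α (a : ℕ), Cl k κ c (a * y) ρ α → Cl k κ c y ρ (dil a α)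

structure N2St : Prop where
  shift : ∀ k κ y y' u α, 0 < κ → κ ≤ 1 → 0 < y → 0 < y' → |Real.log y' - Real.log y| ≤ u →
    u ≤ 1 → nm k κ y' α ≤ (1 + 4 * u / κ) ^ k * nm k κ y α
  shift' : ∀ k κ y y' u α, 0 < κ → κ ≤ 1 → 0 < y → 0 < y' → |Real.log y' - Real.log y| ≤ u →
    u ≤ 1 → wn k κ (tc k y' α - tc k y α) ≤ ((1 + 4 * u / κ) ^ k - 1) * nm k κ y α
  cl_shift : ∀ k κ c y y' u ρ α, 0 < κ → κ ≤ 1 → 0 < y → 0 < y' →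
    |Real.log y' - Real.log y| ≤ u → u ≤ 1 → Cl k κ c y ρ α → Cl k κ c y' ((1 + 4 * u / κ) ^ k * ρ) α
  coef : ∀ k κ y α, 0 < κ → κ ≤ 1 → 0 < y → ∀ j ∈ Icc 1 k, |α j| * y ^ j ≤ (2 / κ) ^ k * nm k κ y α
  coef' : ∀ k κ y α, 0 ≤ κ → κ ≤ 1 → 0 ≤ y → nm k κ y α ≤ 2 ^ k * ∑ j ∈ Icc 1 k, |α j| * y ^ j
  rigid : ∀ k κ y c z, 0 < κ → 0 < y → 0 < c → 1 ≤ κ * y * c → nm k κ y (lat c z) < κ * y * c →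
    ∀ j ∈ Icc 1 k, z j = 0
  one : ∀ k κ y R ρ α (r s : ℕ) z z', r.Prime → s.Prime → r ≠ s → 0 < κ → 0 < y → 0 < R →
    nm k κ y (α - lat (R / r) z) ≤ ρ → nm k κ y (α - lat (R / s) z') ≤ ρ →
    2 * ρ < κ * y * R / (r * s) → 1 ≤ κ * y * R / (r * s) → ∀ j ∈ Icc 1 k, (r : ℤ) ^ j ∣ z j

structure CSt : Prop where
  bd : ∀ k κ f y α, (∀ n, ‖f n‖ ≤ 1) → 0 < κ → 1 ≤ κ * y → ‖cc k κ f y α‖ ≤ 2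
  bds : ∀ k κ f γ t y a, (∀ n, ‖f n‖ ≤ 1) → 0 < κ → 1 ≤ κ * y → ‖cs k κ f γ t y a‖ ≤ 2
  int : ∀ k κ f y α β, EqZ k α β → cc k κ f y α = cc k κ f y β
  pert : ∀ k κ f y α τ, (∀ n, ‖f n‖ ≤ 1) → 0 < κ → 1 ≤ κ * y →
    ‖cc k κ f y (α + τ) - e (-ph k τ y) * cc k κ f y α‖ ≤ 14 * nm k κ y τ
  star : ∀ k κ f y φ γ τ t (a : ℕ), (∀ n, ‖f n‖ ≤ 1) → 0 < κ → 1 ≤ κ * y →
    EqZ k φ (dil a γ + τ) →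
    ‖cs k κ f γ t y a - e (ph k τ y) * cc k κ f y φ‖ ≤ 14 * wn k κ (tc k y τ - t)
  move : ∀ k κ f y y' u α, (∀ n, ‖f n‖ ≤ 1) → 0 < κ → κ ≤ 1 → 1 ≤ κ * y → 0 < y' →
    |Real.log y' - Real.log y| ≤ u → u ≤ 1 →
    ‖cc k κ f y' α - cc k κ f y α‖ ≤ 20 * (u / κ + 1 / (κ * y))
  moves : ∀ k κ f γ t y y' u a, (∀ n, ‖f n‖ ≤ 1) → 0 < κ → κ ≤ 1 → 1 ≤ κ * y → 0 < y' →
    |Real.log y' - Real.log y| ≤ u → u ≤ κ / 4 →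
    ‖cs k κ f γ t y' a - cs k κ f γ t y a‖ ≤
      20 * (u / κ + 1 / (κ * y)) + 100 * k * 2 ^ k * (u / κ) * wn k κ t
  tk : ∀ k κ f y α (Q : Finset ℕ) (B : ℝ), (∀ n, ‖f n‖ ≤ 1) → 0 < κ → 1 ≤ B →
    (∀ p ∈ Q, p.Prime ∧ p ≤ B ∧ ∀ m, 0 < m → f (p * m) = -f m) → 4 * B ^ 2 ≤ κ * y →
    ∑ p ∈ Q, 1 / (p : ℝ) * ‖cc k κ f y α + cc k κ f (y / p) (dil p α)‖ ^ 2 ≤ 8

/-- inverse Weyl inequality for all coefficients -/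
def W1St : Prop := ∀ (k : ℕ) (R : ℝ), 1 ≤ k → 1 ≤ R → ∃ (Q : ℕ) (B K0 : ℝ), ∀ κ y α,
  0 < κ → κ ≤ 1 → K0 ≤ κ * y → κ * y / R ≤ ‖∑ n ∈ Ioc ⌊y⌋₊ ⌊y * (1 + κ)⌋₊, e (ph k α n)‖ →
  ∃ (q : ℕ) (z : ℕ → ℤ), 1 ≤ q ∧ q ≤ Q ∧ nm k κ y (α - fun j => (z j : ℝ) / q) ≤ B

/-- separated families are bounded -/
def W2St : Prop := ∀ (k : ℕ) (η ρ : ℝ), 1 ≤ k → 0 < η → 0 < ρ → ∃ (M : ℕ) (K0 : ℝ),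
  ∀ κ y f A, 0 < κ → κ ≤ 1 → K0 ≤ κ * y → (∀ n, ‖f n‖ ≤ 1) → Fam k κ f η ρ y A → #A ≤ M

/-- complete sums -/
def W3St : Prop := ∀ (k : ℕ) (ε : ℝ), 1 ≤ k → 0 < ε → ∃ Q : ℕ, ∀ (N : ℕ) (γ : Ph), 1 ≤ N →
  EqZ k (fun j => N * γ j) 0 → ε * N ≤ ‖∑ m ∈ range N, e (ph k γ m)‖ →
  ∃ q : ℕ, 1 ≤ q ∧ q ≤ Q ∧ EqZ k (fun j => q * γ j) 0

structure PrSt : Prop where
  win : ∀ δ : ℝ, 0 < δ → δ ≤ 1 → ∃ P0 : ℝ, ∀ P ≥ P0,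
    δ * P / (2 * Real.log P) ≤ #(pri P ((1 + δ) * P))
  blk : ∃ i0 : ℕ, ∀ i ≥ i0, 1 / (8 * (i : ℝ)) ≤ LL (blk (2 ^ i)) ∧ LL (blk (2 ^ i)) ≤ 4 / i
  sum : ∀ (i i' : ℕ) (g : ℕ → ℂ), i ≤ i' →
    ∑ p ∈ SS i i', g p = ∑ j ∈ Ico i i', ∑ p ∈ MP_028aa5_nt.blk (2 ^ j), g p
  sumR : ∀ (i i' : ℕ) (g : ℕ → ℝ), i ≤ i' →
    ∑ p ∈ SS i i', g p = ∑ j ∈ Ico i i', ∑ p ∈ MP_028aa5_nt.blk (2 ^ j), g p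
  harm : ∀ i i' : ℕ, 1 ≤ i → i ≤ i' → Real.log (i' / i) ≤ ∑ j ∈ Ico i i', 1 / (j : ℝ) ∧
    ∑ j ∈ Ico i i', 1 / (j : ℝ) ≤ 1 + Real.log (i' / i)

/-- choice of a narrow window of primes -/
def WinSt : Prop := ∀ δ L : ℝ, 0 < δ → δ ≤ 1 → 0 < L → ∃ D P0 : ℝ, 1 ≤ D ∧ ∀ P1 ≥ P0,
  ∀ (t : ℕ → ℝ) (C : ℝ), (∀ p, 0 ≤ t p) → ∑ p ∈ pri P1 (P1 ^ D), t p / p ≤ C →
  ∃ P, P1 ≤ P ∧ 2 * P ≤ P1 ^ D ∧ δ * P / (2 * Real.log P) ≤ #(pri P ((1 + δ) * P)) ∧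
    ∑ p ∈ pri P ((1 + δ) * P), t p ≤ C / L * #(pri P ((1 + δ) * P))

/-- integrability of the supremum -/
def MeasSt : Prop := ∀ (k : ℕ) (H X : ℝ), 0 ≤ H → 0 ≤ X →
  IntervalIntegrable (supS k H) MeasureTheory.volume X (2 * X)

/-- from the integral to cells -/
def A0aSt : Prop := ∀ (π : Par) (X H : ℝ) (c0 Nc : ℕ) (s : ℕ → ℝ), 0 < π.κ0 → 1 ≤ π.Nf →
  1 ≤ π.G → π.κ ≤ 1 → 1 ≤ π.κ * X → 0 ≤ H → H ≤ X → π.ps c0 ≤ X → 3 * X ≤ π.ps (c0 + Nc) →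
  (∀ c ∈ Ico c0 (c0 + Nc), ∀ α,
    ‖∑ n ∈ Ioc ⌊π.ps c⌋₊ ⌊π.ps c * (1 + π.κ)⌋₊, lio n * e (-ph π.k α n)‖ ≤ s c) →
  ∫ x in X..2 * X, supS π.k H x ≤ 20 * π.κ * X * X + H / π.G * ∑ c ∈ Ico c0 (c0 + Nc), s c

/-- from the integral to many cells that carry an atom -/
def A0St : Prop := ∀ (π : Par) (η X H : ℝ) (S : Finset ℕ) (B c0 Nc : ℕ), 0 < η → η ≤ 1 →
  0 < π.κ0 → 1 ≤ π.Nf → 1 ≤ π.G → π.κ ≤ 1 → 1 ≤ π.κ * X → 100 * π.κ * X ≤ η * H → H ≤ X →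
  (∀ p ∈ S, p.Prime) → (#S : ℝ) ≤ X → (300 / η) ^ 2 ≤ LL S → 1 ≤ B →
  (∀ n : ℕ, 0 < n → n ≤ 8 * X → #{p ∈ S | p ∣ n} ≤ B) →
  X / 2 ≤ π.ps c0 → π.ps c0 ≤ X → 3 * X ≤ π.ps (c0 + Nc) → π.ps (c0 + Nc) ≤ 4 * X →
  η * (H * X) < ∫ x in X..2 * X, supS π.k H x →
  η / 200 * Nc ≤ #{c ∈ Ico c0 (c0 + Nc) |
    ∃ α, η * LL S / (100 * B) ≤ ‖cc π.k π.κ (fw S B) (π.ps c) α‖}

/-- the properties of the graph that come from `f` -/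
structure Real0 (π : Par) (f : ℕ → ℂ) (η ε2 : ℝ) (cL cU Nc : ℕ) (N : Net) (E : Finset N.Ed)
    (φ : N.W → Ph) : Prop where
  card : Fintype.card N.W ≤ 2 * π.M * Nc
  cu : ∀ x, N.isU x = true → N.cell x ∈ Ico cU (cU + Nc)
  cl : ∀ x, N.isU x = false → N.cell x ∈ Ico cL (cL + Nc)
  tk : ∀ e ∈ E, ‖cc π.k π.κ f (N.pos π (N.up e)) (φ (N.up e)) +
    cc π.k π.κ f (N.pos π (N.up e) / N.pr e) (dil (N.pr e) (φ (N.up e)))‖ ≤ ε2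
  big : ∀ e ∈ E, η ≤ ‖cc π.k π.κ f (N.pos π (N.lo e)) (φ (N.lo e))‖

/-- matching into a largest family -/
def MatchSt : Prop := ∀ (k : ℕ) (κ η ρ y : ℝ) (f : ℕ → ℂ) (A AL : Finset Ph), 0 ≤ ρ →
  Fam k κ f η ρ y A → Fam k κ f η ρ y AL → (∀ A', Fam k κ f η ρ y A' → #A' ≤ #AL) →
  ∃ m : Ph → Ph, Set.InjOn m A ∧ ∀ α ∈ A, m α ∈ AL ∧ Cl k κ 1 y ρ (m α - α)

/-- dilates of a family form a family, except for few primes -/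
def DescSt : Prop := ∀ (π : Par) (f : ℕ → ℂ) (η η' ρ ρ' ε2 K1 y : ℝ) (A : Finset Ph), π.Ok →
  (∀ n, ‖f n‖ ≤ 1) → 2 * π.κ1 ≤ 1 → 12 * π.P ^ 2 ≤ K1 → K1 ≤ π.κ * y → 0 ≤ ρ' → ρ ≤ 1 →
  ρ' * (1 + 8 / π.G) ^ π.k ≤ ρ → η' ≤ η - ε2 - 20 * (2 / π.G + 1 / K1) → Fam π.k π.κ f η ρ y A →
  ∃ Col : Finset ℕ, #Col ≤ #A ^ 2 ∧ ∀ p ∈ π.PP, p ∉ Col → Set.InjOn (dil p) A ∧ ∀ y' : ℝ,
    K1 ≤ π.κ * y' → |Real.log (y / p) - Real.log y'| ≤ 2 * π.κ1 →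
    Fam π.k π.κ f η' ρ' y' (image (dil p)
      {α ∈ A | ‖cc π.k π.κ f y α + cc π.k π.κ f (y / p) (dil p α)‖ ≤ ε2})

/-- one descent -/
def A1St : Prop := ∀ (π : Par) (f : ℕ → ℂ) (δ η η' ρ ρ' ε2 τ K1 : ℝ) (cL sh Nc : ℕ)
  (AU AL : ℕ → Finset Ph), π.Ok → (∀ n, ‖f n‖ ≤ 1) → δ ≤ 1 → π.κ1 ≤ δ → 2 * π.κ1 ≤ 1 →
  (∀ p ∈ π.PP, p ≤ (1 + δ) * π.P) → 1 ≤ Nc * π.κ1 → sh * π.κ1 ≤ Real.log π.P →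
  Real.log π.P < (sh + 1) * π.κ1 → 12 * π.P ^ 2 ≤ K1 → K1 ≤ π.κ * π.ps cL → 0 ≤ ρ' → ρ ≤ 1 →
  ρ' * (1 + 8 / π.G) ^ π.k ≤ ρ → 0 < ε2 → η' ≤ η - ε2 - 20 * (2 / π.G + 1 / K1) →
  (∀ c ∈ Ico (cL + sh) (cL + sh + Nc), Fam π.k π.κ f η ρ (π.ps c) (AU c) ∧ #(AU c) ≤ π.M) →
  (∀ c ∈ Ico cL (cL + Nc), Fam π.k π.κ f η' ρ' (π.ps c) (AL c) ∧ #(AL c) ≤ π.M ∧
    ∀ A, Fam π.k π.κ f η' ρ' (π.ps c) A → #A ≤ #(AL c)) →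
  ∑ p ∈ π.PP, ∑ c ∈ Ico (cL + sh) (cL + sh + Nc), ∑ α ∈ AU c,
    ‖cc π.k π.κ f (π.ps c) α + cc π.k π.κ f (π.ps c / p) (dil p α)‖ ^ 2 ≤ τ * #π.PP * Nc →
  ∃ (N : Net) (E : Finset N.Ed) (φ : N.W → Ph), N.Is π E ∧ N.Lv π 1 ρ' φ E ∧
    Real0 π f η' ε2 cL (cL + sh) Nc N E φ ∧
    ∀ lam, lam * (∑ c ∈ Ico (cL + sh) (cL + sh + Nc), (#(AU c) : ℝ) +
      ∑ c ∈ Ico cL (cL + Nc), (#(AL c) : ℝ)) ≤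
      2 * (∑ c ∈ Ico (cL + sh) (cL + sh + Nc), (#(AU c) : ℝ) -
        π.M * Nc * (τ / ε2 ^ 2 + π.M ^ 2 / #π.PP + 3 * δ)) →
      0 < ∑ c ∈ Ico (cL + sh) (cL + sh + Nc), (#(AU c) : ℝ) → N.Ray π.ν E lam

/-- one descent with the choice of the primes and of the lower families -/
def OneSt : Prop := ∀ (M : ℕ) (ε2 ls : ℝ), 1 ≤ M → 0 < ε2 → 0 < ls → ∃ D K0 : ℝ, 1 ≤ D ∧
  ∀ (π : Par) (f : ℕ → ℂ) (P1 η η' ρ ρ' K1 : ℝ) (cU Nc : ℕ) (AU : ℕ → Finset Ph), 1 ≤ π.k →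
  π.M = M → 1 ≤ π.G → 0 < π.κ0 → 1 ≤ π.Nf → π.κ * K0 ≤ 1 → K0 ≤ P1 → 1 ≤ Nc * π.κ1 →
  12 * (P1 ^ D) ^ 2 ≤ K1 → K1 * P1 ^ D ≤ π.κ * π.ps cU → (∀ n, ‖f n‖ ≤ 1) →
  (∀ p : ℕ, p.Prime → p ≤ P1 ^ D → ∀ m, 0 < m → f (p * m) = -f m) → 0 ≤ ρ' → ρ ≤ 1 →
  ρ' * (1 + 8 / π.G) ^ π.k ≤ ρ → η' ≤ η - ε2 - 20 * (2 / π.G + 1 / K1) →
  (∀ c ∈ Ico cU (cU + Nc), Fam π.k π.κ f η ρ (π.ps c) (AU c) ∧ #(AU c) ≤ M) →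
  (∀ y A, K1 ≤ π.κ * y → Fam π.k π.κ f η' ρ' y A → #A ≤ M) →
  ∃ (P : ℝ) (PP : Finset ℕ) (cL : ℕ) (AL : ℕ → Finset Ph) (N : Net) (E : Finset N.Ed)
    (φ : N.W → Ph), Par.Ok { π with P := P, PP := PP } ∧ P1 ≤ P ∧ P ≤ P1 ^ D ∧
    P / (D * Real.log P) ≤ #PP ∧ cL ≤ cU ∧ π.ps cU ≤ P1 ^ D * π.ps cL ∧
    (∀ c ∈ Ico cL (cL + Nc), Fam π.k π.κ f η' ρ' (π.ps c) (AL c) ∧ #(AL c) ≤ M) ∧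
    N.Is { π with P := P, PP := PP } E ∧ N.Lv { π with P := P, PP := PP } 1 ρ' φ E ∧
    Real0 { π with P := P, PP := PP } f η' ε2 cL cU Nc N E φ ∧
    ∀ lam, lam * (∑ c ∈ Ico cU (cU + Nc), (#(AU c) : ℝ) + ∑ c ∈ Ico cL (cL + Nc), (#(AL c) : ℝ)) ≤
      2 * (∑ c ∈ Ico cU (cU + Nc), (#(AU c) : ℝ) - ls * Nc) →
      0 < ∑ c ∈ Ico cU (cU + Nc), (#(AU c) : ℝ) →
      N.Ray (Par.ν { π with P := P, PP := PP }) E lam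

/-- the stable scale -/
def A2St : Prop := ∀ (k m1 G0 : ℕ) (η c0 ρ ε ε2 : ℝ), 1 ≤ k → 0 < η → 0 < c0 → 0 < ρ → ρ ≤ 1 →
  0 < ε → 0 < ε2 → ∃ (G M : ℕ) (D K0 : ℝ), G0 ≤ G ∧ 1 ≤ G ∧ 1 ≤ M ∧ 1 ≤ D ∧
  ∀ (π : Par) (f : ℕ → ℂ) (P1 : ℝ) (cX Nc : ℕ), π.k = k → π.G = G → π.M = M → 0 < π.κ0 →
  1 ≤ π.Nf → π.κ * K0 ≤ 1 → K0 ≤ P1 → 1 ≤ Nc * π.κ1 → P1 ^ D ≤ π.κ * π.ps cX →
  (∀ n, ‖f n‖ ≤ 1) → (∀ p : ℕ, p.Prime → p ≤ P1 ^ D → ∀ m, 0 < m → f (p * m) = -f m) →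
  c0 * Nc ≤ #{c ∈ Ico cX (cX + Nc) | ∃ α, η ≤ ‖cc π.k π.κ f (π.ps c) α‖} →
  ∃ (P : ℝ) (PP : Finset ℕ) (cL cU : ℕ) (N : Net) (E : Finset N.Ed) (φ : N.W → Ph),
    Par.Ok { π with P := P, PP := PP } ∧ P1 ≤ P ∧ P ≤ P1 ^ D ∧ P / (D * Real.log P) ≤ #PP ∧
    cL ≤ cU ∧ cU ≤ cX ∧ π.ps cX ≤ P1 ^ D * π.ps cL ∧ P ^ m1 ≤ π.κ * π.ps cL ∧
    N.Is { π with P := P, PP := PP } E ∧ N.Lv { π with P := P, PP := PP } 1 ρ φ E ∧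
    Real0 { π with P := P, PP := PP } f (η / 2) ε2 cL cU Nc N E φ ∧
    N.Ray (Par.ν { π with P := P, PP := PP }) E (1 - ε)

end Pool.Agent.Lib.MP_028aa5_nt.T
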