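import Pool.Agent.Lib.MP_028aa5_nt.T.St1

/-! Statements, part 2: digits, loops, blocks. -/

namespace Pool.Agent.Lib.MP_028aa5_nt.T

open Finset
open scoped ComplexConjugate Classical

structure BasSt : Prop where
  κ1_pos : ∀ π : Par, π.Ok → 0 < π.κ1
  κ0_le : ∀ π : Par, π.Ok → π.κ0 ≤ π.κ1
  κ_ge : ∀ π : Par, π.Ok → π.G * π.κ1 ≤ π.κ
  κ1_le : ∀ π : Par, π.Ok → π.κ1 ≤ π.κ
  ν_pos : ∀ π : Par, π.Ok → 0 < π.ν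
  lg : ∀ (π : Par) (n : ℕ), π.Ok → 0 < n →
    Real.log n ≤ π.lg n * π.κ0 ∧ π.lg n * π.κ0 < Real.log n + π.κ0
  mono : ∀ (π : Par) (N : Net) E E', N.Is π E → E' ⊆ E → N.Is π E'
  cntU : ∀ (π : Par) (N : Net) E, π.Ok → N.Is π E → ∀ x p,
    #{e ∈ E | N.pr e = p ∧ N.up e = x} ≤ π.Nf
  cntL : ∀ (π : Par) (N : Net) E, π.Ok → N.Is π E → ∀ x p,
    #{e ∈ E | N.pr e = p ∧ N.lo e = x} ≤ π.Nf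
  sumU : ∀ (π : Par) (N : Net) E (S : Finset ℕ) (h : N.W → ℝ), π.Ok → N.Is π E → (∀ x, 0 ≤ h x) →
    π.ν * ∑ e ∈ E with N.pr e ∈ S, h (N.up e) ≤ #S / #π.PP * ∑ x with N.isU x = true, h x
  sumL : ∀ (π : Par) (N : Net) E (S : Finset ℕ) (h : N.W → ℝ), π.Ok → N.Is π E → (∀ x, 0 ≤ h x) →
    π.ν * ∑ e ∈ E with N.pr e ∈ S, h (N.lo e) ≤ #S / #π.PP * ∑ x with N.isU x = false, h x
  Qf_le : ∀ (π : Par) (N : Net) E u, π.Ok → N.Is π E → N.Qf π.ν E u ≤ ∑ x, u x ^ 2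
  sym : ∀ (N : Net) ν E (u v : N.W → ℝ), ∑ x, u x * N.opB ν E v x =
    ν * ∑ e ∈ E, (u (N.lo e) * v (N.up e) + u (N.up e) * v (N.lo e))
  symC : ∀ (N : Net) (D : Type) [Fintype D] ν E (T : N.Ed → D ≃ D) (F F' : N.W → D → ℝ),
    ∑ x, ∑ d, F x d * N.opC ν E T F' x d = ν * ∑ e ∈ E, ∑ d,
      (F (N.lo e) (T e d) * F' (N.up e) d + F (N.up e) d * F' (N.lo e) (T e d))
  proj : ∀ (N : Net) (D : Type) [Fintype D] ν E (T : N.Ed → D ≃ D) (F : N.W → D → ℝ) x,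
    ∑ d, N.opC ν E T F x d = N.opB ν E (fun y => ∑ d, F y d) x
  pos_pos : ∀ (π : Par) (N : Net) x, 0 < N.pos π x
  pos_edge : ∀ (π : Par) (N : Net) E, π.Ok → N.Is π E → ∀ e ∈ E,
    |Real.log (N.pos π (N.up e) / N.pr e) - Real.log (N.pos π (N.lo e))| ≤ 2 * π.κ1
  fine_up : ∀ (π : Par) (N : Net) E, π.Ok → N.Is π E → ∀ e ∈ E,
    |Real.log (π.yy (N.fj e)) - Real.log (N.pos π (N.up e))| ≤ π.κ1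
  fine : ∀ (π : Par) (j : ℕ), π.Ok → |Real.log (π.yy j) - Real.log (π.ps (j / π.Nf))| ≤ π.κ1
  fine_lo : ∀ (π : Par) (j p : ℕ), π.Ok → 0 < p → π.lg p ≤ j →
    |Real.log (π.yy (j - π.lg p)) - Real.log (π.yy j / p)| ≤ π.κ0
  near : ∀ (π : Par) (N : Net) E (s l : ℝ), π.Ok → N.Is π E → 0 ≤ l →
    (#{x | |Real.log (N.pos π x) - s| ≤ l * π.κ1} : ℝ) ≤ 2 * π.M * (2 * l + 1)

/-- Perron vector -/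
def PFSt : Prop := ∀ (N : Net) (ν : ℝ) (E : Finset N.Ed), 0 ≤ ν → Nonempty N.W →
  ∃ (w : N.W → ℝ) (lam : ℝ), (∀ x, 0 ≤ w x) ∧ ∑ x, w x ^ 2 = 1 ∧
    (∀ x, N.opB ν E w x = lam * w x) ∧ ∀ u, N.Qf ν E u ≤ lam * ∑ x, u x ^ 2

/-- conflict weights -/
structure CfSt : Prop where
  nonneg : ∀ (N : Net) (D : Type) [Fintype D] ν E (T : N.Ed → D ≃ D) (σ : N.W → D → ℝ) (i : ℕ),
    0 ≤ ν → (∀ x d, 0 ≤ σ x d) → 0 ≤ N.conf ν E T σ i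
  adjB : ∀ (N : Net) ν E (u v : N.W → ℝ) (i j : ℕ),
    ∑ x, (N.opB ν E)^[i] u x * (N.opB ν E)^[j] v x = ∑ x, (N.opB ν E)^[i + j] u x * v x
  adjC : ∀ (N : Net) (D : Type) [Fintype D] ν E (T : N.Ed → D ≃ D) (F F' : N.W → D → ℝ) (i j : ℕ),
    ∑ x, ∑ d, (N.opC ν E T)^[i] F x d * (N.opC ν E T)^[j] F' x d =
      ∑ x, ∑ d, (N.opC ν E T)^[i + j] F x d * F' x d
  linB : ∀ (N : Net) ν E (u v : N.W → ℝ) (a b : ℝ) (i : ℕ) x,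
    (N.opB ν E)^[i] (fun y => a * u y + b * v y) x =
      a * (N.opB ν E)^[i] u x + b * (N.opB ν E)^[i] v x
  linC : ∀ (N : Net) (D : Type) ν E (T : N.Ed → D ≃ D) (F F' : N.W → D → ℝ) (a b : ℝ) (i : ℕ) x d,
    (N.opC ν E T)^[i] (fun y d' => a * F y d' + b * F' y d') x d =
      a * (N.opC ν E T)^[i] F x d + b * (N.opC ν E T)^[i] F' x d
  monoB : ∀ (N : Net) ν E E' (u v : N.W → ℝ), 0 ≤ ν → E' ⊆ E → (∀ x, 0 ≤ v x) → (∀ x, u x ≤ v x) →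
    ∀ x, N.opB ν E' u x ≤ N.opB ν E v x
  posC : ∀ (N : Net) (D : Type) ν E (T : N.Ed → D ≃ D) (F : N.W → D → ℝ) (i : ℕ), 0 ≤ ν →
    (∀ x d, 0 ≤ F x d) → ∀ x d, 0 ≤ (N.opC ν E T)^[i] F x d
  Qf : ∀ (N : Net) ν E (u : N.W → ℝ), N.Qf ν E u = ∑ x, u x * N.opB ν E u x
  boost : ∀ (N : Net) (D : Type) [Fintype D] ν E (T : N.Ed → D ≃ D) (σ : N.W → D → ℝ) (c : ℝ) (i : ℕ),
    N.conf ν E T (fun x d => σ x d + c * N.opC ν E T σ x d) i =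
      N.conf ν E T σ i + 2 * c * N.conf ν E T σ (i + 1) + c ^ 2 * N.conf ν E T σ (i + 2)

/-- the potential of the sources -/
def Dig1St : Prop := ∀ (N : Net) (D : Type) [Fintype D] (ν : ℝ) (E E' : Finset N.Ed)
  (T : N.Ed → D ≃ D) (w : N.W → ℝ) (σ : N.W → D → ℝ) (lam κc : ℝ) (m : ℕ),
  0 ≤ ν → E' ⊆ E → (∀ x, 0 ≤ w x) → (∀ x, N.opB ν E w x = lam * w x) → 1 / 2 ≤ lam →
  (∀ x d, 0 ≤ σ x d) → (∀ x, ∑ d, σ x d ≤ w x) → 0 ≤ κc →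
  (∀ i ≤ 2 * m + 1, N.conf ν E' T σ i ≤ κc) →
  ∃ F : N.W → D → ℝ, (∀ x d, 0 ≤ F x d) ∧ (∀ x, ∑ d, σ x d ≤ 2 * ∑ d, F x d) ∧
    (∀ x, ∑ d, F x d + w x / 2 ^ (m + 1) ≤ w x) ∧
    (∀ x, N.opB ν E' (fun y => ∑ d, F y d + w y / 2 ^ (m + 1)) x ≤
      lam * (2 * (∑ d, F x d + w x / 2 ^ (m + 1)) - ∑ d, σ x d)) ∧
    N.conf ν E' T F 1 ≤ (m + 1) ^ 2 * κc

/-- an edge whose ends prefer different digits carries conflicts -/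
def Dig2St : Prop := ∀ (N : Net) (D : Type) [Fintype D] [Nonempty D] (ν : ℝ) (E : Finset N.Ed)
  (T : N.Ed → D ≃ D) (F : N.W → D → ℝ), 0 ≤ ν → (∀ x d, 0 ≤ F x d) → ∃ d : N.W → D,
  N.Qf ν {e ∈ E | T e (d (N.up e)) ≠ d (N.lo e)} (fun x => ∑ d, F x d) ≤ 2 * N.conf ν E T F 1

/-- the digit lemma -/
def DigSt : Prop := ∀ (N : Net) (D : Type) [Fintype D] [Nonempty D] (ν : ℝ) (E E' : Finset N.Ed)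
  (T : N.Ed → D ≃ D) (w : N.W → ℝ) (σ : N.W → D → ℝ) (lam ζ γ κc : ℝ) (m : ℕ),
  0 ≤ ν → E' ⊆ E → (∀ x, 0 ≤ w x) → ∑ x, w x ^ 2 = 1 → (∀ x, N.opB ν E w x = lam * w x) →
  1 / 2 ≤ lam → lam ≤ 1 → lam - ζ ≤ N.Qf ν E' w → (∀ x d, 0 ≤ σ x d) → (∀ x, ∑ d, σ x d ≤ w x) →
  1 - γ ≤ ∑ x, w x * ∑ d, σ x d → γ ≤ 1 / 4 → 3 ≤ m → 0 ≤ κc →
  (∀ i ≤ 2 * m + 1, N.conf ν E' T σ i ≤ κc) →
  ∃ d : N.W → D, N.Ray ν {e ∈ E' | T e (d (N.up e)) = d (N.lo e)}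
    (lam - 2 * (ζ + (γ + ζ) / ((m - 2) * Real.log 2) ^ 2 + 2 * (m + 1) ^ 2 * 4 ^ (m + 1) * κc))

structure WalkSt : Prop where
  exp : ∀ (N : Net) (D : Type) ν E (T : N.Ed → D ≃ D) (S : Finset ℕ) (m : ℕ) F x d,
    (∀ e ∈ E, N.pr e ∈ S) → (N.opC ν E T)^[m] F x d =
      ∑ l ∈ Fintype.piFinset fun _ : Fin m => S, N.opL ν E T (List.ofFn l) F x d
  nonneg : ∀ (N : Net) (D : Type) ν E (T : N.Ed → D ≃ D) l F, 0 ≤ ν → (∀ x d, 0 ≤ F x d) →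
    ∀ x d, 0 ≤ N.opL ν E T l F x d
  lin : ∀ (N : Net) (D ι : Type) ν E (T : N.Ed → D ≃ D) l (I : Finset ι) (c : ι → ℝ)
    (F : ι → N.W → D → ℝ) x d,
    N.opL ν E T l (fun y d' => ∑ i ∈ I, c i * F i y d') x d = ∑ i ∈ I, c i * N.opL ν E T l (F i) x d
  mass : ∀ (π : Par) (N : Net) (D : Type) [Fintype D] E (T : N.Ed → D ≃ D) l F, π.Ok → N.Is π E →
    (∀ x d, 0 ≤ F x d) →
    ∑ x, ∑ d, N.opL π.ν E T l F x d ≤ (1 / (#π.PP : ℝ)) ^ l.length * ∑ x, ∑ d, F x d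
  mem : ∀ (N : Net) (D : Type) ν E (T : N.Ed → D ≃ D) l F x d, N.opL ν E T l F x d ≠ 0 →
    (∀ p ∈ l, ∃ e ∈ E, N.pr e = p) ∧ (l ≠ [] → ∃ e ∈ E, x = N.up e ∨ x = N.lo e)
  projI : ∀ (N : Net) (D : Type) [Fintype D] ν E (T : N.Ed → D ≃ D) (m : ℕ) (F : N.W → D → ℝ) x,
    ∑ d, (N.opC ν E T)^[m] F x d = (N.opB ν E)^[m] (fun y => ∑ d, F y d) x

/-- the invariant along a walk -/
def InvSt : Prop := ∀ (π : Par) (N : Net) (D : Type) E (T : N.Ed → D ≃ D) (ψ : N.W → D → Ph) (c ρ ρ0 y0 : ℝ)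
    (β : Ph) x0 d0 l x d, π.Ok → N.Is π E → 0 ≤ ρ →
    (∀ e ∈ E, ∀ d, Cl π.k π.κ c (N.pos π (N.lo e)) ρ
      (ψ (N.lo e) (T e d) - dil (N.pr e) (ψ (N.up e) d))) →
    0 < y0 → |Real.log y0 - Real.log (N.pos π x0)| ≤ 2 * π.κ1 →
    Cl π.k π.κ c y0 ρ0 (ψ x0 d0 - β) → 2 * (l.length + 2) * π.κ1 ≤ 1 →
    N.opL π.ν E T l (fun y d' => if y = x0 ∧ d' = d0 then 1 else 0) x d ≠ 0 →
    |Real.log (N.pos π x / (ab (N.isU x0) l).2) - Real.log (y0 / (ab (N.isU x0) l).1)| ≤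
      2 * (l.length + 1) * π.κ1 ∧
    Cl π.k π.κ c (y0 / (ab (N.isU x0) l).1) (ρ0 + l.length * (8 * l.length + 17) ^ π.k * ρ)
      (dil (ab (N.isU x0) l).2 (ψ x d) - dil (ab (N.isU x0) l).1 β)

/-- sizes, prime factors and fibres of `ab` -/
structure AbSt : Prop where
  ab_le : ∀ (s : Bool) (l : List ℕ) (B : ℝ), 1 ≤ B → (∀ p ∈ l, 0 < p ∧ p ≤ B) →
    0 < (ab s l).1 ∧ 0 < (ab s l).2 ∧ (ab s l).1 ≤ B ^ ((l.length + 1) / 2) ∧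
      (ab s l).2 ≤ B ^ ((l.length + 1) / 2)
  ab_cop : ∀ (s : Bool) (l : List ℕ) (r : ℕ), r.Prime → (∀ p ∈ l, p.Prime ∧ p ≠ r) →
    Nat.Coprime (ab s l).2 r
  ab_fib : ∀ (s : Bool) (S : Finset ℕ) (n a b : ℕ), (∀ p ∈ S, p.Prime) →
    #{l ∈ Fintype.piFinset fun _ : Fin (2 * n) => S | ab s (List.ofFn l) = (a, b)} ≤ n.factorial ^ 2
  ab_img : ∀ (s : Bool) (S : Finset ℕ) (n : ℕ),
    #((Fintype.piFinset fun _ : Fin (2 * n) => S).image fun l => (ab s (List.ofFn l)).2) ≤ #S ^ n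
  /-- tuples of primes with a given product -/
  prod_fib : ∀ (S : Finset ℕ) (n b : ℕ), (∀ p ∈ S, p.Prime) →
    #{l ∈ Fintype.piFinset fun _ : Fin n => S | ∏ i, l i = b} ≤ n.factorial

/-- conflicts are rare on average over the prime -/
def ConfSt : Prop := ∀ (π : Par) (N : Net) (E : Finset N.Ed) (w : N.W → ℝ) (φ : N.W → Ph)
  (zf : N.Ed → ℕ → ℤ) (T : (r : ℕ) → N.Ed → Dg π.k r ≃ Dg π.k r) (R ρ Y : ℝ) (i : ℕ),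
  π.Ok → N.Is π E → (∀ x, 0 ≤ w x) → ∑ x, w x ^ 2 ≤ 1 → 0 ≤ ρ → ρ ≤ 1 → 0 < R →
  (∀ e ∈ E, nm π.k π.κ (N.pos π (N.lo e))
    (φ (N.lo e) - dil (N.pr e) (φ (N.up e)) - lat R (zf e)) ≤ ρ) →
  (∀ r ∈ π.PP, ∀ e ∈ E, N.pr e ≠ r → ∀ d j,
    T r e d j = (N.pr e : ZMod (md r j.val)) ^ j.val * d j - (zf e j.val : ℤ)) →
  (∀ x, Y ≤ N.pos π x) → 2 * (i + 2) * π.κ1 ≤ 1 →
  (2 * (i + 2) * (8 * i + 17) ^ π.k + 1) * (2 * π.P) ^ (i + 2) ≤ π.κ * Y * R →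
  ∑ r ∈ π.PP, N.conf π.ν {e ∈ E | N.pr e ≠ r} (T r) (src π N E w zf r) i ≤ 8 * (4 * i + 9) * π.M

/-- the sources -/
def SrcSt : Prop := ∀ (π : Par) (N : Net) (E : Finset N.Ed) (w : N.W → ℝ) (zf : N.Ed → ℕ → ℤ)
  (lam ε : ℝ), π.Ok → N.Is π E → (∀ x, 0 ≤ w x) → ∑ x, w x ^ 2 = 1 →
  (∀ x, N.opB π.ν E w x = lam * w x) → 1 - ε ≤ lam → ε ≤ 1 / 2 →
  (∀ r x d, 0 ≤ src π N E w zf r x d) ∧ (∀ r x, ∑ d, src π N E w zf r x d ≤ w x) ∧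
  (∀ r x d, N.isU x = true → src π N E w zf r x d = 0) ∧
  (∀ r, ∑ x, w x * ∑ d, src π N E w zf r x d ≤ 1 / 2) ∧
  (1 / 2 - 5 * ε) * #π.PP ≤ ∑ r ∈ π.PP, ∑ x, w x * ∑ d, src π N E w zf r x d ∧
  ∀ r, lam - 1 / #π.PP ≤ N.Qf π.ν {e ∈ E | N.pr e ≠ r} w

/-- sources on both sides -/
def BoostSt : Prop := ∀ (π : Par) (N : Net) (D : Type) [Fintype D] (E E' : Finset N.Ed)
  (T : N.Ed → D ≃ D) (w : N.W → ℝ) (σ0 : N.W → D → ℝ) (lam ζ : ℝ), π.Ok → N.Is π E → E' ⊆ E →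
  (∀ x, 0 ≤ w x) → ∑ x, w x ^ 2 = 1 → (∀ x, N.opB π.ν E w x = lam * w x) → 1 / 2 ≤ lam →
  lam - ζ ≤ N.Qf π.ν E' w → (∀ x d, 0 ≤ σ0 x d) → (∀ x, ∑ d, σ0 x d ≤ w x) →
  (∀ x d, N.isU x = true → σ0 x d = 0) →
  ∃ σ : N.W → D → ℝ, (∀ x d, 0 ≤ σ x d) ∧ (∀ x, ∑ d, σ x d ≤ w x) ∧
    2 * ∑ x, w x * ∑ d, σ0 x d - 2 * ζ ≤ ∑ x, w x * ∑ d, σ x d ∧
    ∀ i, N.conf π.ν E' T σ i ≤
      N.conf π.ν E' T σ0 i + 4 * N.conf π.ν E' T σ0 (i + 1) + 4 * N.conf π.ν E' T σ0 (i + 2)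

/-- one more digit -/
def StepSt : Prop := ∀ (π : Par) (N : Net) (E : Finset N.Ed) (φ : N.W → Ph) (R ρ Y ε : ℝ) (m : ℕ),
  π.Ok → N.Is π E → 0 ≤ ρ → ρ ≤ 1 → 0 < R → N.Lv π R ρ φ E → N.Ray π.ν E (1 - ε) → 0 ≤ ε →
  ε ≤ 1 / 100 → 200 ≤ #π.PP → 1 ≤ π.M → 4 ≤ m → (∀ x, Y ≤ N.pos π x) →
  2 * (2 * m + 5) * π.κ1 ≤ 1 →
  (2 * (2 * m + 5) * (16 * m + 41) ^ π.k + 1) * (2 * π.P) ^ (2 * m + 5) ≤ π.κ * Y * R →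
  ∃ r ∈ π.PP, ∃ E' ⊆ E, ∃ z : N.W → ℕ → ℤ, N.Lv π (R * r) ρ (fun x => φ x + lat R (z x)) E' ∧
    N.Ray π.ν E' (1 - ε - 360 * ε / m ^ 2 - 10 ^ 6 * π.M * m ^ 4 * 4 ^ m / #π.PP)

/-- many digits -/
def IterSt : Prop := ∀ (π : Par) (N : Net) (E : Finset N.Ed) (φ : N.W → Ph) (ρ Y ε : ℝ)
  (m0 m s : ℕ), π.Ok → N.Is π E → 0 ≤ ρ → ρ ≤ 1 → N.Lv π 1 ρ φ E → N.Ray π.ν E (1 - ε) →
  0 < ε → ε ≤ 1 / 200 → 200 ≤ #π.PP → 1 ≤ π.M → 23040 ≤ m0 → m0 ≤ m → (∀ x, Y ≤ N.pos π x) →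
  2 * (2 * m + 5) * π.κ1 ≤ 1 → 2 * (2 * m + 5) * (16 * m + 41) ^ π.k + 1 ≤ π.P →
  π.P ^ (4 * m0 + 11) ≤ π.κ * Y → 2880 * s ≤ m ^ 2 →
  s * (10 ^ 6 * π.M * m ^ 4 * 4 ^ m) ≤ ε / 2 * #π.PP →
  ∃ (R : ℕ) (E' : Finset N.Ed) (φ' : N.W → Ph), π.P ^ s ≤ R ∧ E' ⊆ E ∧
    (∀ x, EqZ π.k (φ' x) (φ x)) ∧ N.Lv π R ρ φ' E' ∧ N.Ray π.ν E' (1 - 2 * ε)

/-- a graph with a large eigenvalue has a vertex with many loops -/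
def LoopSt : Prop := ∀ (π : Par) (N : Net) (E : Finset N.Ed) (φ : N.W → Ph) (R ρ nW : ℝ) (n : ℕ),
  π.Ok → N.Is π E → 0 ≤ ρ → ρ ≤ 1 → 0 < R → N.Lv π R ρ φ E → N.Ray π.ν E (1 / 2) →
  Fintype.card N.W ≤ nW → 1 ≤ n → 2 * (2 * n + 2) * π.κ1 ≤ 1 →
  ∃ e ∈ E, ∃ x, (x = N.up e ∨ x = N.lo e) ∧ ∃ (b : ℕ) (A : Finset ℕ),
    (#π.PP : ℝ) ^ n / (4 ^ n * nW * n.factorial ^ 2) ≤ #A ∧ 0 < b ∧ b ≤ (2 * π.P) ^ n ∧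
    ∀ a ∈ A, 0 < a ∧ |Real.log a - Real.log b| ≤ (4 * n + 2) * π.κ1 ∧ ∀ j ∈ Icc 1 π.k,
      Nr (((a : ℝ) ^ j - b ^ j) * (φ x j / R ^ j))
        ((2 / π.κ) ^ π.k * (2 * n * (16 * n + 17) ^ π.k) * (2 * π.P) ^ (n * π.k) / R ^ j)

/-- divided differences -/
def IntSt : Prop := ∀ (j Wd : ℕ) (g : Polynomial ℤ) (A : Finset ℤ) (θ ε : ℝ), g.Monic →
  g.natDegree = j → #A = j + 1 → 1 ≤ Wd → (∀ a ∈ A, ∀ b ∈ A, |a - b| ≤ Wd) →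
  (∀ a ∈ A, Nr (θ * (g.eval a : ℤ)) ε) →
  ∃ V : ℕ, 1 ≤ V ∧ V ≤ Wd ^ (j ^ 2) ∧ Nr (V * θ) ((2 * Wd ^ j) ^ j * ε)

/-- decomposition of the phases into a rational and a small real part -/
structure Dec (π : Par) (Q Tm ρ : ℝ) (N : Net) (E : Finset N.Ed) (γ τ : N.W → Ph) : Prop where
  den : ∀ e ∈ E, ∀ x, x = N.up e ∨ x = N.lo e →
    ∃ q : ℕ, 1 ≤ q ∧ q ≤ Q ∧ EqZ π.k (fun j => q * γ x j) 0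
  sz : ∀ e ∈ E, ∀ x, x = N.up e ∨ x = N.lo e → nm π.k π.κ (N.pos π x) (τ x) ≤ Tm
  rat : ∀ e ∈ E, EqZ π.k (γ (N.lo e)) (dil (N.pr e) (γ (N.up e)))
  re : ∀ e ∈ E, nm π.k π.κ (N.pos π (N.lo e)) (τ (N.lo e) - dil (N.pr e) (τ (N.up e))) ≤ ρ

/-- `α` is near a rational point of level `R` -/
def Cls (k : ℕ) (κ y : ℝ) (R : ℕ) (Q T : ℝ) (α : Ph) : Prop := ∃ (q : ℕ) (z : ℕ → ℤ), 1 ≤ q ∧
  q ≤ Q ∧ nm k κ y (α - fun j => (R : ℝ) ^ j * z j / q) ≤ T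

/-- a vertex with many loops is near a rational point -/
def SeedSt : Prop := ∀ (π : Par) (N : Net) (E : Finset N.Ed) (φ : N.W → Ph)
  (ρ nW Y' Na e0 : ℝ) (R n Wd : ℕ), π.Ok → N.Is π E → 0 ≤ ρ → ρ ≤ 1 → 0 < R → N.Lv π R ρ φ E →
  N.Ray π.ν E (1 / 2) → Fintype.card N.W ≤ nW → 1 ≤ n → 2 * (2 * n + 2) * π.κ1 ≤ 1 →
  (∀ x, N.pos π x ≤ Y') → Na ≤ (#π.PP : ℝ) ^ n / (4 ^ n * nW * n.factorial ^ 2) → 2 * π.k < Na →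
  2 * π.k * ((2 * π.P) ^ n * (16 * n + 8) * π.κ1) / Na + 1 ≤ Wd →
  (2 / π.κ) ^ π.k * (2 * n * (16 * n + 17) ^ π.k) * (2 * π.P) ^ (n * π.k) ≤ e0 →
  ∃ e ∈ E, ∃ x, (x = N.up e ∨ x = N.lo e) ∧ Cls π.k π.κ (N.pos π x) R ((Wd : ℝ) ^ (π.k ^ 3))
    (2 ^ π.k * π.k * Y' ^ π.k * (2 * Wd ^ π.k) ^ π.k * e0) (φ x)

/-- cutting along a growing family of sets -/
def CutSt : Prop := ∀ (π : Par) (N : Net) (E : Finset N.Ed) (G : ℕ → N.W → Prop) (ε : ℝ) (tm : ℕ),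
  π.Ok → N.Is π E → N.Ray π.ν E (1 - ε) → 1 ≤ tm → ε + 1 / tm < 1 / 2 →
  (∀ t x, G t x → G (t + 1) x) → (∀ t, ∀ e ∈ E, G t (N.up e) → G (t + 1) (N.lo e)) →
  (∀ t, ∀ e ∈ E, G t (N.lo e) → G (t + 1) (N.up e)) →
  (∀ E' ⊆ E, N.Ray π.ν E' (1 / 2) → ∃ e ∈ E', G 0 (N.up e) ∨ G 0 (N.lo e)) →
  ∃ t < tm, N.Ray π.ν {e ∈ E | G t (N.up e) ∧ G t (N.lo e)} (1 - 2 * ε - 2 / tm)

def LevSt : Prop := ∀ (π : Par) (N : Net) (E : Finset N.Ed) (φ : N.W → Ph)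
  (ρ nW ε Y Y' Na e0 Q Tm : ℝ) (R n tm Wd : ℕ),
  π.Ok → N.Is π E → 0 ≤ ρ → ρ ≤ 1 → 0 < R → N.Lv π R ρ φ E → N.Ray π.ν E (1 - ε) → 1 ≤ tm →
  ε + 1 / tm < 1 / 2 → Fintype.card N.W ≤ nW → 1 ≤ n → 2 * (2 * n + 2) * π.κ1 ≤ 1 → 1 ≤ Y →
  (∀ x, Y ≤ N.pos π x ∧ N.pos π x ≤ Y') →
  Na ≤ (#π.PP : ℝ) ^ n / (4 ^ n * nW * n.factorial ^ 2) → 2 * π.k < Na →
  2 * π.k * ((2 * π.P) ^ n * (16 * n + 8) * π.κ1) / Na + 1 ≤ Wd →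
  (2 / π.κ) ^ π.k * (2 * n * (16 * n + 17) ^ π.k) * (2 * π.P) ^ (n * π.k) ≤ e0 →
  (Wd : ℝ) ^ (π.k ^ 3) * (2 * π.P) ^ (π.k * tm) ≤ Q →
  (2 * 9 ^ π.k) ^ tm * (2 ^ π.k * π.k * Y' ^ π.k * (2 * Wd ^ π.k) ^ π.k * e0) ≤ Tm →
  (2 * 9 ^ π.k * Tm + 1) * Q ^ 2 < π.κ * Y * R →
  ∃ (E' : Finset N.Ed) (γ τ : N.W → Ph), E' ⊆ E ∧ (∀ x, φ x = γ x + τ x) ∧
    Dec π Q Tm ρ N E' γ τ ∧ N.Ray π.ν E' (1 - 2 * ε - 2 / tm)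

/-- exact denominators and orbits -/
structure DenSt : Prop where
  refl : ∀ k α, EqZ k α α
  symm : ∀ k α β, EqZ k α β → EqZ k β α
  trans : ∀ k α β γ, EqZ k α β → EqZ k β γ → EqZ k α γ
  add : ∀ k α β α' β', EqZ k α β → EqZ k α' β' → EqZ k (α + α') (β + β')
  dil : ∀ k α β (a : ℕ), EqZ k α β → EqZ k (dil a α) (dil a β)
  dil_dil : ∀ (a b : ℝ) α, T.dil a (T.dil b α) = T.dil (a * b) α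
  dil_one : ∀ α, T.dil 1 α = α
  dil_add : ∀ (a : ℝ) α β, T.dil a (α + β) = T.dil a α + T.dil a β
  dil_sub : ∀ (a : ℝ) α β, T.dil a (α - β) = T.dil a α - T.dil a β
  mod : ∀ k (q a b : ℕ) γ, EqZ k (fun j => q * γ j) 0 → a ≡ b [MOD q] →
    EqZ k (T.dil a γ) (T.dil b γ)
  ex : ∀ k (q : ℕ) γ, 1 ≤ q → EqZ k (fun j => q * γ j) 0 → ∃ q' : ℕ, q' ≤ q ∧ Den k q' γ
  uniq : ∀ k q q' γ, Den k q γ → Den k q' γ → q = q'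
  congr : ∀ k q γ γ', EqZ k γ γ' → Den k q γ → Den k q γ'
  cop : ∀ k q γ (a : ℕ), Nat.Coprime a q → Den k q γ → Den k q (T.dil a γ)
  un : ∀ (q p : ℕ) [NeZero q] (a : (ZMod q)ˣ), Nat.Coprime p q →
    ((a * un q p : (ZMod q)ˣ) : ZMod q).val ≡ (a : ZMod q).val * p [MOD q]
  stab : ∀ k (q : ℕ) [NeZero q] γ0, EqZ k (fun j => q * γ0 j) 0 → ∃ h : ℕ, 0 < h ∧
    ∀ γ (a0 : ℕ), Nat.Coprime a0 q → EqZ k γ (T.dil a0 γ0) →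
      #{a : (ZMod q)ˣ | EqZ k γ (T.dil (a : ZMod q).val γ0)} = h
  primes : ∀ (q : ℕ) (P Q ω : ℝ) (S : Finset ℕ), 1 ≤ q → q ≤ Q → 1 < P →
    Real.log Q ≤ ω * Real.log P → (∀ p ∈ S, p.Prime ∧ P < p ∧ p ∣ q) → (#S : ℝ) ≤ ω

/-- choice of one label -/
def LabSt : Prop := ∀ (V Ed Λ : Type) (A : Finset V) (E : Finset Ed) (s t : Ed → V) (u : V → ℝ)
  (lab : V → Λ) (c lam : ℝ), (∀ e ∈ E, s e ∈ A ∧ t e ∈ A ∧ lab (s e) = lab (t e)) →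
  0 < ∑ v ∈ A, u v ^ 2 → lam * ∑ v ∈ A, u v ^ 2 ≤ c * ∑ e ∈ E, u (s e) * u (t e) →
  ∃ l, 0 < ∑ v ∈ A with lab v = l, u v ^ 2 ∧
    lam * ∑ v ∈ A with lab v = l, u v ^ 2 ≤ c * ∑ e ∈ E with lab (s e) = l, u (s e) * u (t e)

/-- preparation: nonnegative weights on the ends, primes prime to the denominators -/
def Blk0St : Prop := ∀ (π : Par) (N : Net) (E : Finset N.Ed) (γ τ : N.W → Ph) (Q Tm ρ lam ω : ℝ),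
  π.Ok → N.Is π E → Dec π Q Tm ρ N E γ τ → N.Ray π.ν E lam → 0 < lam →
  Real.log Q ≤ ω * Real.log π.P → 0 < ω →
  ∃ (u : N.W → ℝ) (den : N.W → ℕ) (E0 : Finset N.Ed), E0 ⊆ E ∧ (∀ x, 0 ≤ u x) ∧
    (∀ x, u x ≠ 0 → ∃ e ∈ E, x = N.up e ∨ x = N.lo e) ∧ 0 < ∑ x, u x ^ 2 ∧
    (∀ e ∈ E, ∀ x, x = N.up e ∨ x = N.lo e → den x ≤ Q ∧ Den π.k (den x) (γ x)) ∧
    (∀ e ∈ E0, Nat.Coprime (N.pr e) (den (N.up e))) ∧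
    (lam - 2 * √(ω / #π.PP)) * ∑ x, u x ^ 2 ≤ N.Qf π.ν E0 u

/-- one label on the fine grid -/
def BlkASt : Prop := ∀ (π : Par) (N : Net) (E : Finset N.Ed) (γ τ : N.W → Ph)
  (Q Tm ρ lam ω : ℝ) (L : ℕ), π.Ok → N.Is π E → 0 < ρ → Dec π Q Tm ρ N E γ τ →
  N.Ray π.ν E lam → 1 ≤ L → 2 * π.κ1 ≤ 1 → Real.log Q ≤ ω * Real.log π.P → 0 < ω →
  0 < lam - 2 * √(ω / #π.PP) - π.k / L →
  ((1 + 4 * π.κ0 / π.κ) ^ π.k - 1) * (9 ^ π.k * Tm) ≤ ρ →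
  ∃ (q : ℕ) (γ0 t : Ph) (u : N.W → ℝ) (V : Finset (N.W × ℕ)) (E1 : Finset N.Ed), E1 ⊆ E ∧ q ≤ Q ∧
    Den π.k q γ0 ∧ wn π.k π.κ t ≤ 9 ^ π.k * Tm + π.k * L * (10 ^ π.k * ρ) ∧ (∀ x, 0 ≤ u x) ∧
    (∀ v ∈ V, v.2 / π.Nf = N.cell v.1 ∧ (∃ e ∈ E, v.1 = N.up e ∨ v.1 = N.lo e) ∧
      (∃ a : ℕ, Nat.Coprime a q ∧ EqZ π.k (γ v.1) (dil a γ0)) ∧
      wn π.k π.κ (tc π.k (π.yy v.2) (τ v.1) - t) ≤ π.k * L * (10 ^ π.k * ρ)) ∧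
    (∀ e ∈ E1, (N.up e, N.fj e) ∈ V ∧ (N.lo e, N.fj e - π.lg (N.pr e)) ∈ V ∧
      Nat.Coprime (N.pr e) q) ∧ 0 < ∑ v ∈ V, u v.1 ^ 2 ∧
    (lam - 2 * √(ω / #π.PP) - π.k / L) * ∑ v ∈ V, u v.1 ^ 2 ≤
      2 / #π.PP * ∑ e ∈ E1, u (N.up e) * u (N.lo e)

/-- a nearly invariant pair of weights on one component -/
structure Blk (π : Par) (N : Net) (E : Finset N.Ed) (γ τ : N.W → Ph) (q : ℕ) [NeZero q]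
    (γ0 t : Ph) (vU vL : ℕ → (ZMod q)ˣ → ℝ) (Gd : Finset (ℕ × (ZMod q)ˣ × ℕ)) (Jm : ℕ)
    (lam ρ2 : ℝ) : Prop where
  den : Den π.k q γ0
  nU : ∀ j a, 0 ≤ vU j a
  nL : ∀ j a, 0 ≤ vL j a
  pos : 0 < ∑ j ∈ range Jm, ∑ a, (vU j a ^ 2 + vL j a ^ 2)
  ray : lam * ∑ j ∈ range Jm, ∑ a, (vU j a ^ 2 + vL j a ^ 2) ≤
    2 / #π.PP * ∑ g ∈ Gd, vU g.1 g.2.1 * vL (g.1 - π.lg g.2.2) (g.2.1 * un q g.2.2)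
  gd : ∀ g ∈ Gd, Nat.Coprime g.2.2 q ∧ ∃ e ∈ E, N.fj e = g.1 ∧ N.pr e = g.2.2 ∧
    EqZ π.k (γ (N.up e)) (dil (g.2.1 : ZMod q).val γ0) ∧
    wn π.k π.κ (tc π.k (π.yy g.1) (τ (N.up e)) - t) ≤ ρ2
  sU : ∀ j a, vU j a ≠ 0 → ∃ e ∈ E, j / π.Nf = N.cell (N.up e)
  sL : ∀ j a, vL j a ≠ 0 → ∃ e ∈ E, j / π.Nf = N.cell (N.lo e) ∧
    EqZ π.k (γ (N.lo e)) (dil (a : ZMod q).val γ0) ∧
    wn π.k π.κ (tc π.k (π.yy j) (τ (N.lo e)) - t) ≤ ρ2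

/-- one component -/
def BlockSt : Prop := ∀ (π : Par) (N : Net) (E : Finset N.Ed) (γ τ : N.W → Ph)
  (Q Tm ρ lam ω : ℝ) (L Jm : ℕ), π.Ok → N.Is π E → 0 < ρ → Dec π Q Tm ρ N E γ τ →
  N.Ray π.ν E lam → 1 ≤ L → 2 * π.κ1 ≤ 1 → Real.log Q ≤ ω * Real.log π.P → 0 < ω →
  0 < lam - 2 * √(ω / #π.PP) - π.k / L →
  ((1 + 4 * π.κ0 / π.κ) ^ π.k - 1) * (9 ^ π.k * Tm) ≤ ρ → (∀ x, (N.cell x + 1) * π.Nf ≤ Jm) →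
  ∃ (q : ℕ) (_ : NeZero q) (γ0 t : Ph) (vU vL : ℕ → (ZMod q)ˣ → ℝ)
    (Gd : Finset (ℕ × (ZMod q)ˣ × ℕ)), q ≤ Q ∧
    wn π.k π.κ t ≤ 9 ^ π.k * Tm + π.k * L * (10 ^ π.k * ρ) ∧
    Blk π N E γ τ q γ0 t vU vL Gd Jm (lam - 2 * √(ω / #π.PP) - π.k / L) (π.k * L * (10 ^ π.k * ρ))

end Pool.Agent.Lib.MP_028aa5_nt.T
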