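import Pool.Agent.Lib.MP_028aa5_nt.T.St2

/-! Statements, part 3: the finite Fourier end game. -/

namespace Pool.Agent.Lib.MP_028aa5_nt.T

open Finset
open scoped ComplexConjugate Classical

/-- a nearly invariant pair of weights forces large Fourier coefficients -/
def FourSt : Prop := ∀ (Γ Ξ : Type) [Fintype Γ] [Fintype Ξ] (c : Ξ → Γ → ℂ) (dv : Ξ → Ξ → Ξ)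
  (S : Finset ℕ) (n : ℝ) (s : ℕ → Γ ≃ Γ) (m : Ξ → ℂ) (vU vL : Γ → ℝ) (Gd : Finset (Γ × ℕ))
  (ΛU ΛL : Γ → ℂ) (C1 ε1 ε2 η : ℝ), (∀ ξ g, ‖c ξ g‖ = 1) →
  (∀ ξ ξ', ξ ≠ ξ' → ∑ g, c ξ g * conj (c ξ' g) = 0) →
  (∀ g g', ∑ ξ, c ξ g * conj (c ξ g') = if g = g' then (Fintype.card Γ : ℂ) else 0) →
  (∀ ξ ξ' g, c (dv ξ ξ') g = c ξ g * conj (c ξ' g)) → 0 < n → #S ≤ n →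
  (∀ ξ g, (n : ℂ)⁻¹ * ∑ p ∈ S, c ξ (s p g) = m ξ * c ξ g) →
  (∀ g, 0 ≤ vU g) → (∀ g, 0 ≤ vL g) → (∀ x ∈ Gd, x.2 ∈ S) → 1 ≤ C1 →
  (∀ g, ‖ΛU g‖ ≤ C1) → (∀ g, ‖ΛL g‖ ≤ C1) → (∀ x ∈ Gd, ‖ΛU x.1 + ΛL (s x.2 x.1)‖ ≤ ε2) →
  0 ≤ η → (∀ g, vL g ≠ 0 → η ≤ ‖ΛL g‖) → 0 < ∑ g, (vU g ^ 2 + vL g ^ 2) →
  (1 - ε1) * ∑ g, (vU g ^ 2 + vL g ^ 2) ≤ 2 / n * ∑ x ∈ Gd, vU x.1 * vL (s x.2 x.1) →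
  0 ≤ ε1 → ε1 ≤ 1 / 8 →
  η ^ 2 - 15 * C1 ^ 2 * √(ε1 + ε2 ^ 2) ≤
    C1 * ∑ ξ ∈ image₂ dv {ξ | 1 / 2 ≤ ‖m ξ‖} {ξ | 1 / 2 ≤ ‖m ξ‖}, ‖hat c ΛL ξ‖

/-- the characters of the finite group -/
structure ChSt : Prop where
  norm : ∀ (N0 q : ℕ) [NeZero q] ξ g, ‖ch N0 q ξ g‖ = 1
  orth : ∀ (N0 q : ℕ) [NeZero N0] [NeZero q] ξ ξ', ξ ≠ ξ' →
    ∑ g, ch N0 q ξ g * conj (ch N0 q ξ' g) = 0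
  dual : ∀ (N0 q : ℕ) [NeZero N0] [NeZero q] g g', ∑ ξ, ch N0 q ξ g * conj (ch N0 q ξ g') =
    if g = g' then (Fintype.card (ZMod N0 × (ZMod q)ˣ) : ℂ) else 0
  dv : ∀ (N0 q : ℕ) [NeZero N0] [NeZero q] ξ ξ' g,
    ch N0 q (dv N0 q ξ ξ') g = ch N0 q ξ g * conj (ch N0 q ξ' g)
  mul : ∀ (π : Par) (N0 q : ℕ) [NeZero N0] [NeZero q] ξ g,
    ((#π.PP : ℝ) : ℂ)⁻¹ * ∑ p ∈ π.PP with Nat.Coprime p q, ch N0 q ξ (sh π N0 q p g) =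
      mul π N0 q ξ * ch N0 q ξ g
  /-- `e (a x / N0)` depends only on the classes of `a` and `x` -/
  cast : ∀ (N0 : ℕ) [NeZero N0] (a x : ℤ),
    e ((((a : ZMod N0).val : ℝ) * ((x : ZMod N0).val : ℝ)) / N0) = e ((a * x : ℝ) / N0)
  sum : ∀ (N0 : ℕ) [NeZero N0] (x : ℤ),
    ∑ a : ZMod N0, e ((a.val * x : ℝ) / N0) = if (N0 : ℤ) ∣ x then (N0 : ℂ) else 0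

/-- few characters have a large eigenvalue -/
def SparseSt : Prop := ∀ (π : Par) (N0 q n : ℕ) [NeZero N0] [NeZero q], π.Ok → 8 ≤ N0 * π.κ0 →
  2 * n * π.κ0 * (2 * π.P) ^ n < 1 →
  (#{ξ | 1 / 2 ≤ ‖mul π N0 q ξ‖} : ℝ) ≤ 4 ^ n * N0 * q * (2 * n + 1) * n.factorial / #π.PP ^ n

structure LamSt : Prop where
  near : ∀ (π : Par) (N0 q : ℕ) [NeZero N0] (S : Finset ℕ) (f f' : ℕ → ℂ) (γ t : Ph) (A : ℝ) (j : ℕ)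
    (a : (ZMod q)ˣ), π.Ok → 8 ≤ N0 * π.κ0 → 0 < A → S ⊆ Ioc ⌊A⌋₊ ⌊A * Real.exp 6⌋₊ →
    A ≤ π.yy j → π.yy j ≤ A * Real.exp 6 → 1 ≤ π.κ * π.yy j → (∀ n, ‖f n‖ ≤ 1) →
    (∀ n ∈ Ioc ⌊π.yy j⌋₊ ⌊π.yy j * (1 + π.κ)⌋₊, n ∈ S ∧ f' n = f n) →
    ‖Lam π N0 q S f' γ t (j, a) - cs π.k π.κ f γ t (π.yy j) (a : ZMod q).val‖ ≤
      2 * π.κ + 56 * π.k * (π.κ0 / π.κ) * wn π.k π.κ t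
  bd : ∀ (π : Par) (N0 q : ℕ) [NeZero N0] (S : Finset ℕ) (f' : ℕ → ℂ) (γ t : Ph) (A : ℝ) g,
    π.Ok → 8 ≤ N0 * π.κ0 → 0 < A → S ⊆ Ioc ⌊A⌋₊ ⌊A * Real.exp 6⌋₊ → 1 ≤ π.κ * A →
    (∀ n ∈ S, ‖f' n‖ ≤ 1) → ‖Lam π N0 q S f' γ t g‖ ≤ 3

/-- the Fourier coefficients of the model -/
def HatSt : Prop := ∀ (N0 q : ℕ) [NeZero N0] [NeZero q] (T1 : ℝ)
  (F : Finset (ZMod N0 × DirichletCharacter ℂ q)), 0 < T1 →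
  ∃ F' : Finset (ℤ × DirichletCharacter ℂ q), #F' ≤ #F ∧ (∀ ξ ∈ F', |(ξ.1 : ℝ)| ≤ T1) ∧
    ∀ (π : Par) (S : Finset ℕ) (f' : ℕ → ℂ) (γ t : Ph) (A : ℝ), π.Ok → 8 ≤ N0 * π.κ0 → 1 ≤ A →
    S ⊆ Ioc ⌊A⌋₊ ⌊A * Real.exp 6⌋₊ → (∀ n ∈ S, ‖f' n‖ ≤ 1) →
    ∑ ξ ∈ F, ‖hat (ch N0 q) (Lam π N0 q S f' γ t) ξ‖ ≤
      ∑ ξ ∈ F', ‖tw f' (gch π.k q γ ξ.2) (ξ.1 / (N0 * π.κ0)) S‖ +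
        #F * (7 * T1 / N0 + 4 * (1 + 7 * wn π.k π.κ t) / (π.κ * T1))

/-- the values of `cs` on one component -/
structure TrSt : Prop where
  good : ∀ (π : Par) (f : ℕ → ℂ) (φ γ τ γ0 t : Ph) (q : ℕ) [NeZero q] (a : (ZMod q)ˣ) (j p : ℕ)
    (K ε2 ρ2 : ℝ), π.Ok → 4 ≤ π.G → (∀ n, ‖f n‖ ≤ 1) → EqZ π.k (fun i => q * γ0 i) 0 →
    Nat.Coprime p q → 0 < p → π.lg p ≤ j → 5 ≤ K → K ≤ π.κ * π.ps ((j - π.lg p) / π.Nf) →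
    EqZ π.k φ (γ + τ) → EqZ π.k γ (dil (a : ZMod q).val γ0) →
    wn π.k π.κ (tc π.k (π.yy j) τ - t) ≤ ρ2 →
    ‖cc π.k π.κ f (π.ps (j / π.Nf)) φ + cc π.k π.κ f (π.ps (j / π.Nf) / p) (dil p φ)‖ ≤ ε2 →
    ‖cs π.k π.κ f γ0 t (π.yy j) (a : ZMod q).val +
      cs π.k π.κ f γ0 t (π.yy (j - π.lg p)) ((a * un q p : (ZMod q)ˣ) : ZMod q).val‖ ≤
      ε2 + (60 / π.G + 180 / K + 28 * ρ2 + 100 * π.k * 2 ^ π.k * (π.κ0 / π.κ) * wn π.k π.κ t)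
  big : ∀ (π : Par) (f : ℕ → ℂ) (φ γ τ γ0 t : Ph) (a j : ℕ) (K η ρ2 : ℝ), π.Ok → 4 ≤ π.G →
    (∀ n, ‖f n‖ ≤ 1) → 1 ≤ K → K ≤ π.κ * π.ps (j / π.Nf) →
    EqZ π.k φ (γ + τ) → EqZ π.k γ (dil a γ0) → wn π.k π.κ (tc π.k (π.yy j) τ - t) ≤ ρ2 →
    η ≤ ‖cc π.k π.κ f (π.ps (j / π.Nf)) φ‖ →
    η - (20 / π.G + 20 / K + 14 * ρ2) ≤ ‖cs π.k π.κ f γ0 t (π.yy j) a‖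

/-- the end game -/
def EndSt : Prop := ∀ (π : Par) (f f' : ℕ → ℂ) (η ε1 ε2 ρ2 K er : ℝ) (cL cU Nc Jm : ℕ) (N : Net)
  (E : Finset N.Ed) (φ γ τ : N.W → Ph) (q N0 : ℕ) [NeZero q] [NeZero N0] (γ0 t : Ph)
  (vU vL : ℕ → (ZMod q)ˣ → ℝ) (Gd : Finset (ℕ × (ZMod q)ˣ × ℕ)),
  π.Ok → 4 ≤ π.G → N.Is π E → Real0 π f η ε2 cL cU Nc N E φ → cL ≤ cU → (∀ n, ‖f n‖ ≤ 1) →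
  (∀ x, EqZ π.k (φ x) (γ x + τ x)) → Blk π N E γ τ q γ0 t vU vL Gd Jm (1 - ε1) ρ2 →
  (∀ x, (N.cell x + 1) * π.Nf ≤ Jm) → 8 ≤ N0 * π.κ0 → Nc * π.κ1 ≤ Real.log 4 → 8 ≤ K →
  K ≤ π.κ * π.ps cL → (∀ n ∈ Ioc ⌊π.ps cL / 8⌋₊ ⌊32 * π.ps cL⌋₊, ‖f' n‖ ≤ 1) →
  (∀ n ∈ Ioc ⌊π.ps cL⌋₊ ⌊8 * π.ps cL⌋₊, f' n = f n) → 0 ≤ ε1 → ε1 ≤ 1 / 8 → 0 ≤ ε2 → 0 ≤ ρ2 →
  60 / π.G + 180 / K + 28 * ρ2 + 2 * π.κ + 200 * π.k * 2 ^ π.k * (π.κ0 / π.κ) * wn π.k π.κ t ≤ er →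
  er ≤ η →
  (η - er) ^ 2 - 135 * √(ε1 + (ε2 + er) ^ 2) ≤ 3 * ∑ ξ ∈ spec π N0 q,
    ‖hat (ch N0 q) (Lam π N0 q (Ioc ⌊π.ps cL / 8⌋₊ ⌊32 * π.ps cL⌋₊) f' γ0 t) ξ‖

/-- the bilinear truncation -/
structure FtSt : Prop where
  eq : ∀ (i0 i1 B : ℕ) (Mi : ℕ → ℝ) (Y : ℝ), 0 < Y →
    (∀ i ∈ Ico i0 i1, Y / 2 ^ (i + 3) ≤ Mi i ∧ Mi i ≤ Y / 2 ^ (i + 2)) →
    ∀ n ∈ Ioc ⌊Y⌋₊ ⌊8 * Y⌋₊, #{p ∈ SS i0 i1 | p ∣ n} ≤ B → ft i0 i1 B Mi n = fw (SS i0 i1) B n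
  bd : ∀ (i0 i1 B : ℕ) (Mi : ℕ → ℝ) (n : ℕ), #{p ∈ SS i0 i1 | p ∣ n} ≤ B → ‖ft i0 i1 B Mi n‖ ≤ 1
  bil : ∀ (i0 i1 B : ℕ) (Mi : ℕ → ℝ) (Y t : ℝ) (g c : ℕ → ℂ), 0 < Y →
    (∀ i ∈ Ico i0 i1, Y / 2 ^ (i + 3) ≤ Mi i ∧ Mi i ≤ Y / 2 ^ (i + 2)) →
    (∀ p ∈ SS i0 i1, ∀ m, g (p * m) = c p * g m) →
    tw (ft i0 i1 B Mi) g t (Ioc ⌊Y / 8⌋₊ ⌊32 * Y⌋₊) =
      -(B : ℂ)⁻¹ * ∑ i ∈ Ico i0 i1, tw 1 c t (blk (2 ^ i)) * FF g t (Mi i)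
  fw_bd : ∀ S B n, ‖fw S B n‖ ≤ 1
  fw_mul : ∀ (S : Finset ℕ) B (p m : ℕ), (∀ r ∈ S, r.Prime) → p.Prime → p ∉ S → 0 < m →
    fw S B (p * m) = -fw S B m
  cnt : ∀ (S : Finset ℕ) (B n : ℕ) (z : ℝ), 1 ≤ z → (∀ p ∈ S, p.Prime ∧ z ≤ p) → 0 < n →
    (n : ℝ) < z ^ B → #{p ∈ S | p ∣ n} ≤ B
  lio_bd : ∀ n, ‖lio n‖ ≤ 1
  lio_mul : ∀ m n, lio (m * n) = lio m * lio n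
  lio_prime : ∀ p : ℕ, p.Prime → lio p = -1

end Pool.Agent.Lib.MP_028aa5_nt.T
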