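import Pool.Agent.Lib.MP_028aa5_nt.T.St3

/-! Statements, part 4: twisted sums of the Liouville function at a sparse set of frequencies. -/

namespace Pool.Agent.Lib.MP_028aa5_nt.T

open Finset
open scoped ComplexConjugate Classical

structure G0St : Prop where
  bd : ∀ (k q : ℕ) [NeZero q] γ χ n, ‖gch k q γ χ n‖ ≤ 1
  gf : ∀ (k q : ℕ) [NeZero q] (γ : Ph), EqZ k (fun j => q * γ j) 0 → GF q (gch k q γ)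
  /-- `gch` is a projection -/
  proj : ∀ (k q : ℕ) [NeZero q] (γ : Ph) χ (b : ℕ), EqZ k (fun j => q * γ j) 0 → Nat.Coprime b q →
    ((∑ m ∈ range q, ‖gch k q γ χ m‖ ^ 2 : ℝ) : ℂ) =
      ∑ m ∈ range q, gch k q γ χ m * (χ b * e (ph k γ (b * m)))

/-- large denominators -/
def GqSt : Prop := ∀ (k : ℕ) (β : ℝ), 1 ≤ k → 0 < β → ∃ Q0 : ℕ, ∀ (q : ℕ) [NeZero q] (γ : Ph) χ,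
  Q0 < q → Den k q γ → ∑ m ∈ range q, ‖gch k q γ χ m‖ ^ 2 ≤ β * q

/-- small frequencies -/
def Ker1St : Prop := ∃ C : ℝ, ∀ (M M' u : ℝ) (D a : ℕ), 1 ≤ M → M ≤ M' → M' ≤ Real.exp 9 * M →
  a < D → ‖∑ n ∈ Ioc ⌊M⌋₊ ⌊M'⌋₊ with n % D = a, e (u * Real.log n) / n -
    (D : ℂ)⁻¹ * ∫ v in Real.log M..Real.log M', e (u * v)‖ ≤ C * (1 + |u|) / M

/-- large frequencies -/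
def Ker2St : Prop := ∀ A : ℝ, ∃ c M0 : ℝ, 0 < c ∧ ∀ (M M' u : ℝ) (D a : ℕ), M0 ≤ M → M ≤ M' →
  M' ≤ Real.exp 9 * M → a < D → D ≤ M ^ c → M ^ (1 / 2 : ℝ) ≤ |u| → |u| ≤ M ^ A →
  ‖∑ n ∈ Ioc ⌊M⌋₊ ⌊M'⌋₊ with n % D = a, e (u * Real.log n) / n‖ ≤ M ^ (-c)

def KerSt : Prop := ∀ A : ℝ, ∃ c M0 : ℝ, 0 < c ∧ ∀ (M M' u : ℝ) (D a : ℕ), M0 ≤ M → M ≤ M' →
  M' ≤ Real.exp 9 * M → a < D → D ≤ M ^ c → |u| ≤ M ^ A →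
  ‖∑ n ∈ Ioc ⌊M⌋₊ ⌊M'⌋₊ with n % D = a, e (u * Real.log n) / n -
    (D : ℂ)⁻¹ * ∫ v in Real.log M..Real.log M', e (u * v)‖ ≤ M ^ (-c)

/-- periodic coefficients on a full box: only the zero frequency survives -/
def BoxSt : Prop := ∀ A : ℝ, ∃ c M0 : ℝ, 0 < c ∧ ∀ (M L : ℝ) (h : ℤ) (D q a : ℕ) (G : ℕ → ℂ),
  M0 ≤ M → 8 ≤ L → L ≤ 9 → a < D → 1 ≤ q → Nat.Coprime D q → (D * q : ℝ) ≤ M ^ c →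
  |(h : ℝ)| ≤ 2 * M ^ A → (∀ n, G (n + q) = G n) → (∀ n, ‖G n‖ ≤ 1) →
  ‖∑ n ∈ Ioc ⌊M⌋₊ ⌊Real.exp L * M⌋₊ with n % D = a, G n * (e (h / L * Real.log n) / n) -
    (if h = 0 then (L / (D * q) : ℂ) * ∑ b ∈ range q, G b else 0)‖ ≤ M ^ (-c)

/-- large values, integers -/
def HMiSt : Prop := ∀ A : ℝ, ∃ c M0 : ℝ, 0 < c ∧ ∀ (M L β : ℝ) (q : ℕ)
  (g : DirichletCharacter ℂ q → ℕ → ℂ) (F : Finset (ℤ × DirichletCharacter ℂ q)) (S : Finset ℕ)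
  (a : ℕ → ℂ), M0 ≤ M → 8 ≤ L → L ≤ 9 → 1 ≤ q → q ≤ M ^ c → GF q g → 0 ≤ β →
  (∀ χ, ∑ m ∈ range q, ‖g χ m‖ ^ 2 ≤ β * q) → #F ≤ M ^ c → (∀ ξ ∈ F, |(ξ.1 : ℝ)| ≤ M ^ A) →
  S ⊆ Ioc ⌊M⌋₊ ⌊Real.exp 8 * M⌋₊ →
  ∑ ξ ∈ F, ‖tw a (g ξ.2) (ξ.1 / L) S‖ ^ 2 ≤ (9 * β + M ^ (-c)) * ∑ m ∈ S, ‖a m‖ ^ 2 / m

/-- large values, primes -/
def HMpSt : Prop := ∀ A : ℝ, ∃ c C M0 : ℝ, 0 < c ∧ 0 < C ∧ ∀ (M L : ℝ) (q : ℕ)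
  (F : Finset (ℤ × DirichletCharacter ℂ q)) (S : Finset ℕ), M0 ≤ M → 8 ≤ L → L ≤ 9 → 1 ≤ q →
  q ≤ M ^ c → #F ≤ M ^ c → (∀ ξ ∈ F, |(ξ.1 : ℝ)| ≤ M ^ A) → S ⊆ Ioc ⌊M⌋₊ ⌊Real.exp 8 * M⌋₊ →
  (∀ p ∈ S, p.Prime) →
  ∑ ξ ∈ F, ‖tw 1 (fun n => ξ.2 n) (ξ.1 / L) S‖ ^ 2 ≤ C / Real.log M * LL S

/-- upper bound for `L`-functions near the line `1` -/
def LSt : Prop := ∀ (q : ℕ) (A δ : ℝ), 1 ≤ q → 0 < δ → ∃ X0 : ℝ, ∀ X ≥ X0,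
  ∀ (χ : DirichletCharacter ℂ q) (u : ℝ), 1 ≤ |u| → |u| ≤ X ^ A →
  ‖LSeries (fun n => χ n) (1 + (1 / Real.log X : ℝ) + Complex.I * u)‖ ≤ δ * Real.log X

/-- lower bound -/
def L2St : Prop := ∀ (q : ℕ) (A δ : ℝ), 1 ≤ q → 0 < δ → ∃ X0 : ℝ, ∀ X ≥ X0,
  ∀ (χ : DirichletCharacter ℂ q) (u : ℝ), |u| ≤ X ^ A →
  1 ≤ δ * Real.log X * ‖LSeries (fun n => χ n) (1 + (1 / Real.log X : ℝ) + Complex.I * u)‖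

/-- the product of the two Dirichlet series is bounded -/
def F1St : Prop := ∀ (q : ℕ) (χ : DirichletCharacter ℂ q) (g : ℕ → ℂ) (s : ℂ), 1 ≤ q → 1 < s.re →
  (∀ n, ‖g n‖ ≤ 1) → (∀ d n, Nat.Coprime d q → g (d * n) = χ d * g n) →
  ‖LSeries (fun n => lio n * g n) s‖ * ‖LSeries (fun n => χ n) s‖ ≤ 2 * q

def FSt : Prop := ∀ (q : ℕ) (A δ : ℝ), 1 ≤ q → 0 < δ → ∃ X0 : ℝ, ∀ X ≥ X0, ∃ Z0 : ℕ, ∀ Z ≥ Z0,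
  ∀ (χ : DirichletCharacter ℂ q) (g : ℕ → ℂ) (τ : ℝ), (∀ n, ‖g n‖ ≤ 1) →
  (∀ d n, Nat.Coprime d q → g (d * n) = χ d * g n) → |τ| ≤ X ^ A →
  ‖tw (fun n => lio n * ((n : ℝ) ^ (-(1 / Real.log X)) : ℝ)) g τ (Icc 1 Z)‖ ≤ δ * Real.log X

/-- low and high frequencies of a convolution -/
def ConvSt : Prop := ∀ (I : Finset ℕ) (a : ℕ → ℂ) (x : ℕ → ℤ) (B : ℤ → ℂ) (V : Finset ℤ)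
  (r0 : ℕ) (a0 Bd : ℝ), 1 ≤ r0 → (∀ v, v ∉ V → B v = 0) →
  (∀ θ : ℝ, |θ| ≤ 1 / r0 → ‖∑ n ∈ I, a n * e (-θ * x n)‖ ≤ a0) →
  (∀ r : ℕ, r < r0 → ∀ U : Finset ℤ,
    ∑ v ∈ U, ‖∑ n ∈ I, a n * B (v + r - x n) - ∑ n ∈ I, a n * B (v - x n)‖ ^ 2 ≤ Bd) →
  ∀ U : Finset ℤ, ∑ v ∈ U, ‖∑ n ∈ I, a n * B (v - x n)‖ ^ 2 ≤ a0 ^ 2 * ∑ v ∈ V, ‖B v‖ ^ 2 + Bd

/-- the grid -/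
structure GrSt : Prop where
  pos : ∀ N j, 0 < pw N j
  add : ∀ N j j', pw N (j + j') = pw N j * pw N j'
  mul : ∀ (N : ℕ) (i : ℕ), 1 ≤ N → pw N (i * N) = 2 ^ i
  mono : ∀ N j j', j ≤ j' → pw N j ≤ pw N j'
  step : ∀ (N r : ℕ), r ≤ N → pw N r ≤ 1 + r / N
  le_iff : ∀ (N n : ℕ) (j : ℤ), 1 ≤ N → 1 ≤ n → (lq N n ≤ j ↔ n ≤ pw N j)
  lq_mul : ∀ N d n : ℕ, 1 ≤ d → 1 ≤ n →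
    lq N (d * n) ≤ lq N d + lq N n ∧ lq N d + lq N n ≤ lq N (d * n) + 1
  lq_near : ∀ N n : ℕ, |(lq N n : ℝ) - N / Real.log 2 * Real.log n| ≤ 1
  card : ∀ (N : ℕ) (U : Finset ℤ) (x y : ℝ), 1 ≤ N → 0 < x → x ≤ y →
    (∀ j ∈ U, x ≤ pw N j ∧ pw N j ≤ y) → (#U : ℝ) ≤ 2 * N * Real.log (y / x) + 1
  geo : ∀ (N : ℕ) (U : Finset ℤ) (σ : ℝ), 1 ≤ N → 0 < σ → σ ≤ 1 → (∀ j ∈ U, 0 ≤ j) →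
    ∑ j ∈ U, pw N j ^ (-σ) ≤ 3 * N / σ
  hsum : ∀ x y : ℝ, 0 < x → x ≤ y →
    ∑ n ∈ Ioc ⌊x⌋₊ ⌊y⌋₊, 1 / (n : ℝ) ≤ Real.log (y / x) + min 1 (1 / x)
  zeta : ∀ (σ : ℝ) (S : Finset ℕ), 0 < σ → ∑ n ∈ S, (n : ℝ) ^ (-1 - σ) ≤ 1 + 1 / σ

/-- energy of the window sums over prime powers -/
def Hal1St : Prop := ∃ C : ℝ, 0 < C ∧ ∀ (N Z : ℕ) (b : ℕ → ℂ) (σ : ℝ) (U : Finset ℤ), 1 ≤ N →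
  0 < σ → σ ≤ 1 → (∀ d, ‖b d‖ ≤ ArithmeticFunction.vonMangoldt d * (d : ℝ) ^ (-1 - σ)) →
  ∑ v ∈ U, ‖hb N Z b v‖ ^ 2 ≤ C * N / σ

/-- shifts of the convolution -/
def Hal2St : Prop := ∃ C : ℝ, 0 < C ∧ ∀ (N Z r r0 : ℕ) (a b : ℕ → ℂ) (σ : ℝ) (U : Finset ℤ),
  r < r0 → r0 ≤ N → 0 < σ → σ ≤ 1 → (∀ n, ‖a n‖ ≤ (n : ℝ) ^ (-1 - σ)) →
  (∀ d, ‖b d‖ ≤ ArithmeticFunction.vonMangoldt d * (d : ℝ) ^ (-1 - σ)) →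
  ∑ v ∈ U, ‖hc N Z a b (v + r) - hc N Z a b v‖ ^ 2 ≤ C * N * ((r0 / N) ^ 2 / σ ^ 3 + 1)

/-- the convolution is the window sum weighted by the logarithm -/
def Hal3St : Prop := ∃ C : ℝ, 0 < C ∧ ∀ (N Z q : ℕ) (f f0 : ℕ → ℂ) (X : ℝ) (v : ℤ), 1 ≤ N → 1 ≤ q →
  100 ≤ X → 128 * X ≤ Z → X ^ (1 / 2 : ℝ) ≤ pw N v → pw N v ≤ X → (∀ n, ‖f n‖ ≤ 1) →
  (∀ d, ‖f0 d‖ ≤ 1) → (∀ d n, Nat.Coprime d q → f (d * n) = f0 d * f n) →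
  ‖hc N Z (fun n => f n * ((n : ℝ) ^ (-1 - 1 / Real.log X) : ℝ))
      (fun d => if Nat.Coprime d q then
        f0 d * (ArithmeticFunction.vonMangoldt d * (d : ℝ) ^ (-1 - 1 / Real.log X) : ℝ) else 0) v -
    (Real.log (pw N v) * pw N v ^ (-(1 / Real.log X)) : ℝ) *
      ∑ n ∈ Ioc ⌊pw N v⌋₊ ⌊64 * pw N v⌋₊, f n / n‖ ≤ C * (q + Real.log X / N)

/-- mean square form of the theorem of Halasz -/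
def HalSt : Prop := ∀ (q : ℕ) (A δ : ℝ), 1 ≤ q → 0 < δ → ∃ N1 : ℕ, ∀ N ≥ N1, ∃ X0 : ℝ, ∀ X ≥ X0,
  ∀ (χ : DirichletCharacter ℂ q) (g : ℕ → ℂ) (t : ℝ) (U : Finset ℤ), (∀ n, ‖g n‖ ≤ 1) →
  (∀ d n, Nat.Coprime d q → g (d * n) = χ d * g n) → |t| ≤ X ^ A →
  (∀ j ∈ U, X ^ (1 / 2 : ℝ) ≤ pw N j ∧ pw N j ≤ X) →
  ∑ j ∈ U, ‖FF g t (pw N j)‖ ^ 2 ≤ δ * N * Real.log X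

structure EbaSt : Prop where
  idn : ∀ (S : Finset ℕ) (g c : ℕ → ℂ) (t M : ℝ), 0 ≤ M → (∀ p ∈ S, p.Prime) → 0 < LL S →
    (∀ p ∈ S, ∀ m, g (p * m) = c p * g m) →
    FF g t M = tw (fun m => lio m * (1 - (#{p ∈ S | p ∣ m} : ℝ) / LL S : ℝ)) g t
      (Ioc ⌊M⌋₊ ⌊64 * M⌋₊) -
      (LL S : ℂ)⁻¹ * ∑ p ∈ S, c p / p * e (-t * Real.log p) * FF g t (M / p)
  tk : ∀ (S : Finset ℕ) (M : ℝ), 1 ≤ M → (∀ p ∈ S, p.Prime) → 0 < LL S → (#S : ℝ) ≤ M →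
    ∑ m ∈ Ioc ⌊M⌋₊ ⌊64 * M⌋₊,
      ‖lio m * ((1 - (#{p ∈ S | p ∣ m} : ℝ) / LL S : ℝ) : ℂ)‖ ^ 2 / m ≤ 192 / LL S
  sm : ∀ (M M' η : ℝ), 1 ≤ M → M ≤ M' → M' ≤ (1 + η) * M → η ≤ 1 →
    ∃ (a : ℕ → ℂ) (S : Finset ℕ), S ⊆ Ioc ⌊M⌋₊ ⌊Real.exp 8 * M⌋₊ ∧
      ∑ m ∈ S, ‖a m‖ ^ 2 / m ≤ 2 * (η + 1 / M) ∧ ∀ g t, FF g t M' - FF g t M = tw a g t S

/-- bounded denominators -/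
def EbSt : Prop := ∀ (Q0 : ℕ) (A ε : ℝ), 0 < ε → ∃ (c : ℝ) (N : ℕ) (X0 : ℝ), 0 < c ∧ 1 ≤ N ∧
  ∀ X ≥ X0, ∀ (L : ℝ) (q : ℕ) (g : DirichletCharacter ℂ q → ℕ → ℂ)
  (F : Finset (ℤ × DirichletCharacter ℂ q)) (U : Finset ℤ), 8 ≤ L → L ≤ 9 → 1 ≤ q → q ≤ Q0 →
  GF q g → #F ≤ X ^ c → (∀ ξ ∈ F, |(ξ.1 : ℝ)| ≤ X ^ A) →
  (∀ j ∈ U, X ^ (3 / 4 : ℝ) ≤ pw N j ∧ pw N j ≤ X) →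
  ∑ j ∈ U, ∑ ξ ∈ F, ‖FF (g ξ.2) (ξ.1 / L) (pw N j)‖ ^ 2 ≤ ε * N * Real.log X

/-- choice of the windows -/
def EcSt : Prop := ∀ (k : ℕ) (A ε : ℝ), 1 ≤ k → 0 < ε → ∃ c X0 : ℝ, 0 < c ∧ ∀ X ≥ X0,
  ∀ (L Y : ℝ) (q : ℕ) [NeZero q] (γ : Ph) (F : Finset (ℤ × DirichletCharacter ℂ q)) (i1 : ℕ),
  8 ≤ L → L ≤ 9 → q ≤ X ^ c → Den k q γ → #F ≤ X ^ c → (∀ ξ ∈ F, |(ξ.1 : ℝ)| ≤ X ^ A) →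
  X ^ (9 / 10 : ℝ) ≤ Y → Y ≤ X → (2 : ℝ) ^ i1 ≤ X ^ (1 / 10 : ℝ) →
  ∃ Mi : ℕ → ℝ, (∀ i < i1, Y / 2 ^ (i + 3) ≤ Mi i ∧ Mi i ≤ Y / 2 ^ (i + 2)) ∧
    ∑ i ∈ range i1, ∑ ξ ∈ F, ‖FF (gch k q γ ξ.2) (ξ.1 / L) (Mi i)‖ ^ 2 ≤ ε * Real.log X

def ESt : Prop := ∀ (k : ℕ) (a A ϑ : ℝ), 1 ≤ k → 0 < a → 0 < ϑ → ∃ c X0 : ℝ, 0 < c ∧ ∀ X ≥ X0,
  ∀ (L Y : ℝ) (q : ℕ) [NeZero q] (γ : Ph) (i0 i1 B : ℕ), 8 ≤ L → L ≤ 9 → q ≤ X ^ c → Den k q γ →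
  X ^ (9 / 10 : ℝ) ≤ Y → Y ≤ X → X ^ a ≤ (2 : ℝ) ^ i0 → (2 : ℝ) ^ i1 ≤ X ^ (1 / 10 : ℝ) → 1 ≤ B →
  ∀ F : Finset (ℤ × DirichletCharacter ℂ q), #F ≤ X ^ c → (∀ ξ ∈ F, |(ξ.1 : ℝ)| ≤ X ^ A) →
  ∃ Mi : ℕ → ℝ, (∀ i ∈ Ico i0 i1, Y / 2 ^ (i + 3) ≤ Mi i ∧ Mi i ≤ Y / 2 ^ (i + 2)) ∧
    ∑ ξ ∈ F, ‖tw (ft i0 i1 B Mi) (gch k q γ ξ.2) (ξ.1 / L) (Ioc ⌊Y / 8⌋₊ ⌊32 * Y⌋₊)‖ ≤ ϑ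

end Pool.Agent.Lib.MP_028aa5_nt.T
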