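import Pool.Agent.Lib.MP_028aa5_nt.T.St4

/-! Statements, part 5: the asymptotic regime and the assembly. -/

namespace Pool.Agent.Lib.MP_028aa5_nt.T

open Finset
open scoped ComplexConjugate Classical

/-- growth comparisons in the regime; `Real.log X ^ (3 / 4)` measures negligible factors -/
structure RegSt : Prop where
  base : ∀ (k : ℕ) (C D K : ℝ), 1 ≤ k → 0 < D → ∃ X0 : ℝ, ∀ X ≥ X0, ∀ π : Par, π.k = k →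
    Reg π X C D → K ≤ X ∧ K ≤ Real.log X ∧ K ≤ Real.log π.P ∧ K ≤ π.P ∧
      Real.log X ≤ Real.log π.P ^ 3 ∧ K * Real.log π.P ≤ Real.log X ^ (1 / 2 : ℝ) ∧
      π.P ^ (9 / 10 : ℝ) ≤ #π.PP ∧ (#π.PP : ℝ) ≤ π.P + 1 ∧ K * Real.log X * π.κ ≤ 1
  poly : ∀ (K c : ℝ) (d : ℕ), 0 < c → ∃ y0 : ℝ, ∀ y ≥ y0, K * Real.log y ^ d ≤ y ^ c
  small : ∀ K c : ℝ, 0 < c → ∃ X0 : ℝ, ∀ X ≥ X0,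
    Real.exp (K * Real.log X ^ (3 / 4 : ℝ)) ≤ X ^ c
  fact : ∀ (k : ℕ) (C D K : ℝ), 1 ≤ k → 0 < D → 0 ≤ K → ∃ X0 : ℝ, ∀ X ≥ X0, ∀ π : Par, π.k = k →
    Reg π X C D → ∀ n : ℕ, n * Real.log π.P ≤ K * Real.log X →
      (K * (n + 1) * π.P / #π.PP) ^ n ≤ Real.exp (Real.log X ^ (3 / 4 : ℝ)) ∧
      (K * (n + 1) ^ 2) ^ n ≤ Real.exp (Real.log X ^ (3 / 4 : ℝ))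

def IterXSt : Prop := ∀ (k M : ℕ) (C D ε : ℝ), 1 ≤ k → 1 ≤ M → 0 < D → 0 < ε → ε ≤ 1 / 200 →
  ∃ X0 : ℝ, ∀ X ≥ X0, ∀ (π : Par) (N : Net) (E : Finset N.Ed) (φ : N.W → Ph) (ρ Y : ℝ),
  π.k = k → π.M = M → Reg π X C D → N.Is π E → 0 ≤ ρ → ρ ≤ 1 → N.Lv π 1 ρ φ E →
  N.Ray π.ν E (1 - ε) → (∀ x, Y ≤ N.pos π x) → π.P ^ 92171 ≤ π.κ * Y →
  ∃ (R : ℕ) (E' : Finset N.Ed) (φ' : N.W → Ph), X ^ (7 * k + 2) ≤ R ∧ E' ⊆ E ∧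
    (∀ x, EqZ π.k (φ' x) (φ x)) ∧ N.Lv π R ρ φ' E' ∧ N.Ray π.ν E' (1 - 2 * ε)

def LevXSt : Prop := ∀ (k M tm : ℕ) (C D c : ℝ), 1 ≤ k → 1 ≤ M → 1 ≤ tm → 0 < D → 0 < c →
  ∃ X0 : ℝ, ∀ X ≥ X0, ∀ (π : Par) (N : Net) (E : Finset N.Ed) (φ : N.W → Ph) (ρ Y ε : ℝ) (R Nc : ℕ),
  π.k = k → π.M = M → Reg π X C D → N.Is π E → 0 ≤ ρ → ρ ≤ 1 → N.Lv π R ρ φ E →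
  N.Ray π.ν E (1 - ε) → ε + 1 / tm < 1 / 2 → X ^ (7 * k + 2) ≤ R →
  Fintype.card N.W ≤ 2 * π.M * Nc → Nc * π.κ1 ≤ 2 → (Nc : ℝ) * M ≤ X → 1 ≤ Y → 1 ≤ π.κ * Y →
  (∀ x, Y ≤ N.pos π x ∧ N.pos π x ≤ 4 * X) →
  ∃ (E' : Finset N.Ed) (γ τ : N.W → Ph), E' ⊆ E ∧ (∀ x, φ x = γ x + τ x) ∧
    Dec π (X ^ c) (X ^ (7 * k)) ρ N E' γ τ ∧ N.Ray π.ν E' (1 - 2 * ε - 2 / tm)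

/-- from the stable scale to one component -/
def CoreASt : Prop := ∀ (k : ℕ) (ε1 ρ2 : ℝ), 1 ≤ k → 0 < ε1 → 0 < ρ2 → ∃ ε ρ : ℝ, 0 < ε ∧ 0 < ρ ∧
  ρ ≤ 1 ∧ ∀ (M : ℕ) (C D c : ℝ), 1 ≤ M → 0 < D → 0 < c → ∃ X0 : ℝ, ∀ X ≥ X0,
  ∀ (π : Par) (N : Net) (E : Finset N.Ed) (φ : N.W → Ph) (Y : ℝ) (Nc Jm : ℕ),
  π.k = k → π.M = M → Reg π X C D → N.Is π E → N.Lv π 1 ρ φ E → N.Ray π.ν E (1 - ε) →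
  Fintype.card N.W ≤ 2 * π.M * Nc → Nc * π.κ1 ≤ 2 → (Nc : ℝ) * M ≤ X → 1 ≤ Y →
  π.P ^ 92171 ≤ π.κ * Y → (∀ x, Y ≤ N.pos π x ∧ N.pos π x ≤ 4 * X) →
  (∀ x, (N.cell x + 1) * π.Nf ≤ Jm) →
  ∃ (E' : Finset N.Ed) (γ τ : N.W → Ph) (q : ℕ) (_ : NeZero q) (γ0 t : Ph)
    (vU vL : ℕ → (ZMod q)ˣ → ℝ) (Gd : Finset (ℕ × (ZMod q)ˣ × ℕ)), E' ⊆ E ∧
    (∀ x, EqZ π.k (φ x) (γ x + τ x)) ∧ q ≤ X ^ c ∧ wn π.k π.κ t ≤ X ^ (7 * k + 1) ∧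
    Blk π N E' γ τ q γ0 t vU vL Gd Jm (1 - ε1) ρ2

def SparseXSt : Prop := ∀ (k : ℕ) (C D c : ℝ), 1 ≤ k → 0 < D → 0 < c → ∃ X0 : ℝ, ∀ X ≥ X0,
  ∀ (π : Par) (N0 q : ℕ) [NeZero N0] [NeZero q], π.k = k → Reg π X C D → 8 ≤ N0 * π.κ0 →
  N0 * π.κ0 ≤ 9 → q ≤ X ^ (c / 4) → (#(spec π N0 q) : ℝ) ≤ X ^ c

/-- one component is impossible -/
def CoreBSt : Prop := ∀ (k : ℕ) (η a : ℝ), 1 ≤ k → 0 < η → η ≤ 1 → 0 < a →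
  ∃ (ε1 ε2 ρ2 : ℝ) (G0 : ℕ) (c : ℝ), 0 < ε1 ∧ 0 < ε2 ∧ 0 < ρ2 ∧ 0 < c ∧ ∀ C D : ℝ, 0 < D →
  ∃ X0 : ℝ, ∀ X ≥ X0, ∀ (π : Par) (i0 i1 B cL cU Nc Jm : ℕ) (N : Net) (E : Finset N.Ed)
  (φ γ τ : N.W → Ph) (q : ℕ) [NeZero q] (γ0 t : Ph) (vU vL : ℕ → (ZMod q)ˣ → ℝ)
  (Gd : Finset (ℕ × (ZMod q)ˣ × ℕ)), π.k = k → G0 ≤ π.G → Reg π X C D →
  X ^ a ≤ (2 : ℝ) ^ i0 → (2 : ℝ) ^ i1 ≤ X ^ (1 / 10 : ℝ) → 2 ≤ a * B → N.Is π E →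
  Real0 π (fw (SS i0 i1) B) η ε2 cL cU Nc N E φ → cL ≤ cU → Nc * π.κ1 ≤ Real.log 4 →
  X ^ (9 / 10 : ℝ) ≤ π.ps cL → π.ps cL ≤ X → π.P ≤ π.κ * π.ps cL →
  (∀ x, (N.cell x + 1) * π.Nf ≤ Jm) → (∀ x, EqZ π.k (φ x) (γ x + τ x)) → q ≤ X ^ c →
  wn π.k π.κ t ≤ X ^ (7 * k + 1) → Blk π N E γ τ q γ0 t vU vL Gd Jm (1 - ε1) ρ2 → False

/-- no graph at the stable scale -/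
def CoreSt : Prop := ∀ (k : ℕ) (η a : ℝ), 1 ≤ k → 0 < η → η ≤ 1 → 0 < a →
  ∃ (ε ε2 ρ : ℝ) (G0 : ℕ), 0 < ε ∧ 0 < ε2 ∧ 0 < ρ ∧ ρ ≤ 1 ∧ ∀ (M : ℕ) (C D : ℝ), 1 ≤ M → 0 < D →
  ∃ X0 : ℝ, ∀ X ≥ X0, ∀ (π : Par) (i0 i1 B cL cU Nc : ℕ) (N : Net) (E : Finset N.Ed)
  (φ : N.W → Ph), π.k = k → π.M = M → G0 ≤ π.G → Reg π X C D →
  X ^ a ≤ (2 : ℝ) ^ i0 → (2 : ℝ) ^ i1 ≤ X ^ (1 / 10 : ℝ) → 2 ≤ a * B → N.Is π E →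
  N.Lv π 1 ρ φ E → N.Ray π.ν E (1 - ε) → Real0 π (fw (SS i0 i1) B) η ε2 cL cU Nc N E φ →
  cL ≤ cU → Nc * π.κ1 ≤ Real.log 4 → (Nc : ℝ) * M ≤ X → X ^ (9 / 10 : ℝ) ≤ π.ps cL →
  π.ps cU ≤ X → π.P ^ 92171 ≤ π.κ * π.ps cL → False

/-- the grid and the prime range at height `X` -/
def SetupSt : Prop := ∀ L : ℝ, ∃ a : ℝ, 0 < a ∧ ∀ (k G M : ℕ) (C1 K : ℝ), 1 ≤ G → 0 < C1 →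
  ∃ X0 : ℝ, ∀ X ≥ X0, ∃ (Nf c0 Nc i0 i1 : ℕ), 1 ≤ Nf ∧ X ^ a ≤ (2 : ℝ) ^ i0 ∧
    (2 : ℝ) ^ i1 ≤ X ^ (1 / 10 : ℝ) ∧ L ≤ LL (SS i0 i1) ∧ ∀ π : Par, π.k = k → π.G = G →
    π.Nf = Nf → π.κ0 = X ^ (-(7 * k + 4 : ℝ)) →
    Real.exp (C1 * Real.log X ^ (1 / 3 : ℝ)) ≤ π.κ * π.ps c0 ∧
    π.κ * X ≤ 8 * Real.exp (C1 * Real.log X ^ (1 / 3 : ℝ)) ∧ π.κ * K ≤ 1 ∧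
    π.κ ≤ X ^ (-(1 / 2 : ℝ)) ∧ X / 2 ≤ π.ps c0 ∧ π.ps c0 ≤ X ∧ 3 * X ≤ π.ps (c0 + Nc) ∧
    π.ps (c0 + Nc) ≤ 4 * X ∧ 1 ≤ Nc * π.κ1 ∧ Nc * π.κ1 ≤ Real.log 4 ∧ (Nc : ℝ) * M ≤ X

def MainSt : Prop := ∀ (k : ℕ) (η : ℝ), 1 ≤ k → 0 < η → ∃ C X0 : ℝ, ∀ X ≥ X0, ∀ H : ℝ,
  Real.exp (C * Real.log X ^ (1 / 3 : ℝ)) ≤ H → H ≤ X →
  ∫ x in X..2 * X, supS k H x ≤ η * (H * X)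

end Pool.Agent.Lib.MP_028aa5_nt.T
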