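import Pool.Agent.Lib.MP_028aa5_nt.T.St1

/-! Inverse Weyl inequality for complete sums. -/

namespace Pool.Agent.Lib.MP_028aa5_nt.T

open Finset
open scoped ComplexConjugate Classical

namespace W3

lemma per (k N : ℕ) (γ : Ph) (h : EqZ k (fun j => N * γ j) 0) :
    Function.Periodic (fun m : ℕ => e (ph k γ m)) N := by
  intro m
  have h1 : ∀ j ∈ Icc 1 k, ∃ n : ℤ, γ j * ((m + N : ℕ) : ℝ) ^ j = γ j * (m : ℝ) ^ j + n := by
    intro j hj
    obtain ⟨n, hn⟩ := h j hj
    obtain ⟨c, hc⟩ := sub_dvd_pow_sub_pow ((m : ℤ) + N) m j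
    have h2 : ((m : ℝ) + N) ^ j - (m : ℝ) ^ j = N * c := by
      rw [add_sub_cancel_left] at hc
      exact_mod_cast hc
    refine ⟨n * c, ?_⟩
    simp only [Pi.zero_apply, zero_add] at hn
    push_cast
    linear_combination γ j * h2 + c * hn
  choose! n hn using h1
  have h3 : ph k γ ((m + N : ℕ) : ℝ) = ph k γ m + ((∑ j ∈ Icc 1 k, n j : ℤ) : ℝ) := by
    unfold ph
    rw [sum_congr rfl hn, sum_add_distrib, Int.cast_sum]
  simp only [h3, e_add, e_int, mul_one]

lemma blk {N : ℕ} {g : ℕ → ℂ} (h : Function.Periodic g N) (a : ℕ) :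
    ∑ n ∈ Ioc a (a + N), g n = ∑ m ∈ range N, g m := by
  have h0 : ∀ a, ∑ n ∈ Ico a (a + N), g n = ∑ m ∈ range N, g m := by
    intro a
    induction a with
    | zero => rw [zero_add, range_eq_Ico]
    | succ a ih =>
      have h1 := sum_Ico_succ_top (Nat.le_add_right a N) g
      have h2 := sum_eq_sum_Ico_succ_bot (by omega : a < a + N + 1) g
      rw [h a] at h1
      rw [← ih, show a + 1 + N = a + N + 1 by ring]
      linear_combination h1 - h2
  rw [← h0 (a + 1), show a + 1 + N = a + N + 1 by ring, Ico_add_one_add_one_eq_Ioc]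

lemma blks {N : ℕ} {g : ℕ → ℂ} (h : Function.Periodic g N) (a T : ℕ) :
    ∑ n ∈ Ioc a (a + N * T), g n = T * ∑ m ∈ range N, g m := by
  induction T with
  | zero => simp
  | succ T ih =>
    rw [← sum_Ioc_consecutive g (Nat.le_add_right a (N * T)) (by nlinarith), ih,
      show a + N * (T + 1) = a + N * T + N by ring, blk h]
    push_cast
    ring

end W3

open W3 in
theorem st_W3 (hW1 : W1St) (hN2 : N2St) : W3St := by
  intro k ε hk hε
  obtain ⟨Q, B, K0, hQ⟩ := hW1 k (max 1 (1 / ε)) hk (le_max_left _ _)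
  refine ⟨Q, fun N γ hN hγ hs => ?_⟩
  obtain ⟨T, hT⟩ := exists_nat_gt (max 1 (max K0 (2 ^ k * B * Q)))
  have T1 : (1 : ℝ) < T := (le_max_left _ _).trans_lt hT
  have T2 : K0 < T := ((le_max_left _ _).trans (le_max_right _ _)).trans_lt hT
  have T3 : 2 ^ k * B * Q < T := ((le_max_right _ _).trans (le_max_right _ _)).trans_lt hT
  have N1 : (1 : ℝ) ≤ N := by exact_mod_cast hN
  have hy : (T : ℝ) ≤ ((N * T : ℕ) : ℝ) := by
    push_cast
    nlinarith
  obtain ⟨q, z, hq1, hqQ, hz⟩ := hQ 1 ((N * T : ℕ) : ℝ) γ one_pos le_rfl (by linarith) (by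
    rw [show ((N * T : ℕ) : ℝ) * (1 + 1) = ((N * T + N * T : ℕ) : ℝ) by push_cast; ring,
      Nat.floor_natCast, Nat.floor_natCast, blks (per k N γ hγ), norm_mul, Complex.norm_natCast,
      one_mul, div_le_iff₀ (lt_max_of_lt_left one_pos)]
    have h1 : (N : ℝ) ≤ ‖∑ m ∈ range N, e (ph k γ m)‖ * max 1 (1 / ε) := by
      calc (N : ℝ) = ε * N * (1 / ε) := by field_simp
        _ ≤ _ := mul_le_mul hs (le_max_right _ _) (by positivity) (norm_nonneg _)
    push_cast
    rw [mul_assoc, mul_comm (N : ℝ)]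
    exact mul_le_mul_of_nonneg_left h1 (by linarith))
  refine ⟨q, hq1, hqQ, fun j hj => ⟨z j, ?_⟩⟩
  obtain ⟨n, hn⟩ := hγ j hj
  simp only [Pi.zero_apply, zero_add] at hn ⊢
  have q1 : (1 : ℝ) ≤ q := by exact_mod_cast hq1
  have qQ : (q : ℝ) ≤ Q := by exact_mod_cast hqQ
  have h1 := hN2.coef k 1 ((N * T : ℕ) : ℝ) (γ - fun j => (z j : ℝ) / q) one_pos le_rfl
    (by linarith) j hj
  rw [div_one, Pi.sub_apply] at h1
  have h2 : |γ j - z j / q| * ((N * T : ℕ) : ℝ) ≤ 2 ^ k * B := by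
    refine le_trans ?_ (h1.trans (mul_le_mul_of_nonneg_left hz (by positivity)))
    exact mul_le_mul_of_nonneg_left (le_self_pow₀ (by linarith) (by
      have := (mem_Icc.1 hj).1
      omega)) (abs_nonneg _)
  have h3 : ((q * n - N * z j : ℤ) : ℝ) = N * q * (γ j - z j / q) := by
    push_cast
    rw [← hn]
    field_simp
  have h4 : |((q * n - N * z j : ℤ) : ℝ)| * T < 1 * T := by
    rw [h3, abs_mul, abs_of_nonneg (by positivity : (0 : ℝ) ≤ N * q)]
    have h5 : 0 ≤ 2 ^ k * B := le_trans (by positivity) h2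
    calc _ = |γ j - z j / q| * ((N * T : ℕ) : ℝ) * q := by
          push_cast
          ring
      _ ≤ 2 ^ k * B * Q := mul_le_mul h2 qQ (by positivity) h5
      _ < _ := by linarith
  have h6 : |q * n - N * z j| < 1 := by
    exact_mod_cast lt_of_mul_lt_mul_right h4 (by positivity)
  rw [Int.abs_lt_one_iff.1 h6] at h3
  have h7 : γ j - z j / q = 0 := by
    refine (mul_eq_zero.1 (Int.cast_zero.symm.trans h3).symm).resolve_left (by positivity)
  rw [sub_eq_zero.1 h7]
  field_simp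

end Pool.Agent.Lib.MP_028aa5_nt.T
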